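import Mathlib

set_option autoImplicit false

/-!
# The minimal rank argument

`V` is a finite-dimensional vector space with a commutative bilinear product `m` such that the
square of every square is zero and the products span `V`. Then `V = 0`.
-/

namespace Pool.Agent.Alb

universe u v

section core

variable {F : Type u} [Field F] {V : Type v} [AddCommGroup V] [Module F V]
  (m : V →ₗ[F] V →ₗ[F] V)

theorem sq_add (comm : ∀ x y, m x y = m y x) (x y : V) :
    m (x + y) (x + y) = m x x + (2 : F) • m x y + m y y := by
  simp only [map_add, LinearMap.add_apply]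
  rw [comm y x]
  module

theorem sq_sub (comm : ∀ x y, m x y = m y x) (x y : V) :
    m (x - y) (x - y) = m x x - (2 : F) • m x y + m y y := by
  simp only [map_sub, LinearMap.sub_apply]
  rw [comm y x]
  module

theorem exp_add (comm : ∀ x y, m x y = m y x) (a b c : V) :
    m (a + (2 : F) • c + b) (a + (2 : F) • c + b)
      = m a a + m b b + (4 : F) • m c c + (4 : F) • m a c + (4 : F) • m b c
        + (2 : F) • m a b := by
  simp only [map_add, LinearMap.add_apply, map_smul, LinearMap.smul_apply]
  rw [comm c a, comm c b, comm b a]
  module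

theorem exp_sub (comm : ∀ x y, m x y = m y x) (a b c : V) :
    m (a - (2 : F) • c + b) (a - (2 : F) • c + b)
      = m a a + m b b + (4 : F) • m c c - (4 : F) • m a c - (4 : F) • m b c
        + (2 : F) • m a b := by
  simp only [map_add, map_sub, LinearMap.add_apply, LinearMap.sub_apply, map_smul,
    LinearMap.smul_apply]
  rw [comm c a, comm c b, comm b a]
  module

variable (two : (2 : F) ≠ 0) (comm : ∀ x y, m x y = m y x)
  (sq : ∀ x, m (m x x) (m x x) = 0)

include two comm sq

theorem even_part (x y : V) : m (m x x) (m y y) = (-2 : F) • m (m x y) (m x y) := by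
  have h1 := sq (x + y)
  have h2 := sq (x - y)
  rw [sq_add m comm, exp_add m comm, sq x, sq y] at h1
  rw [sq_sub m comm, exp_sub m comm, sq x, sq y] at h2
  have h3 : (4 : F) • (m (m x x) (m y y) + (2 : F) • m (m x y) (m x y)) = 0 := by
    linear_combination (norm := module) h1 + h2
  have four : (4 : F) ≠ 0 := by
    have : (4 : F) = 2 * 2 := by norm_num
    rw [this]
    exact mul_ne_zero two two
  have h4 := (smul_eq_zero.mp h3).resolve_left four
  linear_combination (norm := module) h4

theorem odd_part (x y : V) :
    m (m x x) (m x y) = - m (m y y) (m y x) := by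
  have h1 := sq (x + y)
  have h2 := sq (x - y)
  rw [sq_add m comm, exp_add m comm, sq x, sq y] at h1
  rw [sq_sub m comm, exp_sub m comm, sq x, sq y] at h2
  have h3 : (8 : F) • (m (m x x) (m x y) + m (m y y) (m x y)) = 0 := by
    linear_combination (norm := module) h1 - h2
  have eight : (8 : F) ≠ 0 := by
    have : (8 : F) = 2 * 2 * 2 := by norm_num
    rw [this]
    exact mul_ne_zero (mul_ne_zero two two) two
  have h4 := (smul_eq_zero.mp h3).resolve_left eight
  rw [comm y x]
  linear_combination (norm := module) h4

/-- `x²(yz) = -2 (xy)(xz)`. -/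
theorem homotopy (x y z : V) :
    m (m x x) (m y z) = (-2 : F) • m (m x y) (m x z) := by
  have h1 := even_part m two comm sq x (y + z)
  have h2 := even_part m two comm sq x y
  have h3 := even_part m two comm sq x z
  rw [sq_add m comm] at h1
  simp only [map_add, LinearMap.add_apply, map_smul] at h1
  rw [comm (m x z) (m x y)] at h1
  have h4 : (2 : F) • (m (m x x) (m y z) - (-2 : F) • m (m x y) (m x z)) = 0 := by
    linear_combination (norm := module) h1 - h2 - h3
  have h5 := (smul_eq_zero.mp h4).resolve_left two
  exact sub_eq_zero.mp h5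

omit sq in
/-- A linear map that kills the squares kills the products. -/
theorem kills_mul {W : Type*} [AddCommGroup W] [Module F W] (f : V →ₗ[F] W)
    (h : ∀ x, f (m x x) = 0) (x y : V) : f (m x y) = 0 := by
  have h1 := h (x + y)
  rw [sq_add m comm] at h1
  simp only [map_add, map_smul, h x, h y, zero_add, add_zero] at h1
  exact (smul_eq_zero.mp h1).resolve_left two

variable (perf : Submodule.span F {z : V | ∃ a b : V, z = m a b} = ⊤)

include perf

omit two comm sq in
theorem zero_of_mul {W : Type*} [AddCommGroup W] [Module F W] (f : V →ₗ[F] W)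
    (h : ∀ x y, f (m x y) = 0) : f = 0 := by
  have h1 : (⊤ : Submodule F V) ≤ LinearMap.ker f := by
    rw [← perf, Submodule.span_le]
    rintro z ⟨a, b, rfl⟩
    exact h a b
  ext v
  exact h1 (Submodule.mem_top)

omit sq in
theorem zero_of_sq {W : Type*} [AddCommGroup W] [Module F W] (f : V →ₗ[F] W)
    (h : ∀ x, f (m x x) = 0) : f = 0 :=
  zero_of_mul m perf f (kills_mul m two comm f h)

/-- `x²(xy) = 0`. -/
theorem cube_part (x y : V) : m (m x x) (m x y) = 0 := by
  have h : (-(m (m y y)).comp (m y)) = 0 := by
    refine zero_of_sq m two comm perf _ ?_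
    intro z
    have h1 := odd_part m two comm sq (m z z) y
    rw [sq z] at h1
    simp only [map_zero, LinearMap.zero_apply] at h1
    simpa using h1.symm
  rw [odd_part m two comm sq x y]
  have h2 := LinearMap.congr_fun h x
  simpa using h2

/-- The bilinear form of a functional. -/
def form (m : V →ₗ[F] V →ₗ[F] V) (φ : V →ₗ[F] F) : V →ₗ[F] V →ₗ[F] F :=
  m.compr₂ φ

omit perf two comm sq in
@[simp] theorem form_apply (φ : V →ₗ[F] F) (y z : V) : form m φ y z = φ (m y z) := rfl

variable [FiniteDimensional F V]

theorem eq_zero_of_min (φ : V →ₗ[F] F)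
    (hmin : ∀ ψ : V →ₗ[F] F, ψ ≠ 0 →
      Module.finrank F (LinearMap.range (form m φ)) ≤
        Module.finrank F (LinearMap.range (form m ψ))) : φ = 0 := by
  have key : ∀ x : V, φ.comp (m (m x x)) = 0 := by
    intro x
    by_contra hψ
    have h1 := hmin _ hψ
    -- the range of the form of psi is the image of `W` under the transpose
    set W : Submodule F (V →ₗ[F] F) := LinearMap.range ((form m φ).comp (m x)) with hW
    have h2 : LinearMap.range (form m (φ.comp (m (m x x)))) ≤
        W.map ((-2 : F) • (m x).dualMap) := by
      rintro _ ⟨y, rfl⟩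
      refine ⟨(form m φ) (m x y), ⟨y, rfl⟩, ?_⟩
      ext z
      have := homotopy m two comm sq x y z
      simp only [LinearMap.smul_apply, form_apply, LinearMap.comp_apply, this, map_smul,
        LinearMap.dualMap_apply]
    have h3 : Module.finrank F (LinearMap.range (form m (φ.comp (m (m x x))))) ≤
        Module.finrank F W :=
      (Submodule.finrank_mono h2).trans (Submodule.finrank_map_le _ _)
    have h4 : W ≤ LinearMap.range (form m φ) := by
      rintro _ ⟨y, rfl⟩
      exact ⟨m x y, rfl⟩
    have h5 : W = LinearMap.range (form m φ) :=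
      Submodule.eq_of_le_of_finrank_le h4 (h1.trans h3)
    apply hψ
    ext z
    have h6 : form m φ z ∈ W := by
      rw [h5]
      exact ⟨z, rfl⟩
    obtain ⟨y, hy⟩ := h6
    have h7 := LinearMap.congr_fun hy (m x x)
    simp only [LinearMap.comp_apply, form_apply] at h7
    rw [comm (m x y) (m x x), cube_part m two comm sq perf x y, map_zero] at h7
    simp only [LinearMap.comp_apply, LinearMap.zero_apply]
    rw [comm (m x x) z]
    exact h7.symm
  refine zero_of_mul m perf φ ?_
  intro u z
  have h8 : (form m φ).flip z = 0 := by
    refine zero_of_sq m two comm perf _ ?_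
    intro x
    have := LinearMap.congr_fun (key x) z
    simpa using this
  have := LinearMap.congr_fun h8 u
  simpa using this

/-- A finite-dimensional commutative algebra in which the square of every square is zero and
which is spanned by products is zero. -/
theorem subsingleton_of_perfect : Subsingleton V := by
  by_contra hV
  rw [not_subsingleton_iff_nontrivial] at hV
  obtain ⟨v, hv⟩ := exists_ne (0 : V)
  have hex : ∃ φ : V →ₗ[F] F, φ ≠ 0 := by
    by_contra hno
    push Not at hno
    apply hv
    rw [← Module.forall_dual_apply_eq_zero_iff F v]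
    intro φ
    rw [hno φ]
    rfl
  classical
  have hex2 : ∃ n : ℕ, ∃ φ : V →ₗ[F] F, φ ≠ 0 ∧
      Module.finrank F (LinearMap.range (form m φ)) = n := by
    obtain ⟨φ, hφ⟩ := hex
    exact ⟨_, φ, hφ, rfl⟩
  obtain ⟨φ, hφ, hn⟩ := Nat.find_spec hex2
  apply hφ
  refine eq_zero_of_min m two comm sq perf φ ?_
  intro ψ hψ
  rw [hn]
  exact Nat.find_min' hex2 ⟨ψ, hψ, rfl⟩

end core

end Pool.Agent.Alb
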