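import Mathlib
import Pool.Agent.Lib_MP_380d39.Core

set_option autoImplicit false

/-!
# The relative minimal rank argument

`V` is a finite-dimensional vector space with a commutative bilinear product `m` whose products
span `V`. Let `K`, `D` be subspaces which contain all squares of squares, `D` spanned by squares,
`D K` contained in `D` and in `K`. Then `K = V`. In particular `V` is generated by the squares of
its squares.
-/

namespace Pool.Agent.Alb

universe u v

section rel

variable {F : Type u} [Field F] {V : Type v} [AddCommGroup V] [Module F V]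
  (m : V →ₗ[F] V →ₗ[F] V)

/-- Rank of the form of a functional. -/
noncomputable def rk (φ : V →ₗ[F] F) : ℕ := Module.finrank F (LinearMap.range (form m φ))

/-- `φ` kills the squares of squares. -/
def Good1 (φ : V →ₗ[F] F) : Prop := ∀ x, φ (m (m x x) (m x x)) = 0

/-- `φ` kills `x²(xy)`. -/
def Good2 (φ : V →ₗ[F] F) : Prop := ∀ x y, φ (m (m x x) (m x y)) = 0

variable {m} (two : (2 : F) ≠ 0) (comm : ∀ x y, m x y = m y x)

include two comm

theorem g_even {φ : V →ₗ[F] F} (hφ : Good1 m φ) (x y : V) :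
    φ (m (m x x) (m y y)) = -2 * φ (m (m x y) (m x y)) := by
  have h1 := hφ (x + y)
  have h2 := hφ (x - y)
  rw [sq_add m comm, exp_add m comm] at h1
  rw [sq_sub m comm, exp_sub m comm] at h2
  simp only [map_add, map_sub, map_smul, smul_eq_mul, hφ x, hφ y] at h1 h2
  have h3 : (4 : F) * (φ (m (m x x) (m y y)) + 2 * φ (m (m x y) (m x y))) = 0 := by
    linear_combination h1 + h2
  have four : (4 : F) ≠ 0 := by
    have : (4 : F) = 2 * 2 := by norm_num
    rw [this]
    exact mul_ne_zero two two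
  have h4 := (mul_eq_zero.mp h3).resolve_left four
  linear_combination h4

theorem g_odd {φ : V →ₗ[F] F} (hφ : Good1 m φ) (x y : V) :
    φ (m (m x x) (m x y)) = - φ (m (m y y) (m y x)) := by
  have h1 := hφ (x + y)
  have h2 := hφ (x - y)
  rw [sq_add m comm, exp_add m comm] at h1
  rw [sq_sub m comm, exp_sub m comm] at h2
  simp only [map_add, map_sub, map_smul, smul_eq_mul, hφ x, hφ y] at h1 h2
  have h3 : (8 : F) * (φ (m (m x x) (m x y)) + φ (m (m y y) (m x y))) = 0 := by
    linear_combination h1 - h2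
  have eight : (8 : F) ≠ 0 := by
    have : (8 : F) = 2 * 2 * 2 := by norm_num
    rw [this]
    exact mul_ne_zero (mul_ne_zero two two) two
  have h4 := (mul_eq_zero.mp h3).resolve_left eight
  rw [comm y x]
  linear_combination h4

theorem g_homotopy {φ : V →ₗ[F] F} (hφ : Good1 m φ) (x y z : V) :
    φ (m (m x x) (m y z)) = -2 * φ (m (m x y) (m x z)) := by
  have h1 := g_even two comm hφ x (y + z)
  have h2 := g_even two comm hφ x y
  have h3 := g_even two comm hφ x z
  rw [sq_add m comm] at h1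
  simp only [map_add, LinearMap.add_apply, map_smul, smul_eq_mul] at h1
  rw [comm (m x z) (m x y)] at h1
  have h4 : (2 : F) * (φ (m (m x x) (m y z)) + 2 * φ (m (m x y) (m x z))) = 0 := by
    linear_combination h1 - h2 - h3
  have h5 := (mul_eq_zero.mp h4).resolve_left two
  linear_combination h5

/-- The second condition is automatic if some scalar `t` has `t ^ 3 ≠ t`, that is, if the field
has an element outside `{0, 1, -1}`. -/
theorem good2_of_ne {t : F} (ht : t ^ 3 ≠ t) {φ : V →ₗ[F] F} (hφ : Good1 m φ) : Good2 m φ := by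
  intro x y
  have h1 := g_odd two comm hφ x y
  have h2 := g_odd two comm hφ x (t • y)
  simp only [map_smul, LinearMap.smul_apply, smul_eq_mul] at h2
  have h3 : (t ^ 3 - t) * φ (m (m x x) (m x y)) = 0 := by
    linear_combination (-1 : F) * h2 + t ^ 3 * h1
  exact (mul_eq_zero.mp h3).resolve_left (sub_ne_zero.mpr ht)

variable [FiniteDimensional F V]

omit [FiniteDimensional F V] in
theorem range_le {φ : V →ₗ[F] F} (hφ : Good1 m φ) (x : V) :
    LinearMap.range (form m (φ.comp (m (m x x)))) ≤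
      (LinearMap.range ((form m φ).comp (m x))).map ((-2 : F) • (m x).dualMap) := by
  rintro _ ⟨y, rfl⟩
  refine ⟨(form m φ) (m x y), ⟨y, rfl⟩, ?_⟩
  ext z
  have := g_homotopy two comm hφ x y z
  simp only [LinearMap.smul_apply, form_apply, LinearMap.comp_apply, this,
    LinearMap.dualMap_apply, smul_eq_mul]

theorem rk_le {φ : V →ₗ[F] F} (hφ : Good1 m φ) (x : V) :
    rk m (φ.comp (m (m x x))) ≤ rk m φ := by
  have h1 := (Submodule.finrank_mono (range_le two comm hφ x)).trans (Submodule.finrank_map_le _ _)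
  refine h1.trans (Submodule.finrank_mono ?_)
  rintro _ ⟨y, rfl⟩
  exact ⟨m x y, rfl⟩

theorem rk_lt {φ : V →ₗ[F] F} (hφ : Good1 m φ) (hφ2 : Good2 m φ) (x : V)
    (hne : φ.comp (m (m x x)) ≠ 0) : rk m (φ.comp (m (m x x))) < rk m φ := by
  by_contra hlt
  rw [not_lt] at hlt
  have h3 := (Submodule.finrank_mono (range_le two comm hφ x)).trans (Submodule.finrank_map_le _ _)
  have h4 : LinearMap.range ((form m φ).comp (m x)) ≤ LinearMap.range (form m φ) := by
    rintro _ ⟨y, rfl⟩
    exact ⟨m x y, rfl⟩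
  have h5 : LinearMap.range ((form m φ).comp (m x)) = LinearMap.range (form m φ) :=
    Submodule.eq_of_le_of_finrank_le h4 (hlt.trans h3)
  apply hne
  ext z
  have h6 : form m φ z ∈ LinearMap.range ((form m φ).comp (m x)) := by
    rw [h5]
    exact ⟨z, rfl⟩
  obtain ⟨y, hy⟩ := h6
  have h7 := LinearMap.congr_fun hy (m x x)
  simp only [LinearMap.comp_apply, form_apply] at h7
  rw [comm (m x y) (m x x), hφ2 x y] at h7
  simp only [LinearMap.comp_apply, LinearMap.zero_apply]
  rw [comm (m x x) z]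
  exact h7.symm

variable (perf : Submodule.span F {z : V | ∃ a b : V, z = m a b} = ⊤)

include perf

omit [FiniteDimensional F V] in
/-- If `φ.w⁴ = 0` for all `w` then `φ` kills `x²(xy)`. -/
theorem good2_of_kill {φ : V →ₗ[F] F} (hφ : Good1 m φ)
    (h4 : ∀ w, φ.comp (m (m (m w w) (m w w))) = 0) : Good2 m φ := by
  intro x y
  have h : (-(φ.comp ((m (m y y)).comp (m y)))) = 0 := by
    refine zero_of_sq m two comm perf _ ?_
    intro z
    have h1 := g_odd two comm hφ (m z z) y
    have h2 := LinearMap.congr_fun (h4 z) (m (m z z) y)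
    simp only [LinearMap.comp_apply, LinearMap.zero_apply] at h2
    rw [h2] at h1
    simpa using h1.symm
  rw [g_odd two comm hφ x y]
  have h2 := LinearMap.congr_fun h x
  simpa using h2

/-- The functionals which remain good under all iterated operations `χ ↦ χ.x²`. -/
def Fam (m : V →ₗ[F] V →ₗ[F] V) (χ : V →ₗ[F] F) : Prop :=
  ∀ L : List V, Good1 m (L.foldl (fun χ x => χ.comp (m (m x x))) χ) ∧
    Good2 m (L.foldl (fun χ x => χ.comp (m (m x x))) χ)

theorem fam_zero (χ : V →ₗ[F] F) (hχ : Fam m χ) : χ = 0 := by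
  by_contra hne
  classical
  have hex : ∃ n : ℕ, ∃ χ : V →ₗ[F] F, χ ≠ 0 ∧ Fam m χ ∧ rk m χ = n := ⟨_, χ, hne, hχ, rfl⟩
  obtain ⟨χ₀, h0, hf, hn⟩ := Nat.find_spec hex
  apply h0
  have key : ∀ x, χ₀.comp (m (m x x)) = 0 := by
    intro x
    by_contra hx
    have h1 : Fam m (χ₀.comp (m (m x x))) := fun L => hf (x :: L)
    have h2 := Nat.find_min' hex ⟨_, hx, h1, rfl⟩
    have h3 := rk_lt two comm (hf []).1 (hf []).2 x hx
    simp only [List.foldl_nil] at h3
    omega
  refine zero_of_mul m perf χ₀ ?_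
  intro u z
  have h8 : (form m χ₀).flip z = 0 := by
    refine zero_of_sq m two comm perf _ ?_
    intro x
    have := LinearMap.congr_fun (key x) z
    simpa using this
  have := LinearMap.congr_fun h8 u
  simpa using this

/-- The relative minimal rank theorem. -/
theorem rel_top (K D : Submodule F V)
    (h4K : ∀ x, m (m x x) (m x x) ∈ K) (h4D : ∀ x, m (m x x) (m x x) ∈ D)
    (h3 : (∀ t : F, t ^ 3 = t) → ∀ x y, m (m x x) (m x y) ∈ K)
    (hD : D ≤ Submodule.span F {z : V | z ∈ D ∧ ∃ x, z = m x x})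
    (hDK : ∀ d ∈ D, ∀ k ∈ K, m d k ∈ K ∧ m d k ∈ D) : K = ⊤ := by
  by_contra hK
  classical
  -- a functional of minimal rank which kills `K`
  have hex0 : ∃ φ : V →ₗ[F] F, φ ≠ 0 ∧ ∀ k ∈ K, φ k = 0 := by
    obtain ⟨v, hv⟩ : ∃ v, v ∉ K := by
      by_contra hno
      push Not at hno
      exact hK (eq_top_iff.mpr fun v _ => hno v)
    obtain ⟨f, hf1, hf2⟩ := Submodule.exists_le_ker_of_notMem hv
    refine ⟨f, ?_, fun k hk => ?_⟩
    · rintro rfl
      simp at hf1
    · exact hf2 hk
  have hex : ∃ n : ℕ, ∃ φ : V →ₗ[F] F, φ ≠ 0 ∧ (∀ k ∈ K, φ k = 0) ∧ rk m φ = n := by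
    obtain ⟨φ, h1, h2⟩ := hex0
    exact ⟨_, φ, h1, h2, rfl⟩
  obtain ⟨ψ, hψ0, hψK, hψr⟩ := Nat.find_spec hex
  have hmin : ∀ χ : V →ₗ[F] F, (∀ k ∈ K, χ k = 0) → rk m χ < rk m ψ → χ = 0 := by
    intro χ h1 h2
    by_contra h3
    have := Nat.find_min' hex ⟨χ, h3, h1, rfl⟩
    omega
  -- linear combinations of squares
  have hsq : ∀ χ : V →ₗ[F] F, (∀ x, m x x ∈ D → χ.comp (m (m x x)) = 0) →
      ∀ d ∈ D, χ.comp (m d) = 0 := by
    intro χ h d hd
    have h1 : Submodule.span F {z : V | z ∈ D ∧ ∃ x, z = m x x} ≤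
        LinearMap.ker (form m χ) := by
      rw [Submodule.span_le]
      rintro z ⟨hz, x, rfl⟩
      rw [SetLike.mem_coe, LinearMap.mem_ker]
      ext y
      exact LinearMap.congr_fun (h x hz) y
    have h2 := h1 (hD hd)
    rw [LinearMap.mem_ker] at h2
    ext y
    exact LinearMap.congr_fun h2 y
  -- the induction
  have step : ∀ χ : V →ₗ[F] F, (Good1 m χ ∧ Good2 m χ ∧ (χ = 0 ∨ rk m χ ≤ rk m ψ) ∧
      ∀ d ∈ D, χ.comp (m d) = 0) → ∀ x,
      (Good1 m (χ.comp (m (m x x))) ∧ Good2 m (χ.comp (m (m x x))) ∧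
        (χ.comp (m (m x x)) = 0 ∨ rk m (χ.comp (m (m x x))) ≤ rk m ψ) ∧
        ∀ d ∈ D, (χ.comp (m (m x x))).comp (m d) = 0) := by
    rintro χ ⟨hg1, hg2, hr, hd⟩ x
    set χ' := χ.comp (m (m x x)) with hχ'
    have hr' : χ' = 0 ∨ rk m χ' < rk m ψ := by
      by_cases h0 : χ' = 0
      · exact Or.inl h0
      · right
        have h1 := rk_lt two comm hg1 hg2 x h0
        rcases hr with hr | hr
        · exfalso
          apply h0
          rw [hχ', hr]
          ext
          simp
        · exact lt_of_lt_of_le h1 hr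
    have hswap : ∀ d ∈ D, χ' d = 0 := by
      intro d hdD
      have := LinearMap.congr_fun (hd d hdD) (m x x)
      simp only [LinearMap.comp_apply, LinearMap.zero_apply] at this
      rw [hχ', LinearMap.comp_apply, comm (m x x) d]
      exact this
    have hg1' : Good1 m χ' := fun z => hswap _ (h4D z)
    have hd' : ∀ d ∈ D, χ'.comp (m d) = 0 := by
      refine hsq χ' ?_
      intro w hw
      rcases hr' with h0 | hlt
      · rw [h0]
        ext
        simp
      · refine hmin _ ?_ (lt_of_le_of_lt (rk_le two comm hg1' w) hlt)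
        intro k hk
        rw [LinearMap.comp_apply]
        exact hswap _ (hDK _ hw k hk).2
    refine ⟨hg1', ?_, hr'.imp_right le_of_lt, hd'⟩
    exact good2_of_kill two comm perf hg1' (fun w => hd' _ (h4D w))
  have base : Good1 m ψ ∧ Good2 m ψ ∧ (ψ = 0 ∨ rk m ψ ≤ rk m ψ) ∧
      ∀ d ∈ D, ψ.comp (m d) = 0 := by
    have hg1 : Good1 m ψ := fun z => hψK _ (h4K z)
    have hg2 : Good2 m ψ := by
      by_cases h : ∀ t : F, t ^ 3 = t
      · exact fun x y => hψK _ (h3 h x y)
      · push Not at h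
        obtain ⟨t, ht⟩ := h
        exact good2_of_ne two comm ht hg1
    refine ⟨hg1, hg2, Or.inr le_rfl, ?_⟩
    refine hsq ψ ?_
    intro w hw
    by_contra h0
    apply h0
    refine hmin _ ?_ (rk_lt two comm hg1 hg2 w h0)
    intro k hk
    rw [LinearMap.comp_apply]
    exact hψK _ (hDK _ hw k hk).1
  apply hψ0
  refine fam_zero two comm perf ψ ?_
  intro L
  have hall : ∀ (L : List V) (χ : V →ₗ[F] F), (Good1 m χ ∧ Good2 m χ ∧
      (χ = 0 ∨ rk m χ ≤ rk m ψ) ∧ ∀ d ∈ D, χ.comp (m d) = 0) →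
      Good1 m (L.foldl (fun χ x => χ.comp (m (m x x))) χ) ∧
      Good2 m (L.foldl (fun χ x => χ.comp (m (m x x))) χ) := by
    intro L
    induction L with
    | nil => exact fun χ h => ⟨h.1, h.2.1⟩
    | cons x L ih => exact fun χ h => ih _ (step χ h x)
  exact hall L ψ base

/-- A subspace closed under products which contains the squares of squares is everything. -/
theorem closed_top (S : Submodule F V) (hS : ∀ a ∈ S, ∀ b ∈ S, m a b ∈ S)
    (h4 : ∀ x, m (m x x) (m x x) ∈ S)
    (h3 : (∀ t : F, t ^ 3 = t) → ∀ x y, m (m x x) (m x y) ∈ S) : S = ⊤ := by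
  set D : Submodule F V := Submodule.span F
    {z : V | (∃ x, z = m (m x x) (m x x)) ∨ ∃ s ∈ S, z = m s s} with hDdef
  have hss : ∀ a ∈ S, ∀ b ∈ S, m a b ∈ D := by
    intro a ha b hb
    have h1 : m (a + b) (a + b) ∈ D :=
      Submodule.subset_span (Or.inr ⟨a + b, S.add_mem ha hb, rfl⟩)
    have h2 : m a a ∈ D := Submodule.subset_span (Or.inr ⟨a, ha, rfl⟩)
    have h5 : m b b ∈ D := Submodule.subset_span (Or.inr ⟨b, hb, rfl⟩)
    rw [sq_add m comm] at h1
    have h6 : (2 : F) • m a b ∈ D := by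
      have := D.sub_mem (D.sub_mem h1 h2) h5
      have h7 : m a a + (2 : F) • m a b + m b b - m a a - m b b = (2 : F) • m a b := by module
      rwa [h7] at this
    exact (Submodule.smul_mem_iff D two).mp h6
  have hDS : D ≤ S := by
    rw [hDdef, Submodule.span_le]
    rintro z (⟨x, rfl⟩ | ⟨s, hs, rfl⟩)
    · exact h4 x
    · exact hS s hs s hs
  refine rel_top two comm perf S D h4 (fun x => Submodule.subset_span (Or.inl ⟨x, rfl⟩)) h3 ?_ ?_
  · rw [hDdef]
    refine Submodule.span_mono ?_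
    rintro z (⟨x, rfl⟩ | ⟨s, hs, rfl⟩)
    · exact ⟨Submodule.subset_span (Or.inl ⟨x, rfl⟩), m x x, rfl⟩
    · exact ⟨Submodule.subset_span (Or.inr ⟨s, hs, rfl⟩), s, rfl⟩
  · intro d hd k hk
    exact ⟨hS d (hDS hd) k hk, hss d (hDS hd) k hk⟩

end rel

end Pool.Agent.Alb
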