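import Mathlib
import Pool.Agent.Lib_MP_380d39.Rel

set_option autoImplicit false

/-!
# Absolute zero divisors of power-associative algebras

`m` is a commutative bilinear product with `x²x² = x(x(xx))`. If `c` satisfies
`c(yz) + y(cz) + z(cy) = 0` for all `y`, `z`, then `c (x²x²) = 0` for all `x`.
-/

namespace Pool.Agent.Alb

universe u v

section abs

variable {F : Type u} [Field F] {V : Type v} [AddCommGroup V] [Module F V]
  (m : V →ₗ[F] V →ₗ[F] V) (comm : ∀ x y, m x y = m y x)

include comm

theorem pa_expand (x y : V) (t : F) :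
    m (m (x + t • y) (x + t • y)) (m (x + t • y) (x + t • y)) -
      m (x + t • y) (m (x + t • y) (m (x + t • y) (x + t • y))) =
    (m (m x x) (m x x) - m x (m x (m x x))) +
    t • ((4 : F) • m (m x x) (m x y) - ((2 : F) • m x (m x (m x y)) + m x (m (m x x) y) +
      m (m x (m x x)) y)) +
    t ^ 2 • ((4 : F) • m (m x y) (m x y) + (2 : F) • m (m x x) (m y y) -
      (m x (m x (m y y)) + (2 : F) • m x (m y (m x y)) + (2 : F) • m y (m x (m x y)) +
        m y (m (m x x) y))) +
    t ^ 3 • ((4 : F) • m (m x y) (m y y) - (m x (m y (m y y)) + m y (m x (m y y)) +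
      (2 : F) • m y (m y (m x y)))) +
    t ^ 4 • (m (m y y) (m y y) - m y (m y (m y y))) := by
  have e1 : m (x + t • y) (x + t • y) = m x x + (2 * t) • m x y + t ^ 2 • m y y := by
    simp only [map_add, LinearMap.add_apply, map_smul, LinearMap.smul_apply]
    rw [comm y x]
    module
  rw [e1]
  simp only [map_add, LinearMap.add_apply, map_smul, LinearMap.smul_apply]
  rw [comm (m x y) (m x x), comm (m y y) (m x x), comm (m y y) (m x y), comm y (m x x),
    comm y (m x (m x x))]
  module

variable (two : (2 : F) ≠ 0) (three : (3 : F) ≠ 0)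
  (pa : ∀ x, m (m x x) (m x x) = m x (m x (m x x)))

include two three pa

theorem pa_lin (x y : V) :
    (4 : F) • m (m x x) (m x y) = m (m x (m x x)) y + m x (m (m x x) y) +
      (2 : F) • m x (m x (m x y)) := by
  have key : ∀ t : F, t • ((4 : F) • m (m x x) (m x y) - ((2 : F) • m x (m x (m x y)) +
        m x (m (m x x) y) + m (m x (m x x)) y)) +
      t ^ 2 • ((4 : F) • m (m x y) (m x y) + (2 : F) • m (m x x) (m y y) -
        (m x (m x (m y y)) + (2 : F) • m x (m y (m x y)) + (2 : F) • m y (m x (m x y)) +
          m y (m (m x x) y))) +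
      t ^ 3 • ((4 : F) • m (m x y) (m y y) - (m x (m y (m y y)) + m y (m x (m y y)) +
        (2 : F) • m y (m y (m x y)))) = 0 := by
    intro t
    have h := pa_expand m comm x y t
    rw [pa (x + t • y), pa x, pa y, sub_self, sub_self, sub_self, zero_add, smul_zero,
      add_zero] at h
    exact h.symm
  have k1 := key 1
  have k2 := key (-1)
  have k3 := key 2
  have k4 := key (-2)
  have h : (12 : F) • ((4 : F) • m (m x x) (m x y) - (m (m x (m x x)) y + m x (m (m x x) y) +
      (2 : F) • m x (m x (m x y)))) = 0 := by
    linear_combination (norm := module) (8 : F) • k1 - (8 : F) • k2 - k3 + k4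
  have twelve : (12 : F) ≠ 0 := by
    have : (12 : F) = 2 * 2 * 3 := by norm_num
    rw [this]
    exact mul_ne_zero (mul_ne_zero two two) three
  exact sub_eq_zero.mp ((smul_eq_zero.mp h).resolve_left twelve)

variable (five : (5 : F) ≠ 0) (c : V)
  (hc : ∀ y z, m c (m y z) + m y (m c z) + m z (m c y) = 0)

include hc

/-- `5 (cx) x² = 2 x (x (cx))`. -/
theorem abs_cube (x : V) : (5 : F) • m (m x x) (m c x) - (2 : F) • m x (m x (m c x)) = 0 := by
  have h1 := pa_lin m comm two three pa x c
  have h2 := hc x x
  have h3 := hc x (m x x)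
  rw [comm x c, comm (m x (m x x)) c, comm (m x x) c] at h1
  have h4 : m c (m x x) = -((2 : F) • m x (m c x)) := by
    linear_combination (norm := module) h2
  rw [h4] at h1 h3
  simp only [map_neg, map_smul] at h1 h3
  linear_combination (norm := module) h1 + h3

theorem abs_cube_lin (x w : V) :
    (5 : F) • (m (m x x) (m c w) + (2 : F) • m (m x w) (m c x)) -
      (2 : F) • (m x (m x (m c w)) + m x (m w (m c x)) + m w (m x (m c x))) = 0 := by
  have h0 := abs_cube m comm two three pa c hc x
  have h1 := abs_cube m comm two three pa c hc w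
  have h2 := abs_cube m comm two three pa c hc (x + w)
  have h3 := abs_cube m comm two three pa c hc (x - w)
  rw [sq_add m comm] at h2
  rw [sq_sub m comm] at h3
  simp only [map_add, map_sub, LinearMap.add_apply, LinearMap.sub_apply, map_smul,
    LinearMap.smul_apply] at h2 h3
  have h : (2 : F) • ((5 : F) • (m (m x x) (m c w) + (2 : F) • m (m x w) (m c x)) -
      (2 : F) • (m x (m x (m c w)) + m x (m w (m c x)) + m w (m x (m c x)))) = 0 := by
    linear_combination (norm := module) h2 - h3 - (2 : F) • h1
  exact (smul_eq_zero.mp h).resolve_left two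

include five

theorem abs_four (x : V) : m c (m (m x x) (m x x)) = 0 := by
  have hsq : m c (m x x) = -((2 : F) • m x (m c x)) := by
    linear_combination (norm := module) hc x x
  have h3' := pa_lin m comm two three pa x (m c x)
  have h1' := abs_cube_lin m comm two three pa c hc x (m x x)
  rw [hsq] at h1'
  simp only [map_neg, map_smul] at h1'
  have h2' : (5 : F) • m x (m (m x x) (m c x)) - (2 : F) • m x (m x (m x (m c x))) = 0 := by
    have := congrArg (m x) (abs_cube m comm two three pa c hc x)
    simpa only [map_sub, map_smul, map_zero] using this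
  have h5 := hc (m x x) (m x x)
  rw [hsq] at h5
  simp only [map_neg, map_smul] at h5
  have h6 := hc x (m x (m x x))
  have h7 := hc x (m x x)
  rw [hsq] at h7
  simp only [map_neg, map_smul] at h7
  have h8 : m c (m x (m x x)) = (2 : F) • m x (m x (m c x)) - m (m x x) (m c x) := by
    linear_combination (norm := module) h7
  rw [h8, ← pa x] at h6
  simp only [map_sub, map_smul] at h6
  have h9 : (180 : F) • m (m x x) (m x (m c x)) = 0 := by
    linear_combination (norm := module) (-1 : F) • h1' + (8 : F) • h2' + (16 : F) • h3' +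
      (26 : F) • (h6 - h5)
  have h180 : (180 : F) ≠ 0 := by
    have : (180 : F) = 2 * 2 * 3 * 3 * 5 := by norm_num
    rw [this]
    exact mul_ne_zero (mul_ne_zero (mul_ne_zero (mul_ne_zero two two) three) three) five
  have h10 := (smul_eq_zero.mp h9).resolve_left h180
  rw [h10] at h5
  linear_combination (norm := module) h5

end abs

end Pool.Agent.Alb
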