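import Mathlib

set_option autoImplicit false

/-!
# Vector valued polynomial functions of one variable
-/

namespace Pool.Agent.Alb

universe u v

section vpoly

variable {F : Type u} [Field F] {V : Type v} [AddCommGroup V] [Module F V]

variable (F V) in
/-- The space of the polynomial functions `F → V`. -/
def VPoly : Submodule F (F → V) :=
  Submodule.span F {f : F → V | ∃ (i : ℕ) (v : V), f = fun t => t ^ i • v}

theorem vpoly_mono (i : ℕ) (v : V) : (fun t : F => t ^ i • v) ∈ VPoly F V :=
  Submodule.subset_span ⟨i, v, rfl⟩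

theorem vpoly_const (v : V) : (fun _ : F => v) ∈ VPoly F V := by
  have h := vpoly_mono (F := F) 0 v
  simpa using h

theorem vpoly_tpow (k : ℕ) {f : F → V} (hf : f ∈ VPoly F V) :
    (fun t : F => t ^ k • f t) ∈ VPoly F V := by
  induction hf using Submodule.span_induction with
  | mem f hf =>
    obtain ⟨i, v, rfl⟩ := hf
    have h := vpoly_mono (F := F) (k + i) v
    convert h using 1
    ext t
    simp only [smul_smul, pow_add]
  | zero =>
    have : (fun t : F => t ^ k • (0 : F → V) t) = 0 := by
      ext t
      simp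
    rw [this]
    exact Submodule.zero_mem _
  | add f g _ _ hf hg =>
    have : (fun t : F => t ^ k • (f + g) t) = (fun t => t ^ k • f t) + fun t => t ^ k • g t := by
      ext t
      simp
    rw [this]
    exact Submodule.add_mem _ hf hg
  | smul a f _ hf =>
    have : (fun t : F => t ^ k • (a • f) t) = a • fun t => t ^ k • f t := by
      ext t
      simp only [Pi.smul_apply]
      exact smul_comm _ _ _
    rw [this]
    exact Submodule.smul_mem _ _ hf

theorem vpoly_bil {W X : Type*} [AddCommGroup W] [Module F W] [AddCommGroup X] [Module F X]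
    (B : V →ₗ[F] W →ₗ[F] X) {f : F → V} {g : F → W} (hf : f ∈ VPoly F V) (hg : g ∈ VPoly F W) :
    (fun t : F => B (f t) (g t)) ∈ VPoly F X := by
  induction hf using Submodule.span_induction with
  | mem f hf =>
    obtain ⟨i, v, rfl⟩ := hf
    induction hg using Submodule.span_induction with
    | mem g hg =>
      obtain ⟨j, w, rfl⟩ := hg
      have h := vpoly_mono (F := F) (i + j) (B v w)
      convert h using 1
      ext t
      simp only [map_smul, LinearMap.smul_apply, smul_smul, pow_add]
      rw [mul_comm]
    | zero =>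
      have : (fun t : F => B (t ^ i • v) ((0 : F → W) t)) = 0 := by
        ext t
        simp
      rw [this]
      exact Submodule.zero_mem _
    | add f g _ _ hf hg =>
      have : (fun t : F => B (t ^ i • v) ((f + g) t)) =
          (fun t => B (t ^ i • v) (f t)) + fun t => B (t ^ i • v) (g t) := by
        ext t
        simp
      rw [this]
      exact Submodule.add_mem _ hf hg
    | smul a f _ hf =>
      have : (fun t : F => B (t ^ i • v) ((a • f) t)) = a • fun t => B (t ^ i • v) (f t) := by
        ext t
        simp only [Pi.smul_apply, map_smul]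
      rw [this]
      exact Submodule.smul_mem _ _ hf
  | zero =>
    have : (fun t : F => B ((0 : F → V) t) (g t)) = 0 := by
      ext t
      simp
    rw [this]
    exact Submodule.zero_mem _
  | add f h _ _ hf hh =>
    have : (fun t : F => B ((f + h) t) (g t)) = (fun t => B (f t) (g t)) + fun t => B (h t) (g t) := by
      ext t
      simp
    rw [this]
    exact Submodule.add_mem _ hf hh
  | smul a f _ hf =>
    have : (fun t : F => B ((a • f) t) (g t)) = a • fun t => B (f t) (g t) := by
      ext t
      simp only [Pi.smul_apply, map_smul, LinearMap.smul_apply]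
    rw [this]
    exact Submodule.smul_mem _ _ hf

theorem vpoly_lin {W : Type*} [AddCommGroup W] [Module F W] (L : V →ₗ[F] W) {f : F → V}
    (hf : f ∈ VPoly F V) : (fun t : F => L (f t)) ∈ VPoly F W := by
  induction hf using Submodule.span_induction with
  | mem f hf =>
    obtain ⟨i, v, rfl⟩ := hf
    have h := vpoly_mono (F := F) i (L v)
    convert h using 1
    ext t
    simp only [map_smul]
  | zero =>
    have : (fun t : F => L ((0 : F → V) t)) = 0 := by
      ext t
      simp
    rw [this]
    exact Submodule.zero_mem _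
  | add f g _ _ hf hg =>
    have : (fun t : F => L ((f + g) t)) = (fun t => L (f t)) + fun t => L (g t) := by
      ext t
      simp
    rw [this]
    exact Submodule.add_mem _ hf hg
  | smul a f _ hf =>
    have : (fun t : F => L ((a • f) t)) = a • fun t => L (f t) := by
      ext t
      simp only [Pi.smul_apply, map_smul]
    rw [this]
    exact Submodule.smul_mem _ _ hf

theorem vpoly_add {f g : F → V} (hf : f ∈ VPoly F V) (hg : g ∈ VPoly F V) :
    (fun t : F => f t + g t) ∈ VPoly F V :=
  Submodule.add_mem _ hf hg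

theorem vpoly_smul (a : F) {f : F → V} (hf : f ∈ VPoly F V) :
    (fun t : F => a • f t) ∈ VPoly F V :=
  Submodule.smul_mem _ a hf

theorem vpoly_line (x v : V) : (fun t : F => x + t • v) ∈ VPoly F V := by
  have h := vpoly_mono (F := F) 1 v
  simp only [pow_one] at h
  exact vpoly_add (vpoly_const x) h

/-- Scalar polynomial functions are polynomials. -/
theorem vpoly_poly {f : F → F} (hf : f ∈ VPoly F F) : ∃ p : Polynomial F, ∀ t, f t = p.eval t := by
  induction hf using Submodule.span_induction with
  | mem f hf =>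
    obtain ⟨i, v, rfl⟩ := hf
    refine ⟨Polynomial.C v * Polynomial.X ^ i, fun t => ?_⟩
    change t ^ i * v = _
    rw [Polynomial.eval_mul, Polynomial.eval_C, Polynomial.eval_pow, Polynomial.eval_X, mul_comm]
  | zero => exact ⟨0, fun t => by simp⟩
  | add f g _ _ hf hg =>
    obtain ⟨p, hp⟩ := hf
    obtain ⟨q, hq⟩ := hg
    exact ⟨p + q, fun t => by simp [hp t, hq t]⟩
  | smul a f _ hf =>
    obtain ⟨p, hp⟩ := hf
    exact ⟨Polynomial.C a * p, fun t => by simp [hp t]⟩

variable [Infinite F]

theorem vpoly_mul_zero {f g : F → F} (hf : f ∈ VPoly F F) (hg : g ∈ VPoly F F)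
    (h : ∀ t, f t * g t = 0) : (∀ t, f t = 0) ∨ ∀ t, g t = 0 := by
  obtain ⟨p, hp⟩ := vpoly_poly hf
  obtain ⟨q, hq⟩ := vpoly_poly hg
  have h1 : p * q = 0 := by
    apply Polynomial.funext
    intro t
    rw [Polynomial.eval_mul, ← hp, ← hq, h t, Polynomial.eval_zero]
  rcases mul_eq_zero.mp h1 with h2 | h2
  · left
    intro t
    rw [hp, h2, Polynomial.eval_zero]
  · right
    intro t
    rw [hq, h2, Polynomial.eval_zero]

/-- First order coefficient. -/
theorem vpoly_first {a b : F} {r : F → F} (hr : r ∈ VPoly F F)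
    (h : ∀ t : F, a + t * b + t ^ 2 * r t = 0) : a = 0 ∧ b = 0 := by
  have ha : a = 0 := by
    have := h 0
    simpa using this
  refine ⟨ha, ?_⟩
  have h1 : (fun t : F => t) ∈ VPoly F F := by
    have := vpoly_mono (F := F) 1 (1 : F)
    simpa using this
  have h2 : (fun t : F => b + t * r t) ∈ VPoly F F := by
    have := vpoly_add (vpoly_const (F := F) b) (vpoly_tpow 1 hr)
    simpa using this
  rcases vpoly_mul_zero h1 h2 (fun t => by
    have := h t
    rw [ha] at this
    linear_combination this) with h3 | h3
  · exact absurd (h3 1) one_ne_zero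
  · have := h3 0
    simpa using this

omit [Infinite F] in
/-- `f` has the first order jet `a + t b`. -/
def HasJet (f : F → V) (a b : V) : Prop :=
  ∃ r ∈ VPoly F V, ∀ t : F, f t = a + t • b + t ^ 2 • r t

omit [Infinite F] in
theorem jet_line (x v : V) : HasJet (F := F) (fun t : F => x + t • v) x v :=
  ⟨0, Submodule.zero_mem _, fun t => by simp⟩

omit [Infinite F] in
theorem jet_const (x : V) : HasJet (F := F) (fun _ : F => x) x 0 :=
  ⟨0, Submodule.zero_mem _, fun t => by simp⟩

omit [Infinite F] in
theorem jet_add {f g : F → V} {a b c d : V} (hf : HasJet f a b) (hg : HasJet g c d) :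
    HasJet (fun t => f t + g t) (a + c) (b + d) := by
  obtain ⟨r, hr, h1⟩ := hf
  obtain ⟨s, hs, h2⟩ := hg
  refine ⟨_, vpoly_add hr hs, fun t => ?_⟩
  simp only [h1 t, h2 t]
  module

omit [Infinite F] in
theorem jet_smul (k : F) {f : F → V} {a b : V} (hf : HasJet f a b) :
    HasJet (fun t => k • f t) (k • a) (k • b) := by
  obtain ⟨r, hr, h1⟩ := hf
  refine ⟨_, vpoly_smul k hr, fun t => ?_⟩
  simp only [h1 t]
  module

omit [Infinite F] in
theorem jet_lin {W : Type*} [AddCommGroup W] [Module F W] (L : V →ₗ[F] W) {f : F → V}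
    {a b : V} (hf : HasJet f a b) : HasJet (fun t => L (f t)) (L a) (L b) := by
  obtain ⟨r, hr, h1⟩ := hf
  refine ⟨_, vpoly_lin L hr, fun t => ?_⟩
  simp only [h1 t, map_add, map_smul]

omit [Infinite F] in
theorem jet_bil {W X : Type*} [AddCommGroup W] [Module F W] [AddCommGroup X] [Module F X]
    (B : V →ₗ[F] W →ₗ[F] X) {f : F → V} {g : F → W} {a b : V} {c d : W}
    (hf : HasJet f a b) (hg : HasJet g c d) :
    HasJet (fun t => B (f t) (g t)) (B a c) (B a d + B b c) := by
  obtain ⟨r, hr, h1⟩ := hf
  obtain ⟨s, hs, h2⟩ := hg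
  have k1 := vpoly_bil B (vpoly_const (F := F) a) hs
  have k2 := vpoly_bil B hr (vpoly_const (F := F) c)
  have k3 := vpoly_tpow 1 (vpoly_bil B (vpoly_const (F := F) b) hs)
  have k4 := vpoly_tpow 1 (vpoly_bil B hr (vpoly_const (F := F) d))
  have k5 := vpoly_tpow 2 (vpoly_bil B hr hs)
  refine ⟨_, vpoly_add (vpoly_add (vpoly_add (vpoly_add (vpoly_add
    (vpoly_const (F := F) (B b d)) k1) k2) k3) k4) k5, fun t => ?_⟩
  simp only [h1 t, h2 t, map_add, LinearMap.add_apply, map_smul, LinearMap.smul_apply]
  module

/-- If `Q (f t) (f t) = 0` identically then `Q a b = 0` for the jet `a + t b`. -/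
theorem jet_iso (Q : V →ₗ[F] V →ₗ[F] F) (hsym : ∀ a b, Q a b = Q b a) (two : (2 : F) ≠ 0)
    {f : F → V} {a b : V} (hf : HasJet f a b) (h : ∀ t, Q (f t) (f t) = 0) : Q a b = 0 := by
  obtain ⟨r, hr, h1⟩ := jet_bil Q hf hf
  have h2 := vpoly_first hr (a := Q a a) (b := Q a b + Q b a) (fun t => by
    have := h1 t
    simp only [h t, smul_eq_mul] at this
    exact this.symm)
  have h3 := h2.2
  rw [hsym b a] at h3
  have h4 : 2 * Q a b = 0 := by linear_combination h3
  exact (mul_eq_zero.mp h4).resolve_left two

theorem jet_zero {f : F → F} {a b : F} (hf : HasJet f a b) (h : ∀ t, f t = 0) : b = 0 := by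
  obtain ⟨r, hr, h1⟩ := hf
  have h2 := vpoly_first hr (a := a) (b := b) (fun t => by
    have := h1 t
    rw [h t] at this
    simp only [smul_eq_mul] at this
    exact this.symm)
  exact h2.2

end vpoly

end Pool.Agent.Alb
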