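import Mathlib
import Pool.Agent.Lib_MP_380d39.VPoly

set_option autoImplicit false

/-!
# A kernel-checked certificate checker for identities of commutative nonassociative algebras

Trees are evaluated to natural numbers (codes) with a symmetric injective pairing; the letters
`1, 2, 3, 4` stand for `x, x², x³, x⁴` and are multiplied by the rule `xⁱ xʲ = xⁱ⁺ʲ`
(`0` if `i + j ≥ 5`).
-/

namespace Pool.Agent.Alb.Chk

universe u w

/-- nonassociative monomials -/
inductive T where
  | v : Nat → T
  | m : T → T → T

/-- multiplication of codes -/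
def mulc (a b : Nat) : Nat :=
  bif Nat.beq a 0 then 0
  else bif Nat.beq b 0 then 0
  else bif Nat.ble a b then
    (bif Nat.ble b 4 then (bif Nat.ble (a + b) 4 then a + b else 0) else 16 + (b * b + a))
  else
    (bif Nat.ble a 4 then (bif Nat.ble (a + b) 4 then a + b else 0) else 16 + (a * a + b))

def T.code (env : Nat → Nat) : T → Nat
  | .v n => env n
  | .m a b => mulc (a.code env) (b.code env)

/-- a stack machine reading a number in base 16: `1..14` push a letter, `15` multiplies -/
def run : Nat → Nat → List Nat → List Nat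
  | 0, _, st => st
  | f + 1, n, st =>
    bif Nat.beq n 0 then st
    else bif Nat.beq (n % 16) 15 then
      (match st with
      | a :: b :: r => run f (n / 16) (mulc a b :: r)
      | _ => [])
    else run f (n / 16) (n % 16 :: st)

/-- insertion into a sorted list -/
def ins (k : Nat) (c : Int) : List (Nat × Int) → List (Nat × Int)
  | [] => [(k, c)]
  | (k', c') :: r =>
    bif Nat.beq k k' then (k', c + c') :: r
    else bif Nat.ble k k' then (k, c) :: (k', c') :: r
    else (k', c') :: ins k c r

def merge : Nat → List (Nat × Int) → List (Nat × Int) → List (Nat × Int)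
  | 0, l, l' => l ++ l'
  | _ + 1, [], l' => l'
  | _ + 1, l, [] => l
  | f + 1, (k, c) :: r, (k', c') :: r' =>
    bif Nat.beq k k' then (k, c + c') :: merge f r r'
    else bif Nat.ble k k' then (k, c) :: merge f r ((k', c') :: r')
    else (k', c') :: merge f ((k, c) :: r) r'

def pairUp : List (List (Nat × Int)) → List (List (Nat × Int))
  | a :: b :: r => merge 100000 a b :: pairUp r
  | l => l

def sumAll : Nat → List (List (Nat × Int)) → List (Nat × Int)
  | 0, ls => ls.flatten
  | _ + 1, [] => []
  | _ + 1, [a] => a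
  | f + 1, a :: b :: r => sumAll f (pairUp (a :: b :: r))

/-- apply a path of siblings -/
def pathc : List Nat → Nat → Nat
  | [], a => a
  | s :: r, a => pathc r (mulc s a)

def terms (env : Nat → Nat) (path : List Nat) (c : Int) : List (Int × T) → List (Nat × Int)
  | [] => []
  | (k, t) :: r => ins (pathc path (t.code env)) (c * k) (terms env path c r)

def env0 (n : Nat) : Nat := bif Nat.ble n 14 then n else 0

def envA (args : List Nat) (n : Nat) : Nat :=
  bif Nat.ble n 4 then n else args.getD (n - 5) 0

/-- a line of a certificate: coefficient, number of the identity, arguments, siblings -/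
def lineT (ids : List (List (Int × T))) (l : Int × Nat × Nat × Nat) : List (Nat × Int) :=
  terms (envA (run 200 l.2.2.1 [])) (run 200 l.2.2.2 []) l.1 (ids.getD l.2.1 [])

def allz : List (Nat × Int) → Bool
  | [] => true
  | (_, c) :: r => (match c with
    | .ofNat n => Nat.beq n 0
    | .negSucc _ => false) && allz r

def T.ok : T → Bool
  | .v n => Nat.ble n 14 && Nat.ble 1 n
  | .m a b => a.ok && b.ok

def check (ids tids : List (List (Int × T))) (D : Int) (target : List (Int × T))
    (lines : List (Int × Nat × Nat × Nat)) (tlines : List (Int × Nat × Nat)) : Bool :=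
  target.all (fun t => t.2.ok) &&
  allz (sumAll 40 (terms env0 [] (-D) target ::
    (tlines.map (fun l => lineT tids (l.1, l.2.1, l.2.2, 0)) ++ lines.map (lineT ids))))

/-- all coefficients vanish, except possibly at the code `0` -/
def allz' : List (Nat × Int) → Bool
  | [] => true
  | (k, c) :: r => (Nat.beq k 0 || (match c with
    | .ofNat n => Nat.beq n 0
    | .negSucc _ => false)) && allz' r

/-- `check` with the coefficient at the code `0` ignored -/
def check' (ids tids : List (List (Int × T))) (D : Int) (target : List (Int × T))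
    (lines : List (Int × Nat × Nat × Nat)) (tlines : List (Int × Nat × Nat)) : Bool :=
  target.all (fun t => t.2.ok) &&
  allz' (sumAll 40 (terms env0 [] (-D) target ::
    (tlines.map (fun l => lineT tids (l.1, l.2.1, l.2.2, 0)) ++ lines.map (lineT ids))))

/-! ### Semantics -/

variable {F : Type u} [Field F] {V : Type w} [AddCommGroup V] [Module F V]
  (mul : V →ₗ[F] V →ₗ[F] V)

def T.ev (ρ : Nat → V) : T → V
  | .v n => ρ n
  | .m a b => mul (T.ev ρ a) (T.ev ρ b)

def evP (ρ : Nat → V) : List (Int × T) → V
  | [] => 0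
  | (k, t) :: r => (k : F) • t.ev mul ρ + evP ρ r

/-- the meaning of a code -/
inductive Den (ρ : Nat → V) : Nat → V → Prop
  | zero : Den ρ 0 0
  | var (n : Nat) (h1 : 1 ≤ n) (h2 : n ≤ 14) : Den ρ n (ρ n)
  | node (a b : Nat) (p q : V) (ha : Den ρ a p) (hb : Den ρ b q) (h1 : 1 ≤ a) (h2 : a ≤ b)
      (h3 : 5 ≤ b) : Den ρ (16 + (b * b + a)) (mul p q)

theorem pair_inj {a b a' b' : Nat} (h1 : a ≤ b) (h2 : a' ≤ b')
    (h : 16 + (b * b + a) = 16 + (b' * b' + a')) : a = a' ∧ b = b' := by
  have hb : b = b' := by
    rcases Nat.lt_trichotomy b b' with h3 | h3 | h3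
    · exfalso
      nlinarith
    · exact h3
    · exfalso
      nlinarith
  subst hb
  refine ⟨by omega, rfl⟩

theorem den_unique {ρ : Nat → V} {k : Nat} {p : V} (h : Den mul ρ k p) :
    ∀ {q : V}, Den mul ρ k q → p = q := by
  induction h with
  | zero =>
    intro q hq
    generalize hk : (0 : Nat) = k at hq
    cases hq with
    | zero => rfl
    | var n h1 h2 => omega
    | node a b p q ha hb h1 h2 h3 => omega
  | var n h1 h2 =>
    intro q hq
    cases hq with
    | zero => omega
    | var n h1 h2 => rfl
    | node a b p q ha hb h1 h2 h3 => omega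
  | node a b p q ha hb h1 h2 h3 iha ihb =>
    intro z hz
    generalize hk : 16 + (b * b + a) = k at hz
    cases hz with
    | zero => omega
    | var n h1 h2 => omega
    | node a' b' p' q' ha' hb' h1' h2' h3' =>
      obtain ⟨rfl, rfl⟩ := pair_inj h2 h2' hk
      rw [iha ha', ihb hb']

/-- `ρ 1, …, ρ 4` are the powers of `x` and `x⁵ = 0`. -/
def Pow (ρ : Nat → V) : Prop := ∀ a b, 1 ≤ a → 1 ≤ b → a ≤ 4 → b ≤ 4 →
  mul (ρ a) (ρ b) = if a + b ≤ 4 then ρ (a + b) else 0

theorem mulc_den {ρ : Nat → V} (comm : ∀ x y, mul x y = mul y x) (hρ : Pow mul ρ)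
    {a b : Nat} {p q : V} (ha : Den mul ρ a p) (hb : Den mul ρ b q) :
    Den mul ρ (mulc a b) (mul p q) := by
  unfold mulc
  by_cases ha0 : a = 0
  · subst ha0
    have : p = 0 := den_unique mul ha Den.zero
    subst this
    simp only [Nat.beq, cond_true, map_zero, LinearMap.zero_apply]
    exact Den.zero
  by_cases hb0 : b = 0
  · subst hb0
    have : q = 0 := den_unique mul hb Den.zero
    subst this
    have e1 : Nat.beq a 0 = false := by
      rcases Nat.exists_eq_succ_of_ne_zero ha0 with ⟨n, rfl⟩
      rfl
    simp only [e1, cond_false, Nat.beq, cond_true, map_zero]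
    exact Den.zero
  have e1 : Nat.beq a 0 = false := by
    rcases Nat.exists_eq_succ_of_ne_zero ha0 with ⟨n, rfl⟩
    rfl
  have e2 : Nat.beq b 0 = false := by
    rcases Nat.exists_eq_succ_of_ne_zero hb0 with ⟨n, rfl⟩
    rfl
  simp only [e1, e2, cond_false]
  -- the small case
  have small : a ≤ 4 → b ≤ 4 → Den mul ρ (bif Nat.ble (a + b) 4 then a + b else 0)
      (mul p q) := by
    intro h1 h2
    have hp : p = ρ a := den_unique mul ha (Den.var a (by omega) (by omega))
    have hq : q = ρ b := den_unique mul hb (Den.var b (by omega) (by omega))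
    subst hp hq
    rw [hρ a b (by omega) (by omega) h1 h2]
    by_cases h : a + b ≤ 4
    · have e : Nat.ble (a + b) 4 = true := Nat.ble_eq.mpr h
      rw [if_pos h, e, cond_true]
      exact Den.var _ (by omega) (by omega)
    · have e : Nat.ble (a + b) 4 = false := by
        rw [← Bool.not_eq_true, Nat.ble_eq]
        exact h
      rw [if_neg h, e, cond_false]
      exact Den.zero
  by_cases hab : a ≤ b
  · have e : Nat.ble a b = true := Nat.ble_eq.mpr hab
    rw [e, cond_true]
    by_cases h4 : b ≤ 4
    · have e : Nat.ble b 4 = true := Nat.ble_eq.mpr h4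
      rw [e, cond_true]
      exact small (by omega) h4
    · have e : Nat.ble b 4 = false := by
        rw [← Bool.not_eq_true, Nat.ble_eq]
        exact h4
      rw [e, cond_false]
      exact Den.node a b p q ha hb (by omega) hab (by omega)
  · have e : Nat.ble a b = false := by
      rw [← Bool.not_eq_true, Nat.ble_eq]
      exact hab
    rw [e, cond_false]
    by_cases h4 : a ≤ 4
    · have e : Nat.ble a 4 = true := Nat.ble_eq.mpr h4
      rw [e, cond_true]
      exact small h4 (by omega)
    · have e : Nat.ble a 4 = false := by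
        rw [← Bool.not_eq_true, Nat.ble_eq]
        exact h4
      rw [e, cond_false, comm p q]
      exact Den.node b a q p hb ha (by omega) (by omega) (by omega)

theorem code_den {ρ ρ' : Nat → V} (comm : ∀ x y, mul x y = mul y x) (hρ : Pow mul ρ)
    {env : Nat → Nat} (henv : ∀ n, Den mul ρ (env n) (ρ' n)) (t : T) :
    Den mul ρ (t.code env) (t.ev mul ρ') := by
  induction t with
  | v n => exact henv n
  | m a b iha ihb => exact mulc_den mul comm hρ iha ihb

theorem code_den0 {ρ : Nat → V} (comm : ∀ x y, mul x y = mul y x) (hρ : Pow mul ρ)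
    (t : T) (ht : t.ok = true) :
    Den mul ρ (t.code env0) (t.ev mul ρ) := by
  induction t with
  | v n =>
    simp only [T.ok, Bool.and_eq_true, Nat.ble_eq] at ht
    have e : Nat.ble n 14 = true := Nat.ble_eq.mpr ht.1
    simp only [T.code, T.ev, env0, e, cond_true]
    exact Den.var n ht.2 ht.1
  | m a b iha ihb =>
    simp only [T.ok, Bool.and_eq_true] at ht
    exact mulc_den mul comm hρ (iha ht.1) (ihb ht.2)

/-- all elements of a list of codes have a meaning -/
def DenL (ρ : Nat → V) (st : List Nat) : Prop := ∀ k ∈ st, ∃ p, Den mul ρ k p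

theorem run_den {ρ : Nat → V} (comm : ∀ x y, mul x y = mul y x) (hρ : Pow mul ρ) (f : Nat) :
    ∀ (n : Nat) (st : List Nat), DenL mul ρ st → DenL mul ρ (run f n st) := by
  induction f with
  | zero =>
    intro n st h
    exact h
  | succ f ih =>
    intro n st h
    unfold run
    by_cases hn : Nat.beq n 0 = true
    · rw [hn, cond_true]
      exact h
    · rw [Bool.not_eq_true] at hn
      rw [hn, cond_false]
      by_cases h15 : Nat.beq (n % 16) 15 = true
      · rw [h15, cond_true]
        rcases st with _ | ⟨a, _ | ⟨b, r⟩⟩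
        · intro k hk
          simp at hk
        · intro k hk
          simp at hk
        · apply ih
          intro k hk
          rcases List.mem_cons.mp hk with rfl | hk
          · obtain ⟨p, hp⟩ := h a (by simp)
            obtain ⟨q, hq⟩ := h b (by simp)
            exact ⟨_, mulc_den mul comm hρ hp hq⟩
          · exact h k (by simp [hk])
      · rw [Bool.not_eq_true] at h15
        rw [h15, cond_false]
        apply ih
        intro k hk
        rcases List.mem_cons.mp hk with rfl | hk
        · by_cases h0 : n % 16 = 0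
          · rw [h0]
            exact ⟨0, Den.zero⟩
          · refine ⟨_, Den.var _ (by omega) ?_⟩
            have h16 : n % 16 < 16 := Nat.mod_lt _ (by norm_num)
            have : n % 16 ≠ 15 := by
              intro h
              rw [h] at h15
              exact absurd h15 (by decide)
            omega
        · exact h k hk

/-- a keyed polynomial represents a vector -/
inductive Rep (ρ : Nat → V) : List (Nat × Int) → V → Prop
  | nil : Rep ρ [] 0
  | cons (k : Nat) (c : Int) (p : V) (L : List (Nat × Int)) (z : V) (hk : Den mul ρ k p)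
      (hL : Rep ρ L z) : Rep ρ ((k, c) :: L) ((c : F) • p + z)

theorem rep_ins {ρ : Nat → V} {k : Nat} {p : V} (hk : Den mul ρ k p) (c : Int)
    {L : List (Nat × Int)} {z : V} (hL : Rep mul ρ L z) :
    Rep mul ρ (ins k c L) ((c : F) • p + z) := by
  induction hL with
  | nil => exact Rep.cons k c p [] 0 hk Rep.nil
  | cons k' c' p' L z hk' hL ih =>
    unfold ins
    by_cases h1 : Nat.beq k k' = true
    · rw [h1, cond_true]
      have h2 : k = k' := Nat.eq_of_beq_eq_true h1
      subst h2
      have h3 : p = p' := den_unique mul hk hk'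
      subst h3
      have h4 : (c : F) • p + ((c' : F) • p + z) = ((c + c' : Int) : F) • p + z := by
        push_cast
        module
      rw [h4]
      exact Rep.cons _ _ _ _ _ hk hL
    · rw [Bool.not_eq_true] at h1
      rw [h1, cond_false]
      by_cases h2 : Nat.ble k k' = true
      · rw [h2, cond_true]
        exact Rep.cons _ _ _ _ _ hk (Rep.cons _ _ _ _ _ hk' hL)
      · rw [Bool.not_eq_true] at h2
        rw [h2, cond_false]
        have h4 : (c : F) • p + ((c' : F) • p' + z) = (c' : F) • p' + ((c : F) • p + z) := by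
          module
        rw [h4]
        exact Rep.cons _ _ _ _ _ hk' ih

theorem rep_append {ρ : Nat → V} {L L' : List (Nat × Int)} {z z' : V} (h : Rep mul ρ L z)
    (h' : Rep mul ρ L' z') : Rep mul ρ (L ++ L') (z + z') := by
  induction h with
  | nil =>
    rw [List.nil_append, zero_add]
    exact h'
  | cons k c p L z hk hL ih =>
    rw [List.cons_append, add_assoc]
    exact Rep.cons _ _ _ _ _ hk ih

theorem rep_merge {ρ : Nat → V} (f : Nat) : ∀ (L L' : List (Nat × Int)) (z z' : V),
    Rep mul ρ L z → Rep mul ρ L' z' → Rep mul ρ (merge f L L') (z + z') := by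
  induction f with
  | zero =>
    intro L L' z z' h h'
    exact rep_append mul h h'
  | succ f ih =>
    intro L L' z z' h h'
    cases h with
    | nil =>
      simp only [merge, zero_add]
      exact h'
    | cons k c p L z hk hL =>
      cases h' with
      | nil =>
        simp only [merge, add_zero]
        exact Rep.cons _ _ _ _ _ hk hL
      | cons k' c' p' L' z' hk' hL' =>
        simp only [merge]
        by_cases h1 : Nat.beq k k' = true
        · rw [h1, cond_true]
          have h2 : k = k' := Nat.eq_of_beq_eq_true h1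
          subst h2
          have h3 : p = p' := den_unique mul hk hk'
          subst h3
          have h4 : (c : F) • p + z + ((c' : F) • p + z') =
              ((c + c' : Int) : F) • p + (z + z') := by
            push_cast
            module
          rw [h4]
          exact Rep.cons _ _ _ _ _ hk (ih _ _ _ _ hL hL')
        · rw [Bool.not_eq_true] at h1
          rw [h1, cond_false]
          by_cases h2 : Nat.ble k k' = true
          · rw [h2, cond_true]
            have h4 : (c : F) • p + z + ((c' : F) • p' + z') =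
                (c : F) • p + (z + ((c' : F) • p' + z')) := by module
            rw [h4]
            exact Rep.cons _ _ _ _ _ hk (ih _ _ _ _ hL (Rep.cons _ _ _ _ _ hk' hL'))
          · rw [Bool.not_eq_true] at h2
            rw [h2, cond_false]
            have h4 : (c : F) • p + z + ((c' : F) • p' + z') =
                (c' : F) • p' + (((c : F) • p + z) + z') := by module
            rw [h4]
            exact Rep.cons _ _ _ _ _ hk' (ih _ _ _ _ (Rep.cons _ _ _ _ _ hk hL) hL')

/-- a list of keyed polynomials with the sum of the represented vectors -/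
inductive RepL (ρ : Nat → V) : List (List (Nat × Int)) → V → Prop
  | nil : RepL ρ [] 0
  | cons (L : List (Nat × Int)) (z : V) (Ls : List (List (Nat × Int))) (y : V)
      (hL : Rep mul ρ L z) (hLs : RepL ρ Ls y) : RepL ρ (L :: Ls) (z + y)

theorem repL_append {ρ : Nat → V} {L L' : List (List (Nat × Int))} {z z' : V}
    (h : RepL mul ρ L z) (h' : RepL mul ρ L' z') : RepL mul ρ (L ++ L') (z + z') := by
  induction h with
  | nil =>
    rw [List.nil_append, zero_add]
    exact h'
  | cons L z Ls y hL hLs ih =>
    rw [List.cons_append, add_assoc]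
    exact RepL.cons _ _ _ _ hL ih

theorem repL_pairUp {ρ : Nat → V} : ∀ (L : List (List (Nat × Int))) (z : V),
    RepL mul ρ L z → RepL mul ρ (pairUp L) z
  | [], _, h => h
  | [_], _, h => h
  | a :: b :: r, _, h => by
    cases h with
    | cons _ z _ y hL hLs =>
      cases hLs with
      | cons _ z' _ y' hL' hLs' =>
        unfold pairUp
        rw [← add_assoc]
        exact RepL.cons _ _ _ _ (rep_merge mul _ _ _ _ _ hL hL') (repL_pairUp r _ hLs')

theorem rep_flatten {ρ : Nat → V} {L : List (List (Nat × Int))} {z : V}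
    (h : RepL mul ρ L z) : Rep mul ρ L.flatten z := by
  induction h with
  | nil => exact Rep.nil
  | cons L z Ls y hL hLs ih =>
    rw [List.flatten_cons]
    exact rep_append mul hL ih

theorem rep_sumAll {ρ : Nat → V} (f : Nat) : ∀ (L : List (List (Nat × Int))) (z : V),
    RepL mul ρ L z → Rep mul ρ (sumAll f L) z := by
  induction f with
  | zero =>
    intro L z h
    exact rep_flatten mul h
  | succ f ih =>
    intro L z h
    rcases L with _ | ⟨a, _ | ⟨b, r⟩⟩
    · cases h
      exact Rep.nil
    · cases h with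
      | cons _ z _ y hL hLs =>
        cases hLs
        rw [add_zero]
        exact hL
    · unfold sumAll
      exact ih _ _ (repL_pairUp mul _ _ h)

theorem rep_allz {ρ : Nat → V} {L : List (Nat × Int)} {z : V} (h : Rep mul ρ L z)
    (ha : allz L = true) : z = 0 := by
  induction h with
  | nil => rfl
  | cons k c p L z hk hL ih =>
    unfold allz at ha
    rw [Bool.and_eq_true] at ha
    rw [ih ha.2, add_zero]
    rcases c with n | n
    · have : n = 0 := Nat.eq_of_beq_eq_true ha.1
      subst this
      simp
    · exact absurd ha.1 (by simp)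

theorem rep_allz' {ρ : Nat → V} {L : List (Nat × Int)} {z : V} (h : Rep mul ρ L z)
    (ha : allz' L = true) : z = 0 := by
  induction h with
  | nil => rfl
  | cons k c p L z hk hL ih =>
    unfold allz' at ha
    rw [Bool.and_eq_true, Bool.or_eq_true] at ha
    rw [ih ha.2, add_zero]
    rcases ha.1 with h0 | h0
    · have h1 : k = 0 := Nat.eq_of_beq_eq_true h0
      subst h1
      rw [den_unique mul hk Den.zero, smul_zero]
    · rcases c with n | n
      · have : n = 0 := Nat.eq_of_beq_eq_true h0
        subst this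
        simp
      · exact absurd h0 (by simp)

/-- evaluation of a path -/
theorem pathc_den {ρ : Nat → V} (comm : ∀ x y, mul x y = mul y x) (hρ : Pow mul ρ) :
    ∀ (path : List Nat), DenL mul ρ path → ∃ C : V →ₗ[F] V, ∀ (a : Nat) (p : V),
      Den mul ρ a p → Den mul ρ (pathc path a) (C p) := by
  intro path
  induction path with
  | nil =>
    intro _
    exact ⟨LinearMap.id, fun a p h => h⟩
  | cons s r ih =>
    intro h
    obtain ⟨C, hC⟩ := ih (fun k hk => h k (by simp [hk]))
    obtain ⟨q, hq⟩ := h s (by simp)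
    refine ⟨C.comp (mul q), fun a p hp => ?_⟩
    exact hC _ _ (mulc_den mul comm hρ hq hp)

theorem rep_terms {ρ ρ' : Nat → V}
    {env : Nat → Nat} (path : List Nat) (C : V →ₗ[F] V)
    (hC : ∀ (a : Nat) (p : V), Den mul ρ a p → Den mul ρ (pathc path a) (C p)) (c : Int)
    (L : List (Int × T)) (hL : ∀ t ∈ L, Den mul ρ (t.2.code env) (t.2.ev mul ρ')) :
    Rep mul ρ (terms env path c L) ((c : F) • C (evP mul ρ' L)) := by
  induction L with
  | nil =>
    simp only [terms, evP, map_zero, smul_zero]
    exact Rep.nil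
  | cons t L ih =>
    obtain ⟨k, t⟩ := t
    have h1 := ih (fun s hs => hL s (by simp [hs]))
    have h2 := hL (k, t) (by simp)
    have h3 := rep_ins mul (hC _ _ h2) (c * k) h1
    have h4 : (c : F) • C (evP mul ρ' ((k, t) :: L)) =
        ((c * k : Int) : F) • C (t.ev mul ρ') + (c : F) • C (evP mul ρ' L) := by
      simp only [evP, map_add, map_smul]
      push_cast
      module
    rw [h4]
    exact h3

/-- The environment of a line. -/
theorem envA_den {ρ : Nat → V} (args : List Nat) (h : DenL mul ρ args) :
    ∃ ρ' : Nat → V, (∀ n, 1 ≤ n → n ≤ 4 → ρ' n = ρ n) ∧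
      ∀ n, Den mul ρ (envA args n) (ρ' n) := by
  have : ∀ n, ∃ p, Den mul ρ (envA args n) p ∧ (1 ≤ n → n ≤ 4 → p = ρ n) := by
    intro n
    unfold envA
    by_cases hn : n ≤ 4
    · have e : Nat.ble n 4 = true := Nat.ble_eq.mpr hn
      rw [e, cond_true]
      by_cases h0 : n = 0
      · subst h0
        exact ⟨0, Den.zero, fun h => by omega⟩
      · exact ⟨ρ n, Den.var n (by omega) (by omega), fun _ _ => rfl⟩
    · have e : Nat.ble n 4 = false := by
        rw [← Bool.not_eq_true, Nat.ble_eq]
        exact hn
      rw [e, cond_false]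
      by_cases hm : n - 5 < args.length
      · rw [List.getD_eq_getElem _ _ hm]
        obtain ⟨p, hp⟩ := h _ (List.getElem_mem hm)
        exact ⟨p, hp, fun _ h4 => by omega⟩
      · rw [List.getD_eq_default _ _ (by omega)]
        exact ⟨0, Den.zero, fun _ h4 => by omega⟩
  choose ρ' h1 h2 using this
  exact ⟨ρ', h2, h1⟩

/-- `p` holds for every assignment with the prescribed powers of `x`, modulo `S` -/
def HoldsAt (S : Submodule F V) (ρ : Nat → V) (p : List (Int × T)) : Prop :=
  ∀ ρ' : Nat → V, (∀ n, 1 ≤ n → n ≤ 4 → ρ' n = ρ n) → evP mul ρ' p ∈ S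

theorem lineT_rep {ρ : Nat → V} (comm : ∀ x y, mul x y = mul y x) (hρ : Pow mul ρ)
    (ids : List (List (Int × T))) (hids : ∀ p ∈ ids, HoldsAt mul ⊥ ρ p)
    (l : Int × Nat × Nat × Nat) : Rep mul ρ (lineT ids l) 0 := by
  unfold lineT
  obtain ⟨ρ', h1, h2⟩ := envA_den mul _ (run_den mul comm hρ 200 l.2.2.1 [] (by
    intro k hk
    simp at hk))
  obtain ⟨C, hC⟩ := pathc_den mul comm hρ _ (run_den mul comm hρ 200 l.2.2.2 [] (by
    intro k hk
    simp at hk))
  have h3 := rep_terms mul (ρ' := ρ') _ C hC l.1 (ids.getD l.2.1 [])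
    (fun t _ => code_den mul comm hρ h2 t.2)
  have h4 : evP mul ρ' (ids.getD l.2.1 []) = 0 := by
    by_cases hm : l.2.1 < ids.length
    · rw [List.getD_eq_getElem _ _ hm]
      exact (Submodule.mem_bot F).mp (hids _ (List.getElem_mem hm) ρ' h1)
    · rw [List.getD_eq_default _ _ (by omega)]
      rfl
  rw [h4, map_zero, smul_zero] at h3
  exact h3

theorem lineT_rep' {ρ : Nat → V} (comm : ∀ x y, mul x y = mul y x) (hρ : Pow mul ρ)
    (S : Submodule F V)
    (ids : List (List (Int × T))) (hids : ∀ p ∈ ids, HoldsAt mul S ρ p)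
    (l : Int × Nat × Nat) : ∃ z ∈ S, Rep mul ρ (lineT ids (l.1, l.2.1, l.2.2, 0)) z := by
  unfold lineT
  obtain ⟨ρ', h1, h2⟩ := envA_den mul _ (run_den mul comm hρ 200 l.2.2 [] (by
    intro k hk
    simp at hk))
  have h3 := rep_terms mul (ρ' := ρ') (run 200 0 []) LinearMap.id
    (fun a p h => h) l.1 (ids.getD l.2.1 [])
    (fun t _ => code_den mul comm hρ h2 t.2)
  refine ⟨_, ?_, h3⟩
  apply Submodule.smul_mem
  rw [LinearMap.id_apply]
  by_cases hm : l.2.1 < ids.length
  · rw [List.getD_eq_getElem _ _ hm]
    exact hids _ (List.getElem_mem hm) ρ' h1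
  · rw [List.getD_eq_default _ _ (by omega)]
    exact Submodule.zero_mem _

theorem check_sound [CharZero F] {ρ : Nat → V} (comm : ∀ x y, mul x y = mul y x)
    (hρ : Pow mul ρ) (S : Submodule F V)
    (ids tids : List (List (Int × T))) (hids : ∀ p ∈ ids, HoldsAt mul ⊥ ρ p)
    (htids : ∀ p ∈ tids, HoldsAt mul S ρ p)
    (D : Int) (hD : D ≠ 0) (target : List (Int × T)) (lines : List (Int × Nat × Nat × Nat))
    (tlines : List (Int × Nat × Nat)) (h : check ids tids D target lines tlines = true) :
    HoldsAt mul S ρ target := by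
  intro ρ₂ hρ₂
  -- replace `ρ` by `ρ₂`
  have hpow : Pow mul ρ₂ := by
    intro a b ha hb ha4 hb4
    rw [hρ₂ a ha ha4, hρ₂ b hb hb4, hρ a b ha hb ha4 hb4]
    by_cases hab : a + b ≤ 4
    · rw [if_pos hab, if_pos hab, hρ₂ (a + b) (by omega) hab]
    · rw [if_neg hab, if_neg hab]
  have hids₂ : ∀ p ∈ ids, HoldsAt mul ⊥ ρ₂ p := fun p hp ρ' hρ' =>
    hids p hp ρ' (fun n h1 h2 => by rw [hρ' n h1 h2, hρ₂ n h1 h2])
  have htids₂ : ∀ p ∈ tids, HoldsAt mul S ρ₂ p := fun p hp ρ' hρ' =>
    htids p hp ρ' (fun n h1 h2 => by rw [hρ' n h1 h2, hρ₂ n h1 h2])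
  unfold check at h
  rw [Bool.and_eq_true, List.all_eq_true] at h
  have r1 := rep_terms mul (ρ := ρ₂) (ρ' := ρ₂) (env := env0) []
    LinearMap.id (fun a p h => h) (-D) target
    (fun t ht => code_den0 mul comm hpow t.2 (h.1 t ht))
  have r2 : RepL mul ρ₂ (lines.map (lineT ids)) 0 := by
    clear h
    induction lines with
    | nil => exact RepL.nil
    | cons l ls ih =>
      have := RepL.cons _ _ _ _ (lineT_rep mul comm hpow ids hids₂ l) ih
      rw [add_zero] at this
      exact this
  have r3 : ∃ z ∈ S, RepL mul ρ₂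
      (tlines.map (fun l => lineT tids (l.1, l.2.1, l.2.2, 0))) z := by
    clear h
    induction tlines with
    | nil => exact ⟨0, Submodule.zero_mem _, RepL.nil⟩
    | cons l ls ih =>
      obtain ⟨y, hy, hy2⟩ := ih
      obtain ⟨z, hz, hz2⟩ := lineT_rep' mul comm hpow S tids htids₂ l
      exact ⟨z + y, Submodule.add_mem _ hz hy, RepL.cons _ _ _ _ hz2 hy2⟩
  obtain ⟨z, hz, r3⟩ := r3
  have r4 := rep_sumAll mul 40 _ _ (RepL.cons _ _ _ _ r1 (repL_append mul r3 r2))
  have r5 := rep_allz mul r4 h.2
  rw [LinearMap.id_apply, add_zero] at r5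
  have hD' : ((-D : Int) : F) ≠ 0 := by
    rw [Int.cast_ne_zero]
    omega
  have r6 : evP mul ρ₂ target = -((((-D : Int) : F))⁻¹ • z) := by
    have : evP mul ρ₂ target = ((-D : Int) : F)⁻¹ • (((-D : Int) : F) • evP mul ρ₂ target) := by
      rw [smul_smul, inv_mul_cancel₀ hD', one_smul]
    rw [this, eq_neg_of_add_eq_zero_left r5, smul_neg]
  rw [r6]
  exact Submodule.neg_mem _ (Submodule.smul_mem _ _ hz)

theorem check_sound' [CharZero F] {ρ : Nat → V} (comm : ∀ x y, mul x y = mul y x)
    (hρ : Pow mul ρ) (S : Submodule F V)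
    (ids tids : List (List (Int × T))) (hids : ∀ p ∈ ids, HoldsAt mul ⊥ ρ p)
    (htids : ∀ p ∈ tids, HoldsAt mul S ρ p)
    (D : Int) (hD : D ≠ 0) (target : List (Int × T)) (lines : List (Int × Nat × Nat × Nat))
    (tlines : List (Int × Nat × Nat)) (h : check' ids tids D target lines tlines = true) :
    HoldsAt mul S ρ target := by
  intro ρ₂ hρ₂
  -- replace `ρ` by `ρ₂`
  have hpow : Pow mul ρ₂ := by
    intro a b ha hb ha4 hb4
    rw [hρ₂ a ha ha4, hρ₂ b hb hb4, hρ a b ha hb ha4 hb4]
    by_cases hab : a + b ≤ 4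
    · rw [if_pos hab, if_pos hab, hρ₂ (a + b) (by omega) hab]
    · rw [if_neg hab, if_neg hab]
  have hids₂ : ∀ p ∈ ids, HoldsAt mul ⊥ ρ₂ p := fun p hp ρ' hρ' =>
    hids p hp ρ' (fun n h1 h2 => by rw [hρ' n h1 h2, hρ₂ n h1 h2])
  have htids₂ : ∀ p ∈ tids, HoldsAt mul S ρ₂ p := fun p hp ρ' hρ' =>
    htids p hp ρ' (fun n h1 h2 => by rw [hρ' n h1 h2, hρ₂ n h1 h2])
  unfold check' at h
  rw [Bool.and_eq_true, List.all_eq_true] at h
  have r1 := rep_terms mul (ρ := ρ₂) (ρ' := ρ₂) (env := env0) []
    LinearMap.id (fun a p h => h) (-D) target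
    (fun t ht => code_den0 mul comm hpow t.2 (h.1 t ht))
  have r2 : RepL mul ρ₂ (lines.map (lineT ids)) 0 := by
    clear h
    induction lines with
    | nil => exact RepL.nil
    | cons l ls ih =>
      have := RepL.cons _ _ _ _ (lineT_rep mul comm hpow ids hids₂ l) ih
      rw [add_zero] at this
      exact this
  have r3 : ∃ z ∈ S, RepL mul ρ₂
      (tlines.map (fun l => lineT tids (l.1, l.2.1, l.2.2, 0))) z := by
    clear h
    induction tlines with
    | nil => exact ⟨0, Submodule.zero_mem _, RepL.nil⟩
    | cons l ls ih =>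
      obtain ⟨y, hy, hy2⟩ := ih
      obtain ⟨z, hz, hz2⟩ := lineT_rep' mul comm hpow S tids htids₂ l
      exact ⟨z + y, Submodule.add_mem _ hz hy, RepL.cons _ _ _ _ hz2 hy2⟩
  obtain ⟨z, hz, r3⟩ := r3
  have r4 := rep_sumAll mul 40 _ _ (RepL.cons _ _ _ _ r1 (repL_append mul r3 r2))
  have r5 := rep_allz' mul r4 h.2
  rw [LinearMap.id_apply, add_zero] at r5
  have hD' : ((-D : Int) : F) ≠ 0 := by
    rw [Int.cast_ne_zero]
    omega
  have r6 : evP mul ρ₂ target = -((((-D : Int) : F))⁻¹ • z) := by
    have : evP mul ρ₂ target = ((-D : Int) : F)⁻¹ • (((-D : Int) : F) • evP mul ρ₂ target) := by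
      rw [smul_smul, inv_mul_cancel₀ hD', one_smul]
    rw [this, eq_neg_of_add_eq_zero_left r5, smul_neg]
  rw [r6]
  exact Submodule.neg_mem _ (Submodule.smul_mem _ _ hz)

end Pool.Agent.Alb.Chk
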