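import Mathlib
import Pool.Agent.Lib_MP_380d39.Chk

set_option autoImplicit false

/-!
# Polarisation of identities by formal differentiation
-/

namespace Pool.Agent.Alb.Chk

universe u w

def T.der (i j : Nat) : T → List T
  | .v n => bif Nat.beq n i then [.v j] else []
  | .m a b => (a.der i j).map (fun s => .m s b) ++ (b.der i j).map (fun s => .m a s)

def derP (i j : Nat) : List (Int × T) → List (Int × T)
  | [] => []
  | (k, t) :: r => (t.der i j).map (fun s => (k, s)) ++ derP i j r

variable {F : Type u} [Field F] {V : Type w} [AddCommGroup V] [Module F V]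
  (mul : V →ₗ[F] V →ₗ[F] V)

def evL (ρ : Nat → V) : List T → V
  | [] => 0
  | t :: r => t.ev mul ρ + evL ρ r

theorem evL_append (ρ : Nat → V) (l l' : List T) :
    evL mul ρ (l ++ l') = evL mul ρ l + evL mul ρ l' := by
  induction l with
  | nil => simp [evL]
  | cons t r ih => simp only [List.cons_append, evL, ih, add_assoc]

theorem evP_append (ρ : Nat → V) (l l' : List (Int × T)) :
    evP mul ρ (l ++ l') = evP mul ρ l + evP mul ρ l' := by
  induction l with
  | nil => simp [evP]
  | cons t r ih =>
    obtain ⟨k, t⟩ := t
    simp only [List.cons_append, evP, ih, add_assoc]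

theorem evL_map_left (ρ : Nat → V) (b : T) (l : List T) :
    evL mul ρ (l.map (fun s => .m s b)) = mul (evL mul ρ l) (b.ev mul ρ) := by
  induction l with
  | nil => simp [evL]
  | cons t r ih => simp only [List.map_cons, evL, ih, T.ev, map_add, LinearMap.add_apply]

theorem evL_map_right (ρ : Nat → V) (a : T) (l : List T) :
    evL mul ρ (l.map (fun s => .m a s)) = mul (a.ev mul ρ) (evL mul ρ l) := by
  induction l with
  | nil => simp [evL]
  | cons t r ih => simp only [List.map_cons, evL, ih, T.ev, map_add]

theorem evP_map (ρ : Nat → V) (k : Int) (l : List T) :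
    evP mul ρ (l.map (fun s => (k, s))) = (k : F) • evL mul ρ l := by
  induction l with
  | nil => simp [evL, evP]
  | cons t r ih => simp only [List.map_cons, evL, evP, ih, smul_add]

theorem ev_jet (ρ : Nat → V) (i j : Nat) (t : T) :
    HasJet (fun s : F => t.ev mul (Function.update ρ i (ρ i + s • ρ j))) (t.ev mul ρ)
      (evL mul ρ (t.der i j)) := by
  induction t with
  | v n =>
    by_cases h : n = i
    · subst h
      have e : Nat.beq n n = true := Nat.beq_refl n
      simp only [T.ev, T.der, e, cond_true, evL, add_zero, Function.update_self]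
      exact jet_line _ _
    · have e : Nat.beq n i = false := by
        rw [← Bool.not_eq_true]
        intro h2
        exact h (Nat.eq_of_beq_eq_true h2)
      simp only [T.ev, T.der, e, cond_false, evL, Function.update_of_ne h]
      exact jet_const _
  | m a b iha ihb =>
    have h := jet_bil mul iha ihb
    simp only [T.ev, T.der, evL_append, evL_map_left, evL_map_right]
    rw [add_comm]
    exact h

theorem evP_jet (ρ : Nat → V) (i j : Nat) (p : List (Int × T)) :
    HasJet (fun s : F => evP mul (Function.update ρ i (ρ i + s • ρ j)) p) (evP mul ρ p)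
      (evP mul ρ (derP i j p)) := by
  induction p with
  | nil => exact jet_const _
  | cons t r ih =>
    obtain ⟨k, t⟩ := t
    simp only [evP, derP, evP_append, evP_map]
    exact jet_add (jet_smul (k : F) (ev_jet mul ρ i j t)) ih

/-- `p` is an identity -/
def HoldsAll (p : List (Int × T)) : Prop := ∀ ρ : Nat → V, evP mul ρ p = 0

theorem HoldsAll.at {p : List (Int × T)} (h : HoldsAll mul p) (S : Submodule F V)
    (ρ : Nat → V) : HoldsAt mul S ρ p := by
  intro ρ' _
  rw [h ρ']
  exact Submodule.zero_mem _

theorem HoldsAll.der [Infinite F] {p : List (Int × T)} (h : HoldsAll mul p) (i j : Nat) :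
    HoldsAll mul (derP i j p) := by
  intro ρ
  rw [← Module.forall_dual_apply_eq_zero_iff F]
  intro φ
  refine jet_zero (jet_lin φ (evP_jet mul ρ i j p)) (fun t => ?_)
  rw [h, map_zero]

/-- membership version -/
theorem holdsMod_der [Infinite F] {p : List (Int × T)} (φ : V →ₗ[F] F)
    (h : ∀ ρ : Nat → V, evP mul ρ p ∈ LinearMap.ker φ) (i j : Nat) (ρ : Nat → V) :
    evP mul ρ (derP i j p) ∈ LinearMap.ker φ := by
  rw [LinearMap.mem_ker]
  exact jet_zero (jet_lin φ (evP_jet mul ρ i j p)) (fun t => LinearMap.mem_ker.mp (h _))

end Pool.Agent.Alb.Chk
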