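import Mathlib
import Pool.Agent.Lib_MP_380d39.Core

set_option autoImplicit false

/-!
# The derived series reaches zero

From perfect algebras to solvability, for a finite-dimensional commutative algebra in which the
square of every square is zero.
-/

namespace Pool.Agent.Alb

universe u v

section derived

variable {F : Type u} [Field F] {A : Type v} [NonUnitalNonAssocCommRing A] [Module F A]
  [IsScalarTower F A A] [SMulCommClass F A A]

/-- The product of a subspace closed under products. -/
noncomputable def mulOn (U : Submodule F A) (hU : ∀ a ∈ U, ∀ b ∈ U, a * b ∈ U) :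
    U →ₗ[F] U →ₗ[F] U :=
  LinearMap.mk₂ F (fun a b => (⟨(a : A) * b, hU a a.2 b b.2⟩ : U))
    (fun a b c => by ext; simp [add_mul])
    (fun r a b => by ext; exact smul_mul_assoc r (a : A) (b : A))
    (fun a b c => by ext; simp [mul_add])
    (fun r a b => by ext; exact mul_smul_comm r (a : A) (b : A))

theorem mulOn_coe (U : Submodule F A) (hU : ∀ a ∈ U, ∀ b ∈ U, a * b ∈ U) (a b : U) :
    ((mulOn U hU a b : U) : A) = (a : A) * b := rfl

/-- The span of the products of elements of a subspace. -/
def sqSpan (U : Submodule F A) : Submodule F A :=
  Submodule.span F {z : A | ∃ a ∈ U, ∃ b ∈ U, z = a * b}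

theorem sqSpan_mono {U W : Submodule F A} (h : U ≤ W) : sqSpan U ≤ sqSpan W := by
  refine Submodule.span_mono ?_
  rintro z ⟨a, ha, b, hb, rfl⟩
  exact ⟨a, h ha, b, h hb, rfl⟩

theorem mul_mem_sqSpan (U : Submodule F A) {a b : A} (ha : a ∈ U) (hb : b ∈ U) :
    a * b ∈ sqSpan U := Submodule.subset_span ⟨a, ha, b, hb, rfl⟩

/-- The derived series. -/
def der (F : Type u) [Field F] (A : Type v) [NonUnitalNonAssocCommRing A] [Module F A] :
    ℕ → Submodule F A
  | 0 => ⊤
  | k + 1 => sqSpan (der F A k)

theorem der_succ_le (k : ℕ) : der F A (k + 1) ≤ der F A k := by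
  induction k with
  | zero => exact le_top
  | succ k ih => exact sqSpan_mono ih

variable [FiniteDimensional F A] (two : (2 : F) ≠ 0)
  (sq : ∀ x : A, (x * x) * (x * x) = 0)

include two sq

theorem eq_bot_of_stable (U : Submodule F A) (h : sqSpan U = U) : U = ⊥ := by
  have hU : ∀ a ∈ U, ∀ b ∈ U, a * b ∈ U := by
    intro a ha b hb
    rw [← h]
    exact mul_mem_sqSpan U ha hb
  have hs : Subsingleton U := by
    refine subsingleton_of_perfect (mulOn U hU) two ?_ ?_ ?_
    · intro x y
      ext
      simp only [mulOn_coe]
      exact mul_comm _ _
    · intro x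
      ext
      simp only [mulOn_coe]
      exact sq x
    · rw [eq_top_iff]
      have key : ∀ z : A, z ∈ sqSpan U → ∀ hz : z ∈ U,
          (⟨z, hz⟩ : U) ∈ Submodule.span F {z : U | ∃ a b : U, z = mulOn U hU a b} := by
        intro z hz
        unfold sqSpan at hz
        induction hz using Submodule.span_induction with
        | mem z hz =>
          intro hz'
          obtain ⟨a, ha, b, hb, rfl⟩ := hz
          exact Submodule.subset_span ⟨⟨a, ha⟩, ⟨b, hb⟩, rfl⟩
        | zero =>
          intro hz'
          exact Submodule.zero_mem _
        | add x y hx hy ihx ihy =>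
          intro hz'
          have hx' : x ∈ U := by rw [← h]; exact hx
          have hy' : y ∈ U := by rw [← h]; exact hy
          exact Submodule.add_mem _ (ihx hx') (ihy hy')
        | smul r x hx ihx =>
          intro hz'
          have hx' : x ∈ U := by rw [← h]; exact hx
          exact Submodule.smul_mem _ r (ihx hx')
      rintro ⟨z, hz⟩ -
      exact key z (by rw [h]; exact hz) hz
  rw [Submodule.eq_bot_iff]
  intro x hx
  have := hs.elim (⟨x, hx⟩ : U) 0
  exact congrArg Subtype.val this

theorem der_finrank (k : ℕ) :
    Module.finrank F (der F A k) + k ≤ Module.finrank F A ∨ der F A k = ⊥ := by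
  induction k with
  | zero =>
    left
    rw [add_zero]
    exact Submodule.finrank_le _
  | succ k ih =>
    rcases ih with ih | ih
    · rcases eq_or_ne (der F A (k + 1)) (der F A k) with he | he
      · right
        have h0 : der F A k = ⊥ := eq_bot_of_stable two sq (der F A k) he
        rw [he, h0]
      · left
        have hlt : der F A (k + 1) < der F A k := lt_of_le_of_ne (der_succ_le k) he
        have := Submodule.finrank_lt_finrank_of_lt hlt
        omega
    · right
      have := der_succ_le (F := F) (A := A) k
      rw [ih] at this
      exact le_bot_iff.mp this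

theorem der_eq_bot : der F A (Module.finrank F A) = ⊥ := by
  rcases der_finrank (F := F) (A := A) two sq (Module.finrank F A) with h | h
  · have h0 : Module.finrank F (der F A (Module.finrank F A)) = 0 := by omega
    exact Submodule.finrank_eq_zero.mp h0
  · exact h

end derived

end Pool.Agent.Alb
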