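import Mathlib
import Pool.Agent.Lib_MP_380d39.Rel
import Pool.Agent.Lib_MP_380d39.Derived

set_option autoImplicit false

/-!
# The derived series enters the subalgebra generated by the fourth powers
-/

namespace Pool.Agent.Alb

universe u v

theorem ringChar_of_zero (F : Type u) [Field F] (p : ℕ) (hp : p.Prime) (h : (p : F) = 0) :
    ringChar F = p := by
  have h1 : ringChar F ∣ p := ringChar.dvd h
  rcases (Nat.dvd_prime hp).mp h1 with h2 | h2
  · exact absurd h2 CharP.ringChar_ne_one
  · exact h2

theorem card_of_cube (F : Type u) [Field F] (two : (2 : F) ≠ 0) (h : ∀ t : F, t ^ 3 = t) :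
    Nat.card F = 3 := by
  rw [← Set.ncard_univ, Set.ncard_eq_three]
  refine ⟨0, 1, -1, zero_ne_one, (neg_ne_zero.mpr one_ne_zero).symm, ?_, ?_⟩
  · intro h1
    apply two
    linear_combination h1
  · ext t
    simp only [Set.mem_univ, Set.mem_insert_iff, Set.mem_singleton_iff, true_iff]
    have h2 : t * ((t - 1) * (t + 1)) = 0 := by linear_combination h t
    rcases mul_eq_zero.mp h2 with h3 | h3
    · exact Or.inl h3
    · rcases mul_eq_zero.mp h3 with h4 | h4
      · exact Or.inr (Or.inl (sub_eq_zero.mp h4))
      · exact Or.inr (Or.inr (eq_neg_of_add_eq_zero_left h4))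

section aux

variable {F : Type u} [Field F] {A : Type v} [NonUnitalNonAssocCommRing A] [Module F A]
  [IsScalarTower F A A] [SMulCommClass F A A] [FiniteDimensional F A]

theorem le_of_stable (two : (2 : F) ≠ 0) (S : Submodule F A)
    (hS : ∀ a ∈ S, ∀ b ∈ S, a * b ∈ S) (h4 : ∀ x : A, (x * x) * (x * x) ∈ S)
    (h3 : (∀ t : F, t ^ 3 = t) → ∀ x y : A, (x * x) * (x * y) ∈ S)
    (U : Submodule F A) (h : sqSpan U = U) : U ≤ S := by
  have hU : ∀ a ∈ U, ∀ b ∈ U, a * b ∈ U := by
    intro a ha b hb
    rw [← h]
    exact mul_mem_sqSpan U ha hb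
  have key : S.comap U.subtype = ⊤ := by
    refine closed_top (m := mulOn U hU) two ?_ ?_ (S.comap U.subtype) ?_ ?_ ?_
    · intro x y
      ext
      simp only [mulOn_coe]
      exact mul_comm _ _
    · rw [eq_top_iff]
      have key : ∀ z : A, z ∈ sqSpan U → ∀ hz : z ∈ U,
          (⟨z, hz⟩ : U) ∈ Submodule.span F {z : U | ∃ a b : U, z = mulOn U hU a b} := by
        intro z hz
        unfold sqSpan at hz
        induction hz using Submodule.span_induction with
        | mem z hz =>
          intro hz'
          obtain ⟨a, ha, b, hb, rfl⟩ := hz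
          exact Submodule.subset_span ⟨⟨a, ha⟩, ⟨b, hb⟩, rfl⟩
        | zero =>
          intro hz'
          exact Submodule.zero_mem _
        | add x y hx hy ihx ihy =>
          intro hz'
          have hx' : x ∈ U := by rw [← h]; exact hx
          have hy' : y ∈ U := by rw [← h]; exact hy
          exact Submodule.add_mem _ (ihx hx') (ihy hy')
        | smul r x hx ihx =>
          intro hz'
          have hx' : x ∈ U := by rw [← h]; exact hx
          exact Submodule.smul_mem _ r (ihx hx')
      rintro ⟨z, hz⟩ -
      exact key z (by rw [h]; exact hz) hz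
    · intro a ha b hb
      simp only [Submodule.mem_comap, Submodule.subtype_apply, mulOn_coe] at ha hb ⊢
      exact hS _ ha _ hb
    · intro x
      simp only [Submodule.mem_comap, Submodule.subtype_apply, mulOn_coe]
      exact h4 _
    · intro h0 x y
      simp only [Submodule.mem_comap, Submodule.subtype_apply, mulOn_coe]
      exact h3 h0 _ _
  intro x hx
  have : (⟨x, hx⟩ : U) ∈ S.comap U.subtype := by rw [key]; trivial
  exact this

theorem der_finrank_or (two : (2 : F) ≠ 0) (S : Submodule F A)
    (hS : ∀ a ∈ S, ∀ b ∈ S, a * b ∈ S) (h4 : ∀ x : A, (x * x) * (x * x) ∈ S)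
    (h3 : (∀ t : F, t ^ 3 = t) → ∀ x y : A, (x * x) * (x * y) ∈ S) (k : ℕ) :
    Module.finrank F (der F A k) + k ≤ Module.finrank F A ∨ der F A k ≤ S := by
  induction k with
  | zero =>
    left
    rw [add_zero]
    exact Submodule.finrank_le _
  | succ k ih =>
    rcases ih with ih | ih
    · rcases eq_or_ne (der F A (k + 1)) (der F A k) with he | he
      · right
        rw [he]
        exact le_of_stable two S hS h4 h3 (der F A k) he
      · left
        have hlt : der F A (k + 1) < der F A k := lt_of_le_of_ne (der_succ_le k) he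
        have := Submodule.finrank_lt_finrank_of_lt hlt
        omega
    · right
      exact (der_succ_le k).trans ih

theorem der_le (two : (2 : F) ≠ 0) (S : Submodule F A)
    (hS : ∀ a ∈ S, ∀ b ∈ S, a * b ∈ S) (h4 : ∀ x : A, (x * x) * (x * x) ∈ S)
    (h3 : (∀ t : F, t ^ 3 = t) → ∀ x y : A, (x * x) * (x * y) ∈ S) :
    der F A (Module.finrank F A) ≤ S := by
  rcases der_finrank_or two S hS h4 h3 (Module.finrank F A) with h | h
  · have h0 : Module.finrank F (der F A (Module.finrank F A)) = 0 := by omega
    rw [Submodule.finrank_eq_zero.mp h0]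
    exact bot_le
  · exact h

end aux

end Pool.Agent.Alb
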