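import Mathlib
import Pool.Agent.Lib_MP_380d39.ChkPol

set_option autoImplicit false

/-!
# A faster version of the certificate checker

All functions are written with recursors, numbers are forced before they are used, coefficients
are pairs of natural numbers (positive part, negative part), and a certificate is one natural
number.
-/

namespace Pool.Agent.Alb.Fast

open Pool.Agent.Alb.Chk

universe u w

/-- polynomials -/
abbrev P := List (Int × T)

/-- forces the evaluation of a number -/
noncomputable def frc {α : Type} (n : Nat) (k : Nat → α) : α :=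
  Nat.rec (motive := fun _ => α) (k 0) (fun m _ => k (Nat.succ m)) n

theorem frc_eq {α : Type} (n : Nat) (k : Nat → α) : frc n k = k n := by
  cases n <;> rfl

noncomputable def mulo (a b : Nat) : Nat :=
  bif Nat.ble b 4 then
    (bif Nat.beq a 0 then 0 else bif Nat.ble (Nat.add a b) 4 then Nat.add a b else 0)
  else bif Nat.beq a 0 then 0 else Nat.add 16 (Nat.add (Nat.mul b b) a)

noncomputable def mulf (a b : Nat) : Nat :=
  frc a fun a => frc b fun b => bif Nat.ble a b then mulo a b else mulo b a

theorem mulf_eq (a b : Nat) : mulf a b = mulc a b := by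
  unfold mulf
  simp only [frc_eq]
  unfold mulc mulo
  have key : ∀ n m : Nat, Nat.beq n m = decide (n = m) := fun n m => by
    rw [Bool.eq_iff_iff]
    simp [Nat.beq_eq]
  have key2 : ∀ n m : Nat, Nat.ble n m = decide (n ≤ m) := fun n m => by
    rw [Bool.eq_iff_iff]
    simp [Nat.ble_eq]
  simp only [key, key2, Nat.add_eq, Nat.mul_eq]
  by_cases ha : a = 0
  · subst ha
    simp
  · by_cases hb : b = 0
    · subst hb
      have : ¬ a ≤ 0 := by omega
      simp [ha]
    · by_cases hab : a ≤ b
      · simp [ha, hb, hab]
      · have hba : b ≤ a := by omega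
        simp [ha, hb, hab, Nat.add_comm b a]

noncomputable def codef (env : Nat → Nat) (t : T) : Nat :=
  T.rec (motive := fun _ => Nat) (fun n => env n) (fun _ _ a b => mulf a b) t

theorem codef_eq (env : Nat → Nat) (t : T) : codef env t = t.code env := by
  induction t with
  | v n => rfl
  | m a b iha ihb =>
    change mulf (codef env a) (codef env b) = mulc _ _
    rw [mulf_eq, iha, ihb]

noncomputable def getf (l : List Nat) (n : Nat) : Nat :=
  List.rec (motive := fun _ => Nat → Nat) (fun _ => 0)
    (fun a _ ih n => Nat.rec (motive := fun _ => Nat) a (fun m _ => ih m) n) l n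

theorem getf_eq (l : List Nat) (n : Nat) : getf l n = l.getD n 0 := by
  induction l generalizing n with
  | nil => rfl
  | cons a r ih =>
    cases n with
    | zero => rfl
    | succ m =>
      change getf r m = _
      rw [ih]
      rfl

noncomputable def envf (args : List Nat) (n : Nat) : Nat :=
  bif Nat.ble n 4 then n else getf args (Nat.sub n 5)

theorem envf_eq (args : List Nat) (n : Nat) : envf args n = envA args n := by
  unfold envf envA
  rw [getf_eq]
  rfl

noncomputable def runf (f : Nat) : Nat → List Nat → List Nat :=
  Nat.rec (motive := fun _ => Nat → List Nat → List Nat) (fun _ st => st)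
    (fun _ ih n st => frc n fun n => bif Nat.beq n 0 then st
      else frc (Nat.mod n 16) fun d => bif Nat.beq d 15 then
        (List.rec (motive := fun _ => List Nat) []
          (fun a r _ => List.rec (motive := fun _ => List Nat) []
            (fun b r' _ => frc (mulf a b) fun c => ih (Nat.div n 16) (c :: r')) r) st)
      else ih (Nat.div n 16) (d :: st)) f

theorem runf_eq (f : Nat) : ∀ (n : Nat) (st : List Nat), runf f n st = run f n st := by
  induction f with
  | zero =>
    intro n st
    rfl
  | succ f ih =>
    intro n st
    change (frc n fun n => bif Nat.beq n 0 then st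
      else frc (Nat.mod n 16) fun d => bif Nat.beq d 15 then
        (List.rec (motive := fun _ => List Nat) []
          (fun a r _ => List.rec (motive := fun _ => List Nat) []
            (fun b r' _ => frc (mulf a b) fun c => runf f (Nat.div n 16) (c :: r')) r) st)
      else runf f (Nat.div n 16) (d :: st)) = _
    simp only [frc_eq]
    unfold run
    congr 1
    have e1 : Nat.mod n 16 = n % 16 := rfl
    have e2 : Nat.div n 16 = n / 16 := rfl
    rw [e1, e2, ih]
    congr 1
    rcases st with _ | ⟨a, _ | ⟨b, r⟩⟩
    · rfl
    · rfl
    · change runf f (n / 16) (mulf a b :: r) = run f (n / 16) (mulc a b :: r)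
      rw [ih, mulf_eq]

noncomputable def pathf (path : List Nat) : Nat → Nat :=
  List.rec (motive := fun _ => Nat → Nat) (fun a => a) (fun s _ ih a => ih (mulf s a)) path

theorem pathf_eq (path : List Nat) : ∀ a, pathf path a = pathc path a := by
  induction path with
  | nil =>
    intro a
    rfl
  | cons s r ih =>
    intro a
    change pathf r (mulf s a) = _
    rw [ih, mulf_eq]
    rfl

/-- keyed polynomials: code, positive part, negative part -/
abbrev K := List (Nat × Nat × Nat)

noncomputable def insf (k p q : Nat) (l : K) : K :=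
  List.rec (motive := fun _ => K) [(k, p, q)]
    (fun x r ih => bif Nat.beq k x.1 then (k, Nat.add p x.2.1, Nat.add q x.2.2) :: r
      else bif Nat.ble k x.1 then (k, p, q) :: x :: r else x :: ih) l

/-- insertion of `±c·k` -/
noncomputable def insI (key : Nat) (s : Bool) (c : Nat) (k : Int) (l : K) : K :=
  Int.rec (motive := fun _ => K)
    (fun n => bif s then insf key 0 (Nat.mul c n) l else insf key (Nat.mul c n) 0 l)
    (fun n => bif s then insf key (Nat.mul c (Nat.succ n)) 0 l
      else insf key 0 (Nat.mul c (Nat.succ n)) l) k

noncomputable def termsf (env : Nat → Nat) (path : List Nat) (s : Bool) (c : Nat)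
    (p : List (Int × T)) : K :=
  List.rec (motive := fun _ => K) []
    (fun x _ ih => frc (pathf path (codef env x.2)) fun k => insI k s c x.1 ih) p

noncomputable def mergef (f : Nat) : K → K → K :=
  Nat.rec (motive := fun _ => K → K → K)
    (fun l l' => l ++ l')
    (fun _ ih l l' => List.rec (motive := fun _ => K) l'
      (fun x r _ => List.rec (motive := fun _ => K) l
        (fun x' r' _ => bif Nat.beq x.1 x'.1 then
            (x.1, Nat.add x.2.1 x'.2.1, Nat.add x.2.2 x'.2.2) :: ih r r'
          else bif Nat.ble x.1 x'.1 then x :: ih r l' else x' :: ih l r') l') l) f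

/-- merge neighbours -/
noncomputable def pairf (l : List K) : Bool → K → List K :=
  List.rec (motive := fun _ => Bool → K → List K)
    (fun b a => bif b then [a] else [])
    (fun x _ ih b a => bif b then mergef 1000000 a x :: ih false [] else ih true x) l

noncomputable def sumf (f : Nat) : List K → K :=
  Nat.rec (motive := fun _ => List K → K)
    (fun ls => ls.flatten)
    (fun _ ih ls => List.rec (motive := fun _ => K) []
      (fun a r _ => List.rec (motive := fun _ => K) a
        (fun _ _ _ => ih (pairf ls false [])) r) ls) f

noncomputable def allf (l : K) : Bool :=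
  List.rec (motive := fun _ => Bool) true
    (fun x _ ih => bif (bif Nat.beq x.1 0 then true else Nat.beq x.2.1 x.2.2) then ih else false) l

/-- decode the lines of a certificate: header of 32 bits (identity: 10, sign: 1, number of tokens
of the arguments: 7, of the siblings: 7, number of bytes of the coefficient: 7), arguments,
siblings, coefficient -/
noncomputable def linesf (ids : List P) (f : Nat) : Nat → List K :=
  Nat.rec (motive := fun _ => Nat → List K) (fun _ => [])
    (fun _ ih n => frc n fun n => bif Nat.beq n 0 then [] else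
      frc (Nat.mod n 4294967296) fun h =>
      frc (Nat.div n 4294967296) fun n =>
      frc (Nat.mod h 1024) fun id =>
      frc (Nat.mod (Nat.div h 1024) 2) fun s =>
      frc (Nat.mul 4 (Nat.mod (Nat.div h 2048) 128)) fun la =>
      frc (Nat.mul 4 (Nat.mod (Nat.div h 262144) 128)) fun lp =>
      frc (Nat.mul 8 (Nat.div h 33554432)) fun lc =>
      frc (Nat.mod n (Nat.pow 2 la)) fun args =>
      frc (Nat.div n (Nat.pow 2 la)) fun n =>
      frc (Nat.mod n (Nat.pow 2 lp)) fun path =>
      frc (Nat.div n (Nat.pow 2 lp)) fun n =>
      frc (Nat.mod n (Nat.pow 2 lc)) fun c =>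
      termsf (envf (runf 200 args [])) (runf 200 path []) (Nat.beq s 1) c (ids.getD id []) ::
        ih (Nat.div n (Nat.pow 2 lc))) f

noncomputable def chkf (ids : List P) (D : Nat) (target : P) (cert : Nat) : Bool :=
  bif Nat.beq D 0 then false else
  bif target.all (fun t => t.2.ok) then
    allf (sumf 40 (termsf env0 [] true D target :: linesf ids 100000 cert))
  else false

/-! ### Semantics -/

variable {F : Type u} [Field F] {V : Type w} [AddCommGroup V] [Module F V]
  (mul : V →ₗ[F] V →ₗ[F] V)

inductive RepK (ρ : Nat → V) : K → V → Prop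
  | nil : RepK ρ [] 0
  | cons (k p q : Nat) (x : V) (L : K) (z : V) (hk : Den mul ρ k x)
      (hL : RepK ρ L z) : RepK ρ ((k, p, q) :: L) (((p : F) - (q : F)) • x + z)

theorem repk_ins {ρ : Nat → V} {k : Nat} {x : V} (hk : Den mul ρ k x) (p q : Nat)
    {L : K} {z : V} (hL : RepK mul ρ L z) :
    RepK mul ρ (insf k p q L) (((p : F) - (q : F)) • x + z) := by
  induction hL with
  | nil => exact RepK.cons k p q x [] 0 hk RepK.nil
  | cons k' p' q' x' L z hk' hL ih =>
    change RepK mul ρ (bif Nat.beq k k' then (k, Nat.add p p', Nat.add q q') :: L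
      else bif Nat.ble k k' then (k, p, q) :: (k', p', q') :: L else (k', p', q') :: insf k p q L) _
    by_cases h1 : Nat.beq k k' = true
    · rw [h1, cond_true]
      have h2 : k = k' := Nat.eq_of_beq_eq_true h1
      subst h2
      have h3 : x = x' := den_unique mul hk hk'
      subst h3
      have h4 : ((p : F) - (q : F)) • x + (((p' : F) - (q' : F)) • x + z) =
          (((p + p' : Nat) : F) - ((q + q' : Nat) : F)) • x + z := by
        push_cast
        module
      rw [h4]
      exact RepK.cons _ _ _ _ _ _ hk hL
    · rw [Bool.not_eq_true] at h1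
      rw [h1, cond_false]
      by_cases h2 : Nat.ble k k' = true
      · rw [h2, cond_true]
        exact RepK.cons _ _ _ _ _ _ hk (RepK.cons _ _ _ _ _ _ hk' hL)
      · rw [Bool.not_eq_true] at h2
        rw [h2, cond_false]
        have h4 : ((p : F) - (q : F)) • x + (((p' : F) - (q' : F)) • x' + z) =
          ((p' : F) - (q' : F)) • x' + (((p : F) - (q : F)) • x + z) := by
          module
        rw [h4]
        exact RepK.cons _ _ _ _ _ _ hk' ih

/-- the sign -/
def sg (F : Type u) [Field F] (s : Bool) : F := bif s then -1 else 1

theorem repk_insI {ρ : Nat → V} {k : Nat} {x : V} (hk : Den mul ρ k x) (s : Bool) (c : Nat)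
    (i : Int) {L : K} {z : V} (hL : RepK mul ρ L z) :
    RepK mul ρ (insI k s c i L) ((sg F s * (c : F) * (i : F)) • x + z) := by
  rcases i with n | n
  · cases s
    · have h := repk_ins mul hk (c * n) 0 hL
      have e : (sg F false * (c : F) * ((Int.ofNat n : Int) : F)) =
          ((c * n : Nat) : F) - ((0 : Nat) : F) := by
        simp [sg]
      rw [e]
      exact h
    · have h := repk_ins mul hk 0 (c * n) hL
      have e : (sg F true * (c : F) * ((Int.ofNat n : Int) : F)) =
          ((0 : Nat) : F) - ((c * n : Nat) : F) := by
        simp [sg]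
      rw [e]
      exact h
  · cases s
    · have h := repk_ins mul hk 0 (c * (n + 1)) hL
      have e : (sg F false * (c : F) * ((Int.negSucc n : Int) : F)) =
          ((0 : Nat) : F) - ((c * (n + 1) : Nat) : F) := by
        simp only [sg, cond_false, Int.cast_negSucc]
        push_cast
        ring
      rw [e]
      exact h
    · have h := repk_ins mul hk (c * (n + 1)) 0 hL
      have e : (sg F true * (c : F) * ((Int.negSucc n : Int) : F)) =
          ((c * (n + 1) : Nat) : F) - ((0 : Nat) : F) := by
        simp only [sg, cond_true, Int.cast_negSucc]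
        push_cast
        ring
      rw [e]
      exact h

theorem repk_append {ρ : Nat → V} {L L' : K} {z z' : V} (h : RepK mul ρ L z)
    (h' : RepK mul ρ L' z') : RepK mul ρ (L ++ L') (z + z') := by
  induction h with
  | nil =>
    rw [List.nil_append, zero_add]
    exact h'
  | cons k p q x L z hk hL ih =>
    rw [List.cons_append, add_assoc]
    exact RepK.cons _ _ _ _ _ _ hk ih

theorem repk_merge {ρ : Nat → V} (f : Nat) : ∀ (L L' : K) (z z' : V),
    RepK mul ρ L z → RepK mul ρ L' z' → RepK mul ρ (mergef f L L') (z + z') := by
  induction f with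
  | zero =>
    intro L L' z z' h h'
    exact repk_append mul h h'
  | succ f ih =>
    intro L L' z z' h h'
    cases h with
    | nil =>
      rw [zero_add]
      exact h'
    | cons k p q x L z hk hL =>
      cases h' with
      | nil =>
        rw [add_zero]
        exact RepK.cons _ _ _ _ _ _ hk hL
      | cons k' p' q' x' L' z' hk' hL' =>
        change RepK mul ρ (bif Nat.beq k k' then
            (k, Nat.add p p', Nat.add q q') :: mergef f L L'
          else bif Nat.ble k k' then (k, p, q) :: mergef f L ((k', p', q') :: L')
          else (k', p', q') :: mergef f ((k, p, q) :: L) L') _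
        by_cases h1 : Nat.beq k k' = true
        · rw [h1, cond_true]
          have h2 : k = k' := Nat.eq_of_beq_eq_true h1
          subst h2
          have h3 : x = x' := den_unique mul hk hk'
          subst h3
          have h4 : ((p : F) - (q : F)) • x + z + (((p' : F) - (q' : F)) • x + z') =
              (((p + p' : Nat) : F) - ((q + q' : Nat) : F)) • x + (z + z') := by
            push_cast
            module
          rw [h4]
          exact RepK.cons _ _ _ _ _ _ hk (ih _ _ _ _ hL hL')
        · rw [Bool.not_eq_true] at h1
          rw [h1, cond_false]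
          by_cases h2 : Nat.ble k k' = true
          · rw [h2, cond_true, add_assoc]
            exact RepK.cons _ _ _ _ _ _ hk (ih _ _ _ _ hL (RepK.cons _ _ _ _ _ _ hk' hL'))
          · rw [Bool.not_eq_true] at h2
            rw [h2, cond_false]
            have h4 : ((p : F) - (q : F)) • x + z + (((p' : F) - (q' : F)) • x' + z') =
              ((p' : F) - (q' : F)) • x' + ((((p : F) - (q : F)) • x + z) + z') := by
              module
            rw [h4]
            exact RepK.cons _ _ _ _ _ _ hk' (ih _ _ _ _ (RepK.cons _ _ _ _ _ _ hk hL) hL')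

inductive RepKL (ρ : Nat → V) : List K → V → Prop
  | nil : RepKL ρ [] 0
  | cons (L : K) (z : V) (Ls : List K) (y : V)
      (hL : RepK mul ρ L z) (hLs : RepKL ρ Ls y) : RepKL ρ (L :: Ls) (z + y)

theorem repkl_pair {ρ : Nat → V} (L : List K) : ∀ (z : V), RepKL mul ρ L z →
    RepKL mul ρ (pairf L false []) z ∧
      ∀ (a : K) (y : V), RepK mul ρ a y → RepKL mul ρ (pairf L true a) (y + z) := by
  induction L with
  | nil =>
    intro z h
    cases h
    refine ⟨RepKL.nil, fun a y ha => ?_⟩
    exact RepKL.cons _ _ _ _ ha RepKL.nil
  | cons x L ih =>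
    intro z h
    cases h with
    | cons _ z₁ _ y₁ hL hLs =>
      obtain ⟨i1, i2⟩ := ih _ hLs
      refine ⟨i2 x z₁ hL, fun a y ha => ?_⟩
      change RepKL mul ρ (mergef 1000000 a x :: pairf L false []) _
      rw [← add_assoc]
      exact RepKL.cons _ _ _ _ (repk_merge mul _ _ _ _ _ ha hL) i1

theorem repkl_flatten {ρ : Nat → V} {L : List K} {z : V}
    (h : RepKL mul ρ L z) : RepK mul ρ L.flatten z := by
  induction h with
  | nil => exact RepK.nil
  | cons L z Ls y hL hLs ih =>
    rw [List.flatten_cons]
    exact repk_append mul hL ih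

theorem repkl_sum {ρ : Nat → V} (f : Nat) : ∀ (L : List K) (z : V),
    RepKL mul ρ L z → RepK mul ρ (sumf f L) z := by
  induction f with
  | zero =>
    intro L z h
    exact repkl_flatten mul h
  | succ f ih =>
    intro L z h
    rcases L with _ | ⟨a, _ | ⟨b, r⟩⟩
    · cases h
      exact RepK.nil
    · cases h with
      | cons _ z _ y hL hLs =>
        cases hLs
        rw [add_zero]
        exact hL
    · change RepK mul ρ (sumf f (pairf (a :: b :: r) false [])) z
      exact ih _ _ (repkl_pair mul _ _ h).1

theorem repk_all {ρ : Nat → V} {L : K} {z : V} (h : RepK mul ρ L z)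
    (ha : allf L = true) : z = 0 := by
  induction h with
  | nil => rfl
  | cons k p q x L z hk hL ih =>
    change (bif (bif Nat.beq k 0 then true else Nat.beq p q) then allf L else false) = true at ha
    by_cases h0 : Nat.beq k 0 = true
    · rw [h0, cond_true, cond_true] at ha
      have h1 : k = 0 := Nat.eq_of_beq_eq_true h0
      subst h1
      rw [ih ha, add_zero, den_unique mul hk Den.zero, smul_zero]
    · rw [Bool.not_eq_true] at h0
      rw [h0, cond_false] at ha
      by_cases h1 : Nat.beq p q = true
      · rw [h1, cond_true] at ha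
        have h2 : p = q := Nat.eq_of_beq_eq_true h1
        subst h2
        rw [ih ha, add_zero, sub_self, zero_smul]
      · rw [Bool.not_eq_true] at h1
        rw [h1, cond_false] at ha
        exact absurd ha (by decide)

theorem repk_terms {ρ ρ' : Nat → V}
    {env : Nat → Nat} (path : List Nat) (C : V →ₗ[F] V)
    (hC : ∀ (a : Nat) (p : V), Den mul ρ a p → Den mul ρ (pathc path a) (C p)) (s : Bool)
    (c : Nat) (L : P) (hL : ∀ t ∈ L, Den mul ρ (t.2.code env) (t.2.ev mul ρ')) :
    RepK mul ρ (termsf env path s c L) ((sg F s * (c : F)) • C (evP mul ρ' L)) := by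
  induction L with
  | nil =>
    simp only [evP, map_zero, smul_zero]
    exact RepK.nil
  | cons t L ih =>
    obtain ⟨k, t⟩ := t
    have h1 := ih (fun s hs => hL s (by simp [hs]))
    have h2 := hL (k, t) (by simp)
    change RepK mul ρ (frc (pathf path (codef env t)) fun key =>
      insI key s c k (termsf env path s c L)) _
    rw [frc_eq, pathf_eq, codef_eq]
    have h3 := repk_insI mul (hC _ _ h2) s c k h1
    have h4 : (sg F s * (c : F)) • C (evP mul ρ' ((k, t) :: L)) =
        (sg F s * (c : F) * (k : F)) • C (t.ev mul ρ') +
          (sg F s * (c : F)) • C (evP mul ρ' L) := by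
      simp only [evP, map_add, map_smul]
      module
    rw [h4]
    exact h3

theorem linesf_succ (ids : List P) (f n : Nat) : linesf ids (f + 1) n =
    (frc n fun n => bif Nat.beq n 0 then [] else
      frc (Nat.mod n 4294967296) fun h =>
      frc (Nat.div n 4294967296) fun n =>
      frc (Nat.mod h 1024) fun id =>
      frc (Nat.mod (Nat.div h 1024) 2) fun s =>
      frc (Nat.mul 4 (Nat.mod (Nat.div h 2048) 128)) fun la =>
      frc (Nat.mul 4 (Nat.mod (Nat.div h 262144) 128)) fun lp =>
      frc (Nat.mul 8 (Nat.div h 33554432)) fun lc =>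
      frc (Nat.mod n (Nat.pow 2 la)) fun args =>
      frc (Nat.div n (Nat.pow 2 la)) fun n =>
      frc (Nat.mod n (Nat.pow 2 lp)) fun path =>
      frc (Nat.div n (Nat.pow 2 lp)) fun n =>
      frc (Nat.mod n (Nat.pow 2 lc)) fun c =>
      termsf (envf (runf 200 args [])) (runf 200 path []) (Nat.beq s 1) c (ids.getD id []) ::
        linesf ids f (Nat.div n (Nat.pow 2 lc))) := rfl

theorem lines_rep {ρ : Nat → V} (comm : ∀ x y, mul x y = mul y x) (hρ : Pow mul ρ)
    (ids : List P) (hids : ∀ p ∈ ids, HoldsAt mul ⊥ ρ p) (f : Nat) :
    ∀ n : Nat, RepKL mul ρ (linesf ids f n) 0 := by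
  induction f with
  | zero =>
    intro n
    exact RepKL.nil
  | succ f ih =>
    intro n
    rw [linesf_succ]
    simp only [frc_eq]
    by_cases h0 : Nat.beq n 0 = true
    · rw [h0, cond_true]
      exact RepKL.nil
    · rw [Bool.not_eq_true] at h0
      rw [h0, cond_false]
      generalize Nat.mod (Nat.div n 4294967296)
        (Nat.pow 2 (Nat.mul 4 (Nat.mod (Nat.div (Nat.mod n 4294967296) 2048) 128))) = args
      generalize Nat.div (Nat.div n 4294967296)
        (Nat.pow 2 (Nat.mul 4 (Nat.mod (Nat.div (Nat.mod n 4294967296) 2048) 128))) = n₁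
      generalize Nat.mod n₁
        (Nat.pow 2 (Nat.mul 4 (Nat.mod (Nat.div (Nat.mod n 4294967296) 262144) 128))) = path
      generalize Nat.div n₁
        (Nat.pow 2 (Nat.mul 4 (Nat.mod (Nat.div (Nat.mod n 4294967296) 262144) 128))) = n₂
      generalize Nat.mod n₂ (Nat.pow 2 (Nat.mul 8 (Nat.div (Nat.mod n 4294967296) 33554432))) = c
      generalize Nat.div n₂ (Nat.pow 2 (Nat.mul 8 (Nat.div (Nat.mod n 4294967296) 33554432))) = n₃
      generalize Nat.mod (Nat.mod n 4294967296) 1024 = id
      generalize Nat.beq (Nat.mod (Nat.div (Nat.mod n 4294967296) 1024) 2) 1 = s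
      have h1 : RepK mul ρ (termsf (envf (runf 200 args [])) (runf 200 path []) s c
          (ids.getD id [])) 0 := by
        rw [runf_eq, runf_eq]
        obtain ⟨ρ', h1, h2⟩ := envA_den mul _ (run_den mul comm hρ 200 args [] (by
          intro k hk
          simp at hk))
        obtain ⟨C, hC⟩ := pathc_den mul comm hρ _ (run_den mul comm hρ 200 path [] (by
          intro k hk
          simp at hk))
        have h2' : ∀ n, Den mul ρ (envf (run 200 args []) n) (ρ' n) := by
          intro n
          rw [envf_eq]
          exact h2 n
        have h3 := repk_terms mul (ρ' := ρ') _ C hC s c (ids.getD id [])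
          (fun t _ => code_den mul comm hρ h2' t.2)
        have h4 : evP mul ρ' (ids.getD id []) = 0 := by
          by_cases hm : id < ids.length
          · rw [List.getD_eq_getElem _ _ hm]
            exact (Submodule.mem_bot F).mp (hids _ (List.getElem_mem hm) ρ' h1)
          · rw [List.getD_eq_default _ _ (by omega)]
            rfl
        rw [h4, map_zero, smul_zero] at h3
        exact h3
      have h5 := RepKL.cons _ _ _ _ h1 (ih n₃)
      rw [add_zero] at h5
      exact h5

theorem chkf_sound [CharZero F] {ρ : Nat → V} (comm : ∀ x y, mul x y = mul y x)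
    (hρ : Pow mul ρ)
    (ids : List P) (hids : ∀ p ∈ ids, HoldsAt mul ⊥ ρ p)
    (D : Nat) (target : P) (cert : Nat) (h : chkf ids D target cert = true) :
    HoldsAt mul ⊥ ρ target := by
  intro ρ₂ hρ₂
  have hpow : Pow mul ρ₂ := by
    intro a b ha hb ha4 hb4
    rw [hρ₂ a ha ha4, hρ₂ b hb hb4, hρ a b ha hb ha4 hb4]
    by_cases hab : a + b ≤ 4
    · rw [if_pos hab, if_pos hab, hρ₂ (a + b) (by omega) hab]
    · rw [if_neg hab, if_neg hab]
  have hids₂ : ∀ p ∈ ids, HoldsAt mul ⊥ ρ₂ p := fun p hp ρ' hρ' =>
    hids p hp ρ' (fun n h1 h2 => by rw [hρ' n h1 h2, hρ₂ n h1 h2])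
  unfold chkf at h
  by_cases hD : Nat.beq D 0 = true
  · rw [hD, cond_true] at h
    exact absurd h (by decide)
  rw [Bool.not_eq_true] at hD
  rw [hD, cond_false] at h
  have hD' : D ≠ 0 := by
    rintro rfl
    exact absurd hD (by decide)
  by_cases hok : (target.all (fun t => t.2.ok)) = true
  · rw [hok, cond_true] at h
    rw [List.all_eq_true] at hok
    have r1 := repk_terms mul (ρ := ρ₂) (ρ' := ρ₂) (env := env0) []
      LinearMap.id (fun a p h => h) true D target
      (fun t ht => code_den0 mul comm hpow t.2 (hok t ht))
    have r2 := lines_rep mul comm hpow ids hids₂ 100000 cert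
    have r3 := repk_all mul (repkl_sum mul 40 _ _ (RepKL.cons _ _ _ _ r1 r2)) h
    rw [LinearMap.id_apply, add_zero] at r3
    rw [Submodule.mem_bot]
    have hD2 : sg F true * (D : F) ≠ 0 := by
      simp only [sg, cond_true]
      exact mul_ne_zero (neg_ne_zero.mpr one_ne_zero) (Nat.cast_ne_zero.mpr hD')
    exact (smul_eq_zero.mp r3).resolve_left hD2
  · rw [Bool.not_eq_true] at hok
    rw [hok, cond_false] at h
    exact absurd h (by decide)

end Pool.Agent.Alb.Fast
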