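import Mathlib
import Pool.Agent.Lib_MP_380d39.Fast

set_option autoImplicit false

/-!
# Long certificates in several pieces

The sum of some lines of a certificate is stored as a list of codes with coefficients (type `K`).
-/

namespace Pool.Agent.Alb.Fast

open Pool.Agent.Alb.Chk

universe u w

/-- removes the entries that vanish -/
noncomputable def cleanf (l : K) : K :=
  List.rec (motive := fun _ => K) []
    (fun x _ ih => bif (bif Nat.beq x.1 0 then true else Nat.beq x.2.1 x.2.2) then ih
      else x :: ih) l

/-- equality of lists (coefficients are compared as differences) -/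
noncomputable def eqK (l : K) : K → Bool :=
  List.rec (motive := fun _ => K → Bool)
    (fun l' => List.rec (motive := fun _ => Bool) true (fun _ _ _ => false) l')
    (fun x _ ih l' => List.rec (motive := fun _ => Bool) false
      (fun x' r' _ => bif Nat.beq x.1 x'.1 then
        (bif Nat.beq (Nat.add x.2.1 x'.2.2) (Nat.add x'.2.1 x.2.2) then ih r' else false)
        else false) l') l

noncomputable def scf (s : Bool) (c : Nat) (l : K) : K :=
  List.rec (motive := fun _ => K) []
    (fun x _ ih => (bif s then (x.1, Nat.mul c x.2.2, Nat.mul c x.2.1)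
      else (x.1, Nat.mul c x.2.1, Nat.mul c x.2.2)) :: ih) l

/-- unpacks a list: records with a header of 24 bits (bytes of the code: 8, bytes of the
coefficient: 8, sign: 8), code, coefficient -/
noncomputable def decK (f : Nat) : Nat → K :=
  Nat.rec (motive := fun _ => Nat → K) (fun _ => [])
    (fun _ ih n => frc n fun n => bif Nat.beq n 0 then [] else
      frc (Nat.mod n 16777216) fun h =>
      frc (Nat.div n 16777216) fun n =>
      frc (Nat.mul 8 (Nat.mod h 256)) fun la =>
      frc (Nat.mul 8 (Nat.mod (Nat.div h 256) 256)) fun lc =>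
      frc (Nat.mod n (Nat.pow 2 la)) fun k =>
      frc (Nat.div n (Nat.pow 2 la)) fun n =>
      frc (Nat.mod n (Nat.pow 2 lc)) fun c =>
      (bif Nat.beq (Nat.div h 65536) 0 then (k, c, 0) else (k, 0, c)) ::
        ih (Nat.div n (Nat.pow 2 lc))) f

/-- the lines of the certificate sum to `L` -/
noncomputable def piecef (ids : List P) (L : K) (cert : Nat) : Bool :=
  eqK (cleanf (sumf 40 (linesf ids 100000 cert))) L

noncomputable def scalef (Ks : List (Bool × Nat × K)) : List K :=
  List.rec (motive := fun _ => List K) []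
    (fun x _ ih => scf x.1 x.2.1 x.2.2 :: ih) Ks

noncomputable def chkK (ids : List P) (Ks : List (Bool × Nat × K)) (D : Nat) (target : P)
    (cert : Nat) : Bool :=
  bif Nat.beq D 0 then false else
  bif target.all (fun t => t.2.ok) then
    allf (sumf 40 (termsf env0 [] true D target ::
      (scalef Ks ++ linesf ids 100000 cert)))
  else false

variable {F : Type u} [Field F] {V : Type w} [AddCommGroup V] [Module F V]
  (mul : V →ₗ[F] V →ₗ[F] V)

theorem repk_clean {ρ : Nat → V} {L : K} {z : V} (h : RepK mul ρ L z) :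
    RepK mul ρ (cleanf L) z := by
  induction h with
  | nil => exact RepK.nil
  | cons k p q x L z hk hL ih =>
    change RepK mul ρ (bif (bif Nat.beq k 0 then true else Nat.beq p q) then cleanf L
      else (k, p, q) :: cleanf L) _
    by_cases h0 : Nat.beq k 0 = true
    · rw [h0, cond_true, cond_true]
      have h1 : k = 0 := Nat.eq_of_beq_eq_true h0
      subst h1
      rw [den_unique mul hk Den.zero, smul_zero, zero_add]
      exact ih
    · rw [Bool.not_eq_true] at h0
      rw [h0, cond_false]
      by_cases h1 : Nat.beq p q = true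
      · rw [h1, cond_true]
        have h2 : p = q := Nat.eq_of_beq_eq_true h1
        subst h2
        rw [sub_self, zero_smul, zero_add]
        exact ih
      · rw [Bool.not_eq_true] at h1
        rw [h1, cond_false]
        exact RepK.cons _ _ _ _ _ _ hk ih

theorem repk_eqK {ρ : Nat → V} {L : K} {z : V} (h : RepK mul ρ L z) :
    ∀ L' : K, eqK L L' = true → RepK mul ρ L' z := by
  induction h with
  | nil =>
    intro L' hL'
    rcases L' with _ | ⟨x', r'⟩
    · exact RepK.nil
    · change false = true at hL'
      exact absurd hL' (by decide)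
  | cons k p q x L z hk hL ih =>
    intro L' hL'
    rcases L' with _ | ⟨⟨k', p', q'⟩, r'⟩
    · change false = true at hL'
      exact absurd hL' (by decide)
    · change (bif Nat.beq k k' then
        (bif Nat.beq (Nat.add p q') (Nat.add p' q) then eqK L r' else false)
        else false) = true at hL'
      by_cases h0 : Nat.beq k k' = true
      · rw [h0, cond_true] at hL'
        have h1 : k = k' := Nat.eq_of_beq_eq_true h0
        subst h1
        by_cases h2 : Nat.beq (Nat.add p q') (Nat.add p' q) = true
        · rw [h2, cond_true] at hL'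
          have h3 : p + q' = p' + q := Nat.eq_of_beq_eq_true h2
          have h4 := congrArg (Nat.cast (R := F)) h3
          push_cast at h4
          have h5 : ((p : F) - (q : F)) = (p' : F) - (q' : F) := by
            linear_combination h4
          rw [h5]
          exact RepK.cons _ _ _ _ _ _ hk (ih r' hL')
        · rw [Bool.not_eq_true] at h2
          rw [h2, cond_false] at hL'
          exact absurd hL' (by decide)
      · rw [Bool.not_eq_true] at h0
        rw [h0, cond_false] at hL'
        exact absurd hL' (by decide)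

theorem repk_scale {ρ : Nat → V} (s : Bool) (c : Nat) {L : K} {z : V} (h : RepK mul ρ L z) :
    RepK mul ρ (scf s c L) ((sg F s * (c : F)) • z) := by
  induction h with
  | nil =>
    rw [smul_zero]
    exact RepK.nil
  | cons k p q x L z hk hL ih =>
    cases s
    · change RepK mul ρ ((k, c * p, c * q) :: scf false c L) _
      have e : (sg F false * (c : F)) • (((p : F) - (q : F)) • x + z) =
          (((c * p : Nat) : F) - ((c * q : Nat) : F)) • x + (sg F false * (c : F)) • z := by
        simp only [sg, cond_false]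
        push_cast
        module
      rw [e]
      exact RepK.cons _ _ _ _ _ _ hk ih
    · change RepK mul ρ ((k, c * q, c * p) :: scf true c L) _
      have e : (sg F true * (c : F)) • (((p : F) - (q : F)) • x + z) =
          (((c * q : Nat) : F) - ((c * p : Nat) : F)) • x + (sg F true * (c : F)) • z := by
        simp only [sg, cond_true]
        push_cast
        module
      rw [e]
      exact RepK.cons _ _ _ _ _ _ hk ih

/-- `L` represents zero for all values of the letters -/
def KAt (ρ : Nat → V) (L : K) : Prop :=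
  ∀ ρ' : Nat → V, (∀ n, 1 ≤ n → n ≤ 4 → ρ' n = ρ n) → RepK mul ρ' L 0

theorem pow_of {ρ ρ₂ : Nat → V} (hρ : Pow mul ρ) (hρ₂ : ∀ n, 1 ≤ n → n ≤ 4 → ρ₂ n = ρ n) :
    Pow mul ρ₂ := by
  intro a b ha hb ha4 hb4
  rw [hρ₂ a ha ha4, hρ₂ b hb hb4, hρ a b ha hb ha4 hb4]
  by_cases hab : a + b ≤ 4
  · rw [if_pos hab, if_pos hab, hρ₂ (a + b) (by omega) hab]
  · rw [if_neg hab, if_neg hab]

theorem piecef_sound {ρ : Nat → V} (comm : ∀ x y, mul x y = mul y x) (hρ : Pow mul ρ)
    (ids : List P) (hids : ∀ p ∈ ids, HoldsAt mul ⊥ ρ p) (L : K) (cert : Nat)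
    (h : piecef ids L cert = true) : KAt mul ρ L := by
  intro ρ₂ hρ₂
  have hpow := pow_of mul hρ hρ₂
  have hids₂ : ∀ p ∈ ids, HoldsAt mul ⊥ ρ₂ p := fun p hp ρ' hρ' =>
    hids p hp ρ' (fun n h1 h2 => by rw [hρ' n h1 h2, hρ₂ n h1 h2])
  exact repk_eqK mul (repk_clean mul (repkl_sum mul 40 _ _
    (lines_rep mul comm hpow ids hids₂ 100000 cert))) L h

theorem repkl_append {ρ : Nat → V} {L L' : List K} {z z' : V} (h : RepKL mul ρ L z)
    (h' : RepKL mul ρ L' z') : RepKL mul ρ (L ++ L') (z + z') := by
  induction h with
  | nil =>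
    rw [List.nil_append, zero_add]
    exact h'
  | cons L z Ls y hL hLs ih =>
    rw [List.cons_append, add_assoc]
    exact RepKL.cons _ _ _ _ hL ih

theorem repkl_scale {ρ : Nat → V} (Ks : List (Bool × Nat × K))
    (h : ∀ x ∈ Ks, RepK mul ρ x.2.2 0) : RepKL mul ρ (scalef Ks) 0 := by
  induction Ks with
  | nil => exact RepKL.nil
  | cons x r ih =>
    change RepKL mul ρ (scf x.1 x.2.1 x.2.2 :: scalef r) 0
    have h1 := repk_scale mul x.1 x.2.1 (h x (by simp))
    rw [smul_zero] at h1
    have h2 := RepKL.cons _ _ _ _ h1 (ih (fun y hy => h y (by simp [hy])))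
    rw [add_zero] at h2
    exact h2

theorem chkK_sound [CharZero F] {ρ : Nat → V} (comm : ∀ x y, mul x y = mul y x)
    (hρ : Pow mul ρ)
    (ids : List P) (hids : ∀ p ∈ ids, HoldsAt mul ⊥ ρ p)
    (Ks : List (Bool × Nat × K)) (hKs : ∀ x ∈ Ks, KAt mul ρ x.2.2)
    (D : Nat) (target : P) (cert : Nat) (h : chkK ids Ks D target cert = true) :
    HoldsAt mul ⊥ ρ target := by
  intro ρ₂ hρ₂
  have hpow := pow_of mul hρ hρ₂
  have hids₂ : ∀ p ∈ ids, HoldsAt mul ⊥ ρ₂ p := fun p hp ρ' hρ' =>
    hids p hp ρ' (fun n h1 h2 => by rw [hρ' n h1 h2, hρ₂ n h1 h2])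
  unfold chkK at h
  by_cases hD : Nat.beq D 0 = true
  · rw [hD, cond_true] at h
    exact absurd h (by decide)
  rw [Bool.not_eq_true] at hD
  rw [hD, cond_false] at h
  have hD' : D ≠ 0 := by
    rintro rfl
    exact absurd hD (by decide)
  by_cases hok : (target.all (fun t => t.2.ok)) = true
  · rw [hok, cond_true] at h
    rw [List.all_eq_true] at hok
    have r1 := repk_terms mul (ρ := ρ₂) (ρ' := ρ₂) (env := env0) []
      LinearMap.id (fun a p h => h) true D target
      (fun t ht => code_den0 mul comm hpow t.2 (hok t ht))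
    have r2 := lines_rep mul comm hpow ids hids₂ 100000 cert
    have r4 := repkl_append mul (repkl_scale mul Ks (fun x hx => hKs x hx ρ₂ hρ₂)) r2
    have r3 := repk_all mul (repkl_sum mul 40 _ _ (RepKL.cons _ _ _ _ r1 r4)) h
    rw [LinearMap.id_apply, add_zero, add_zero] at r3
    rw [Submodule.mem_bot]
    have hD2 : sg F true * (D : F) ≠ 0 := by
      simp only [sg, cond_true]
      exact mul_ne_zero (neg_ne_zero.mpr one_ne_zero) (Nat.cast_ne_zero.mpr hD')
    exact (smul_eq_zero.mp r3).resolve_left hD2
  · rw [Bool.not_eq_true] at hok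
    rw [hok, cond_false] at h
    exact absurd h (by decide)

variable {mul} in
theorem kn {ρ : Nat → V} : ∀ x ∈ ([] : List (Bool × Nat × K)), KAt mul ρ x.2.2 := by
  intro x hx
  simp at hx

variable {mul} in
theorem kc {ρ : Nat → V} {s : Bool} {c : Nat} {L : K} {l : List (Bool × Nat × K)}
    (h : KAt mul ρ L) (h' : ∀ x ∈ l, KAt mul ρ x.2.2) :
    ∀ x ∈ (s, c, L) :: l, KAt mul ρ x.2.2 := by
  intro x hx
  rcases List.mem_cons.mp hx with rfl | hx
  · exact h
  · exact h' x hx

end Pool.Agent.Alb.Fast
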