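import Mathlib
import Pool.Agent.Lib_MP_380d39.Rel
import Pool.Agent.Lib_MP_380d39.VPoly

set_option autoImplicit false

/-!
# The hand part of the argument for stage 5 (helper15's proof)
-/

namespace Pool.Agent.Alb

universe u v

section hand

variable {F : Type u} [Field F] {V : Type v} [AddCommGroup V] [Module F V]
  (m : V →ₗ[F] V →ₗ[F] V)

/-- the cube -/
def x3 (x : V) : V := m x (m x x)

/-- the fourth power -/
def x4 (x : V) : V := m (m x x) (m x x)

/-- the polarised cube, divided by two -/
def s3 (u v r : V) : V := m u (m v r) + m v (m u r) + m r (m u v)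

/-- the polarised fourth power, divided by eight -/
def s4 (x u v r : V) : V := m (m x u) (m v r) + m (m x v) (m u r) + m (m x r) (m u v)

section ruleOM

variable (two : (2 : F) ≠ 0) (three : (3 : F) ≠ 0) (comm : ∀ x y, m x y = m y x)
  (perf : Submodule.span F {z : V | ∃ a b : V, z = m a b} = ⊤)

/-- polarisation of `G (u u) u = 0` -/
theorem pol3 {W : Type*} [AddCommGroup W] [Module F W] (two : (2 : F) ≠ 0)
    (comm : ∀ x y, m x y = m y x) (G : V →ₗ[F] V →ₗ[F] W)
    (h : ∀ u, G (m u u) u = 0) (a b c : V) :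
    G (m a b) c + G (m b c) a + G (m c a) b = 0 := by
  have key : ∀ a b, G (m a a) b + (2 : F) • G (m a b) a = 0 := by
    intro a b
    have h1 := h (a + b)
    have h2 := h (a - b)
    simp only [map_add, map_sub, LinearMap.add_apply, LinearMap.sub_apply, comm b a] at h1 h2
    have h3 : (2 : F) • (G (m a a) b + (2 : F) • G (m a b) a) = 0 := by
      linear_combination (norm := module) h1 - h2 - (2 : F) • h b
    exact (smul_eq_zero.mp h3).resolve_left two
  have h1 := key (a + c) b
  have h2 := key a b
  have h3 := key c b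
  simp only [map_add, LinearMap.add_apply, smul_add] at h1
  rw [comm c a] at h1
  have h4 : (2 : F) • (G (m a b) c + G (m b c) a + G (m c a) b) = 0 := by
    rw [comm b c, comm c a]
    linear_combination (norm := module) h1 - h2 - h3
  exact (smul_eq_zero.mp h4).resolve_left two

/-- The radical of the form of a functional killing the cubes is closed under products. -/
theorem rad_closed (two : (2 : F) ≠ 0) (comm : ∀ x y, m x y = m y x)
    (φ : V →ₗ[F] F) (h : ∀ x, φ (x3 m x) = 0) (a b : V)
    (ha : ∀ z, φ (m a z) = 0) (hb : ∀ z, φ (m b z) = 0) (z : V) : φ (m (m a b) z) = 0 := by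
  have h1 := pol3 m two comm (m.compr₂ φ) (fun u => by
    have := h u
    simp only [x3] at this
    rw [comm u] at this
    simpa using this) a b z
  simp only [LinearMap.compr₂_apply] at h1
  rw [comm (m b z) a, comm (m z a) b, ha, hb, add_zero, add_zero] at h1
  exact h1

variable [FiniteDimensional F V]

include two three comm perf

theorem closed_top' (S : Submodule F V) (hS : ∀ a ∈ S, ∀ b ∈ S, m a b ∈ S)
    (h4 : ∀ x, x4 m x ∈ S) : S = ⊤ := by
  refine closed_top two comm perf S hS h4 ?_
  intro h
  exfalso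
  have h2 := h 2
  have h3 : (2 : F) * 3 = 0 := by linear_combination h2
  exact (mul_ne_zero two three) h3

/-- Rule OM. -/
theorem ruleOM {W : Type*} [AddCommGroup W] [Module F W] (G : V →ₗ[F] V →ₗ[F] W)
    (h1 : ∀ u, G (m u u) u = 0) (h2 : ∀ u, G u (m u u) = 0)
    (h3 : ∀ u b, G (x4 m u) b = 0) (h4 : ∀ u b, G b (x4 m u) = 0) : G = 0 := by
  have hS : LinearMap.ker G ⊓ LinearMap.ker G.flip = ⊤ := by
    refine closed_top' m two three comm perf _ ?_ ?_
    · rintro a ⟨ha1, ha2⟩ b ⟨hb1, hb2⟩
      simp only [SetLike.mem_coe, LinearMap.mem_ker] at ha1 ha2 hb1 hb2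
      refine ⟨?_, ?_⟩
      · simp only [SetLike.mem_coe, LinearMap.mem_ker]
        ext c
        have h5 := pol3 m two comm G h1 a b c
        have h6 : G (m b c) a = 0 := by
          have := LinearMap.congr_fun ha2 (m b c)
          simpa using this
        have h7 : G (m c a) b = 0 := by
          have := LinearMap.congr_fun hb2 (m c a)
          simpa using this
        rw [h6, h7, add_zero, add_zero] at h5
        simpa using h5
      · simp only [SetLike.mem_coe, LinearMap.mem_ker]
        ext c
        have h5 := pol3 m two comm G.flip (fun u => by simpa using h2 u) a b c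
        simp only [LinearMap.flip_apply] at h5
        rw [ha1, hb1, LinearMap.zero_apply, LinearMap.zero_apply, add_zero, add_zero] at h5
        simpa using h5
    · intro x
      refine ⟨?_, ?_⟩
      · simp only [SetLike.mem_coe, LinearMap.mem_ker]
        ext c
        exact h3 x c
      · simp only [SetLike.mem_coe, LinearMap.mem_ker]
        ext c
        exact h4 x c
  ext a b
  have : a ∈ LinearMap.ker G ⊓ LinearMap.ker G.flip := by
    rw [hS]
    trivial
  have h5 := this.1
  simp only [SetLike.mem_coe, LinearMap.mem_ker] at h5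
  rw [h5]
  rfl

/-- A functional killing the cubes and the products with fourth powers is zero. -/
theorem phi_zero (φ : V →ₗ[F] F) (h : ∀ x, φ (x3 m x) = 0)
    (h' : ∀ x w, φ (m (x4 m x) w) = 0) : φ = 0 := by
  have hS : LinearMap.ker (m.compr₂ φ) = ⊤ := by
    refine closed_top' m two three comm perf _ ?_ ?_
    · intro a ha b hb
      simp only [LinearMap.mem_ker] at ha hb ⊢
      ext z
      refine rad_closed m two comm φ h a b ?_ ?_ z
      · intro z
        have := LinearMap.congr_fun ha z
        simpa using this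
      · intro z
        have := LinearMap.congr_fun hb z
        simpa using this
    · intro x
      simp only [LinearMap.mem_ker]
      ext w
      exact h' x w
  refine zero_of_mul m perf φ ?_
  intro x y
  have : x ∈ LinearMap.ker (m.compr₂ φ) := by
    rw [hS]
    trivial
  simp only [LinearMap.mem_ker] at this
  have h2 := LinearMap.congr_fun this y
  simpa using h2

/-- `V₃ + V₄ V = V` -/
theorem v3_v4_top : Submodule.span F ({z : V | ∃ x, z = x3 m x} ∪
    {z : V | ∃ x w, z = m (x4 m x) w}) = ⊤ := by
  by_contra hne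
  obtain ⟨φ, hφ0, hφ⟩ := Submodule.exists_le_ker_of_lt_top _ (lt_top_iff_ne_top.mpr hne)
  apply hφ0
  refine phi_zero m two three comm perf φ ?_ ?_
  · intro x
    exact hφ (Submodule.subset_span (Or.inl ⟨x, rfl⟩))
  · intro x w
    exact hφ (Submodule.subset_span (Or.inr ⟨x, w, rfl⟩))

/-- Theorem B: a subspace which contains the cubes and is closed under multiplication by the
fourth powers is everything. -/
theorem thmB (hX : ∀ φ : V →ₗ[F] F, (∀ x, φ (x3 m x) = 0) →
      ∀ x y, φ (m (m x x) (m x y)) = 0)
    (hT : ∀ φ : V →ₗ[F] F, (∀ x, φ (x3 m x) = 0) → ∀ x y z,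
      φ (m (x4 m x) (m y z)) = (-4 : F) * φ (m (m x y) (m (m x x) (m x z))))
    (U : Submodule F V) (hU3 : ∀ x, x3 m x ∈ U) (hU4 : ∀ x, ∀ u ∈ U, m (x4 m x) u ∈ U) :
    U = ⊤ := by
  by_contra hne
  obtain ⟨φ₀, hφ₀, hφ₀U⟩ := Submodule.exists_le_ker_of_lt_top _ (lt_top_iff_ne_top.mpr hne)
  classical
  have hex : ∃ n : ℕ, ∃ φ : V →ₗ[F] F, φ ≠ 0 ∧ U ≤ LinearMap.ker φ ∧
      Module.finrank F (LinearMap.range (form m φ)) = n := ⟨_, φ₀, hφ₀, hφ₀U, rfl⟩
  obtain ⟨φ, hφ, hφU, hn⟩ := Nat.find_spec hex
  have hmin : ∀ ψ : V →ₗ[F] F, ψ ≠ 0 → U ≤ LinearMap.ker ψ →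
      Module.finrank F (LinearMap.range (form m φ)) ≤
        Module.finrank F (LinearMap.range (form m ψ)) := by
    intro ψ hψ hψU
    rw [hn]
    exact Nat.find_min' hex ⟨ψ, hψ, hψU, rfl⟩
  have h3 : ∀ x, φ (x3 m x) = 0 := fun x => hφU (hU3 x)
  apply hφ
  refine phi_zero m two three comm perf φ h3 ?_
  intro x w
  by_contra hw
  have hψ0 : φ.comp (m (x4 m x)) ≠ 0 := by
    intro h0
    exact hw (by simpa using LinearMap.congr_fun h0 w)
  have hψU : U ≤ LinearMap.ker (φ.comp (m (x4 m x))) := by
    intro u hu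
    simp only [LinearMap.mem_ker, LinearMap.comp_apply]
    exact hφU (hU4 x u hu)
  have h1 := hmin _ hψ0 hψU
  set W : Submodule F (V →ₗ[F] F) := LinearMap.range ((form m φ).comp (m x)) with hW
  have h2 : LinearMap.range (form m (φ.comp (m (x4 m x)))) ≤
      W.map ((-4 : F) • ((m (m x x)).comp (m x)).dualMap) := by
    rintro _ ⟨y, rfl⟩
    refine ⟨(form m φ) (m x y), ⟨y, rfl⟩, ?_⟩
    ext z
    simp only [LinearMap.smul_apply, form_apply, LinearMap.comp_apply, hT φ h3 x y z,
      smul_eq_mul, LinearMap.dualMap_apply]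
  have h4 : Module.finrank F (LinearMap.range (form m (φ.comp (m (x4 m x))))) ≤
      Module.finrank F W :=
    (Submodule.finrank_mono h2).trans (Submodule.finrank_map_le _ _)
  have h5 : W ≤ LinearMap.range (form m φ) := by
    rintro _ ⟨y, rfl⟩
    exact ⟨m x y, rfl⟩
  have h6 : W = LinearMap.range (form m φ) :=
    Submodule.eq_of_le_of_finrank_le h5 (h1.trans h4)
  have h7 : ∀ z, ∃ y, form m φ z = form m φ (m x y) := by
    intro z
    have h8 : form m φ z ∈ W := by
      rw [h6]
      exact ⟨z, rfl⟩
    obtain ⟨y, hy⟩ := h8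
    exact ⟨y, hy.symm⟩
  -- `x²` is in the radical
  have h8 : ∀ z, φ (m (m x x) z) = 0 := by
    intro z
    obtain ⟨y, hy⟩ := h7 z
    have h9 := LinearMap.congr_fun hy (m x x)
    simp only [form_apply] at h9
    rw [comm z, comm (m x y), hX φ h3 x y] at h9
    exact h9
  have h10 : ∀ z, φ (m x (m x z)) = 0 := by
    intro z
    have h11 := pol3 m two comm (m.compr₂ φ) (fun u => by
      have := h3 u
      simp only [x3] at this
      rw [comm u] at this
      simpa using this) x x z
    simp only [LinearMap.compr₂_apply] at h11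
    rw [h8 z, comm (m x z) x, comm z x, comm (m x z) x] at h11
    have h12 : 2 * φ (m x (m x z)) = 0 := by linear_combination h11
    exact (mul_eq_zero.mp h12).resolve_left two
  have h13 : ∀ z, φ (m x z) = 0 := by
    intro z
    obtain ⟨y, hy⟩ := h7 z
    have h9 := LinearMap.congr_fun hy x
    simp only [form_apply] at h9
    rw [comm z, comm (m x y), h10 y] at h9
    exact h9
  apply hw
  have h14 : ∀ z, φ (m (m x x) z) = 0 := rad_closed m two comm φ h3 x x h13 h13
  exact rad_closed m two comm φ h3 _ _ h14 h14 w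

end ruleOM

section step

variable {m}

/-- The derivative step in the minimal rank argument. -/
theorem step [Infinite F] [FiniteDimensional F V] (two : (2 : F) ≠ 0) (Y : Set V)
    (Q : V →ₗ[F] V →ₗ[F] F) (hsym : ∀ a b, Q a b = Q b a)
    (hmin : ∀ B : V →ₗ[F] V →ₗ[F] F, (∀ a b, B a b = B b a) → (∀ e ∈ Y, B e e = 0) → B ≠ 0 →
      Module.finrank F (LinearMap.range Q) ≤ Module.finrank F (LinearMap.range B))
    (g : V → V) (L : V → V →ₗ[F] V)
    (hjet : ∀ x v, HasJet (fun t : F => g (x + t • v)) (g x) (L x v))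
    (hL : ∀ x v u, (fun t : F => L (x + t • v) u) ∈ VPoly F V)
    (hg : ∀ x v, (fun t : F => g (x + t • v)) ∈ VPoly F V)
    (haff : ∀ e ∈ Y, ∀ x, g (x + e) = g x + L x e)
    (h0 : ∀ x, Q (g x) (g x) = 0) (x u : V) : Q (L x u) (L x u) = 0 := by
  have hA : ∀ x v, Q (g x) (L x v) = 0 := by
    intro x v
    exact jet_iso Q hsym two (hjet x v) (fun t => h0 _)
  have hdich : ∀ x, (∀ u, Q (L x u) (L x u) = 0) ∨ ∀ z, Q (g x) z = 0 := by
    intro x
    set B : V →ₗ[F] V →ₗ[F] F := Q.compl₁₂ (L x) (L x) with hB
    have hBa : ∀ a b, B a b = Q (L x a) (L x b) := fun a b => by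
      rw [hB, LinearMap.compl₁₂_apply]
    by_cases hB0 : B = 0
    · left
      intro u
      rw [← hBa, hB0]
      rfl
    · right
      have h1 := hmin B (fun a b => by rw [hBa, hBa, hsym]) (fun e he => by
        rw [hBa]
        have h2 := h0 (x + e)
        rw [haff e he x] at h2
        simp only [map_add, LinearMap.add_apply] at h2
        rw [h0 x, hA x e, hsym (L x e) (g x), hA x e] at h2
        simpa using h2) hB0
      set W : Submodule F (V →ₗ[F] F) := LinearMap.range (Q.comp (L x)) with hW
      have h2 : LinearMap.range B ≤ W.map (L x).dualMap := by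
        rintro _ ⟨y, rfl⟩
        refine ⟨Q (L x y), ⟨y, rfl⟩, ?_⟩
        ext z
        rw [hBa]
        rfl
      have h4 : Module.finrank F (LinearMap.range B) ≤ Module.finrank F W :=
        (Submodule.finrank_mono h2).trans (Submodule.finrank_map_le _ _)
      have h5 : W ≤ LinearMap.range Q := by
        rintro _ ⟨y, rfl⟩
        exact ⟨L x y, rfl⟩
      have h6 : W = LinearMap.range Q :=
        Submodule.eq_of_le_of_finrank_le h5 (h1.trans h4)
      intro z
      have h8 : Q z ∈ W := by
        rw [h6]
        exact ⟨z, rfl⟩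
      obtain ⟨y, hy⟩ := h8
      have h9 := LinearMap.congr_fun hy (g x)
      simp only [LinearMap.comp_apply] at h9
      rw [hsym, ← h9, hsym, hA]
  by_contra hne
  have hz : ∀ v z, Q (L x v) z = 0 := by
    intro v z
    have f1 : (fun t : F => Q (L (x + t • v) u) (L (x + t • v) u)) ∈ VPoly F F :=
      vpoly_bil Q (hL x v u) (hL x v u)
    have f2 : (fun t : F => Q (g (x + t • v)) z) ∈ VPoly F F :=
      vpoly_bil Q (hg x v) (vpoly_const z)
    rcases vpoly_mul_zero f1 f2 (fun t => by
      rcases hdich (x + t • v) with h | h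
      · rw [h u, zero_mul]
      · rw [h z, mul_zero]) with h | h
    · exfalso
      apply hne
      have := h 0
      simpa using this
    · have hj : HasJet (fun t : F => Q (g (x + t • v)) z) (Q (g x) z)
          (Q (g x) 0 + Q (L x v) z) := jet_bil Q (hjet x v) (jet_const z)
      have := jet_zero hj h
      simpa using this
  exact hne (hz u _)

end step

end hand

end Pool.Agent.Alb
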