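import Mathlib
import Pool.Agent.Lib_MP_380d39.HandS5

set_option autoImplicit false

/-!
# The derivative steps for `x³ + x⁴w`
-/

namespace Pool.Agent.Alb

universe u v

section hand2

variable {F : Type u} [Field F] {V : Type v} [AddCommGroup V] [Module F V]
  (m : V →ₗ[F] V →ₗ[F] V)

theorem vpoly_of_jet {f : F → V} {a b : V} (h : HasJet f a b) : f ∈ VPoly F V := by
  obtain ⟨r, hr, h1⟩ := h
  have h2 := vpoly_add (vpoly_line a b) (vpoly_tpow 2 hr)
  have h3 : f = fun t : F => a + t • b + t ^ 2 • r t := by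
    ext t
    exact h1 t
  rw [h3]
  exact h2

theorem jet_congr {f g : F → V} {a b c d : V} (h : HasJet f a b) (hfg : ∀ t, g t = f t)
    (ha : c = a) (hb : d = b) : HasJet g c d := by
  obtain ⟨r, hr, h1⟩ := h
  exact ⟨r, hr, fun t => by rw [hfg, h1, ha, hb]⟩

/-- `x³ + x⁴w` -/
def gg0 (w x : V) : V := x3 m x + m (x4 m x) w

def LL0 (w x : V) : V →ₗ[F] V :=
  m.flip (m x x) + (2 : F) • (m x).comp (m x) +
    (4 : F) • (m.flip w).comp ((m (m x x)).comp (m x))

theorem LL0_apply (w x v : V) : LL0 m w x v =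
    m v (m x x) + (2 : F) • m x (m x v) + (4 : F) • m (m (m x x) (m x v)) w := rfl

def LL1 (w u x : V) : V →ₗ[F] V :=
  (2 : F) • (m u).comp (m x) + (2 : F) • m.flip (m x u) + (2 : F) • (m x).comp (m.flip u) +
    (8 : F) • (m.flip w).comp ((m.flip (m x u)).comp (m x)) +
    (4 : F) • (m.flip w).comp ((m (m x x)).comp (m.flip u))

theorem LL1_apply (w u x v : V) : LL1 m w u x v =
    (2 : F) • m u (m x v) + (2 : F) • m v (m x u) + (2 : F) • m x (m v u) +
      (8 : F) • m (m (m x v) (m x u)) w + (4 : F) • m (m (m x x) (m v u)) w := rfl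

def LL2 (w u v x : V) : V →ₗ[F] V :=
  (2 : F) • (m u).comp (m.flip v) + (2 : F) • (m v).comp (m.flip u) +
    (2 : F) • m.flip (m v u) +
    (8 : F) • (m.flip w).comp ((m.flip (m x u)).comp (m.flip v)) +
    (8 : F) • (m.flip w).comp ((m (m x v)).comp (m.flip u)) +
    (8 : F) • (m.flip w).comp ((m.flip (m v u)).comp (m x))

theorem LL2_apply (w u v x r : V) : LL2 m w u v x r =
    (2 : F) • m u (m r v) + (2 : F) • m v (m r u) + (2 : F) • m r (m v u) +
      (8 : F) • m (m (m r v) (m x u)) w + (8 : F) • m (m (m x v) (m r u)) w +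
      (8 : F) • m (m (m x r) (m v u)) w := rfl

variable (comm : ∀ x y, m x y = m y x)

include comm

theorem jet0 (w x v : V) : HasJet (fun t : F => gg0 m w (x + t • v)) (gg0 m w x)
    (LL0 m w x v) := by
  have l := jet_line (F := F) x v
  have l2 := jet_bil m l l
  have l3 := jet_bil m l l2
  have l4 := jet_bil m l2 l2
  have l5 := jet_bil m l4 (jet_const (F := F) w)
  refine jet_congr (jet_add l3 l5) (fun t => rfl) rfl ?_
  rw [LL0_apply, comm v x]
  simp only [map_add, map_zero, LinearMap.add_apply]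
  rw [comm (m x v) (m x x)]
  module

theorem jet1 (w u x v : V) : HasJet (fun t : F => LL0 m w (x + t • v) u) (LL0 m w x u)
    (LL1 m w u x v) := by
  have l := jet_line (F := F) x v
  have c := jet_const (F := F) u
  have l2 := jet_bil m l l
  have a1 := jet_bil m c l2
  have lu := jet_bil m l c
  have a2 := jet_smul 2 (jet_bil m l lu)
  have a3 := jet_smul 4 (jet_bil m (jet_bil m l2 lu) (jet_const (F := F) w))
  refine jet_congr (jet_add (jet_add a1 a2) a3) (fun t => rfl) rfl ?_
  rw [LL1_apply, comm v x]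
  simp only [map_add, map_zero, LinearMap.add_apply, LinearMap.zero_apply]
  module

theorem jet2 (w u v x r : V) : HasJet (fun t : F => LL1 m w u (x + t • r) v)
    (LL1 m w u x v) (LL2 m w u v x r) := by
  have l := jet_line (F := F) x r
  have cu := jet_const (F := F) u
  have cv := jet_const (F := F) v
  have cvu := jet_const (F := F) (m v u)
  have cw := jet_const (F := F) w
  have l2 := jet_bil m l l
  have lu := jet_bil m l cu
  have lv := jet_bil m l cv
  have a1 := jet_smul 2 (jet_bil m cu lv)
  have a2 := jet_smul 2 (jet_bil m cv lu)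
  have a3 := jet_smul 2 (jet_bil m l cvu)
  have a4 := jet_smul 8 (jet_bil m (jet_bil m lv lu) cw)
  have a5 := jet_smul 4 (jet_bil m (jet_bil m l2 cvu) cw)
  refine jet_congr (jet_add (jet_add (jet_add (jet_add a1 a2) a3) a4) a5) (fun t => rfl) rfl ?_
  rw [LL2_apply, comm r x]
  simp only [map_add, map_zero, LinearMap.add_apply, LinearMap.zero_apply]
  module

variable (two : (2 : F) ≠ 0) (e : V) (e1 : m e e = 0) (e2 : ∀ y, m e (m e y) = 0)
  (e3 : ∀ y, m (m e y) (m e y) = 0)

include two e1 e2 e3

omit e1 e2 in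
theorem e3' (y z : V) : m (m e y) (m e z) = 0 := by
  have h := e3 (y + z)
  simp only [map_add, LinearMap.add_apply] at h
  rw [e3 y, e3 z, comm (m e z) (m e y)] at h
  have h2 : (2 : F) • m (m e y) (m e z) = 0 := by
    linear_combination (norm := module) h
  exact (smul_eq_zero.mp h2).resolve_left two

omit two in
theorem aff0 (w x : V) : gg0 m w (x + e) = gg0 m w x + LL0 m w x e := by
  have h2 := e2 x
  have h3 := e3 x
  rw [comm e x] at h2 h3
  have h4 : m (x + e) (x + e) = m x x + (2 : F) • m x e := by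
    simp only [map_add, LinearMap.add_apply]
    rw [comm e x, e1]
    module
  simp only [gg0, x3, x4, LL0_apply]
  rw [h4]
  simp only [map_add, LinearMap.add_apply, map_smul, LinearMap.smul_apply, h2, h3,
    smul_zero, LinearMap.zero_apply, map_zero]
  rw [comm (m x e) (m x x)]
  module

theorem aff1 (w u x : V) : LL0 m w (x + e) u = LL0 m w x u + LL1 m w u x e := by
  have h2 := e2 u
  have h3 := e3' m comm two e e3 x u
  rw [comm e x] at h3
  have h4 : m (x + e) (x + e) = m x x + (2 : F) • m x e := by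
    simp only [map_add, LinearMap.add_apply]
    rw [comm e x, e1]
    module
  simp only [LL0_apply, LL1_apply]
  rw [h4]
  simp only [map_add, LinearMap.add_apply, map_smul, LinearMap.smul_apply, h2, h3,
    smul_zero, LinearMap.zero_apply, map_zero]
  module

omit e2 in
theorem aff2 (w u v x : V) : LL1 m w u (x + e) v = LL1 m w u x v + LL2 m w u v x e := by
  have h3 := e3' m comm two e e3 v u
  have h4 : m (x + e) (x + e) = m x x + (2 : F) • m x e := by
    simp only [map_add, LinearMap.add_apply]
    rw [comm e x, e1]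
    module
  simp only [LL1_apply, LL2_apply]
  rw [h4]
  simp only [map_add, LinearMap.add_apply, map_smul, LinearMap.smul_apply, h3,
    LinearMap.zero_apply, map_zero]
  module

end hand2

section iso

variable {F : Type u} [Field F] {V : Type v} [AddCommGroup V] [Module F V]
  (m : V →ₗ[F] V →ₗ[F] V)

/-- The set `{z³ + z⁴w}`. -/
def YY : Set V := {e | ∃ z w, e = gg0 m w z}

theorem iso3 [Infinite F] [FiniteDimensional F V] (comm : ∀ x y, m x y = m y x)
    (two : (2 : F) ≠ 0) (e1 : ∀ e ∈ YY m, m e e = 0) (e2 : ∀ e ∈ YY m, ∀ y, m e (m e y) = 0)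
    (e3 : ∀ e ∈ YY m, ∀ y, m (m e y) (m e y) = 0)
    (Q : V →ₗ[F] V →ₗ[F] F) (hsym : ∀ a b, Q a b = Q b a)
    (hY : ∀ e ∈ YY m, Q e e = 0)
    (hmin : ∀ B : V →ₗ[F] V →ₗ[F] F, (∀ a b, B a b = B b a) → (∀ e ∈ YY m, B e e = 0) →
      B ≠ 0 → Module.finrank F (LinearMap.range Q) ≤ Module.finrank F (LinearMap.range B))
    (w u v x r : V) : Q (LL2 m w u v x r) (LL2 m w u v x r) = 0 := by
  refine step two (YY m) Q hsym hmin (fun x => LL1 m w u x v) (fun x => LL2 m w u v x) ?_ ?_ ?_
    ?_ ?_ x r
  · exact fun x r => jet2 m comm w u v x r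
  · intro x v' u'
    have l := vpoly_line (F := F) x v'
    have cu := vpoly_const (F := F) u
    have cv := vpoly_const (F := F) v
    have cr := vpoly_const (F := F) u'
    have cw := vpoly_const (F := F) w
    have a1 := vpoly_const (F := F) ((2 : F) • m u (m u' v) + (2 : F) • m v (m u' u) +
      (2 : F) • m u' (m v u))
    have a4 := vpoly_smul 8 (vpoly_bil m (vpoly_bil m (vpoly_const (F := F) (m u' v))
      (vpoly_bil m l cu)) cw)
    have a5 := vpoly_smul 8 (vpoly_bil m (vpoly_bil m (vpoly_bil m l cv)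
      (vpoly_const (F := F) (m u' u))) cw)
    have a6 := vpoly_smul 8 (vpoly_bil m (vpoly_bil m (vpoly_bil m l cr)
      (vpoly_const (F := F) (m v u))) cw)
    exact vpoly_add (vpoly_add (vpoly_add a1 a4) a5) a6
  · exact fun x r => vpoly_of_jet (jet2 m comm w u v x r)
  · exact fun e he x => aff2 m comm two e (e1 e he) (e3 e he) w u v x
  · intro x
    refine step two (YY m) Q hsym hmin (fun x => LL0 m w x u) (fun x => LL1 m w u x) ?_ ?_ ?_
      ?_ ?_ x v
    · exact fun x r => jet1 m comm w u x r
    · exact fun x r v => vpoly_of_jet (jet2 m comm w u v x r)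
    · exact fun x r => vpoly_of_jet (jet1 m comm w u x r)
    · exact fun e he x => aff1 m comm two e (e1 e he) (e2 e he) (e3 e he) w u x
    · intro x
      refine step two (YY m) Q hsym hmin (fun x => gg0 m w x) (fun x => LL0 m w x) ?_ ?_ ?_
        ?_ ?_ x u
      · exact fun x r => jet0 m comm w x r
      · exact fun x r v => vpoly_of_jet (jet1 m comm w v x r)
      · exact fun x r => vpoly_of_jet (jet0 m comm w x r)
      · exact fun e he x => aff0 m comm e (e1 e he) (e2 e he) (e3 e he) w x
      · intro x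
        exact hY _ ⟨x, w, rfl⟩

end iso

end Pool.Agent.Alb
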