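import Mathlib
import Pool.Agent.Lib_MP_380d39.HandS5b

set_option autoImplicit false

/-!
# The end of the hand part of the argument for stage 5
-/

namespace Pool.Agent.Alb

universe u v

section fin

variable {F : Type u} [Field F] {V : Type v} [AddCommGroup V] [Module F V]
  (m : V →ₗ[F] V →ₗ[F] V)

theorem LL2_eq (comm : ∀ x y, m x y = m y x) (w u v x r : V) : LL2 m w u v x r =
    (2 : F) • s3 m u v r + (8 : F) • m (s4 m x u v r) w := by
  rw [LL2_apply]
  simp only [s3, s4, map_add, LinearMap.add_apply]
  rw [comm r v, comm r u, comm v u, comm (m v r) (m x u)]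
  module

variable (comm : ∀ x y, m x y = m y x)
  (Q : V →ₗ[F] V →ₗ[F] F) (hsym : ∀ a b, Q a b = Q b a) (two : (2 : F) ≠ 0)
  (three : (3 : F) ≠ 0)

/-- separation of the parts of degree 0, 1, 2 in `w` -/
theorem parts (two : (2 : F) ≠ 0) (hsym : ∀ a b, Q a b = Q b a) (a : V) (B : V →ₗ[F] V)
    (h : ∀ w, Q (a + B w) (a + B w) = 0) :
    Q a a = 0 ∧ (∀ w, Q a (B w) = 0) ∧ ∀ w w', Q (B w) (B w') = 0 := by
  have h0 : Q a a = 0 := by
    have := h 0
    simpa using this
  have h1 : ∀ w, Q a (B w) = 0 ∧ Q (B w) (B w) = 0 := by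
    intro w
    have k1 := h w
    have k2 := h (-w)
    simp only [map_add, map_neg, LinearMap.add_apply, LinearMap.neg_apply, h0,
      hsym (B w) a] at k1 k2
    constructor
    · have : 2 * (2 * Q a (B w)) = 0 := by linear_combination k1 - k2
      exact (mul_eq_zero.mp ((mul_eq_zero.mp this).resolve_left two)).resolve_left two
    · have : 2 * Q (B w) (B w) = 0 := by linear_combination k1 + k2
      exact (mul_eq_zero.mp this).resolve_left two
  refine ⟨h0, fun w => (h1 w).1, fun w w' => ?_⟩
  have k := (h1 (w + w')).2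
  simp only [map_add, LinearMap.add_apply, (h1 w).2, (h1 w').2, hsym (B w') (B w)] at k
  have : 2 * Q (B w) (B w') = 0 := by linear_combination k
  exact (mul_eq_zero.mp this).resolve_left two

/-- the three families of relations -/
def Rel3 : Prop := ∀ u v r, Q (s3 m u v r) (s3 m u v r) = 0
def Rel34 : Prop := ∀ x u v r w, Q (s3 m u v r) (m (s4 m x u v r) w) = 0
def Rel44 : Prop := ∀ x u v r w w', Q (m (s4 m x u v r) w) (m (s4 m x u v r) w') = 0

theorem rels (two : (2 : F) ≠ 0) (comm : ∀ x y, m x y = m y x)
    (hsym : ∀ a b, Q a b = Q b a)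
    (h : ∀ w u v x r, Q (LL2 m w u v x r) (LL2 m w u v x r) = 0) :
    Rel3 m Q ∧ Rel34 m Q ∧ Rel44 m Q := by
  have h8 : (8 : F) ≠ 0 := by
    have : (8 : F) = 2 * 2 * 2 := by norm_num
    rw [this]
    exact mul_ne_zero (mul_ne_zero two two) two
  have key : ∀ x u v r, Q (s3 m u v r) (s3 m u v r) = 0 ∧
      (∀ w, Q (s3 m u v r) (m (s4 m x u v r) w) = 0) ∧
      ∀ w w', Q (m (s4 m x u v r) w) (m (s4 m x u v r) w') = 0 := by
    intro x u v r
    have k := parts Q two hsym ((2 : F) • s3 m u v r) ((8 : F) • m (s4 m x u v r)) (fun w => by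
      have := h w u v x r
      rw [LL2_eq m comm] at this
      exact this)
    obtain ⟨k1, k2, k3⟩ := k
    simp only [map_smul, LinearMap.smul_apply, smul_eq_mul] at k1 k2 k3
    refine ⟨?_, fun w => ?_, fun w w' => ?_⟩
    · exact (mul_eq_zero.mp ((mul_eq_zero.mp k1).resolve_left two)).resolve_left two
    · have := k2 w
      rcases mul_eq_zero.mp this with h1 | h1
      · exact absurd h1 (by assumption)
      · exact (mul_eq_zero.mp h1).resolve_left (by assumption)
    · have := k3 w w'
      rcases mul_eq_zero.mp this with h1 | h1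
      · exact absurd h1 (by assumption)
      · exact (mul_eq_zero.mp h1).resolve_left (by assumption)
  exact ⟨fun u v r => (key 0 u v r).1, fun x u v r => (key x u v r).2.1,
    fun x u v r => (key x u v r).2.2⟩

include comm hsym two

/-- `Q(x³, z³) = 0` -/
theorem q33 (three : (3 : F) ≠ 0) (h : Rel3 m Q) (x z : V) : Q (x3 m x) (x3 m z) = 0 := by
  set a0 := s3 m x x x with ha0
  set a1 := s3 m x x z with ha1
  set a2 := s3 m x z z with ha2
  set a3 := s3 m z z z with ha3
  have e1 : s3 m x z (x + z) = a1 + a2 := by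
    simp only [ha1, ha2, s3, map_add, LinearMap.add_apply]
    rw [comm z x]
    module
  have e2 : s3 m (x + z) (x + z) (x + z) = a0 + (3 : F) • a1 + (3 : F) • a2 + a3 := by
    simp only [ha0, ha1, ha2, ha3, s3, map_add, LinearMap.add_apply]
    rw [comm z x]
    module
  have e3 : s3 m (x - z) (x - z) (x - z) = a0 - (3 : F) • a1 + (3 : F) • a2 - a3 := by
    simp only [ha0, ha1, ha2, ha3, s3, map_sub, LinearMap.sub_apply]
    rw [comm z x]
    module
  have e4 : s3 m x x (x + z) = a0 + a1 := by
    simp only [ha0, ha1, s3, map_add, LinearMap.add_apply]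
    module
  have e5 : s3 m z z (x + z) = a2 + a3 := by
    simp only [ha2, ha3, s3, map_add, LinearMap.add_apply]
    rw [comm z x]
    module
  have k00 := h x x x
  have k11 := h x x z
  have k22 := h x z z
  have k33 := h z z z
  have k12 := h x z (x + z)
  have kp := h (x + z) (x + z) (x + z)
  have km := h (x - z) (x - z) (x - z)
  have k01 := h x x (x + z)
  have k23 := h z z (x + z)
  rw [e1] at k12
  rw [e2] at kp
  rw [e3] at km
  rw [e4] at k01
  rw [e5] at k23
  rw [← ha0] at k00
  rw [← ha1] at k11
  rw [← ha2] at k22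
  rw [← ha3] at k33
  simp only [map_add, map_sub, map_smul, LinearMap.add_apply, LinearMap.sub_apply,
    LinearMap.smul_apply, smul_eq_mul, hsym a1 a0, hsym a2 a0, hsym a3 a0, hsym a2 a1,
    hsym a3 a1, hsym a3 a2] at k12 kp km k01 k23
  have k03 : 2 * (2 * Q a0 a3) = 0 := by
    linear_combination kp - km - 18 * (k12 - k11 - k22) - 6 * (k01 - k00 - k11) -
      6 * (k23 - k22 - k33)
  have k03' : Q a0 a3 = 0 :=
    (mul_eq_zero.mp ((mul_eq_zero.mp k03).resolve_left two)).resolve_left two
  have x0 : a0 = (3 : F) • x3 m x := by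
    simp only [ha0, s3, x3]
    module
  have x3' : a3 = (3 : F) • x3 m z := by
    simp only [ha3, s3, x3]
    module
  rw [x0, x3'] at k03'
  simp only [map_smul, LinearMap.smul_apply, smul_eq_mul] at k03'
  exact (mul_eq_zero.mp ((mul_eq_zero.mp k03').resolve_left three)).resolve_left three

omit hsym in
/-- `Q(x³, z⁴w) = 0` -/
theorem q34 (three : (3 : F) ≠ 0) (h : Rel34 m Q) (x z w : V) :
    Q (x3 m x) (m (x4 m z) w) = 0 := by
  set a0 := s3 m x x x with ha0
  set a1 := s3 m x x z with ha1
  set a2 := s3 m x z z with ha2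
  set a3 := s3 m z z z with ha3
  set b1 := s4 m x x x z with hb1
  set b2 := s4 m x x z z with hb2
  set b3 := s4 m x z z z with hb3
  set b4 := s4 m z z z z with hb4
  have f01 : Q a0 (m b1 w) = 0 := by
    have k := h z x x x w
    have e : s4 m z x x x = b1 := by
      simp only [hb1, s4]
      rw [comm z x, comm (m x z) (m x x)]
    rwa [e] at k
  have f11 : Q a1 (m b1 w) = 0 := h x x x z w
  have f12 : Q a1 (m b2 w) = 0 := by
    have k := h z x x z w
    have e : s4 m z x x z = b2 := by
      simp only [hb2, s4]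
      rw [comm z x, comm (m z z) (m x x)]
      module
    rwa [e] at k
  have f22 : Q a2 (m b2 w) = 0 := h x x z z w
  have f23 : Q a2 (m b3 w) = 0 := by
    have k := h z x z z w
    have e : s4 m z x z z = b3 := by
      simp only [hb3, s4]
      rw [comm z x, comm (m z z) (m x z)]
    rwa [e] at k
  have f33 : Q a3 (m b3 w) = 0 := h x z z z w
  have f34 : Q a3 (m b4 w) = 0 := h z z z z w
  have f02 : Q a0 (m b2 w) = 0 := by
    have k := h z x x (x + z) w
    have e1 : s3 m x x (x + z) = a0 + a1 := by
      simp only [ha0, ha1, s3, map_add, LinearMap.add_apply]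
      module
    have e2 : s4 m z x x (x + z) = b1 + b2 := by
      simp only [hb1, hb2, s4, map_add, LinearMap.add_apply]
      rw [comm z x, comm (m z z) (m x x), comm (m x z) (m x x)]
      module
    rw [e1, e2] at k
    simp only [map_add, LinearMap.add_apply, f01, f11, f12, add_zero, zero_add] at k
    exact k
  have f13 : Q a1 (m b3 w) = 0 := by
    have k := h z x z (x + z) w
    have e1 : s3 m x z (x + z) = a1 + a2 := by
      simp only [ha1, ha2, s3, map_add, LinearMap.add_apply]
      rw [comm z x]
      module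
    have e2 : s4 m z x z (x + z) = b2 + b3 := by
      simp only [hb2, hb3, s4, map_add, LinearMap.add_apply]
      rw [comm z x, comm (m z z) (m x x), comm (m z z) (m x z)]
      module
    rw [e1, e2] at k
    simp only [map_add, LinearMap.add_apply, f12, f22, f23, add_zero, zero_add] at k
    exact k
  have f24 : Q a2 (m b4 w) = 0 := by
    have k := h z z z (x + z) w
    have e1 : s3 m z z (x + z) = a2 + a3 := by
      simp only [ha2, ha3, s3, map_add, LinearMap.add_apply]
      rw [comm z x]
      module
    have e2 : s4 m z z z (x + z) = b3 + b4 := by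
      simp only [hb3, hb4, s4, map_add, LinearMap.add_apply]
      rw [comm z x, comm (m z z) (m x z)]
      module
    rw [e1, e2] at k
    simp only [map_add, LinearMap.add_apply, f23, f33, f34, add_zero, zero_add] at k
    exact k
  have f31 : Q a3 (m b1 w) = 0 := by
    have kp := h x (x + z) (x + z) z w
    have km := h x (x - z) (x - z) z w
    have e1 : s3 m (x + z) (x + z) z = a1 + (2 : F) • a2 + a3 := by
      simp only [ha1, ha2, ha3, s3, map_add, LinearMap.add_apply]
      rw [comm z x]
      module
    have e2 : s3 m (x - z) (x - z) z = a1 - (2 : F) • a2 + a3 := by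
      simp only [ha1, ha2, ha3, s3, map_sub, LinearMap.sub_apply]
      rw [comm z x]
      module
    have e3 : s4 m x (x + z) (x + z) z = b1 + (2 : F) • b2 + b3 := by
      simp only [hb1, hb2, hb3, s4, map_add, LinearMap.add_apply]
      rw [comm z x]
      module
    have e4 : s4 m x (x - z) (x - z) z = b1 - (2 : F) • b2 + b3 := by
      simp only [hb1, hb2, hb3, s4, map_sub, LinearMap.sub_apply]
      rw [comm z x]
      module
    rw [e1, e3] at kp
    rw [e2, e4] at km
    simp only [map_add, map_sub, map_smul, LinearMap.add_apply, LinearMap.sub_apply,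
      LinearMap.smul_apply, smul_eq_mul, f11, f12, f13, f22, f23, f33] at kp km
    have k : 2 * Q a3 (m b1 w) = 0 := by linear_combination kp + km
    exact (mul_eq_zero.mp k).resolve_left two
  have f04 : Q a0 (m b4 w) = 0 := by
    have kp := h z (x + z) (x + z) (x + z) w
    have km := h z (x - z) (x - z) (x - z) w
    have e1 : s3 m (x + z) (x + z) (x + z) = a0 + (3 : F) • a1 + (3 : F) • a2 + a3 := by
      simp only [ha0, ha1, ha2, ha3, s3, map_add, LinearMap.add_apply]
      rw [comm z x]
      module
    have e2 : s3 m (x - z) (x - z) (x - z) = a0 - (3 : F) • a1 + (3 : F) • a2 - a3 := by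
      simp only [ha0, ha1, ha2, ha3, s3, map_sub, LinearMap.sub_apply]
      rw [comm z x]
      module
    have e3 : s4 m z (x + z) (x + z) (x + z) = b1 + (3 : F) • b2 + (3 : F) • b3 + b4 := by
      simp only [hb1, hb2, hb3, hb4, s4, map_add, LinearMap.add_apply]
      rw [comm z x, comm (m z z) (m x x), comm (m z z) (m x z), comm (m x z) (m x x)]
      module
    have e4 : s4 m z (x - z) (x - z) (x - z) = b1 - (3 : F) • b2 + (3 : F) • b3 - b4 := by
      simp only [hb1, hb2, hb3, hb4, s4, map_sub, LinearMap.sub_apply]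
      rw [comm z x, comm (m z z) (m x x), comm (m z z) (m x z), comm (m x z) (m x x)]
      module
    rw [e1, e3] at kp
    rw [e2, e4] at km
    simp only [map_add, map_sub, map_smul, LinearMap.add_apply, LinearMap.sub_apply,
      LinearMap.smul_apply, smul_eq_mul, f01, f02, f11, f12, f13, f22, f23, f24, f31, f33,
      f34] at kp km
    have k : 2 * Q a0 (m b4 w) = 0 := by linear_combination kp - km
    exact (mul_eq_zero.mp k).resolve_left two
  have x0 : a0 = (3 : F) • x3 m x := by
    simp only [ha0, s3, x3]
    module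
  have x4' : b4 = (3 : F) • x4 m z := by
    simp only [hb4, s4, x4]
    module
  rw [x0, x4'] at f04
  simp only [map_smul, LinearMap.smul_apply, smul_eq_mul] at f04
  exact (mul_eq_zero.mp ((mul_eq_zero.mp f04).resolve_left three)).resolve_left three

omit hsym in
/-- `Q(x⁴w, z⁴w') + Q(z⁴w, x⁴w') = 0` -/
theorem q44 (three : (3 : F) ≠ 0) (h : Rel44 m Q) (x z w w' : V) :
    Q (m (x4 m x) w) (m (x4 m z) w') + Q (m (x4 m z) w) (m (x4 m x) w') = 0 := by
  set b0 := s4 m x x x x with hb0
  set b1 := s4 m x x x z with hb1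
  set b2 := s4 m x x z z with hb2
  set b3 := s4 m x z z z with hb3
  set b4 := s4 m z z z z with hb4
  have g00 : Q (m b0 w) (m b0 w') = 0 := h x x x x w w'
  have g11 : Q (m b1 w) (m b1 w') = 0 := h x x x z w w'
  have g22 : Q (m b2 w) (m b2 w') = 0 := h x x z z w w'
  have g33 : Q (m b3 w) (m b3 w') = 0 := h x z z z w w'
  have g44 : Q (m b4 w) (m b4 w') = 0 := h z z z z w w'
  have g02 : Q (m b0 w) (m b2 w') + Q (m b2 w) (m b0 w') = 0 := by
    have kp := h x x (x + z) (x + z) w w'
    have km := h x x (x - z) (x - z) w w'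
    have e1 : s4 m x x (x + z) (x + z) = b0 + (2 : F) • b1 + b2 := by
      simp only [hb0, hb1, hb2, s4, map_add, LinearMap.add_apply]
      rw [comm z x, comm (m x z) (m x x)]
      module
    have e2 : s4 m x x (x - z) (x - z) = b0 - (2 : F) • b1 + b2 := by
      simp only [hb0, hb1, hb2, s4, map_sub, LinearMap.sub_apply]
      rw [comm z x, comm (m x z) (m x x)]
      module
    rw [e1] at kp
    rw [e2] at km
    simp only [map_add, map_sub, map_smul, LinearMap.add_apply, LinearMap.sub_apply,
      LinearMap.smul_apply, smul_eq_mul, g00, g11, g22] at kp km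
    have k : 2 * (Q (m b0 w) (m b2 w') + Q (m b2 w) (m b0 w')) = 0 := by
      linear_combination kp + km
    exact (mul_eq_zero.mp k).resolve_left two
  have g24 : Q (m b2 w) (m b4 w') + Q (m b4 w) (m b2 w') = 0 := by
    have kp := h z z (x + z) (x + z) w w'
    have km := h z z (x - z) (x - z) w w'
    have e1 : s4 m z z (x + z) (x + z) = b2 + (2 : F) • b3 + b4 := by
      simp only [hb2, hb3, hb4, s4, map_add, LinearMap.add_apply]
      rw [comm z x, comm (m z z) (m x x), comm (m z z) (m x z)]
      module
    have e2 : s4 m z z (x - z) (x - z) = b2 - (2 : F) • b3 + b4 := by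
      simp only [hb2, hb3, hb4, s4, map_sub, LinearMap.sub_apply]
      rw [comm z x, comm (m z z) (m x x), comm (m z z) (m x z)]
      module
    rw [e1] at kp
    rw [e2] at km
    simp only [map_add, map_sub, map_smul, LinearMap.add_apply, LinearMap.sub_apply,
      LinearMap.smul_apply, smul_eq_mul, g22, g33, g44] at kp km
    have k : 2 * (Q (m b2 w) (m b4 w') + Q (m b4 w) (m b2 w')) = 0 := by
      linear_combination kp + km
    exact (mul_eq_zero.mp k).resolve_left two
  have g13 : Q (m b1 w) (m b3 w') + Q (m b3 w) (m b1 w') = 0 := by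
    have kp := h x z (x + z) (x + z) w w'
    have km := h x z (x - z) (x - z) w w'
    have e1 : s4 m x z (x + z) (x + z) = b1 + (2 : F) • b2 + b3 := by
      simp only [hb1, hb2, hb3, s4, map_add, LinearMap.add_apply]
      rw [comm z x, comm (m x z) (m x x)]
      module
    have e2 : s4 m x z (x - z) (x - z) = b1 - (2 : F) • b2 + b3 := by
      simp only [hb1, hb2, hb3, s4, map_sub, LinearMap.sub_apply]
      rw [comm z x, comm (m x z) (m x x)]
      module
    rw [e1] at kp
    rw [e2] at km
    simp only [map_add, map_sub, map_smul, LinearMap.add_apply, LinearMap.sub_apply,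
      LinearMap.smul_apply, smul_eq_mul, g22, g33, g11] at kp km
    have k : 2 * (Q (m b1 w) (m b3 w') + Q (m b3 w) (m b1 w')) = 0 := by
      linear_combination kp + km
    exact (mul_eq_zero.mp k).resolve_left two
  have g04 : Q (m b0 w) (m b4 w') + Q (m b4 w) (m b0 w') = 0 := by
    have kp := h (x + z) (x + z) (x + z) (x + z) w w'
    have km := h (x - z) (x - z) (x - z) (x - z) w w'
    have e1 : s4 m (x + z) (x + z) (x + z) (x + z) =
        b0 + (4 : F) • b1 + (6 : F) • b2 + (4 : F) • b3 + b4 := by
      simp only [hb0, hb1, hb2, hb3, hb4, s4, map_add, LinearMap.add_apply]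
      rw [comm z x, comm (m z z) (m x x), comm (m z z) (m x z), comm (m x z) (m x x)]
      module
    have e2 : s4 m (x - z) (x - z) (x - z) (x - z) =
        b0 - (4 : F) • b1 + (6 : F) • b2 - (4 : F) • b3 + b4 := by
      simp only [hb0, hb1, hb2, hb3, hb4, s4, map_sub, LinearMap.sub_apply]
      rw [comm z x, comm (m z z) (m x x), comm (m z z) (m x z), comm (m x z) (m x x)]
      module
    rw [e1] at kp
    rw [e2] at km
    simp only [map_add, map_sub, map_smul, LinearMap.add_apply, LinearMap.sub_apply,
      LinearMap.smul_apply, smul_eq_mul, g00, g11, g22, g33, g44] at kp km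
    have k : 2 * (Q (m b0 w) (m b4 w') + Q (m b4 w) (m b0 w')) = 0 := by
      linear_combination kp + km - 12 * g02 - 12 * g24 - 32 * g13
    exact (mul_eq_zero.mp k).resolve_left two
  have x0 : b0 = (3 : F) • x4 m x := by
    simp only [hb0, s4, x4]
    module
  have x4' : b4 = (3 : F) • x4 m z := by
    simp only [hb4, s4, x4]
    module
  rw [x0, x4'] at g04
  simp only [map_smul, LinearMap.smul_apply, smul_eq_mul] at g04
  have k : 3 * (3 * (Q (m (x4 m x) w) (m (x4 m z) w') + Q (m (x4 m z) w) (m (x4 m x) w')))
      = 0 := by linear_combination g04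
  exact (mul_eq_zero.mp ((mul_eq_zero.mp k).resolve_left three)).resolve_left three

end fin

end Pool.Agent.Alb
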