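import Mathlib
import Pool.Agent.Lib_MP_380d39.HandS5c

set_option autoImplicit false

/-!
# Stage 5 is dead, given the identities
-/

namespace Pool.Agent.Alb

universe u v

section main

variable {F : Type u} [Field F] {V : Type v} [AddCommGroup V] [Module F V]
  (m : V →ₗ[F] V →ₗ[F] V)

/-- For a functional killing all cubes `φ(x²(xy)) = 0`, if the linearised fourth power
associativity holds. -/
theorem phi_sx (two : (2 : F) ≠ 0) (three : (3 : F) ≠ 0) (comm : ∀ x y, m x y = m y x)
    (hpa : ∀ x y, (4 : F) • m (m x x) (m x y) =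
      m (m x (m x x)) y + m x (m (m x x) y) + (2 : F) • m x (m x (m x y)))
    (φ : V →ₗ[F] F) (h : ∀ x, φ (x3 m x) = 0) (x y : V) : φ (m (m x x) (m x y)) = 0 := by
  have hp := pol3 m two comm (m.compr₂ φ) (fun u => by
    have := h u
    simp only [x3] at this
    rw [comm u] at this
    simpa using this)
  simp only [LinearMap.compr₂_apply] at hp
  -- (x x) z + 2 x (x z)
  have h1 : ∀ z, φ (m (m x x) z) = -2 * φ (m x (m x z)) := by
    intro z
    have k := hp x x z
    rw [comm (m x z) x, comm z x, comm (m x z) x] at k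
    linear_combination k
  have h2 := h1 (m x y)
  -- x (x² y) + x² (x y) + x³ y
  have h3 := hp x (m x x) y
  have h4 := congrArg φ (hpa x y)
  simp only [map_add, map_smul, smul_eq_mul] at h4
  rw [comm (m (m x x) y) x, comm (m y x) (m x x), comm y x] at h3
  have h5 : 2 * (3 * φ (m (m x x) (m x y))) = 0 := by
    linear_combination h4 + h3 + h2
  exact (mul_eq_zero.mp ((mul_eq_zero.mp h5).resolve_left two)).resolve_left three

/-- **Stage 5.** A finite-dimensional perfect commutative algebra over a field of characteristic 0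
that satisfies the listed identities is zero. The formula for `x⁴(yz)` is only needed modulo the
span of the cubes. -/
theorem stage5_mod [CharZero F] [FiniteDimensional F V]
    (comm : ∀ x y, m x y = m y x)
    (perf : Submodule.span F {z : V | ∃ a b : V, z = m a b} = ⊤)
    (hpa : ∀ x y, (4 : F) • m (m x x) (m x y) =
      m (m x (m x x)) y + m x (m (m x x) y) + (2 : F) • m x (m x (m x y)))
    (hT : ∀ φ : V →ₗ[F] F, (∀ x, φ (x3 m x) = 0) → ∀ x y z,
      φ (m (x4 m x) (m y z)) = (-4 : F) * φ (m (m x y) (m (m x x) (m x z))))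
    (h43 : ∀ z, m (x4 m z) (x3 m z) = 0)
    (h44 : ∀ z w, m (x4 m z) (m (x4 m z) w) = 0)
    (e1 : ∀ z w, m (x3 m z + m (x4 m z) w) (x3 m z + m (x4 m z) w) = 0)
    (e2 : ∀ z w y, m (x3 m z + m (x4 m z) w) (m (x3 m z + m (x4 m z) w) y) = 0)
    (e3 : ∀ z w y, m (m (x3 m z + m (x4 m z) w) y) (m (x3 m z + m (x4 m z) w) y) = 0) :
    Subsingleton V := by
  have two : (2 : F) ≠ 0 := two_ne_zero
  have three : (3 : F) ≠ 0 := three_ne_zero
  by_contra hV
  rw [not_subsingleton_iff_nontrivial] at hV
  have E1 : ∀ e ∈ YY m, m e e = 0 := by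
    rintro e ⟨z, w, rfl⟩
    exact e1 z w
  have E2 : ∀ e ∈ YY m, ∀ y, m e (m e y) = 0 := by
    rintro e ⟨z, w, rfl⟩ y
    exact e2 z w y
  have E3 : ∀ e ∈ YY m, ∀ y, m (m e y) (m e y) = 0 := by
    rintro e ⟨z, w, rfl⟩ y
    exact e3 z w y
  -- the forms vanishing on `Y`
  let P : (V →ₗ[F] V →ₗ[F] F) → Prop := fun B =>
    (∀ a b, B a b = B b a) ∧ (∀ e ∈ YY m, B e e = 0) ∧ B ≠ 0
  obtain ⟨v, hv⟩ := exists_ne (0 : V)
  have hex0 : ∃ B, P B := by
    have hφ : ∃ φ : V →ₗ[F] F, φ ≠ 0 := by
      by_contra hno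
      push Not at hno
      apply hv
      rw [← Module.forall_dual_apply_eq_zero_iff F v]
      intro φ
      rw [hno φ]
      rfl
    obtain ⟨φ, hφ⟩ := hφ
    refine ⟨form m φ, fun a b => by simp only [form_apply]; rw [comm], ?_, ?_⟩
    · intro e he
      simp only [form_apply]
      rw [E1 e he, map_zero]
    · intro h0
      apply hφ
      refine zero_of_mul m perf φ ?_
      intro x y
      have := LinearMap.congr_fun (LinearMap.congr_fun h0 x) y
      simpa using this
  classical
  have hex : ∃ n : ℕ, ∃ B, P B ∧ Module.finrank F (LinearMap.range B) = n := by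
    obtain ⟨B, hB⟩ := hex0
    exact ⟨_, B, hB, rfl⟩
  set n := Nat.find hex with hn
  have hle : ∀ B, P B → n ≤ Module.finrank F (LinearMap.range B) := by
    intro B hB
    exact Nat.find_min' hex ⟨B, hB, rfl⟩
  -- the relations for the forms of minimal rank
  have hrel : ∀ Q, P Q → Module.finrank F (LinearMap.range Q) = n →
      Rel3 m Q ∧ Rel34 m Q ∧ Rel44 m Q := by
    intro Q hQ hQn
    refine rels m Q two comm hQ.1 ?_
    intro w u v x r
    refine iso3 m comm two E1 E2 E3 Q hQ.1 hQ.2.1 ?_ w u v x r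
    intro B h1 h2 h3
    rw [hQn]
    exact hle B ⟨h1, h2, h3⟩
  have htop := v3_v4_top m two three comm perf
  -- cubes are in the radical
  have hrad : ∀ Q, P Q → Module.finrank F (LinearMap.range Q) = n → ∀ x z,
      Q (x3 m x) z = 0 := by
    intro Q hQ hQn x z
    obtain ⟨r3, r34, r44⟩ := hrel Q hQ hQn
    have hz : z ∈ LinearMap.ker (Q (x3 m x)) := by
      have : (⊤ : Submodule F V) ≤ LinearMap.ker (Q (x3 m x)) := by
        rw [← htop, Submodule.span_le]
        rintro z (⟨y, rfl⟩ | ⟨y, w, rfl⟩)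
        · exact q33 m comm Q hQ.1 two three r3 x y
        · exact q34 m comm Q two three r34 x y w
      exact this trivial
    exact hz
  -- the group trick
  have hgrp : ∀ Q, P Q → Module.finrank F (LinearMap.range Q) = n → ∀ x,
      P (Q.compl₁₂ (LinearMap.id + m (x4 m x)) (LinearMap.id + m (x4 m x))) ∧
      Module.finrank F (LinearMap.range
        (Q.compl₁₂ (LinearMap.id + m (x4 m x)) (LinearMap.id + m (x4 m x)))) = n := by
    intro Q hQ hQn x
    obtain ⟨r3, r34, r44⟩ := hrel Q hQ hQn
    have hr := hrad Q hQ hQn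
    have hr' : ∀ z y, Q z (x3 m y) = 0 := fun z y => by rw [hQ.1, hr]
    set c := x4 m x with hc
    set g : V →ₗ[F] V := LinearMap.id + m c with hg
    have hga : ∀ a, g a = a + m c a := fun a => rfl
    have hinv : ∀ a, g (a - m c a) = a := by
      intro a
      rw [hga, map_sub, hc, h44 x a]
      module
    set B := Q.compl₁₂ g g with hB
    have hBa : ∀ a b, B a b = Q (g a) (g b) := fun a b => by
      rw [hB, LinearMap.compl₁₂_apply]
    have hPB : P B := by
      refine ⟨fun a b => by rw [hBa, hBa, hQ.1], ?_, ?_⟩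
      · rintro e ⟨z, w, rfl⟩
        rw [hBa, hga]
        have k1 := hQ.2.1 (gg0 m w z) ⟨z, w, rfl⟩
        have k2 : Q (m c (gg0 m w z)) (m c (gg0 m w z)) = 0 := by
          have q := q44 m comm Q two three r44 x x (gg0 m w z) (gg0 m w z)
          have q2 : 2 * Q (m c (gg0 m w z)) (m c (gg0 m w z)) = 0 := by
            linear_combination q
          exact (mul_eq_zero.mp q2).resolve_left two
        have k3 : Q (gg0 m w z) (m c (gg0 m w z)) = 0 := by
          have q := q44 m comm Q two three r44 z x w (gg0 m w z)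
          have q3 : m (x4 m z) (gg0 m w z) = 0 := by
            simp only [gg0, map_add]
            rw [h43, h44, add_zero]
          rw [q3, map_zero, add_zero] at q
          have q4 : Q (gg0 m w z) (m c (gg0 m w z)) =
              Q (x3 m z) (m c (gg0 m w z)) + Q (m (x4 m z) w) (m c (gg0 m w z)) := by
            have := LinearMap.congr_fun (map_add Q (x3 m z) (m (x4 m z) w)) (m c (gg0 m w z))
            exact this
          rw [q4, hr, q, add_zero]
        simp only [map_add, LinearMap.add_apply, hQ.1 (m c (gg0 m w z)) (gg0 m w z), k1, k2, k3,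
          add_zero]
      · intro h0
        apply hQ.2.2
        ext a b
        have := LinearMap.congr_fun (LinearMap.congr_fun h0 (a - m c a)) (b - m c b)
        rw [hBa, hinv, hinv] at this
        exact this
    refine ⟨hPB, le_antisymm ?_ (hle B hPB)⟩
    have h2 : LinearMap.range B ≤ (LinearMap.range Q).map g.dualMap := by
      rintro _ ⟨y, rfl⟩
      refine ⟨Q (g y), ⟨g y, rfl⟩, ?_⟩
      ext z
      rw [hBa]
      rfl
    rw [← hQn]
    exact (Submodule.finrank_mono h2).trans (Submodule.finrank_map_le _ _)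
  -- the common radical
  let U : Submodule F V :=
    { carrier := {y | ∀ Q, P Q → Module.finrank F (LinearMap.range Q) = n → Q y = 0}
      add_mem' := by
        intro a b ha hb Q hQ hQn
        rw [map_add, ha Q hQ hQn, hb Q hQ hQn, add_zero]
      zero_mem' := fun Q _ _ => map_zero _
      smul_mem' := by
        intro k a ha Q hQ hQn
        rw [map_smul, ha Q hQ hQn, smul_zero] }
  have hU : U = ⊤ := by
    refine thmB m two three comm perf
      (fun φ h x y => phi_sx m two three comm hpa φ h x y) hT U ?_ ?_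
    · intro x Q hQ hQn
      ext z
      exact hrad Q hQ hQn x z
    · intro x y hy Q hQ hQn
      obtain ⟨hB, hBn⟩ := hgrp Q hQ hQn x
      have h1 := hy _ hB hBn
      ext z
      have h2 := LinearMap.congr_fun h1 (z - m (x4 m x) z)
      rw [LinearMap.compl₁₂_apply] at h2
      have h3 : (LinearMap.id + m (x4 m x) : V →ₗ[F] V) (z - m (x4 m x) z) = z := by
        change (z - m (x4 m x) z) + m (x4 m x) (z - m (x4 m x) z) = z
        rw [map_sub, h44 x z]
        module
      rw [h3] at h2
      have h4 : (LinearMap.id + m (x4 m x) : V →ₗ[F] V) y = y + m (x4 m x) y := rfl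
      rw [h4, map_add, LinearMap.add_apply, hy Q hQ hQn] at h2
      simpa using h2
  obtain ⟨Q, hQ, hQn⟩ := Nat.find_spec hex
  apply hQ.2.2
  ext a b
  have ha : a ∈ U := by
    rw [hU]
    trivial
  rw [ha Q hQ hQn]
  rfl

/-- `stage5_mod` with the exact formula for `x⁴(yz)`. -/
theorem stage5 [CharZero F] [FiniteDimensional F V]
    (comm : ∀ x y, m x y = m y x)
    (perf : Submodule.span F {z : V | ∃ a b : V, z = m a b} = ⊤)
    (hpa : ∀ x y, (4 : F) • m (m x x) (m x y) =
      m (m x (m x x)) y + m x (m (m x x) y) + (2 : F) • m x (m x (m x y)))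
    (hT : ∀ x y z, m (x4 m x) (m y z) = (-4 : F) • m (m x y) (m (m x x) (m x z)))
    (h43 : ∀ z, m (x4 m z) (x3 m z) = 0)
    (h44 : ∀ z w, m (x4 m z) (m (x4 m z) w) = 0)
    (e1 : ∀ z w, m (x3 m z + m (x4 m z) w) (x3 m z + m (x4 m z) w) = 0)
    (e2 : ∀ z w y, m (x3 m z + m (x4 m z) w) (m (x3 m z + m (x4 m z) w) y) = 0)
    (e3 : ∀ z w y, m (m (x3 m z + m (x4 m z) w) y) (m (x3 m z + m (x4 m z) w) y) = 0) :
    Subsingleton V :=
  stage5_mod m comm perf hpa (fun φ _ x y z => by rw [hT, map_smul, smul_eq_mul]) h43 h44 e1 e2 e3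

end main

end Pool.Agent.Alb
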