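import Mathlib
import Pool.Agent.Lib_MP_380d39.ChkPol
import Pool.Agent.Lib_MP_380d39.HandS5d

set_option autoImplicit false

/-!
# Stage 5 from kernel-checked certificates

A perfect finite-dimensional commutative algebra over a field of characteristic 0 with
`(xx)(xx) = x(x(xx))`, `x⁵ = 0` and a further multilinear identity `g` is zero if certificates for ten
identities are given.
-/

namespace Pool.Agent.Alb.Gen5

open Pool.Agent.Alb.Chk

universe u w

def pa0 : List (Int × T) :=
  [(1, .m (.m (.v 5) (.v 5)) (.m (.v 5) (.v 5))), (-1, .m (.v 5) (.m (.v 5) (.m (.v 5) (.v 5))))]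

def pa4 : List (Int × T) := derP 5 8 (derP 5 7 (derP 5 6 pa0))

/-- the cube and its polarisation -/
def cu0 : List (Int × T) := [(1, .m (.v 5) (.m (.v 5) (.v 5)))]

def cu3 : List (Int × T) := derP 5 7 (derP 5 6 cu0)

abbrev Job := Int × List (Int × T) × List (Int × Nat × Nat × Nat)

def checkJ (ids : List (List (Int × T))) (j : Job) : Bool :=
  (!(decide (j.1 = 0))) && check ids [] j.1 j.2.1 j.2.2 []

/-- all identities -/
def allIds (ids : List (List (Int × T))) : List (List Job) → List (List (Int × T))
  | [] => ids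
  | J :: r => allIds (ids ++ J.map (fun j => j.2.1)) r

/-- all certificates are correct -/
def allOk (ids : List (List (Int × T))) : List (List Job) → Bool
  | [] => true
  | J :: r => J.all (checkJ ids) && allOk (ids ++ J.map (fun j => j.2.1)) r

/-- the nine identities which say that `z³ + z⁴w` has level two -/
def tgts : List (List (Int × T)) := [
  [(1, .m (.v 3) (.m (.v 3) (.v 5)))],
  [(1, .m (.m (.v 3) (.v 5)) (.m (.v 3) (.v 6)))],
  [(1, .m (.v 3) (.m (.v 4) (.v 5)))],
  [(1, .m (.v 3) (.m (.m (.v 4) (.v 5)) (.v 6))), (1, .m (.m (.v 4) (.v 5)) (.m (.v 3) (.v 6)))],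
  [(1, .m (.v 4) (.m (.v 4) (.v 5)))],
  [(1, .m (.m (.v 4) (.v 5)) (.m (.v 4) (.v 5)))],
  [(1, .m (.m (.v 4) (.v 5)) (.m (.m (.v 4) (.v 5)) (.v 6)))],
  [(1, .m (.m (.v 3) (.v 5)) (.m (.m (.v 4) (.v 6)) (.v 5)))],
  [(1, .m (.m (.m (.v 4) (.v 5)) (.v 6)) (.m (.m (.v 4) (.v 5)) (.v 6)))]]

/-- the identity for `x⁴(yz)` modulo cubes -/
def tT : List (Int × T) :=
  [(1, .m (.v 4) (.m (.v 5) (.v 6))), (4, .m (.m (.v 1) (.v 5)) (.m (.v 2) (.m (.v 1) (.v 6))))]

abbrev Cert := Int × List (Int × Nat × Nat × Nat)

def checkC (ids : List (List (Int × T))) : List (List (Int × T)) → List Cert → Bool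
  | [], [] => true
  | t :: ts, c :: cs => checkJ ids (c.1, t, c.2) && checkC ids ts cs
  | _, _ => false

def checkT (ids : List (List (Int × T))) (D : Int) (l : List (Int × Nat × Nat × Nat))
    (tl : List (Int × Nat × Nat)) : Bool :=
  (!(decide (D = 0))) && check ids [cu3] D tT l tl

/-- everything -/
def okAll (g : List (Int × T)) (Js : List (List Job)) (fin : List Cert)
    (tc : Int × List (Int × Nat × Nat × Nat) × List (Int × Nat × Nat)) : Bool :=
  allOk [pa4, g] Js && checkC (allIds [pa4, g] Js) tgts fin && checkT [pa4, g] tc.1 tc.2.1 tc.2.2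

section sound

variable {F : Type u} [Field F] {V : Type w} [AddCommGroup V] [Module F V]
  (mul : V →ₗ[F] V →ₗ[F] V)

theorem job_sound [CharZero F] {ρ : Nat → V} (comm : ∀ x y, mul x y = mul y x)
    (hρ : Pow mul ρ) (ids : List (List (Int × T))) (hids : ∀ p ∈ ids, HoldsAt mul ⊥ ρ p)
    (j : Job) (h : checkJ ids j = true) : HoldsAt mul ⊥ ρ j.2.1 := by
  unfold checkJ at h
  rw [Bool.and_eq_true] at h
  refine check_sound mul comm hρ ⊥ ids [] hids (by simp) j.1 ?_ _ _ _ h.2
  simpa using h.1

theorem all_sound [CharZero F] {ρ : Nat → V} (comm : ∀ x y, mul x y = mul y x)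
    (hρ : Pow mul ρ) (Js : List (List Job)) : ∀ (ids : List (List (Int × T))),
    (∀ p ∈ ids, HoldsAt mul ⊥ ρ p) → allOk ids Js = true →
    ∀ p ∈ allIds ids Js, HoldsAt mul ⊥ ρ p := by
  induction Js with
  | nil => intro ids hids _ p hp; exact hids p hp
  | cons J r ih =>
    intro ids hids h p hp
    unfold allOk at h
    rw [Bool.and_eq_true] at h
    refine ih (ids ++ J.map (fun j => j.2.1)) ?_ h.2 p hp
    intro q hq
    rcases List.mem_append.mp hq with hq | hq
    · exact hids q hq
    · obtain ⟨j, hj, rfl⟩ := List.mem_map.mp hq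
      have h1 := h.1
      rw [List.all_eq_true] at h1
      exact job_sound mul comm hρ ids hids j (h1 j hj)

theorem checkC_sound [CharZero F] {ρ : Nat → V} (comm : ∀ x y, mul x y = mul y x)
    (hρ : Pow mul ρ) (ids : List (List (Int × T))) (hids : ∀ p ∈ ids, HoldsAt mul ⊥ ρ p) :
    ∀ (ts : List (List (Int × T))) (cs : List Cert), checkC ids ts cs = true →
    ∀ p ∈ ts, HoldsAt mul ⊥ ρ p := by
  intro ts
  induction ts with
  | nil => intro cs _ p hp; simp at hp
  | cons t ts ih =>
    intro cs h p hp
    cases cs with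
    | nil => simp [checkC] at h
    | cons c cs =>
      unfold checkC at h
      rw [Bool.and_eq_true] at h
      rcases List.mem_cons.mp hp with rfl | hp
      · exact job_sound mul comm hρ ids hids (c.1, p, c.2) h.1
      · exact ih cs h.2 p hp

theorem pa4_all [Infinite F] (hpa : ∀ x, mul (mul x x) (mul x x) = mul x (mul x (mul x x))) :
    HoldsAll mul pa4 := by
  have h0 : HoldsAll mul pa0 := by
    intro ρ
    simp only [pa0, evP, T.ev, Int.cast_one, Int.cast_neg, one_smul, neg_smul, hpa, add_zero,
      add_neg_cancel]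
  exact HoldsAll.der mul (HoldsAll.der mul (HoldsAll.der mul h0 5 6) 5 7) 5 8

/-- the linearised identity -/
theorem pa_lin [Infinite F] (comm : ∀ x y, mul x y = mul y x)
    (hpa : ∀ x, mul (mul x x) (mul x x) = mul x (mul x (mul x x))) (x y : V) :
    (4 : F) • mul (mul x x) (mul x y) =
      mul (mul x (mul x x)) y + mul x (mul (mul x x) y) +
        (2 : F) • mul x (mul x (mul x y)) := by
  have h0 : HoldsAll mul pa0 := by
    intro ρ
    simp only [pa0, evP, T.ev, Int.cast_one, Int.cast_neg, one_smul, neg_smul, hpa, add_zero,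
      add_neg_cancel]
  have h1 := HoldsAll.der mul h0 5 6 (fun n => if n = 5 then x else y)
  simp only [pa0, derP, T.der, evP, T.ev, Nat.beq, cond_true, List.map_cons,
    List.map_nil, List.append_nil, List.cons_append, List.nil_append, Int.cast_one,
    Int.cast_neg, one_smul, neg_smul, if_true] at h1
  simp only [reduceIte, Nat.reduceEqDiff, comm y x, comm (mul x y) (mul x x),
    comm y (mul x (mul x x)), comm y (mul x x)] at h1
  rw [← sub_eq_zero]
  rw [← h1]
  module

/-- the part of degree `(2, 2)` of the linearised identity -/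
theorem pa_quad [Infinite F] (comm : ∀ x y, mul x y = mul y x)
    (hpa : ∀ x, mul (mul x x) (mul x x) = mul x (mul x (mul x x))) (x y : V) :
    (4 : F) • mul (mul x x) (mul y y) + (8 : F) • mul (mul x y) (mul x y) =
      (2 : F) • mul x (mul x (mul y y)) + (4 : F) • mul x (mul y (mul x y)) +
        (2 : F) • mul y (mul y (mul x x)) + (4 : F) • mul y (mul x (mul x y)) := by
  have h0 : HoldsAll mul pa0 := by
    intro ρ
    simp only [pa0, evP, T.ev, Int.cast_one, Int.cast_neg, one_smul, neg_smul, hpa, add_zero,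
      add_neg_cancel]
  have h1 := HoldsAll.der mul (HoldsAll.der mul h0 5 6) 5 6 (fun n => if n = 5 then x else y)
  simp only [pa0, derP, T.der, evP, T.ev, Nat.beq, cond_true, List.map_cons,
    List.map_nil, List.append_nil, List.cons_append, List.nil_append, Int.cast_one,
    Int.cast_neg, one_smul, neg_smul, if_true, cond_false] at h1
  simp only [reduceIte, Nat.reduceEqDiff, comm y x, comm (mul y y) (mul x x)] at h1
  rw [← sub_eq_zero]
  rw [← h1]
  module

/-- the assignment `x, x², x³, x⁴, a, b` -/
def rho (z a b : V) : Nat → V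
  | 1 => z
  | 2 => mul z z
  | 3 => mul z (mul z z)
  | 4 => mul (mul z z) (mul z z)
  | 5 => a
  | 6 => b
  | _ => 0

/-- if `x²x³ = 0` then `x⁵ = 0` -/
theorem five_of [CharZero F] (comm : ∀ x y, mul x y = mul y x)
    (hpa : ∀ x, mul (mul x x) (mul x x) = mul x (mul x (mul x x)))
    (h23 : ∀ z, mul (mul z z) (mul z (mul z z)) = 0) (z : V) :
    mul z (mul z (mul z (mul z z))) = 0 := by
  have h := pa_lin mul comm hpa z (mul z z)
  rw [h23, smul_zero, comm (mul z (mul z z)) (mul z z), h23, zero_add, hpa] at h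
  have h2 : (3 : F) • mul z (mul z (mul z (mul z z))) = 0 := by
    rw [h]
    module
  exact (smul_eq_zero.mp h2).resolve_left (by norm_num)

theorem pow_rho [CharZero F] (comm : ∀ x y, mul x y = mul y x)
    (hpa : ∀ x, mul (mul x x) (mul x x) = mul x (mul x (mul x x)))
    (h5 : ∀ z, mul z (mul z (mul z (mul z z))) = 0) (z a b : V) :
    Pow mul (rho mul z a b) := by
  have hl := pa_lin mul comm hpa
  have e13 : mul z (mul z (mul z z)) = mul (mul z z) (mul z z) := (hpa z).symm
  have h14 : mul z (mul (mul z z) (mul z z)) = 0 := by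
    rw [← e13]
    exact h5 z
  have h23 : mul (mul z z) (mul z (mul z z)) = 0 := by
    have h := hl z (mul z z)
    rw [comm (mul z (mul z z)) (mul z z), e13, h14, smul_zero, add_zero, add_zero] at h
    have h2 : (3 : F) • mul (mul z z) (mul z (mul z z)) = 0 := by
      calc (3 : F) • mul (mul z z) (mul z (mul z z))
          = (4 : F) • mul (mul z z) (mul z (mul z z)) - mul (mul z z) (mul z (mul z z)) := by
            module
        _ = 0 := by rw [h, sub_self]
    exact (smul_eq_zero.mp h2).resolve_left (by norm_num)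
  have h33' : (4 : F) • mul (mul z z) (mul (mul z z) (mul z z)) =
      mul (mul z (mul z z)) (mul z (mul z z)) := by
    have h := hl z (mul z (mul z z))
    rw [e13, h23, h14, map_zero, smul_zero, add_zero, add_zero] at h
    exact h
  have h24' : (4 : F) • mul (mul z (mul z z)) (mul z (mul z z)) =
      mul (mul z z) (mul (mul z z) (mul z z)) := by
    have h := pa_quad mul comm hpa z (mul z z)
    rw [h14, h23, e13, map_zero, smul_zero, zero_add, smul_zero, zero_add] at h
    have h2 : (2 : F) • ((4 : F) • mul (mul z (mul z z)) (mul z (mul z z)) -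
        mul (mul z z) (mul (mul z z) (mul z z))) = 0 := by
      calc (2 : F) • ((4 : F) • mul (mul z (mul z z)) (mul z (mul z z)) -
            mul (mul z z) (mul (mul z z) (mul z z)))
          = ((4 : F) • mul (mul z z) (mul (mul z z) (mul z z)) +
              (8 : F) • mul (mul z (mul z z)) (mul z (mul z z))) -
            ((2 : F) • mul (mul z z) (mul (mul z z) (mul z z)) +
              (4 : F) • mul (mul z z) (mul (mul z z) (mul z z))) := by
            module
        _ = 0 := by rw [h, sub_self]
    exact sub_eq_zero.mp ((smul_eq_zero.mp h2).resolve_left (by norm_num))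
  have h24 : mul (mul z z) (mul (mul z z) (mul z z)) = 0 := by
    have h2 : (15 : F) • mul (mul z z) (mul (mul z z) (mul z z)) = 0 := by
      calc (15 : F) • mul (mul z z) (mul (mul z z) (mul z z))
          = (4 : F) • ((4 : F) • mul (mul z z) (mul (mul z z) (mul z z))) -
            mul (mul z z) (mul (mul z z) (mul z z)) := by module
        _ = 0 := by rw [h33', h24', sub_self]
    exact (smul_eq_zero.mp h2).resolve_left (by norm_num)
  have h33 : mul (mul z (mul z z)) (mul z (mul z z)) = 0 := by
    rw [← h33', h24, smul_zero]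
  have h34 : mul (mul z (mul z z)) (mul (mul z z) (mul z z)) = 0 := by
    have h := hl z (mul (mul z z) (mul z z))
    rw [h14, h24, map_zero, map_zero, map_zero, smul_zero, add_zero, smul_zero, add_zero] at h
    exact h.symm
  have h44 : mul (mul (mul z z) (mul z z)) (mul (mul z z) (mul z z)) = 0 := by
    rw [hpa (mul z z), h24, map_zero]
  have h13 : mul z (mul z (mul z z)) = mul (mul z z) (mul z z) := e13
  intro i j hi hj hi4 hj4
  have c13 := comm z (mul z (mul z z))
  interval_cases i <;> interval_cases j <;>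
    simp only [rho, Nat.reduceAdd, Nat.reduceLeDiff, if_true, if_false] <;>
    first
      | rfl
      | assumption
      | (rw [comm] <;> assumption)

theorem cu3_mem [Infinite F] (φ : V →ₗ[F] F) (h : ∀ x, φ (x3 mul x) = 0) (ρ : Nat → V) :
    evP mul ρ cu3 ∈ LinearMap.ker φ := by
  refine holdsMod_der mul φ (fun ρ => holdsMod_der mul φ (fun ρ => ?_) 5 6 ρ) 5 7 ρ
  have h1 := h (ρ 5)
  unfold x3 at h1
  simp only [cu0, evP, T.ev, Int.cast_one, one_smul, add_zero, LinearMap.mem_ker]
  exact h1

end sound

/-- **Main theorem.** -/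
theorem main {F : Type u} [Field F] [CharZero F] {V : Type w} [AddCommGroup V]
    [Module F V] [FiniteDimensional F V] (m : V →ₗ[F] V →ₗ[F] V)
    (comm : ∀ x y, m x y = m y x)
    (perf : Submodule.span F {z : V | ∃ a b : V, z = m a b} = ⊤)
    (hpa4 : ∀ x, m (m x x) (m x x) = m x (m x (m x x)))
    (h5 : ∀ z, m z (m z (m z (m z z))) = 0)
    (g : List (Int × T)) (hg : HoldsAll m g) (Js : List (List Job)) (fin : List Cert)
    (tc : Int × List (Int × Nat × Nat × Nat) × List (Int × Nat × Nat))
    (hok : okAll g Js fin tc = true) : Subsingleton V := by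
  unfold okAll at hok
  rw [Bool.and_eq_true, Bool.and_eq_true] at hok
  obtain ⟨⟨k1, k2⟩, k3⟩ := hok
  have hp4 := pa4_all m hpa4
  have hbase : ∀ ρ : Nat → V, ∀ p ∈ [pa4, g], HoldsAt m ⊥ ρ p := by
    intro ρ p hp
    rcases List.mem_cons.mp hp with rfl | hp
    · exact hp4.at m ⊥ ρ
    · rcases List.mem_singleton.mp hp with rfl
      exact hg.at m ⊥ ρ
  have hall : ∀ z a b : V, ∀ p ∈ tgts, HoldsAt m ⊥ (rho m z a b) p := by
    intro z a b
    have hpow := pow_rho m comm hpa4 h5 z a b
    exact checkC_sound m comm hpow _ (all_sound m comm hpow Js _ (hbase _) k1) _ _ k2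
  have ev : ∀ z a b : V, ∀ p ∈ tgts, evP m (rho m z a b) p = 0 := by
    intro z a b p hp
    have := hall z a b p hp (rho m z a b) (fun n _ _ => rfl)
    simpa using this
  have c33 : ∀ z a : V, m (x3 m z) (m (x3 m z) a) = 0 := by
    intro z a
    have h := ev z a 0 _ (List.mem_iff_getElem.mpr ⟨0, by decide, rfl⟩)
    simp only [tgts, List.getElem_cons_zero, evP, T.ev, rho, Int.cast_one, one_smul,
      add_zero] at h
    exact h
  have t1 : ∀ z a b : V, m (m (x3 m z) a) (m (x3 m z) b) = 0 := by
    intro z a b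
    have h := ev z a b _ (List.mem_iff_getElem.mpr ⟨1, by decide, rfl⟩)
    simp only [tgts, List.getElem_cons_zero, List.getElem_cons_succ, evP, T.ev, rho, Int.cast_one,
      one_smul, add_zero] at h
    exact h
  have c34 : ∀ z a : V, m (x3 m z) (m (x4 m z) a) = 0 := by
    intro z a
    have h := ev z a 0 _ (List.mem_iff_getElem.mpr ⟨2, by decide, rfl⟩)
    simp only [tgts, List.getElem_cons_zero, List.getElem_cons_succ, evP, T.ev, rho, Int.cast_one,
      one_smul, add_zero] at h
    exact h
  have t2 : ∀ z a b : V, m (x3 m z) (m (m (x4 m z) a) b) + m (m (x4 m z) a) (m (x3 m z) b) = 0 := by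
    intro z a b
    have h := ev z a b _ (List.mem_iff_getElem.mpr ⟨3, by decide, rfl⟩)
    simp only [tgts, List.getElem_cons_zero, List.getElem_cons_succ, evP, T.ev, rho, Int.cast_one,
      one_smul, add_zero] at h
    exact h
  have c44 : ∀ z a : V, m (x4 m z) (m (x4 m z) a) = 0 := by
    intro z a
    have h := ev z a 0 _ (List.mem_iff_getElem.mpr ⟨4, by decide, rfl⟩)
    simp only [tgts, List.getElem_cons_zero, List.getElem_cons_succ, evP, T.ev, rho, Int.cast_one,
      one_smul, add_zero] at h
    exact h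
  have t6 : ∀ z a : V, m (m (x4 m z) a) (m (x4 m z) a) = 0 := by
    intro z a
    have h := ev z a 0 _ (List.mem_iff_getElem.mpr ⟨5, by decide, rfl⟩)
    simp only [tgts, List.getElem_cons_zero, List.getElem_cons_succ, evP, T.ev, rho, Int.cast_one,
      one_smul, add_zero] at h
    exact h
  have t3 : ∀ z a b : V, m (m (x4 m z) a) (m (m (x4 m z) a) b) = 0 := by
    intro z a b
    have h := ev z a b _ (List.mem_iff_getElem.mpr ⟨6, by decide, rfl⟩)
    simp only [tgts, List.getElem_cons_zero, List.getElem_cons_succ, evP, T.ev, rho, Int.cast_one,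
      one_smul, add_zero] at h
    exact h
  have t4 : ∀ z a b : V, m (m (x3 m z) a) (m (m (x4 m z) b) a) = 0 := by
    intro z a b
    have h := ev z a b _ (List.mem_iff_getElem.mpr ⟨7, by decide, rfl⟩)
    simp only [tgts, List.getElem_cons_zero, List.getElem_cons_succ, evP, T.ev, rho, Int.cast_one,
      one_smul, add_zero] at h
    exact h
  have t5 : ∀ z a b : V, m (m (m (x4 m z) a) b) (m (m (x4 m z) a) b) = 0 := by
    intro z a b
    have h := ev z a b _ (List.mem_iff_getElem.mpr ⟨8, by decide, rfl⟩)
    simp only [tgts, List.getElem_cons_zero, List.getElem_cons_succ, evP, T.ev, rho, Int.cast_one,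
      one_smul, add_zero] at h
    exact h
  have hT : ∀ φ : V →ₗ[F] F, (∀ x, φ (x3 m x) = 0) → ∀ x y z,
      φ (m (x4 m x) (m y z)) = (-4 : F) * φ (m (m x y) (m (m x x) (m x z))) := by
    intro φ hφ x y z
    have hpow := pow_rho m comm hpa4 h5 x y z
    unfold checkT at k3
    rw [Bool.and_eq_true] at k3
    have h1 := check_sound m comm hpow (LinearMap.ker φ) [pa4, g] [cu3] (hbase _) (by
      intro p hp
      rcases List.mem_singleton.mp hp with rfl
      intro ρ' _
      exact cu3_mem m φ hφ ρ') tc.1 (by simpa using k3.1) _ _ _ k3.2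
    have h2 := h1 (rho m x y z) (fun n _ _ => rfl)
    simp only [tT, evP, T.ev, rho, Int.cast_one, one_smul, add_zero, Int.cast_ofNat,
      LinearMap.mem_ker, map_add, map_smul, smul_eq_mul] at h2
    have h3 : φ (m (x4 m x) (m y z)) + 4 * φ (m (m x y) (m (m x x) (m x z))) = 0 := h2
    linear_combination h3
  have hp := fun z : V => pow_rho m comm hpa4 h5 z 0 0
  have h33 : ∀ z, m (x3 m z) (x3 m z) = 0 := fun z =>
    hp z 3 3 (by norm_num) (by norm_num) (by norm_num) (by norm_num)
  have h43 : ∀ z, m (x4 m z) (x3 m z) = 0 := fun z =>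
    hp z 4 3 (by norm_num) (by norm_num) (by norm_num) (by norm_num)
  refine stage5_mod m comm perf (pa_lin m comm hpa4) hT h43 c44 ?_ ?_ ?_
  · intro z w
    simp only [map_add, LinearMap.add_apply, h33, c34, t6, comm (m (x4 m z) w) (x3 m z), add_zero]
  · intro z w y
    have e : m (x3 m z + m (x4 m z) w) (m (x3 m z + m (x4 m z) w) y) =
        m (x3 m z) (m (x3 m z) y) +
        (m (x3 m z) (m (m (x4 m z) w) y) + m (m (x4 m z) w) (m (x3 m z) y)) +
        m (m (x4 m z) w) (m (m (x4 m z) w) y) := by
      simp only [map_add, LinearMap.add_apply]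
      abel
    rw [e, c33, t2, t3, add_zero, add_zero]
  · intro z w y
    simp only [map_add, LinearMap.add_apply, t1, t4, t5, add_zero,
      comm (m (m (x4 m z) w) y) (m (x3 m z) y)]

end Pool.Agent.Alb.Gen5
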