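import Mathlib
import Pool.Agent.Lib_MP_380d39.ChkPol
import Pool.Agent.Lib_MP_380d39.HandS5d

set_option autoImplicit false

/-!
# Sequences of certificates

A job consists of a denominator, an identity and packed lines of a certificate.  The jobs are
checked one after the other; the lines of a job refer to the identities before it.  Commutative
algebras with `(xx)(xx) = x(x(xx))` in which certain ten identities hold and which are perfect
are zero.
-/

namespace Pool.Agent.Alb.Sq

open Pool.Agent.Alb.Chk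

universe u w

def pa0 : List (Int × T) :=
  [(1, .m (.m (.v 5) (.v 5)) (.m (.v 5) (.v 5))), (-1, .m (.v 5) (.m (.v 5) (.m (.v 5) (.v 5))))]

def pa4 : List (Int × T) := derP 5 8 (derP 5 7 (derP 5 6 pa0))

/-- lines of a certificate from a packed number -/
def decode : Nat → Nat → List (Int × Nat × Nat × Nat)
  | 0, _ => []
  | f + 1, n =>
    bif Nat.beq n 0 then [] else
      (fun i n1 =>
        (fun sg n2 =>
          (fun lc n3 =>
            (fun c n4 =>
              (fun la n5 =>
                (fun a n6 =>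
                  (fun lp n7 =>
                    ((bif Nat.beq sg 0 then Int.ofNat c else Int.negOfNat c), i, a,
                      n7 % 16 ^ lp) :: decode f (n7 / 16 ^ lp))
                  (n6 % 256) (n6 / 256))
                (n5 % 16 ^ la) (n5 / 16 ^ la))
              (n4 % 256) (n4 / 256))
            (n3 % 256 ^ lc) (n3 / 256 ^ lc))
          (n2 % 256) (n2 / 256))
        (n1 % 2) (n1 / 2))
      (n % 65536) (n / 65536)

def decodeL : List Nat → List (Int × Nat × Nat × Nat)
  | [] => []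
  | n :: r => decode 100 n ++ decodeL r

/-- denominator, identity, packed lines -/
abbrev Job := Int × List (Int × T) × List Nat

def checkJ (ids : List (List (Int × T))) (j : Job) : Bool :=
  (!(decide (j.1 = 0))) && check ids [] j.1 j.2.1 (decodeL j.2.2) []

def checkAll : List (List (Int × T)) → List Job → Bool
  | _, [] => true
  | ids, j :: r => checkJ ids j && checkAll (j.2.1 :: ids) r

def allIds : List (List (Int × T)) → List Job → List (List (Int × T))
  | ids, [] => ids
  | ids, j :: r => allIds (j.2.1 :: ids) r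

section sound

variable {F : Type u} [Field F] {V : Type w} [AddCommGroup V] [Module F V]
  (mul : V →ₗ[F] V →ₗ[F] V)

theorem job_sound [CharZero F] {ρ : Nat → V} (comm : ∀ x y, mul x y = mul y x)
    (hρ : Pow mul ρ) (ids : List (List (Int × T))) (hids : ∀ p ∈ ids, HoldsAt mul ⊥ ρ p)
    (j : Job) (h : checkJ ids j = true) : HoldsAt mul ⊥ ρ j.2.1 := by
  unfold checkJ at h
  rw [Bool.and_eq_true] at h
  refine check_sound mul comm hρ ⊥ ids [] hids (by simp) j.1 ?_ _ _ _ h.2
  simpa using h.1

theorem seq_sound [CharZero F] {ρ : Nat → V} (comm : ∀ x y, mul x y = mul y x)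
    (hρ : Pow mul ρ) (jobs : List Job) :
    ∀ (ids : List (List (Int × T))), (∀ p ∈ ids, HoldsAt mul ⊥ ρ p) →
      checkAll ids jobs = true → ∀ p ∈ allIds ids jobs, HoldsAt mul ⊥ ρ p := by
  induction jobs with
  | nil => exact fun ids hids _ => hids
  | cons j r ih =>
    intro ids hids h
    simp only [checkAll, Bool.and_eq_true] at h
    refine ih (j.2.1 :: ids) ?_ h.2
    intro p hp
    rcases List.mem_cons.mp hp with rfl | hp
    · exact job_sound mul comm hρ ids hids j h.1
    · exact hids p hp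

theorem jobs_sound [CharZero F] {ρ : Nat → V} (comm : ∀ x y, mul x y = mul y x)
    (hρ : Pow mul ρ) (ids : List (List (Int × T))) (hids : ∀ p ∈ ids, HoldsAt mul ⊥ ρ p)
    (jobs : List Job) (h : jobs.all (checkJ ids) = true) :
    ∀ p ∈ jobs.map (fun j => j.2.1), HoldsAt mul ⊥ ρ p := by
  intro p hp
  obtain ⟨j, hj, rfl⟩ := List.mem_map.mp hp
  rw [List.all_eq_true] at h
  exact job_sound mul comm hρ ids hids j (h j hj)

theorem pa4_all [Infinite F] (hpa : ∀ x, mul (mul x x) (mul x x) = mul x (mul x (mul x x))) :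
    HoldsAll mul pa4 := by
  have h0 : HoldsAll mul pa0 := by
    intro ρ
    simp only [pa0, evP, T.ev, Int.cast_one, Int.cast_neg, one_smul, neg_smul, hpa, add_zero,
      add_neg_cancel]
  exact HoldsAll.der mul (HoldsAll.der mul (HoldsAll.der mul h0 5 6) 5 7) 5 8

/-- the linearised identity -/
theorem pa_lin [Infinite F] (comm : ∀ x y, mul x y = mul y x)
    (hpa : ∀ x, mul (mul x x) (mul x x) = mul x (mul x (mul x x))) (x y : V) :
    (4 : F) • mul (mul x x) (mul x y) =
      mul (mul x (mul x x)) y + mul x (mul (mul x x) y) +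
        (2 : F) • mul x (mul x (mul x y)) := by
  have h0 : HoldsAll mul pa0 := by
    intro ρ
    simp only [pa0, evP, T.ev, Int.cast_one, Int.cast_neg, one_smul, neg_smul, hpa, add_zero,
      add_neg_cancel]
  have h1 := HoldsAll.der mul h0 5 6 (fun n => if n = 5 then x else y)
  simp only [pa0, derP, T.der, evP, T.ev, Nat.beq, cond_true, List.map_cons,
    List.map_nil, List.append_nil, List.cons_append, List.nil_append, Int.cast_one,
    Int.cast_neg, one_smul, neg_smul, if_true] at h1
  simp only [reduceIte, Nat.reduceEqDiff, comm y x, comm (mul x y) (mul x x),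
    comm y (mul x (mul x x)), comm y (mul x x)] at h1
  rw [← sub_eq_zero]
  rw [← h1]
  module

/-- the assignment `x, x², x³, x⁴, a, b` -/
def rho (z a b : V) : Nat → V
  | 1 => z
  | 2 => mul z z
  | 3 => mul z (mul z z)
  | 4 => mul (mul z z) (mul z z)
  | 5 => a
  | 6 => b
  | _ => 0

theorem pow_rho [Infinite F] (comm : ∀ x y, mul x y = mul y x)
    (hpa : ∀ x, mul (mul x x) (mul x x) = mul x (mul x (mul x x)))
    (h14 : ∀ z, mul z (mul (mul z z) (mul z z)) = 0)
    (h23 : ∀ z, mul (mul z z) (mul z (mul z z)) = 0)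
    (h24 : ∀ z, mul (mul z z) (mul (mul z z) (mul z z)) = 0) (z a b : V) :
    Pow mul (rho mul z a b) := by
  have hl := pa_lin mul comm hpa
  have e13 : mul z (mul z (mul z z)) = mul (mul z z) (mul z z) := (hpa z).symm
  have h33 : mul (mul z (mul z z)) (mul z (mul z z)) = 0 := by
    have h := hl z (mul z (mul z z))
    rw [e13, h24, h23, h14, smul_zero, map_zero, smul_zero, add_zero, add_zero] at h
    exact h.symm
  have h34 : mul (mul z (mul z z)) (mul (mul z z) (mul z z)) = 0 := by
    have h := hl z (mul (mul z z) (mul z z))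
    simp only [h14, h24, map_zero, smul_zero, add_zero] at h
    exact h.symm
  have h44 : mul (mul (mul z z) (mul z z)) (mul (mul z z) (mul z z)) = 0 := by
    rw [hpa (mul z z), h24, map_zero]
  have h14 := h14 z
  have h23 := h23 z
  have h24 := h24 z
  have h13 : mul z (mul z (mul z z)) = mul (mul z z) (mul z z) := e13
  intro i j hi hj hi4 hj4
  have c13 := comm z (mul z (mul z z))
  interval_cases i <;> interval_cases j <;>
    simp only [rho, Nat.reduceAdd, Nat.reduceLeDiff, if_true, if_false] <;>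
    first
      | rfl
      | assumption
      | (rw [comm] <;> assumption)

/-- the identities used by `fin_sub` -/
def tgts : List (List (Int × T)) :=
  [[(1, .m (.m (.v 3) (.v 5)) (.m (.v 3) (.v 5)))],
   [(1, .m (.v 3) (.m (.v 6) (.m (.v 4) (.v 5)))), (1, .m (.m (.v 3) (.v 6)) (.m (.v 4) (.v 5)))],
   [(1, .m (.m (.v 4) (.v 5)) (.m (.v 6) (.m (.v 4) (.v 5))))],
   [(1, .m (.m (.v 3) (.v 5)) (.m (.v 5) (.m (.v 4) (.v 6))))],
   [(1, .m (.m (.v 5) (.m (.v 4) (.v 6))) (.m (.v 5) (.m (.v 4) (.v 6))))],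
   [(1, .m (.m (.v 4) (.v 5)) (.m (.v 4) (.v 5)))],
   [(1, .m (.v 3) (.m (.v 3) (.v 5)))],
   [(1, .m (.v 3) (.m (.v 4) (.v 5)))],
   [(1, .m (.v 4) (.m (.v 4) (.v 5)))]]

/-- the formula for `x⁴(yz)` -/
def hTp : List (Int × T) :=
  [(1, .m (.v 4) (.m (.v 5) (.v 6))),
   (4, .m (.m (.v 1) (.v 5)) (.m (.v 2) (.m (.v 1) (.v 6))))]

/-- the cube and its polarisation -/
def cub0 : List (Int × T) := [(1, .m (.v 5) (.m (.v 5) (.v 5)))]

def cub : List (Int × T) := derP 5 7 (derP 5 6 cub0)

end sound

theorem fin_sub {F : Type u} [Field F] [CharZero F] {V : Type w} [AddCommGroup V]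
    [Module F V] [FiniteDimensional F V] (m : V →ₗ[F] V →ₗ[F] V)
    (comm : ∀ x y, m x y = m y x)
    (perf : Submodule.span F {z : V | ∃ a b : V, z = m a b} = ⊤)
    (hpa4 : ∀ x, m (m x x) (m x x) = m x (m x (m x x)))
    (hpow : ∀ z a b, Pow m (rho m z a b))
    (hall : ∀ z a b : V, ∀ p ∈ tgts, HoldsAt m ⊥ (rho m z a b) p)
    (hT : ∀ φ : V →ₗ[F] F, (∀ x, φ (x3 m x) = 0) → ∀ z a b,
      HoldsAt m (LinearMap.ker φ) (rho m z a b) hTp) : Subsingleton V := by
  have get : ∀ (z a b : V) (n : Nat) (hn : n < tgts.length),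
      evP m (rho m z a b) (tgts[n]) = 0 := by
    intro z a b n hn
    have := hall z a b _ (List.getElem_mem hn) (rho m z a b) (fun _ _ _ => rfl)
    exact (Submodule.mem_bot F).mp this
  have ev : ∀ (z a b : V) (p : List (Int × T)), evP m (rho m z a b) p = 0 →
      evP m (rho m z a b) p = 0 := fun _ _ _ _ h => h
  have t1 : ∀ z a : V, m (m (x3 m z) a) (m (x3 m z) a) = 0 := by
    intro z a
    have h := ev z a 0 [(1, .m (.m (.v 3) (.v 5)) (.m (.v 3) (.v 5)))]
      (get z a 0 0 (by decide))
    simp only [evP, T.ev, rho, Int.cast_one, one_smul, add_zero] at h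
    exact h
  have t2 : ∀ z a b : V,
      m (x3 m z) (m (m (x4 m z) a) b) + m (m (x4 m z) a) (m (x3 m z) b) = 0 := by
    intro z a b
    have h := ev z a b [(1, .m (.v 3) (.m (.v 6) (.m (.v 4) (.v 5)))),
      (1, .m (.m (.v 3) (.v 6)) (.m (.v 4) (.v 5)))] (get z a b 1 (by decide))
    simp only [evP, T.ev, rho, Int.cast_one, one_smul, add_zero] at h
    rw [comm (m (x4 m z) a) b, comm (m (x4 m z) a) (m (x3 m z) b)]
    exact h
  have t3 : ∀ z a b : V, m (m (x4 m z) a) (m (m (x4 m z) a) b) = 0 := by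
    intro z a b
    have h := ev z a b [(1, .m (.m (.v 4) (.v 5)) (.m (.v 6) (.m (.v 4) (.v 5))))]
      (get z a b 2 (by decide))
    simp only [evP, T.ev, rho, Int.cast_one, one_smul, add_zero] at h
    rw [comm (m (x4 m z) a) b]
    exact h
  have t6 : ∀ z a : V, m (m (x4 m z) a) (m (x4 m z) a) = 0 := by
    intro z a
    have h := ev z a 0 [(1, .m (.m (.v 4) (.v 5)) (.m (.v 4) (.v 5)))]
      (get z a 0 5 (by decide))
    simp only [evP, T.ev, rho, Int.cast_one, one_smul, add_zero] at h
    exact h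
  have hT' : ∀ φ : V →ₗ[F] F, (∀ x, φ (x3 m x) = 0) → ∀ x y z,
      φ (m (x4 m x) (m y z)) = (-4 : F) * φ (m (m x y) (m (m x x) (m x z))) := by
    intro φ hφ z a b
    have h2 := hT φ hφ z a b (rho m z a b) (fun _ _ _ => rfl)
    rw [LinearMap.mem_ker] at h2
    simp only [hTp, evP, T.ev, rho, Int.cast_one, one_smul, add_zero, Int.cast_ofNat, map_add,
      map_smul, smul_eq_mul] at h2
    show φ (m (m (m z z) (m z z)) (m a b)) = _
    linear_combination h2
  have c34 : ∀ z a : V, m (x3 m z) (m (x4 m z) a) = 0 := by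
    intro z a
    have h := ev z a 0 [(1, .m (.v 3) (.m (.v 4) (.v 5)))] (get z a 0 7 (by decide))
    simp only [evP, T.ev, rho, Int.cast_one, one_smul, add_zero] at h
    exact h
  have c44 : ∀ z a : V, m (x4 m z) (m (x4 m z) a) = 0 := by
    intro z a
    have h := ev z a 0 [(1, .m (.v 4) (.m (.v 4) (.v 5)))] (get z a 0 8 (by decide))
    simp only [evP, T.ev, rho, Int.cast_one, one_smul, add_zero] at h
    exact h
  have c33 : ∀ z a : V, m (x3 m z) (m (x3 m z) a) = 0 := by
    intro z a
    have h := ev z a 0 [(1, .m (.v 3) (.m (.v 3) (.v 5)))] (get z a 0 6 (by decide))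
    simp only [evP, T.ev, rho, Int.cast_one, one_smul, add_zero] at h
    exact h
  have t4 : ∀ z a b : V, m (m (x3 m z) a) (m (m (x4 m z) b) a) = 0 := by
    intro z a b
    have h := ev z a b [(1, .m (.m (.v 3) (.v 5)) (.m (.v 5) (.m (.v 4) (.v 6))))]
      (get z a b 3 (by decide))
    simp only [evP, T.ev, rho, Int.cast_one, one_smul, add_zero] at h
    rw [comm (m (x4 m z) b) a]
    exact h
  have t5 : ∀ z a b : V, m (m (m (x4 m z) b) a) (m (m (x4 m z) b) a) = 0 := by
    intro z a b
    have h := ev z a b [(1, .m (.m (.v 5) (.m (.v 4) (.v 6))) (.m (.v 5) (.m (.v 4) (.v 6))))]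
      (get z a b 4 (by decide))
    simp only [evP, T.ev, rho, Int.cast_one, one_smul, add_zero] at h
    rw [comm (m (x4 m z) b) a]
    exact h
  have hp := fun z : V => hpow z 0 0
  have h33 : ∀ z, m (x3 m z) (x3 m z) = 0 := fun z =>
    hp z 3 3 (by norm_num) (by norm_num) (by norm_num) (by norm_num)
  have h43 : ∀ z, m (x4 m z) (x3 m z) = 0 := fun z =>
    hp z 4 3 (by norm_num) (by norm_num) (by norm_num) (by norm_num)
  refine stage5_mod m comm perf (pa_lin m comm hpa4) hT' h43 c44 ?_ ?_ ?_
  · intro z w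
    simp only [map_add, LinearMap.add_apply, h33, c34, t6, comm (m (x4 m z) w) (x3 m z), add_zero]
  · intro z w y
    have e : m (x3 m z + m (x4 m z) w) (m (x3 m z + m (x4 m z) w) y) =
        m (x3 m z) (m (x3 m z) y) +
        (m (x3 m z) (m (m (x4 m z) w) y) + m (m (x4 m z) w) (m (x3 m z) y)) +
        m (m (x4 m z) w) (m (m (x4 m z) w) y) := by
      simp only [map_add, LinearMap.add_apply]
      abel
    rw [e, c33, t2, t3, add_zero, add_zero]
  · intro z w y
    simp only [map_add, LinearMap.add_apply, t1, t4, t5, add_zero,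
      comm (m (m (x4 m z) w) y) (m (x3 m z) y)]

/-- `cub` holds modulo the kernel of a linear form which vanishes at all cubes -/
theorem cub_holds {F : Type u} [Field F] [Infinite F] {V : Type w} [AddCommGroup V]
    [Module F V] (m : V →ₗ[F] V →ₗ[F] V) (φ : V →ₗ[F] F) (hφ : ∀ x, φ (x3 m x) = 0)
    (ρ : Nat → V) : ∀ p ∈ [cub], HoldsAt m (LinearMap.ker φ) ρ p := by
  have hc : ∀ ρ : Nat → V, evP m ρ cub0 ∈ LinearMap.ker φ := by
    intro ρ
    simp only [cub0, evP, T.ev, Int.cast_one, one_smul, add_zero, LinearMap.mem_ker]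
    exact hφ (ρ 5)
  have hc1 := holdsMod_der m φ hc 5 6
  have hc2 := holdsMod_der m φ hc1 5 7
  intro p hp
  rw [List.mem_singleton] at hp
  rw [hp]
  intro ρ' _
  exact hc2 ρ'

end Pool.Agent.Alb.Sq
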