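import Mathlib
import Pool.Agent.Lib_MP_380d39.Gen5

set_option autoImplicit false

/-!
# The word y(x(y(xx)))

Kernel-checked certificates (448 lines) for the class of the word y(x(y(xx))).
-/

namespace Pool.Agent.Alb.W0140

open Pool.Agent.Alb.Chk Pool.Agent.Alb.Gen5

universe u w

def g0 : List (Int × T) := [(1, .m (.v 6) (.m (.v 5) (.m (.v 6) (.m (.v 5) (.v 5)))))]

def g5 : List (Int × T) := derP 6 9 (derP 5 8 (derP 5 7 g0))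

/-- certificates of level 1 -/
def jobs1 : List Job := [
  (36, [(8, .m (.v 2) (.m (.v 5) (.v 2))), (-4, .m (.v 1) (.m (.v 5) (.v 3))), (20, .m (.v 3) (.m (.v 5) (.v 1))), (-1, .m (.v 5) (.v 4))],
    [(48, 0, 4389, 0), (8, 0, 1122069, 0), (10, 0, 4373, 1), (42, 1, 69909, 0), (27, 1, 69969, 0)]),
  (12, [(4, .m (.v 1) (.m (.v 2) (.m (.v 5) (.v 1)))), (1, .m (.v 5) (.v 4))],
    [(2, 0, 4373, 1), (3, 1, 69969, 0), (2, 1, 69909, 0)]),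
  (6, [(2, .m (.v 1) (.m (.v 1) (.m (.v 5) (.m (.v 6) (.v 1))))), (4, .m (.v 5) (.m (.v 2) (.m (.v 6) (.v 1)))), (-1, .m (.v 5) (.m (.v 1) (.m (.v 6) (.v 2)))), (1, .m (.v 1) (.m (.v 6) (.m (.v 5) (.v 2))))],
    [(1, 0, 4374, 5), (3, 1, 69989, 0)]),
  (72, [(10, .m (.m (.v 5) (.v 1)) (.m (.v 1) (.m (.v 6) (.v 1)))), (-2, .m (.v 1) (.m (.v 5) (.m (.v 1) (.m (.v 6) (.v 1))))), (-1, .m (.v 5) (.m (.v 2) (.m (.v 6) (.v 1)))), (4, .m (.v 2) (.m (.v 5) (.m (.v 6) (.v 1)))), (4, .m (.m (.v 5) (.v 2)) (.m (.v 6) (.v 1))), (5, .m (.m (.v 5) (.v 1)) (.m (.v 6) (.v 2))), (-1, .m (.v 1) (.m (.v 5) (.m (.v 6) (.v 2)))), (-1, .m (.v 6) (.m (.v 5) (.v 3))), (5, .m (.v 3) (.m (.v 5) (.v 6)))],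
    [(48, 0, 4694, 0), (15, 0, 4438, 1), (12, 0, 1142549, 0), (48, 0, 1138454, 0), (63, 1, 69989, 0), (4, 0, 1122149, 0), (5, 0, 4373, 6), (27, 1, 69974, 0), (5, 0, 4374, 5), (27, 1, 71009, 0), (21, 1, 86294, 0)]),
  (6, [(2, .m (.v 5) (.m (.v 1) (.m (.v 1) (.m (.v 6) (.v 1))))), (-4, .m (.v 5) (.m (.v 2) (.m (.v 6) (.v 1)))), (1, .m (.v 5) (.m (.v 1) (.m (.v 6) (.v 2)))), (1, .m (.v 5) (.m (.v 6) (.v 3)))],
    [(-1, 0, 4374, 5)]),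
  (72, [(10, .m (.m (.v 6) (.v 1)) (.m (.v 1) (.m (.v 5) (.v 1)))), (2, .m (.v 1) (.m (.v 5) (.m (.v 1) (.m (.v 6) (.v 1))))), (1, .m (.v 5) (.m (.v 2) (.m (.v 6) (.v 1)))), (5, .m (.v 2) (.m (.v 6) (.m (.v 5) (.v 1)))), (1, .m (.v 2) (.m (.v 5) (.m (.v 6) (.v 1)))), (1, .m (.m (.v 5) (.v 2)) (.m (.v 6) (.v 1))), (1, .m (.v 1) (.m (.v 5) (.m (.v 6) (.v 2)))), (5, .m (.v 2) (.m (.v 1) (.m (.v 5) (.v 6)))), (1, .m (.v 6) (.m (.v 5) (.v 3)))],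
    [(12, 0, 4694, 0), (15, 0, 4438, 1), (12, 0, 1138454, 0), (48, 0, 1142549, 0), (27, 1, 69989, 0), (5, 0, 4373, 6), (16, 0, 1122149, 0), (63, 1, 69974, 0), (5, 0, 4374, 5), (63, 1, 71009, 0), (9, 1, 86294, 0)]),
  (6, [(1, .m (.v 5) (.m (.v 1) (.m (.v 1) (.m (.v 6) (.v 2))))), (1, .m (.v 5) (.m (.v 6) (.v 4)))],
    [(1, 1, 69910, 5)]),
  (12, [(16, .m (.v 2) (.m (.v 1) (.m (.v 5) (.v 1)))), (4, .m (.v 1) (.m (.v 5) (.v 3))), (-4, .m (.v 3) (.m (.v 5) (.v 1))), (1, .m (.v 5) (.v 4))],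
    [(2, 0, 4373, 1), (8, 0, 1122069, 0), (2, 1, 69909, 0), (15, 1, 69969, 0)]),
  (12, [(1, .m (.v 2) (.m (.v 1) (.m (.v 5) (.v 2))))],
    [(2, 1, 74005, 0), (-1, 1, 279620, 0)]),
  (12, [(1, .m (.v 2) (.m (.v 5) (.v 4)))],
    [(3, 1, 74066, 0), (-4, 1, 18947861, 0), (2, 1, 279620, 0)]),
  (12, [(1, .m (.v 2) (.m (.v 1) (.m (.v 2) (.m (.v 5) (.v 1)))))],
    [(2, 1, 18947861, 0), (-1, 1, 279620, 0)])]

/-- certificates of level 2 -/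
def jobs2 : List Job := [
  (12, [(2, .m (.v 2) (.m (.v 2) (.m (.v 5) (.v 6)))), (-1, .m (.v 1) (.m (.v 3) (.m (.v 5) (.v 6)))), (5, .m (.v 3) (.m (.v 1) (.m (.v 5) (.v 6))))],
    [(3, 2, 3941, 0), (-3, 1, 136545, 0), (2, 1, 86294, 1), (3, 3, 3941, 0)]),
  (1152, [(2, .m (.v 2) (.m (.v 6) (.m (.v 1) (.m (.v 5) (.v 1))))), (2, .m (.m (.v 5) (.v 1)) (.m (.v 6) (.v 3))), (1, .m (.v 2) (.m (.v 6) (.m (.v 5) (.v 2))))],
    [(96, 0, 1138470, 0), (-480, 7, 61797, 0), (-321, 0, 4438, 17), (3960, 5, 101, 1), (12, 0, 8790, 0), (36, 0, 4438, 2), (-96, 7, 61782, 0), (96, 5, 28437, 0), (-7680, 1, 70230, 0), (1272, 1, 71010, 0), (-9660, 1, 17953125, 0), (990, 2, 6, 5), (-3840, 1, 86310, 0), (19320, 6, 86, 1), (18678, 4, 86, 1), (-120, 7, 63057, 0), (-324, 1, 74070, 0), (80, 0, 287306070, 0), (3864, 7, 81, 6), (258, 6, 101, 1), (-129, 1, 69974, 1), (-24, 6,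 61797, 0), (12, 1, 17915670, 0), (-15456, 4, 28437, 0), (48, 1, 17953110, 0), (636, 1, 74085, 0), (-144, 6, 61782, 0), (1272, 1, 17919765, 0), (-9660, 1, 18215265, 0), (48, 1, 18280785, 0), (9339, 1, 71009, 1), (-43, 1, 86294, 1), (4, 1, 22093590, 0), (2560, 1, 69909, 6), (-642, 3, 6, 5), (64, 1, 69910, 5), (4830, 1, 69985, 5), (-4830, 1, 17954385, 0), (4, 1, 17899365, 0), (-3192, 3, 5, 6), (-232, 1, 23142165, 0), (-24, 1, 69969, 6)]),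
  (96, [(1, .m (.v 3) (.m (.v 5) (.v 3)))],
    [(6, 2, 3877, 0), (-16, 0, 1122101, 0), (20, 0, 8741, 0), (-48, 1, 69925, 1), (30, 1, 74066, 0), (96, 1, 74021, 0), (12, 1, 69941, 0), (-570, 3, 3877, 0), (16, 1, 17899301, 0), (-24, 1, 70181, 0), (-40, 1, 18947861, 0), (285, 1, 135761, 0), (-20, 1, 78101, 0), (-73, 1, 279620, 0)]),
  (24, [(1, .m (.v 2) (.m (.v 2) (.m (.v 5) (.v 2))))],
    [(-2, 0, 8741, 0), (-3, 1, 74066, 0), (48, 3, 3877, 0), (4, 1, 18947861, 0), (-24, 1, 135761, 0), (5, 1, 279620, 0)]),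
  (2880, [(1, .m (.v 3) (.m (.v 5) (.v 2)))],
    [(150, 0, 4645, 0), (30, 0, 4373, 2), (390, 1, 69970, 0), (-75, 9, 3861, 0), (-15, 2, 3861, 0), (12, 2, 5, 1), (-80, 0, 1122085, 0), (-2388, 1, 70225, 0), (492, 3, 5, 1), (1432, 1, 69909, 1), (2388, 3, 3861, 0), (-588, 1, 17899285, 0), (12, 1, 69925, 0), (450, 1, 74005, 0), (-156, 1, 279620, 0)]),
  (240, [(1, .m (.v 2) (.m (.v 3) (.m (.v 5) (.v 1))))],
    [(12, 2, 5, 2), (10, 0, 8741, 0), (18, 1, 74066, 0), (12, 1, 74021, 0), (-240, 3, 3877, 0), (120, 1, 135761, 0), (-24, 1, 18947861, 0), (-29, 1, 279620, 0)]),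
  (144, [(1, .m (.v 1) (.m (.v 3) (.m (.v 5) (.v 1))))],
    [(-15, 0, 4405, 0), (5, 0, 1122085, 0), (2, 0, 4373, 2), (66, 1, 69970, 0), (6, 2, 5, 1), (-15, 9, 3861, 0), (-6, 2, 3861, 0), (471, 1, 70225, 0), (-246, 3, 5, 1), (-304, 1, 69909, 1), (-471, 3, 3861, 0), (120, 1, 17899285, 0), (-9, 1, 69925, 0), (-18, 1, 74005, 0), (6, 1, 279620, 0)]),
  (720, [(1, .m (.v 2) (.m (.v 5) (.v 3)))],
    [(-30, 0, 4405, 0), (10, 0, 1122085, 0), (-120, 9, 3861, 0), (-30, 2, 3861, 0), (12, 2, 5, 1), (10, 0, 4373, 2), (510, 1, 69970, 0), (2382, 1, 70225, 0), (-1248, 3, 5, 1), (-1568, 1, 69909, 1), (-2382, 3, 3861, 0), (492, 1, 17899285, 0), (-18, 1, 69925, 0), (-30, 1, 74005, 0), (9, 1, 279620, 0)]),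
  (3, [(4, .m (.v 1) (.m (.v 5) (.m (.v 2) (.m (.v 6) (.v 1))))), (1, .m (.v 6) (.m (.v 5) (.v 4)))],
    [(-12, 5, 86, 1), (24, 1, 70245, 0), (12, 1, 86310, 0), (30, 1, 17953110, 0), (-60, 6, 101, 1), (-60, 4, 101, 1), (-12, 7, 97, 5), (48, 4, 24342, 0), (-3, 2, 5, 6), (-30, 1, 71009, 1), (30, 1, 18280785, 0), (-15, 1, 69969, 6), (-8, 1, 69910, 5), (15, 1, 17954385, 0), (12, 3, 6, 5)]),
  (48, [(1, .m (.v 2) (.m (.v 1) (.m (.v 5) (.v 3))))],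
    [(2, 0, 8741, 0), (3, 1, 74066, 0), (-48, 3, 3877, 0), (12, 1, 74021, 0), (24, 1, 135761, 0), (-4, 1, 18947861, 0), (-11, 1, 279620, 0)]),
  (3, [(1, .m (.v 1) (.m (.v 5) (.v 4)))],
    [(-12, 1, 70225, 0), (12, 3, 3861, 0), (-2, 1, 17899285, 0), (3, 3, 5, 1), (8, 1, 69909, 1)]),
  (1, [(1, .m (.v 4) (.m (.v 5) (.v 4)))],
    [(-1, 2, 3909, 0), (2, 0, 9013, 0), (4, 1, 74293, 0), (2, 1, 78373, 0), (4, 1, 78133, 0), (-1, 1, 70453, 0), (-7, 1, 279620, 0)]),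
  (768, [(1, .m (.v 4) (.m (.v 1) (.m (.v 5) (.v 1))))],
    [(-3, 1, 17953361, 0), (-48, 3, 5, 17), (4, 1, 69909, 17), (6, 1, 69941, 0), (-192, 3, 3861, 1), (32, 1, 17899285, 1), (128, 1, 4582273361, 0), (-3, 1, 279620, 0)]),
  (51, [(1, .m (.v 4) (.m (.v 2) (.m (.v 5) (.v 1))))],
    [(2, 0, 4373, 4), (-3, 2, 1044818, 0), (6, 1, 69972, 0), (6, 1, 74322, 0), (-6, 1, 17907477, 0), (-4, 1, 18947877, 0), (2, 1, 82197, 0), (10, 1, 19996437, 0), (-4, 1, 279620, 0)]),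
  (3, [(1, .m (.v 4) (.m (.v 5) (.v 6)))],
    [(-3, 1, 136545, 0), (2, 1, 86294, 1), (3, 3, 3941, 0)]),
  (3, [(1, .m (.v 4) (.m (.v 5) (.v 1)))],
    [(-3, 1, 70225, 0), (2, 1, 69909, 1), (3, 3, 3861, 0)]),
  (288, [(1, .m (.v 2) (.m (.v 1) (.m (.v 1) (.m (.v 5) (.v 1)))))],
    [(6, 0, 4405, 0), (-2, 0, 1122085, 0), (6, 2, 3861, 0), (12, 9, 5, 1), (-2, 0, 4373, 2), (24, 9, 3861, 0), (-30, 1, 69970, 0), (-198, 1, 70225, 0), (-6, 1, 69925, 0), (128, 1, 69909, 1), (96, 3, 5, 1), (-44, 1, 17899285, 0), (150, 3, 3861, 0), (6, 1, 74005, 0), (3, 1, 279620, 0)]),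
  (3, [(1, .m (.v 3) (.m (.v 5) (.v 4)))],
    [(3, 3, 5, 3), (-2, 1, 19996437, 0), (1, 1, 279620, 0)]),
  (480, [(1, .m (.v 3) (.m (.v 2) (.m (.v 5) (.v 1))))],
    [(16, 0, 4373, 3), (-16, 0, 287306066, 0), (48, 1, 69971, 0), (4, 1, 69909, 17), (-48, 3, 5, 17), (-3, 1, 17953361, 0), (6, 1, 69941, 0), (-48, 1, 17903381, 0), (16, 1, 78101, 0), (64, 1, 18947861, 0), (-27, 1, 279620, 0)])]

/-- certificates of level 3 -/
def jobs3 : List Job := [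
  (1, [(1, .m (.m (.v 5) (.v 2)) (.m (.v 6) (.v 4)))],
    [(1, 21, 28453, 0), (-4, 10, 5, 97)]),
  (6, [(1, .m (.v 1) (.m (.v 1) (.m (.v 5) (.m (.v 6) (.v 4)))))],
    [(3, 1, 70757, 0), (-6, 23, 6, 21), (-6, 25, 6, 5), (-6, 23, 1044837, 0), (-1, 1, 279620, 0)]),
  (6, [(1, .m (.v 2) (.m (.v 1) (.m (.v 5) (.m (.v 6) (.v 4)))))],
    [(3, 1, 74853, 0), (-6, 11, 6, 21), (-6, 26, 6, 5), (-6, 11, 1044837, 0), (-1, 1, 279620, 0)]),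
  (8, [(1, .m (.v 2) (.m (.v 5) (.m (.v 6) (.v 4))))],
    [(1, 0, 1138502, 0), (-2, 0, 1339157, 0), (-4, 27, 15818518, 0), (-4, 27, 7336273, 0), (2, 21, 28453, 0), (20, 21, 7336273, 0), (2, 1, 70757, 0), (-20, 23, 6, 3861), (2, 11, 6, 5), (4, 23, 6, 81), (16, 28, 5, 3862), (-4, 28, 5, 22), (-4, 25, 5, 6), (-4, 28, 5, 97), (-4, 23, 1044822, 0), (-4, 28, 1044822, 0), (-4, 28, 6, 3861), (-8, 10, 5, 97), (-80, 29, 5, 97), (-4, 25, 6, 5), (-4, 23, 1044837, 0)]),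
  (12, [(1, .m (.v 3) (.m (.v 5) (.m (.v 6) (.v 4))))],
    [(6, 1, 143958, 0), (-24, 17, 5, 38), (-24, 17, 1045078, 0), (-1, 1, 279620, 0)]),
  (1, [(1, .m (.m (.v 5) (.v 3)) (.m (.v 6) (.v 4)))],
    [(1, 21, 28469, 0), (-4, 22, 5, 97)]),
  (30, [(1, .m (.v 2) (.m (.m (.v 5) (.v 1)) (.m (.v 6) (.v 4))))],
    [(6, 7, 24390, 0), (-6, 21, 28469, 0), (-15, 1, 74853, 0), (-60, 23, 6, 1044817), (-12, 23, 6, 337), (-6, 23, 6, 37), (-6, 23, 6, 82), (-6, 23, 6, 3877), (-6, 11, 6, 81), (24, 22, 5, 97), (30, 11, 6, 21), (30, 26, 6, 5), (30, 11, 1044837, 0), (5, 1, 279620, 0)]),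
  (12, [(1, .m (.v 4) (.m (.m (.v 5) (.v 1)) (.m (.v 6) (.v 2))))],
    [(6, 1, 21098838, 0), (-24, 25, 5, 22), (-24, 28, 268375318, 0), (-1, 1, 279620, 0)]),
  (24, [(1, .m (.v 2) (.m (.v 1) (.m (.v 5) (.m (.v 6) (.v 3)))))],
    [(-3, 0, 1142597, 0), (6, 0, 1335062, 0), (12, 1, 74597, 0), (12, 27, 6287713, 0), (12, 27, 15818518, 0), (-6, 21, 24358, 0), (-60, 21, 6287713, 0), (-6, 1, 70742, 0), (60, 23, 5, 3862), (-6, 11, 5, 6), (-12, 23, 5, 97), (-48, 28, 6, 3861), (12, 28, 6, 21), (12, 25, 6, 5), (12, 28, 6, 81), (12, 23, 1044837, 0), (12, 28, 1044837, 0), (12, 28, 5, 3862), (-24, 20, 6, 21), (-24, 31, 6, 5), (-24, 20, 1044837, 0), (24, 10, 6, 81), (240, 29, 6, 81), (12, 25, 5, 6), (12, 23, 1044822, 0), (-2, 1, 279620, 0)]),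
  (1, [(1, .m (.m (.v 5) (.v 4)) (.m (.v 6) (.v 4)))],
    [(1, 21, 28485, 0), (-4, 23, 5, 609)]),
  (1, [(1, .m (.m (.v 5) (.v 4)) (.m (.v 2) (.m (.v 6) (.v 1))))],
    [(1, 21, 6287714, 0), (-4, 12, 6, 81)])]

/-- certificates of level 4 -/
def jobs4 : List Job := [
  (2, [(1, .m (.m (.v 7) (.v 4)) (.m (.v 5) (.m (.v 6) (.v 4))))],
    [(1, 1, 40001351, 0), (-2, 24, 7, 86), (-4, 32, 87, 38), (-4, 32, 16721255, 0)]),
  (2, [(1, .m (.v 2) (.m (.v 1) (.m (.v 7) (.m (.v 5) (.m (.v 6) (.v 4))))))],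
    [(1, 1, 19264615, 0), (-2, 23, 6, 599), (-2, 23, 6, 1874), (-2, 35, 86, 23), (-2, 42, 101, 7), (-2, 35, 16717174, 0)])]

/-- the certificates of the nine identities -/
def fins : List Cert := [
  (96, [(6, 2, 3877, 0), (-16, 0, 1122101, 0), (20, 0, 8741, 0), (-48, 1, 69925, 1), (30, 1, 74066, 0), (96, 1, 74021, 0), (12, 1, 69941, 0), (-570, 3, 3877, 0), (16, 1, 17899301, 0), (-24, 1, 70181, 0), (-40, 1, 18947861, 0), (285, 1, 135761, 0), (-20, 1, 78101, 0), (-73, 1, 279620, 0)]),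
  (480, [(-24, 13, 24358, 0), (-24, 13, 28453, 0), (12, 14, 62038, 0), (12, 14, 62053, 0), (30, 0, 13142, 0), (-24, 8, 101, 2), (12, 1, 139877, 0), (-24, 8, 86, 2), (12, 1, 139862, 0), (-3, 1, 140642, 0), (60, 1, 78437, 0), (60, 1, 78422, 0), (-12, 1, 78166, 1), (-12, 1, 78181, 1), (-4, 1, 22093622, 0), (-4, 1, 23142197, 0), (120, 15, 6, 5), (120, 15, 5, 6), (120, 15, 3941, 0), (-48, 16, 6, 5), (-48, 16, 5, 6), (12, 16, 3941, 0), (-120, 17, 6, 21), (-120, 18, 6, 5), (-120, 17, 1044837, 0), (-120, 17, 5, 22), (-120, 18, 5, 6), (-120, 17, 1044822, 0), (48, 19, 5, 97), (48, 19, 1044822, 0), (48, 19, 6, 81), (48, 19, 1044837, 0), (24, 20, 6, 21), (24, 20, 5, 22), (-30, 1, 279620, 0)]),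
  (3, [(3, 3, 5, 3), (-2, 1, 19996437, 0), (1, 1, 279620, 0)]),
  (12, [(12, 21, 24374, 0), (6, 1, 143973, 0), (-48, 22, 6, 81), (-24, 17, 6, 37), (-24, 17, 1045093, 0), (-1, 1, 279620, 0)]),
  (1, [(-1, 2, 3909, 0), (2, 0, 9013, 0), (4, 1, 74293, 0), (2, 1, 78373, 0), (4, 1, 78133, 0), (-1, 1, 70453, 0), (-7, 1, 279620, 0)]),
  (1, [(1, 21, 24389, 0), (-4, 23, 5, 593)]),
  (2, [(1, 1, 38956869, 0), (-2, 24, 5, 101), (-4, 32, 101, 37), (-4, 32, 16721493, 0)]),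
  (228, [(12, 5, 6288485, 0), (15, 0, 3497798, 0), (-12, 1, 85324898, 0), (-24, 1, 22310693, 0), (60, 21, 7336789, 0), (-120, 33, 86, 3861), (24, 33, 86, 81), (12, 34, 86, 5), (-60, 35, 86, 3861), (60, 35, 86, 81), (-120, 30, 6, 3925), (60, 30, 6, 85), (60, 36, 86, 5), (60, 37, 86, 5), (30, 36, 62806, 0), (30, 37, 62806, 0), (24, 32, 62806, 1), (24, 38, 62806, 0), (48, 32, 86, 21), (48, 39, 101, 5), (48, 32, 6287717, 0), (-240, 40, 85, 97), (8, 1, 279620, 0)]),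
  (16, [(1, 0, 1727291205, 0), (8, 21, 1610564966, 0), (-8, 41, 85, 3942), (4, 41, 85, 102), (8, 43, 1621, 6), (4, 43, 1009237, 0), (-32, 44, 1622, 81)])]

/-- the certificate of the identity for the fourth powers -/
def tcert : Int × List (Int × Nat × Nat × Nat) × List (Int × Nat × Nat) :=
  (30, [(12, 1, 17919765, 0), (4, 0, 4374, 3861), (4, 1, 23142165, 0), (4, 1, 17899365, 0)],
    [(-12, 0, 24113490), (12, 0, 49372950), (-12, 0, 4830883605), (-6, 0, 18871890), (3, 0, 143205)])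

theorem ok : okAll g5 [jobs1, jobs2, jobs3, jobs4] fins tcert = true := by decide +kernel

end Pool.Agent.Alb.W0140

namespace Pool.Agent.Alb

open Pool.Agent.Alb.Chk Pool.Agent.Alb.Gen5

universe u v

/-- Perfect finite-dimensional commutative algebras with `(xx)(xx) = x(x(xx))` and `y(x(y(xx))) = 0`
are zero. -/
theorem w_0140 {F : Type u} [Field F] [CharZero F] {V : Type v} [AddCommGroup V]
    [Module F V] [FiniteDimensional F V] (m : V →ₗ[F] V →ₗ[F] V)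
    (comm : ∀ x y, m x y = m y x)
    (perf : Submodule.span F {z : V | ∃ a b : V, z = m a b} = ⊤)
    (hpa4 : ∀ x, m (m x x) (m x x) = m x (m x (m x x)))
    (h : ∀ x y, m y (m x (m y (m x x))) = 0) : Subsingleton V := by
  have h5 : ∀ z, m z (m z (m z (m z z))) = 0 := by
    intro z
    exact h z z
  have hg0 : HoldsAll m W0140.g0 := by
    intro ρ
    simp only [W0140.g0, evP, T.ev, h, smul_zero, add_zero]
  have hg : HoldsAll m W0140.g5 :=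
    HoldsAll.der m (HoldsAll.der m (HoldsAll.der m hg0 5 7) 5 8) 6 9
  exact Gen5.main m comm perf hpa4 h5 W0140.g5 hg _ _ _ W0140.ok

end Pool.Agent.Alb
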