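import Mathlib
import Pool.Agent.Lib_MP_380d39.Gen5

set_option autoImplicit false

/-!
# The word x(y(y(xx)))

Kernel-checked certificates (791 lines) for the class of the word x(y(y(xx))).
-/

namespace Pool.Agent.Alb.W1020

open Pool.Agent.Alb.Chk Pool.Agent.Alb.Gen5

universe u w

def g0 : List (Int × T) := [(1, .m (.v 5) (.m (.v 6) (.m (.v 6) (.m (.v 5) (.v 5)))))]

def g5 : List (Int × T) := derP 6 9 (derP 5 8 (derP 5 7 g0))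

/-- certificates of level 1 -/
def jobs1 : List Job := [
  (36, [(8, .m (.v 2) (.m (.v 5) (.v 2))), (20, .m (.v 3) (.m (.v 5) (.v 1))), (-5, .m (.v 5) (.v 4))],
    [(48, 0, 4389, 0), (10, 0, 4373, 1), (8, 0, 1122069, 0), (42, 1, 69909, 0), (27, 1, 69969, 0)]),
  (12, [(16, .m (.v 2) (.m (.v 1) (.m (.v 5) (.v 1)))), (-4, .m (.v 3) (.m (.v 5) (.v 1))), (5, .m (.v 5) (.v 4))],
    [(2, 0, 4373, 1), (8, 0, 1122069, 0), (2, 1, 69909, 0), (15, 1, 69969, 0)]),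
  (12, [(4, .m (.v 1) (.m (.v 2) (.m (.v 5) (.v 1)))), (1, .m (.v 5) (.v 4))],
    [(2, 0, 4373, 1), (2, 1, 69909, 0), (3, 1, 69969, 0)]),
  (72, [(10, .m (.m (.v 5) (.v 1)) (.m (.v 1) (.m (.v 6) (.v 1)))), (-5, .m (.v 5) (.m (.v 2) (.m (.v 6) (.v 1)))), (4, .m (.v 2) (.m (.v 5) (.m (.v 6) (.v 1)))), (4, .m (.m (.v 5) (.v 2)) (.m (.v 6) (.v 1))), (5, .m (.m (.v 5) (.v 1)) (.m (.v 6) (.v 2))), (5, .m (.v 3) (.m (.v 5) (.v 6)))],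
    [(48, 0, 4694, 0), (15, 0, 4438, 1), (12, 0, 1142549, 0), (48, 0, 1138454, 0), (5, 0, 4373, 6), (27, 1, 69974, 0), (63, 1, 69989, 0), (4, 0, 1122149, 0), (-7, 0, 4374, 5), (27, 1, 71009, 0), (21, 1, 86294, 0)]),
  (72, [(10, .m (.m (.v 6) (.v 1)) (.m (.v 1) (.m (.v 5) (.v 1)))), (5, .m (.v 5) (.m (.v 2) (.m (.v 6) (.v 1)))), (5, .m (.v 2) (.m (.v 6) (.m (.v 5) (.v 1)))), (1, .m (.v 2) (.m (.v 5) (.m (.v 6) (.v 1)))), (1, .m (.m (.v 5) (.v 2)) (.m (.v 6) (.v 1))), (5, .m (.v 2) (.m (.v 1) (.m (.v 5) (.v 6))))],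
    [(12, 0, 4694, 0), (15, 0, 4438, 1), (12, 0, 1138454, 0), (48, 0, 1142549, 0), (27, 1, 69989, 0), (5, 0, 4373, 6), (63, 1, 69974, 0), (16, 0, 1122149, 0), (17, 0, 4374, 5), (63, 1, 71009, 0), (9, 1, 86294, 0)]),
  (24, [(1, .m (.v 2) (.m (.v 1) (.m (.v 5) (.v 3))))],
    [(4, 1, 69909, 2), (-3, 1, 135761, 0), (1, 1, 279620, 0)]),
  (24, [(1, .m (.v 2) (.m (.v 5) (.v 4)))],
    [(6, 1, 70181, 0), (-4, 1, 69909, 2), (2, 1, 17899301, 0), (-2, 1, 74005, 1), (3, 1, 135761, 0), (-2, 1, 78101, 0), (-1, 1, 279620, 0)]),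
  (6, [(2, .m (.v 5) (.m (.v 1) (.m (.v 1) (.m (.v 6) (.v 1))))), (-4, .m (.v 5) (.m (.v 2) (.m (.v 6) (.v 1)))), (1, .m (.v 5) (.m (.v 1) (.m (.v 6) (.v 2)))), (1, .m (.v 5) (.m (.v 6) (.v 3)))],
    [(-1, 0, 4374, 5)]),
  (24, [(1, .m (.v 2) (.m (.v 1) (.m (.v 1) (.m (.v 5) (.v 2)))))],
    [(3, 1, 135761, 0), (-1, 1, 279620, 0)]),
  (6, [(1, .m (.v 1) (.m (.v 1) (.m (.v 6) (.m (.v 5) (.v 2))))), (1, .m (.v 1) (.m (.v 1) (.m (.v 5) (.m (.v 6) (.v 2)))))],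
    [(1, 1, 86294, 1)]),
  (6, [(1, .m (.v 5) (.m (.v 1) (.m (.v 1) (.m (.v 6) (.v 2))))), (1, .m (.v 5) (.m (.v 1) (.m (.v 6) (.v 3))))],
    [(1, 1, 69910, 5)]),
  (6, [(5, .m (.v 6) (.m (.v 1) (.m (.v 5) (.v 2)))), (5, .m (.v 5) (.m (.v 1) (.m (.v 6) (.v 2)))), (4, .m (.v 2) (.m (.v 6) (.m (.v 5) (.v 1)))), (4, .m (.v 2) (.m (.v 5) (.m (.v 6) (.v 1)))), (-16, .m (.m (.v 5) (.v 2)) (.m (.v 6) (.v 1))), (-16, .m (.m (.v 5) (.v 1)) (.m (.v 6) (.v 2))), (5, .m (.v 1) (.m (.v 2) (.m (.v 5) (.v 6)))), (5, .m (.v 6) (.m (.v 5) (.v 3))), (5, .m (.v 5) (.m (.v 6) (.v 3))), (-15, .m (.v 3) (.m (.v 5) (.v 6)))],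
    [(-12, 0, 4694, 0), (-1, 0, 1122149, 0), (-1, 0, 4374, 5), (-1, 0, 4373, 6), (-3, 1, 71009, 0), (-4, 1, 86294, 0)]),
  (6, [(5, .m (.v 6) (.m (.v 2) (.m (.v 5) (.v 1)))), (5, .m (.v 5) (.m (.v 2) (.m (.v 6) (.v 1)))), (1, .m (.v 2) (.m (.v 6) (.m (.v 5) (.v 1)))), (1, .m (.v 2) (.m (.v 5) (.m (.v 6) (.v 1)))), (-4, .m (.m (.v 5) (.v 2)) (.m (.v 6) (.v 1))), (-4, .m (.m (.v 5) (.v 1)) (.m (.v 6) (.v 2))), (5, .m (.v 2) (.m (.v 1) (.m (.v 5) (.v 6)))), (-5, .m (.v 3) (.m (.v 5) (.v 6)))],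
    [(-3, 0, 4694, 0), (1, 0, 1122149, 0), (1, 0, 4374, 5), (1, 0, 4373, 6), (3, 1, 71009, 0), (-1, 1, 86294, 0)])]

/-- certificates of level 2 -/
def jobs2 : List Job := [
  (864, [(1, .m (.v 3) (.m (.v 5) (.v 3)))],
    [(-30, 1, 70181, 0), (66, 3, 3877, 0), (-30, 2, 3877, 0), (-20, 0, 8741, 0), (432, 1, 69941, 0), (-278, 1, 74005, 1), (20, 1, 69909, 2), (278, 1, 17899301, 0), (-147, 1, 135761, 0), (-278, 1, 78101, 0), (39, 1, 279620, 0)]),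
  (192, [(4, .m (.v 1) (.m (.v 5) (.m (.v 2) (.m (.v 6) (.v 1))))), (1, .m (.v 6) (.m (.v 5) (.v 4)))],
    [(-120, 1, 71010, 0), (48, 6, 86, 1), (-48, 5, 86, 1), (120, 1, 17919765, 0), (-60, 1, 74070, 0), (-120, 1, 17915670, 0), (36, 1, 74085, 0), (60, 6, 97, 5), (-60, 3, 6, 5), (15, 3, 5, 6), (-9, 2, 5, 6), (40, 1, 23142165, 0), (40, 1, 17899365, 0), (120, 4, 6, 5), (24, 1, 22093590, 0)]),
  (24, [(1, .m (.v 1) (.m (.v 5) (.v 4)))],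
    [(-3, 2, 5, 1), (10, 1, 17899285, 0), (-15, 4, 5, 1), (4, 1, 74005, 0)]),
  (192, [(4, .m (.v 1) (.m (.m (.v 5) (.v 1)) (.m (.v 6) (.v 2)))), (-1, .m (.v 5) (.m (.v 6) (.v 4)))],
    [(120, 1, 71010, 0), (-48, 6, 101, 1), (48, 5, 101, 1), (-120, 1, 17915670, 0), (60, 1, 74085, 0), (120, 1, 17919765, 0), (-36, 1, 74070, 0), (-60, 6, 81, 6), (60, 3, 5, 6), (-15, 3, 6, 5), (9, 2, 6, 5), (-40, 1, 22093590, 0), (-40, 1, 17899365, 0), (-120, 4, 5, 6), (104, 1, 23142165, 0)]),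
  (48, [(4, .m (.m (.v 6) (.v 1)) (.m (.v 2) (.m (.v 5) (.v 1)))), (1, .m (.v 4) (.m (.v 5) (.v 6)))],
    [(-30, 1, 71010, 0), (12, 6, 101, 1), (-12, 5, 101, 1), (-24, 1, 69989, 1), (24, 1, 17953125, 0), (30, 1, 17915670, 0), (-15, 1, 74085, 0), (-30, 1, 17919765, 0), (48, 9, 101, 1), (9, 1, 74070, 0), (-48, 9, 61797, 0), (-24, 1, 71009, 1), (24, 1, 18215265, 0), (-9, 6, 97, 5), (15, 3, 6, 5), (15, 6, 81, 6), (-15, 3, 5, 6), (10, 1, 17899365, 0), (-12, 1, 69985, 5), (10, 1, 22093590, 0), (30, 4, 5, 6), (6, 1, 23142165, 0), (12, 1, 17954385, 0)]),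
  (24, [(1, .m (.v 4) (.m (.v 5) (.v 1)))],
    [(3, 2, 5, 1), (-24, 1, 69970, 0), (39, 4, 5, 1), (-4, 1, 74005, 0), (-10, 1, 17899285, 0), (24, 4, 3861, 0), (8, 1, 279620, 0)]),
  (240, [(1, .m (.v 3) (.m (.v 5) (.v 4)))],
    [(-48, 2, 1044818, 0), (-30, 1, 18951957, 0), (-10, 0, 2240277, 0), (81, 1, 74322, 0), (30, 1, 74067, 0), (-54, 1, 18947877, 0), (240, 4, 5, 3), (-20, 1, 19996437, 0), (54, 1, 82197, 0), (-49, 1, 279620, 0)]),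
  (3, [(16, .m (.v 6) (.m (.v 1) (.m (.v 1) (.m (.v 5) (.v 2))))), (-16, .m (.v 5) (.m (.v 1) (.m (.v 6) (.v 3)))), (4, .m (.v 3) (.m (.v 1) (.m (.v 5) (.v 6)))), (-5, .m (.v 4) (.m (.v 5) (.v 6)))],
    [(-3, 3, 3941, 0), (12, 1, 136545, 0), (-8, 1, 69910, 5)]),
  (30, [(16, .m (.v 2) (.m (.m (.v 5) (.v 1)) (.m (.v 6) (.v 1)))), (-20, .m (.v 3) (.m (.v 1) (.m (.v 5) (.v 6)))), (1, .m (.v 4) (.m (.v 5) (.v 6)))],
    [(-24, 13, 86, 1), (30, 0, 4438, 2), (36, 14, 86, 1), (60, 1, 70245, 0), (150, 1, 71010, 0), (60, 1, 70230, 0), (30, 1, 86310, 0), (15, 1, 74085, 0), (15, 1, 74070, 0), (30, 1, 136545, 0), (-15, 6, 97, 5), (-15, 6, 81, 6), (-30, 2, 3941, 0), (-20, 1, 86294, 1), (-20, 1, 69909, 6), (-20, 1, 69910, 5), (-30, 1, 17899365, 0), (-75, 4, 6, 5), (-40, 1, 22093590, 0), (-75, 4, 5, 6), (-40, 1, 23142165, 0), (-120, 4, 3941, 0)]),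
  (15360, [(2, .m (.v 2) (.m (.v 5) (.m (.v 1) (.m (.v 6) (.v 1))))), (2, .m (.m (.v 5) (.v 3)) (.m (.v 6) (.v 1))), (1, .m (.v 2) (.m (.v 5) (.m (.v 6) (.v 2))))],
    [(-1920, 0, 1142565, 0), (-240, 0, 8790, 0), (144, 0, 4438, 2), (10848, 1, 70230, 0), (816, 6, 86, 1), (-21120, 6, 28437, 0), (4224, 5, 61782, 0), (11160, 1, 71010, 0), (-5280, 6, 101, 1), (4464, 5, 86, 1), (16896, 6, 24342, 0), (1920, 6, 61797, 0), (-6144, 5, 24342, 0), (14688, 1, 70245, 0), (5580, 1, 74070, 0), (-5280, 9, 101, 1), (6240, 1, 17953110, 0), (3520, 0, 287306070, 0), (-6240, 1, 69974, 1), (-2040, 1, 17915670, 0), (-5748, 1, 74085, 0), (-5120, 0, 287306085, 0), (2040, 1, 17919765, 0), (-16896, 9, 86, 1), (-12480, 9, 61782, 0), (-12048, 1, 69989, 1), (7344, 1, 86310, 0), (6624, 9, 61797, 0), (12048, 1, 17953125, 0), (5424, 1, 136545, 0), (-1056, 6, 63057, 0), (5205, 3,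 5, 6), (837, 2, 5, 6), (-6060, 6, 97, 5), (-1020, 3, 6, 5), (-3312, 1, 18215265, 0), (-3600, 1, 71009, 1), (16800, 1, 18280785, 0), (-2840, 1, 23142165, 0), (-3616, 1, 69910, 5), (-3720, 1, 17899365, 0), (1800, 1, 17954385, 0), (-6600, 4, 5, 6), (-8400, 1, 69969, 6), (-4896, 1, 69909, 6), (-4896, 1, 86294, 1), (-4560, 4, 6, 5), (-4392, 1, 22093590, 0), (1656, 1, 69985, 5)]),
  (1, [(4, .m (.v 5) (.m (.v 1) (.m (.v 2) (.m (.v 6) (.v 1))))), (1, .m (.v 5) (.m (.v 6) (.v 4)))],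
    [(1, 4, 6, 5)]),
  (48, [(16, .m (.v 1) (.m (.v 2) (.m (.v 6) (.m (.v 5) (.v 1))))), (-20, .m (.v 5) (.m (.v 3) (.m (.v 6) (.v 1)))), (9, .m (.v 5) (.m (.v 6) (.v 4)))],
    [(120, 1, 71010, 0), (-48, 6, 101, 1), (48, 5, 101, 1), (60, 1, 74085, 0), (120, 1, 17919765, 0), (-120, 1, 17915670, 0), (156, 1, 74070, 0), (-60, 6, 81, 6), (60, 3, 5, 6), (-15, 3, 6, 5), (-39, 2, 6, 5), (-40, 1, 22093590, 0), (-40, 1, 17899365, 0), (-120, 4, 5, 6), (-24, 1, 23142165, 0)]),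
  (3, [(16, .m (.v 6) (.m (.v 1) (.m (.v 5) (.v 3)))), (16, .m (.v 5) (.m (.v 1) (.m (.v 6) (.v 3)))), (-4, .m (.v 3) (.m (.v 1) (.m (.v 5) (.v 6)))), (5, .m (.v 4) (.m (.v 5) (.v 6)))],
    [(-12, 1, 136545, 0), (3, 3, 3941, 0), (8, 1, 69910, 5), (8, 1, 69909, 6)]),
  (1, [(8, .m (.v 5) (.m (.v 2) (.m (.v 6) (.v 2)))), (20, .m (.v 5) (.m (.v 3) (.m (.v 6) (.v 1)))), (-5, .m (.v 5) (.m (.v 6) (.v 4)))],
    [(1, 2, 6, 5)]),
  (480, [(1, .m (.v 3) (.m (.v 5) (.v 2)))],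
    [(30, 0, 4645, 0), (6, 0, 4373, 2), (78, 1, 69925, 0), (-15, 3, 3861, 0), (-3, 2, 3861, 0), (24, 2, 5, 1), (180, 1, 69970, 0), (78, 1, 70225, 0), (-80, 1, 17899285, 0), (-52, 1, 69909, 1), (-60, 4, 5, 1), (-180, 4, 3861, 0), (-12, 1, 74005, 0), (-71, 1, 279620, 0)]),
  (96, [(1, .m (.v 1) (.m (.v 1) (.m (.v 2) (.m (.v 5) (.v 1)))))],
    [(-3, 3, 5, 1), (15, 4, 5, 1), (-2, 1, 17899285, 0), (12, 1, 69970, 0), (-4, 1, 279620, 0)]),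
  (96, [(1, .m (.v 2) (.m (.v 1) (.m (.v 2) (.m (.v 5) (.v 1)))))],
    [(-6, 1, 70181, 0), (4, 1, 69909, 2), (2, 1, 74005, 1), (-2, 1, 17899301, 0), (24, 4, 5, 2), (2, 1, 78101, 0), (-3, 1, 135761, 0), (1, 1, 279620, 0)]),
  (48, [(1, .m (.v 2) (.m (.v 2) (.m (.v 5) (.v 1))))],
    [(6, 1, 69925, 0), (2, 0, 4373, 2), (-3, 3, 5, 1), (-4, 1, 69909, 1), (6, 1, 70225, 0), (-9, 4, 5, 1), (-2, 1, 17899285, 0), (12, 1, 69970, 0), (-6, 1, 279620, 0)]),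
  (240, [(1, .m (.v 1) (.m (.v 1) (.m (.v 5) (.v 3))))],
    [(-1, 0, 4373, 2), (-3, 1, 69925, 0), (15, 3, 3861, 0), (3, 2, 3861, 0), (24, 1, 69970, 0), (-63, 1, 70225, 0), (-24, 4, 5, 1), (9, 1, 69969, 1), (-24, 4, 3861, 0), (-9, 1, 17953105, 0), (42, 1, 69909, 1), (13, 1, 279620, 0)]),
  (960, [(1, .m (.v 2) (.m (.v 5) (.v 3)))],
    [(60, 0, 4405, 0), (-20, 0, 1122085, 0), (-2, 0, 4373, 2), (234, 1, 69925, 0), (-33, 2, 5, 1), (-30, 3, 3861, 0), (6, 2, 3861, 0), (780, 1, 69970, 0), (114, 1, 70225, 0), (-1005, 4, 5, 1), (24, 1, 74005, 0), (150, 1, 17899285, 0), (-780, 4, 3861, 0), (-116, 1, 69909, 1), (-268, 1, 279620, 0)]),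
  (240, [(1, .m (.v 1) (.m (.v 1) (.m (.v 1) (.m (.v 5) (.v 2)))))],
    [(1, 0, 4373, 2), (3, 1, 69925, 0), (-3, 2, 3861, 0), (-15, 3, 3861, 0), (9, 1, 17953105, 0), (-9, 1, 69969, 1), (24, 4, 3861, 0), (24, 4, 5, 1), (-24, 1, 69970, 0), (-2, 1, 69909, 1), (63, 1, 70225, 0), (-13, 1, 279620, 0)]),
  (384, [(1, .m (.v 2) (.m (.v 1) (.m (.v 5) (.v 2))))],
    [(6, 0, 4645, 0), (2, 0, 4373, 2), (18, 1, 69925, 0), (16, 0, 1122085, 0), (-15, 3, 3861, 0), (-3, 2, 3861, 0), (24, 2, 5, 1), (-12, 1, 69970, 0), (-80, 1, 17899285, 0), (132, 4, 5, 1), (12, 4, 3861, 0), (-12, 1, 74005, 0), (-12, 1, 69909, 1), (66, 1, 70225, 0), (-15, 1, 279620, 0)]),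
  (96, [(1, .m (.v 1) (.m (.v 3) (.m (.v 5) (.v 1))))],
    [(-3, 2, 5, 1), (-39, 4, 5, 1), (4, 1, 74005, 0), (26, 1, 17899285, 0)]),
  (24, [(1, .m (.v 1) (.m (.v 2) (.m (.v 5) (.v 2))))],
    [(3, 2, 5, 1), (-10, 1, 17899285, 0), (15, 4, 5, 1)]),
  (4320, [(1, .m (.v 2) (.m (.v 3) (.m (.v 5) (.v 1))))],
    [(390, 1, 70181, 0), (-480, 3, 3877, 0), (-96, 2, 3877, 0), (80, 0, 8741, 0), (216, 2, 5, 2), (-130, 1, 74005, 1), (-260, 1, 69909, 2), (130, 1, 17899301, 0), (1155, 1, 135761, 0), (-130, 1, 78101, 0), (-345, 1, 279620, 0)]),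
  (480, [(1, .m (.v 3) (.m (.v 1) (.m (.v 5) (.v 1))))],
    [(-24, 1, 69925, 0), (-8, 0, 4373, 2), (-3, 3, 5, 1), (24, 2, 3861, 0), (16, 1, 69909, 1), (-24, 1, 70225, 0), (120, 4, 3861, 0), (111, 4, 5, 1), (-2, 1, 17899285, 0), (-108, 1, 69970, 0), (44, 1, 279620, 0)]),
  (96, [(1, .m (.v 1) (.m (.v 2) (.m (.v 1) (.m (.v 5) (.v 1)))))],
    [(3, 3, 5, 1), (-15, 4, 5, 1), (2, 1, 17899285, 0), (12, 1, 69970, 0), (-4, 1, 279620, 0)]),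
  (24, [(1, .m (.v 2) (.m (.v 2) (.m (.v 1) (.m (.v 5) (.v 1)))))],
    [(3, 2, 1044817, 0), (10, 1, 69909, 17), (-15, 1, 70225, 1), (15, 4, 1044817, 0), (-15, 1, 70481, 0), (10, 1, 279620, 0)]),
  (240, [(1, .m (.v 2) (.m (.v 1) (.m (.v 1) (.m (.v 5) (.v 1)))))],
    [(-3, 1, 69925, 0), (-1, 0, 4373, 2), (3, 2, 3861, 0), (9, 3, 5, 1), (15, 3, 3861, 0), (2, 1, 69909, 1), (-33, 4, 5, 1), (6, 1, 17899285, 0), (-60, 4, 3861, 0), (24, 1, 69970, 0), (-3, 1, 70225, 0), (-7, 1, 279620, 0)]),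
  (3, [(8, .m (.v 6) (.m (.v 2) (.m (.v 5) (.v 2)))), (-20, .m (.v 5) (.m (.v 3) (.m (.v 6) (.v 1)))), (80, .m (.v 1) (.m (.v 3) (.m (.v 5) (.v 6)))), (40, .m (.v 6) (.m (.v 5) (.v 4))), (45, .m (.v 5) (.m (.v 6) (.v 4))), (20, .m (.v 4) (.m (.v 5) (.v 6)))],
    [(-120, 1, 71010, 0), (15, 3, 6, 5), (12, 6, 81, 6), (60, 4, 3941, 0), (60, 4, 6, 5), (60, 4, 5, 6), (40, 1, 17899365, 0)]),
  (216, [(1, .m (.v 4) (.m (.v 5) (.v 2)))],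
    [(6, 1, 70181, 0), (30, 3, 3877, 0), (6, 2, 3877, 0), (4, 0, 8741, 0), (-2, 1, 74005, 1), (-4, 1, 69909, 2), (2, 1, 17899301, 0), (-57, 1, 135761, 0), (-2, 1, 78101, 0), (21, 1, 279620, 0)])]

/-- certificates of level 3 -/
def jobs3 : List Job := [
  (6, [(1, .m (.v 2) (.m (.v 1) (.m (.v 5) (.m (.v 6) (.v 4)))))],
    [(3, 1, 136293, 0), (-6, 19, 16721429, 0), (-6, 17, 6, 82), (-6, 20, 1045093, 0), (24, 10, 6, 3861), (-1, 1, 279620, 0)]),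
  (5, [(1, .m (.v 3) (.m (.v 5) (.m (.v 6) (.v 4))))],
    [(1, 5, 24390, 0), (-10, 17, 6, 7957), (5, 17, 6, 37), (-4, 17, 6, 82), (-4, 17, 6, 3877), (-5, 8, 6, 3861)]),
  (1, [(1, .m (.m (.v 5) (.v 3)) (.m (.v 6) (.v 4)))],
    [(1, 16, 28469, 0), (-4, 7, 5, 97)]),
  (1440, [(1, .m (.v 2) (.m (.v 1) (.m (.v 5) (.m (.v 6) (.v 3)))))],
    [(-240, 1, 136037, 0), (80, 0, 287306597, 0), (156, 1, 22097702, 0), (-96, 5, 6287714, 0), (9, 28, 101, 2), (24, 5, 28469, 0), (96, 5, 6287969, 0), (15, 23, 24358, 0), (39, 2, 1045093, 0), (240, 24, 28453, 0), (-240, 1, 17953637, 0), (-156, 1, 23146277, 0), (120, 5, 24374, 0), (30, 0, 13142, 0), (480, 1, 70501, 1), (-96, 12, 62053, 0), (96, 25, 62038, 0), (24, 1, 35058257, 0), (-60, 1, 34762517, 0), (-96, 11, 101, 2), (24, 1, 34992737, 0), (-78, 1, 139877, 0), (9, 26, 101, 2), (60, 18, 86, 2), (96, 25, 86, 2), (-6,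 1, 152102, 0), (-30, 22, 86, 2), (-384, 12, 86, 2), (-6, 27, 101, 2), (-480, 12, 62038, 0), (240, 1, 74597, 0), (180, 19, 62053, 0), (-96, 16, 28453, 0), (-104, 1, 23142197, 0), (-240, 1, 20050277, 0), (104, 1, 22093622, 0), (-624, 29, 6, 81), (960, 30, 6, 3861), (-480, 31, 6, 5), (480, 32, 6, 3861), (-240, 33, 5, 3862), (120, 7, 5, 6), (-120, 34, 5, 3862), (-960, 35, 6, 3861), (480, 10, 6, 5), (-1200, 36, 6, 3861), (960, 33, 6, 81), (624, 29, 5, 97), (-1200, 33, 6, 3861), (600, 7, 6, 5), (-600, 34, 6, 3861), (120, 15, 6, 5), (120, 15, 5, 6), (120, 15, 3941, 0), (-960, 17, 5, 97), (-960, 37, 1044837, 0), (-96, 38, 5, 22), (120, 20, 5, 22), (-96, 38, 6, 21), (-324, 8, 5, 6), (-144, 36, 1044837, 0), (96, 39, 3941, 0), (-120, 8, 3941, 0), (-1104, 34, 6, 81), (-480, 29, 1044837, 0), (384, 36, 5, 97), (624, 34, 5, 97), (960, 40, 6, 81), (480, 29, 5, 3862),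 (13, 1, 279620, 0)]),
  (1, [(1, .m (.m (.v 5) (.v 4)) (.m (.v 6) (.v 4)))],
    [(-1, 18, 62550, 0), (4, 17, 5, 62049)]),
  (120, [(1, .m (.v 2) (.m (.v 5) (.m (.v 1) (.m (.v 1) (.m (.v 6) (.v 2))))))],
    [(120, 1, 70486, 1), (120, 24, 6287713, 0), (-144, 5, 6287714, 0), (-30, 24, 28453, 0), (15, 1, 23146277, 0), (-6, 6, 97, 82), (6, 1, 74070, 2), (-15, 1, 22097702, 0), (30, 1, 4596901142, 0), (-360, 1, 69974, 33), (-30, 1, 4596901397, 0), (30, 24, 24358, 0), (-60, 1, 18281297, 0), (360, 1, 74597, 0), (144, 25, 62038, 0), (360, 4, 268375318, 0), (-180, 4, 1045093, 0), (-30, 1, 69985, 82), (144, 25, 86, 2), (6, 18, 86, 2), (-4, 1, 23142165, 2), (180, 1, 135781, 1), (15, 22, 101, 17), (-30, 1, 136545, 17), (15, 1, 136545, 2), (-60, 1, 20050262, 0), (-10, 1, 22093622, 0), (-144, 16, 28453, 0), (180, 19, 62053, 0), (-360, 19, 16717078, 0), (10, 1,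 23142197, 0), (-240, 17, 6, 81), (-240, 37, 1044822, 0), (1440, 30, 6, 3861), (-720, 31, 6, 5), (720, 32, 6, 3861), (-60, 29, 5, 97), (-24, 36, 1044822, 0), (60, 29, 6, 81), (-120, 35, 5, 97), (1440, 41, 1044822, 0), (120, 35, 6, 81), (240, 33, 5, 22), (-720, 8, 5, 6), (-660, 34, 6, 81), (-720, 29, 1044837, 0), (-360, 17, 5, 97), (-60, 37, 3941, 1), (75, 17, 3941, 1), (120, 41, 3941, 1), (-60, 42, 3941, 0), (240, 40, 5, 97), (120, 29, 6, 3861), (576, 36, 5, 97), (-720, 36, 6, 3861), (1440, 43, 5, 3862), (-60, 34, 5, 97), (-100, 1, 279620, 0)]),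
  (25920, [(1, .m (.v 2) (.m (.v 5) (.m (.v 1) (.m (.v 6) (.v 3)))))],
    [(-800, 0, 287306597, 0), (9600, 1, 136037, 0), (960, 5, 6287714, 0), (-3390, 2, 268375318, 0), (1995, 28, 101, 2), (-240, 5, 28469, 0), (-10620, 5, 6287969, 0), (816, 23, 24358, 0), (-2400, 24, 28453, 0), (13560, 24, 101, 2), (-6780, 1, 23211797, 0), (16950, 1, 69974, 3), (-300, 0, 13142, 0), (-720, 27, 28453, 0), (-4800, 1, 70501, 1), (2400, 1, 17953637, 0), (-7980, 5, 24374, 0), (960, 12, 62053, 0), (-3264, 1, 34762517, 0), (-960, 25, 62038, 0), (339, 44, 28437, 1), (-3390, 1, 139862, 0), (-240, 1, 34992737, 0), (960, 11, 86, 2), (-240, 1, 35058257, 0), (639, 26, 101, 2), (3264, 18, 86, 2), (-960, 25, 86, 2), (704, 1, 152102, 0), (-480, 1, 86294, 3), (-2400, 1, 74597, 0), (43440, 12, 62038, 0), (300, 22, 86, 2), (42480, 12, 86, 2), (60, 27, 101, 2), (-678, 18, 24358, 0),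 (-816, 19, 62053, 0), (960, 16, 28453, 0), (3600, 19, 62038, 0), (-16950, 19, 16717078, 0), (2400, 1, 20050277, 0), (-9600, 30, 6, 3861), (4800, 31, 6, 5), (-4800, 32, 6, 3861), (2400, 33, 5, 3862), (-1200, 7, 5, 6), (1200, 34, 5, 3862), (106200, 35, 6, 3861), (-53100, 10, 6, 5), (56364, 36, 6, 3861), (-1695, 20, 5, 97), (-67800, 40, 1044822, 0), (-1200, 15, 6, 5), (-1200, 15, 5, 6), (-1200, 15, 3941, 0), (11520, 29, 5, 22), (9600, 17, 5, 97), (9600, 37, 1044837, 0), (-9600, 33, 6, 81), (79800, 33, 6, 3861), (-39900, 7, 6, 5), (39900, 34, 6, 3861), (6528, 20, 5, 22), (6780, 40, 5, 97), (-27120, 33, 1044822, 0), (-6780, 17, 1044822, 0), (6780, 8, 6, 5), (960, 38, 6, 21), (960, 38, 5, 22), (-10224, 36, 1044837, 0), (4800, 8, 5, 6), (4800, 34, 6, 81), (4800, 29, 1044837, 0), (-960, 39, 3941, 0), (1200, 8, 3941, 0), (-678, 45, 6, 5), (-3840, 36, 5, 97),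 (-14400, 36, 5, 3862), (67800, 43, 5, 3862), (-9600, 40, 6, 81), (-4800, 29, 5, 3862), (-1191, 1, 279620, 0)]),
  (240, [(1, .m (.v 2) (.m (.v 1) (.m (.v 5) (.m (.v 1) (.m (.v 6) (.v 2))))))],
    [(48, 6, 16721429, 0), (-240, 24, 6287713, 0), (-15, 0, 13142, 0), (-240, 1, 70486, 1), (-12, 5, 24374, 0), (168, 1, 74085, 2), (12, 6, 97, 82), (30, 2, 1045093, 0), (-168, 1, 23146277, 0), (168, 1, 22097702, 0), (-12, 5, 28469, 0), (120, 1, 17953622, 0), (30, 23, 62053, 0), (-120, 24, 24358, 0), (120, 1, 18281297, 0), (60, 1, 69985, 82), (-168, 16, 86, 2), (-28, 1, 152102, 0), (132, 18, 86, 2), (48, 11, 101, 2), (-12, 1, 34992737, 0), (-60, 1, 139877, 0), (48, 12, 62053, 0), (-60, 19, 24358, 0), (-132, 1, 34762517, 0), (-3, 22, 101, 2), (48, 12, 86, 2), (48, 12, 62038, 0), (-12, 1, 35058257, 0), (120, 1, 20050262, 0), (112, 1, 22093622, 0), (-112, 1, 23142197,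 0), (180, 19, 62053, 0), (-480, 35, 6, 3861), (-768, 36, 6, 3861), (-60, 15, 6, 5), (-60, 15, 5, 6), (-60, 15, 3941, 0), (480, 17, 6, 81), (480, 37, 1044822, 0), (120, 33, 6, 3861), (-60, 7, 6, 5), (60, 34, 6, 3861), (-672, 36, 1044837, 0), (672, 29, 5, 97), (-672, 29, 6, 81), (120, 33, 5, 3862), (-60, 7, 5, 6), (60, 34, 5, 3862), (-480, 33, 5, 97), (-480, 33, 5, 22), (48, 38, 6, 21), (120, 8, 5, 6), (264, 20, 5, 22), (12, 39, 3941, 0), (-15, 8, 3941, 0), (48, 38, 5, 22), (-480, 40, 5, 97), (-240, 29, 6, 3861), (-672, 34, 6, 81), (672, 34, 5, 97), (57, 1, 279620, 0)]),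
  (480, [(1, .m (.v 2) (.m (.v 1) (.m (.v 1) (.m (.v 5) (.m (.v 6) (.v 2))))))],
    [(12, 1, 74085, 2), (-12, 1, 23146277, 0), (12, 1, 22097702, 0), (-3, 23, 24358, 0), (12, 6, 16721489, 0), (15, 3, 1045093, 0), (-12, 16, 86, 2), (-2, 1, 152102, 0), (-12, 18, 86, 2), (12, 1, 34762517, 0), (-6, 1, 139877, 0), (8, 1, 22093622, 0), (-8, 1, 23142197, 0), (-132, 19, 62053, 0), (-48, 36, 1044837, 0), (48, 29, 5, 97), (-48, 29, 6, 81), (-24, 20, 5, 22), (12, 8, 5, 6), (-48, 34, 6, 81), (48, 34, 5, 97), (528, 36, 6, 3861), (-1, 1, 279620, 0)])]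

/-- certificates of level 4 -/
def jobs4 : List Job := [
  (1, [(1, .m (.m (.v 7) (.v 4)) (.m (.v 5) (.m (.v 6) (.v 4))))],
    [(1, 16, 8385637, 0), (-4, 46, 86, 113)]),
  (54, [(1, .m (.v 2) (.m (.v 1) (.m (.v 7) (.m (.v 5) (.m (.v 6) (.v 4))))))],
    [(27, 1, 34993255, 0), (-6, 26, 86, 370), (-30, 1, 78181, 114), (-54, 16, 1878992151, 0), (-54, 16, 1878992241, 0), (-54, 8, 6, 373), (-54, 8, 6, 1813), (96, 51, 8384854, 0), (60, 29, 5, 1650), (120, 52, 8384869, 0), (216, 53, 117, 97), (216, 54, 117, 97), (5, 1, 279620, 0)])]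

/-- the certificates of the nine identities -/
def fins : List Cert := [
  (864, [(-30, 1, 70181, 0), (66, 3, 3877, 0), (-30, 2, 3877, 0), (-20, 0, 8741, 0), (432, 1, 69941, 0), (-278, 1, 74005, 1), (20, 1, 69909, 2), (278, 1, 17899301, 0), (-147, 1, 135761, 0), (-278, 1, 78101, 0), (39, 1, 279620, 0)]),
  (48, [(6, 1, 86582, 0), (3, 0, 13142, 0), (-2, 1, 152102, 0), (12, 15, 6, 5), (12, 15, 5, 6), (12, 15, 3941, 0), (-3, 1, 279620, 0)]),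
  (240, [(-48, 2, 1044818, 0), (-30, 1, 18951957, 0), (-10, 0, 2240277, 0), (81, 1, 74322, 0), (30, 1, 74067, 0), (-54, 1, 18947877, 0), (240, 4, 5, 3), (-20, 1, 19996437, 0), (54, 1, 82197, 0), (-49, 1, 279620, 0)]),
  (5, [(5, 16, 24374, 0), (1, 5, 28485, 0), (-20, 7, 6, 81), (-10, 17, 5, 7958), (5, 17, 5, 38), (-4, 17, 5, 98), (-4, 17, 5, 3878), (-5, 8, 5, 3862)]),
  (15, [(-3, 2, 3909, 0), (4, 1, 139813, 0), (15, 1, 70453, 0), (-12, 1, 279620, 0)]),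
  (1, [(-1, 18, 62549, 0), (4, 17, 5, 62033)]),
  (1, [(1, 16, 6288470, 0), (-4, 46, 101, 81)]),
  (48, [(3, 0, 3497798, 0), (3, 1, 218213, 0), (-12, 19, 16725589, 0), (3, 1, 22213733, 0), (-24, 21, 6, 3925), (12, 21, 6, 85), (12, 47, 86, 5), (12, 48, 86, 5), (6, 47, 62806, 0), (6, 48, 62806, 0), (48, 49, 86, 3861), (-12, 8, 6, 1361), (-12, 17, 6, 1362), (-1, 1, 279620, 0)]),
  (16, [(1, 0, 1727291205, 0), (8, 16, 1610564966, 0), (-8, 50, 85, 3942), (4, 50, 85, 102), (8, 55, 1621, 6), (4, 55, 1009237, 0), (-32, 56, 1622, 81)])]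

/-- the certificate of the identity for the fourth powers -/
def tcert : Int × List (Int × Nat × Nat × Nat) × List (Int × Nat × Nat) :=
  (24, [(-6, 1, 69974, 1), (6, 1, 17953110, 0), (4, 0, 4374, 3861), (6, 1, 18280785, 0), (-6, 1, 71009, 1), (-3, 1, 69969, 6), (-3, 1, 69985, 5), (-2, 1, 69910, 5), (3, 1, 17954385, 0)],
    [(12, 0, 5905520145), (6, 0, 23065185), (6, 0, 89910), (6, 0, 1110)])

theorem ok : okAll g5 [jobs1, jobs2, jobs3, jobs4] fins tcert = true := by decide +kernel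

end Pool.Agent.Alb.W1020

namespace Pool.Agent.Alb

open Pool.Agent.Alb.Chk Pool.Agent.Alb.Gen5

universe u v

/-- Perfect finite-dimensional commutative algebras with `(xx)(xx) = x(x(xx))` and `x(y(y(xx))) = 0`
are zero. -/
theorem w_1020 {F : Type u} [Field F] [CharZero F] {V : Type v} [AddCommGroup V]
    [Module F V] [FiniteDimensional F V] (m : V →ₗ[F] V →ₗ[F] V)
    (comm : ∀ x y, m x y = m y x)
    (perf : Submodule.span F {z : V | ∃ a b : V, z = m a b} = ⊤)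
    (hpa4 : ∀ x, m (m x x) (m x x) = m x (m x (m x x)))
    (h : ∀ x y, m x (m y (m y (m x x))) = 0) : Subsingleton V := by
  have h5 : ∀ z, m z (m z (m z (m z z))) = 0 := by
    intro z
    exact h z z
  have hg0 : HoldsAll m W1020.g0 := by
    intro ρ
    simp only [W1020.g0, evP, T.ev, h, smul_zero, add_zero]
  have hg : HoldsAll m W1020.g5 :=
    HoldsAll.der m (HoldsAll.der m (HoldsAll.der m hg0 5 7) 5 8) 6 9
  exact Gen5.main m comm perf hpa4 h5 W1020.g5 hg _ _ _ W1020.ok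

end Pool.Agent.Alb
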