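import Mathlib
import Pool.Agent.Lib_MP_380d39.Gen5

set_option autoImplicit false

/-!
# The word y(x(x(xy)))

Kernel-checked certificates (798 lines) for the class of the word y(x(x(xy))).
-/

namespace Pool.Agent.Alb.W1040

open Pool.Agent.Alb.Chk Pool.Agent.Alb.Gen5

universe u w

def g0 : List (Int × T) := [(1, .m (.v 6) (.m (.v 5) (.m (.v 5) (.m (.v 5) (.v 6)))))]

def g5 : List (Int × T) := derP 6 9 (derP 5 8 (derP 5 7 g0))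

/-- certificates of level 1 -/
def jobs1 : List Job := [
  (36, [(8, .m (.v 2) (.m (.v 5) (.v 2))), (20, .m (.v 3) (.m (.v 5) (.v 1))), (-9, .m (.v 5) (.v 4))],
    [(48, 0, 4389, 0), (10, 0, 4373, 1), (8, 0, 1122069, 0), (63, 1, 69969, 0), (-6, 1, 69909, 0)]),
  (12, [(16, .m (.v 2) (.m (.v 1) (.m (.v 5) (.v 1)))), (-4, .m (.v 3) (.m (.v 5) (.v 1))), (9, .m (.v 5) (.v 4))],
    [(2, 0, 4373, 1), (8, 0, 1122069, 0), (3, 1, 69969, 0), (18, 1, 69909, 0)]),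
  (12, [(4, .m (.v 1) (.m (.v 2) (.m (.v 5) (.v 1)))), (1, .m (.v 5) (.v 4))],
    [(2, 0, 4373, 1), (3, 1, 69969, 0), (2, 1, 69909, 0)]),
  (12, [(1, .m (.v 1) (.m (.v 1) (.m (.v 5) (.v 2)))), (1, .m (.v 1) (.m (.v 5) (.v 3))), (-1, .m (.v 5) (.v 4))],
    [(3, 1, 69969, 0), (-2, 1, 69909, 0)]),
  (6, [(1, .m (.v 1) (.m (.v 6) (.m (.v 5) (.v 2)))), (1, .m (.v 1) (.m (.v 5) (.m (.v 6) (.v 2)))), (-1, .m (.v 5) (.m (.v 1) (.m (.v 6) (.v 2)))), (-1, .m (.v 6) (.m (.v 1) (.m (.v 5) (.v 2)))), (1, .m (.v 1) (.m (.v 2) (.m (.v 5) (.v 6)))), (-4, .m (.v 2) (.m (.v 1) (.m (.v 5) (.v 6)))), (-1, .m (.v 5) (.m (.v 6) (.v 3))), (-1, .m (.v 6) (.m (.v 5) (.v 3))), (1, .m (.v 3) (.m (.v 5) (.v 6)))],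
    [(-3, 1, 69974, 0), (-3, 1, 69989, 0), (3, 1, 71009, 0), (-1, 0, 1122149, 0), (1, 1, 86294, 0)]),
  (6, [(4, .m (.v 6) (.m (.v 2) (.m (.v 5) (.v 1)))), (4, .m (.v 5) (.m (.v 2) (.m (.v 6) (.v 1)))), (-1, .m (.v 5) (.m (.v 1) (.m (.v 6) (.v 2)))), (-1, .m (.v 6) (.m (.v 1) (.m (.v 5) (.v 2)))), (-1, .m (.v 5) (.m (.v 6) (.v 3))), (-1, .m (.v 6) (.m (.v 5) (.v 3)))],
    [(1, 0, 4374, 5), (1, 0, 4373, 6), (2, 1, 86294, 0)]),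
  (72, [(10, .m (.m (.v 5) (.v 1)) (.m (.v 1) (.m (.v 6) (.v 1)))), (-9, .m (.v 5) (.m (.v 2) (.m (.v 6) (.v 1)))), (4, .m (.v 2) (.m (.v 5) (.m (.v 6) (.v 1)))), (4, .m (.m (.v 5) (.v 2)) (.m (.v 6) (.v 1))), (5, .m (.m (.v 5) (.v 1)) (.m (.v 6) (.v 2))), (5, .m (.v 3) (.m (.v 5) (.v 6)))],
    [(48, 0, 4694, 0), (15, 0, 4438, 1), (12, 0, 1142549, 0), (48, 0, 1138454, 0), (-9, 1, 69989, 0), (63, 1, 71009, 0), (63, 1, 69974, 0), (5, 0, 4373, 6), (4, 0, 1122149, 0), (-19, 0, 4374, 5), (-3, 1, 86294, 0)]),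
  (6, [(2, .m (.v 6) (.m (.v 1) (.m (.v 1) (.m (.v 5) (.v 1))))), (4, .m (.v 5) (.m (.v 2) (.m (.v 6) (.v 1)))), (-1, .m (.v 5) (.m (.v 1) (.m (.v 6) (.v 2)))), (-1, .m (.v 5) (.m (.v 6) (.v 3)))],
    [(1, 0, 4374, 5), (2, 1, 86294, 0)]),
  (6, [(8, .m (.v 1) (.m (.m (.v 5) (.v 1)) (.m (.v 6) (.v 1)))), (1, .m (.v 5) (.m (.v 1) (.m (.v 6) (.v 2)))), (1, .m (.v 6) (.m (.v 1) (.m (.v 5) (.v 2)))), (4, .m (.v 1) (.m (.v 2) (.m (.v 5) (.v 6)))), (1, .m (.v 5) (.m (.v 6) (.v 3))), (1, .m (.v 6) (.m (.v 5) (.v 3)))],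
    [(3, 0, 4438, 1), (3, 1, 71009, 0), (3, 1, 69974, 0), (3, 1, 69989, 0), (-1, 1, 86294, 0)]),
  (12, [(1, .m (.v 2) (.m (.v 1) (.m (.v 1) (.m (.v 5) (.v 1)))))],
    [(2, 1, 74005, 0), (-1, 1, 279620, 0)]),
  (12, [(1, .m (.v 3) (.m (.v 5) (.v 4)))],
    [(2, 1, 69909, 3), (-2, 1, 19996437, 0), (1, 1, 279620, 0)]),
  (6, [(2, .m (.v 5) (.m (.v 1) (.m (.v 1) (.m (.v 6) (.v 1))))), (-4, .m (.v 5) (.m (.v 2) (.m (.v 6) (.v 1)))), (1, .m (.v 5) (.m (.v 1) (.m (.v 6) (.v 2)))), (1, .m (.v 5) (.m (.v 6) (.v 3)))],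
    [(-1, 0, 4374, 5)]),
  (12, [(1, .m (.v 3) (.m (.v 1) (.m (.v 1) (.m (.v 5) (.v 1)))))],
    [(2, 1, 78101, 0), (-1, 1, 279620, 0)]),
  (288, [(1, .m (.v 4) (.m (.v 5) (.v 4)))],
    [(48, 0, 8773, 0), (8, 0, 2240293, 0), (10, 0, 8741, 2), (63, 1, 139858, 0), (-6, 1, 139813, 0), (-33, 1, 279620, 0)])]

/-- certificates of level 2 -/
def jobs2 : List Job := [
  (384, [(16, .m (.v 2) (.m (.v 1) (.m (.v 5) (.m (.v 6) (.v 1))))), (-16, .m (.m (.v 5) (.v 3)) (.m (.v 6) (.v 1))), (-8, .m (.v 2) (.m (.v 5) (.m (.v 6) (.v 2)))), (4, .m (.v 3) (.m (.v 1) (.m (.v 5) (.v 6)))), (32, .m (.v 6) (.m (.v 5) (.v 4))), (-9, .m (.v 4) (.m (.v 5) (.v 6)))],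
    [(-3096, 1, 71010, 0), (-1536, 1, 70230, 0), (384, 0, 1142565, 0), (1080, 0, 301035285, 0), (48, 0, 8790, 0), (-108, 0, 4438, 2), (-360, 1, 18280785, 0), (2280, 1, 17953110, 0), (-4476, 10, 28437, 0), (1944, 10, 86, 1), (-1956, 1, 69989, 1), (-3948, 1, 74085, 0), (2640, 8, 28437, 0), (5520, 8, 101, 1), (-4488, 1, 18215265, 0), (-2112, 8, 61782, 0), (384, 8, 61797, 0), (-96, 8, 24342, 0), (-4272, 8, 86, 1), (-768, 1, 136545, 0), (2316, 1, 71009, 1), (7836, 1, 69974, 1), (-3048, 1, 17953125, 0), (5400, 10, 61797, 0), (-5664, 1, 17915670, 0), (1524, 1, 74070, 0), (12984, 9, 101, 1), (440, 0, 287306070, 0), (-6600, 9, 86, 1), (-4476, 9, 61782, 0), (216, 9, 61797, 0), (240, 0, 287306085, 0), (1974, 1, 69985, 5), (24, 2, 6, 5), (-54, 3, 6, 5), (-6240, 5, 3941, 0), (-1512, 5, 5, 6), (1581, 3, 5, 6), (312, 2, 5, 6), (276, 3, 3941, 0), (132, 2, 3941,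 0), (-1792, 1, 22093590, 0), (1420, 1, 69910, 5), (880, 1, 23142165, 0), (-292, 1, 86294, 1), (174, 4, 6, 5), (384, 4, 3941, 0), (-1960, 1, 17899365, 0), (363, 4, 5, 6), (-148, 1, 69909, 6)]),
  (3072, [(2, .m (.v 2) (.m (.v 1) (.m (.v 6) (.m (.v 5) (.v 1))))), (-2, .m (.m (.v 5) (.v 1)) (.m (.v 6) (.v 3))), (1, .m (.v 2) (.m (.v 5) (.m (.v 6) (.v 2)))), (-4, .m (.v 6) (.m (.v 5) (.v 4))), (-2, .m (.v 4) (.m (.v 5) (.v 6)))],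
    [(744, 1, 71010, 0), (1536, 1, 70230, 0), (-2760, 0, 301031190, 0), (48, 0, 8790, 0), (384, 0, 1138470, 0), (276, 0, 4438, 2), (-2664, 1, 18215265, 0), (-3864, 1, 17953125, 0), (2244, 10, 24342, 0), (3036, 1, 69974, 1), (216, 10, 86, 1), (-1200, 8, 24342, 0), (768, 1, 86310, 0), (-2928, 8, 86, 1), (1272, 1, 18280785, 0), (960, 8, 61797, 0), (3456, 8, 61782, 0), (-3936, 8, 28437, 0), (3408, 8, 101, 1), (-372, 1, 71009, 1), (-3300, 1, 69989, 1), (-1128, 1, 17953110, 0), (2580, 1, 74070, 0), (-4008, 10, 61782, 0), (2400, 1, 17919765, 0), (8052, 1, 74085, 0), (-5640, 9, 86, 1), (-200, 0, 287306085, 0), (7032, 9, 101, 1), (2244, 9, 61797, 0), (6936, 9, 61782, 0), (-400, 0, 287306070, 0), (-771, 3, 6, 5), (120, 2, 6, 5), (-4026, 1, 69985, 5), (-2400, 5, 3941, 0), (-1260, 3, 3941, 0), (-252, 2, 3941, 0), (-6696, 5, 5, 6), (-2406, 3, 5, 6), (-168, 2,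 5, 6), (-640, 1, 23142165, 0), (4720, 1, 22093590, 0), (-356, 1, 86294, 1), (987, 4, 6, 5), (-1496, 1, 69910, 5), (-384, 4, 3941, 0), (88, 1, 17899365, 0), (798, 4, 5, 6), (-1296, 1, 69909, 6)]),
  (384, [(4, .m (.v 1) (.m (.v 5) (.m (.v 2) (.m (.v 6) (.v 1))))), (1, .m (.v 6) (.m (.v 5) (.v 4)))],
    [(-24, 1, 71010, 0), (-12, 0, 4438, 2), (120, 0, 301035285, 0), (-492, 1, 74085, 0), (444, 1, 69974, 1), (216, 1, 18280785, 0), (-228, 1, 69989, 1), (12, 1, 71009, 1), (-372, 10, 28437, 0), (456, 1, 17953110, 0), (240, 8, 28437, 0), (-240, 1, 17915670, 0), (-216, 1, 17953125, 0), (432, 8, 101, 1), (-192, 8, 61782, 0), (432, 10, 24342, 0), (-12, 1, 74070, 0), (-432, 8, 86, 1), (-216, 1, 18215265, 0), (864, 9, 101, 1), (40, 0, 287306070, 0), (-48, 9, 61797, 0), (-372, 9, 61782, 0), (-480, 9, 86, 1), (246, 1, 69985, 5), (60, 3, 3941, 0), (12, 2, 3941,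 0), (24, 5, 5, 6), (135, 3, 5, 6), (-240, 1, 22093590, 0), (80, 1, 23142165, 0), (164, 1, 69910, 5), (-72, 1, 17899365, 0), (-60, 1, 86294, 1), (-135, 4, 5, 6), (-108, 1, 69909, 6)]),
  (384, [(4, .m (.m (.v 5) (.v 1)) (.m (.v 2) (.m (.v 6) (.v 1)))), (1, .m (.v 4) (.m (.v 5) (.v 6)))],
    [(-24, 1, 71010, 0), (-12, 0, 4438, 2), (120, 0, 301031190, 0), (12, 1, 71009, 1), (24, 1, 69974, 1), (-18, 1, 17919765, 0), (246, 1, 17953110, 0), (-492, 1, 74085, 0), (6, 1, 18280785, 0), (48, 10, 28437, 0), (240, 8, 28437, 0), (-30, 1, 17915670, 0), (-6, 1, 17953125, 0), (-12, 1, 74070, 0), (12, 8, 101, 1), (-6, 1, 18215265, 0), (-12, 8, 86, 1), (12, 10, 24342, 0), (-192, 8, 61782, 0), (24, 9, 101, 1), (40, 0, 287306070, 0), (-48, 9, 61797, 0), (-24, 9, 86, 1), (12, 9, 61782, 0), (246, 1, 69985, 5), (6, 1, 69969, 6), (135, 3, 5, 6), (60, 3, 3941, 0), (12,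 2, 3941, 0), (164, 1, 69910, 5), (4, 1, 86294, 1), (-176, 1, 69909, 6), (-310, 1, 22093590, 0), (86, 1, 23142165, 0), (-135, 4, 5, 6), (-8, 1, 17899365, 0)]),
  (1360, [(1, .m (.v 3) (.m (.v 1) (.m (.v 5) (.v 2))))],
    [(-35, 3, 5, 2), (-304, 5, 5, 2), (76, 1, 74066, 0), (280, 1, 74021, 0), (-7, 2, 5, 2), (36, 0, 8741, 0), (-35, 3, 3877, 0), (61, 2, 3877, 0), (-140, 4, 5, 2), (-122, 1, 279620, 0)]),
  (192, [(1, .m (.v 3) (.m (.v 2) (.m (.v 5) (.v 1))))],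
    [(-32, 0, 287306066, 0), (-24, 2, 5, 17), (2, 0, 8741, 0), (3, 2, 5, 2), (15, 3, 5, 2), (480, 5, 3861, 1), (36, 3, 3861, 1), (1104, 5, 1044817, 0), (-30, 2, 1044817, 0), (-48, 2, 3861, 1), (96, 1, 70181, 0), (-216, 4, 5, 17), (-48, 1, 69909, 2), (-48, 4, 3877, 0), (192, 4, 5, 2), (-276, 4, 3861, 1), (834, 4, 1044817, 0), (48, 1, 18947861, 0), (-652, 1, 74005, 1), (100, 1, 78101, 0), (205, 1, 279620, 0)]),
  (183600, [(1, .m (.v 3) (.m (.v 5) (.v 3)))],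
    [(18360, 0, 4405, 1), (73440, 0, 4421, 0), (183600, 1, 70481, 0), (-30600, 0, 1122101, 0), (-190680, 1, 74021, 0), (165240, 1, 70181, 0), (-32640, 2, 1044817, 0), (-146880, 1, 69941, 0), (40155, 3, 5, 2), (8031, 2, 5, 2), (845952, 5, 5, 2), (-27888, 1, 74066, 0), (-330480, 5, 3877, 0), (-22065, 3, 3877, 0), (-4413, 2, 3877, 0), (2412, 0, 8741, 0), (95340, 4, 5, 2), (-82620, 4, 3877, 0), (-82620, 1, 135761, 0), (108800, 1, 78101, 0), (-28234, 1, 279620, 0)]),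
  (192, [(1, .m (.v 1) (.m (.v 5) (.v 4)))],
    [(-6, 1, 69970, 0), (-2, 0, 4373, 2), (108, 5, 3861, 0), (30, 3, 3861, 0), (6, 2, 3861, 0), (12, 5, 5, 1), (27, 3, 5, 1), (-108, 4, 3861, 0), (-27, 4, 5, 1), (-82, 1, 74005, 0), (41, 1, 279620, 0)]),
  (8, [(1, .m (.v 2) (.m (.v 5) (.v 4)))],
    [(-4, 5, 5, 2), (1, 1, 74066, 0)]),
  (192, [(1, .m (.v 4) (.m (.v 5) (.v 1)))],
    [(-6, 1, 69970, 0), (-2, 0, 4373, 2), (3, 3, 5, 1), (12, 5, 5, 1), (12, 5, 3861, 0), (30, 3, 3861, 0), (6, 2, 3861, 0), (-3, 4, 5, 1), (-12, 4, 3861, 0), (-82, 1, 74005, 0), (41, 1, 279620, 0)]),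
  (1536, [(1, .m (.v 2) (.m (.v 5) (.v 3)))],
    [(96, 0, 4405, 0), (414, 1, 69970, 0), (-32, 0, 1122085, 0), (10, 0, 4373, 2), (-384, 1, 69925, 0), (-135, 3, 5, 1), (-24, 2, 5, 1), (324, 5, 3861, 0), (-246, 3, 3861, 0), (-30, 2, 3861, 0), (-444, 5, 5, 1), (111, 4, 5, 1), (732, 4, 3861, 0), (538, 1, 74005, 0), (-29, 1, 279620, 0)]),
  (384, [(1, .m (.v 3) (.m (.v 5) (.v 2)))],
    [(24, 0, 4645, 0), (78, 1, 69970, 0), (10, 0, 4373, 2), (-156, 5, 5, 1), (-27, 3, 5, 1), (-348, 5, 3861, 0), (-90, 3, 3861, 0), (-18, 2, 3861, 0), (12, 2, 5, 1), (87, 4, 5, 1), (108, 4, 3861, 0), (234, 1, 74005, 0), (-105, 1, 279620, 0)]),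
  (2720, [(1, .m (.v 2) (.m (.v 1) (.m (.v 5) (.v 3))))],
    [(-1040, 1, 74021, 0), (130, 3, 5, 2), (26, 2, 5, 2), (-40, 3, 3877, 0), (-8, 2, 3877, 0), (12, 0, 8741, 0), (2052, 5, 5, 2), (167, 1, 74066, 0), (520, 4, 5, 2), (526, 1, 279620, 0)]),
  (2720, [(1, .m (.v 2) (.m (.v 3) (.m (.v 5) (.v 1))))],
    [(1280, 1, 74021, 0), (-1652, 5, 5, 2), (413, 1, 74066, 0), (-160, 3, 3877, 0), (-32, 2, 3877, 0), (48, 0, 8741, 0), (-160, 3, 5, 2), (104, 2, 5, 2), (-640, 4, 5, 2), (-616, 1, 279620, 0)]),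
  (204, [(1, .m (.v 4) (.m (.v 5) (.v 2)))],
    [(-120, 1, 74021, 0), (15, 3, 5, 2), (3, 2, 5, 2), (72, 5, 5, 2), (-18, 1, 74066, 0), (15, 3, 3877, 0), (3, 2, 3877, 0), (4, 0, 8741, 0), (60, 4, 5, 2), (62, 1, 279620, 0)]),
  (3, [(1, .m (.v 4) (.m (.v 1) (.m (.v 5) (.v 1))))],
    [(3, 4, 1044817, 0), (-2, 1, 74005, 1), (1, 1, 279620, 0)]),
  (1536, [(1, .m (.v 2) (.m (.v 1) (.m (.v 5) (.v 2))))],
    [(24, 0, 4645, 0), (90, 1, 69970, 0), (14, 0, 4373, 2), (64, 0, 1122085, 0), (15, 3, 5, 1), (-1140, 5, 3861, 0), (-150, 3, 3861, 0), (-30, 2, 3861, 0), (60, 2, 5, 1), (-180, 5, 5, 1), (384, 1, 69925, 0), (93, 4, 5, 1), (-252, 4, 3861, 0), (398, 1, 74005, 0), (-379, 1, 279620, 0)]),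
  (480, [(1, .m (.v 4) (.m (.v 5) (.v 3)))],
    [(120, 3, 3877, 1), (24, 2, 3877, 1), (-852, 5, 5, 33), (-267, 1, 74066, 1), (-36, 0, 8741, 1), (480, 4, 3893, 0), (-104, 1, 135717, 0), (34, 1, 279620, 0)]),
  (96, [(1, .m (.v 4) (.m (.v 1) (.m (.v 5) (.v 2))))],
    [(3, 3, 3877, 1), (6, 2, 3877, 1), (-108, 5, 1045073, 0), (27, 4, 3877, 1), (-12, 4, 1045073, 0), (-8, 1, 135717, 0), (4, 1, 279620, 0)]),
  (1, [(1, .m (.v 6) (.m (.v 1) (.m (.v 1) (.m (.v 5) (.v 2))))), (1, .m (.v 6) (.m (.v 1) (.m (.v 5) (.v 3)))), (-1, .m (.v 6) (.m (.v 5) (.v 4)))],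
    [(1, 5, 5, 6)]),
  (3072, [(2, .m (.v 2) (.m (.v 5) (.m (.v 1) (.m (.v 6) (.v 1))))), (2, .m (.m (.v 5) (.v 3)) (.m (.v 6) (.v 1))), (1, .m (.v 2) (.m (.v 5) (.m (.v 6) (.v 2))))],
    [(3096, 1, 71010, 0), (-1536, 1, 70245, 0), (-384, 0, 1142565, 0), (-48, 0, 8790, 0), (108, 0, 4438, 2), (-1080, 0, 291500385, 0), (-216, 10, 86, 1), (3948, 1, 74085, 0), (-2640, 8, 28437, 0), (-276, 8, 101, 1), (2112, 8, 61782, 0), (-2544, 8, 61797, 0), (-768, 1, 86310, 0), (1050, 1, 17953125, 0), (-204, 8, 86, 1), (1062, 1, 18280785, 0), (-1578, 1, 17953110, 0), (-1752, 1, 69989, 1), (2238, 1, 17919765, 0), (-1548, 1, 71009, 1), (-1824, 1, 69974, 1), (330, 1, 18215265, 0), (-156, 10, 61797, 0), (882, 1, 17915670, 0), (2256, 8, 24342, 0), (1548, 1, 74070, 0), (-440, 0, 287306070, 0), (-240, 0, 287306085, 0), (624, 13, 86, 1), (-768, 9, 101, 1), (-4476, 13, 61782,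 0), (-4536, 9, 61797, 0), (2400, 5, 3941, 0), (-132, 2, 3941, 0), (-1389, 3, 5, 6), (-120, 2, 5, 6), (-774, 1, 69969, 6), (-660, 3, 3941, 0), (168, 2, 6, 5), (1326, 3, 6, 5), (-1590, 1, 69985, 5), (384, 4, 3941, 0), (1192, 1, 17899365, 0), (1173, 4, 5, 6), (1176, 1, 69909, 6), (282, 4, 6, 5), (-2604, 1, 69910, 5), (4106, 1, 22093590, 0), (-492, 1, 86294, 1), (-134, 1, 23142165, 0)]),
  (1, [(4, .m (.v 6) (.m (.v 1) (.m (.v 2) (.m (.v 5) (.v 1))))), (1, .m (.v 6) (.m (.v 5) (.v 4)))],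
    [(1, 4, 5, 6)]),
  (1, [(20, .m (.v 6) (.m (.v 3) (.m (.v 5) (.v 1)))), (8, .m (.v 6) (.m (.v 2) (.m (.v 5) (.v 2)))), (-9, .m (.v 6) (.m (.v 5) (.v 4)))],
    [(1, 2, 5, 6)]),
  (96, [(1, .m (.v 1) (.m (.v 2) (.m (.v 5) (.v 2))))],
    [(6, 1, 69970, 0), (2, 0, 4373, 2), (-12, 5, 5, 1), (3, 3, 5, 1), (-228, 5, 3861, 0), (-30, 3, 3861, 0), (-6, 2, 3861, 0), (12, 2, 5, 1), (57, 4, 5, 1), (-12, 4, 3861, 0), (82, 1, 74005, 0), (-41, 1, 279620, 0)]),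
  (384, [(1, .m (.v 2) (.m (.v 2) (.m (.v 5) (.v 1))))],
    [(54, 1, 69970, 0), (18, 0, 4373, 2), (-108, 5, 5, 1), (-27, 3, 5, 1), (-30, 3, 3861, 0), (-108, 5, 3861, 0), (-6, 2, 3861, 0), (108, 4, 3861, 0), (27, 4, 5, 1), (98, 1, 74005, 0), (-49, 1, 279620, 0)]),
  (768, [(1, .m (.v 3) (.m (.v 1) (.m (.v 5) (.v 1))))],
    [(-54, 1, 69970, 0), (-18, 0, 4373, 2), (108, 5, 5, 1), (27, 3, 5, 1), (108, 5, 3861, 0), (78, 3, 3861, 0), (54, 2, 3861, 0), (-108, 4, 3861, 0), (-27, 4, 5, 1), (-226, 1, 74005, 0), (113, 1, 279620, 0)]),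
  (2720, [(1, .m (.v 2) (.m (.v 1) (.m (.v 1) (.m (.v 5) (.v 2)))))],
    [(-130, 3, 5, 2), (-26, 2, 5, 2), (-12, 0, 8741, 0), (8, 2, 3877, 0), (-692, 5, 5, 2), (40, 3, 3877, 0), (173, 1, 74066, 0), (1040, 1, 74021, 0), (-520, 4, 5, 2), (-526, 1, 279620, 0)]),
  (384, [(1, .m (.v 1) (.m (.v 1) (.m (.v 1) (.m (.v 5) (.v 2)))))],
    [(-6, 1, 69970, 0), (-2, 0, 4373, 2), (6, 2, 3861, 0), (30, 3, 3861, 0), (15, 3, 5, 1), (60, 5, 3861, 0), (12, 5, 5, 1), (192, 1, 69925, 0), (-156, 4, 3861, 0), (-111, 4, 5, 1), (-82, 1, 74005, 0), (-55, 1, 279620, 0)]),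
  (384, [(1, .m (.v 1) (.m (.v 1) (.m (.v 5) (.v 3))))],
    [(-6, 1, 69970, 0), (-2, 0, 4373, 2), (-192, 1, 69925, 0), (39, 3, 5, 1), (156, 5, 3861, 0), (30, 3, 3861, 0), (6, 2, 3861, 0), (396, 5, 5, 1), (57, 4, 5, 1), (-60, 4, 3861, 0), (-82, 1, 74005, 0), (137, 1, 279620, 0)]),
  (272, [(1, .m (.v 2) (.m (.v 2) (.m (.v 5) (.v 2))))],
    [(40, 3, 5, 2), (260, 5, 5, 2), (-65, 1, 74066, 0), (-320, 1, 74021, 0), (40, 3, 3877, 0), (8, 2, 5, 2), (8, 2, 3877, 0), (-12, 0, 8741, 0), (160, 4, 5, 2), (154, 1, 279620, 0)]),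
  (384, [(1, .m (.m (.v 5) (.v 1)) (.m (.v 1) (.m (.v 6) (.v 2)))), (1, .m (.m (.v 5) (.v 1)) (.m (.v 6) (.v 3))), (2, .m (.v 6) (.m (.v 5) (.v 4))), (1, .m (.v 4) (.m (.v 5) (.v 6)))],
    [(-24, 1, 71010, 0), (120, 0, 292548945, 0), (-12, 0, 4438, 2), (24, 1, 18215265, 0), (24, 1, 17953125, 0), (-48, 10, 24342, 0), (-36, 1, 69974, 1), (-24, 1, 17953110, 0), (48, 8, 61782, 0), (-492, 1, 74085, 0), (48, 8, 86, 1), (-48, 8, 101, 1), (-24, 1, 18280785, 0), (60, 1, 69989, 1), (12, 1, 71009, 1), (-12, 1, 74070, 0), (108, 10, 61782, 0), (192, 1, 17919765, 0), (-96, 9, 101, 1), (-48, 9, 61797, 0), (40, 0, 287306070, 0), (96, 9, 86, 1), (108, 9, 61782, 0), (246, 1, 69985, 5), (60, 3, 3941, 0), (12, 2, 3941, 0), (24, 5, 5, 6), (15, 3, 5, 6), (164, 1, 69910, 5), (-320, 1, 22093590, 0), (4, 1, 86294, 1), (-64, 1, 23142165, 0), (-8, 1, 17899365, 0), (-15,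 4, 5, 6), (116, 1, 69909, 6)])]

/-- certificates of level 3 -/
def jobs3 : List Job := [
  (4, [(1, .m (.v 2) (.m (.v 1) (.m (.v 5) (.m (.v 6) (.v 4)))))],
    [(4, 1, 74838, 0), (-4, 23, 6, 82), (-4, 25, 6, 82), (-4, 30, 5, 22), (-4, 23, 3941, 2), (-4, 33, 5, 6), (-4, 24, 1044837, 0), (-4, 34, 5, 6), (-4, 25, 3941, 2), (-1, 1, 279620, 0)]),
  (5, [(1, .m (.v 3) (.m (.v 5) (.m (.v 6) (.v 4))))],
    [(1, 8, 24390, 0), (-10, 23, 6, 7957), (9, 23, 6, 37), (-4, 23, 6, 82), (-4, 23, 6, 3877), (-5, 24, 6, 3861)]),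
  (1, [(1, .m (.m (.v 5) (.v 3)) (.m (.v 6) (.v 4)))],
    [(1, 18, 28469, 0), (-4, 28, 5, 97)]),
  (960, [(1, .m (.v 2) (.m (.v 1) (.m (.v 5) (.m (.v 6) (.v 3)))))],
    [(960, 1, 19029782, 0), (-1800, 1, 69989, 3), (240, 1, 136545, 2), (480, 7, 16721429, 0), (240, 36, 24358, 0), (186, 2, 268375318, 0), (-174, 2, 268375573, 0), (216, 36, 86, 2), (24, 38, 86, 2), (480, 35, 86, 2), (216, 17, 101, 2), (720, 8, 6287969, 0), (-480, 1, 74597, 0), (-60, 3, 6, 82), (-36, 38, 101, 2), (-240, 36, 28453, 0), (-480, 7, 16721174, 0), (-264, 17, 86, 2), (-744, 36, 101, 2), (-60, 16, 101, 2), (-3360, 35, 101, 2), (-2880, 35, 28453, 0), (720, 8, 24374, 0), (480, 1, 74582, 0), (-480, 19, 62053, 0), (480, 19, 62038, 0), (-60, 1, 20016917, 0), (20, 1, 86294, 3), (1740, 1, 20012822, 0), (24, 1, 139877, 0), (24, 1, 139862, 0), (-360, 18, 86, 2), (-120, 18, 101, 2),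 (-240, 37, 101, 2), (-783, 1, 82262, 0), (837, 1, 82277, 0), (480, 19, 24358, 0), (-2880, 18, 28453, 0), (-480, 19, 28453, 0), (-4440, 23, 5, 3862), (-1440, 32, 1044837, 0), (-960, 39, 5, 3862), (-960, 26, 5, 3862), (-1392, 40, 1044837, 0), (960, 32, 5, 3862), (3720, 41, 1044822, 0), (3600, 14, 3941, 0), (-480, 32, 1044822, 0), (4560, 42, 6, 5), (480, 32, 6, 21), (960, 20, 6, 5), (-636, 24, 3941, 0), (-7200, 43, 6, 3861), (-5520, 32, 6, 3861), (480, 27, 6, 21), (480, 22, 6, 5), (480, 26, 1044822, 0), (240, 29, 3941, 0), (1920, 42, 5, 6), (-480, 32, 5, 22), (-960, 20, 5, 6), (1488, 40, 1044822, 0), (-7080, 44, 6, 3861), (6480, 28, 6, 5), (-3600, 26, 6, 3861), (-480, 27, 5, 22), (-480, 22, 5, 6), (-480, 26, 1044837, 0), (120, 23, 6, 3861), (-3480, 41, 1044837, 0), (-3480, 44, 5, 3862), (-48, 24, 6, 5), (-48, 45, 6, 5), (-96, 45, 3941, 0), (-48, 24,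 5, 6), (-48, 45, 5, 6), (1566, 25, 1044837, 0), (1566, 23, 5, 22), (-108, 31, 3941, 0), (-1674, 25, 1044822, 0), (-1674, 23, 6, 21), (11520, 32, 5, 97), (-466, 1, 279620, 0)]),
  (1, [(1, .m (.v 4) (.m (.v 5) (.m (.v 6) (.v 3))))],
    [(1, 19, 24374, 0), (-4, 28, 6, 3861)]),
  (1, [(1, .m (.m (.v 5) (.v 4)) (.m (.v 6) (.v 4)))],
    [(1, 18, 28485, 0), (-4, 23, 5, 609)]),
  (1, [(1, .m (.v 4) (.m (.v 5) (.m (.v 6) (.v 4))))],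
    [(1, 46, 62565, 0), (-1, 23, 6, 1045073), (-1, 23, 6, 3893), (-2, 15, 6, 5)])]

/-- certificates of level 4 -/
def jobs4 : List Job := [
  (1, [(1, .m (.m (.v 7) (.v 4)) (.m (.v 5) (.m (.v 6) (.v 4))))],
    [(1, 18, 8385637, 0), (-4, 47, 86, 113)]),
  (1, [(1, .m (.v 4) (.m (.v 7) (.m (.v 5) (.m (.v 6) (.v 4)))))],
    [(1, 19, 8385637, 0), (-4, 47, 86, 3863)])]

/-- the certificates of the nine identities -/
def fins : List Cert := [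
  (183600, [(18360, 0, 4405, 1), (73440, 0, 4421, 0), (183600, 1, 70481, 0), (-30600, 0, 1122101, 0), (-190680, 1, 74021, 0), (165240, 1, 70181, 0), (-32640, 2, 1044817, 0), (-146880, 1, 69941, 0), (40155, 3, 5, 2), (8031, 2, 5, 2), (845952, 5, 5, 2), (-27888, 1, 74066, 0), (-330480, 5, 3877, 0), (-22065, 3, 3877, 0), (-4413, 2, 3877, 0), (2412, 0, 8741, 0), (95340, 4, 5, 2), (-82620, 4, 3877, 0), (-82620, 1, 135761, 0), (108800, 1, 78101, 0), (-28234, 1, 279620, 0)]),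
  (960, [(60, 7, 86, 3), (-300, 6, 86, 3), (-108, 0, 1142597, 0), (-108, 0, 1138502, 0), (-54, 0, 5206, 1), (27, 2, 1045078, 0), (-240, 1, 78437, 0), (27, 2, 1045093, 0), (-240, 1, 78422, 0), (-216, 17, 101, 2), (27, 16, 86, 2), (60, 0, 13142, 0), (-432, 18, 6287713, 0), (-540, 1, 70757, 0), (-432, 18, 7336273, 0), (-540, 1, 70742, 0), (-216, 18, 28453, 0), (243, 19, 28453, 0), (-216, 18, 24358, 0), (243, 19, 24358, 0), (780, 20, 3941, 0), (-720, 21, 3941, 0), (540, 22, 3941, 0), (1728, 23, 5, 3862), (-432, 23, 5, 22), (24, 24, 5, 6), (1728, 23, 6, 3861), (-432, 23, 6, 21), (24, 24, 6, 5), (432, 25, 6, 81), (432, 25, 5, 97), (972, 23, 3941, 1), (432, 23, 1044837, 0), (432, 23, 1044822, 0), (972, 25, 3941, 1), (240, 26, 6, 21), (240, 27, 1044822, 0), (240, 28, 6, 5), (240, 26, 5, 22), (240, 27, 1044837, 0), (240, 28, 5, 6), (-189, 24, 3941, 0), (-108,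 29, 3941, 0), (240, 22, 6, 5), (240, 22, 5, 6), (1728, 11, 6, 81), (540, 25, 6, 21), (540, 30, 6, 5), (540, 31, 6, 5), (1728, 11, 5, 97), (540, 25, 5, 22), (540, 30, 5, 6), (540, 31, 5, 6), (864, 32, 5, 97), (-972, 32, 5, 3862), (864, 32, 6, 81), (-972, 32, 6, 3861), (388, 1, 279620, 0)]),
  (12, [(2, 1, 69909, 3), (-2, 1, 19996437, 0), (1, 1, 279620, 0)]),
  (5, [(5, 18, 24374, 0), (1, 8, 28485, 0), (-20, 28, 6, 81), (-10, 23, 5, 7958), (9, 23, 5, 38), (-4, 23, 5, 98), (-4, 23, 5, 3878), (-5, 24, 5, 3862)]),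
  (288, [(48, 0, 8773, 0), (8, 0, 2240293, 0), (10, 0, 8741, 2), (63, 1, 139858, 0), (-6, 1, 139813, 0), (-33, 1, 279620, 0)]),
  (1, [(1, 18, 24389, 0), (-4, 23, 5, 593)]),
  (1, [(1, 18, 6288470, 0), (-4, 47, 101, 81)]),
  (48, [(3, 0, 3497798, 0), (12, 18, 7336789, 0), (6, 1, 275798, 0), (-24, 12, 6, 3925), (12, 12, 6, 85), (12, 48, 86, 5), (12, 49, 86, 5), (6, 48, 62806, 0), (6, 49, 62806, 0), (-48, 50, 85, 97), (-12, 33, 5, 86), (-12, 48, 24421, 0), (-12, 51, 85, 6), (-12, 12, 1046101, 0), (-1, 1, 279620, 0)]),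
  (16, [(1, 0, 1727291205, 0), (4, 1, 72773445, 0), (-8, 52, 85, 3942), (4, 52, 85, 102), (8, 54, 1621, 6), (4, 54, 1009237, 0), (-8, 15, 5, 1637), (-8, 53, 101, 101), (-8, 54, 456277, 0), (-8, 55, 1622, 5), (-8, 52, 6288982, 0)])]

/-- the certificate of the identity for the fourth powers -/
def tcert : Int × List (Int × Nat × Nat × Nat) × List (Int × Nat × Nat) :=
  (24, [(-6, 1, 69989, 1), (6, 1, 17919765, 0), (4, 0, 4374, 3861), (-3, 1, 69985, 5), (-2, 1, 86294, 1), (2, 1, 23142165, 0), (-2, 1, 69909, 6), (-2, 1, 69910, 5), (2, 1, 17899365, 0)],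
    [(12, 0, 5905520145), (6, 0, 23065185), (6, 0, 89910), (6, 0, 1110)])

theorem ok : okAll g5 [jobs1, jobs2, jobs3, jobs4] fins tcert = true := by decide +kernel

end Pool.Agent.Alb.W1040

namespace Pool.Agent.Alb

open Pool.Agent.Alb.Chk Pool.Agent.Alb.Gen5

universe u v

/-- Perfect finite-dimensional commutative algebras with `(xx)(xx) = x(x(xx))` and `y(x(x(xy))) = 0`
are zero. -/
theorem w_1040 {F : Type u} [Field F] [CharZero F] {V : Type v} [AddCommGroup V]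
    [Module F V] [FiniteDimensional F V] (m : V →ₗ[F] V →ₗ[F] V)
    (comm : ∀ x y, m x y = m y x)
    (perf : Submodule.span F {z : V | ∃ a b : V, z = m a b} = ⊤)
    (hpa4 : ∀ x, m (m x x) (m x x) = m x (m x (m x x)))
    (h : ∀ x y, m y (m x (m x (m x y))) = 0) : Subsingleton V := by
  have h5 : ∀ z, m z (m z (m z (m z z))) = 0 := by
    intro z
    exact h z z
  have hg0 : HoldsAll m W1040.g0 := by
    intro ρ
    simp only [W1040.g0, evP, T.ev, h, smul_zero, add_zero]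
  have hg : HoldsAll m W1040.g5 :=
    HoldsAll.der m (HoldsAll.der m (HoldsAll.der m hg0 5 7) 5 8) 6 9
  exact Gen5.main m comm perf hpa4 h5 W1040.g5 hg _ _ _ W1040.ok

end Pool.Agent.Alb
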