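import Mathlib
import Pool.Agent.Lib_MP_380d39.Gen5

set_option autoImplicit false

/-!
# The word x(x(y(xy)))

Kernel-checked certificates (2761 lines) for the class of the word x(x(y(xy))).
-/

namespace Pool.Agent.Alb.W1100

open Pool.Agent.Alb.Chk Pool.Agent.Alb.Gen5

universe u w

def g0 : List (Int × T) := [(1, .m (.v 5) (.m (.v 5) (.m (.v 6) (.m (.v 5) (.v 6)))))]

def g5 : List (Int × T) := derP 6 9 (derP 5 8 (derP 5 7 g0))

/-- a line of a certificate -/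
abbrev mk (c : Int) (i a p : Nat) : Int × Nat × Nat × Nat := (c, i, a, p)

abbrev v1 : T := .v (nat_lit 1)
abbrev v2 : T := .v (nat_lit 2)
abbrev v3 : T := .v (nat_lit 3)
abbrev v4 : T := .v (nat_lit 4)
abbrev v5 : T := .v (nat_lit 5)
abbrev v6 : T := .v (nat_lit 6)
abbrev v7 : T := .v (nat_lit 7)
abbrev v8 : T := .v (nat_lit 8)
abbrev v9 : T := .v (nat_lit 9)

def p2 : List (Int × T) :=
  [((.ofNat (nat_lit 4)), .m (.m v5 v6) (.m v7 v8)), ((.negSucc (nat_lit 0)), .m v5 (.m v6 (.m v7 v8))), ((.ofNat (nat_lit 4)), .m (.m v5 v7) (.m v6 v8)), ((.negSucc (nat_lit 0)), .m v5 (.m v7 (.m v6 v8))), ((.ofNat (nat_lit 4)), .m (.m v5 v8) (.m v6 v7)), ((.negSucc (nat_lit 0)), .m v5 (.m v8 (.m v6 v7))), ((.negSucc (nat_lit 0)), .m v6 (.m v5 (.m v7 v8))), ((.negSucc (nat_lit 0)), .m v6 (.m v7 (.m v5 v8))), ((.negSucc (nat_lit 0)), .m v6 (.m v8 (.m v5 v7))), ((.negSucc (nat_lit 0)), .m v7 (.m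 v5 (.m v6 v8))), ((.negSucc (nat_lit 0)), .m v7 (.m v6 (.m v5 v8))), ((.negSucc (nat_lit 0)), .m v7 (.m v8 (.m v5 v6))), ((.negSucc (nat_lit 0)), .m v8 (.m v5 (.m v6 v7))), ((.negSucc (nat_lit 0)), .m v8 (.m v6 (.m v5 v7))), ((.negSucc (nat_lit 0)), .m v8 (.m v7 (.m v5 v6)))]

def p3 : List (Int × T) :=
  [((.ofNat (nat_lit 1)), .m v5 (.m v7 (.m v6 (.m v8 v9)))), ((.ofNat (nat_lit 1)), .m v5 (.m v7 (.m v9 (.m v6 v8)))), ((.ofNat (nat_lit 1)), .m v5 (.m v8 (.m v6 (.m v7 v9)))), ((.ofNat (nat_lit 1)), .m v5 (.m v8 (.m v9 (.m v6 v7)))), ((.ofNat (nat_lit 1)), .m v7 (.m v5 (.m v6 (.m v8 v9)))), ((.ofNat (nat_lit 1)), .m v7 (.m v5 (.m v9 (.m v6 v8)))), ((.ofNat (nat_lit 1)), .m v7 (.m v8 (.m v6 (.m v5 v9)))), ((.ofNat (nat_lit 1)), .m v7 (.m v8 (.m v9 (.m v5 v6)))), ((.ofNat (nat_lit 1)), .m v8 (.m v5 (.m v6 (.m v7 v9)))), ((.ofNat (nat_lit 1)), .m v8 (.m v5 (.m v9 (.m v6 v7)))), ((.ofNat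 (nat_lit 1)), .m v8 (.m v7 (.m v6 (.m v5 v9)))), ((.ofNat (nat_lit 1)), .m v8 (.m v7 (.m v9 (.m v5 v6))))]

/-- the identities in expanded form -/
def jobs0 : List Job := [
  ((.ofNat (nat_lit 2)), p2, [mk (.ofNat (nat_lit 1)) (nat_lit 0) (nat_lit 22136) (nat_lit 0)]),
  ((.ofNat (nat_lit 1)), p3, [mk (.ofNat (nat_lit 1)) (nat_lit 1) (nat_lit 354185) (nat_lit 0)])]

def ids1 : List (List (Int × T)) := [pa4, g5, p2, p3]

theorem okL0 : jobs0.all (checkJ [pa4, g5]) = true := by decide +kernel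

def p4 : List (Int × T) :=
  [((.ofNat (nat_lit 8)), .m v2 (.m v5 v2)), ((.negSucc (nat_lit 7)), .m v1 (.m v5 v3)), ((.ofNat (nat_lit 20)), .m v3 (.m v5 v1)), ((.negSucc (nat_lit 8)), .m v5 v4)]

def p5 : List (Int × T) :=
  [((.ofNat (nat_lit 4)), .m v1 (.m v2 (.m v5 v1))), ((.ofNat (nat_lit 1)), .m v5 v4)]

def p6 : List (Int × T) :=
  [((.ofNat (nat_lit 1)), .m v1 (.m v1 (.m v5 v2))), ((.negSucc (nat_lit 0)), .m v1 (.m v5 v3)), ((.negSucc (nat_lit 0)), .m v5 v4)]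

def p7 : List (Int × T) :=
  [((.ofNat (nat_lit 2)), .m v5 (.m v1 (.m v1 (.m v6 v1)))), ((.negSucc (nat_lit 3)), .m v5 (.m v2 (.m v6 v1))), ((.ofNat (nat_lit 1)), .m v5 (.m v1 (.m v6 v2))), ((.ofNat (nat_lit 1)), .m v5 (.m v6 v3))]

def p8 : List (Int × T) :=
  [((.ofNat (nat_lit 2)), .m v1 (.m (.m v5 v1) (.m v6 v1))), ((.negSucc (nat_lit 0)), .m v2 (.m v6 (.m v5 v1))), ((.negSucc (nat_lit 0)), .m v2 (.m v5 (.m v6 v1))), ((.ofNat (nat_lit 4)), .m (.m v5 v2) (.m v6 v1)), ((.ofNat (nat_lit 4)), .m (.m v5 v1) (.m v6 v2)), ((.negSucc (nat_lit 0)), .m v1 (.m v2 (.m v5 v6))), ((.ofNat (nat_lit 3)), .m v2 (.m v1 (.m v5 v6))), ((.negSucc (nat_lit 1)), .m v6 (.m v5 v3)), ((.negSucc (nat_lit 1)), .m v5 (.m v6 v3)), ((.ofNat (nat_lit 3)), .m v3 (.m v5 v6))]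

def p9 : List (Int × T) :=
  [((.ofNat (nat_lit 16)), .m v2 (.m v1 (.m v5 v1))), ((.ofNat (nat_lit 8)), .m v1 (.m v5 v3)), ((.negSucc (nat_lit 3)), .m v3 (.m v5 v1)), ((.ofNat (nat_lit 9)), .m v5 v4)]

def p10 : List (Int × T) :=
  [((.ofNat (nat_lit 1)), .m v6 (.m v1 (.m v5 v2))), ((.ofNat (nat_lit 1)), .m v1 (.m v6 (.m v5 v2))), ((.ofNat (nat_lit 1)), .m v5 (.m v1 (.m v6 v2))), ((.ofNat (nat_lit 1)), .m v1 (.m v5 (.m v6 v2))), ((.negSucc (nat_lit 0)), .m v1 (.m v2 (.m v5 v6))), ((.ofNat (nat_lit 4)), .m v2 (.m v1 (.m v5 v6))), ((.negSucc (nat_lit 0)), .m v6 (.m v5 v3)), ((.negSucc (nat_lit 0)), .m v5 (.m v6 v3)), ((.negSucc (nat_lit 0)), .m v3 (.m v5 v6))]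

/-- certificates of level 1 -/
def jobs1 : List Job := [
  ((.ofNat (nat_lit 36)), p4,
    [mk (.ofNat (nat_lit 96)) (nat_lit 2) (nat_lit 4389) (nat_lit 0), mk (.ofNat (nat_lit 16)) (nat_lit 2) (nat_lit 1122069) (nat_lit 0), mk (.ofNat (nat_lit 20)) (nat_lit 2) (nat_lit 4373) (nat_lit 1), mk (.negSucc (nat_lit 8)) (nat_lit 3) (nat_lit 69969) (nat_lit 0), mk (.ofNat (nat_lit 42)) (nat_lit 3) (nat_lit 69909) (nat_lit 0)]),
  ((.ofNat (nat_lit 12)), p5,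
    [mk (.ofNat (nat_lit 4)) (nat_lit 2) (nat_lit 4373) (nat_lit 1), mk (.ofNat (nat_lit 3)) (nat_lit 3) (nat_lit 69969) (nat_lit 0), mk (.ofNat (nat_lit 2)) (nat_lit 3) (nat_lit 69909) (nat_lit 0)]),
  ((.ofNat (nat_lit 12)), p6,
    [mk (.negSucc (nat_lit 2)) (nat_lit 3) (nat_lit 69969) (nat_lit 0), mk (.ofNat (nat_lit 2)) (nat_lit 3) (nat_lit 69909) (nat_lit 0)]),
  ((.ofNat (nat_lit 3)), p7,
    [mk (.negSucc (nat_lit 0)) (nat_lit 2) (nat_lit 4374) (nat_lit 5)]),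
  ((.ofNat (nat_lit 24)), p8,
    [mk (.ofNat (nat_lit 24)) (nat_lit 2) (nat_lit 4694) (nat_lit 0), mk (.ofNat (nat_lit 6)) (nat_lit 2) (nat_lit 4438) (nat_lit 1), mk (.ofNat (nat_lit 15)) (nat_lit 3) (nat_lit 69989) (nat_lit 0), mk (.ofNat (nat_lit 15)) (nat_lit 3) (nat_lit 69974) (nat_lit 0), mk (.negSucc (nat_lit 8)) (nat_lit 3) (nat_lit 71009) (nat_lit 0), mk (.ofNat (nat_lit 2)) (nat_lit 2) (nat_lit 4374) (nat_lit 5), mk (.ofNat (nat_lit 2)) (nat_lit 2) (nat_lit 4373) (nat_lit 6), mk (.ofNat (nat_lit 8)) (nat_lit 2) (nat_lit 1122149) (nat_lit 0), mk (.negSucc (nat_lit 2)) (nat_lit 3) (nat_lit 86294) (nat_lit 0)]),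
  ((.ofNat (nat_lit 12)), p9,
    [mk (.ofNat (nat_lit 4)) (nat_lit 2) (nat_lit 4373) (nat_lit 1), mk (.ofNat (nat_lit 16)) (nat_lit 2) (nat_lit 1122069) (nat_lit 0), mk (.ofNat (nat_lit 27)) (nat_lit 3) (nat_lit 69969) (nat_lit 0), mk (.ofNat (nat_lit 2)) (nat_lit 3) (nat_lit 69909) (nat_lit 0)]),
  ((.ofNat (nat_lit 6)), p10,
    [mk (.negSucc (nat_lit 2)) (nat_lit 3) (nat_lit 71009) (nat_lit 0), mk (.ofNat (nat_lit 3)) (nat_lit 3) (nat_lit 69974) (nat_lit 0), mk (.ofNat (nat_lit 3)) (nat_lit 3) (nat_lit 69989) (nat_lit 0), mk (.ofNat (nat_lit 2)) (nat_lit 2) (nat_lit 1122149) (nat_lit 0), mk (.negSucc (nat_lit 0)) (nat_lit 3) (nat_lit 86294) (nat_lit 0)])]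

theorem okL1 : jobs1.all (checkJ ids1) = true := by decide +kernel

def ids2 : List (List (Int × T)) := [pa4, g5, p2, p3, p4, p5, p6, p7, p8, p9, p10]

def p11 : List (Int × T) :=
  [((.ofNat (nat_lit 1)), .m v3 (.m v1 (.m v5 v1)))]

def p12 : List (Int × T) :=
  [((.ofNat (nat_lit 1)), .m v1 (.m v3 (.m v5 v1)))]

def p13 : List (Int × T) :=
  [((.ofNat (nat_lit 4)), .m (.m v5 v1) (.m v2 (.m v6 v1))), ((.ofNat (nat_lit 1)), .m v4 (.m v5 v6))]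

def p14 : List (Int × T) :=
  [((.ofNat (nat_lit 4)), .m v1 (.m v1 (.m v5 (.m v6 v2)))), ((.negSucc (nat_lit 3)), .m v5 (.m v1 (.m v6 v3))), ((.negSucc (nat_lit 3)), .m v1 (.m v5 (.m v6 v3))), ((.negSucc (nat_lit 3)), .m v1 (.m v3 (.m v5 v6))), ((.negSucc (nat_lit 4)), .m v6 (.m v5 v4)), ((.negSucc (nat_lit 4)), .m v5 (.m v6 v4)), ((.negSucc (nat_lit 3)), .m v4 (.m v5 v6))]

def p15 : List (Int × T) :=
  [((.ofNat (nat_lit 1)), .m v5 (.m v1 (.m v1 (.m v6 v2)))), ((.negSucc (nat_lit 0)), .m v5 (.m v1 (.m v6 v3))), ((.negSucc (nat_lit 0)), .m v5 (.m v6 v4))]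

def p16 : List (Int × T) :=
  [((.ofNat (nat_lit 20)), .m v5 (.m v2 (.m v1 (.m v6 v1)))), ((.ofNat (nat_lit 2)), .m v5 (.m v2 (.m v6 v2))), ((.ofNat (nat_lit 8)), .m v5 (.m v1 (.m v6 v3))), ((.ofNat (nat_lit 9)), .m v5 (.m v6 v4))]

def p17 : List (Int × T) :=
  [((.ofNat (nat_lit 2)), .m v2 (.m v6 (.m v1 (.m v5 v1)))), ((.ofNat (nat_lit 2)), .m (.m v5 v1) (.m v6 v3)), ((.ofNat (nat_lit 1)), .m v2 (.m v6 (.m v5 v2)))]

def p18 : List (Int × T) :=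
  [((.ofNat (nat_lit 1)), .m v6 (.m v1 (.m v1 (.m v5 v2)))), ((.ofNat (nat_lit 1)), .m v1 (.m v6 (.m v5 v3))), ((.ofNat (nat_lit 1)), .m v5 (.m v1 (.m v6 v3))), ((.ofNat (nat_lit 1)), .m v1 (.m v5 (.m v6 v3))), ((.ofNat (nat_lit 2)), .m v1 (.m v3 (.m v5 v6))), ((.ofNat (nat_lit 1)), .m v5 (.m v6 v4)), ((.ofNat (nat_lit 2)), .m v4 (.m v5 v6))]

def p19 : List (Int × T) :=
  [((.ofNat (nat_lit 16)), .m v2 (.m (.m v5 v1) (.m v6 v1))), ((.ofNat (nat_lit 8)), .m v1 (.m v3 (.m v5 v6))), ((.negSucc (nat_lit 19)), .m v3 (.m v1 (.m v5 v6))), ((.ofNat (nat_lit 5)), .m v4 (.m v5 v6))]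

def p20 : List (Int × T) :=
  [((.ofNat (nat_lit 4)), .m v1 (.m v5 (.m v2 (.m v6 v1)))), ((.ofNat (nat_lit 1)), .m v6 (.m v5 v4))]

def p21 : List (Int × T) :=
  [((.ofNat (nat_lit 4)), .m v5 (.m v1 (.m v2 (.m v6 v1)))), ((.ofNat (nat_lit 1)), .m v5 (.m v6 v4))]

def p22 : List (Int × T) :=
  [((.ofNat (nat_lit 32)), .m (.m v5 v2) (.m v1 (.m v6 v1))), ((.ofNat (nat_lit 32)), .m v3 (.m v5 (.m v6 v1))), ((.ofNat (nat_lit 16)), .m v1 (.m v3 (.m v5 v6))), ((.negSucc (nat_lit 11)), .m v3 (.m v1 (.m v5 v6))), ((.ofNat (nat_lit 22)), .m v6 (.m v5 v4)), ((.ofNat (nat_lit 22)), .m v5 (.m v6 v4)), ((.ofNat (nat_lit 11)), .m v4 (.m v5 v6))]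

def p23 : List (Int × T) :=
  [((.ofNat (nat_lit 20)), .m v5 (.m v3 (.m v6 v1))), ((.ofNat (nat_lit 8)), .m v5 (.m v2 (.m v6 v2))), ((.negSucc (nat_lit 7)), .m v5 (.m v1 (.m v6 v3))), ((.negSucc (nat_lit 8)), .m v5 (.m v6 v4))]

def p24 : List (Int × T) :=
  [((.ofNat (nat_lit 1)), .m v1 (.m v1 (.m v5 v3)))]

def p25 : List (Int × T) :=
  [((.ofNat (nat_lit 1)), .m v2 (.m v5 v3))]

def p26 : List (Int × T) :=
  [((.ofNat (nat_lit 1)), .m v4 (.m v5 v1))]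

def p27 : List (Int × T) :=
  [((.ofNat (nat_lit 1)), .m v1 (.m v5 v4))]

def p28 : List (Int × T) :=
  [((.ofNat (nat_lit 1)), .m v1 (.m v2 (.m v5 v2)))]

def p29 : List (Int × T) :=
  [((.ofNat (nat_lit 1)), .m v2 (.m v2 (.m v5 v1)))]

def p30 : List (Int × T) :=
  [((.ofNat (nat_lit 1)), .m v2 (.m v1 (.m v5 v2)))]

def p31 : List (Int × T) :=
  [((.ofNat (nat_lit 1)), .m v3 (.m v5 v2))]

def p32 : List (Int × T) :=
  [((.ofNat (nat_lit 1)), .m v3 (.m v1 (.m v5 v1)))]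

def p33 : List (Int × T) :=
  [((.ofNat (nat_lit 1)), .m v1 (.m v3 (.m v5 v1)))]

def p34 : List (Int × T) :=
  [((.ofNat (nat_lit 1)), .m v2 (.m v1 (.m v1 (.m v5 v1))))]

def p35 : List (Int × T) :=
  [((.ofNat (nat_lit 1)), .m v1 (.m v1 (.m v1 (.m v5 v2))))]

def p36 : List (Int × T) :=
  [((.ofNat (nat_lit 1)), .m v1 (.m v2 (.m v1 (.m v5 v1))))]

def p37 : List (Int × T) :=
  [((.ofNat (nat_lit 1)), .m v6 (.m v1 (.m v5 v3))), ((.ofNat (nat_lit 1)), .m v1 (.m v6 (.m v5 v3))), ((.ofNat (nat_lit 1)), .m v5 (.m v1 (.m v6 v3))), ((.ofNat (nat_lit 1)), .m v1 (.m v5 (.m v6 v3))), ((.ofNat (nat_lit 2)), .m v1 (.m v3 (.m v5 v6))), ((.ofNat (nat_lit 1)), .m v6 (.m v5 v4)), ((.ofNat (nat_lit 1)), .m v5 (.m v6 v4)), ((.ofNat (nat_lit 2)), .m v4 (.m v5 v6))]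

def p38 : List (Int × T) :=
  [((.ofNat (nat_lit 1)), .m v2 (.m v5 v3))]

def p39 : List (Int × T) :=
  [((.ofNat (nat_lit 1)), .m v3 (.m v5 v2))]

def p40 : List (Int × T) :=
  [((.ofNat (nat_lit 1)), .m v2 (.m v1 (.m v5 v2)))]

def p41 : List (Int × T) :=
  [((.ofNat (nat_lit 1)), .m v2 (.m v2 (.m v5 v1)))]

def p42 : List (Int × T) :=
  [((.ofNat (nat_lit 1)), .m v1 (.m v1 (.m v5 v3)))]

def p43 : List (Int × T) :=
  [((.ofNat (nat_lit 1)), .m v1 (.m v5 v4))]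

def p44 : List (Int × T) :=
  [((.ofNat (nat_lit 1)), .m v4 (.m v5 v1))]

def p45 : List (Int × T) :=
  [((.ofNat (nat_lit 16)), .m (.m v5 v2) (.m v6 v2)), ((.negSucc (nat_lit 15)), .m v1 (.m v3 (.m v5 v6))), ((.ofNat (nat_lit 12)), .m v3 (.m v1 (.m v5 v6))), ((.negSucc (nat_lit 21)), .m v6 (.m v5 v4)), ((.negSucc (nat_lit 21)), .m v5 (.m v6 v4)), ((.negSucc (nat_lit 10)), .m v4 (.m v5 v6))]

def p46 : List (Int × T) :=
  [((.ofNat (nat_lit 8)), .m v6 (.m v2 (.m v5 v2))), ((.ofNat (nat_lit 8)), .m v2 (.m v6 (.m v5 v2))), ((.ofNat (nat_lit 8)), .m v5 (.m v2 (.m v6 v2))), ((.ofNat (nat_lit 8)), .m v2 (.m v5 (.m v6 v2))), ((.negSucc (nat_lit 23)), .m v1 (.m v3 (.m v5 v6))), ((.ofNat (nat_lit 4)), .m v3 (.m v1 (.m v5 v6))), ((.negSucc (nat_lit 39)), .m v6 (.m v5 v4)), ((.negSucc (nat_lit 39)), .m v5 (.m v6 v4)), ((.negSucc (nat_lit 28)), .m v4 (.m v5 v6))]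

def p47 : List (Int × T) :=
  [((.ofNat (nat_lit 4)), .m v3 (.m v6 (.m v5 v1))), ((.ofNat (nat_lit 4)), .m v3 (.m v5 (.m v6 v1))), ((.ofNat (nat_lit 8)), .m v2 (.m v6 (.m v5 v2))), ((.negSucc (nat_lit 7)), .m v1 (.m v6 (.m v5 v3))), ((.ofNat (nat_lit 8)), .m v2 (.m v5 (.m v6 v2))), ((.negSucc (nat_lit 7)), .m v1 (.m v5 (.m v6 v3))), ((.negSucc (nat_lit 19)), .m v1 (.m v3 (.m v5 v6))), ((.ofNat (nat_lit 4)), .m v3 (.m v1 (.m v5 v6))), ((.negSucc (nat_lit 14)), .m v6 (.m v5 v4)), ((.negSucc (nat_lit 14)), .m v5 (.m v6 v4)), ((.negSucc (nat_lit 39)), .m v4 (.m v5 v6))]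

/-- certificates of level 2 -/
def jobs2 : List Job := [
  ((.ofNat (nat_lit 3168)), p11,
    [mk (.ofNat (nat_lit 36)) (nat_lit 2) (nat_lit 4405) (nat_lit 0), mk (.negSucc (nat_lit 89)) (nat_lit 3) (nat_lit 69925) (nat_lit 0), mk (.negSucc (nat_lit 11)) (nat_lit 2) (nat_lit 1122085) (nat_lit 0), mk (.ofNat (nat_lit 18)) (nat_lit 4) (nat_lit 5) (nat_lit 1), mk (.negSucc (nat_lit 233)) (nat_lit 3) (nat_lit 70225) (nat_lit 0), mk (.negSucc (nat_lit 107)) (nat_lit 2) (nat_lit 4373) (nat_lit 2), mk (.ofNat (nat_lit 162)) (nat_lit 4) (nat_lit 3861) (nat_lit 0), mk (.negSucc (nat_lit 119)) (nat_lit 6) (nat_lit 5) (nat_lit 1), mk (.negSucc (nat_lit 1007)) (nat_lit 6) (nat_lit 3861) (nat_lit 0), mk (.ofNat (nat_lit 114)) (nat_lit 3) (nat_lit 69970) (nat_lit 0), mk (.ofNat (nat_lit 162)) (nat_lit 5) (nat_lit 3861) (nat_lit 0), mk (.ofNat (nat_lit 126)) (nat_lit 5) (nat_lit 5) (nat_lit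 1), mk (.ofNat (nat_lit 46)) (nat_lit 3) (nat_lit 74005) (nat_lit 0), mk (.ofNat (nat_lit 49)) (nat_lit 3) (nat_lit 279620) (nat_lit 0)]),
  ((.ofNat (nat_lit 1320)), p12,
    [mk (.negSucc (nat_lit 59)) (nat_lit 2) (nat_lit 4405) (nat_lit 0), mk (.negSucc (nat_lit 113)) (nat_lit 3) (nat_lit 69925) (nat_lit 0), mk (.ofNat (nat_lit 20)) (nat_lit 2) (nat_lit 1122085) (nat_lit 0), mk (.ofNat (nat_lit 4)) (nat_lit 2) (nat_lit 4373) (nat_lit 2), mk (.ofNat (nat_lit 126)) (nat_lit 3) (nat_lit 70225) (nat_lit 0), mk (.ofNat (nat_lit 36)) (nat_lit 4) (nat_lit 5) (nat_lit 1), mk (.negSucc (nat_lit 5)) (nat_lit 4) (nat_lit 3861) (nat_lit 0), mk (.ofNat (nat_lit 63)) (nat_lit 3) (nat_lit 69970) (nat_lit 0), mk (.ofNat (nat_lit 222)) (nat_lit 6) (nat_lit 5) (nat_lit 1), mk (.negSucc (nat_lit 431)) (nat_lit 6) (nat_lit 3861) (nat_lit 0), mk (.negSucc (nat_lit 77)) (nat_lit 5) (nat_lit 5) (nat_lit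 1), mk (.negSucc (nat_lit 5)) (nat_lit 5) (nat_lit 3861) (nat_lit 0), mk (.ofNat (nat_lit 103)) (nat_lit 3) (nat_lit 74005) (nat_lit 0), mk (.negSucc (nat_lit 77)) (nat_lit 3) (nat_lit 279620) (nat_lit 0)]),
  ((.ofNat (nat_lit 31680)), p13,
    [mk (.negSucc (nat_lit 647)) (nat_lit 3) (nat_lit 70230) (nat_lit 0), mk (.ofNat (nat_lit 10872)) (nat_lit 3) (nat_lit 70245) (nat_lit 0), mk (.negSucc (nat_lit 671)) (nat_lit 8) (nat_lit 28437) (nat_lit 0), mk (.negSucc (nat_lit 9647)) (nat_lit 8) (nat_lit 101) (nat_lit 1), mk (.negSucc (nat_lit 1439)) (nat_lit 8) (nat_lit 61797) (nat_lit 0), mk (.ofNat (nat_lit 2220)) (nat_lit 2) (nat_lit 4438) (nat_lit 17), mk (.negSucc (nat_lit 2687)) (nat_lit 2) (nat_lit 292548945) (nat_lit 0), mk (.negSucc (nat_lit 5639)) (nat_lit 2) (nat_lit 1142549) (nat_lit 1), mk (.ofNat (nat_lit 72)) (nat_lit 2) (nat_lit 4438) (nat_lit 2), mk (.negSucc (nat_lit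 2879)) (nat_lit 2) (nat_lit 1142565) (nat_lit 0), mk (.negSucc (nat_lit 9287)) (nat_lit 2) (nat_lit 1138454) (nat_lit 1), mk (.negSucc (nat_lit 359)) (nat_lit 2) (nat_lit 8790) (nat_lit 0), mk (.negSucc (nat_lit 671)) (nat_lit 2) (nat_lit 301031190) (nat_lit 0), mk (.negSucc (nat_lit 1061)) (nat_lit 3) (nat_lit 69974) (nat_lit 1), mk (.negSucc (nat_lit 10709)) (nat_lit 3) (nat_lit 71009) (nat_lit 1), mk (.negSucc (nat_lit 7205)) (nat_lit 3) (nat_lit 69989) (nat_lit 1), mk (.ofNat (nat_lit 15804)) (nat_lit 3) (nat_lit 18280785) (nat_lit 0), mk (.ofNat (nat_lit 16476)) (nat_lit 3) (nat_lit 17953110) (nat_lit 0), mk (.negSucc (nat_lit 3995)) (nat_lit 3) (nat_lit 17919765) (nat_lit 0), mk (.negSucc (nat_lit 3263)) (nat_lit 3) (nat_lit 74085) (nat_lit 0), mk (.negSucc (nat_lit 1187)) (nat_lit 3) (nat_lit 18215265) (nat_lit 0), mk (.negSucc (nat_lit 323)) (nat_lit 3) (nat_lit 136545)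 (nat_lit 0), mk (.ofNat (nat_lit 11772)) (nat_lit 3) (nat_lit 17953125) (nat_lit 0), mk (.ofNat (nat_lit 900)) (nat_lit 3) (nat_lit 17915670) (nat_lit 0), mk (.ofNat (nat_lit 5436)) (nat_lit 3) (nat_lit 86310) (nat_lit 0), mk (.negSucc (nat_lit 1808)) (nat_lit 4) (nat_lit 5) (nat_lit 6), mk (.ofNat (nat_lit 3228)) (nat_lit 7) (nat_lit 28437) (nat_lit 0), mk (.negSucc (nat_lit 2219)) (nat_lit 7) (nat_lit 101) (nat_lit 1), mk (.negSucc (nat_lit 671)) (nat_lit 2) (nat_lit 287306070) (nat_lit 0), mk (.negSucc (nat_lit 503)) (nat_lit 7) (nat_lit 61797) (nat_lit 0), mk (.negSucc (nat_lit 8)) (nat_lit 4) (nat_lit 6) (nat_lit 5), mk (.negSucc (nat_lit 323)) (nat_lit 7) (nat_lit 24342) (nat_lit 0), mk (.ofNat (nat_lit 2772)) (nat_lit 7) (nat_lit 86) (nat_lit 1), mk (.negSucc (nat_lit 1439)) (nat_lit 2) (nat_lit 287306085) (nat_lit 0), mk (.negSucc (nat_lit 629)) (nat_lit 9) (nat_lit 3941)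 (nat_lit 0), mk (.negSucc (nat_lit 125)) (nat_lit 4) (nat_lit 3941) (nat_lit 0), mk (.negSucc (nat_lit 32951)) (nat_lit 7) (nat_lit 61782) (nat_lit 0), mk (.ofNat (nat_lit 144)) (nat_lit 3) (nat_lit 69985) (nat_lit 5), mk (.negSucc (nat_lit 4703)) (nat_lit 3) (nat_lit 69969) (nat_lit 6), mk (.ofNat (nat_lit 8244)) (nat_lit 3) (nat_lit 17954385) (nat_lit 0), mk (.negSucc (nat_lit 5617)) (nat_lit 3) (nat_lit 86294) (nat_lit 1), mk (.negSucc (nat_lit 1999)) (nat_lit 3) (nat_lit 17899365) (nat_lit 0), mk (.ofNat (nat_lit 108)) (nat_lit 3) (nat_lit 69910) (nat_lit 5), mk (.negSucc (nat_lit 2771)) (nat_lit 3) (nat_lit 69909) (nat_lit 6), mk (.negSucc (nat_lit 2355)) (nat_lit 3) (nat_lit 22093590) (nat_lit 0), mk (.negSucc (nat_lit 1555)) (nat_lit 3) (nat_lit 23142165) (nat_lit 0), mk (.ofNat (nat_lit 2823)) (nat_lit 5) (nat_lit 5) (nat_lit 6), mk (.negSucc (nat_lit 368)) (nat_lit 5)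 (nat_lit 6) (nat_lit 5), mk (.ofNat (nat_lit 4680)) (nat_lit 5) (nat_lit 3941) (nat_lit 0)]),
  ((.ofNat (nat_lit 18)), p14,
    [mk (.negSucc (nat_lit 29)) (nat_lit 2) (nat_lit 4438) (nat_lit 17), mk (.ofNat (nat_lit 36)) (nat_lit 3) (nat_lit 17915670) (nat_lit 0), mk (.ofNat (nat_lit 30)) (nat_lit 3) (nat_lit 17919765) (nat_lit 0), mk (.negSucc (nat_lit 14)) (nat_lit 3) (nat_lit 69989) (nat_lit 1), mk (.negSucc (nat_lit 44)) (nat_lit 3) (nat_lit 71009) (nat_lit 1), mk (.negSucc (nat_lit 8)) (nat_lit 3) (nat_lit 69974) (nat_lit 1), mk (.ofNat (nat_lit 30)) (nat_lit 3) (nat_lit 74085) (nat_lit 0), mk (.ofNat (nat_lit 30)) (nat_lit 7) (nat_lit 101) (nat_lit 1), mk (.ofNat (nat_lit 18)) (nat_lit 7) (nat_lit 86) (nat_lit 1), mk (.negSucc (nat_lit 14)) (nat_lit 3) (nat_lit 69969) (nat_lit 6), mk (.negSucc (nat_lit 17)) (nat_lit 3) (nat_lit 17954385) (nat_lit 0), mk (.negSucc (nat_lit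 17)) (nat_lit 3) (nat_lit 69985) (nat_lit 5), mk (.ofNat (nat_lit 10)) (nat_lit 3) (nat_lit 23142165) (nat_lit 0), mk (.ofNat (nat_lit 8)) (nat_lit 3) (nat_lit 22093590) (nat_lit 0), mk (.negSucc (nat_lit 16)) (nat_lit 3) (nat_lit 86294) (nat_lit 1), mk (.ofNat (nat_lit 10)) (nat_lit 3) (nat_lit 17899365) (nat_lit 0), mk (.negSucc (nat_lit 17)) (nat_lit 5) (nat_lit 6) (nat_lit 5), mk (.negSucc (nat_lit 29)) (nat_lit 5) (nat_lit 5) (nat_lit 6)]),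
  ((.ofNat (nat_lit 1)), p15,
    [mk (.ofNat (nat_lit 1)) (nat_lit 6) (nat_lit 6) (nat_lit 5)]),
  ((.ofNat (nat_lit 4)), p16,
    [mk (.ofNat (nat_lit 1)) (nat_lit 4) (nat_lit 6) (nat_lit 5), mk (.ofNat (nat_lit 5)) (nat_lit 9) (nat_lit 6) (nat_lit 5)]),
  ((.ofNat (nat_lit 8448)), p17,
    [mk (.ofNat (nat_lit 936)) (nat_lit 3) (nat_lit 70230) (nat_lit 0), mk (.ofNat (nat_lit 8616)) (nat_lit 3) (nat_lit 70245) (nat_lit 0), mk (.negSucc (nat_lit 607)) (nat_lit 8) (nat_lit 24342) (nat_lit 0), mk (.negSucc (nat_lit 783)) (nat_lit 8) (nat_lit 86) (nat_lit 1), mk (.negSucc (nat_lit 95)) (nat_lit 8) (nat_lit 61782) (nat_lit 0), mk (.negSucc (nat_lit 191)) (nat_lit 2) (nat_lit 1138470) (nat_lit 0), mk (.negSucc (nat_lit 2431)) (nat_lit 2) (nat_lit 291500385) (nat_lit 0), mk (.negSucc (nat_lit 3191)) (nat_lit 2) (nat_lit 1138454) (nat_lit 1), mk (.negSucc (nat_lit 607)) (nat_lit 2)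 (nat_lit 301031190) (nat_lit 0), mk (.negSucc (nat_lit 2139)) (nat_lit 2) (nat_lit 4438) (nat_lit 17), mk (.negSucc (nat_lit 759)) (nat_lit 2) (nat_lit 1142549) (nat_lit 1), mk (.negSucc (nat_lit 23)) (nat_lit 2) (nat_lit 8790) (nat_lit 0), mk (.ofNat (nat_lit 216)) (nat_lit 2) (nat_lit 4438) (nat_lit 2), mk (.negSucc (nat_lit 1729)) (nat_lit 3) (nat_lit 69974) (nat_lit 1), mk (.ofNat (nat_lit 2880)) (nat_lit 3) (nat_lit 74070) (nat_lit 0), mk (.negSucc (nat_lit 195)) (nat_lit 3) (nat_lit 17915670) (nat_lit 0), mk (.ofNat (nat_lit 468)) (nat_lit 3) (nat_lit 86310) (nat_lit 0), mk (.ofNat (nat_lit 60)) (nat_lit 3) (nat_lit 17919765) (nat_lit 0), mk (.negSucc (nat_lit 635)) (nat_lit 3) (nat_lit 18215265) (nat_lit 0), mk (.negSucc (nat_lit 27)) (nat_lit 3) (nat_lit 17953125) (nat_lit 0), mk (.negSucc (nat_lit 5201)) (nat_lit 3) (nat_lit 71009) (nat_lit 1), mk (.negSucc (nat_lit 4417))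 (nat_lit 3) (nat_lit 69989) (nat_lit 1), mk (.ofNat (nat_lit 996)) (nat_lit 3) (nat_lit 17953110) (nat_lit 0), mk (.ofNat (nat_lit 8580)) (nat_lit 3) (nat_lit 18280785) (nat_lit 0), mk (.ofNat (nat_lit 4308)) (nat_lit 3) (nat_lit 136545) (nat_lit 0), mk (.ofNat (nat_lit 2140)) (nat_lit 7) (nat_lit 86) (nat_lit 1), mk (.negSucc (nat_lit 113)) (nat_lit 4) (nat_lit 3941) (nat_lit 0), mk (.negSucc (nat_lit 146)) (nat_lit 4) (nat_lit 6) (nat_lit 5), mk (.ofNat (nat_lit 2996)) (nat_lit 7) (nat_lit 24342) (nat_lit 0), mk (.negSucc (nat_lit 607)) (nat_lit 2) (nat_lit 287306085) (nat_lit 0), mk (.negSucc (nat_lit 759)) (nat_lit 2) (nat_lit 287307345) (nat_lit 0), mk (.negSucc (nat_lit 1082)) (nat_lit 4) (nat_lit 5) (nat_lit 6), mk (.negSucc (nat_lit 95)) (nat_lit 2) (nat_lit 287306070) (nat_lit 0), mk (.ofNat (nat_lit 4308)) (nat_lit 7) (nat_lit 28437) (nat_lit 0), mk (.ofNat (nat_lit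 220)) (nat_lit 7) (nat_lit 101) (nat_lit 1), mk (.ofNat (nat_lit 56)) (nat_lit 7) (nat_lit 61797) (nat_lit 0), mk (.negSucc (nat_lit 455)) (nat_lit 7) (nat_lit 61782) (nat_lit 0), mk (.ofNat (nat_lit 360)) (nat_lit 3) (nat_lit 17954385) (nat_lit 0), mk (.negSucc (nat_lit 1967)) (nat_lit 3) (nat_lit 69985) (nat_lit 5), mk (.negSucc (nat_lit 4319)) (nat_lit 3) (nat_lit 69969) (nat_lit 6), mk (.negSucc (nat_lit 219)) (nat_lit 3) (nat_lit 69910) (nat_lit 5), mk (.ofNat (nat_lit 336)) (nat_lit 3) (nat_lit 17899365) (nat_lit 0), mk (.negSucc (nat_lit 837)) (nat_lit 3) (nat_lit 86294) (nat_lit 1), mk (.negSucc (nat_lit 267)) (nat_lit 3) (nat_lit 22093590) (nat_lit 0), mk (.negSucc (nat_lit 2090)) (nat_lit 5) (nat_lit 6) (nat_lit 5), mk (.negSucc (nat_lit 2369)) (nat_lit 5) (nat_lit 3941) (nat_lit 0), mk (.negSucc (nat_lit 1106)) (nat_lit 5) (nat_lit 5) (nat_lit 6), mk (.negSucc (nat_lit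 1435)) (nat_lit 3) (nat_lit 69909) (nat_lit 6), mk (.ofNat (nat_lit 1908)) (nat_lit 3) (nat_lit 23142165) (nat_lit 0)]),
  ((.ofNat (nat_lit 72)), p18,
    [mk (.ofNat (nat_lit 24)) (nat_lit 2) (nat_lit 4438) (nat_lit 17), mk (.negSucc (nat_lit 29)) (nat_lit 3) (nat_lit 17919765) (nat_lit 0), mk (.negSucc (nat_lit 29)) (nat_lit 3) (nat_lit 17915670) (nat_lit 0), mk (.ofNat (nat_lit 6)) (nat_lit 3) (nat_lit 69974) (nat_lit 1), mk (.ofNat (nat_lit 6)) (nat_lit 3) (nat_lit 69989) (nat_lit 1), mk (.ofNat (nat_lit 6)) (nat_lit 3) (nat_lit 74070) (nat_lit 0), mk (.ofNat (nat_lit 36)) (nat_lit 3) (nat_lit 71009) (nat_lit 1), mk (.ofNat (nat_lit 6)) (nat_lit 3) (nat_lit 74085) (nat_lit 0), mk (.negSucc (nat_lit 11)) (nat_lit 7) (nat_lit 86) (nat_lit 1), mk (.negSucc (nat_lit 11)) (nat_lit 7) (nat_lit 101) (nat_lit 1), mk (.ofNat (nat_lit 36)) (nat_lit 3) (nat_lit 17954385) (nat_lit 0),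 mk (.ofNat (nat_lit 15)) (nat_lit 3) (nat_lit 69985) (nat_lit 5), mk (.ofNat (nat_lit 12)) (nat_lit 6) (nat_lit 5) (nat_lit 6), mk (.ofNat (nat_lit 16)) (nat_lit 3) (nat_lit 86294) (nat_lit 1), mk (.negSucc (nat_lit 5)) (nat_lit 3) (nat_lit 23142165) (nat_lit 0), mk (.negSucc (nat_lit 5)) (nat_lit 3) (nat_lit 22093590) (nat_lit 0), mk (.negSucc (nat_lit 19)) (nat_lit 3) (nat_lit 17899365) (nat_lit 0), mk (.ofNat (nat_lit 12)) (nat_lit 5) (nat_lit 5) (nat_lit 6), mk (.ofNat (nat_lit 12)) (nat_lit 5) (nat_lit 6) (nat_lit 5), mk (.ofNat (nat_lit 10)) (nat_lit 3) (nat_lit 69909) (nat_lit 6)]),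
  ((.ofNat (nat_lit 3960)), p19,
    [mk (.ofNat (nat_lit 2808)) (nat_lit 3) (nat_lit 70245) (nat_lit 0), mk (.ofNat (nat_lit 2808)) (nat_lit 3) (nat_lit 70230) (nat_lit 0), mk (.ofNat (nat_lit 4368)) (nat_lit 8) (nat_lit 86) (nat_lit 1), mk (.ofNat (nat_lit 1056)) (nat_lit 8) (nat_lit 24342) (nat_lit 0), mk (.ofNat (nat_lit 1056)) (nat_lit 8) (nat_lit 28437) (nat_lit 0), mk (.ofNat (nat_lit 1440)) (nat_lit 2) (nat_lit 1142565) (nat_lit 0), mk (.ofNat (nat_lit 1440)) (nat_lit 2) (nat_lit 1138470) (nat_lit 0), mk (.ofNat (nat_lit 1344)) (nat_lit 2) (nat_lit 291500385) (nat_lit 0), mk (.ofNat (nat_lit 1344)) (nat_lit 2) (nat_lit 292548945) (nat_lit 0), mk (.negSucc (nat_lit 3539)) (nat_lit 2) (nat_lit 4438) (nat_lit 17), mk (.ofNat (nat_lit 2184)) (nat_lit 2) (nat_lit 1138454) (nat_lit 1), mk (.ofNat (nat_lit 2184)) (nat_lit 2) (nat_lit 1142549) (nat_lit 1), mk (.ofNat (nat_lit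 360)) (nat_lit 2) (nat_lit 8790) (nat_lit 0), mk (.ofNat (nat_lit 7848)) (nat_lit 2) (nat_lit 4438) (nat_lit 2), mk (.ofNat (nat_lit 672)) (nat_lit 2) (nat_lit 301031190) (nat_lit 0), mk (.negSucc (nat_lit 485)) (nat_lit 3) (nat_lit 69974) (nat_lit 1), mk (.ofNat (nat_lit 810)) (nat_lit 3) (nat_lit 71009) (nat_lit 1), mk (.negSucc (nat_lit 485)) (nat_lit 3) (nat_lit 69989) (nat_lit 1), mk (.ofNat (nat_lit 1632)) (nat_lit 3) (nat_lit 74070) (nat_lit 0), mk (.ofNat (nat_lit 4284)) (nat_lit 3) (nat_lit 136545) (nat_lit 0), mk (.ofNat (nat_lit 1632)) (nat_lit 3) (nat_lit 74085) (nat_lit 0), mk (.negSucc (nat_lit 1475)) (nat_lit 3) (nat_lit 86310) (nat_lit 0), mk (.ofNat (nat_lit 612)) (nat_lit 3) (nat_lit 18215265) (nat_lit 0), mk (.negSucc (nat_lit 6203)) (nat_lit 3) (nat_lit 17953125) (nat_lit 0), mk (.ofNat (nat_lit 612)) (nat_lit 3) (nat_lit 18280785) (nat_lit 0), mk (.negSucc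 (nat_lit 6203)) (nat_lit 3) (nat_lit 17953110) (nat_lit 0), mk (.ofNat (nat_lit 1548)) (nat_lit 3) (nat_lit 17915670) (nat_lit 0), mk (.ofNat (nat_lit 1548)) (nat_lit 3) (nat_lit 17919765) (nat_lit 0), mk (.negSucc (nat_lit 80)) (nat_lit 4) (nat_lit 6) (nat_lit 5), mk (.ofNat (nat_lit 2508)) (nat_lit 7) (nat_lit 24342) (nat_lit 0), mk (.ofNat (nat_lit 1044)) (nat_lit 7) (nat_lit 86) (nat_lit 1), mk (.ofNat (nat_lit 1056)) (nat_lit 2) (nat_lit 287306085) (nat_lit 0), mk (.negSucc (nat_lit 80)) (nat_lit 4) (nat_lit 5) (nat_lit 6), mk (.ofNat (nat_lit 2508)) (nat_lit 7) (nat_lit 28437) (nat_lit 0), mk (.ofNat (nat_lit 1044)) (nat_lit 7) (nat_lit 101) (nat_lit 1), mk (.ofNat (nat_lit 1056)) (nat_lit 2) (nat_lit 287306070) (nat_lit 0), mk (.ofNat (nat_lit 888)) (nat_lit 7) (nat_lit 61797) (nat_lit 0), mk (.ofNat (nat_lit 888)) (nat_lit 7) (nat_lit 61782) (nat_lit 0), mk (.ofNat (nat_lit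 630)) (nat_lit 9) (nat_lit 3941) (nat_lit 0), mk (.negSucc (nat_lit 3833)) (nat_lit 4) (nat_lit 3941) (nat_lit 0), mk (.negSucc (nat_lit 1679)) (nat_lit 3) (nat_lit 69985) (nat_lit 5), mk (.negSucc (nat_lit 1679)) (nat_lit 3) (nat_lit 69969) (nat_lit 6), mk (.negSucc (nat_lit 4283)) (nat_lit 3) (nat_lit 17954385) (nat_lit 0), mk (.ofNat (nat_lit 2318)) (nat_lit 3) (nat_lit 86294) (nat_lit 1), mk (.ofNat (nat_lit 2000)) (nat_lit 3) (nat_lit 17899365) (nat_lit 0), mk (.ofNat (nat_lit 12)) (nat_lit 3) (nat_lit 69910) (nat_lit 5), mk (.ofNat (nat_lit 12)) (nat_lit 3) (nat_lit 69909) (nat_lit 6), mk (.negSucc (nat_lit 2216)) (nat_lit 5) (nat_lit 6) (nat_lit 5), mk (.negSucc (nat_lit 2216)) (nat_lit 5) (nat_lit 5) (nat_lit 6), mk (.ofNat (nat_lit 1956)) (nat_lit 3) (nat_lit 22093590) (nat_lit 0), mk (.ofNat (nat_lit 1956)) (nat_lit 3) (nat_lit 23142165) (nat_lit 0), mk (.negSucc (nat_lit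 4679)) (nat_lit 5) (nat_lit 3941) (nat_lit 0)]),
  ((.ofNat (nat_lit 18)), p20,
    [mk (.ofNat (nat_lit 6)) (nat_lit 2) (nat_lit 4438) (nat_lit 17), mk (.negSucc (nat_lit 5)) (nat_lit 3) (nat_lit 17919765) (nat_lit 0), mk (.ofNat (nat_lit 9)) (nat_lit 3) (nat_lit 69974) (nat_lit 1), mk (.ofNat (nat_lit 9)) (nat_lit 3) (nat_lit 71009) (nat_lit 1), mk (.ofNat (nat_lit 3)) (nat_lit 3) (nat_lit 69989) (nat_lit 1), mk (.negSucc (nat_lit 5)) (nat_lit 3) (nat_lit 74085) (nat_lit 0), mk (.negSucc (nat_lit 5)) (nat_lit 7) (nat_lit 101) (nat_lit 1), mk (.negSucc (nat_lit 17)) (nat_lit 7) (nat_lit 86) (nat_lit 1), mk (.ofNat (nat_lit 3)) (nat_lit 3) (nat_lit 69969) (nat_lit 6), mk (.negSucc (nat_lit 1)) (nat_lit 3) (nat_lit 23142165) (nat_lit 0), mk (.negSucc (nat_lit 3)) (nat_lit 3) (nat_lit 22093590) (nat_lit 0), mk (.ofNat (nat_lit 1)) (nat_lit 3) (nat_lit 86294) (nat_lit 1), mk (.negSucc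 (nat_lit 1)) (nat_lit 3) (nat_lit 17899365) (nat_lit 0), mk (.ofNat (nat_lit 6)) (nat_lit 5) (nat_lit 5) (nat_lit 6)]),
  ((.ofNat (nat_lit 1)), p21,
    [mk (.ofNat (nat_lit 1)) (nat_lit 5) (nat_lit 6) (nat_lit 5)]),
  ((.ofNat (nat_lit 792)), p22,
    [mk (.ofNat (nat_lit 1080)) (nat_lit 3) (nat_lit 70230) (nat_lit 0), mk (.negSucc (nat_lit 1223)) (nat_lit 3) (nat_lit 70245) (nat_lit 0), mk (.negSucc (nat_lit 287)) (nat_lit 8) (nat_lit 28437) (nat_lit 0), mk (.ofNat (nat_lit 1296)) (nat_lit 8) (nat_lit 86) (nat_lit 1), mk (.ofNat (nat_lit 6624)) (nat_lit 8) (nat_lit 24342) (nat_lit 0), mk (.negSucc (nat_lit 1151)) (nat_lit 2) (nat_lit 292548945) (nat_lit 0), mk (.negSucc (nat_lit 1511)) (nat_lit 2) (nat_lit 1142549) (nat_lit 1), mk (.ofNat (nat_lit 4572)) (nat_lit 2) (nat_lit 4438) (nat_lit 17), mk (.ofNat (nat_lit 936)) (nat_lit 2) (nat_lit 4438) (nat_lit 2), mk (.negSucc (nat_lit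 287)) (nat_lit 2) (nat_lit 301035285) (nat_lit 0), mk (.negSucc (nat_lit 359)) (nat_lit 2) (nat_lit 1138454) (nat_lit 1), mk (.ofNat (nat_lit 72)) (nat_lit 2) (nat_lit 8790) (nat_lit 0), mk (.ofNat (nat_lit 576)) (nat_lit 2) (nat_lit 1142565) (nat_lit 0), mk (.negSucc (nat_lit 2831)) (nat_lit 3) (nat_lit 74085) (nat_lit 0), mk (.negSucc (nat_lit 4955)) (nat_lit 3) (nat_lit 17919765) (nat_lit 0), mk (.negSucc (nat_lit 3635)) (nat_lit 3) (nat_lit 18280785) (nat_lit 0), mk (.negSucc (nat_lit 3347)) (nat_lit 3) (nat_lit 17953110) (nat_lit 0), mk (.ofNat (nat_lit 6498)) (nat_lit 3) (nat_lit 71009) (nat_lit 1), mk (.ofNat (nat_lit 2562)) (nat_lit 3) (nat_lit 69974) (nat_lit 1), mk (.ofNat (nat_lit 2946)) (nat_lit 3) (nat_lit 69989) (nat_lit 1), mk (.ofNat (nat_lit 6732)) (nat_lit 3) (nat_lit 18215265) (nat_lit 0), mk (.negSucc (nat_lit 2195)) (nat_lit 3) (nat_lit 17953125) (nat_lit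 0), mk (.negSucc (nat_lit 9947)) (nat_lit 3) (nat_lit 17915670) (nat_lit 0), mk (.negSucc (nat_lit 2639)) (nat_lit 3) (nat_lit 74070) (nat_lit 0), mk (.ofNat (nat_lit 2556)) (nat_lit 3) (nat_lit 86310) (nat_lit 0), mk (.ofNat (nat_lit 3708)) (nat_lit 3) (nat_lit 136545) (nat_lit 0), mk (.negSucc (nat_lit 287)) (nat_lit 2) (nat_lit 287306070) (nat_lit 0), mk (.negSucc (nat_lit 3515)) (nat_lit 7) (nat_lit 101) (nat_lit 1), mk (.negSucc (nat_lit 215)) (nat_lit 7) (nat_lit 61797) (nat_lit 0), mk (.negSucc (nat_lit 6203)) (nat_lit 7) (nat_lit 86) (nat_lit 1), mk (.ofNat (nat_lit 6696)) (nat_lit 7) (nat_lit 61782) (nat_lit 0), mk (.negSucc (nat_lit 530)) (nat_lit 9) (nat_lit 6) (nat_lit 5), mk (.negSucc (nat_lit 116)) (nat_lit 4) (nat_lit 6) (nat_lit 5), mk (.negSucc (nat_lit 458)) (nat_lit 9) (nat_lit 5) (nat_lit 6), mk (.ofNat (nat_lit 243)) (nat_lit 4) (nat_lit 5) (nat_lit 6), mk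 (.ofNat (nat_lit 126)) (nat_lit 9) (nat_lit 3941) (nat_lit 0), mk (.negSucc (nat_lit 449)) (nat_lit 4) (nat_lit 3941) (nat_lit 0), mk (.negSucc (nat_lit 1823)) (nat_lit 2) (nat_lit 287306085) (nat_lit 0), mk (.ofNat (nat_lit 1878)) (nat_lit 3) (nat_lit 69985) (nat_lit 5), mk (.ofNat (nat_lit 3126)) (nat_lit 3) (nat_lit 69969) (nat_lit 6), mk (.ofNat (nat_lit 1044)) (nat_lit 3) (nat_lit 17954385) (nat_lit 0), mk (.negSucc (nat_lit 1007)) (nat_lit 3) (nat_lit 17899365) (nat_lit 0), mk (.ofNat (nat_lit 2646)) (nat_lit 3) (nat_lit 86294) (nat_lit 1), mk (.negSucc (nat_lit 1395)) (nat_lit 3) (nat_lit 23142165) (nat_lit 0), mk (.negSucc (nat_lit 179)) (nat_lit 3) (nat_lit 69910) (nat_lit 5), mk (.negSucc (nat_lit 883)) (nat_lit 3) (nat_lit 22093590) (nat_lit 0), mk (.ofNat (nat_lit 396)) (nat_lit 3) (nat_lit 69909) (nat_lit 6), mk (.negSucc (nat_lit 935)) (nat_lit 5) (nat_lit 3941)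 (nat_lit 0), mk (.ofNat (nat_lit 6294)) (nat_lit 5) (nat_lit 6) (nat_lit 5), mk (.ofNat (nat_lit 3894)) (nat_lit 5) (nat_lit 5) (nat_lit 6)]),
  ((.ofNat (nat_lit 1)), p23,
    [mk (.ofNat (nat_lit 1)) (nat_lit 4) (nat_lit 6) (nat_lit 5)]),
  ((.ofNat (nat_lit 72)), p24,
    [mk (.ofNat (nat_lit 3)) (nat_lit 3) (nat_lit 69970) (nat_lit 0), mk (.negSucc (nat_lit 5)) (nat_lit 6) (nat_lit 5) (nat_lit 1), mk (.negSucc (nat_lit 17)) (nat_lit 5) (nat_lit 5) (nat_lit 1), mk (.ofNat (nat_lit 11)) (nat_lit 3) (nat_lit 74005) (nat_lit 0), mk (.negSucc (nat_lit 0)) (nat_lit 3) (nat_lit 279620) (nat_lit 0)]),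
  ((.ofNat (nat_lit 2112)), p25,
    [mk (.ofNat (nat_lit 24)) (nat_lit 2) (nat_lit 4405) (nat_lit 0), mk (.ofNat (nat_lit 72)) (nat_lit 3) (nat_lit 69925) (nat_lit 0), mk (.negSucc (nat_lit 7)) (nat_lit 2) (nat_lit 1122085) (nat_lit 0), mk (.negSucc (nat_lit 131)) (nat_lit 9) (nat_lit 3861) (nat_lit 0), mk (.negSucc (nat_lit 23)) (nat_lit 4) (nat_lit 3861) (nat_lit 0), mk (.negSucc (nat_lit 20)) (nat_lit 4) (nat_lit 5) (nat_lit 1), mk (.ofNat (nat_lit 16)) (nat_lit 2) (nat_lit 4373) (nat_lit 2), mk (.ofNat (nat_lit 1032)) (nat_lit 3) (nat_lit 70225) (nat_lit 0), mk (.negSucc (nat_lit 473)) (nat_lit 3) (nat_lit 69970) (nat_lit 0), mk (.negSucc (nat_lit 1331)) (nat_lit 6) (nat_lit 3861) (nat_lit 0), mk (.ofNat (nat_lit 756)) (nat_lit 6) (nat_lit 5) (nat_lit 1), mk (.ofNat (nat_lit 447)) (nat_lit 5) (nat_lit 5) (nat_lit 1), mk (.negSucc (nat_lit 551)) (nat_lit 5) (nat_lit 3861)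 (nat_lit 0), mk (.ofNat (nat_lit 82)) (nat_lit 3) (nat_lit 74005) (nat_lit 0), mk (.negSucc (nat_lit 179)) (nat_lit 3) (nat_lit 279620) (nat_lit 0)]),
  ((.ofNat (nat_lit 3960)), p26,
    [mk (.ofNat (nat_lit 180)) (nat_lit 2) (nat_lit 4405) (nat_lit 0), mk (.ofNat (nat_lit 342)) (nat_lit 3) (nat_lit 69925) (nat_lit 0), mk (.negSucc (nat_lit 59)) (nat_lit 2) (nat_lit 1122085) (nat_lit 0), mk (.negSucc (nat_lit 107)) (nat_lit 4) (nat_lit 5) (nat_lit 1), mk (.negSucc (nat_lit 11)) (nat_lit 2) (nat_lit 4373) (nat_lit 2), mk (.negSucc (nat_lit 377)) (nat_lit 3) (nat_lit 70225) (nat_lit 0), mk (.ofNat (nat_lit 18)) (nat_lit 4) (nat_lit 3861) (nat_lit 0), mk (.negSucc (nat_lit 353)) (nat_lit 3) (nat_lit 69970) (nat_lit 0), mk (.negSucc (nat_lit 335)) (nat_lit 6) (nat_lit 5) (nat_lit 1), mk (.negSucc (nat_lit 2663)) (nat_lit 6) (nat_lit 3861) (nat_lit 0), mk (.ofNat (nat_lit 1224)) (nat_lit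 5) (nat_lit 5) (nat_lit 1), mk (.negSucc (nat_lit 253)) (nat_lit 3) (nat_lit 74005) (nat_lit 0), mk (.ofNat (nat_lit 18)) (nat_lit 5) (nat_lit 3861) (nat_lit 0), mk (.ofNat (nat_lit 289)) (nat_lit 3) (nat_lit 279620) (nat_lit 0)]),
  ((.ofNat (nat_lit 18)), p27,
    [mk (.negSucc (nat_lit 5)) (nat_lit 6) (nat_lit 5) (nat_lit 1), mk (.ofNat (nat_lit 3)) (nat_lit 3) (nat_lit 69970) (nat_lit 0), mk (.negSucc (nat_lit 0)) (nat_lit 3) (nat_lit 74005) (nat_lit 0), mk (.negSucc (nat_lit 0)) (nat_lit 3) (nat_lit 279620) (nat_lit 0)]),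
  ((.ofNat (nat_lit 12672)), p28,
    [mk (.negSucc (nat_lit 359)) (nat_lit 2) (nat_lit 4645) (nat_lit 0), mk (.ofNat (nat_lit 5436)) (nat_lit 3) (nat_lit 69925) (nat_lit 0), mk (.ofNat (nat_lit 24)) (nat_lit 2) (nat_lit 4373) (nat_lit 2), mk (.negSucc (nat_lit 323)) (nat_lit 3) (nat_lit 70225) (nat_lit 0), mk (.negSucc (nat_lit 629)) (nat_lit 9) (nat_lit 3861) (nat_lit 0), mk (.negSucc (nat_lit 125)) (nat_lit 4) (nat_lit 3861) (nat_lit 0), mk (.negSucc (nat_lit 224)) (nat_lit 4) (nat_lit 5) (nat_lit 1), mk (.negSucc (nat_lit 959)) (nat_lit 2) (nat_lit 1122085) (nat_lit 0), mk (.negSucc (nat_lit 7355)) (nat_lit 6) (nat_lit 5) (nat_lit 1), mk (.negSucc (nat_lit 4637)) (nat_lit 3) (nat_lit 69970) (nat_lit 0), mk (.negSucc (nat_lit 8531)) (nat_lit 6) (nat_lit 3861) (nat_lit 0), mk (.negSucc (nat_lit 3337)) (nat_lit 3) (nat_lit 74005) (nat_lit 0), mk (.ofNat (nat_lit 9459)) (nat_lit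 5) (nat_lit 5) (nat_lit 1), mk (.negSucc (nat_lit 2555)) (nat_lit 5) (nat_lit 3861) (nat_lit 0), mk (.ofNat (nat_lit 1564)) (nat_lit 3) (nat_lit 279620) (nat_lit 0)]),
  ((.ofNat (nat_lit 63360)), p29,
    [mk (.ofNat (nat_lit 360)) (nat_lit 2) (nat_lit 4645) (nat_lit 0), mk (.ofNat (nat_lit 2484)) (nat_lit 3) (nat_lit 69925) (nat_lit 0), mk (.ofNat (nat_lit 960)) (nat_lit 2) (nat_lit 1122085) (nat_lit 0), mk (.negSucc (nat_lit 170)) (nat_lit 4) (nat_lit 5) (nat_lit 1), mk (.ofNat (nat_lit 8244)) (nat_lit 3) (nat_lit 70225) (nat_lit 0), mk (.ofNat (nat_lit 630)) (nat_lit 9) (nat_lit 3861) (nat_lit 0), mk (.ofNat (nat_lit 5256)) (nat_lit 2) (nat_lit 4373) (nat_lit 2), mk (.ofNat (nat_lit 126)) (nat_lit 4) (nat_lit 3861) (nat_lit 0), mk (.ofNat (nat_lit 6828)) (nat_lit 6) (nat_lit 5) (nat_lit 1), mk (.ofNat (nat_lit 612)) (nat_lit 6) (nat_lit 3861) (nat_lit 0), mk (.negSucc (nat_lit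 3017)) (nat_lit 3) (nat_lit 69970) (nat_lit 0), mk (.negSucc (nat_lit 5363)) (nat_lit 5) (nat_lit 3861) (nat_lit 0), mk (.ofNat (nat_lit 1233)) (nat_lit 5) (nat_lit 5) (nat_lit 1), mk (.ofNat (nat_lit 82)) (nat_lit 3) (nat_lit 74005) (nat_lit 0), mk (.negSucc (nat_lit 1651)) (nat_lit 3) (nat_lit 279620) (nat_lit 0)]),
  ((.ofNat (nat_lit 8448)), p30,
    [mk (.ofNat (nat_lit 216)) (nat_lit 2) (nat_lit 4645) (nat_lit 0), mk (.ofNat (nat_lit 1068)) (nat_lit 3) (nat_lit 69925) (nat_lit 0), mk (.ofNat (nat_lit 300)) (nat_lit 3) (nat_lit 70225) (nat_lit 0), mk (.negSucc (nat_lit 149)) (nat_lit 9) (nat_lit 3861) (nat_lit 0), mk (.negSucc (nat_lit 29)) (nat_lit 4) (nat_lit 3861) (nat_lit 0), mk (.ofNat (nat_lit 3)) (nat_lit 4) (nat_lit 5) (nat_lit 1), mk (.ofNat (nat_lit 56)) (nat_lit 2) (nat_lit 4373) (nat_lit 2), mk (.ofNat (nat_lit 576)) (nat_lit 2) (nat_lit 1122085) (nat_lit 0),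 mk (.negSucc (nat_lit 899)) (nat_lit 6) (nat_lit 3861) (nat_lit 0), mk (.ofNat (nat_lit 1140)) (nat_lit 6) (nat_lit 5) (nat_lit 1), mk (.ofNat (nat_lit 90)) (nat_lit 3) (nat_lit 69970) (nat_lit 0), mk (.negSucc (nat_lit 161)) (nat_lit 3) (nat_lit 74005) (nat_lit 0), mk (.ofNat (nat_lit 423)) (nat_lit 5) (nat_lit 5) (nat_lit 1), mk (.negSucc (nat_lit 683)) (nat_lit 5) (nat_lit 3861) (nat_lit 0), mk (.negSucc (nat_lit 75)) (nat_lit 3) (nat_lit 279620) (nat_lit 0)]),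
  ((.ofNat (nat_lit 12672)), p31,
    [mk (.ofNat (nat_lit 1656)) (nat_lit 2) (nat_lit 4645) (nat_lit 0), mk (.ofNat (nat_lit 972)) (nat_lit 3) (nat_lit 69925) (nat_lit 0), mk (.ofNat (nat_lit 312)) (nat_lit 2) (nat_lit 4373) (nat_lit 2), mk (.ofNat (nat_lit 2124)) (nat_lit 3) (nat_lit 70225) (nat_lit 0), mk (.negSucc (nat_lit 269)) (nat_lit 9) (nat_lit 3861) (nat_lit 0), mk (.negSucc (nat_lit 53)) (nat_lit 4) (nat_lit 3861) (nat_lit 0), mk (.ofNat (nat_lit 243)) (nat_lit 4) (nat_lit 5) (nat_lit 1), mk (.ofNat (nat_lit 192)) (nat_lit 2) (nat_lit 1122085) (nat_lit 0), mk (.negSucc (nat_lit 587)) (nat_lit 6) (nat_lit 5) (nat_lit 1), mk (.negSucc (nat_lit 101)) (nat_lit 3) (nat_lit 69970) (nat_lit 0), mk (.ofNat (nat_lit 3132)) (nat_lit 6) (nat_lit 3861) (nat_lit 0), mk (.negSucc (nat_lit 97)) (nat_lit 3) (nat_lit 74005) (nat_lit 0), mk (.negSucc (nat_lit 584)) (nat_lit 5) (nat_lit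 5) (nat_lit 1), mk (.negSucc (nat_lit 1547)) (nat_lit 5) (nat_lit 3861) (nat_lit 0), mk (.negSucc (nat_lit 259)) (nat_lit 3) (nat_lit 279620) (nat_lit 0)]),
  ((.ofNat (nat_lit 3168)), p32,
    [mk (.ofNat (nat_lit 36)) (nat_lit 2) (nat_lit 4405) (nat_lit 0), mk (.negSucc (nat_lit 89)) (nat_lit 3) (nat_lit 69925) (nat_lit 0), mk (.negSucc (nat_lit 11)) (nat_lit 2) (nat_lit 1122085) (nat_lit 0), mk (.ofNat (nat_lit 18)) (nat_lit 4) (nat_lit 5) (nat_lit 1), mk (.negSucc (nat_lit 233)) (nat_lit 3) (nat_lit 70225) (nat_lit 0), mk (.negSucc (nat_lit 107)) (nat_lit 2) (nat_lit 4373) (nat_lit 2), mk (.ofNat (nat_lit 162)) (nat_lit 4) (nat_lit 3861) (nat_lit 0), mk (.negSucc (nat_lit 119)) (nat_lit 6) (nat_lit 5) (nat_lit 1), mk (.negSucc (nat_lit 1007)) (nat_lit 6) (nat_lit 3861) (nat_lit 0), mk (.ofNat (nat_lit 114)) (nat_lit 3) (nat_lit 69970) (nat_lit 0), mk (.ofNat (nat_lit 162))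 (nat_lit 5) (nat_lit 3861) (nat_lit 0), mk (.ofNat (nat_lit 126)) (nat_lit 5) (nat_lit 5) (nat_lit 1), mk (.ofNat (nat_lit 46)) (nat_lit 3) (nat_lit 74005) (nat_lit 0), mk (.ofNat (nat_lit 49)) (nat_lit 3) (nat_lit 279620) (nat_lit 0)]),
  ((.ofNat (nat_lit 1320)), p33,
    [mk (.negSucc (nat_lit 59)) (nat_lit 2) (nat_lit 4405) (nat_lit 0), mk (.negSucc (nat_lit 113)) (nat_lit 3) (nat_lit 69925) (nat_lit 0), mk (.ofNat (nat_lit 20)) (nat_lit 2) (nat_lit 1122085) (nat_lit 0), mk (.ofNat (nat_lit 4)) (nat_lit 2) (nat_lit 4373) (nat_lit 2), mk (.ofNat (nat_lit 126)) (nat_lit 3) (nat_lit 70225) (nat_lit 0), mk (.ofNat (nat_lit 36)) (nat_lit 4) (nat_lit 5) (nat_lit 1), mk (.negSucc (nat_lit 5)) (nat_lit 4) (nat_lit 3861) (nat_lit 0), mk (.ofNat (nat_lit 63)) (nat_lit 3) (nat_lit 69970) (nat_lit 0), mk (.ofNat (nat_lit 222)) (nat_lit 6) (nat_lit 5) (nat_lit 1), mk (.negSucc (nat_lit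 431)) (nat_lit 6) (nat_lit 3861) (nat_lit 0), mk (.negSucc (nat_lit 77)) (nat_lit 5) (nat_lit 5) (nat_lit 1), mk (.negSucc (nat_lit 5)) (nat_lit 5) (nat_lit 3861) (nat_lit 0), mk (.ofNat (nat_lit 103)) (nat_lit 3) (nat_lit 74005) (nat_lit 0), mk (.negSucc (nat_lit 77)) (nat_lit 3) (nat_lit 279620) (nat_lit 0)]),
  ((.ofNat (nat_lit 2880)), p34,
    [mk (.negSucc (nat_lit 35)) (nat_lit 3) (nat_lit 69925) (nat_lit 0), mk (.ofNat (nat_lit 9)) (nat_lit 4) (nat_lit 5) (nat_lit 1), mk (.ofNat (nat_lit 36)) (nat_lit 4) (nat_lit 3861) (nat_lit 0), mk (.negSucc (nat_lit 23)) (nat_lit 2) (nat_lit 4373) (nat_lit 2), mk (.ofNat (nat_lit 180)) (nat_lit 9) (nat_lit 3861) (nat_lit 0), mk (.negSucc (nat_lit 35)) (nat_lit 3) (nat_lit 70225) (nat_lit 0), mk (.negSucc (nat_lit 131)) (nat_lit 6) (nat_lit 5) (nat_lit 1), mk (.ofNat (nat_lit 1332)) (nat_lit 6) (nat_lit 3861) (nat_lit 0), mk (.ofNat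 (nat_lit 102)) (nat_lit 3) (nat_lit 69970) (nat_lit 0), mk (.negSucc (nat_lit 386)) (nat_lit 5) (nat_lit 5) (nat_lit 1), mk (.ofNat (nat_lit 2)) (nat_lit 3) (nat_lit 74005) (nat_lit 0), mk (.ofNat (nat_lit 36)) (nat_lit 5) (nat_lit 3861) (nat_lit 0), mk (.negSucc (nat_lit 21)) (nat_lit 3) (nat_lit 279620) (nat_lit 0)]),
  ((.ofNat (nat_lit 72)), p35,
    [mk (.ofNat (nat_lit 42)) (nat_lit 6) (nat_lit 5) (nat_lit 1), mk (.ofNat (nat_lit 15)) (nat_lit 3) (nat_lit 69970) (nat_lit 0), mk (.negSucc (nat_lit 17)) (nat_lit 5) (nat_lit 5) (nat_lit 1), mk (.ofNat (nat_lit 7)) (nat_lit 3) (nat_lit 74005) (nat_lit 0), mk (.negSucc (nat_lit 4)) (nat_lit 3) (nat_lit 279620) (nat_lit 0)]),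
  ((.ofNat (nat_lit 126720)), p36,
    [mk (.ofNat (nat_lit 360)) (nat_lit 2) (nat_lit 4645) (nat_lit 0), mk (.negSucc (nat_lit 5435)) (nat_lit 3) (nat_lit 69925) (nat_lit 0), mk (.ofNat (nat_lit 960)) (nat_lit 2) (nat_lit 1122085) (nat_lit 0), mk (.ofNat (nat_lit 1809)) (nat_lit 4) (nat_lit 5) (nat_lit 1), mk (.ofNat (nat_lit 630)) (nat_lit 9) (nat_lit 3861) (nat_lit 0), mk (.negSucc (nat_lit 23)) (nat_lit 2) (nat_lit 4373) (nat_lit 2), mk (.ofNat (nat_lit 126)) (nat_lit 4) (nat_lit 3861) (nat_lit 0), mk (.ofNat (nat_lit 324)) (nat_lit 3) (nat_lit 70225) (nat_lit 0), mk (.negSucc (nat_lit 1091)) (nat_lit 6) (nat_lit 5) (nat_lit 1), mk (.ofNat (nat_lit 40212)) (nat_lit 6) (nat_lit 3861) (nat_lit 0), mk (.ofNat (nat_lit 8862)) (nat_lit 3) (nat_lit 69970) (nat_lit 0), mk (.negSucc (nat_lit 20546)) (nat_lit 5) (nat_lit 5) (nat_lit 1), mk (.ofNat (nat_lit 4042)) (nat_lit 3) (nat_lit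 74005) (nat_lit 0), mk (.ofNat (nat_lit 34236)) (nat_lit 5) (nat_lit 3861) (nat_lit 0), mk (.negSucc (nat_lit 2971)) (nat_lit 3) (nat_lit 279620) (nat_lit 0)]),
  ((.ofNat (nat_lit 72)), p37,
    [mk (.ofNat (nat_lit 24)) (nat_lit 2) (nat_lit 4438) (nat_lit 17), mk (.negSucc (nat_lit 29)) (nat_lit 3) (nat_lit 17915670) (nat_lit 0), mk (.ofNat (nat_lit 6)) (nat_lit 3) (nat_lit 69989) (nat_lit 1), mk (.negSucc (nat_lit 29)) (nat_lit 3) (nat_lit 17919765) (nat_lit 0), mk (.ofNat (nat_lit 6)) (nat_lit 3) (nat_lit 69974) (nat_lit 1), mk (.ofNat (nat_lit 6)) (nat_lit 3) (nat_lit 74070) (nat_lit 0), mk (.ofNat (nat_lit 36)) (nat_lit 3) (nat_lit 71009) (nat_lit 1), mk (.ofNat (nat_lit 6)) (nat_lit 3) (nat_lit 74085) (nat_lit 0), mk (.negSucc (nat_lit 11)) (nat_lit 7) (nat_lit 86) (nat_lit 1), mk (.negSucc (nat_lit 11)) (nat_lit 7) (nat_lit 101) (nat_lit 1), mk (.ofNat (nat_lit 36)) (nat_lit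 3) (nat_lit 17954385) (nat_lit 0), mk (.ofNat (nat_lit 15)) (nat_lit 3) (nat_lit 69985) (nat_lit 5), mk (.ofNat (nat_lit 15)) (nat_lit 3) (nat_lit 69969) (nat_lit 6), mk (.ofNat (nat_lit 16)) (nat_lit 3) (nat_lit 86294) (nat_lit 1), mk (.negSucc (nat_lit 5)) (nat_lit 3) (nat_lit 23142165) (nat_lit 0), mk (.negSucc (nat_lit 5)) (nat_lit 3) (nat_lit 22093590) (nat_lit 0), mk (.negSucc (nat_lit 19)) (nat_lit 3) (nat_lit 17899365) (nat_lit 0), mk (.ofNat (nat_lit 12)) (nat_lit 5) (nat_lit 6) (nat_lit 5), mk (.ofNat (nat_lit 12)) (nat_lit 5) (nat_lit 5) (nat_lit 6)]),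
  ((.ofNat (nat_lit 2112)), p38,
    [mk (.ofNat (nat_lit 24)) (nat_lit 2) (nat_lit 4405) (nat_lit 0), mk (.ofNat (nat_lit 72)) (nat_lit 3) (nat_lit 69925) (nat_lit 0), mk (.negSucc (nat_lit 7)) (nat_lit 2) (nat_lit 1122085) (nat_lit 0), mk (.negSucc (nat_lit 131)) (nat_lit 9) (nat_lit 3861) (nat_lit 0), mk (.negSucc (nat_lit 23)) (nat_lit 4) (nat_lit 3861) (nat_lit 0), mk (.negSucc (nat_lit 20)) (nat_lit 4) (nat_lit 5) (nat_lit 1), mk (.ofNat (nat_lit 16)) (nat_lit 2) (nat_lit 4373) (nat_lit 2), mk (.ofNat (nat_lit 1032)) (nat_lit 3) (nat_lit 70225) (nat_lit 0), mk (.negSucc (nat_lit 473)) (nat_lit 3) (nat_lit 69970) (nat_lit 0), mk (.negSucc (nat_lit 1331)) (nat_lit 6) (nat_lit 3861) (nat_lit 0), mk (.ofNat (nat_lit 756)) (nat_lit 6) (nat_lit 5) (nat_lit 1), mk (.ofNat (nat_lit 447)) (nat_lit 5) (nat_lit 5) (nat_lit 1), mk (.negSucc (nat_lit 551)) (nat_lit 5) (nat_lit 3861)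 (nat_lit 0), mk (.ofNat (nat_lit 82)) (nat_lit 3) (nat_lit 74005) (nat_lit 0), mk (.negSucc (nat_lit 179)) (nat_lit 3) (nat_lit 279620) (nat_lit 0)]),
  ((.ofNat (nat_lit 12672)), p39,
    [mk (.ofNat (nat_lit 1656)) (nat_lit 2) (nat_lit 4645) (nat_lit 0), mk (.ofNat (nat_lit 972)) (nat_lit 3) (nat_lit 69925) (nat_lit 0), mk (.ofNat (nat_lit 312)) (nat_lit 2) (nat_lit 4373) (nat_lit 2), mk (.ofNat (nat_lit 2124)) (nat_lit 3) (nat_lit 70225) (nat_lit 0), mk (.negSucc (nat_lit 269)) (nat_lit 9) (nat_lit 3861) (nat_lit 0), mk (.negSucc (nat_lit 53)) (nat_lit 4) (nat_lit 3861) (nat_lit 0), mk (.ofNat (nat_lit 243)) (nat_lit 4) (nat_lit 5) (nat_lit 1), mk (.ofNat (nat_lit 192)) (nat_lit 2) (nat_lit 1122085) (nat_lit 0), mk (.negSucc (nat_lit 587)) (nat_lit 6) (nat_lit 5) (nat_lit 1), mk (.negSucc (nat_lit 101)) (nat_lit 3) (nat_lit 69970) (nat_lit 0), mk (.ofNat (nat_lit 3132)) (nat_lit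 6) (nat_lit 3861) (nat_lit 0), mk (.negSucc (nat_lit 97)) (nat_lit 3) (nat_lit 74005) (nat_lit 0), mk (.negSucc (nat_lit 584)) (nat_lit 5) (nat_lit 5) (nat_lit 1), mk (.negSucc (nat_lit 1547)) (nat_lit 5) (nat_lit 3861) (nat_lit 0), mk (.negSucc (nat_lit 259)) (nat_lit 3) (nat_lit 279620) (nat_lit 0)]),
  ((.ofNat (nat_lit 8448)), p40,
    [mk (.ofNat (nat_lit 216)) (nat_lit 2) (nat_lit 4645) (nat_lit 0), mk (.ofNat (nat_lit 1068)) (nat_lit 3) (nat_lit 69925) (nat_lit 0), mk (.ofNat (nat_lit 300)) (nat_lit 3) (nat_lit 70225) (nat_lit 0), mk (.negSucc (nat_lit 149)) (nat_lit 9) (nat_lit 3861) (nat_lit 0), mk (.negSucc (nat_lit 29)) (nat_lit 4) (nat_lit 3861) (nat_lit 0), mk (.ofNat (nat_lit 3)) (nat_lit 4) (nat_lit 5) (nat_lit 1), mk (.ofNat (nat_lit 56)) (nat_lit 2) (nat_lit 4373) (nat_lit 2), mk (.ofNat (nat_lit 576)) (nat_lit 2) (nat_lit 1122085) (nat_lit 0), mk (.negSucc (nat_lit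 899)) (nat_lit 6) (nat_lit 3861) (nat_lit 0), mk (.ofNat (nat_lit 1140)) (nat_lit 6) (nat_lit 5) (nat_lit 1), mk (.ofNat (nat_lit 90)) (nat_lit 3) (nat_lit 69970) (nat_lit 0), mk (.negSucc (nat_lit 161)) (nat_lit 3) (nat_lit 74005) (nat_lit 0), mk (.ofNat (nat_lit 423)) (nat_lit 5) (nat_lit 5) (nat_lit 1), mk (.negSucc (nat_lit 683)) (nat_lit 5) (nat_lit 3861) (nat_lit 0), mk (.negSucc (nat_lit 75)) (nat_lit 3) (nat_lit 279620) (nat_lit 0)]),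
  ((.ofNat (nat_lit 63360)), p41,
    [mk (.ofNat (nat_lit 360)) (nat_lit 2) (nat_lit 4645) (nat_lit 0), mk (.ofNat (nat_lit 2484)) (nat_lit 3) (nat_lit 69925) (nat_lit 0), mk (.ofNat (nat_lit 960)) (nat_lit 2) (nat_lit 1122085) (nat_lit 0), mk (.negSucc (nat_lit 170)) (nat_lit 4) (nat_lit 5) (nat_lit 1), mk (.ofNat (nat_lit 8244)) (nat_lit 3) (nat_lit 70225) (nat_lit 0), mk (.ofNat (nat_lit 630)) (nat_lit 9) (nat_lit 3861) (nat_lit 0), mk (.ofNat (nat_lit 5256)) (nat_lit 2) (nat_lit 4373) (nat_lit 2), mk (.ofNat (nat_lit 126)) (nat_lit 4) (nat_lit 3861) (nat_lit 0), mk (.ofNat (nat_lit 6828)) (nat_lit 6) (nat_lit 5) (nat_lit 1), mk (.ofNat (nat_lit 612)) (nat_lit 6) (nat_lit 3861) (nat_lit 0), mk (.negSucc (nat_lit 3017)) (nat_lit 3) (nat_lit 69970) (nat_lit 0), mk (.negSucc (nat_lit 5363)) (nat_lit 5) (nat_lit 3861) (nat_lit 0), mk (.ofNat (nat_lit 1233)) (nat_lit 5) (nat_lit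 5) (nat_lit 1), mk (.ofNat (nat_lit 82)) (nat_lit 3) (nat_lit 74005) (nat_lit 0), mk (.negSucc (nat_lit 1651)) (nat_lit 3) (nat_lit 279620) (nat_lit 0)]),
  ((.ofNat (nat_lit 72)), p42,
    [mk (.ofNat (nat_lit 3)) (nat_lit 3) (nat_lit 69970) (nat_lit 0), mk (.negSucc (nat_lit 5)) (nat_lit 6) (nat_lit 5) (nat_lit 1), mk (.negSucc (nat_lit 17)) (nat_lit 5) (nat_lit 5) (nat_lit 1), mk (.ofNat (nat_lit 11)) (nat_lit 3) (nat_lit 74005) (nat_lit 0), mk (.negSucc (nat_lit 0)) (nat_lit 3) (nat_lit 279620) (nat_lit 0)]),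
  ((.ofNat (nat_lit 18)), p43,
    [mk (.negSucc (nat_lit 5)) (nat_lit 6) (nat_lit 5) (nat_lit 1), mk (.ofNat (nat_lit 3)) (nat_lit 3) (nat_lit 69970) (nat_lit 0), mk (.negSucc (nat_lit 0)) (nat_lit 3) (nat_lit 74005) (nat_lit 0), mk (.negSucc (nat_lit 0)) (nat_lit 3) (nat_lit 279620) (nat_lit 0)]),
  ((.ofNat (nat_lit 3960)), p44,
    [mk (.ofNat (nat_lit 180)) (nat_lit 2) (nat_lit 4405) (nat_lit 0), mk (.ofNat (nat_lit 342)) (nat_lit 3) (nat_lit 69925) (nat_lit 0), mk (.negSucc (nat_lit 59)) (nat_lit 2) (nat_lit 1122085) (nat_lit 0), mk (.negSucc (nat_lit 107)) (nat_lit 4) (nat_lit 5) (nat_lit 1), mk (.negSucc (nat_lit 11)) (nat_lit 2) (nat_lit 4373) (nat_lit 2), mk (.negSucc (nat_lit 377)) (nat_lit 3) (nat_lit 70225) (nat_lit 0), mk (.ofNat (nat_lit 18)) (nat_lit 4) (nat_lit 3861) (nat_lit 0), mk (.negSucc (nat_lit 353)) (nat_lit 3) (nat_lit 69970) (nat_lit 0), mk (.negSucc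 (nat_lit 335)) (nat_lit 6) (nat_lit 5) (nat_lit 1), mk (.negSucc (nat_lit 2663)) (nat_lit 6) (nat_lit 3861) (nat_lit 0), mk (.ofNat (nat_lit 1224)) (nat_lit 5) (nat_lit 5) (nat_lit 1), mk (.negSucc (nat_lit 253)) (nat_lit 3) (nat_lit 74005) (nat_lit 0), mk (.ofNat (nat_lit 18)) (nat_lit 5) (nat_lit 3861) (nat_lit 0), mk (.ofNat (nat_lit 289)) (nat_lit 3) (nat_lit 279620) (nat_lit 0)]),
  ((.ofNat (nat_lit 18)), p45,
    [mk (.ofNat (nat_lit 72)) (nat_lit 3) (nat_lit 70245) (nat_lit 0), mk (.ofNat (nat_lit 72)) (nat_lit 3) (nat_lit 70230) (nat_lit 0), mk (.negSucc (nat_lit 119)) (nat_lit 2) (nat_lit 4438) (nat_lit 17), mk (.ofNat (nat_lit 36)) (nat_lit 2) (nat_lit 8790) (nat_lit 0), mk (.ofNat (nat_lit 132)) (nat_lit 3) (nat_lit 17919765) (nat_lit 0), mk (.ofNat (nat_lit 132)) (nat_lit 3) (nat_lit 17915670) (nat_lit 0), mk (.negSucc (nat_lit 143)) (nat_lit 3) (nat_lit 71009) (nat_lit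 1), mk (.negSucc (nat_lit 83)) (nat_lit 3) (nat_lit 69974) (nat_lit 1), mk (.ofNat (nat_lit 60)) (nat_lit 3) (nat_lit 74085) (nat_lit 0), mk (.negSucc (nat_lit 83)) (nat_lit 3) (nat_lit 69989) (nat_lit 1), mk (.ofNat (nat_lit 60)) (nat_lit 3) (nat_lit 74070) (nat_lit 0), mk (.negSucc (nat_lit 35)) (nat_lit 3) (nat_lit 86310) (nat_lit 0), mk (.negSucc (nat_lit 35)) (nat_lit 3) (nat_lit 136545) (nat_lit 0), mk (.ofNat (nat_lit 96)) (nat_lit 7) (nat_lit 86) (nat_lit 1), mk (.ofNat (nat_lit 96)) (nat_lit 7) (nat_lit 101) (nat_lit 1), mk (.negSucc (nat_lit 8)) (nat_lit 9) (nat_lit 3941) (nat_lit 0), mk (.ofNat (nat_lit 9)) (nat_lit 4) (nat_lit 3941) (nat_lit 0), mk (.negSucc (nat_lit 47)) (nat_lit 3) (nat_lit 69985) (nat_lit 5), mk (.negSucc (nat_lit 47)) (nat_lit 3) (nat_lit 69969) (nat_lit 6), mk (.negSucc (nat_lit 35)) (nat_lit 3) (nat_lit 17954385) (nat_lit 0), mk (.ofNat (nat_lit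 36)) (nat_lit 3) (nat_lit 23142165) (nat_lit 0), mk (.negSucc (nat_lit 55)) (nat_lit 3) (nat_lit 86294) (nat_lit 1), mk (.ofNat (nat_lit 36)) (nat_lit 3) (nat_lit 22093590) (nat_lit 0), mk (.ofNat (nat_lit 40)) (nat_lit 3) (nat_lit 17899365) (nat_lit 0), mk (.negSucc (nat_lit 11)) (nat_lit 3) (nat_lit 69910) (nat_lit 5), mk (.negSucc (nat_lit 11)) (nat_lit 3) (nat_lit 69909) (nat_lit 6), mk (.negSucc (nat_lit 35)) (nat_lit 5) (nat_lit 3941) (nat_lit 0), mk (.negSucc (nat_lit 95)) (nat_lit 5) (nat_lit 6) (nat_lit 5), mk (.negSucc (nat_lit 95)) (nat_lit 5) (nat_lit 5) (nat_lit 6)]),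
  ((.ofNat (nat_lit 9)), p46,
    [mk (.ofNat (nat_lit 72)) (nat_lit 3) (nat_lit 70230) (nat_lit 0), mk (.ofNat (nat_lit 72)) (nat_lit 3) (nat_lit 70245) (nat_lit 0), mk (.negSucc (nat_lit 119)) (nat_lit 2) (nat_lit 4438) (nat_lit 17), mk (.ofNat (nat_lit 132)) (nat_lit 3) (nat_lit 17915670) (nat_lit 0), mk (.negSucc (nat_lit 83)) (nat_lit 3) (nat_lit 69974) (nat_lit 1), mk (.ofNat (nat_lit 132)) (nat_lit 3) (nat_lit 17919765) (nat_lit 0), mk (.negSucc (nat_lit 143)) (nat_lit 3) (nat_lit 71009) (nat_lit 1), mk (.ofNat (nat_lit 60)) (nat_lit 3) (nat_lit 74085) (nat_lit 0), mk (.negSucc (nat_lit 83)) (nat_lit 3) (nat_lit 69989) (nat_lit 1), mk (.ofNat (nat_lit 60)) (nat_lit 3) (nat_lit 74070) (nat_lit 0), mk (.negSucc (nat_lit 35)) (nat_lit 3) (nat_lit 86310) (nat_lit 0), mk (.negSucc (nat_lit 35)) (nat_lit 3) (nat_lit 136545) (nat_lit 0), mk (.ofNat (nat_lit 96)) (nat_lit 7) (nat_lit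 86) (nat_lit 1), mk (.ofNat (nat_lit 96)) (nat_lit 7) (nat_lit 101) (nat_lit 1), mk (.negSucc (nat_lit 8)) (nat_lit 9) (nat_lit 3941) (nat_lit 0), mk (.negSucc (nat_lit 47)) (nat_lit 3) (nat_lit 69985) (nat_lit 5), mk (.negSucc (nat_lit 47)) (nat_lit 3) (nat_lit 69969) (nat_lit 6), mk (.negSucc (nat_lit 35)) (nat_lit 3) (nat_lit 17954385) (nat_lit 0), mk (.ofNat (nat_lit 36)) (nat_lit 3) (nat_lit 23142165) (nat_lit 0), mk (.negSucc (nat_lit 55)) (nat_lit 3) (nat_lit 86294) (nat_lit 1), mk (.ofNat (nat_lit 36)) (nat_lit 3) (nat_lit 22093590) (nat_lit 0), mk (.ofNat (nat_lit 40)) (nat_lit 3) (nat_lit 17899365) (nat_lit 0), mk (.negSucc (nat_lit 11)) (nat_lit 3) (nat_lit 69910) (nat_lit 5), mk (.negSucc (nat_lit 11)) (nat_lit 3) (nat_lit 69909) (nat_lit 6), mk (.negSucc (nat_lit 35)) (nat_lit 5) (nat_lit 3941) (nat_lit 0), mk (.negSucc (nat_lit 95)) (nat_lit 5) (nat_lit 6) (nat_lit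 5), mk (.negSucc (nat_lit 95)) (nat_lit 5) (nat_lit 5) (nat_lit 6)]),
  ((.ofNat (nat_lit 264)), p47,
    [mk (.ofNat (nat_lit 408)) (nat_lit 3) (nat_lit 70230) (nat_lit 0), mk (.ofNat (nat_lit 408)) (nat_lit 3) (nat_lit 70245) (nat_lit 0), mk (.ofNat (nat_lit 1456)) (nat_lit 8) (nat_lit 86) (nat_lit 1), mk (.ofNat (nat_lit 352)) (nat_lit 8) (nat_lit 24342) (nat_lit 0), mk (.ofNat (nat_lit 352)) (nat_lit 8) (nat_lit 28437) (nat_lit 0), mk (.ofNat (nat_lit 448)) (nat_lit 2) (nat_lit 291500385) (nat_lit 0), mk (.ofNat (nat_lit 728)) (nat_lit 2) (nat_lit 1138454) (nat_lit 1), mk (.negSucc (nat_lit 1531)) (nat_lit 2) (nat_lit 4438) (nat_lit 17), mk (.ofNat (nat_lit 448)) (nat_lit 2) (nat_lit 292548945) (nat_lit 0), mk (.ofNat (nat_lit 224)) (nat_lit 2) (nat_lit 301031190) (nat_lit 0), mk (.ofNat (nat_lit 728)) (nat_lit 2) (nat_lit 1142549) (nat_lit 1), mk (.ofNat (nat_lit 480)) (nat_lit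 2) (nat_lit 1138470) (nat_lit 0), mk (.negSucc (nat_lit 23)) (nat_lit 2) (nat_lit 4438) (nat_lit 2), mk (.ofNat (nat_lit 120)) (nat_lit 2) (nat_lit 8790) (nat_lit 0), mk (.ofNat (nat_lit 480)) (nat_lit 2) (nat_lit 1142565) (nat_lit 0), mk (.negSucc (nat_lit 2067)) (nat_lit 3) (nat_lit 17953125) (nat_lit 0), mk (.ofNat (nat_lit 956)) (nat_lit 3) (nat_lit 17915670) (nat_lit 0), mk (.ofNat (nat_lit 14)) (nat_lit 3) (nat_lit 69989) (nat_lit 1), mk (.ofNat (nat_lit 14)) (nat_lit 3) (nat_lit 69974) (nat_lit 1), mk (.ofNat (nat_lit 204)) (nat_lit 3) (nat_lit 18215265) (nat_lit 0), mk (.ofNat (nat_lit 204)) (nat_lit 3) (nat_lit 18280785) (nat_lit 0), mk (.negSucc (nat_lit 2067)) (nat_lit 3) (nat_lit 17953110) (nat_lit 0), mk (.ofNat (nat_lit 956)) (nat_lit 3) (nat_lit 17919765) (nat_lit 0), mk (.negSucc (nat_lit 755)) (nat_lit 3) (nat_lit 86310) (nat_lit 0), mk (.negSucc (nat_lit 947))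 (nat_lit 3) (nat_lit 136545) (nat_lit 0), mk (.ofNat (nat_lit 456)) (nat_lit 3) (nat_lit 74070) (nat_lit 0), mk (.negSucc (nat_lit 521)) (nat_lit 3) (nat_lit 71009) (nat_lit 1), mk (.ofNat (nat_lit 456)) (nat_lit 3) (nat_lit 74085) (nat_lit 0), mk (.ofNat (nat_lit 296)) (nat_lit 7) (nat_lit 61782) (nat_lit 0), mk (.ofNat (nat_lit 296)) (nat_lit 7) (nat_lit 61797) (nat_lit 0), mk (.ofNat (nat_lit 121)) (nat_lit 9) (nat_lit 6) (nat_lit 5), mk (.ofNat (nat_lit 39)) (nat_lit 4) (nat_lit 6) (nat_lit 5), mk (.ofNat (nat_lit 121)) (nat_lit 9) (nat_lit 5) (nat_lit 6), mk (.ofNat (nat_lit 39)) (nat_lit 4) (nat_lit 5) (nat_lit 6), mk (.negSucc (nat_lit 53)) (nat_lit 9) (nat_lit 3941) (nat_lit 0), mk (.ofNat (nat_lit 42)) (nat_lit 4) (nat_lit 3941) (nat_lit 0), mk (.ofNat (nat_lit 524)) (nat_lit 7) (nat_lit 86) (nat_lit 1), mk (.ofNat (nat_lit 524)) (nat_lit 7) (nat_lit 101) (nat_lit 1),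 mk (.negSucc (nat_lit 493)) (nat_lit 3) (nat_lit 69985) (nat_lit 5), mk (.negSucc (nat_lit 493)) (nat_lit 3) (nat_lit 69969) (nat_lit 6), mk (.negSucc (nat_lit 2219)) (nat_lit 3) (nat_lit 17954385) (nat_lit 0), mk (.ofNat (nat_lit 960)) (nat_lit 3) (nat_lit 17899365) (nat_lit 0), mk (.ofNat (nat_lit 92)) (nat_lit 3) (nat_lit 69910) (nat_lit 5), mk (.ofNat (nat_lit 92)) (nat_lit 3) (nat_lit 69909) (nat_lit 6), mk (.ofNat (nat_lit 740)) (nat_lit 3) (nat_lit 22093590) (nat_lit 0), mk (.ofNat (nat_lit 740)) (nat_lit 3) (nat_lit 23142165) (nat_lit 0), mk (.ofNat (nat_lit 98)) (nat_lit 3) (nat_lit 86294) (nat_lit 1), mk (.negSucc (nat_lit 1295)) (nat_lit 5) (nat_lit 3941) (nat_lit 0), mk (.negSucc (nat_lit 705)) (nat_lit 5) (nat_lit 6) (nat_lit 5), mk (.negSucc (nat_lit 705)) (nat_lit 5) (nat_lit 5) (nat_lit 6)])]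

theorem okL2 : jobs2.all (checkJ ids2) = true := by decide +kernel

def ids3 : List (List (Int × T)) := [pa4, g5, p2, p3, p4, p5, p6, p7, p8, p9, p10, p11, p12, p13, p14, p15, p16, p17, p18, p19, p20, p21, p22, p23, p24, p25, p26, p27, p28, p29, p30, p31, p32, p33, p34, p35, p36, p37, p38, p39, p40, p41, p42, p43, p44, p45, p46, p47]

def p48 : List (Int × T) :=
  [((.ofNat (nat_lit 76)), .m v1 (.m v5 (.m v1 (.m v6 v3)))), ((.negSucc (nat_lit 47)), .m v2 (.m v5 (.m v6 v3))), ((.negSucc (nat_lit 23)), .m v4 (.m v5 (.m v6 v1))), ((.ofNat (nat_lit 213)), .m (.m v5 v1) (.m v6 v4)), ((.ofNat (nat_lit 88)), .m v1 (.m v5 (.m v6 v4)))]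

def p49 : List (Int × T) :=
  [((.ofNat (nat_lit 76)), .m v1 (.m v3 (.m v6 (.m v5 v1)))), ((.negSucc (nat_lit 95)), .m v2 (.m v5 (.m v6 v3))), ((.negSucc (nat_lit 123)), .m v4 (.m v5 (.m v6 v1))), ((.ofNat (nat_lit 445)), .m (.m v5 v1) (.m v6 v4)), ((.ofNat (nat_lit 24)), .m v1 (.m v5 (.m v6 v4)))]

def p50 : List (Int × T) :=
  [((.ofNat (nat_lit 1)), .m v1 (.m v6 (.m v5 v4))), ((.ofNat (nat_lit 1)), .m v1 (.m v5 (.m v6 v4)))]

def p51 : List (Int × T) :=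
  [((.ofNat (nat_lit 76)), .m (.m v5 v3) (.m v1 (.m v6 v1))), ((.negSucc (nat_lit 111)), .m v2 (.m v5 (.m v6 v3))), ((.negSucc (nat_lit 36)), .m v4 (.m v5 (.m v6 v1))), ((.ofNat (nat_lit 440)), .m (.m v5 v1) (.m v6 v4)), ((.ofNat (nat_lit 28)), .m v1 (.m v5 (.m v6 v4)))]

def p52 : List (Int × T) :=
  [((.ofNat (nat_lit 1)), .m v3 (.m v5 v3))]

def p53 : List (Int × T) :=
  [((.ofNat (nat_lit 19)), .m (.m v5 v2) (.m v6 v3)), ((.ofNat (nat_lit 80)), .m v2 (.m v5 (.m v6 v3))), ((.ofNat (nat_lit 78)), .m v4 (.m v5 (.m v6 v1))), ((.negSucc (nat_lit 335)), .m (.m v5 v1) (.m v6 v4)), ((.ofNat (nat_lit 19)), .m v3 (.m v5 (.m v6 v2))), ((.negSucc (nat_lit 19)), .m v1 (.m v5 (.m v6 v4)))]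

def p54 : List (Int × T) :=
  [((.ofNat (nat_lit 1)), .m v4 (.m v5 v2))]

def p55 : List (Int × T) :=
  [((.ofNat (nat_lit 1)), .m v3 (.m v5 v4))]

def p56 : List (Int × T) :=
  [((.ofNat (nat_lit 1)), .m v3 (.m v2 (.m v5 v2)))]

def p57 : List (Int × T) :=
  [((.ofNat (nat_lit 1)), .m v2 (.m v1 (.m v1 (.m v5 v2))))]

def p58 : List (Int × T) :=
  [((.ofNat (nat_lit 1)), .m v2 (.m v1 (.m v5 v3)))]

def p59 : List (Int × T) :=
  [((.ofNat (nat_lit 1)), .m v2 (.m v5 v4))]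

def p60 : List (Int × T) :=
  [((.ofNat (nat_lit 1)), .m v4 (.m v5 v3))]

def p61 : List (Int × T) :=
  [((.ofNat (nat_lit 1)), .m v2 (.m v3 (.m v5 v1)))]

def p62 : List (Int × T) :=
  [((.ofNat (nat_lit 1)), .m v2 (.m v1 (.m v2 (.m v5 v1))))]

def p63 : List (Int × T) :=
  [((.ofNat (nat_lit 1)), .m (.m v5 v4) (.m v6 v4))]

def p64 : List (Int × T) :=
  [((.ofNat (nat_lit 380)), .m (.m v5 v1) (.m v1 (.m v6 v3))), ((.ofNat (nat_lit 376)), .m v2 (.m v5 (.m v6 v3))), ((.ofNat (nat_lit 169)), .m v4 (.m v5 (.m v6 v1))), ((.negSucc (nat_lit 1012)), .m (.m v5 v1) (.m v6 v4)), ((.ofNat (nat_lit 38)), .m v3 (.m v5 (.m v6 v2))), ((.negSucc (nat_lit 93)), .m v1 (.m v5 (.m v6 v4)))]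

def p65 : List (Int × T) :=
  [((.ofNat (nat_lit 1)), .m v3 (.m v6 (.m v5 v2))), ((.ofNat (nat_lit 1)), .m v3 (.m v5 (.m v6 v2)))]

def p66 : List (Int × T) :=
  [((.ofNat (nat_lit 2)), .m (.m v6 v2) (.m v2 (.m v5 v1))), ((.negSucc (nat_lit 0)), .m v4 (.m v5 (.m v6 v1)))]

def p67 : List (Int × T) :=
  [((.ofNat (nat_lit 76)), .m (.m v6 v3) (.m v1 (.m v5 v1))), ((.ofNat (nat_lit 112)), .m v2 (.m v5 (.m v6 v3))), ((.ofNat (nat_lit 37)), .m v4 (.m v5 (.m v6 v1))), ((.negSucc (nat_lit 439)), .m (.m v5 v1) (.m v6 v4)), ((.negSucc (nat_lit 27)), .m v1 (.m v5 (.m v6 v4)))]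

def p68 : List (Int × T) :=
  [((.ofNat (nat_lit 1)), .m v3 (.m v1 (.m v5 v3)))]

def p69 : List (Int × T) :=
  [((.ofNat (nat_lit 1)), .m v3 (.m v3 (.m v5 v1)))]

def p70 : List (Int × T) :=
  [((.ofNat (nat_lit 1)), .m v2 (.m v6 (.m v5 v3))), ((.ofNat (nat_lit 1)), .m v2 (.m v5 (.m v6 v3)))]

def p71 : List (Int × T) :=
  [((.ofNat (nat_lit 76)), .m v1 (.m v3 (.m v5 (.m v6 v1)))), ((.ofNat (nat_lit 96)), .m v2 (.m v5 (.m v6 v3))), ((.ofNat (nat_lit 124)), .m v4 (.m v5 (.m v6 v1))), ((.negSucc (nat_lit 444)), .m (.m v5 v1) (.m v6 v4)), ((.negSucc (nat_lit 23)), .m v1 (.m v5 (.m v6 v4)))]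

def p72 : List (Int × T) :=
  [((.ofNat (nat_lit 1)), .m v4 (.m v5 (.m v1 (.m v6 v1))))]

def p73 : List (Int × T) :=
  [((.ofNat (nat_lit 1)), .m v1 (.m (.m v5 v2) (.m v6 v2)))]

def p74 : List (Int × T) :=
  [((.ofNat (nat_lit 1)), .m v4 (.m v5 (.m v6 v2)))]

def p75 : List (Int × T) :=
  [((.ofNat (nat_lit 38)), .m v2 (.m v6 (.m v1 (.m v5 v2)))), ((.ofNat (nat_lit 74)), .m v2 (.m v5 (.m v6 v3))), ((.ofNat (nat_lit 37)), .m v4 (.m v5 (.m v6 v1))), ((.negSucc (nat_lit 344)), .m (.m v5 v1) (.m v6 v4)), ((.negSucc (nat_lit 27)), .m v1 (.m v5 (.m v6 v4)))]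

def p76 : List (Int × T) :=
  [((.ofNat (nat_lit 1)), .m v2 (.m v2 (.m v5 v2)))]

def p77 : List (Int × T) :=
  [((.ofNat (nat_lit 1)), .m (.m v5 v2) (.m v6 v4))]

def p78 : List (Int × T) :=
  [((.ofNat (nat_lit 1)), .m v2 (.m v2 (.m v5 (.m v6 v3))))]

def p79 : List (Int × T) :=
  [((.ofNat (nat_lit 38)), .m v2 (.m v5 (.m v1 (.m v6 v2)))), ((.negSucc (nat_lit 73)), .m v2 (.m v5 (.m v6 v3))), ((.negSucc (nat_lit 36)), .m v4 (.m v5 (.m v6 v1))), ((.ofNat (nat_lit 345)), .m (.m v5 v1) (.m v6 v4)), ((.ofNat (nat_lit 28)), .m v1 (.m v5 (.m v6 v4)))]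

def p80 : List (Int × T) :=
  [((.ofNat (nat_lit 1)), .m v3 (.m (.m v5 v1) (.m v6 v1)))]

def p81 : List (Int × T) :=
  [((.ofNat (nat_lit 1)), .m v3 (.m v1 (.m v5 v2)))]

def p82 : List (Int × T) :=
  [((.ofNat (nat_lit 1)), .m v3 (.m v2 (.m v5 v1)))]

def p83 : List (Int × T) :=
  [((.ofNat (nat_lit 1)), .m v3 (.m v1 (.m v1 (.m v5 v1))))]

def p84 : List (Int × T) :=
  [((.ofNat (nat_lit 2)), .m (.m v5 v2) (.m v2 (.m v6 v1))), ((.ofNat (nat_lit 1)), .m v4 (.m v5 (.m v6 v1)))]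

def p85 : List (Int × T) :=
  [((.ofNat (nat_lit 1)), .m v4 (.m v2 (.m v5 v1)))]

def p86 : List (Int × T) :=
  [((.ofNat (nat_lit 1)), .m v1 (.m v1 (.m v5 (.m v6 v4))))]

def p87 : List (Int × T) :=
  [((.ofNat (nat_lit 76)), .m v3 (.m v1 (.m v5 (.m v6 v1)))), ((.ofNat (nat_lit 128)), .m v2 (.m v5 (.m v6 v3))), ((.ofNat (nat_lit 45)), .m v4 (.m v5 (.m v6 v1))), ((.negSucc (nat_lit 453)), .m (.m v5 v1) (.m v6 v4)), ((.negSucc (nat_lit 31)), .m v1 (.m v5 (.m v6 v4)))]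

def p88 : List (Int × T) :=
  [((.ofNat (nat_lit 1)), .m (.m v5 v4) (.m v1 (.m v6 v1)))]

/-- certificates of level 3 -/
def jobs3 : List Job := [
  ((.ofNat (nat_lit 4320)), p48,
    [mk (.negSucc (nat_lit 25919)) (nat_lit 2) (nat_lit 1138486) (nat_lit 0), mk (.ofNat (nat_lit 64800)) (nat_lit 3) (nat_lit 23146261) (nat_lit 0), mk (.negSucc (nat_lit 64799)) (nat_lit 3) (nat_lit 22097686) (nat_lit 0), mk (.ofNat (nat_lit 64800)) (nat_lit 3) (nat_lit 136545) (nat_lit 1), mk (.ofNat (nat_lit 12825)) (nat_lit 22) (nat_lit 61782) (nat_lit 0), mk (.negSucc (nat_lit 3239)) (nat_lit 22) (nat_lit 28437) (nat_lit 0), mk (.negSucc (nat_lit 12824)) (nat_lit 22) (nat_lit 61797) (nat_lit 0), mk (.negSucc (nat_lit 2429)) (nat_lit 22) (nat_lit 24342) (nat_lit 0), mk (.ofNat (nat_lit 324000)) (nat_lit 2) (nat_lit 5206) (nat_lit 0), mk (.ofNat (nat_lit 64800)) (nat_lit 3) (nat_lit 71009) (nat_lit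 2), mk (.ofNat (nat_lit 155520)) (nat_lit 3) (nat_lit 74326) (nat_lit 0), mk (.negSucc (nat_lit 25919)) (nat_lit 2) (nat_lit 9046) (nat_lit 0), mk (.negSucc (nat_lit 25919)) (nat_lit 3) (nat_lit 70486) (nat_lit 0), mk (.negSucc (nat_lit 129599)) (nat_lit 3) (nat_lit 69989) (nat_lit 2), mk (.ofNat (nat_lit 207360)) (nat_lit 18) (nat_lit 28437) (nat_lit 0), mk (.ofNat (nat_lit 4901280)) (nat_lit 18) (nat_lit 86) (nat_lit 1), mk (.negSucc (nat_lit 356669)) (nat_lit 14) (nat_lit 86) (nat_lit 1), mk (.negSucc (nat_lit 553499)) (nat_lit 3) (nat_lit 74070) (nat_lit 1), mk (.negSucc (nat_lit 207359)) (nat_lit 3) (nat_lit 34992481) (nat_lit 0), mk (.ofNat (nat_lit 414720)) (nat_lit 3) (nat_lit 136546) (nat_lit 0), mk (.ofNat (nat_lit 97200)) (nat_lit 7) (nat_lit 101) (nat_lit 2), mk (.ofNat (nat_lit 51840)) (nat_lit 3) (nat_lit 18215521) (nat_lit 0), mk (.ofNat (nat_lit 713340)) (nat_lit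 3) (nat_lit 17915686) (nat_lit 0), mk (.ofNat (nat_lit 579420)) (nat_lit 3) (nat_lit 17919781) (nat_lit 0), mk (.ofNat (nat_lit 8640)) (nat_lit 2) (nat_lit 287306326) (nat_lit 0), mk (.negSucc (nat_lit 778139)) (nat_lit 3) (nat_lit 18968341) (nat_lit 0), mk (.ofNat (nat_lit 227556)) (nat_lit 16) (nat_lit 101) (nat_lit 1), mk (.ofNat (nat_lit 520716)) (nat_lit 23) (nat_lit 101) (nat_lit 1), mk (.negSucc (nat_lit 514619)) (nat_lit 3) (nat_lit 18964246) (nat_lit 0), mk (.ofNat (nat_lit 25920)) (nat_lit 19) (nat_lit 28437) (nat_lit 0), mk (.ofNat (nat_lit 183465)) (nat_lit 9) (nat_lit 1044822) (nat_lit 0), mk (.ofNat (nat_lit 69660)) (nat_lit 4) (nat_lit 1044822) (nat_lit 0), mk (.ofNat (nat_lit 38880)) (nat_lit 3) (nat_lit 18281041) (nat_lit 0), mk (.negSucc (nat_lit 2429)) (nat_lit 22) (nat_lit 86) (nat_lit 1), mk (.negSucc (nat_lit 3239)) (nat_lit 22) (nat_lit 101) (nat_lit 1),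 mk (.negSucc (nat_lit 6479)) (nat_lit 3) (nat_lit 35058001) (nat_lit 0), mk (.ofNat (nat_lit 810)) (nat_lit 19) (nat_lit 24342) (nat_lit 0), mk (.ofNat (nat_lit 199665)) (nat_lit 9) (nat_lit 1044837) (nat_lit 0), mk (.ofNat (nat_lit 31590)) (nat_lit 4) (nat_lit 1044837) (nat_lit 0), mk (.ofNat (nat_lit 142560)) (nat_lit 7) (nat_lit 86) (nat_lit 2), mk (.ofNat (nat_lit 154116)) (nat_lit 16) (nat_lit 86) (nat_lit 1), mk (.ofNat (nat_lit 486156)) (nat_lit 23) (nat_lit 86) (nat_lit 1), mk (.negSucc (nat_lit 3792599)) (nat_lit 3) (nat_lit 71011) (nat_lit 0), mk (.negSucc (nat_lit 126359)) (nat_lit 3) (nat_lit 135781) (nat_lit 0), mk (.negSucc (nat_lit 6137879)) (nat_lit 15) (nat_lit 101) (nat_lit 1), mk (.ofNat (nat_lit 1556280)) (nat_lit 6) (nat_lit 1044822) (nat_lit 0), mk (.negSucc (nat_lit 25919)) (nat_lit 17) (nat_lit 61782) (nat_lit 0), mk (.negSucc (nat_lit 129599)) (nat_lit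 17) (nat_lit 86) (nat_lit 1), mk (.negSucc (nat_lit 2636399)) (nat_lit 3) (nat_lit 78181) (nat_lit 0), mk (.negSucc (nat_lit 2450639)) (nat_lit 3) (nat_lit 78166) (nat_lit 0), mk (.negSucc (nat_lit 207359)) (nat_lit 15) (nat_lit 61782) (nat_lit 0), mk (.ofNat (nat_lit 1029240)) (nat_lit 6) (nat_lit 1044837) (nat_lit 0), mk (.negSucc (nat_lit 278639)) (nat_lit 3) (nat_lit 135766) (nat_lit 0), mk (.negSucc (nat_lit 1530359)) (nat_lit 15) (nat_lit 86) (nat_lit 1), mk (.ofNat (nat_lit 102600)) (nat_lit 13) (nat_lit 61782) (nat_lit 0), mk (.ofNat (nat_lit 103680)) (nat_lit 13) (nat_lit 28437) (nat_lit 0), mk (.negSucc (nat_lit 489239)) (nat_lit 3) (nat_lit 86294) (nat_lit 2), mk (.negSucc (nat_lit 2889839)) (nat_lit 3) (nat_lit 75106) (nat_lit 0), mk (.negSucc (nat_lit 545669)) (nat_lit 20) (nat_lit 24342) (nat_lit 0), mk (.ofNat (nat_lit 309150)) (nat_lit 20) (nat_lit 86) (nat_lit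 1), mk (.ofNat (nat_lit 51840)) (nat_lit 3) (nat_lit 202081) (nat_lit 0), mk (.ofNat (nat_lit 276750)) (nat_lit 21) (nat_lit 86) (nat_lit 1), mk (.negSucc (nat_lit 32399)) (nat_lit 20) (nat_lit 101) (nat_lit 1), mk (.negSucc (nat_lit 781109)) (nat_lit 20) (nat_lit 28437) (nat_lit 0), mk (.negSucc (nat_lit 102599)) (nat_lit 13) (nat_lit 61797) (nat_lit 0), mk (.ofNat (nat_lit 3240)) (nat_lit 13) (nat_lit 24342) (nat_lit 0), mk (.ofNat (nat_lit 3766680)) (nat_lit 24) (nat_lit 6) (nat_lit 5), mk (.ofNat (nat_lit 349920)) (nat_lit 25) (nat_lit 6) (nat_lit 5), mk (.negSucc (nat_lit 81269)) (nat_lit 26) (nat_lit 5) (nat_lit 6), mk (.ofNat (nat_lit 1074330)) (nat_lit 26) (nat_lit 6) (nat_lit 5), mk (.ofNat (nat_lit 5095680)) (nat_lit 27) (nat_lit 6) (nat_lit 5), mk (.ofNat (nat_lit 5596800)) (nat_lit 27) (nat_lit 5) (nat_lit 6), mk (.negSucc (nat_lit 10842869)) (nat_lit 27) (nat_lit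 3941) (nat_lit 0), mk (.ofNat (nat_lit 324000)) (nat_lit 26) (nat_lit 3941) (nat_lit 0), mk (.ofNat (nat_lit 4197480)) (nat_lit 28) (nat_lit 6) (nat_lit 5), mk (.negSucc (nat_lit 570239)) (nat_lit 29) (nat_lit 6) (nat_lit 5), mk (.negSucc (nat_lit 155519)) (nat_lit 28) (nat_lit 3941) (nat_lit 0), mk (.negSucc (nat_lit 155519)) (nat_lit 30) (nat_lit 3941) (nat_lit 0), mk (.negSucc (nat_lit 103679)) (nat_lit 31) (nat_lit 6) (nat_lit 5), mk (.ofNat (nat_lit 226800)) (nat_lit 25) (nat_lit 5) (nat_lit 6), mk (.negSucc (nat_lit 103679)) (nat_lit 31) (nat_lit 5) (nat_lit 6), mk (.negSucc (nat_lit 25919)) (nat_lit 25) (nat_lit 3941) (nat_lit 0), mk (.negSucc (nat_lit 25919)) (nat_lit 31) (nat_lit 3941) (nat_lit 0), mk (.negSucc (nat_lit 77759)) (nat_lit 32) (nat_lit 6) (nat_lit 5), mk (.negSucc (nat_lit 42119)) (nat_lit 33) (nat_lit 3941) (nat_lit 0), mk (.ofNat (nat_lit 25920)) (nat_lit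 32) (nat_lit 3941) (nat_lit 0), mk (.ofNat (nat_lit 259200)) (nat_lit 34) (nat_lit 3941) (nat_lit 0), mk (.ofNat (nat_lit 10414320)) (nat_lit 33) (nat_lit 5) (nat_lit 6), mk (.negSucc (nat_lit 964439)) (nat_lit 24) (nat_lit 3941) (nat_lit 0), mk (.ofNat (nat_lit 1107000)) (nat_lit 35) (nat_lit 3941) (nat_lit 0), mk (.ofNat (nat_lit 414720)) (nat_lit 34) (nat_lit 6) (nat_lit 5), mk (.ofNat (nat_lit 142560)) (nat_lit 30) (nat_lit 6) (nat_lit 5), mk (.negSucc (nat_lit 161999)) (nat_lit 30) (nat_lit 5) (nat_lit 6), mk (.negSucc (nat_lit 414719)) (nat_lit 29) (nat_lit 5) (nat_lit 6), mk (.negSucc (nat_lit 1530359)) (nat_lit 35) (nat_lit 6) (nat_lit 5), mk (.negSucc (nat_lit 1236599)) (nat_lit 35) (nat_lit 5) (nat_lit 6), mk (.ofNat (nat_lit 4620840)) (nat_lit 28) (nat_lit 5) (nat_lit 6), mk (.ofNat (nat_lit 1556280)) (nat_lit 36) (nat_lit 5) (nat_lit 6), mk (.ofNat (nat_lit 1029240))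 (nat_lit 36) (nat_lit 6) (nat_lit 5), mk (.ofNat (nat_lit 9723120)) (nat_lit 33) (nat_lit 6) (nat_lit 5), mk (.ofNat (nat_lit 12960)) (nat_lit 34) (nat_lit 5) (nat_lit 6), mk (.ofNat (nat_lit 3792600)) (nat_lit 24) (nat_lit 5) (nat_lit 6), mk (.ofNat (nat_lit 810000)) (nat_lit 29) (nat_lit 3941) (nat_lit 0), mk (.negSucc (nat_lit 103679)) (nat_lit 32) (nat_lit 5) (nat_lit 6), mk (.ofNat (nat_lit 2022280)) (nat_lit 3) (nat_lit 279620) (nat_lit 0)]),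
  ((.ofNat (nat_lit 9360)), p49,
    [mk (.negSucc (nat_lit 112319)) (nat_lit 2) (nat_lit 1138486) (nat_lit 0), mk (.negSucc (nat_lit 280799)) (nat_lit 3) (nat_lit 22097686) (nat_lit 0), mk (.ofNat (nat_lit 280800)) (nat_lit 3) (nat_lit 23146261) (nat_lit 0), mk (.ofNat (nat_lit 280800)) (nat_lit 3) (nat_lit 136545) (nat_lit 1), mk (.negSucc (nat_lit 55574)) (nat_lit 22) (nat_lit 61797) (nat_lit 0), mk (.negSucc (nat_lit 10529)) (nat_lit 22) (nat_lit 24342) (nat_lit 0), mk (.ofNat (nat_lit 280800)) (nat_lit 3) (nat_lit 71009) (nat_lit 2), mk (.ofNat (nat_lit 673920)) (nat_lit 3) (nat_lit 74326) (nat_lit 0), mk (.negSucc (nat_lit 112319)) (nat_lit 2) (nat_lit 9046) (nat_lit 0), mk (.ofNat (nat_lit 55575)) (nat_lit 22) (nat_lit 61782) (nat_lit 0), mk (.negSucc (nat_lit 14039)) (nat_lit 22) (nat_lit 28437) (nat_lit 0), mk (.negSucc (nat_lit 112319)) (nat_lit 3) (nat_lit 70486) (nat_lit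 0), mk (.ofNat (nat_lit 1410240)) (nat_lit 3) (nat_lit 86326) (nat_lit 0), mk (.negSucc (nat_lit 561599)) (nat_lit 3) (nat_lit 69989) (nat_lit 2), mk (.negSucc (nat_lit 4934264)) (nat_lit 14) (nat_lit 101) (nat_lit 1), mk (.negSucc (nat_lit 1619654)) (nat_lit 14) (nat_lit 24342) (nat_lit 0), mk (.ofNat (nat_lit 898560)) (nat_lit 18) (nat_lit 28437) (nat_lit 0), mk (.ofNat (nat_lit 3483090)) (nat_lit 14) (nat_lit 28437) (nat_lit 0), mk (.ofNat (nat_lit 168480)) (nat_lit 3) (nat_lit 18281041) (nat_lit 0), mk (.ofNat (nat_lit 9980850)) (nat_lit 3) (nat_lit 17919781) (nat_lit 0), mk (.ofNat (nat_lit 37440)) (nat_lit 2) (nat_lit 287306326) (nat_lit 0), mk (.negSucc (nat_lit 9700049)) (nat_lit 3) (nat_lit 18964246) (nat_lit 0), mk (.ofNat (nat_lit 224640)) (nat_lit 3) (nat_lit 18215521) (nat_lit 0), mk (.negSucc (nat_lit 898559)) (nat_lit 3) (nat_lit 34992481) (nat_lit 0), mk (.ofNat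 (nat_lit 421200)) (nat_lit 7) (nat_lit 101) (nat_lit 2), mk (.ofNat (nat_lit 1797120)) (nat_lit 3) (nat_lit 136546) (nat_lit 0), mk (.negSucc (nat_lit 4956119)) (nat_lit 9) (nat_lit 5) (nat_lit 97), mk (.negSucc (nat_lit 99899)) (nat_lit 23) (nat_lit 101) (nat_lit 1), mk (.negSucc (nat_lit 280799)) (nat_lit 3) (nat_lit 18968341) (nat_lit 0), mk (.negSucc (nat_lit 1185959)) (nat_lit 3) (nat_lit 71011) (nat_lit 0), mk (.negSucc (nat_lit 10529)) (nat_lit 22) (nat_lit 86) (nat_lit 1), mk (.ofNat (nat_lit 1911294)) (nat_lit 16) (nat_lit 86) (nat_lit 1), mk (.ofNat (nat_lit 1833249)) (nat_lit 23) (nat_lit 86) (nat_lit 1), mk (.negSucc (nat_lit 28079)) (nat_lit 3) (nat_lit 35058001) (nat_lit 0), mk (.ofNat (nat_lit 3510)) (nat_lit 19) (nat_lit 24342) (nat_lit 0), mk (.ofNat (nat_lit 1570335)) (nat_lit 9) (nat_lit 1044837) (nat_lit 0), mk (.ofNat (nat_lit 136890)) (nat_lit 4) (nat_lit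 1044837) (nat_lit 0), mk (.ofNat (nat_lit 617760)) (nat_lit 7) (nat_lit 86) (nat_lit 2), mk (.negSucc (nat_lit 14039)) (nat_lit 22) (nat_lit 101) (nat_lit 1), mk (.ofNat (nat_lit 112320)) (nat_lit 19) (nat_lit 28437) (nat_lit 0), mk (.ofNat (nat_lit 1500135)) (nat_lit 9) (nat_lit 1044822) (nat_lit 0), mk (.ofNat (nat_lit 301860)) (nat_lit 4) (nat_lit 1044822) (nat_lit 0), mk (.negSucc (nat_lit 547559)) (nat_lit 3) (nat_lit 135781) (nat_lit 0), mk (.negSucc (nat_lit 20298659)) (nat_lit 15) (nat_lit 101) (nat_lit 1), mk (.negSucc (nat_lit 561599)) (nat_lit 17) (nat_lit 86) (nat_lit 1), mk (.negSucc (nat_lit 112319)) (nat_lit 17) (nat_lit 61782) (nat_lit 0), mk (.negSucc (nat_lit 1522559)) (nat_lit 3) (nat_lit 78181) (nat_lit 0), mk (.negSucc (nat_lit 449279)) (nat_lit 15) (nat_lit 86) (nat_lit 1), mk (.negSucc (nat_lit 11278769)) (nat_lit 3) (nat_lit 78166) (nat_lit 0), mk (.negSucc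 (nat_lit 898559)) (nat_lit 15) (nat_lit 61782) (nat_lit 0), mk (.ofNat (nat_lit 19400100)) (nat_lit 6) (nat_lit 1044837) (nat_lit 0), mk (.negSucc (nat_lit 1207439)) (nat_lit 3) (nat_lit 135766) (nat_lit 0), mk (.ofNat (nat_lit 561600)) (nat_lit 6) (nat_lit 1044822) (nat_lit 0), mk (.negSucc (nat_lit 4846844)) (nat_lit 20) (nat_lit 24342) (nat_lit 0), mk (.negSucc (nat_lit 9581249)) (nat_lit 3) (nat_lit 75106) (nat_lit 0), mk (.ofNat (nat_lit 1760055)) (nat_lit 20) (nat_lit 86) (nat_lit 1), mk (.negSucc (nat_lit 4000359)) (nat_lit 3) (nat_lit 86294) (nat_lit 2), mk (.ofNat (nat_lit 224640)) (nat_lit 3) (nat_lit 202081) (nat_lit 0), mk (.ofNat (nat_lit 444600)) (nat_lit 13) (nat_lit 61782) (nat_lit 0), mk (.ofNat (nat_lit 449280)) (nat_lit 13) (nat_lit 28437) (nat_lit 0), mk (.negSucc (nat_lit 3623489)) (nat_lit 20) (nat_lit 101) (nat_lit 1), mk (.ofNat (nat_lit 19824480)) (nat_lit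 20) (nat_lit 28437) (nat_lit 0), mk (.negSucc (nat_lit 444599)) (nat_lit 13) (nat_lit 61797) (nat_lit 0), mk (.ofNat (nat_lit 14040)) (nat_lit 13) (nat_lit 24342) (nat_lit 0), mk (.ofNat (nat_lit 1073640)) (nat_lit 24) (nat_lit 6) (nat_lit 5), mk (.ofNat (nat_lit 1516320)) (nat_lit 25) (nat_lit 6) (nat_lit 5), mk (.negSucc (nat_lit 4846844)) (nat_lit 26) (nat_lit 6) (nat_lit 5), mk (.ofNat (nat_lit 21995940)) (nat_lit 27) (nat_lit 6) (nat_lit 5), mk (.ofNat (nat_lit 18488580)) (nat_lit 28) (nat_lit 6) (nat_lit 5), mk (.negSucc (nat_lit 2471039)) (nat_lit 29) (nat_lit 6) (nat_lit 5), mk (.negSucc (nat_lit 673919)) (nat_lit 28) (nat_lit 3941) (nat_lit 0), mk (.negSucc (nat_lit 673919)) (nat_lit 30) (nat_lit 3941) (nat_lit 0), mk (.negSucc (nat_lit 449279)) (nat_lit 31) (nat_lit 6) (nat_lit 5), mk (.ofNat (nat_lit 982800)) (nat_lit 25) (nat_lit 5) (nat_lit 6), mk (.negSucc (nat_lit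 449279)) (nat_lit 31) (nat_lit 5) (nat_lit 6), mk (.negSucc (nat_lit 112319)) (nat_lit 25) (nat_lit 3941) (nat_lit 0), mk (.negSucc (nat_lit 112319)) (nat_lit 31) (nat_lit 3941) (nat_lit 0), mk (.ofNat (nat_lit 15659280)) (nat_lit 26) (nat_lit 5) (nat_lit 6), mk (.negSucc (nat_lit 336959)) (nat_lit 32) (nat_lit 6) (nat_lit 5), mk (.negSucc (nat_lit 182519)) (nat_lit 33) (nat_lit 3941) (nat_lit 0), mk (.ofNat (nat_lit 112320)) (nat_lit 32) (nat_lit 3941) (nat_lit 0), mk (.ofNat (nat_lit 1123200)) (nat_lit 34) (nat_lit 3941) (nat_lit 0), mk (.ofNat (nat_lit 6258720)) (nat_lit 24) (nat_lit 3941) (nat_lit 0), mk (.negSucc (nat_lit 19466789)) (nat_lit 27) (nat_lit 3941) (nat_lit 0), mk (.ofNat (nat_lit 36664980)) (nat_lit 33) (nat_lit 6) (nat_lit 5), mk (.ofNat (nat_lit 17826480)) (nat_lit 33) (nat_lit 5) (nat_lit 6), mk (.negSucc (nat_lit 20298659)) (nat_lit 35) (nat_lit 5) (nat_lit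 6), mk (.negSucc (nat_lit 799199)) (nat_lit 28) (nat_lit 5) (nat_lit 6), mk (.ofNat (nat_lit 19400100)) (nat_lit 36) (nat_lit 6) (nat_lit 5), mk (.negSucc (nat_lit 449279)) (nat_lit 35) (nat_lit 6) (nat_lit 5), mk (.ofNat (nat_lit 1797120)) (nat_lit 34) (nat_lit 6) (nat_lit 5), mk (.ofNat (nat_lit 617760)) (nat_lit 30) (nat_lit 6) (nat_lit 5), mk (.negSucc (nat_lit 701999)) (nat_lit 30) (nat_lit 5) (nat_lit 6), mk (.negSucc (nat_lit 1797119)) (nat_lit 29) (nat_lit 5) (nat_lit 6), mk (.ofNat (nat_lit 561600)) (nat_lit 36) (nat_lit 5) (nat_lit 6), mk (.ofNat (nat_lit 1185960)) (nat_lit 24) (nat_lit 5) (nat_lit 6), mk (.ofNat (nat_lit 56160)) (nat_lit 34) (nat_lit 5) (nat_lit 6), mk (.ofNat (nat_lit 3510000)) (nat_lit 29) (nat_lit 3941) (nat_lit 0), mk (.ofNat (nat_lit 3045120)) (nat_lit 27) (nat_lit 5) (nat_lit 6), mk (.negSucc (nat_lit 449279)) (nat_lit 32) (nat_lit 5) (nat_lit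 6), mk (.ofNat (nat_lit 2933870)) (nat_lit 3) (nat_lit 279620) (nat_lit 0)]),
  ((.ofNat (nat_lit 27)), p50,
    [mk (.negSucc (nat_lit 41)) (nat_lit 37) (nat_lit 86) (nat_lit 1), mk (.ofNat (nat_lit 18)) (nat_lit 3) (nat_lit 71011) (nat_lit 0), mk (.negSucc (nat_lit 2)) (nat_lit 23) (nat_lit 86) (nat_lit 1), mk (.negSucc (nat_lit 2)) (nat_lit 23) (nat_lit 101) (nat_lit 1), mk (.ofNat (nat_lit 21)) (nat_lit 3) (nat_lit 78166) (nat_lit 0), mk (.ofNat (nat_lit 21)) (nat_lit 3) (nat_lit 78181) (nat_lit 0), mk (.ofNat (nat_lit 12)) (nat_lit 3) (nat_lit 75106) (nat_lit 0), mk (.ofNat (nat_lit 84)) (nat_lit 27) (nat_lit 3941) (nat_lit 0), mk (.negSucc (nat_lit 17)) (nat_lit 24) (nat_lit 6) (nat_lit 5), mk (.negSucc (nat_lit 59)) (nat_lit 33) (nat_lit 6) (nat_lit 5), mk (.negSucc (nat_lit 17)) (nat_lit 24) (nat_lit 5) (nat_lit 6), mk (.negSucc (nat_lit 59)) (nat_lit 33) (nat_lit 5) (nat_lit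 6), mk (.negSucc (nat_lit 41)) (nat_lit 27) (nat_lit 6) (nat_lit 5), mk (.negSucc (nat_lit 41)) (nat_lit 27) (nat_lit 5) (nat_lit 6), mk (.negSucc (nat_lit 23)) (nat_lit 28) (nat_lit 6) (nat_lit 5), mk (.negSucc (nat_lit 23)) (nat_lit 28) (nat_lit 5) (nat_lit 6), mk (.negSucc (nat_lit 9)) (nat_lit 3) (nat_lit 279620) (nat_lit 0)]),
  ((.ofNat (nat_lit 6240)), p51,
    [mk (.ofNat (nat_lit 87360)) (nat_lit 2) (nat_lit 1142581) (nat_lit 0), mk (.ofNat (nat_lit 218400)) (nat_lit 3) (nat_lit 23146261) (nat_lit 0), mk (.negSucc (nat_lit 218399)) (nat_lit 3) (nat_lit 22097686) (nat_lit 0), mk (.negSucc (nat_lit 218399)) (nat_lit 3) (nat_lit 136545) (nat_lit 1), mk (.negSucc (nat_lit 87359)) (nat_lit 3) (nat_lit 70486) (nat_lit 0), mk (.ofNat (nat_lit 18525)) (nat_lit 22) (nat_lit 61782) (nat_lit 0), mk (.negSucc (nat_lit 68249)) (nat_lit 22) (nat_lit 28437) (nat_lit 0), mk (.negSucc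 (nat_lit 18524)) (nat_lit 22) (nat_lit 61797) (nat_lit 0), mk (.negSucc (nat_lit 65519)) (nat_lit 22) (nat_lit 24342) (nat_lit 0), mk (.ofNat (nat_lit 4489680)) (nat_lit 2) (nat_lit 5206) (nat_lit 0), mk (.ofNat (nat_lit 1092000)) (nat_lit 3) (nat_lit 71009) (nat_lit 2), mk (.ofNat (nat_lit 524160)) (nat_lit 3) (nat_lit 74326) (nat_lit 0), mk (.negSucc (nat_lit 524159)) (nat_lit 2) (nat_lit 9046) (nat_lit 0), mk (.negSucc (nat_lit 1310399)) (nat_lit 3) (nat_lit 69989) (nat_lit 2), mk (.negSucc (nat_lit 873599)) (nat_lit 3) (nat_lit 69974) (nat_lit 2), mk (.negSucc (nat_lit 1675124)) (nat_lit 14) (nat_lit 101) (nat_lit 1), mk (.ofNat (nat_lit 2548650)) (nat_lit 14) (nat_lit 28437) (nat_lit 0), mk (.negSucc (nat_lit 698879)) (nat_lit 18) (nat_lit 24342) (nat_lit 0), mk (.ofNat (nat_lit 742485)) (nat_lit 14) (nat_lit 24342) (nat_lit 0), mk (.negSucc (nat_lit 655199)) (nat_lit 3)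 (nat_lit 18968341) (nat_lit 0), mk (.ofNat (nat_lit 3874410)) (nat_lit 3) (nat_lit 17919781) (nat_lit 0), mk (.ofNat (nat_lit 2245035)) (nat_lit 9) (nat_lit 1044822) (nat_lit 0), mk (.ofNat (nat_lit 695370)) (nat_lit 4) (nat_lit 1044822) (nat_lit 0), mk (.ofNat (nat_lit 436800)) (nat_lit 3) (nat_lit 17915686) (nat_lit 0), mk (.ofNat (nat_lit 174720)) (nat_lit 2) (nat_lit 287306326) (nat_lit 0), mk (.ofNat (nat_lit 145600)) (nat_lit 2) (nat_lit 287306341) (nat_lit 0), mk (.ofNat (nat_lit 271830)) (nat_lit 19) (nat_lit 28437) (nat_lit 0), mk (.ofNat (nat_lit 5678400)) (nat_lit 3) (nat_lit 136546) (nat_lit 0), mk (.ofNat (nat_lit 1048320)) (nat_lit 3) (nat_lit 18281041) (nat_lit 0), mk (.ofNat (nat_lit 1092000)) (nat_lit 3) (nat_lit 18215521) (nat_lit 0), mk (.negSucc (nat_lit 117935)) (nat_lit 16) (nat_lit 101) (nat_lit 1), mk (.ofNat (nat_lit 961884)) (nat_lit 23) (nat_lit 101)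 (nat_lit 1), mk (.ofNat (nat_lit 1419600)) (nat_lit 7) (nat_lit 101) (nat_lit 2), mk (.negSucc (nat_lit 2174639)) (nat_lit 3) (nat_lit 34992481) (nat_lit 0), mk (.negSucc (nat_lit 3656009)) (nat_lit 3) (nat_lit 18964246) (nat_lit 0), mk (.negSucc (nat_lit 7732679)) (nat_lit 3) (nat_lit 71011) (nat_lit 0), mk (.negSucc (nat_lit 65519)) (nat_lit 22) (nat_lit 86) (nat_lit 1), mk (.negSucc (nat_lit 68249)) (nat_lit 22) (nat_lit 101) (nat_lit 1), mk (.ofNat (nat_lit 1857270)) (nat_lit 16) (nat_lit 86) (nat_lit 1), mk (.ofNat (nat_lit 1261965)) (nat_lit 23) (nat_lit 86) (nat_lit 1), mk (.negSucc (nat_lit 1201199)) (nat_lit 3) (nat_lit 35058001) (nat_lit 0), mk (.ofNat (nat_lit 150150)) (nat_lit 19) (nat_lit 24342) (nat_lit 0), mk (.ofNat (nat_lit 2299635)) (nat_lit 9) (nat_lit 1044837) (nat_lit 0), mk (.ofNat (nat_lit 559650)) (nat_lit 4) (nat_lit 1044837) (nat_lit 0), mk (.ofNat (nat_lit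 1631760)) (nat_lit 7) (nat_lit 86) (nat_lit 2), mk (.ofNat (nat_lit 1310400)) (nat_lit 6) (nat_lit 1044822) (nat_lit 0), mk (.negSucc (nat_lit 9845459)) (nat_lit 15) (nat_lit 101) (nat_lit 1), mk (.negSucc (nat_lit 2238599)) (nat_lit 3) (nat_lit 135781) (nat_lit 0), mk (.ofNat (nat_lit 698880)) (nat_lit 15) (nat_lit 61797) (nat_lit 0), mk (.ofNat (nat_lit 436800)) (nat_lit 17) (nat_lit 101) (nat_lit 1), mk (.negSucc (nat_lit 3057599)) (nat_lit 15) (nat_lit 86) (nat_lit 1), mk (.negSucc (nat_lit 3262889)) (nat_lit 3) (nat_lit 78166) (nat_lit 0), mk (.ofNat (nat_lit 7312020)) (nat_lit 6) (nat_lit 1044837) (nat_lit 0), mk (.negSucc (nat_lit 2781479)) (nat_lit 3) (nat_lit 135766) (nat_lit 0), mk (.ofNat (nat_lit 324480)) (nat_lit 17) (nat_lit 61797) (nat_lit 0), mk (.ofNat (nat_lit 148200)) (nat_lit 13) (nat_lit 61782) (nat_lit 0), mk (.ofNat (nat_lit 1087320)) (nat_lit 13) (nat_lit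 28437) (nat_lit 0), mk (.negSucc (nat_lit 633284)) (nat_lit 20) (nat_lit 86) (nat_lit 1), mk (.negSucc (nat_lit 5695559)) (nat_lit 3) (nat_lit 86294) (nat_lit 2), mk (.negSucc (nat_lit 7604009)) (nat_lit 3) (nat_lit 75106) (nat_lit 0), mk (.negSucc (nat_lit 7349144)) (nat_lit 20) (nat_lit 24342) (nat_lit 0), mk (.ofNat (nat_lit 1092000)) (nat_lit 3) (nat_lit 202081) (nat_lit 0), mk (.negSucc (nat_lit 2657849)) (nat_lit 20) (nat_lit 101) (nat_lit 1), mk (.ofNat (nat_lit 1026480)) (nat_lit 20) (nat_lit 28437) (nat_lit 0), mk (.negSucc (nat_lit 148199)) (nat_lit 13) (nat_lit 61797) (nat_lit 0), mk (.ofNat (nat_lit 600600)) (nat_lit 13) (nat_lit 24342) (nat_lit 0), mk (.ofNat (nat_lit 7907400)) (nat_lit 24) (nat_lit 5) (nat_lit 6), mk (.ofNat (nat_lit 4040400)) (nat_lit 25) (nat_lit 5) (nat_lit 6), mk (.ofNat (nat_lit 10578660)) (nat_lit 27) (nat_lit 6) (nat_lit 5), mk (.ofNat (nat_lit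 7820040)) (nat_lit 24) (nat_lit 6) (nat_lit 5), mk (.negSucc (nat_lit 2620799)) (nat_lit 31) (nat_lit 6) (nat_lit 5), mk (.negSucc (nat_lit 2096639)) (nat_lit 32) (nat_lit 6) (nat_lit 5), mk (.negSucc (nat_lit 1517879)) (nat_lit 33) (nat_lit 3941) (nat_lit 0), mk (.ofNat (nat_lit 87360)) (nat_lit 32) (nat_lit 3941) (nat_lit 0), mk (.ofNat (nat_lit 20729280)) (nat_lit 26) (nat_lit 5) (nat_lit 6), mk (.ofNat (nat_lit 15099255)) (nat_lit 26) (nat_lit 6) (nat_lit 5), mk (.ofNat (nat_lit 4489680)) (nat_lit 27) (nat_lit 5) (nat_lit 6), mk (.negSucc (nat_lit 739349)) (nat_lit 27) (nat_lit 3941) (nat_lit 0), mk (.ofNat (nat_lit 4489680)) (nat_lit 26) (nat_lit 3941) (nat_lit 0), mk (.ofNat (nat_lit 13810260)) (nat_lit 28) (nat_lit 6) (nat_lit 5), mk (.ofNat (nat_lit 4514640)) (nat_lit 25) (nat_lit 6) (nat_lit 5), mk (.negSucc (nat_lit 6202559)) (nat_lit 29) (nat_lit 6) (nat_lit 5), mk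 (.negSucc (nat_lit 524159)) (nat_lit 28) (nat_lit 3941) (nat_lit 0), mk (.negSucc (nat_lit 524159)) (nat_lit 30) (nat_lit 3941) (nat_lit 0), mk (.negSucc (nat_lit 2620799)) (nat_lit 31) (nat_lit 5) (nat_lit 6), mk (.negSucc (nat_lit 524159)) (nat_lit 25) (nat_lit 3941) (nat_lit 0), mk (.negSucc (nat_lit 524159)) (nat_lit 31) (nat_lit 3941) (nat_lit 0), mk (.ofNat (nat_lit 4368000)) (nat_lit 34) (nat_lit 3941) (nat_lit 0), mk (.ofNat (nat_lit 1965600)) (nat_lit 24) (nat_lit 3941) (nat_lit 0), mk (.ofNat (nat_lit 19237680)) (nat_lit 33) (nat_lit 5) (nat_lit 6), mk (.ofNat (nat_lit 25239300)) (nat_lit 33) (nat_lit 6) (nat_lit 5), mk (.ofNat (nat_lit 1310400)) (nat_lit 36) (nat_lit 5) (nat_lit 6), mk (.negSucc (nat_lit 9845459)) (nat_lit 35) (nat_lit 5) (nat_lit 6), mk (.ofNat (nat_lit 7459200)) (nat_lit 28) (nat_lit 5) (nat_lit 6), mk (.negSucc (nat_lit 3057599)) (nat_lit 35) (nat_lit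 6) (nat_lit 5), mk (.negSucc (nat_lit 115439)) (nat_lit 30) (nat_lit 6) (nat_lit 5), mk (.negSucc (nat_lit 1201199)) (nat_lit 30) (nat_lit 5) (nat_lit 6), mk (.negSucc (nat_lit 5678399)) (nat_lit 29) (nat_lit 5) (nat_lit 6), mk (.ofNat (nat_lit 4349280)) (nat_lit 34) (nat_lit 6) (nat_lit 5), mk (.ofNat (nat_lit 7312020)) (nat_lit 36) (nat_lit 6) (nat_lit 5), mk (.ofNat (nat_lit 2402400)) (nat_lit 34) (nat_lit 5) (nat_lit 6), mk (.ofNat (nat_lit 10040160)) (nat_lit 29) (nat_lit 3941) (nat_lit 0), mk (.negSucc (nat_lit 2183999)) (nat_lit 32) (nat_lit 5) (nat_lit 6), mk (.ofNat (nat_lit 2194510)) (nat_lit 3) (nat_lit 279620) (nat_lit 0)]),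
  ((.ofNat (nat_lit 4)), p52,
    [mk (.ofNat (nat_lit 2)) (nat_lit 3) (nat_lit 70481) (nat_lit 0), mk (.negSucc (nat_lit 3)) (nat_lit 11) (nat_lit 3861) (nat_lit 0), mk (.negSucc (nat_lit 3)) (nat_lit 12) (nat_lit 3861) (nat_lit 0), mk (.negSucc (nat_lit 0)) (nat_lit 3) (nat_lit 279620) (nat_lit 0)]),
  ((.ofNat (nat_lit 12480)), p53,
    [mk (.ofNat (nat_lit 124800)) (nat_lit 2) (nat_lit 1138486) (nat_lit 0), mk (.negSucc (nat_lit 311999)) (nat_lit 3) (nat_lit 23146261) (nat_lit 0), mk (.ofNat (nat_lit 312000)) (nat_lit 3) (nat_lit 22097686) (nat_lit 0), mk (.negSucc (nat_lit 311999)) (nat_lit 3) (nat_lit 136545) (nat_lit 1), mk (.ofNat (nat_lit 361920)) (nat_lit 3) (nat_lit 70486) (nat_lit 0), mk (.negSucc (nat_lit 55574)) (nat_lit 22) (nat_lit 61782) (nat_lit 0), mk (.ofNat (nat_lit 15600)) (nat_lit 22) (nat_lit 28437) (nat_lit 0), mk (.ofNat (nat_lit 55575)) (nat_lit 22)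 (nat_lit 61797) (nat_lit 0), mk (.ofNat (nat_lit 4290)) (nat_lit 22) (nat_lit 24342) (nat_lit 0), mk (.negSucc (nat_lit 1737839)) (nat_lit 2) (nat_lit 5206) (nat_lit 0), mk (.negSucc (nat_lit 311999)) (nat_lit 3) (nat_lit 71009) (nat_lit 2), mk (.negSucc (nat_lit 748799)) (nat_lit 3) (nat_lit 74326) (nat_lit 0), mk (.ofNat (nat_lit 124800)) (nat_lit 2) (nat_lit 9046) (nat_lit 0), mk (.negSucc (nat_lit 998399)) (nat_lit 18) (nat_lit 28437) (nat_lit 0), mk (.ofNat (nat_lit 624000)) (nat_lit 3) (nat_lit 69989) (nat_lit 2), mk (.ofNat (nat_lit 1184325)) (nat_lit 14) (nat_lit 101) (nat_lit 1), mk (.negSucc (nat_lit 1551809)) (nat_lit 14) (nat_lit 28437) (nat_lit 0), mk (.negSucc (nat_lit 180284)) (nat_lit 14) (nat_lit 24342) (nat_lit 0), mk (.ofNat (nat_lit 312000)) (nat_lit 3) (nat_lit 18968341) (nat_lit 0), mk (.negSucc (nat_lit 124799)) (nat_lit 19) (nat_lit 28437) (nat_lit 0),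 mk (.negSucc (nat_lit 842594)) (nat_lit 9) (nat_lit 1044822) (nat_lit 0), mk (.ofNat (nat_lit 998400)) (nat_lit 3) (nat_lit 34992481) (nat_lit 0), mk (.negSucc (nat_lit 335399)) (nat_lit 4) (nat_lit 1044822) (nat_lit 0), mk (.ofNat (nat_lit 2181450)) (nat_lit 3) (nat_lit 18964246) (nat_lit 0), mk (.ofNat (nat_lit 1665480)) (nat_lit 3) (nat_lit 71011) (nat_lit 0), mk (.negSucc (nat_lit 1996799)) (nat_lit 3) (nat_lit 136546) (nat_lit 0), mk (.ofNat (nat_lit 637104)) (nat_lit 16) (nat_lit 101) (nat_lit 1), mk (.negSucc (nat_lit 387395)) (nat_lit 23) (nat_lit 101) (nat_lit 1), mk (.negSucc (nat_lit 2493449)) (nat_lit 3) (nat_lit 17919781) (nat_lit 0), mk (.negSucc (nat_lit 41599)) (nat_lit 2) (nat_lit 287306326) (nat_lit 0), mk (.negSucc (nat_lit 467999)) (nat_lit 7) (nat_lit 101) (nat_lit 2), mk (.negSucc (nat_lit 249599)) (nat_lit 3) (nat_lit 18215521) (nat_lit 0), mk (.ofNat (nat_lit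 4290)) (nat_lit 22) (nat_lit 86) (nat_lit 1), mk (.ofNat (nat_lit 15600)) (nat_lit 22) (nat_lit 101) (nat_lit 1), mk (.negSucc (nat_lit 734165)) (nat_lit 16) (nat_lit 86) (nat_lit 1), mk (.negSucc (nat_lit 574340)) (nat_lit 23) (nat_lit 86) (nat_lit 1), mk (.ofNat (nat_lit 31200)) (nat_lit 3) (nat_lit 35058001) (nat_lit 0), mk (.negSucc (nat_lit 3899)) (nat_lit 19) (nat_lit 24342) (nat_lit 0), mk (.negSucc (nat_lit 920594)) (nat_lit 9) (nat_lit 1044837) (nat_lit 0), mk (.negSucc (nat_lit 152099)) (nat_lit 4) (nat_lit 1044837) (nat_lit 0), mk (.negSucc (nat_lit 686399)) (nat_lit 7) (nat_lit 86) (nat_lit 2), mk (.negSucc (nat_lit 68639)) (nat_lit 3) (nat_lit 18281041) (nat_lit 0), mk (.negSucc (nat_lit 623999)) (nat_lit 6) (nat_lit 1044822) (nat_lit 0), mk (.ofNat (nat_lit 5124180)) (nat_lit 15) (nat_lit 101) (nat_lit 1), mk (.ofNat (nat_lit 124800)) (nat_lit 17) (nat_lit 61782)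 (nat_lit 0), mk (.ofNat (nat_lit 124800)) (nat_lit 3) (nat_lit 78181) (nat_lit 0), mk (.ofNat (nat_lit 624000)) (nat_lit 17) (nat_lit 86) (nat_lit 1), mk (.ofNat (nat_lit 608400)) (nat_lit 3) (nat_lit 135781) (nat_lit 0), mk (.ofNat (nat_lit 499200)) (nat_lit 15) (nat_lit 86) (nat_lit 1), mk (.ofNat (nat_lit 2368650)) (nat_lit 3) (nat_lit 78166) (nat_lit 0), mk (.ofNat (nat_lit 998400)) (nat_lit 15) (nat_lit 61782) (nat_lit 0), mk (.negSucc (nat_lit 4362899)) (nat_lit 6) (nat_lit 1044837) (nat_lit 0), mk (.ofNat (nat_lit 1341600)) (nat_lit 3) (nat_lit 135766) (nat_lit 0), mk (.negSucc (nat_lit 444599)) (nat_lit 13) (nat_lit 61782) (nat_lit 0), mk (.negSucc (nat_lit 499199)) (nat_lit 13) (nat_lit 28437) (nat_lit 0), mk (.ofNat (nat_lit 24285)) (nat_lit 20) (nat_lit 86) (nat_lit 1), mk (.ofNat (nat_lit 2736105)) (nat_lit 20) (nat_lit 24342) (nat_lit 0), mk (.negSucc (nat_lit 249599))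 (nat_lit 3) (nat_lit 202081) (nat_lit 0), mk (.ofNat (nat_lit 2246920)) (nat_lit 3) (nat_lit 86294) (nat_lit 2), mk (.ofNat (nat_lit 3405930)) (nat_lit 3) (nat_lit 75106) (nat_lit 0), mk (.ofNat (nat_lit 1707810)) (nat_lit 20) (nat_lit 101) (nat_lit 1), mk (.negSucc (nat_lit 3185519)) (nat_lit 20) (nat_lit 28437) (nat_lit 0), mk (.ofNat (nat_lit 444600)) (nat_lit 13) (nat_lit 61797) (nat_lit 0), mk (.negSucc (nat_lit 15599)) (nat_lit 13) (nat_lit 24342) (nat_lit 0), mk (.negSucc (nat_lit 1777799)) (nat_lit 24) (nat_lit 6) (nat_lit 5), mk (.negSucc (nat_lit 1684799)) (nat_lit 25) (nat_lit 6) (nat_lit 5), mk (.negSucc (nat_lit 6088259)) (nat_lit 27) (nat_lit 6) (nat_lit 5), mk (.ofNat (nat_lit 262080)) (nat_lit 31) (nat_lit 6) (nat_lit 5), mk (.ofNat (nat_lit 137280)) (nat_lit 32) (nat_lit 6) (nat_lit 5), mk (.negSucc (nat_lit 123239)) (nat_lit 33) (nat_lit 3941) (nat_lit 0), mk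 (.negSucc (nat_lit 361919)) (nat_lit 32) (nat_lit 3941) (nat_lit 0), mk (.negSucc (nat_lit 7681439)) (nat_lit 26) (nat_lit 5) (nat_lit 6), mk (.negSucc (nat_lit 5953094)) (nat_lit 26) (nat_lit 6) (nat_lit 5), mk (.negSucc (nat_lit 1987439)) (nat_lit 27) (nat_lit 5) (nat_lit 6), mk (.ofNat (nat_lit 2780670)) (nat_lit 27) (nat_lit 3941) (nat_lit 0), mk (.negSucc (nat_lit 1737839)) (nat_lit 26) (nat_lit 3941) (nat_lit 0), mk (.negSucc (nat_lit 6063059)) (nat_lit 28) (nat_lit 6) (nat_lit 5), mk (.ofNat (nat_lit 2745600)) (nat_lit 29) (nat_lit 6) (nat_lit 5), mk (.ofNat (nat_lit 748800)) (nat_lit 28) (nat_lit 3941) (nat_lit 0), mk (.ofNat (nat_lit 748800)) (nat_lit 30) (nat_lit 3941) (nat_lit 0), mk (.negSucc (nat_lit 1091999)) (nat_lit 25) (nat_lit 5) (nat_lit 6), mk (.ofNat (nat_lit 262080)) (nat_lit 31) (nat_lit 5) (nat_lit 6), mk (.ofNat (nat_lit 124800)) (nat_lit 25) (nat_lit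 3941) (nat_lit 0), mk (.ofNat (nat_lit 124800)) (nat_lit 31) (nat_lit 3941) (nat_lit 0), mk (.negSucc (nat_lit 7747919)) (nat_lit 33) (nat_lit 5) (nat_lit 6), mk (.negSucc (nat_lit 1247999)) (nat_lit 34) (nat_lit 3941) (nat_lit 0), mk (.negSucc (nat_lit 567839)) (nat_lit 24) (nat_lit 3941) (nat_lit 0), mk (.negSucc (nat_lit 11486819)) (nat_lit 33) (nat_lit 6) (nat_lit 5), mk (.negSucc (nat_lit 623999)) (nat_lit 36) (nat_lit 5) (nat_lit 6), mk (.negSucc (nat_lit 1996799)) (nat_lit 34) (nat_lit 6) (nat_lit 5), mk (.negSucc (nat_lit 4362899)) (nat_lit 36) (nat_lit 6) (nat_lit 5), mk (.negSucc (nat_lit 1665479)) (nat_lit 24) (nat_lit 5) (nat_lit 6), mk (.negSucc (nat_lit 686399)) (nat_lit 30) (nat_lit 6) (nat_lit 5), mk (.ofNat (nat_lit 780000)) (nat_lit 30) (nat_lit 5) (nat_lit 6), mk (.ofNat (nat_lit 1996800)) (nat_lit 29) (nat_lit 5) (nat_lit 6), mk (.ofNat (nat_lit 5124180)) (nat_lit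 35) (nat_lit 5) (nat_lit 6), mk (.negSucc (nat_lit 1824959)) (nat_lit 28) (nat_lit 5) (nat_lit 6), mk (.ofNat (nat_lit 499200)) (nat_lit 35) (nat_lit 6) (nat_lit 5), mk (.negSucc (nat_lit 62399)) (nat_lit 34) (nat_lit 5) (nat_lit 6), mk (.negSucc (nat_lit 3899999)) (nat_lit 29) (nat_lit 3941) (nat_lit 0), mk (.ofNat (nat_lit 499200)) (nat_lit 32) (nat_lit 5) (nat_lit 6), mk (.negSucc (nat_lit 672829)) (nat_lit 3) (nat_lit 279620) (nat_lit 0)]),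
  ((.ofNat (nat_lit 1)), p54,
    [mk (.ofNat (nat_lit 1)) (nat_lit 5) (nat_lit 3877) (nat_lit 0), mk (.negSucc (nat_lit 3)) (nat_lit 40) (nat_lit 5) (nat_lit 1)]),
  ((.ofNat (nat_lit 4)), p55,
    [mk (.ofNat (nat_lit 2)) (nat_lit 3) (nat_lit 136017) (nat_lit 0), mk (.negSucc (nat_lit 3)) (nat_lit 39) (nat_lit 1044817) (nat_lit 0), mk (.negSucc (nat_lit 3)) (nat_lit 38) (nat_lit 1044817) (nat_lit 0), mk (.negSucc (nat_lit 0)) (nat_lit 3) (nat_lit 279620) (nat_lit 0)]),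
  ((.ofNat (nat_lit 1)), p56,
    [mk (.ofNat (nat_lit 1)) (nat_lit 39) (nat_lit 3877) (nat_lit 0)]),
  ((.ofNat (nat_lit 240)), p57,
    [mk (.ofNat (nat_lit 3)) (nat_lit 4) (nat_lit 3877) (nat_lit 0), mk (.ofNat (nat_lit 15)) (nat_lit 9) (nat_lit 3877) (nat_lit 0), mk (.ofNat (nat_lit 4)) (nat_lit 2) (nat_lit 8741) (nat_lit 0), mk (.ofNat (nat_lit 3)) (nat_lit 3) (nat_lit 135761) (nat_lit 0), mk (.negSucc (nat_lit 155)) (nat_lit 5) (nat_lit 3877) (nat_lit 0), mk (.negSucc (nat_lit 11)) (nat_lit 41) (nat_lit 3861) (nat_lit 0), mk (.negSucc (nat_lit 95)) (nat_lit 39) (nat_lit 5) (nat_lit 1), mk (.ofNat (nat_lit 624)) (nat_lit 40) (nat_lit 5) (nat_lit 1)]),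
  ((.ofNat (nat_lit 48)), p58,
    [mk (.ofNat (nat_lit 4)) (nat_lit 2) (nat_lit 1122101) (nat_lit 0), mk (.ofNat (nat_lit 6)) (nat_lit 3) (nat_lit 70481) (nat_lit 0), mk (.negSucc (nat_lit 11)) (nat_lit 11) (nat_lit 3861) (nat_lit 0), mk (.negSucc (nat_lit 11)) (nat_lit 12) (nat_lit 3861) (nat_lit 0), mk (.ofNat (nat_lit 12)) (nat_lit 38) (nat_lit 5) (nat_lit 1), mk (.ofNat (nat_lit 24)) (nat_lit 42) (nat_lit 5) (nat_lit 1), mk (.negSucc (nat_lit 2)) (nat_lit 3) (nat_lit 279620) (nat_lit 0)]),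
  ((.ofNat (nat_lit 12)), p59,
    [mk (.ofNat (nat_lit 3)) (nat_lit 3) (nat_lit 135761) (nat_lit 0), mk (.negSucc (nat_lit 11)) (nat_lit 41) (nat_lit 3861) (nat_lit 0), mk (.negSucc (nat_lit 0)) (nat_lit 3) (nat_lit 279620) (nat_lit 0)]),
  ((.ofNat (nat_lit 4)), p60,
    [mk (.ofNat (nat_lit 2)) (nat_lit 3) (nat_lit 70737) (nat_lit 0), mk (.negSucc (nat_lit 3)) (nat_lit 44) (nat_lit 1044817) (nat_lit 0), mk (.negSucc (nat_lit 3)) (nat_lit 43) (nat_lit 1044817) (nat_lit 0), mk (.negSucc (nat_lit 0)) (nat_lit 3) (nat_lit 279620) (nat_lit 0)]),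
  ((.ofNat (nat_lit 1)), p61,
    [mk (.ofNat (nat_lit 1)) (nat_lit 38) (nat_lit 3861) (nat_lit 0)]),
  ((.ofNat (nat_lit 1)), p62,
    [mk (.ofNat (nat_lit 1)) (nat_lit 40) (nat_lit 3861) (nat_lit 0)]),
  ((.ofNat (nat_lit 1)), p63,
    [mk (.ofNat (nat_lit 1)) (nat_lit 20) (nat_lit 28485) (nat_lit 0), mk (.negSucc (nat_lit 3)) (nat_lit 27) (nat_lit 5) (nat_lit 609)]),
  ((.ofNat (nat_lit 96)), p64,
    [mk (.ofNat (nat_lit 6336)) (nat_lit 2) (nat_lit 1138486) (nat_lit 0), mk (.ofNat (nat_lit 6720)) (nat_lit 3) (nat_lit 22097686) (nat_lit 0), mk (.negSucc (nat_lit 6719)) (nat_lit 3) (nat_lit 23146261) (nat_lit 0), mk (.negSucc (nat_lit 6719)) (nat_lit 3) (nat_lit 136545) (nat_lit 1), mk (.ofNat (nat_lit 6336)) (nat_lit 3) (nat_lit 70486) (nat_lit 0), mk (.negSucc (nat_lit 854)) (nat_lit 22) (nat_lit 61782) (nat_lit 0), mk (.ofNat (nat_lit 336)) (nat_lit 22) (nat_lit 28437) (nat_lit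 0), mk (.ofNat (nat_lit 855)) (nat_lit 22) (nat_lit 61797) (nat_lit 0), mk (.ofNat (nat_lit 138)) (nat_lit 22) (nat_lit 24342) (nat_lit 0), mk (.negSucc (nat_lit 36335)) (nat_lit 2) (nat_lit 5206) (nat_lit 0), mk (.negSucc (nat_lit 6719)) (nat_lit 3) (nat_lit 71009) (nat_lit 2), mk (.negSucc (nat_lit 16127)) (nat_lit 3) (nat_lit 74326) (nat_lit 0), mk (.ofNat (nat_lit 2688)) (nat_lit 2) (nat_lit 9046) (nat_lit 0), mk (.ofNat (nat_lit 13440)) (nat_lit 3) (nat_lit 69989) (nat_lit 2), mk (.negSucc (nat_lit 14207)) (nat_lit 18) (nat_lit 28437) (nat_lit 0), mk (.ofNat (nat_lit 28341)) (nat_lit 14) (nat_lit 101) (nat_lit 1), mk (.negSucc (nat_lit 31553)) (nat_lit 14) (nat_lit 28437) (nat_lit 0), mk (.negSucc (nat_lit 3740)) (nat_lit 14) (nat_lit 24342) (nat_lit 0), mk (.negSucc (nat_lit 59369)) (nat_lit 3) (nat_lit 17919781) (nat_lit 0), mk (.ofNat (nat_lit 52650)) (nat_lit 3) (nat_lit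 18964246) (nat_lit 0), mk (.ofNat (nat_lit 21504)) (nat_lit 3) (nat_lit 34992481) (nat_lit 0), mk (.negSucc (nat_lit 895)) (nat_lit 2) (nat_lit 287306326) (nat_lit 0), mk (.negSucc (nat_lit 5375)) (nat_lit 3) (nat_lit 18215521) (nat_lit 0), mk (.negSucc (nat_lit 9167)) (nat_lit 7) (nat_lit 101) (nat_lit 2), mk (.negSucc (nat_lit 43007)) (nat_lit 3) (nat_lit 136546) (nat_lit 0), mk (.ofNat (nat_lit 19068)) (nat_lit 9) (nat_lit 5) (nat_lit 97), mk (.negSucc (nat_lit 5207)) (nat_lit 23) (nat_lit 101) (nat_lit 1), mk (.ofNat (nat_lit 6720)) (nat_lit 3) (nat_lit 18968341) (nat_lit 0), mk (.negSucc (nat_lit 2687)) (nat_lit 19) (nat_lit 28437) (nat_lit 0), mk (.negSucc (nat_lit 19538)) (nat_lit 9) (nat_lit 1044822) (nat_lit 0), mk (.negSucc (nat_lit 7223)) (nat_lit 4) (nat_lit 1044822) (nat_lit 0), mk (.negSucc (nat_lit 2207)) (nat_lit 3) (nat_lit 18281041) (nat_lit 0), mk (.ofNat (nat_lit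 42312)) (nat_lit 3) (nat_lit 71011) (nat_lit 0), mk (.ofNat (nat_lit 138)) (nat_lit 22) (nat_lit 86) (nat_lit 1), mk (.ofNat (nat_lit 336)) (nat_lit 22) (nat_lit 101) (nat_lit 1), mk (.negSucc (nat_lit 16949)) (nat_lit 16) (nat_lit 86) (nat_lit 1), mk (.negSucc (nat_lit 13796)) (nat_lit 23) (nat_lit 86) (nat_lit 1), mk (.negSucc (nat_lit 3887)) (nat_lit 3) (nat_lit 35058001) (nat_lit 0), mk (.ofNat (nat_lit 486)) (nat_lit 19) (nat_lit 24342) (nat_lit 0), mk (.negSucc (nat_lit 21218)) (nat_lit 9) (nat_lit 1044837) (nat_lit 0), mk (.negSucc (nat_lit 3161)) (nat_lit 4) (nat_lit 1044837) (nat_lit 0), mk (.negSucc (nat_lit 14783)) (nat_lit 7) (nat_lit 86) (nat_lit 2), mk (.ofNat (nat_lit 123156)) (nat_lit 15) (nat_lit 101) (nat_lit 1), mk (.ofNat (nat_lit 12648)) (nat_lit 3) (nat_lit 135781) (nat_lit 0), mk (.negSucc (nat_lit 13439)) (nat_lit 6) (nat_lit 1044822) (nat_lit 0), mk (.ofNat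 (nat_lit 6336)) (nat_lit 17) (nat_lit 61782) (nat_lit 0), mk (.ofNat (nat_lit 13440)) (nat_lit 17) (nat_lit 86) (nat_lit 1), mk (.ofNat (nat_lit 6336)) (nat_lit 3) (nat_lit 78181) (nat_lit 0), mk (.ofNat (nat_lit 10752)) (nat_lit 15) (nat_lit 86) (nat_lit 1), mk (.ofNat (nat_lit 56682)) (nat_lit 3) (nat_lit 78166) (nat_lit 0), mk (.negSucc (nat_lit 105299)) (nat_lit 6) (nat_lit 1044837) (nat_lit 0), mk (.ofNat (nat_lit 28896)) (nat_lit 3) (nat_lit 135766) (nat_lit 0), mk (.ofNat (nat_lit 14208)) (nat_lit 15) (nat_lit 61782) (nat_lit 0), mk (.ofNat (nat_lit 381)) (nat_lit 20) (nat_lit 86) (nat_lit 1), mk (.ofNat (nat_lit 61785)) (nat_lit 20) (nat_lit 24342) (nat_lit 0), mk (.ofNat (nat_lit 80202)) (nat_lit 3) (nat_lit 75106) (nat_lit 0), mk (.ofNat (nat_lit 52104)) (nat_lit 3) (nat_lit 86294) (nat_lit 2), mk (.negSucc (nat_lit 5375)) (nat_lit 3) (nat_lit 202081) (nat_lit 0), mk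 (.negSucc (nat_lit 6839)) (nat_lit 13) (nat_lit 61782) (nat_lit 0), mk (.negSucc (nat_lit 10751)) (nat_lit 13) (nat_lit 28437) (nat_lit 0), mk (.ofNat (nat_lit 34914)) (nat_lit 20) (nat_lit 101) (nat_lit 1), mk (.negSucc (nat_lit 76271)) (nat_lit 20) (nat_lit 28437) (nat_lit 0), mk (.ofNat (nat_lit 6840)) (nat_lit 13) (nat_lit 61797) (nat_lit 0), mk (.ofNat (nat_lit 1944)) (nat_lit 13) (nat_lit 24342) (nat_lit 0), mk (.negSucc (nat_lit 35975)) (nat_lit 24) (nat_lit 6) (nat_lit 5), mk (.negSucc (nat_lit 32639)) (nat_lit 25) (nat_lit 6) (nat_lit 5), mk (.negSucc (nat_lit 139907)) (nat_lit 27) (nat_lit 6) (nat_lit 5), mk (.ofNat (nat_lit 7104)) (nat_lit 31) (nat_lit 6) (nat_lit 5), mk (.ofNat (nat_lit 4416)) (nat_lit 32) (nat_lit 6) (nat_lit 5), mk (.negSucc (nat_lit 647)) (nat_lit 33) (nat_lit 3941) (nat_lit 0), mk (.negSucc (nat_lit 6335)) (nat_lit 32) (nat_lit 3941) (nat_lit 0),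 mk (.negSucc (nat_lit 160703)) (nat_lit 26) (nat_lit 5) (nat_lit 6), mk (.negSucc (nat_lit 119894)) (nat_lit 26) (nat_lit 6) (nat_lit 5), mk (.negSucc (nat_lit 49007)) (nat_lit 27) (nat_lit 5) (nat_lit 6), mk (.ofNat (nat_lit 71814)) (nat_lit 27) (nat_lit 3941) (nat_lit 0), mk (.negSucc (nat_lit 36335)) (nat_lit 26) (nat_lit 3941) (nat_lit 0), mk (.negSucc (nat_lit 144275)) (nat_lit 28) (nat_lit 6) (nat_lit 5), mk (.ofNat (nat_lit 59136)) (nat_lit 29) (nat_lit 6) (nat_lit 5), mk (.ofNat (nat_lit 16128)) (nat_lit 28) (nat_lit 3941) (nat_lit 0), mk (.ofNat (nat_lit 16128)) (nat_lit 30) (nat_lit 3941) (nat_lit 0), mk (.negSucc (nat_lit 22607)) (nat_lit 25) (nat_lit 5) (nat_lit 6), mk (.ofNat (nat_lit 7104)) (nat_lit 31) (nat_lit 5) (nat_lit 6), mk (.ofNat (nat_lit 2688)) (nat_lit 25) (nat_lit 3941) (nat_lit 0), mk (.ofNat (nat_lit 2688)) (nat_lit 31) (nat_lit 3941) (nat_lit 0), mk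 (.negSucc (nat_lit 26879)) (nat_lit 34) (nat_lit 3941) (nat_lit 0), mk (.negSucc (nat_lit 180431)) (nat_lit 33) (nat_lit 5) (nat_lit 6), mk (.negSucc (nat_lit 20255)) (nat_lit 24) (nat_lit 3941) (nat_lit 0), mk (.negSucc (nat_lit 275939)) (nat_lit 33) (nat_lit 6) (nat_lit 5), mk (.ofNat (nat_lit 123156)) (nat_lit 35) (nat_lit 5) (nat_lit 6), mk (.negSucc (nat_lit 41663)) (nat_lit 28) (nat_lit 5) (nat_lit 6), mk (.negSucc (nat_lit 105299)) (nat_lit 36) (nat_lit 6) (nat_lit 5), mk (.negSucc (nat_lit 43007)) (nat_lit 34) (nat_lit 6) (nat_lit 5), mk (.ofNat (nat_lit 10752)) (nat_lit 35) (nat_lit 6) (nat_lit 5), mk (.negSucc (nat_lit 14783)) (nat_lit 30) (nat_lit 6) (nat_lit 5), mk (.ofNat (nat_lit 17712)) (nat_lit 30) (nat_lit 5) (nat_lit 6), mk (.ofNat (nat_lit 43008)) (nat_lit 29) (nat_lit 5) (nat_lit 6), mk (.negSucc (nat_lit 13439)) (nat_lit 36) (nat_lit 5) (nat_lit 6), mk (.negSucc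 (nat_lit 42311)) (nat_lit 24) (nat_lit 5) (nat_lit 6), mk (.ofNat (nat_lit 7776)) (nat_lit 34) (nat_lit 5) (nat_lit 6), mk (.negSucc (nat_lit 83087)) (nat_lit 29) (nat_lit 3941) (nat_lit 0), mk (.ofNat (nat_lit 10752)) (nat_lit 32) (nat_lit 5) (nat_lit 6), mk (.negSucc (nat_lit 19101)) (nat_lit 3) (nat_lit 279620) (nat_lit 0)]),
  ((.ofNat (nat_lit 54)), p65,
    [mk (.ofNat (nat_lit 168)) (nat_lit 37) (nat_lit 86) (nat_lit 1), mk (.negSucc (nat_lit 26)) (nat_lit 3) (nat_lit 86326) (nat_lit 0), mk (.ofNat (nat_lit 54)) (nat_lit 3) (nat_lit 70486) (nat_lit 0), mk (.ofNat (nat_lit 54)) (nat_lit 3) (nat_lit 70501) (nat_lit 0), mk (.ofNat (nat_lit 12)) (nat_lit 23) (nat_lit 86) (nat_lit 1), mk (.negSucc (nat_lit 125)) (nat_lit 3) (nat_lit 71011) (nat_lit 0), mk (.ofNat (nat_lit 12)) (nat_lit 23) (nat_lit 101) (nat_lit 1), mk (.negSucc (nat_lit 56)) (nat_lit 3) (nat_lit 78166) (nat_lit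 0), mk (.negSucc (nat_lit 56)) (nat_lit 3) (nat_lit 78181) (nat_lit 0), mk (.negSucc (nat_lit 26)) (nat_lit 3) (nat_lit 202081) (nat_lit 0), mk (.negSucc (nat_lit 47)) (nat_lit 3) (nat_lit 75106) (nat_lit 0), mk (.negSucc (nat_lit 107)) (nat_lit 24) (nat_lit 3941) (nat_lit 0), mk (.negSucc (nat_lit 335)) (nat_lit 27) (nat_lit 3941) (nat_lit 0), mk (.ofNat (nat_lit 60)) (nat_lit 27) (nat_lit 6) (nat_lit 5), mk (.ofNat (nat_lit 72)) (nat_lit 24) (nat_lit 6) (nat_lit 5), mk (.negSucc (nat_lit 53)) (nat_lit 31) (nat_lit 6) (nat_lit 5), mk (.negSucc (nat_lit 107)) (nat_lit 33) (nat_lit 3941) (nat_lit 0), mk (.negSucc (nat_lit 107)) (nat_lit 32) (nat_lit 3941) (nat_lit 0), mk (.ofNat (nat_lit 60)) (nat_lit 27) (nat_lit 5) (nat_lit 6), mk (.ofNat (nat_lit 72)) (nat_lit 24) (nat_lit 5) (nat_lit 6), mk (.negSucc (nat_lit 53)) (nat_lit 31) (nat_lit 5) (nat_lit 6), mk (.ofNat (nat_lit 240))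 (nat_lit 33) (nat_lit 6) (nat_lit 5), mk (.ofNat (nat_lit 240)) (nat_lit 33) (nat_lit 5) (nat_lit 6), mk (.ofNat (nat_lit 96)) (nat_lit 28) (nat_lit 6) (nat_lit 5), mk (.ofNat (nat_lit 96)) (nat_lit 28) (nat_lit 5) (nat_lit 6), mk (.ofNat (nat_lit 67)) (nat_lit 3) (nat_lit 279620) (nat_lit 0)]),
  ((.ofNat (nat_lit 560)), p66,
    [mk (.ofNat (nat_lit 35)) (nat_lit 22) (nat_lit 61782) (nat_lit 0), mk (.negSucc (nat_lit 34)) (nat_lit 22) (nat_lit 61797) (nat_lit 0), mk (.ofNat (nat_lit 560)) (nat_lit 2) (nat_lit 5206) (nat_lit 0), mk (.ofNat (nat_lit 144)) (nat_lit 3) (nat_lit 74085) (nat_lit 1), mk (.ofNat (nat_lit 142)) (nat_lit 14) (nat_lit 28437) (nat_lit 0), mk (.ofNat (nat_lit 70)) (nat_lit 14) (nat_lit 24342) (nat_lit 0), mk (.ofNat (nat_lit 70)) (nat_lit 45) (nat_lit 28437) (nat_lit 0), mk (.ofNat (nat_lit 94)) (nat_lit 23) (nat_lit 101) (nat_lit 1), mk (.negSucc (nat_lit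 911)) (nat_lit 3) (nat_lit 71011) (nat_lit 0), mk (.ofNat (nat_lit 688)) (nat_lit 10) (nat_lit 21) (nat_lit 97), mk (.ofNat (nat_lit 144)) (nat_lit 3) (nat_lit 18968341) (nat_lit 0), mk (.ofNat (nat_lit 224)) (nat_lit 16) (nat_lit 86) (nat_lit 1), mk (.ofNat (nat_lit 74)) (nat_lit 23) (nat_lit 86) (nat_lit 1), mk (.negSucc (nat_lit 143)) (nat_lit 3) (nat_lit 17915686) (nat_lit 0), mk (.ofNat (nat_lit 105)) (nat_lit 9) (nat_lit 1044822) (nat_lit 0), mk (.ofNat (nat_lit 105)) (nat_lit 9) (nat_lit 1044837) (nat_lit 0), mk (.negSucc (nat_lit 1375)) (nat_lit 15) (nat_lit 101) (nat_lit 1), mk (.negSucc (nat_lit 143)) (nat_lit 3) (nat_lit 78166) (nat_lit 0), mk (.ofNat (nat_lit 288)) (nat_lit 15) (nat_lit 86) (nat_lit 1), mk (.negSucc (nat_lit 287)) (nat_lit 6) (nat_lit 1044822) (nat_lit 0), mk (.negSucc (nat_lit 279)) (nat_lit 3) (nat_lit 86294) (nat_lit 2), mk (.negSucc (nat_lit 69))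 (nat_lit 20) (nat_lit 86) (nat_lit 1), mk (.negSucc (nat_lit 1119)) (nat_lit 20) (nat_lit 24342) (nat_lit 0), mk (.ofNat (nat_lit 100)) (nat_lit 21) (nat_lit 101) (nat_lit 1), mk (.negSucc (nat_lit 213)) (nat_lit 20) (nat_lit 101) (nat_lit 1), mk (.negSucc (nat_lit 375)) (nat_lit 3) (nat_lit 75106) (nat_lit 0), mk (.negSucc (nat_lit 759)) (nat_lit 20) (nat_lit 28437) (nat_lit 0), mk (.ofNat (nat_lit 280)) (nat_lit 13) (nat_lit 61782) (nat_lit 0), mk (.negSucc (nat_lit 279)) (nat_lit 13) (nat_lit 61797) (nat_lit 0), mk (.ofNat (nat_lit 2040)) (nat_lit 26) (nat_lit 5) (nat_lit 6), mk (.ofNat (nat_lit 1680)) (nat_lit 26) (nat_lit 6) (nat_lit 5), mk (.ofNat (nat_lit 848)) (nat_lit 27) (nat_lit 6) (nat_lit 5), mk (.ofNat (nat_lit 560)) (nat_lit 27) (nat_lit 5) (nat_lit 6), mk (.ofNat (nat_lit 560)) (nat_lit 27) (nat_lit 3941) (nat_lit 0), mk (.ofNat (nat_lit 560)) (nat_lit 26) (nat_lit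 3941) (nat_lit 0), mk (.negSucc (nat_lit 287)) (nat_lit 35) (nat_lit 3941) (nat_lit 0), mk (.ofNat (nat_lit 1192)) (nat_lit 33) (nat_lit 5) (nat_lit 6), mk (.ofNat (nat_lit 1480)) (nat_lit 33) (nat_lit 6) (nat_lit 5), mk (.ofNat (nat_lit 912)) (nat_lit 24) (nat_lit 6) (nat_lit 5), mk (.ofNat (nat_lit 912)) (nat_lit 24) (nat_lit 5) (nat_lit 6), mk (.negSucc (nat_lit 287)) (nat_lit 36) (nat_lit 5) (nat_lit 6), mk (.ofNat (nat_lit 288)) (nat_lit 35) (nat_lit 6) (nat_lit 5), mk (.ofNat (nat_lit 1040)) (nat_lit 28) (nat_lit 6) (nat_lit 5), mk (.ofNat (nat_lit 288)) (nat_lit 24) (nat_lit 3941) (nat_lit 0), mk (.ofNat (nat_lit 752)) (nat_lit 28) (nat_lit 5) (nat_lit 6), mk (.ofNat (nat_lit 336)) (nat_lit 3) (nat_lit 279620) (nat_lit 0)]),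
  ((.ofNat (nat_lit 6240)), p67,
    [mk (.ofNat (nat_lit 87360)) (nat_lit 2) (nat_lit 1138486) (nat_lit 0), mk (.ofNat (nat_lit 218400)) (nat_lit 3) (nat_lit 22097686) (nat_lit 0), mk (.negSucc (nat_lit 218399)) (nat_lit 3) (nat_lit 23146261) (nat_lit 0), mk (.negSucc (nat_lit 218399)) (nat_lit 3) (nat_lit 136545) (nat_lit 1), mk (.ofNat (nat_lit 87360)) (nat_lit 3) (nat_lit 70486) (nat_lit 0), mk (.negSucc (nat_lit 18524)) (nat_lit 22) (nat_lit 61782) (nat_lit 0), mk (.ofNat (nat_lit 10920)) (nat_lit 22) (nat_lit 28437) (nat_lit 0), mk (.ofNat (nat_lit 18525)) (nat_lit 22) (nat_lit 61797) (nat_lit 0), mk (.ofNat (nat_lit 8190)) (nat_lit 22) (nat_lit 24342) (nat_lit 0), mk (.negSucc (nat_lit 1091999)) (nat_lit 2) (nat_lit 5206) (nat_lit 0), mk (.negSucc (nat_lit 218399)) (nat_lit 3) (nat_lit 71009) (nat_lit 2), mk (.negSucc (nat_lit 524159)) (nat_lit 3) (nat_lit 74326) (nat_lit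 0), mk (.ofNat (nat_lit 87360)) (nat_lit 2) (nat_lit 9046) (nat_lit 0), mk (.ofNat (nat_lit 436800)) (nat_lit 3) (nat_lit 69989) (nat_lit 2), mk (.negSucc (nat_lit 698879)) (nat_lit 18) (nat_lit 28437) (nat_lit 0), mk (.ofNat (nat_lit 1034655)) (nat_lit 14) (nat_lit 101) (nat_lit 1), mk (.negSucc (nat_lit 1251509)) (nat_lit 14) (nat_lit 28437) (nat_lit 0), mk (.negSucc (nat_lit 85814)) (nat_lit 14) (nat_lit 24342) (nat_lit 0), mk (.negSucc (nat_lit 2156669)) (nat_lit 3) (nat_lit 17919781) (nat_lit 0), mk (.ofNat (nat_lit 1938270)) (nat_lit 3) (nat_lit 18964246) (nat_lit 0), mk (.negSucc (nat_lit 29119)) (nat_lit 2) (nat_lit 287306326) (nat_lit 0), mk (.negSucc (nat_lit 1397759)) (nat_lit 3) (nat_lit 136546) (nat_lit 0), mk (.negSucc (nat_lit 268319)) (nat_lit 7) (nat_lit 101) (nat_lit 2), mk (.negSucc (nat_lit 174719)) (nat_lit 3) (nat_lit 18215521) (nat_lit 0), mk (.ofNat (nat_lit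 698880)) (nat_lit 3) (nat_lit 34992481) (nat_lit 0), mk (.negSucc (nat_lit 131039)) (nat_lit 3) (nat_lit 18281041) (nat_lit 0), mk (.ofNat (nat_lit 804960)) (nat_lit 9) (nat_lit 5) (nat_lit 97), mk (.negSucc (nat_lit 141899)) (nat_lit 23) (nat_lit 101) (nat_lit 1), mk (.ofNat (nat_lit 218400)) (nat_lit 3) (nat_lit 18968341) (nat_lit 0), mk (.ofNat (nat_lit 1139160)) (nat_lit 3) (nat_lit 71011) (nat_lit 0), mk (.negSucc (nat_lit 87359)) (nat_lit 19) (nat_lit 28437) (nat_lit 0), mk (.negSucc (nat_lit 692444)) (nat_lit 9) (nat_lit 1044822) (nat_lit 0), mk (.negSucc (nat_lit 234779)) (nat_lit 4) (nat_lit 1044822) (nat_lit 0), mk (.ofNat (nat_lit 8190)) (nat_lit 22) (nat_lit 86) (nat_lit 1), mk (.ofNat (nat_lit 10920)) (nat_lit 22) (nat_lit 101) (nat_lit 1), mk (.negSucc (nat_lit 562673)) (nat_lit 16) (nat_lit 86) (nat_lit 1), mk (.negSucc (nat_lit 474878)) (nat_lit 23) (nat_lit 86)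 (nat_lit 1), mk (.negSucc (nat_lit 274559)) (nat_lit 3) (nat_lit 35058001) (nat_lit 0), mk (.ofNat (nat_lit 34320)) (nat_lit 19) (nat_lit 24342) (nat_lit 0), mk (.negSucc (nat_lit 747044)) (nat_lit 9) (nat_lit 1044837) (nat_lit 0), mk (.negSucc (nat_lit 99059)) (nat_lit 4) (nat_lit 1044837) (nat_lit 0), mk (.negSucc (nat_lit 480479)) (nat_lit 7) (nat_lit 86) (nat_lit 2), mk (.ofNat (nat_lit 4575420)) (nat_lit 15) (nat_lit 101) (nat_lit 1), mk (.ofNat (nat_lit 396240)) (nat_lit 3) (nat_lit 135781) (nat_lit 0), mk (.ofNat (nat_lit 436800)) (nat_lit 17) (nat_lit 86) (nat_lit 1), mk (.ofNat (nat_lit 87360)) (nat_lit 3) (nat_lit 78181) (nat_lit 0), mk (.negSucc (nat_lit 436799)) (nat_lit 6) (nat_lit 1044822) (nat_lit 0), mk (.ofNat (nat_lit 349440)) (nat_lit 15) (nat_lit 86) (nat_lit 1), mk (.ofNat (nat_lit 2069310)) (nat_lit 3) (nat_lit 78166) (nat_lit 0), mk (.ofNat (nat_lit 698880))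 (nat_lit 15) (nat_lit 61782) (nat_lit 0), mk (.negSucc (nat_lit 3876539)) (nat_lit 6) (nat_lit 1044837) (nat_lit 0), mk (.ofNat (nat_lit 939120)) (nat_lit 3) (nat_lit 135766) (nat_lit 0), mk (.ofNat (nat_lit 324480)) (nat_lit 17) (nat_lit 61782) (nat_lit 0), mk (.negSucc (nat_lit 23384)) (nat_lit 20) (nat_lit 86) (nat_lit 1), mk (.ofNat (nat_lit 1953435)) (nat_lit 20) (nat_lit 24342) (nat_lit 0), mk (.ofNat (nat_lit 1846520)) (nat_lit 3) (nat_lit 86294) (nat_lit 2), mk (.ofNat (nat_lit 2724270)) (nat_lit 3) (nat_lit 75106) (nat_lit 0), mk (.negSucc (nat_lit 174719)) (nat_lit 3) (nat_lit 202081) (nat_lit 0), mk (.negSucc (nat_lit 148199)) (nat_lit 13) (nat_lit 61782) (nat_lit 0), mk (.negSucc (nat_lit 349439)) (nat_lit 13) (nat_lit 28437) (nat_lit 0), mk (.ofNat (nat_lit 1360710)) (nat_lit 20) (nat_lit 101) (nat_lit 1), mk (.negSucc (nat_lit 3219839)) (nat_lit 20) (nat_lit 28437)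 (nat_lit 0), mk (.ofNat (nat_lit 148200)) (nat_lit 13) (nat_lit 61797) (nat_lit 0), mk (.ofNat (nat_lit 137280)) (nat_lit 13) (nat_lit 24342) (nat_lit 0), mk (.negSucc (nat_lit 1051799)) (nat_lit 24) (nat_lit 6) (nat_lit 5), mk (.negSucc (nat_lit 1179359)) (nat_lit 25) (nat_lit 6) (nat_lit 5), mk (.negSucc (nat_lit 4793819)) (nat_lit 27) (nat_lit 6) (nat_lit 5), mk (.ofNat (nat_lit 349440)) (nat_lit 31) (nat_lit 6) (nat_lit 5), mk (.ofNat (nat_lit 262080)) (nat_lit 32) (nat_lit 6) (nat_lit 5), mk (.ofNat (nat_lit 141960)) (nat_lit 33) (nat_lit 3941) (nat_lit 0), mk (.negSucc (nat_lit 87359)) (nat_lit 32) (nat_lit 3941) (nat_lit 0), mk (.negSucc (nat_lit 5934239)) (nat_lit 26) (nat_lit 5) (nat_lit 6), mk (.negSucc (nat_lit 3506564)) (nat_lit 26) (nat_lit 6) (nat_lit 5), mk (.negSucc (nat_lit 1266719)) (nat_lit 27) (nat_lit 5) (nat_lit 6), mk (.ofNat (nat_lit 2836410)) (nat_lit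 27) (nat_lit 3941) (nat_lit 0), mk (.negSucc (nat_lit 1091999)) (nat_lit 26) (nat_lit 3941) (nat_lit 0), mk (.negSucc (nat_lit 4924379)) (nat_lit 28) (nat_lit 6) (nat_lit 5), mk (.ofNat (nat_lit 1921920)) (nat_lit 29) (nat_lit 6) (nat_lit 5), mk (.ofNat (nat_lit 524160)) (nat_lit 28) (nat_lit 3941) (nat_lit 0), mk (.ofNat (nat_lit 524160)) (nat_lit 30) (nat_lit 3941) (nat_lit 0), mk (.negSucc (nat_lit 705119)) (nat_lit 25) (nat_lit 5) (nat_lit 6), mk (.ofNat (nat_lit 349440)) (nat_lit 31) (nat_lit 5) (nat_lit 6), mk (.ofNat (nat_lit 87360)) (nat_lit 25) (nat_lit 3941) (nat_lit 0), mk (.ofNat (nat_lit 87360)) (nat_lit 31) (nat_lit 3941) (nat_lit 0), mk (.negSucc (nat_lit 873599)) (nat_lit 34) (nat_lit 3941) (nat_lit 0), mk (.negSucc (nat_lit 6057839)) (nat_lit 33) (nat_lit 5) (nat_lit 6), mk (.negSucc (nat_lit 480479)) (nat_lit 24) (nat_lit 3941) (nat_lit 0), mk (.negSucc (nat_lit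 9497579)) (nat_lit 33) (nat_lit 6) (nat_lit 5), mk (.ofNat (nat_lit 4575420)) (nat_lit 35) (nat_lit 5) (nat_lit 6), mk (.negSucc (nat_lit 1135199)) (nat_lit 28) (nat_lit 5) (nat_lit 6), mk (.negSucc (nat_lit 3876539)) (nat_lit 36) (nat_lit 6) (nat_lit 5), mk (.negSucc (nat_lit 480479)) (nat_lit 30) (nat_lit 6) (nat_lit 5), mk (.ofNat (nat_lit 605280)) (nat_lit 30) (nat_lit 5) (nat_lit 6), mk (.ofNat (nat_lit 1397760)) (nat_lit 29) (nat_lit 5) (nat_lit 6), mk (.ofNat (nat_lit 349440)) (nat_lit 35) (nat_lit 6) (nat_lit 5), mk (.negSucc (nat_lit 1397759)) (nat_lit 34) (nat_lit 6) (nat_lit 5), mk (.negSucc (nat_lit 436799)) (nat_lit 36) (nat_lit 5) (nat_lit 6), mk (.negSucc (nat_lit 1139159)) (nat_lit 24) (nat_lit 5) (nat_lit 6), mk (.ofNat (nat_lit 549120)) (nat_lit 34) (nat_lit 5) (nat_lit 6), mk (.negSucc (nat_lit 2670719)) (nat_lit 29) (nat_lit 3941) (nat_lit 0), mk (.ofNat (nat_lit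 349440)) (nat_lit 32) (nat_lit 5) (nat_lit 6), mk (.negSucc (nat_lit 596209)) (nat_lit 3) (nat_lit 279620) (nat_lit 0)]),
  ((.ofNat (nat_lit 4)), p68,
    [mk (.negSucc (nat_lit 1)) (nat_lit 3) (nat_lit 136017) (nat_lit 0), mk (.negSucc (nat_lit 3)) (nat_lit 6) (nat_lit 5) (nat_lit 3), mk (.ofNat (nat_lit 4)) (nat_lit 39) (nat_lit 1044817) (nat_lit 0), mk (.ofNat (nat_lit 4)) (nat_lit 11) (nat_lit 3877) (nat_lit 0), mk (.ofNat (nat_lit 4)) (nat_lit 38) (nat_lit 1044817) (nat_lit 0), mk (.ofNat (nat_lit 1)) (nat_lit 3) (nat_lit 279620) (nat_lit 0)]),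
  ((.ofNat (nat_lit 80)), p69,
    [mk (.ofNat (nat_lit 4)) (nat_lit 4) (nat_lit 5) (nat_lit 3), mk (.negSucc (nat_lit 31)) (nat_lit 6) (nat_lit 5) (nat_lit 3), mk (.ofNat (nat_lit 2)) (nat_lit 3) (nat_lit 136017) (nat_lit 0), mk (.ofNat (nat_lit 32)) (nat_lit 11) (nat_lit 3877) (nat_lit 0), mk (.negSucc (nat_lit 31)) (nat_lit 39) (nat_lit 3877) (nat_lit 0), mk (.negSucc (nat_lit 3)) (nat_lit 39) (nat_lit 1044817) (nat_lit 0), mk (.negSucc (nat_lit 3)) (nat_lit 38) (nat_lit 1044817) (nat_lit 0), mk (.negSucc (nat_lit 0)) (nat_lit 3) (nat_lit 279620) (nat_lit 0)]),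
  ((.ofNat (nat_lit 108)), p70,
    [mk (.negSucc (nat_lit 26)) (nat_lit 3) (nat_lit 86566) (nat_lit 0), mk (.ofNat (nat_lit 84)) (nat_lit 37) (nat_lit 86) (nat_lit 1), mk (.ofNat (nat_lit 54)) (nat_lit 3) (nat_lit 74326) (nat_lit 0), mk (.ofNat (nat_lit 54)) (nat_lit 3) (nat_lit 74341) (nat_lit 0), mk (.ofNat (nat_lit 6)) (nat_lit 23) (nat_lit 86) (nat_lit 1), mk (.negSucc (nat_lit 53)) (nat_lit 3) (nat_lit 136546) (nat_lit 0), mk (.ofNat (nat_lit 6)) (nat_lit 23) (nat_lit 101) (nat_lit 1), mk (.negSucc (nat_lit 35)) (nat_lit 3) (nat_lit 71011) (nat_lit 0), mk (.negSucc (nat_lit 41)) (nat_lit 3) (nat_lit 78181) (nat_lit 0), mk (.negSucc (nat_lit 41)) (nat_lit 3) (nat_lit 78166) (nat_lit 0), mk (.ofNat (nat_lit 27)) (nat_lit 3) (nat_lit 135766) (nat_lit 0), mk (.ofNat (nat_lit 27)) (nat_lit 3) (nat_lit 135781) (nat_lit 0), mk (.negSucc (nat_lit 50)) (nat_lit 3) (nat_lit 75106)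 (nat_lit 0), mk (.negSucc (nat_lit 167)) (nat_lit 27) (nat_lit 3941) (nat_lit 0), mk (.ofNat (nat_lit 30)) (nat_lit 27) (nat_lit 6) (nat_lit 5), mk (.ofNat (nat_lit 48)) (nat_lit 28) (nat_lit 6) (nat_lit 5), mk (.negSucc (nat_lit 107)) (nat_lit 25) (nat_lit 6) (nat_lit 5), mk (.negSucc (nat_lit 107)) (nat_lit 28) (nat_lit 3941) (nat_lit 0), mk (.negSucc (nat_lit 107)) (nat_lit 30) (nat_lit 3941) (nat_lit 0), mk (.ofNat (nat_lit 30)) (nat_lit 27) (nat_lit 5) (nat_lit 6), mk (.ofNat (nat_lit 48)) (nat_lit 28) (nat_lit 5) (nat_lit 6), mk (.negSucc (nat_lit 107)) (nat_lit 25) (nat_lit 5) (nat_lit 6), mk (.ofNat (nat_lit 36)) (nat_lit 24) (nat_lit 6) (nat_lit 5), mk (.ofNat (nat_lit 120)) (nat_lit 33) (nat_lit 6) (nat_lit 5), mk (.ofNat (nat_lit 36)) (nat_lit 24) (nat_lit 5) (nat_lit 6), mk (.ofNat (nat_lit 120)) (nat_lit 33) (nat_lit 5) (nat_lit 6), mk (.negSucc (nat_lit 107)) (nat_lit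 29) (nat_lit 3941) (nat_lit 0), mk (.ofNat (nat_lit 47)) (nat_lit 3) (nat_lit 279620) (nat_lit 0)]),
  ((.ofNat (nat_lit 3120)), p71,
    [mk (.ofNat (nat_lit 37440)) (nat_lit 2) (nat_lit 1138486) (nat_lit 0), mk (.negSucc (nat_lit 93599)) (nat_lit 3) (nat_lit 23146261) (nat_lit 0), mk (.ofNat (nat_lit 93600)) (nat_lit 3) (nat_lit 22097686) (nat_lit 0), mk (.negSucc (nat_lit 93599)) (nat_lit 3) (nat_lit 136545) (nat_lit 1), mk (.negSucc (nat_lit 18524)) (nat_lit 22) (nat_lit 61782) (nat_lit 0), mk (.negSucc (nat_lit 93599)) (nat_lit 3) (nat_lit 71009) (nat_lit 2), mk (.negSucc (nat_lit 224639)) (nat_lit 3) (nat_lit 74326) (nat_lit 0), mk (.ofNat (nat_lit 18525)) (nat_lit 22) (nat_lit 61797) (nat_lit 0), mk (.negSucc (nat_lit 1169)) (nat_lit 22) (nat_lit 24342) (nat_lit 0), mk (.negSucc (nat_lit 37439)) (nat_lit 3) (nat_lit 70501) (nat_lit 0), mk (.negSucc (nat_lit 155999)) (nat_lit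 3) (nat_lit 86326) (nat_lit 0), mk (.negSucc (nat_lit 299519)) (nat_lit 18) (nat_lit 28437) (nat_lit 0), mk (.ofNat (nat_lit 187200)) (nat_lit 3) (nat_lit 69989) (nat_lit 2), mk (.ofNat (nat_lit 1033335)) (nat_lit 14) (nat_lit 101) (nat_lit 1), mk (.negSucc (nat_lit 767909)) (nat_lit 14) (nat_lit 28437) (nat_lit 0), mk (.ofNat (nat_lit 321585)) (nat_lit 14) (nat_lit 24342) (nat_lit 0), mk (.negSucc (nat_lit 131039)) (nat_lit 7) (nat_lit 101) (nat_lit 2), mk (.ofNat (nat_lit 93600)) (nat_lit 3) (nat_lit 18968341) (nat_lit 0), mk (.ofNat (nat_lit 18720)) (nat_lit 3) (nat_lit 18281041) (nat_lit 0), mk (.negSucc (nat_lit 2104109)) (nat_lit 3) (nat_lit 17919781) (nat_lit 0), mk (.negSucc (nat_lit 561599)) (nat_lit 3) (nat_lit 136546) (nat_lit 0), mk (.negSucc (nat_lit 12479)) (nat_lit 2) (nat_lit 287306326) (nat_lit 0), mk (.ofNat (nat_lit 904176)) (nat_lit 16) (nat_lit 101) (nat_lit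 1), mk (.negSucc (nat_lit 159083)) (nat_lit 23) (nat_lit 101) (nat_lit 1), mk (.negSucc (nat_lit 36269)) (nat_lit 19) (nat_lit 28437) (nat_lit 0), mk (.negSucc (nat_lit 314924)) (nat_lit 9) (nat_lit 1044822) (nat_lit 0), mk (.negSucc (nat_lit 94769)) (nat_lit 4) (nat_lit 1044822) (nat_lit 0), mk (.ofNat (nat_lit 290160)) (nat_lit 3) (nat_lit 34992481) (nat_lit 0), mk (.ofNat (nat_lit 2010510)) (nat_lit 3) (nat_lit 18964246) (nat_lit 0), mk (.negSucc (nat_lit 164519)) (nat_lit 3) (nat_lit 71011) (nat_lit 0), mk (.negSucc (nat_lit 320849)) (nat_lit 16) (nat_lit 86) (nat_lit 1), mk (.negSucc (nat_lit 350774)) (nat_lit 23) (nat_lit 86) (nat_lit 1), mk (.negSucc (nat_lit 196559)) (nat_lit 7) (nat_lit 86) (nat_lit 2), mk (.negSucc (nat_lit 1169)) (nat_lit 22) (nat_lit 86) (nat_lit 1), mk (.negSucc (nat_lit 338324)) (nat_lit 9) (nat_lit 1044837) (nat_lit 0), mk (.negSucc (nat_lit 39779))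 (nat_lit 4) (nat_lit 1044837) (nat_lit 0), mk (.ofNat (nat_lit 37440)) (nat_lit 17) (nat_lit 61782) (nat_lit 0), mk (.ofNat (nat_lit 187200)) (nat_lit 17) (nat_lit 86) (nat_lit 1), mk (.ofNat (nat_lit 4170780)) (nat_lit 15) (nat_lit 101) (nat_lit 1), mk (.negSucc (nat_lit 187199)) (nat_lit 6) (nat_lit 1044822) (nat_lit 0), mk (.ofNat (nat_lit 193440)) (nat_lit 3) (nat_lit 78181) (nat_lit 0), mk (.ofNat (nat_lit 159120)) (nat_lit 3) (nat_lit 135781) (nat_lit 0), mk (.ofNat (nat_lit 2222670)) (nat_lit 3) (nat_lit 78166) (nat_lit 0), mk (.ofNat (nat_lit 299520)) (nat_lit 15) (nat_lit 61782) (nat_lit 0), mk (.ofNat (nat_lit 379080)) (nat_lit 3) (nat_lit 135766) (nat_lit 0), mk (.negSucc (nat_lit 4021019)) (nat_lit 6) (nat_lit 1044837) (nat_lit 0), mk (.ofNat (nat_lit 1836270)) (nat_lit 3) (nat_lit 75106) (nat_lit 0), mk (.negSucc (nat_lit 148199)) (nat_lit 13) (nat_lit 61782) (nat_lit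 0), mk (.negSucc (nat_lit 145079)) (nat_lit 13) (nat_lit 28437) (nat_lit 0), mk (.negSucc (nat_lit 368384)) (nat_lit 20) (nat_lit 86) (nat_lit 1), mk (.ofNat (nat_lit 839800)) (nat_lit 3) (nat_lit 86294) (nat_lit 2), mk (.ofNat (nat_lit 645795)) (nat_lit 20) (nat_lit 24342) (nat_lit 0), mk (.ofNat (nat_lit 18720)) (nat_lit 3) (nat_lit 202081) (nat_lit 0), mk (.ofNat (nat_lit 814710)) (nat_lit 20) (nat_lit 101) (nat_lit 1), mk (.negSucc (nat_lit 4520879)) (nat_lit 20) (nat_lit 28437) (nat_lit 0), mk (.ofNat (nat_lit 148200)) (nat_lit 13) (nat_lit 61797) (nat_lit 0), mk (.ofNat (nat_lit 239400)) (nat_lit 24) (nat_lit 6) (nat_lit 5), mk (.negSucc (nat_lit 496079)) (nat_lit 25) (nat_lit 6) (nat_lit 5), mk (.negSucc (nat_lit 3132479)) (nat_lit 26) (nat_lit 5) (nat_lit 6), mk (.negSucc (nat_lit 4220699)) (nat_lit 27) (nat_lit 6) (nat_lit 5), mk (.negSucc (nat_lit 3447899)) (nat_lit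 28) (nat_lit 6) (nat_lit 5), mk (.ofNat (nat_lit 786240)) (nat_lit 29) (nat_lit 6) (nat_lit 5), mk (.ofNat (nat_lit 224640)) (nat_lit 28) (nat_lit 3941) (nat_lit 0), mk (.ofNat (nat_lit 224640)) (nat_lit 30) (nat_lit 3941) (nat_lit 0), mk (.ofNat (nat_lit 645795)) (nat_lit 26) (nat_lit 6) (nat_lit 5), mk (.negSucc (nat_lit 349439)) (nat_lit 27) (nat_lit 5) (nat_lit 6), mk (.ofNat (nat_lit 201960)) (nat_lit 24) (nat_lit 5) (nat_lit 6), mk (.ofNat (nat_lit 23400)) (nat_lit 33) (nat_lit 3941) (nat_lit 0), mk (.ofNat (nat_lit 37440)) (nat_lit 32) (nat_lit 3941) (nat_lit 0), mk (.negSucc (nat_lit 3181679)) (nat_lit 33) (nat_lit 5) (nat_lit 6), mk (.negSucc (nat_lit 374399)) (nat_lit 34) (nat_lit 3941) (nat_lit 0), mk (.negSucc (nat_lit 680159)) (nat_lit 24) (nat_lit 3941) (nat_lit 0), mk (.ofNat (nat_lit 4146210)) (nat_lit 27) (nat_lit 3941) (nat_lit 0), mk (.negSucc (nat_lit 7015499))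 (nat_lit 33) (nat_lit 6) (nat_lit 5), mk (.negSucc (nat_lit 187199)) (nat_lit 36) (nat_lit 5) (nat_lit 6), mk (.ofNat (nat_lit 4170780)) (nat_lit 35) (nat_lit 5) (nat_lit 6), mk (.ofNat (nat_lit 535680)) (nat_lit 28) (nat_lit 5) (nat_lit 6), mk (.negSucc (nat_lit 196559)) (nat_lit 30) (nat_lit 6) (nat_lit 5), mk (.ofNat (nat_lit 243360)) (nat_lit 30) (nat_lit 5) (nat_lit 6), mk (.ofNat (nat_lit 561600)) (nat_lit 29) (nat_lit 5) (nat_lit 6), mk (.negSucc (nat_lit 580319)) (nat_lit 34) (nat_lit 6) (nat_lit 5), mk (.negSucc (nat_lit 4021019)) (nat_lit 36) (nat_lit 6) (nat_lit 5), mk (.negSucc (nat_lit 318239)) (nat_lit 25) (nat_lit 5) (nat_lit 6), mk (.negSucc (nat_lit 1076399)) (nat_lit 29) (nat_lit 3941) (nat_lit 0), mk (.negSucc (nat_lit 37439)) (nat_lit 32) (nat_lit 6) (nat_lit 5), mk (.negSucc (nat_lit 376289)) (nat_lit 3) (nat_lit 279620) (nat_lit 0)]),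
  ((.ofNat (nat_lit 1)), p72,
    [mk (.ofNat (nat_lit 1)) (nat_lit 13) (nat_lit 6287713) (nat_lit 0), mk (.negSucc (nat_lit 3)) (nat_lit 34) (nat_lit 6) (nat_lit 3861)]),
  ((.ofNat (nat_lit 432)), p73,
    [mk (.negSucc (nat_lit 923)) (nat_lit 37) (nat_lit 101) (nat_lit 1), mk (.ofNat (nat_lit 396)) (nat_lit 3) (nat_lit 71011) (nat_lit 0), mk (.negSucc (nat_lit 65)) (nat_lit 23) (nat_lit 86) (nat_lit 1), mk (.negSucc (nat_lit 65)) (nat_lit 23) (nat_lit 101) (nat_lit 1), mk (.ofNat (nat_lit 462)) (nat_lit 3) (nat_lit 78181) (nat_lit 0), mk (.ofNat (nat_lit 462)) (nat_lit 3) (nat_lit 78166) (nat_lit 0), mk (.ofNat (nat_lit 27)) (nat_lit 45) (nat_lit 86) (nat_lit 1), mk (.ofNat (nat_lit 264)) (nat_lit 3) (nat_lit 75106) (nat_lit 0), mk (.ofNat (nat_lit 432)) (nat_lit 24) (nat_lit 3941) (nat_lit 0), mk (.ofNat (nat_lit 2145)) (nat_lit 27) (nat_lit 3941) (nat_lit 0), mk (.negSucc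 (nat_lit 395)) (nat_lit 24) (nat_lit 6) (nat_lit 5), mk (.negSucc (nat_lit 1319)) (nat_lit 33) (nat_lit 6) (nat_lit 5), mk (.negSucc (nat_lit 395)) (nat_lit 24) (nat_lit 5) (nat_lit 6), mk (.negSucc (nat_lit 1319)) (nat_lit 33) (nat_lit 5) (nat_lit 6), mk (.negSucc (nat_lit 923)) (nat_lit 27) (nat_lit 5) (nat_lit 6), mk (.negSucc (nat_lit 923)) (nat_lit 27) (nat_lit 6) (nat_lit 5), mk (.negSucc (nat_lit 323)) (nat_lit 33) (nat_lit 3941) (nat_lit 0), mk (.negSucc (nat_lit 527)) (nat_lit 28) (nat_lit 6) (nat_lit 5), mk (.negSucc (nat_lit 527)) (nat_lit 28) (nat_lit 5) (nat_lit 6), mk (.negSucc (nat_lit 219)) (nat_lit 3) (nat_lit 279620) (nat_lit 0)]),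
  ((.ofNat (nat_lit 1)), p74,
    [mk (.ofNat (nat_lit 1)) (nat_lit 13) (nat_lit 24358) (nat_lit 0), mk (.negSucc (nat_lit 3)) (nat_lit 30) (nat_lit 6) (nat_lit 3861)]),
  ((.ofNat (nat_lit 6240)), p75,
    [mk (.ofNat (nat_lit 87360)) (nat_lit 2) (nat_lit 1138486) (nat_lit 0), mk (.negSucc (nat_lit 218399)) (nat_lit 3) (nat_lit 23146261) (nat_lit 0), mk (.ofNat (nat_lit 218400)) (nat_lit 3) (nat_lit 22097686) (nat_lit 0), mk (.negSucc (nat_lit 218399)) (nat_lit 3) (nat_lit 136545) (nat_lit 1), mk (.ofNat (nat_lit 87360)) (nat_lit 3) (nat_lit 70486) (nat_lit 0), mk (.negSucc (nat_lit 18524)) (nat_lit 22) (nat_lit 61782) (nat_lit 0), mk (.ofNat (nat_lit 10920)) (nat_lit 22) (nat_lit 28437) (nat_lit 0), mk (.ofNat (nat_lit 18525)) (nat_lit 22) (nat_lit 61797) (nat_lit 0), mk (.ofNat (nat_lit 8190)) (nat_lit 22) (nat_lit 24342) (nat_lit 0), mk (.negSucc (nat_lit 973439)) (nat_lit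 2) (nat_lit 5206) (nat_lit 0), mk (.negSucc (nat_lit 524159)) (nat_lit 3) (nat_lit 74326) (nat_lit 0), mk (.ofNat (nat_lit 87360)) (nat_lit 2) (nat_lit 9046) (nat_lit 0), mk (.ofNat (nat_lit 436800)) (nat_lit 10) (nat_lit 86) (nat_lit 2), mk (.negSucc (nat_lit 698879)) (nat_lit 18) (nat_lit 28437) (nat_lit 0), mk (.negSucc (nat_lit 218399)) (nat_lit 3) (nat_lit 69974) (nat_lit 2), mk (.ofNat (nat_lit 802095)) (nat_lit 14) (nat_lit 101) (nat_lit 1), mk (.negSucc (nat_lit 1014389)) (nat_lit 14) (nat_lit 28437) (nat_lit 0), mk (.negSucc (nat_lit 81254)) (nat_lit 14) (nat_lit 24342) (nat_lit 0), mk (.ofNat (nat_lit 218400)) (nat_lit 3) (nat_lit 69989) (nat_lit 2), mk (.ofNat (nat_lit 218400)) (nat_lit 3) (nat_lit 18968341) (nat_lit 0), mk (.negSucc (nat_lit 544244)) (nat_lit 9) (nat_lit 1044822) (nat_lit 0), mk (.negSucc (nat_lit 174719)) (nat_lit 3) (nat_lit 18215521) (nat_lit 0),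 mk (.ofNat (nat_lit 1029720)) (nat_lit 3) (nat_lit 71011) (nat_lit 0), mk (.negSucc (nat_lit 79949)) (nat_lit 19) (nat_lit 28437) (nat_lit 0), mk (.ofNat (nat_lit 639600)) (nat_lit 3) (nat_lit 34992481) (nat_lit 0), mk (.negSucc (nat_lit 197729)) (nat_lit 4) (nat_lit 1044822) (nat_lit 0), mk (.ofNat (nat_lit 1473150)) (nat_lit 3) (nat_lit 18964246) (nat_lit 0), mk (.negSucc (nat_lit 130499)) (nat_lit 23) (nat_lit 101) (nat_lit 1), mk (.negSucc (nat_lit 29119)) (nat_lit 2) (nat_lit 287306326) (nat_lit 0), mk (.ofNat (nat_lit 2389920)) (nat_lit 10) (nat_lit 81) (nat_lit 97), mk (.negSucc (nat_lit 131039)) (nat_lit 3) (nat_lit 18281041) (nat_lit 0), mk (.negSucc (nat_lit 1691549)) (nat_lit 3) (nat_lit 17919781) (nat_lit 0), mk (.ofNat (nat_lit 8190)) (nat_lit 22) (nat_lit 86) (nat_lit 1), mk (.ofNat (nat_lit 10920)) (nat_lit 22) (nat_lit 101) (nat_lit 1), mk (.negSucc (nat_lit 449585))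 (nat_lit 16) (nat_lit 86) (nat_lit 1), mk (.negSucc (nat_lit 375470)) (nat_lit 23) (nat_lit 86) (nat_lit 1), mk (.negSucc (nat_lit 37439)) (nat_lit 3) (nat_lit 35058001) (nat_lit 0), mk (.ofNat (nat_lit 4680)) (nat_lit 19) (nat_lit 24342) (nat_lit 0), mk (.negSucc (nat_lit 598844)) (nat_lit 9) (nat_lit 1044837) (nat_lit 0), mk (.negSucc (nat_lit 99059)) (nat_lit 4) (nat_lit 1044837) (nat_lit 0), mk (.negSucc (nat_lit 421199)) (nat_lit 7) (nat_lit 86) (nat_lit 2), mk (.negSucc (nat_lit 268319)) (nat_lit 7) (nat_lit 101) (nat_lit 2), mk (.negSucc (nat_lit 1160639)) (nat_lit 3) (nat_lit 136546) (nat_lit 0), mk (.negSucc (nat_lit 436799)) (nat_lit 6) (nat_lit 1044822) (nat_lit 0), mk (.ofNat (nat_lit 87360)) (nat_lit 3) (nat_lit 78181) (nat_lit 0), mk (.ofNat (nat_lit 87360)) (nat_lit 17) (nat_lit 61782) (nat_lit 0), mk (.ofNat (nat_lit 436800)) (nat_lit 17) (nat_lit 86) (nat_lit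 1), mk (.negSucc (nat_lit 1134659)) (nat_lit 15) (nat_lit 101) (nat_lit 1), mk (.ofNat (nat_lit 349440)) (nat_lit 15) (nat_lit 86) (nat_lit 1), mk (.ofNat (nat_lit 1604190)) (nat_lit 3) (nat_lit 78166) (nat_lit 0), mk (.ofNat (nat_lit 698880)) (nat_lit 15) (nat_lit 61782) (nat_lit 0), mk (.negSucc (nat_lit 2946299)) (nat_lit 6) (nat_lit 1044837) (nat_lit 0), mk (.ofNat (nat_lit 790920)) (nat_lit 3) (nat_lit 135766) (nat_lit 0), mk (.ofNat (nat_lit 396240)) (nat_lit 3) (nat_lit 135781) (nat_lit 0), mk (.negSucc (nat_lit 148199)) (nat_lit 13) (nat_lit 61782) (nat_lit 0), mk (.negSucc (nat_lit 319799)) (nat_lit 13) (nat_lit 28437) (nat_lit 0), mk (.ofNat (nat_lit 597480)) (nat_lit 21) (nat_lit 101) (nat_lit 1), mk (.negSucc (nat_lit 27944)) (nat_lit 20) (nat_lit 86) (nat_lit 1), mk (.ofNat (nat_lit 1620555)) (nat_lit 20) (nat_lit 24342) (nat_lit 0), mk (.negSucc (nat_lit 174719))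 (nat_lit 3) (nat_lit 202081) (nat_lit 0), mk (.ofNat (nat_lit 1524120)) (nat_lit 3) (nat_lit 86294) (nat_lit 2), mk (.ofNat (nat_lit 2213550)) (nat_lit 3) (nat_lit 75106) (nat_lit 0), mk (.ofNat (nat_lit 1123590)) (nat_lit 20) (nat_lit 101) (nat_lit 1), mk (.negSucc (nat_lit 2389919)) (nat_lit 20) (nat_lit 28437) (nat_lit 0), mk (.ofNat (nat_lit 148200)) (nat_lit 13) (nat_lit 61797) (nat_lit 0), mk (.ofNat (nat_lit 18720)) (nat_lit 13) (nat_lit 24342) (nat_lit 0), mk (.negSucc (nat_lit 942359)) (nat_lit 24) (nat_lit 6) (nat_lit 5), mk (.negSucc (nat_lit 882959)) (nat_lit 25) (nat_lit 6) (nat_lit 5), mk (.negSucc (nat_lit 3745019)) (nat_lit 27) (nat_lit 6) (nat_lit 5), mk (.ofNat (nat_lit 349440)) (nat_lit 31) (nat_lit 6) (nat_lit 5), mk (.ofNat (nat_lit 262080)) (nat_lit 32) (nat_lit 6) (nat_lit 5), mk (.ofNat (nat_lit 141960)) (nat_lit 33) (nat_lit 3941) (nat_lit 0), mk (.negSucc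 (nat_lit 87359)) (nat_lit 32) (nat_lit 3941) (nat_lit 0), mk (.negSucc (nat_lit 5104319)) (nat_lit 26) (nat_lit 5) (nat_lit 6), mk (.negSucc (nat_lit 3246644)) (nat_lit 26) (nat_lit 6) (nat_lit 5), mk (.negSucc (nat_lit 1148159)) (nat_lit 27) (nat_lit 5) (nat_lit 6), mk (.ofNat (nat_lit 2024730)) (nat_lit 27) (nat_lit 3941) (nat_lit 0), mk (.negSucc (nat_lit 973439)) (nat_lit 26) (nat_lit 3941) (nat_lit 0), mk (.negSucc (nat_lit 3902939)) (nat_lit 28) (nat_lit 6) (nat_lit 5), mk (.ofNat (nat_lit 1684800)) (nat_lit 29) (nat_lit 6) (nat_lit 5), mk (.ofNat (nat_lit 524160)) (nat_lit 28) (nat_lit 3941) (nat_lit 0), mk (.ofNat (nat_lit 960960)) (nat_lit 30) (nat_lit 3941) (nat_lit 0), mk (.negSucc (nat_lit 705119)) (nat_lit 25) (nat_lit 5) (nat_lit 6), mk (.ofNat (nat_lit 349440)) (nat_lit 31) (nat_lit 5) (nat_lit 6), mk (.ofNat (nat_lit 524160)) (nat_lit 25) (nat_lit 3941) (nat_lit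 0), mk (.ofNat (nat_lit 87360)) (nat_lit 31) (nat_lit 3941) (nat_lit 0), mk (.negSucc (nat_lit 4121519)) (nat_lit 29) (nat_lit 3941) (nat_lit 0), mk (.negSucc (nat_lit 4999919)) (nat_lit 33) (nat_lit 5) (nat_lit 6), mk (.negSucc (nat_lit 480479)) (nat_lit 24) (nat_lit 3941) (nat_lit 0), mk (.negSucc (nat_lit 7509419)) (nat_lit 33) (nat_lit 6) (nat_lit 5), mk (.negSucc (nat_lit 436799)) (nat_lit 36) (nat_lit 5) (nat_lit 6), mk (.ofNat (nat_lit 349440)) (nat_lit 35) (nat_lit 6) (nat_lit 5), mk (.negSucc (nat_lit 1029719)) (nat_lit 24) (nat_lit 5) (nat_lit 6), mk (.negSucc (nat_lit 1279199)) (nat_lit 34) (nat_lit 6) (nat_lit 5), mk (.negSucc (nat_lit 2946299)) (nat_lit 36) (nat_lit 6) (nat_lit 5), mk (.ofNat (nat_lit 3645180)) (nat_lit 35) (nat_lit 5) (nat_lit 6), mk (.negSucc (nat_lit 1043999)) (nat_lit 28) (nat_lit 5) (nat_lit 6), mk (.ofNat (nat_lit 74880)) (nat_lit 34) (nat_lit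 5) (nat_lit 6), mk (.negSucc (nat_lit 421199)) (nat_lit 30) (nat_lit 6) (nat_lit 5), mk (.ofNat (nat_lit 368160)) (nat_lit 30) (nat_lit 5) (nat_lit 6), mk (.ofNat (nat_lit 1160640)) (nat_lit 29) (nat_lit 5) (nat_lit 6), mk (.ofNat (nat_lit 349440)) (nat_lit 32) (nat_lit 5) (nat_lit 6), mk (.negSucc (nat_lit 488289)) (nat_lit 3) (nat_lit 279620) (nat_lit 0)]),
  ((.ofNat (nat_lit 24)), p76,
    [mk (.negSucc (nat_lit 3)) (nat_lit 2) (nat_lit 8741) (nat_lit 0), mk (.negSucc (nat_lit 2)) (nat_lit 3) (nat_lit 135761) (nat_lit 0), mk (.ofNat (nat_lit 48)) (nat_lit 5) (nat_lit 3877) (nat_lit 0), mk (.ofNat (nat_lit 12)) (nat_lit 41) (nat_lit 3861) (nat_lit 0), mk (.negSucc (nat_lit 191)) (nat_lit 40) (nat_lit 5) (nat_lit 1)]),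
  ((.ofNat (nat_lit 1)), p77,
    [mk (.ofNat (nat_lit 1)) (nat_lit 20) (nat_lit 28453) (nat_lit 0), mk (.negSucc (nat_lit 3)) (nat_lit 30) (nat_lit 5) (nat_lit 97)]),
  ((.ofNat (nat_lit 6)), p78,
    [mk (.ofNat (nat_lit 3)) (nat_lit 3) (nat_lit 143973) (nat_lit 0), mk (.negSucc (nat_lit 5)) (nat_lit 31) (nat_lit 5) (nat_lit 38), mk (.negSucc (nat_lit 5)) (nat_lit 31) (nat_lit 5) (nat_lit 98), mk (.negSucc (nat_lit 5)) (nat_lit 25) (nat_lit 3941) (nat_lit 2), mk (.negSucc (nat_lit 0)) (nat_lit 3) (nat_lit 279620) (nat_lit 0)]),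
  ((.ofNat (nat_lit 6240)), p79,
    [mk (.negSucc (nat_lit 87359)) (nat_lit 2) (nat_lit 1138486) (nat_lit 0), mk (.negSucc (nat_lit 218399)) (nat_lit 3) (nat_lit 22097686) (nat_lit 0), mk (.ofNat (nat_lit 218400)) (nat_lit 3) (nat_lit 23146261) (nat_lit 0), mk (.ofNat (nat_lit 218400)) (nat_lit 3) (nat_lit 136545) (nat_lit 1), mk (.negSucc (nat_lit 87359)) (nat_lit 3) (nat_lit 70486) (nat_lit 0), mk (.ofNat (nat_lit 18525)) (nat_lit 22) (nat_lit 61782) (nat_lit 0), mk (.negSucc (nat_lit 10919)) (nat_lit 22) (nat_lit 28437) (nat_lit 0), mk (.negSucc (nat_lit 18524)) (nat_lit 22) (nat_lit 61797) (nat_lit 0), mk (.negSucc (nat_lit 8189)) (nat_lit 22) (nat_lit 24342) (nat_lit 0), mk (.ofNat (nat_lit 973440)) (nat_lit 2) (nat_lit 5206) (nat_lit 0), mk (.ofNat (nat_lit 524160)) (nat_lit 3) (nat_lit 74326) (nat_lit 0), mk (.negSucc (nat_lit 87359)) (nat_lit 2) (nat_lit 9046) (nat_lit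 0), mk (.negSucc (nat_lit 436799)) (nat_lit 10) (nat_lit 101) (nat_lit 2), mk (.negSucc (nat_lit 218399)) (nat_lit 3) (nat_lit 69989) (nat_lit 2), mk (.ofNat (nat_lit 698880)) (nat_lit 18) (nat_lit 28437) (nat_lit 0), mk (.negSucc (nat_lit 822614)) (nat_lit 14) (nat_lit 101) (nat_lit 1), mk (.ofNat (nat_lit 1014390)) (nat_lit 14) (nat_lit 28437) (nat_lit 0), mk (.ofNat (nat_lit 60735)) (nat_lit 14) (nat_lit 24342) (nat_lit 0), mk (.ofNat (nat_lit 218400)) (nat_lit 3) (nat_lit 69974) (nat_lit 2), mk (.ofNat (nat_lit 1732590)) (nat_lit 3) (nat_lit 17919781) (nat_lit 0), mk (.negSucc (nat_lit 501695)) (nat_lit 16) (nat_lit 101) (nat_lit 1), mk (.ofNat (nat_lit 249084)) (nat_lit 23) (nat_lit 101) (nat_lit 1), mk (.negSucc (nat_lit 1514189)) (nat_lit 3) (nat_lit 18964246) (nat_lit 0), mk (.ofNat (nat_lit 131040)) (nat_lit 3) (nat_lit 18281041) (nat_lit 0), mk (.negSucc (nat_lit 1011479))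 (nat_lit 3) (nat_lit 71011) (nat_lit 0), mk (.ofNat (nat_lit 87360)) (nat_lit 19) (nat_lit 28437) (nat_lit 0), mk (.negSucc (nat_lit 698879)) (nat_lit 3) (nat_lit 34992481) (nat_lit 0), mk (.ofNat (nat_lit 544245)) (nat_lit 9) (nat_lit 1044822) (nat_lit 0), mk (.ofNat (nat_lit 29120)) (nat_lit 2) (nat_lit 287306326) (nat_lit 0), mk (.negSucc (nat_lit 218399)) (nat_lit 3) (nat_lit 18968341) (nat_lit 0), mk (.ofNat (nat_lit 327600)) (nat_lit 7) (nat_lit 101) (nat_lit 2), mk (.ofNat (nat_lit 205140)) (nat_lit 4) (nat_lit 1044822) (nat_lit 0), mk (.ofNat (nat_lit 174720)) (nat_lit 3) (nat_lit 18215521) (nat_lit 0), mk (.negSucc (nat_lit 8189)) (nat_lit 22) (nat_lit 86) (nat_lit 1), mk (.negSucc (nat_lit 10919)) (nat_lit 22) (nat_lit 101) (nat_lit 1), mk (.ofNat (nat_lit 450498)) (nat_lit 16) (nat_lit 86) (nat_lit 1), mk (.ofNat (nat_lit 378663)) (nat_lit 23) (nat_lit 86) (nat_lit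 1), mk (.negSucc (nat_lit 21839)) (nat_lit 3) (nat_lit 35058001) (nat_lit 0), mk (.ofNat (nat_lit 2730)) (nat_lit 19) (nat_lit 24342) (nat_lit 0), mk (.ofNat (nat_lit 598845)) (nat_lit 9) (nat_lit 1044837) (nat_lit 0), mk (.ofNat (nat_lit 106470)) (nat_lit 4) (nat_lit 1044837) (nat_lit 0), mk (.ofNat (nat_lit 480480)) (nat_lit 7) (nat_lit 86) (nat_lit 2), mk (.ofNat (nat_lit 1397760)) (nat_lit 3) (nat_lit 136546) (nat_lit 0), mk (.ofNat (nat_lit 436800)) (nat_lit 6) (nat_lit 1044822) (nat_lit 0), mk (.negSucc (nat_lit 3727259)) (nat_lit 15) (nat_lit 101) (nat_lit 1), mk (.negSucc (nat_lit 436799)) (nat_lit 17) (nat_lit 86) (nat_lit 1), mk (.negSucc (nat_lit 87359)) (nat_lit 3) (nat_lit 78181) (nat_lit 0), mk (.negSucc (nat_lit 87359)) (nat_lit 17) (nat_lit 61782) (nat_lit 0), mk (.negSucc (nat_lit 425879)) (nat_lit 3) (nat_lit 135781) (nat_lit 0), mk (.negSucc (nat_lit 349439))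 (nat_lit 15) (nat_lit 86) (nat_lit 1), mk (.negSucc (nat_lit 1645229)) (nat_lit 3) (nat_lit 78166) (nat_lit 0), mk (.negSucc (nat_lit 698879)) (nat_lit 15) (nat_lit 61782) (nat_lit 0), mk (.ofNat (nat_lit 3028380)) (nat_lit 6) (nat_lit 1044837) (nat_lit 0), mk (.negSucc (nat_lit 820559)) (nat_lit 3) (nat_lit 135766) (nat_lit 0), mk (.ofNat (nat_lit 148200)) (nat_lit 13) (nat_lit 61782) (nat_lit 0), mk (.ofNat (nat_lit 349440)) (nat_lit 13) (nat_lit 28437) (nat_lit 0), mk (.ofNat (nat_lit 48465)) (nat_lit 20) (nat_lit 86) (nat_lit 1), mk (.negSucc (nat_lit 1604594)) (nat_lit 20) (nat_lit 24342) (nat_lit 0), mk (.ofNat (nat_lit 174720)) (nat_lit 3) (nat_lit 202081) (nat_lit 0), mk (.negSucc (nat_lit 1524119)) (nat_lit 3) (nat_lit 86294) (nat_lit 2), mk (.negSucc (nat_lit 2227229)) (nat_lit 3) (nat_lit 75106) (nat_lit 0), mk (.negSucc (nat_lit 1123589)) (nat_lit 20) (nat_lit 101)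 (nat_lit 1), mk (.ofNat (nat_lit 2508480)) (nat_lit 20) (nat_lit 28437) (nat_lit 0), mk (.negSucc (nat_lit 148199)) (nat_lit 13) (nat_lit 61797) (nat_lit 0), mk (.ofNat (nat_lit 10920)) (nat_lit 13) (nat_lit 24342) (nat_lit 0), mk (.ofNat (nat_lit 924120)) (nat_lit 24) (nat_lit 6) (nat_lit 5), mk (.ofNat (nat_lit 942240)) (nat_lit 25) (nat_lit 6) (nat_lit 5), mk (.ofNat (nat_lit 3827100)) (nat_lit 27) (nat_lit 6) (nat_lit 5), mk (.negSucc (nat_lit 349439)) (nat_lit 31) (nat_lit 6) (nat_lit 5), mk (.negSucc (nat_lit 262079)) (nat_lit 32) (nat_lit 6) (nat_lit 5), mk (.negSucc (nat_lit 141959)) (nat_lit 33) (nat_lit 3941) (nat_lit 0), mk (.ofNat (nat_lit 87360)) (nat_lit 32) (nat_lit 3941) (nat_lit 0), mk (.ofNat (nat_lit 5222880)) (nat_lit 26) (nat_lit 5) (nat_lit 6), mk (.ofNat (nat_lit 3262605)) (nat_lit 26) (nat_lit 6) (nat_lit 5), mk (.ofNat (nat_lit 1148160)) (nat_lit 27) (nat_lit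 5) (nat_lit 6), mk (.negSucc (nat_lit 2106809)) (nat_lit 27) (nat_lit 3941) (nat_lit 0), mk (.ofNat (nat_lit 973440)) (nat_lit 26) (nat_lit 3941) (nat_lit 0), mk (.ofNat (nat_lit 3930300)) (nat_lit 28) (nat_lit 6) (nat_lit 5), mk (.negSucc (nat_lit 1921919)) (nat_lit 29) (nat_lit 6) (nat_lit 5), mk (.negSucc (nat_lit 524159)) (nat_lit 28) (nat_lit 3941) (nat_lit 0), mk (.negSucc (nat_lit 960959)) (nat_lit 30) (nat_lit 3941) (nat_lit 0), mk (.ofNat (nat_lit 764400)) (nat_lit 25) (nat_lit 5) (nat_lit 6), mk (.negSucc (nat_lit 349439)) (nat_lit 31) (nat_lit 5) (nat_lit 6), mk (.negSucc (nat_lit 524159)) (nat_lit 25) (nat_lit 3941) (nat_lit 0), mk (.negSucc (nat_lit 87359)) (nat_lit 31) (nat_lit 3941) (nat_lit 0), mk (.ofNat (nat_lit 4240080)) (nat_lit 29) (nat_lit 3941) (nat_lit 0), mk (.ofNat (nat_lit 4981680)) (nat_lit 33) (nat_lit 5) (nat_lit 6), mk (.ofNat (nat_lit 480480)) (nat_lit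 24) (nat_lit 3941) (nat_lit 0), mk (.ofNat (nat_lit 7573260)) (nat_lit 33) (nat_lit 6) (nat_lit 5), mk (.negSucc (nat_lit 3727259)) (nat_lit 35) (nat_lit 5) (nat_lit 6), mk (.ofNat (nat_lit 989280)) (nat_lit 28) (nat_lit 5) (nat_lit 6), mk (.ofNat (nat_lit 3028380)) (nat_lit 36) (nat_lit 6) (nat_lit 5), mk (.ofNat (nat_lit 1011480)) (nat_lit 24) (nat_lit 5) (nat_lit 6), mk (.ofNat (nat_lit 1397760)) (nat_lit 34) (nat_lit 6) (nat_lit 5), mk (.ofNat (nat_lit 436800)) (nat_lit 36) (nat_lit 5) (nat_lit 6), mk (.negSucc (nat_lit 349439)) (nat_lit 35) (nat_lit 6) (nat_lit 5), mk (.ofNat (nat_lit 43680)) (nat_lit 34) (nat_lit 5) (nat_lit 6), mk (.ofNat (nat_lit 243360)) (nat_lit 30) (nat_lit 6) (nat_lit 5), mk (.negSucc (nat_lit 545999)) (nat_lit 30) (nat_lit 5) (nat_lit 6), mk (.negSucc (nat_lit 1397759)) (nat_lit 29) (nat_lit 5) (nat_lit 6), mk (.negSucc (nat_lit 349439)) (nat_lit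 32) (nat_lit 5) (nat_lit 6), mk (.ofNat (nat_lit 407730)) (nat_lit 3) (nat_lit 279620) (nat_lit 0)]),
  ((.ofNat (nat_lit 144)), p80,
    [mk (.negSucc (nat_lit 8)) (nat_lit 47) (nat_lit 86) (nat_lit 1), mk (.ofNat (nat_lit 18)) (nat_lit 2) (nat_lit 4438) (nat_lit 3), mk (.ofNat (nat_lit 9)) (nat_lit 46) (nat_lit 101) (nat_lit 1), mk (.negSucc (nat_lit 515)) (nat_lit 37) (nat_lit 101) (nat_lit 1), mk (.ofNat (nat_lit 18)) (nat_lit 3) (nat_lit 70501) (nat_lit 0), mk (.ofNat (nat_lit 18)) (nat_lit 3) (nat_lit 70486) (nat_lit 0), mk (.ofNat (nat_lit 9)) (nat_lit 3) (nat_lit 86326) (nat_lit 0), mk (.negSucc (nat_lit 32)) (nat_lit 23) (nat_lit 86) (nat_lit 1), mk (.negSucc (nat_lit 32)) (nat_lit 23) (nat_lit 101) (nat_lit 1), mk (.ofNat (nat_lit 234)) (nat_lit 3) (nat_lit 71011) (nat_lit 0), mk (.ofNat (nat_lit 213)) (nat_lit 3) (nat_lit 78166) (nat_lit 0), mk (.ofNat (nat_lit 213))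 (nat_lit 3) (nat_lit 78181) (nat_lit 0), mk (.ofNat (nat_lit 96)) (nat_lit 3) (nat_lit 75106) (nat_lit 0), mk (.ofNat (nat_lit 9)) (nat_lit 3) (nat_lit 202081) (nat_lit 0), mk (.ofNat (nat_lit 216)) (nat_lit 24) (nat_lit 3941) (nat_lit 0), mk (.negSucc (nat_lit 35)) (nat_lit 33) (nat_lit 3941) (nat_lit 0), mk (.ofNat (nat_lit 933)) (nat_lit 27) (nat_lit 3941) (nat_lit 0), mk (.negSucc (nat_lit 71)) (nat_lit 31) (nat_lit 3941) (nat_lit 0), mk (.negSucc (nat_lit 443)) (nat_lit 27) (nat_lit 5) (nat_lit 6), mk (.negSucc (nat_lit 251)) (nat_lit 24) (nat_lit 5) (nat_lit 6), mk (.negSucc (nat_lit 17)) (nat_lit 31) (nat_lit 5) (nat_lit 6), mk (.negSucc (nat_lit 35)) (nat_lit 32) (nat_lit 5) (nat_lit 6), mk (.negSucc (nat_lit 443)) (nat_lit 27) (nat_lit 6) (nat_lit 5), mk (.negSucc (nat_lit 251)) (nat_lit 24) (nat_lit 6) (nat_lit 5), mk (.negSucc (nat_lit 17)) (nat_lit 31) (nat_lit 6)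 (nat_lit 5), mk (.negSucc (nat_lit 35)) (nat_lit 32) (nat_lit 6) (nat_lit 5), mk (.negSucc (nat_lit 659)) (nat_lit 33) (nat_lit 6) (nat_lit 5), mk (.negSucc (nat_lit 659)) (nat_lit 33) (nat_lit 5) (nat_lit 6), mk (.negSucc (nat_lit 191)) (nat_lit 28) (nat_lit 6) (nat_lit 5), mk (.negSucc (nat_lit 191)) (nat_lit 28) (nat_lit 5) (nat_lit 6), mk (.negSucc (nat_lit 112)) (nat_lit 3) (nat_lit 279620) (nat_lit 0)]),
  ((.ofNat (nat_lit 60)), p81,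
    [mk (.ofNat (nat_lit 3)) (nat_lit 4) (nat_lit 3877) (nat_lit 0), mk (.ofNat (nat_lit 4)) (nat_lit 2) (nat_lit 8741) (nat_lit 0), mk (.ofNat (nat_lit 3)) (nat_lit 3) (nat_lit 135761) (nat_lit 0), mk (.negSucc (nat_lit 20)) (nat_lit 5) (nat_lit 3877) (nat_lit 0), mk (.negSucc (nat_lit 11)) (nat_lit 41) (nat_lit 3861) (nat_lit 0), mk (.ofNat (nat_lit 24)) (nat_lit 39) (nat_lit 5) (nat_lit 1), mk (.ofNat (nat_lit 84)) (nat_lit 40) (nat_lit 5) (nat_lit 1)]),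
  ((.ofNat (nat_lit 1)), p82,
    [mk (.ofNat (nat_lit 1)) (nat_lit 39) (nat_lit 3861) (nat_lit 0)]),
  ((.ofNat (nat_lit 1)), p83,
    [mk (.ofNat (nat_lit 1)) (nat_lit 11) (nat_lit 3861) (nat_lit 0)]),
  ((.ofNat (nat_lit 672)), p84,
    [mk (.negSucc (nat_lit 167)) (nat_lit 3) (nat_lit 17953381) (nat_lit 0), mk (.ofNat (nat_lit 168)) (nat_lit 14) (nat_lit 28437) (nat_lit 0), mk (.ofNat (nat_lit 84)) (nat_lit 45) (nat_lit 28437) (nat_lit 0), mk (.negSucc (nat_lit 767)) (nat_lit 3) (nat_lit 74070) (nat_lit 1), mk (.negSucc (nat_lit 215)) (nat_lit 14) (nat_lit 24342) (nat_lit 0), mk (.ofNat (nat_lit 84)) (nat_lit 45) (nat_lit 24342) (nat_lit 0), mk (.negSucc (nat_lit 335)) (nat_lit 3) (nat_lit 18968341) (nat_lit 0), mk (.negSucc (nat_lit 167)) (nat_lit 3) (nat_lit 18215521) (nat_lit 0), mk (.ofNat (nat_lit 168)) (nat_lit 3) (nat_lit 17915686) (nat_lit 0), mk (.ofNat (nat_lit 252))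 (nat_lit 9) (nat_lit 1044822) (nat_lit 0), mk (.ofNat (nat_lit 21)) (nat_lit 22) (nat_lit 101) (nat_lit 1), mk (.negSucc (nat_lit 71)) (nat_lit 23) (nat_lit 86) (nat_lit 1), mk (.ofNat (nat_lit 1728)) (nat_lit 3) (nat_lit 71011) (nat_lit 0), mk (.negSucc (nat_lit 383)) (nat_lit 10) (nat_lit 22) (nat_lit 81), mk (.negSucc (nat_lit 767)) (nat_lit 3) (nat_lit 18964246) (nat_lit 0), mk (.ofNat (nat_lit 336)) (nat_lit 7) (nat_lit 62053) (nat_lit 0), mk (.negSucc (nat_lit 503)) (nat_lit 16) (nat_lit 101) (nat_lit 1), mk (.negSucc (nat_lit 95)) (nat_lit 23) (nat_lit 101) (nat_lit 1), mk (.ofNat (nat_lit 768)) (nat_lit 3) (nat_lit 17919781) (nat_lit 0), mk (.ofNat (nat_lit 252)) (nat_lit 9) (nat_lit 1044837) (nat_lit 0), mk (.ofNat (nat_lit 672)) (nat_lit 6) (nat_lit 1044822) (nat_lit 0), mk (.ofNat (nat_lit 768)) (nat_lit 3) (nat_lit 78181) (nat_lit 0), mk (.ofNat (nat_lit 768)) (nat_lit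 15) (nat_lit 86) (nat_lit 1), mk (.negSucc (nat_lit 1535)) (nat_lit 15) (nat_lit 101) (nat_lit 1), mk (.ofNat (nat_lit 21)) (nat_lit 45) (nat_lit 86) (nat_lit 1), mk (.ofNat (nat_lit 1536)) (nat_lit 6) (nat_lit 1044837) (nat_lit 0), mk (.ofNat (nat_lit 56)) (nat_lit 3) (nat_lit 22093606) (nat_lit 0), mk (.negSucc (nat_lit 671)) (nat_lit 3) (nat_lit 86294) (nat_lit 2), mk (.negSucc (nat_lit 167)) (nat_lit 20) (nat_lit 101) (nat_lit 1), mk (.ofNat (nat_lit 2688)) (nat_lit 20) (nat_lit 28437) (nat_lit 0), mk (.ofNat (nat_lit 288)) (nat_lit 21) (nat_lit 86) (nat_lit 1), mk (.ofNat (nat_lit 600)) (nat_lit 20) (nat_lit 86) (nat_lit 1), mk (.ofNat (nat_lit 120)) (nat_lit 3) (nat_lit 75106) (nat_lit 0), mk (.ofNat (nat_lit 768)) (nat_lit 20) (nat_lit 24342) (nat_lit 0), mk (.negSucc (nat_lit 1919)) (nat_lit 33) (nat_lit 5) (nat_lit 6), mk (.ofNat (nat_lit 2688)) (nat_lit 26) (nat_lit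 5) (nat_lit 6), mk (.ofNat (nat_lit 1536)) (nat_lit 35) (nat_lit 3941) (nat_lit 0), mk (.negSucc (nat_lit 1055)) (nat_lit 33) (nat_lit 6) (nat_lit 5), mk (.ofNat (nat_lit 768)) (nat_lit 26) (nat_lit 6) (nat_lit 5), mk (.ofNat (nat_lit 672)) (nat_lit 36) (nat_lit 5) (nat_lit 6), mk (.ofNat (nat_lit 336)) (nat_lit 31) (nat_lit 6) (nat_lit 5), mk (.negSucc (nat_lit 575)) (nat_lit 28) (nat_lit 6) (nat_lit 5), mk (.negSucc (nat_lit 1535)) (nat_lit 24) (nat_lit 3941) (nat_lit 0), mk (.negSucc (nat_lit 1727)) (nat_lit 24) (nat_lit 6) (nat_lit 5), mk (.negSucc (nat_lit 1727)) (nat_lit 24) (nat_lit 5) (nat_lit 6), mk (.ofNat (nat_lit 1536)) (nat_lit 36) (nat_lit 6) (nat_lit 5), mk (.negSucc (nat_lit 1535)) (nat_lit 35) (nat_lit 5) (nat_lit 6), mk (.negSucc (nat_lit 1775)) (nat_lit 28) (nat_lit 5) (nat_lit 6), mk (.negSucc (nat_lit 1535)) (nat_lit 27) (nat_lit 5) (nat_lit 6), mk (.negSucc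 (nat_lit 615)) (nat_lit 3) (nat_lit 279620) (nat_lit 0)]),
  ((.ofNat (nat_lit 48)), p85,
    [mk (.ofNat (nat_lit 4)) (nat_lit 2) (nat_lit 2240277) (nat_lit 0), mk (.ofNat (nat_lit 24)) (nat_lit 41) (nat_lit 5) (nat_lit 2), mk (.ofNat (nat_lit 12)) (nat_lit 44) (nat_lit 5) (nat_lit 2), mk (.ofNat (nat_lit 1)) (nat_lit 3) (nat_lit 279620) (nat_lit 0)]),
  ((.ofNat (nat_lit 6)), p86,
    [mk (.ofNat (nat_lit 3)) (nat_lit 3) (nat_lit 82277) (nat_lit 0), mk (.negSucc (nat_lit 5)) (nat_lit 26) (nat_lit 5) (nat_lit 22), mk (.negSucc (nat_lit 5)) (nat_lit 26) (nat_lit 5) (nat_lit 97), mk (.negSucc (nat_lit 5)) (nat_lit 27) (nat_lit 3941) (nat_lit 1), mk (.negSucc (nat_lit 0)) (nat_lit 3) (nat_lit 279620) (nat_lit 0)]),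
  ((.ofNat (nat_lit 2340)), p87,
    [mk (.ofNat (nat_lit 37440)) (nat_lit 2) (nat_lit 1138486) (nat_lit 0), mk (.negSucc (nat_lit 93599)) (nat_lit 3) (nat_lit 23146261) (nat_lit 0), mk (.ofNat (nat_lit 93600)) (nat_lit 3) (nat_lit 22097686) (nat_lit 0), mk (.negSucc (nat_lit 93599)) (nat_lit 3) (nat_lit 136545) (nat_lit 1), mk (.negSucc (nat_lit 11114)) (nat_lit 22) (nat_lit 61782) (nat_lit 0), mk (.negSucc (nat_lit 93599)) (nat_lit 3) (nat_lit 71009) (nat_lit 2), mk (.negSucc (nat_lit 224639)) (nat_lit 3) (nat_lit 74326) (nat_lit 0), mk (.ofNat (nat_lit 11115)) (nat_lit 22) (nat_lit 61797) (nat_lit 0), mk (.negSucc (nat_lit 1169)) (nat_lit 22) (nat_lit 24342) (nat_lit 0), mk (.negSucc (nat_lit 37439)) (nat_lit 3) (nat_lit 70501) (nat_lit 0), mk (.negSucc (nat_lit 155999)) (nat_lit 3) (nat_lit 86326) (nat_lit 0), mk (.negSucc (nat_lit 299519)) (nat_lit 18) (nat_lit 28437) (nat_lit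 0), mk (.ofNat (nat_lit 187200)) (nat_lit 3) (nat_lit 69989) (nat_lit 2), mk (.ofNat (nat_lit 1022505)) (nat_lit 14) (nat_lit 101) (nat_lit 1), mk (.negSucc (nat_lit 782729)) (nat_lit 14) (nat_lit 28437) (nat_lit 0), mk (.ofNat (nat_lit 295935)) (nat_lit 14) (nat_lit 24342) (nat_lit 0), mk (.ofNat (nat_lit 93600)) (nat_lit 3) (nat_lit 18968341) (nat_lit 0), mk (.negSucc (nat_lit 2082449)) (nat_lit 3) (nat_lit 17919781) (nat_lit 0), mk (.negSucc (nat_lit 131039)) (nat_lit 7) (nat_lit 101) (nat_lit 2), mk (.ofNat (nat_lit 18720)) (nat_lit 3) (nat_lit 18281041) (nat_lit 0), mk (.negSucc (nat_lit 561599)) (nat_lit 3) (nat_lit 136546) (nat_lit 0), mk (.negSucc (nat_lit 12479)) (nat_lit 2) (nat_lit 287306326) (nat_lit 0), mk (.ofNat (nat_lit 886392)) (nat_lit 16) (nat_lit 101) (nat_lit 1), mk (.negSucc (nat_lit 163187)) (nat_lit 23) (nat_lit 101) (nat_lit 1), mk (.negSucc (nat_lit 36269))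 (nat_lit 19) (nat_lit 28437) (nat_lit 0), mk (.negSucc (nat_lit 337154)) (nat_lit 9) (nat_lit 1044822) (nat_lit 0), mk (.negSucc (nat_lit 94769)) (nat_lit 4) (nat_lit 1044822) (nat_lit 0), mk (.ofNat (nat_lit 290160)) (nat_lit 3) (nat_lit 34992481) (nat_lit 0), mk (.negSucc (nat_lit 141719)) (nat_lit 3) (nat_lit 71011) (nat_lit 0), mk (.ofNat (nat_lit 1988850)) (nat_lit 3) (nat_lit 18964246) (nat_lit 0), mk (.negSucc (nat_lit 1169)) (nat_lit 22) (nat_lit 86) (nat_lit 1), mk (.negSucc (nat_lit 325637)) (nat_lit 16) (nat_lit 86) (nat_lit 1), mk (.negSucc (nat_lit 352712)) (nat_lit 23) (nat_lit 86) (nat_lit 1), mk (.negSucc (nat_lit 196559)) (nat_lit 7) (nat_lit 86) (nat_lit 2), mk (.negSucc (nat_lit 360554)) (nat_lit 9) (nat_lit 1044837) (nat_lit 0), mk (.negSucc (nat_lit 39779)) (nat_lit 4) (nat_lit 1044837) (nat_lit 0), mk (.ofNat (nat_lit 37440)) (nat_lit 17) (nat_lit 61782)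 (nat_lit 0), mk (.ofNat (nat_lit 187200)) (nat_lit 17) (nat_lit 86) (nat_lit 1), mk (.ofNat (nat_lit 4127460)) (nat_lit 15) (nat_lit 101) (nat_lit 1), mk (.negSucc (nat_lit 187199)) (nat_lit 6) (nat_lit 1044822) (nat_lit 0), mk (.ofNat (nat_lit 193440)) (nat_lit 3) (nat_lit 78181) (nat_lit 0), mk (.ofNat (nat_lit 159120)) (nat_lit 3) (nat_lit 135781) (nat_lit 0), mk (.ofNat (nat_lit 2201010)) (nat_lit 3) (nat_lit 78166) (nat_lit 0), mk (.ofNat (nat_lit 299520)) (nat_lit 15) (nat_lit 61782) (nat_lit 0), mk (.negSucc (nat_lit 3977699)) (nat_lit 6) (nat_lit 1044837) (nat_lit 0), mk (.ofNat (nat_lit 379080)) (nat_lit 3) (nat_lit 135766) (nat_lit 0), mk (.ofNat (nat_lit 1848810)) (nat_lit 3) (nat_lit 75106) (nat_lit 0), mk (.negSucc (nat_lit 88919)) (nat_lit 13) (nat_lit 61782) (nat_lit 0), mk (.negSucc (nat_lit 145079)) (nat_lit 13) (nat_lit 28437) (nat_lit 0), mk (.negSucc (nat_lit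 342734)) (nat_lit 20) (nat_lit 86) (nat_lit 1), mk (.ofNat (nat_lit 680565)) (nat_lit 20) (nat_lit 24342) (nat_lit 0), mk (.ofNat (nat_lit 18720)) (nat_lit 3) (nat_lit 202081) (nat_lit 0), mk (.ofNat (nat_lit 899080)) (nat_lit 3) (nat_lit 86294) (nat_lit 2), mk (.ofNat (nat_lit 829530)) (nat_lit 20) (nat_lit 101) (nat_lit 1), mk (.negSucc (nat_lit 4431959)) (nat_lit 20) (nat_lit 28437) (nat_lit 0), mk (.ofNat (nat_lit 88920)) (nat_lit 13) (nat_lit 61797) (nat_lit 0), mk (.ofNat (nat_lit 216600)) (nat_lit 24) (nat_lit 6) (nat_lit 5), mk (.negSucc (nat_lit 496079)) (nat_lit 25) (nat_lit 6) (nat_lit 5), mk (.negSucc (nat_lit 3369599)) (nat_lit 26) (nat_lit 5) (nat_lit 6), mk (.negSucc (nat_lit 4177379)) (nat_lit 27) (nat_lit 6) (nat_lit 5), mk (.negSucc (nat_lit 3472979)) (nat_lit 28) (nat_lit 6) (nat_lit 5), mk (.ofNat (nat_lit 786240)) (nat_lit 29) (nat_lit 6) (nat_lit 5), mk (.ofNat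 (nat_lit 224640)) (nat_lit 28) (nat_lit 3941) (nat_lit 0), mk (.ofNat (nat_lit 224640)) (nat_lit 30) (nat_lit 3941) (nat_lit 0), mk (.ofNat (nat_lit 680565)) (nat_lit 26) (nat_lit 6) (nat_lit 5), mk (.negSucc (nat_lit 349439)) (nat_lit 27) (nat_lit 5) (nat_lit 6), mk (.ofNat (nat_lit 179160)) (nat_lit 24) (nat_lit 5) (nat_lit 6), mk (.ofNat (nat_lit 23400)) (nat_lit 33) (nat_lit 3941) (nat_lit 0), mk (.ofNat (nat_lit 37440)) (nat_lit 32) (nat_lit 3941) (nat_lit 0), mk (.negSucc (nat_lit 3263759)) (nat_lit 33) (nat_lit 5) (nat_lit 6), mk (.negSucc (nat_lit 374399)) (nat_lit 34) (nat_lit 3941) (nat_lit 0), mk (.negSucc (nat_lit 680159)) (nat_lit 24) (nat_lit 3941) (nat_lit 0), mk (.ofNat (nat_lit 4102890)) (nat_lit 27) (nat_lit 3941) (nat_lit 0), mk (.negSucc (nat_lit 7054259)) (nat_lit 33) (nat_lit 6) (nat_lit 5), mk (.negSucc (nat_lit 187199)) (nat_lit 36) (nat_lit 5) (nat_lit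 6), mk (.ofNat (nat_lit 4127460)) (nat_lit 35) (nat_lit 5) (nat_lit 6), mk (.ofNat (nat_lit 467280)) (nat_lit 28) (nat_lit 5) (nat_lit 6), mk (.negSucc (nat_lit 196559)) (nat_lit 30) (nat_lit 6) (nat_lit 5), mk (.ofNat (nat_lit 243360)) (nat_lit 30) (nat_lit 5) (nat_lit 6), mk (.ofNat (nat_lit 561600)) (nat_lit 29) (nat_lit 5) (nat_lit 6), mk (.negSucc (nat_lit 580319)) (nat_lit 34) (nat_lit 6) (nat_lit 5), mk (.negSucc (nat_lit 3977699)) (nat_lit 36) (nat_lit 6) (nat_lit 5), mk (.negSucc (nat_lit 318239)) (nat_lit 25) (nat_lit 5) (nat_lit 6), mk (.negSucc (nat_lit 1076399)) (nat_lit 29) (nat_lit 3941) (nat_lit 0), mk (.negSucc (nat_lit 37439)) (nat_lit 32) (nat_lit 6) (nat_lit 5), mk (.negSucc (nat_lit 388069)) (nat_lit 3) (nat_lit 279620) (nat_lit 0)]),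
  ((.ofNat (nat_lit 1)), p88,
    [mk (.ofNat (nat_lit 1)) (nat_lit 20) (nat_lit 6287713) (nat_lit 0), mk (.negSucc (nat_lit 3)) (nat_lit 34) (nat_lit 6) (nat_lit 81)])]

theorem okL3 : jobs3.all (checkJ ids3) = true := by decide +kernel

def ids4 : List (List (Int × T)) := [pa4, g5, p2, p3, p4, p5, p6, p7, p8, p9, p10, p11, p12, p13, p14, p15, p16, p17, p18, p19, p20, p21, p22, p23, p24, p25, p26, p27, p28, p29, p30, p31, p32, p33, p34, p35, p36, p37, p38, p39, p40, p41, p42, p43, p44, p45, p46, p47, p48, p49, p50, p51, p52, p53, p54, p55, p56, p57, p58, p59, p60, p61, p62, p63, p64, p65, p66, p67, p68, p69, p70, p71, p72, p73, p74, p75, p76, p77, p78, p79, p80, p81, p82, p83, p84, p85, p86, p87, p88]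

def p89 : List (Int × T) :=
  [((.ofNat (nat_lit 1)), .m v2 (.m v5 (.m v6 v4)))]

def p90 : List (Int × T) :=
  [((.ofNat (nat_lit 1)), .m (.m v5 v3) (.m v6 v4))]

def p91 : List (Int × T) :=
  [((.ofNat (nat_lit 1)), .m v3 (.m v5 (.m v6 v4)))]

def p92 : List (Int × T) :=
  [((.ofNat (nat_lit 1)), .m v4 (.m v5 (.m v6 v3)))]

def p93 : List (Int × T) :=
  [((.ofNat (nat_lit 1)), .m v2 (.m v1 (.m v5 (.m v6 v3))))]

def p94 : List (Int × T) :=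
  [((.ofNat (nat_lit 1)), .m (.m v5 v3) (.m v6 v3))]

def p95 : List (Int × T) :=
  [((.ofNat (nat_lit 1)), .m v3 (.m v5 (.m v1 (.m v6 v3))))]

def p96 : List (Int × T) :=
  [((.ofNat (nat_lit 1)), .m v3 (.m v5 (.m v6 v3)))]

def p97 : List (Int × T) :=
  [((.ofNat (nat_lit 1)), .m v3 (.m v5 (.m v6 v3)))]

def p98 : List (Int × T) :=
  [((.ofNat (nat_lit 1)), .m v2 (.m v5 (.m v6 v4)))]

def p99 : List (Int × T) :=
  [((.ofNat (nat_lit 1)), .m v2 (.m (.m v5 v3) (.m v1 (.m v6 v1))))]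

def p100 : List (Int × T) :=
  [((.ofNat (nat_lit 1)), .m v3 (.m v5 (.m v2 (.m v6 v1))))]

def p101 : List (Int × T) :=
  [((.ofNat (nat_lit 1)), .m v3 (.m (.m v5 v1) (.m v6 v2)))]

def p102 : List (Int × T) :=
  [((.ofNat (nat_lit 1)), .m v3 (.m v5 (.m v2 (.m v6 v2))))]

def p103 : List (Int × T) :=
  [((.ofNat (nat_lit 1)), .m v3 (.m (.m v5 v2) (.m v6 v2)))]

def p104 : List (Int × T) :=
  [((.ofNat (nat_lit 1)), .m v1 (.m v3 (.m v5 (.m v1 (.m v6 v1)))))]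

def p105 : List (Int × T) :=
  [((.ofNat (nat_lit 1)), .m v1 (.m v3 (.m v5 (.m v6 v2))))]

def p106 : List (Int × T) :=
  [((.ofNat (nat_lit 1)), .m v2 (.m v5 (.m v1 (.m v6 v3))))]

def p107 : List (Int × T) :=
  [((.ofNat (nat_lit 1)), .m (.m v5 v3) (.m v1 (.m v6 v2)))]

def p108 : List (Int × T) :=
  [((.ofNat (nat_lit 1)), .m (.m v5 v2) (.m v1 (.m v6 v3)))]

def p109 : List (Int × T) :=
  [((.ofNat (nat_lit 1)), .m v2 (.m v5 (.m v3 (.m v6 v1))))]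

def p110 : List (Int × T) :=
  [((.ofNat (nat_lit 1)), .m v1 (.m (.m v5 v1) (.m v6 v4)))]

def p111 : List (Int × T) :=
  [((.ofNat (nat_lit 1)), .m v2 (.m v1 (.m v1 (.m v5 (.m v1 (.m v6 v1))))))]

def p112 : List (Int × T) :=
  [((.ofNat (nat_lit 1)), .m v2 (.m v1 (.m v1 (.m v5 (.m v6 v2)))))]

def p113 : List (Int × T) :=
  [((.ofNat (nat_lit 1)), .m v3 (.m v1 (.m v5 (.m v6 v2))))]

/-- certificates of level 4 -/
def jobs4 : List Job := [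
  ((.ofNat (nat_lit 12)), p89,
    [mk (.ofNat (nat_lit 3)) (nat_lit 2) (nat_lit 1138502) (nat_lit 0), mk (.ofNat (nat_lit 3)) (nat_lit 20) (nat_lit 28453) (nat_lit 0), mk (.ofNat (nat_lit 6)) (nat_lit 20) (nat_lit 7336273) (nat_lit 0), mk (.ofNat (nat_lit 6)) (nat_lit 50) (nat_lit 28437) (nat_lit 0), mk (.ofNat (nat_lit 3)) (nat_lit 3) (nat_lit 82277) (nat_lit 0), mk (.negSucc (nat_lit 23)) (nat_lit 27) (nat_lit 6) (nat_lit 3861), mk (.ofNat (nat_lit 6)) (nat_lit 27) (nat_lit 6) (nat_lit 21), mk (.ofNat (nat_lit 3)) (nat_lit 59) (nat_lit 6) (nat_lit 5), mk (.ofNat (nat_lit 6)) (nat_lit 27) (nat_lit 6) (nat_lit 81), mk (.negSucc (nat_lit 11)) (nat_lit 30) (nat_lit 5) (nat_lit 97), mk (.negSucc (nat_lit 23)) (nat_lit 34) (nat_lit 5) (nat_lit 97), mk (.negSucc (nat_lit 11)) (nat_lit 26) (nat_lit 5) (nat_lit 97), mk (.negSucc (nat_lit 5)) (nat_lit 26) (nat_lit 5) (nat_lit 22), mk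 (.negSucc (nat_lit 5)) (nat_lit 27) (nat_lit 3941) (nat_lit 1), mk (.negSucc (nat_lit 0)) (nat_lit 3) (nat_lit 279620) (nat_lit 0)]),
  ((.ofNat (nat_lit 1)), p90,
    [mk (.ofNat (nat_lit 1)) (nat_lit 20) (nat_lit 28469) (nat_lit 0), mk (.negSucc (nat_lit 3)) (nat_lit 58) (nat_lit 5) (nat_lit 97)]),
  ((.ofNat (nat_lit 114)), p91,
    [mk (.negSucc (nat_lit 5)) (nat_lit 53) (nat_lit 24358) (nat_lit 0), mk (.ofNat (nat_lit 114)) (nat_lit 3) (nat_lit 140118) (nat_lit 0), mk (.ofNat (nat_lit 468)) (nat_lit 13) (nat_lit 6287969) (nat_lit 0), mk (.ofNat (nat_lit 114)) (nat_lit 31) (nat_lit 6) (nat_lit 3877), mk (.ofNat (nat_lit 480)) (nat_lit 31) (nat_lit 6) (nat_lit 82), mk (.negSucc (nat_lit 2015)) (nat_lit 54) (nat_lit 6) (nat_lit 3861), mk (.negSucc (nat_lit 119)) (nat_lit 54) (nat_lit 6) (nat_lit 81), mk (.negSucc (nat_lit 113)) (nat_lit 25) (nat_lit 6) (nat_lit 37), mk (.negSucc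 (nat_lit 113)) (nat_lit 55) (nat_lit 6) (nat_lit 5), mk (.negSucc (nat_lit 113)) (nat_lit 56) (nat_lit 6) (nat_lit 5), mk (.negSucc (nat_lit 113)) (nat_lit 25) (nat_lit 6) (nat_lit 82), mk (.negSucc (nat_lit 113)) (nat_lit 25) (nat_lit 1045078) (nat_lit 0), mk (.negSucc (nat_lit 113)) (nat_lit 31) (nat_lit 3941) (nat_lit 2), mk (.negSucc (nat_lit 113)) (nat_lit 31) (nat_lit 1045078) (nat_lit 0), mk (.negSucc (nat_lit 113)) (nat_lit 56) (nat_lit 3941) (nat_lit 0), mk (.negSucc (nat_lit 1871)) (nat_lit 57) (nat_lit 6) (nat_lit 3861), mk (.negSucc (nat_lit 18)) (nat_lit 3) (nat_lit 279620) (nat_lit 0)]),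
  ((.ofNat (nat_lit 1)), p92,
    [mk (.ofNat (nat_lit 1)) (nat_lit 13) (nat_lit 24374) (nat_lit 0), mk (.negSucc (nat_lit 3)) (nat_lit 58) (nat_lit 6) (nat_lit 3861)]),
  ((.ofNat (nat_lit 96)), p93,
    [mk (.ofNat (nat_lit 96)) (nat_lit 3) (nat_lit 78437) (nat_lit 0), mk (.ofNat (nat_lit 192)) (nat_lit 3) (nat_lit 34762517) (nat_lit 0), mk (.ofNat (nat_lit 1)) (nat_lit 49) (nat_lit 86) (nat_lit 1), mk (.negSucc (nat_lit 95)) (nat_lit 21) (nat_lit 101) (nat_lit 2), mk (.ofNat (nat_lit 10)) (nat_lit 48) (nat_lit 28437) (nat_lit 0), mk (.ofNat (nat_lit 240)) (nat_lit 13) (nat_lit 7336273) (nat_lit 0), mk (.negSucc (nat_lit 23)) (nat_lit 19) (nat_lit 86) (nat_lit 2), mk (.negSucc (nat_lit 11)) (nat_lit 3) (nat_lit 82277) (nat_lit 0), mk (.negSucc (nat_lit 444)) (nat_lit 50) (nat_lit 28437) (nat_lit 0), mk (.negSucc (nat_lit 95)) (nat_lit 31) (nat_lit 5) (nat_lit 22), mk (.negSucc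 (nat_lit 95)) (nat_lit 59) (nat_lit 5) (nat_lit 6), mk (.negSucc (nat_lit 479)) (nat_lit 61) (nat_lit 5) (nat_lit 6), mk (.negSucc (nat_lit 95)) (nat_lit 31) (nat_lit 5) (nat_lit 97), mk (.negSucc (nat_lit 95)) (nat_lit 25) (nat_lit 3941) (nat_lit 1), mk (.ofNat (nat_lit 96)) (nat_lit 58) (nat_lit 3941) (nat_lit 0), mk (.negSucc (nat_lit 383)) (nat_lit 62) (nat_lit 5) (nat_lit 6), mk (.negSucc (nat_lit 383)) (nat_lit 29) (nat_lit 1044822) (nat_lit 0), mk (.negSucc (nat_lit 75)) (nat_lit 24) (nat_lit 1044822) (nat_lit 0), mk (.ofNat (nat_lit 124)) (nat_lit 27) (nat_lit 1044837) (nat_lit 0), mk (.negSucc (nat_lit 759)) (nat_lit 33) (nat_lit 5) (nat_lit 97), mk (.negSucc (nat_lit 2129)) (nat_lit 26) (nat_lit 5) (nat_lit 3862), mk (.negSucc (nat_lit 410)) (nat_lit 26) (nat_lit 5) (nat_lit 97), mk (.negSucc (nat_lit 959)) (nat_lit 34) (nat_lit 5) (nat_lit 3862), mk (.negSucc (nat_lit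 479)) (nat_lit 61) (nat_lit 3941) (nat_lit 0), mk (.ofNat (nat_lit 120)) (nat_lit 59) (nat_lit 3941) (nat_lit 0), mk (.ofNat (nat_lit 24)) (nat_lit 26) (nat_lit 5) (nat_lit 22), mk (.ofNat (nat_lit 24)) (nat_lit 27) (nat_lit 3941) (nat_lit 1), mk (.negSucc (nat_lit 11)) (nat_lit 3) (nat_lit 279620) (nat_lit 0)]),
  ((.ofNat (nat_lit 456)), p94,
    [mk (.negSucc (nat_lit 5)) (nat_lit 51) (nat_lit 101) (nat_lit 1), mk (.negSucc (nat_lit 5)) (nat_lit 51) (nat_lit 28437) (nat_lit 0), mk (.ofNat (nat_lit 7)) (nat_lit 49) (nat_lit 101) (nat_lit 1), mk (.ofNat (nat_lit 228)) (nat_lit 3) (nat_lit 18215777) (nat_lit 0), mk (.ofNat (nat_lit 14)) (nat_lit 48) (nat_lit 28437) (nat_lit 0), mk (.ofNat (nat_lit 114)) (nat_lit 13) (nat_lit 7336273) (nat_lit 0), mk (.negSucc (nat_lit 474)) (nat_lit 50) (nat_lit 24342) (nat_lit 0), mk (.ofNat (nat_lit 646)) (nat_lit 27) (nat_lit 1044822) (nat_lit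 0), mk (.negSucc (nat_lit 341)) (nat_lit 26) (nat_lit 5) (nat_lit 3862), mk (.negSucc (nat_lit 1063)) (nat_lit 26) (nat_lit 5) (nat_lit 97), mk (.negSucc (nat_lit 531)) (nat_lit 24) (nat_lit 1044837) (nat_lit 0), mk (.negSucc (nat_lit 455)) (nat_lit 24) (nat_lit 6) (nat_lit 21), mk (.negSucc (nat_lit 455)) (nat_lit 52) (nat_lit 6) (nat_lit 5), mk (.negSucc (nat_lit 455)) (nat_lit 24) (nat_lit 6) (nat_lit 81), mk (.negSucc (nat_lit 1063)) (nat_lit 33) (nat_lit 5) (nat_lit 97), mk (.negSucc (nat_lit 455)) (nat_lit 34) (nat_lit 5) (nat_lit 3862), mk (.ofNat (nat_lit 475)) (nat_lit 26) (nat_lit 6) (nat_lit 81)]),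
  ((.ofNat (nat_lit 114)), p95,
    [mk (.ofNat (nat_lit 6)) (nat_lit 53) (nat_lit 24358) (nat_lit 0), mk (.negSucc (nat_lit 113)) (nat_lit 3) (nat_lit 140118) (nat_lit 0), mk (.ofNat (nat_lit 57)) (nat_lit 3) (nat_lit 201558) (nat_lit 0), mk (.negSucc (nat_lit 467)) (nat_lit 13) (nat_lit 6287969) (nat_lit 0), mk (.negSucc (nat_lit 113)) (nat_lit 31) (nat_lit 6) (nat_lit 3877), mk (.negSucc (nat_lit 479)) (nat_lit 31) (nat_lit 6) (nat_lit 82), mk (.ofNat (nat_lit 2016)) (nat_lit 54) (nat_lit 6) (nat_lit 3861), mk (.ofNat (nat_lit 120)) (nat_lit 54) (nat_lit 6) (nat_lit 81), mk (.ofNat (nat_lit 114)) (nat_lit 25) (nat_lit 6) (nat_lit 37), mk (.ofNat (nat_lit 114)) (nat_lit 56) (nat_lit 6) (nat_lit 5), mk (.ofNat (nat_lit 114)) (nat_lit 25) (nat_lit 6) (nat_lit 82), mk (.ofNat (nat_lit 114)) (nat_lit 25) (nat_lit 1045078) (nat_lit 0), mk (.ofNat (nat_lit 114)) (nat_lit 31) (nat_lit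 3941) (nat_lit 2), mk (.ofNat (nat_lit 114)) (nat_lit 31) (nat_lit 1045078) (nat_lit 0), mk (.ofNat (nat_lit 114)) (nat_lit 56) (nat_lit 3941) (nat_lit 0), mk (.negSucc (nat_lit 113)) (nat_lit 68) (nat_lit 6) (nat_lit 5), mk (.negSucc (nat_lit 113)) (nat_lit 52) (nat_lit 1044822) (nat_lit 0), mk (.negSucc (nat_lit 113)) (nat_lit 69) (nat_lit 3941) (nat_lit 0), mk (.ofNat (nat_lit 1872)) (nat_lit 57) (nat_lit 6) (nat_lit 3861), mk (.ofNat (nat_lit 19)) (nat_lit 3) (nat_lit 279620) (nat_lit 0)]),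
  ((.ofNat (nat_lit 96)), p96,
    [mk (.ofNat (nat_lit 384)) (nat_lit 3) (nat_lit 78437) (nat_lit 0), mk (.negSucc (nat_lit 31)) (nat_lit 2) (nat_lit 287306597) (nat_lit 0), mk (.ofNat (nat_lit 768)) (nat_lit 3) (nat_lit 34762517) (nat_lit 0), mk (.ofNat (nat_lit 5)) (nat_lit 49) (nat_lit 86) (nat_lit 1), mk (.negSucc (nat_lit 383)) (nat_lit 21) (nat_lit 101) (nat_lit 2), mk (.ofNat (nat_lit 40)) (nat_lit 48) (nat_lit 28437) (nat_lit 0), mk (.negSucc (nat_lit 95)) (nat_lit 3) (nat_lit 17915702) (nat_lit 0), mk (.ofNat (nat_lit 960)) (nat_lit 13) (nat_lit 7336273) (nat_lit 0), mk (.negSucc (nat_lit 95)) (nat_lit 19) (nat_lit 86) (nat_lit 2), mk (.negSucc (nat_lit 2224)) (nat_lit 50) (nat_lit 28437) (nat_lit 0), mk (.negSucc (nat_lit 59)) (nat_lit 3) (nat_lit 82277) (nat_lit 0), mk (.ofNat (nat_lit 96)) (nat_lit 3) (nat_lit 20016917) (nat_lit 0), mk (.negSucc (nat_lit 383)) (nat_lit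 31) (nat_lit 5) (nat_lit 22), mk (.negSucc (nat_lit 383)) (nat_lit 59) (nat_lit 5) (nat_lit 6), mk (.negSucc (nat_lit 1919)) (nat_lit 61) (nat_lit 5) (nat_lit 6), mk (.negSucc (nat_lit 383)) (nat_lit 31) (nat_lit 5) (nat_lit 97), mk (.negSucc (nat_lit 383)) (nat_lit 25) (nat_lit 3941) (nat_lit 1), mk (.ofNat (nat_lit 384)) (nat_lit 58) (nat_lit 3941) (nat_lit 0), mk (.negSucc (nat_lit 1535)) (nat_lit 62) (nat_lit 5) (nat_lit 6), mk (.negSucc (nat_lit 1535)) (nat_lit 29) (nat_lit 1044822) (nat_lit 0), mk (.negSucc (nat_lit 571)) (nat_lit 24) (nat_lit 1044822) (nat_lit 0), mk (.ofNat (nat_lit 620)) (nat_lit 27) (nat_lit 1044837) (nat_lit 0), mk (.negSucc (nat_lit 3039)) (nat_lit 33) (nat_lit 5) (nat_lit 97), mk (.negSucc (nat_lit 8519)) (nat_lit 26) (nat_lit 5) (nat_lit 3862), mk (.negSucc (nat_lit 1366)) (nat_lit 26) (nat_lit 5) (nat_lit 97), mk (.ofNat (nat_lit 192)) (nat_lit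 24) (nat_lit 6) (nat_lit 21), mk (.ofNat (nat_lit 192)) (nat_lit 25) (nat_lit 6) (nat_lit 21), mk (.ofNat (nat_lit 192)) (nat_lit 24) (nat_lit 6) (nat_lit 81), mk (.ofNat (nat_lit 192)) (nat_lit 25) (nat_lit 6) (nat_lit 81), mk (.negSucc (nat_lit 3839)) (nat_lit 34) (nat_lit 5) (nat_lit 3862), mk (.negSucc (nat_lit 1919)) (nat_lit 61) (nat_lit 3941) (nat_lit 0), mk (.ofNat (nat_lit 480)) (nat_lit 59) (nat_lit 3941) (nat_lit 0), mk (.negSucc (nat_lit 71)) (nat_lit 26) (nat_lit 5) (nat_lit 22), mk (.ofNat (nat_lit 120)) (nat_lit 27) (nat_lit 3941) (nat_lit 1), mk (.negSucc (nat_lit 191)) (nat_lit 32) (nat_lit 5) (nat_lit 22), mk (.negSucc (nat_lit 191)) (nat_lit 32) (nat_lit 5) (nat_lit 97), mk (.negSucc (nat_lit 43)) (nat_lit 3) (nat_lit 279620) (nat_lit 0)]),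
  ((.ofNat (nat_lit 96)), p97,
    [mk (.ofNat (nat_lit 384)) (nat_lit 3) (nat_lit 78437) (nat_lit 0), mk (.negSucc (nat_lit 31)) (nat_lit 2) (nat_lit 287306597) (nat_lit 0), mk (.ofNat (nat_lit 768)) (nat_lit 3) (nat_lit 34762517) (nat_lit 0), mk (.ofNat (nat_lit 5)) (nat_lit 49) (nat_lit 86) (nat_lit 1), mk (.negSucc (nat_lit 383)) (nat_lit 21) (nat_lit 101) (nat_lit 2), mk (.ofNat (nat_lit 40)) (nat_lit 48) (nat_lit 28437) (nat_lit 0), mk (.negSucc (nat_lit 95)) (nat_lit 3) (nat_lit 17915702) (nat_lit 0), mk (.ofNat (nat_lit 960)) (nat_lit 13) (nat_lit 7336273) (nat_lit 0), mk (.negSucc (nat_lit 95)) (nat_lit 19) (nat_lit 86) (nat_lit 2), mk (.negSucc (nat_lit 2224)) (nat_lit 50) (nat_lit 28437) (nat_lit 0), mk (.negSucc (nat_lit 59)) (nat_lit 3) (nat_lit 82277) (nat_lit 0), mk (.ofNat (nat_lit 96)) (nat_lit 3) (nat_lit 20016917) (nat_lit 0), mk (.negSucc (nat_lit 383)) (nat_lit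 31) (nat_lit 5) (nat_lit 22), mk (.negSucc (nat_lit 383)) (nat_lit 59) (nat_lit 5) (nat_lit 6), mk (.negSucc (nat_lit 1919)) (nat_lit 61) (nat_lit 5) (nat_lit 6), mk (.negSucc (nat_lit 383)) (nat_lit 31) (nat_lit 5) (nat_lit 97), mk (.negSucc (nat_lit 383)) (nat_lit 25) (nat_lit 3941) (nat_lit 1), mk (.ofNat (nat_lit 384)) (nat_lit 58) (nat_lit 3941) (nat_lit 0), mk (.negSucc (nat_lit 1535)) (nat_lit 62) (nat_lit 5) (nat_lit 6), mk (.negSucc (nat_lit 1535)) (nat_lit 29) (nat_lit 1044822) (nat_lit 0), mk (.negSucc (nat_lit 571)) (nat_lit 24) (nat_lit 1044822) (nat_lit 0), mk (.ofNat (nat_lit 620)) (nat_lit 27) (nat_lit 1044837) (nat_lit 0), mk (.negSucc (nat_lit 3039)) (nat_lit 33) (nat_lit 5) (nat_lit 97), mk (.negSucc (nat_lit 8519)) (nat_lit 26) (nat_lit 5) (nat_lit 3862), mk (.negSucc (nat_lit 1366)) (nat_lit 26) (nat_lit 5) (nat_lit 97), mk (.ofNat (nat_lit 192)) (nat_lit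 24) (nat_lit 6) (nat_lit 21), mk (.ofNat (nat_lit 192)) (nat_lit 25) (nat_lit 6) (nat_lit 21), mk (.ofNat (nat_lit 192)) (nat_lit 24) (nat_lit 6) (nat_lit 81), mk (.ofNat (nat_lit 192)) (nat_lit 25) (nat_lit 6) (nat_lit 81), mk (.negSucc (nat_lit 3839)) (nat_lit 34) (nat_lit 5) (nat_lit 3862), mk (.negSucc (nat_lit 1919)) (nat_lit 61) (nat_lit 3941) (nat_lit 0), mk (.ofNat (nat_lit 480)) (nat_lit 59) (nat_lit 3941) (nat_lit 0), mk (.negSucc (nat_lit 71)) (nat_lit 26) (nat_lit 5) (nat_lit 22), mk (.ofNat (nat_lit 120)) (nat_lit 27) (nat_lit 3941) (nat_lit 1), mk (.negSucc (nat_lit 191)) (nat_lit 32) (nat_lit 5) (nat_lit 22), mk (.negSucc (nat_lit 191)) (nat_lit 32) (nat_lit 5) (nat_lit 97), mk (.negSucc (nat_lit 43)) (nat_lit 3) (nat_lit 279620) (nat_lit 0)]),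
  ((.ofNat (nat_lit 12)), p98,
    [mk (.ofNat (nat_lit 3)) (nat_lit 2) (nat_lit 1138502) (nat_lit 0), mk (.ofNat (nat_lit 3)) (nat_lit 20) (nat_lit 28453) (nat_lit 0), mk (.ofNat (nat_lit 6)) (nat_lit 20) (nat_lit 7336273) (nat_lit 0), mk (.ofNat (nat_lit 6)) (nat_lit 50) (nat_lit 28437) (nat_lit 0), mk (.ofNat (nat_lit 3)) (nat_lit 3) (nat_lit 82277) (nat_lit 0), mk (.negSucc (nat_lit 23)) (nat_lit 27) (nat_lit 6) (nat_lit 3861), mk (.ofNat (nat_lit 6)) (nat_lit 27) (nat_lit 6) (nat_lit 21), mk (.ofNat (nat_lit 3)) (nat_lit 59) (nat_lit 6) (nat_lit 5), mk (.ofNat (nat_lit 6)) (nat_lit 27) (nat_lit 6) (nat_lit 81), mk (.negSucc (nat_lit 11)) (nat_lit 30) (nat_lit 5) (nat_lit 97), mk (.negSucc (nat_lit 23)) (nat_lit 34) (nat_lit 5) (nat_lit 97), mk (.negSucc (nat_lit 11)) (nat_lit 26) (nat_lit 5) (nat_lit 97), mk (.negSucc (nat_lit 5)) (nat_lit 26) (nat_lit 5) (nat_lit 22), mk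 (.negSucc (nat_lit 5)) (nat_lit 27) (nat_lit 3941) (nat_lit 1), mk (.negSucc (nat_lit 0)) (nat_lit 3) (nat_lit 279620) (nat_lit 0)]),
  ((.ofNat (nat_lit 1)), p99,
    [mk (.ofNat (nat_lit 1)) (nat_lit 70) (nat_lit 6287713) (nat_lit 0), mk (.negSucc (nat_lit 0)) (nat_lit 32) (nat_lit 6) (nat_lit 82)]),
  ((.ofNat (nat_lit 228)), p100,
    [mk (.ofNat (nat_lit 6)) (nat_lit 64) (nat_lit 24342) (nat_lit 0), mk (.ofNat (nat_lit 47)) (nat_lit 48) (nat_lit 24342) (nat_lit 0), mk (.ofNat (nat_lit 114)) (nat_lit 13) (nat_lit 6287713) (nat_lit 0), mk (.negSucc (nat_lit 2279)) (nat_lit 33) (nat_lit 6) (nat_lit 3861), mk (.negSucc (nat_lit 3932)) (nat_lit 26) (nat_lit 6) (nat_lit 3861), mk (.negSucc (nat_lit 3571)) (nat_lit 26) (nat_lit 6) (nat_lit 81), mk (.negSucc (nat_lit 3571)) (nat_lit 33) (nat_lit 6) (nat_lit 81), mk (.negSucc (nat_lit 455)) (nat_lit 34) (nat_lit 6) (nat_lit 3861)]),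
  ((.ofNat (nat_lit 228)), p101,
    [mk (.negSucc (nat_lit 5)) (nat_lit 64) (nat_lit 28437) (nat_lit 0), mk (.negSucc (nat_lit 46)) (nat_lit 48) (nat_lit 28437) (nat_lit 0), mk (.ofNat (nat_lit 228)) (nat_lit 65) (nat_lit 28437) (nat_lit 0), mk (.negSucc (nat_lit 113)) (nat_lit 13) (nat_lit 7336273) (nat_lit 0), mk (.ofNat (nat_lit 2280)) (nat_lit 33) (nat_lit 5) (nat_lit 3862), mk (.ofNat (nat_lit 3933)) (nat_lit 26) (nat_lit 5) (nat_lit 3862), mk (.ofNat (nat_lit 3572)) (nat_lit 26) (nat_lit 5) (nat_lit 97), mk (.ofNat (nat_lit 3572)) (nat_lit 33) (nat_lit 5) (nat_lit 97), mk (.ofNat (nat_lit 456)) (nat_lit 34) (nat_lit 5) (nat_lit 3862)]),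
  ((.ofNat (nat_lit 19)), p102,
    [mk (.ofNat (nat_lit 1)) (nat_lit 53) (nat_lit 24358) (nat_lit 0), mk (.negSucc (nat_lit 77)) (nat_lit 13) (nat_lit 6287969) (nat_lit 0), mk (.negSucc (nat_lit 18)) (nat_lit 31) (nat_lit 6) (nat_lit 3877), mk (.negSucc (nat_lit 79)) (nat_lit 31) (nat_lit 6) (nat_lit 82), mk (.ofNat (nat_lit 336)) (nat_lit 54) (nat_lit 6) (nat_lit 3861), mk (.ofNat (nat_lit 20)) (nat_lit 54) (nat_lit 6) (nat_lit 81), mk (.ofNat (nat_lit 312)) (nat_lit 57) (nat_lit 6) (nat_lit 3861)]),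
  ((.ofNat (nat_lit 12)), p103,
    [mk (.negSucc (nat_lit 2)) (nat_lit 3) (nat_lit 206178) (nat_lit 0), mk (.ofNat (nat_lit 6)) (nat_lit 65) (nat_lit 24358) (nat_lit 0), mk (.ofNat (nat_lit 6)) (nat_lit 65) (nat_lit 28453) (nat_lit 0), mk (.ofNat (nat_lit 6)) (nat_lit 56) (nat_lit 6) (nat_lit 5), mk (.ofNat (nat_lit 6)) (nat_lit 56) (nat_lit 5) (nat_lit 6), mk (.ofNat (nat_lit 1)) (nat_lit 3) (nat_lit 279620) (nat_lit 0)]),
  ((.ofNat (nat_lit 76)), p104,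
    [mk (.ofNat (nat_lit 1)) (nat_lit 71) (nat_lit 24342) (nat_lit 0), mk (.ofNat (nat_lit 2)) (nat_lit 48) (nat_lit 24342) (nat_lit 0), mk (.negSucc (nat_lit 75)) (nat_lit 13) (nat_lit 6287713) (nat_lit 0), mk (.ofNat (nat_lit 19)) (nat_lit 26) (nat_lit 6) (nat_lit 3861), mk (.negSucc (nat_lit 151)) (nat_lit 26) (nat_lit 6) (nat_lit 81), mk (.negSucc (nat_lit 151)) (nat_lit 33) (nat_lit 6) (nat_lit 81), mk (.ofNat (nat_lit 304)) (nat_lit 34) (nat_lit 6) (nat_lit 3861)]),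
  ((.ofNat (nat_lit 2)), p105,
    [mk (.negSucc (nat_lit 1)) (nat_lit 6) (nat_lit 1045093) (nat_lit 0), mk (.ofNat (nat_lit 1)) (nat_lit 3) (nat_lit 18964262) (nat_lit 0), mk (.negSucc (nat_lit 1)) (nat_lit 73) (nat_lit 101) (nat_lit 1), mk (.negSucc (nat_lit 1)) (nat_lit 13) (nat_lit 24358) (nat_lit 0), mk (.negSucc (nat_lit 1)) (nat_lit 30) (nat_lit 6) (nat_lit 21), mk (.negSucc (nat_lit 1)) (nat_lit 31) (nat_lit 6) (nat_lit 21), mk (.negSucc (nat_lit 1)) (nat_lit 30) (nat_lit 6) (nat_lit 81), mk (.negSucc (nat_lit 1)) (nat_lit 31) (nat_lit 6) (nat_lit 81), mk (.ofNat (nat_lit 8)) (nat_lit 30) (nat_lit 6) (nat_lit 3861)]),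
  ((.ofNat (nat_lit 1824)), p106,
    [mk (.negSucc (nat_lit 227)) (nat_lit 23) (nat_lit 86) (nat_lit 2), mk (.negSucc (nat_lit 95)) (nat_lit 75) (nat_lit 28437) (nat_lit 0), mk (.ofNat (nat_lit 7752)) (nat_lit 3) (nat_lit 34758422) (nat_lit 0), mk (.ofNat (nat_lit 912)) (nat_lit 3) (nat_lit 139862) (nat_lit 0), mk (.negSucc (nat_lit 1823)) (nat_lit 17) (nat_lit 86) (nat_lit 2), mk (.ofNat (nat_lit 1824)) (nat_lit 3) (nat_lit 34795862) (nat_lit 0), mk (.negSucc (nat_lit 147)) (nat_lit 48) (nat_lit 28437) (nat_lit 0), mk (.ofNat (nat_lit 228)) (nat_lit 48) (nat_lit 24342) (nat_lit 0), mk (.negSucc (nat_lit 3875)) (nat_lit 21) (nat_lit 86) (nat_lit 2), mk (.ofNat (nat_lit 5472)) (nat_lit 13) (nat_lit 6287713) (nat_lit 0), mk (.negSucc (nat_lit 968)) (nat_lit 19) (nat_lit 86) (nat_lit 2), mk (.negSucc (nat_lit 1595)) (nat_lit 26) (nat_lit 5) (nat_lit 3862), mk (.ofNat (nat_lit 10336))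 (nat_lit 26) (nat_lit 5) (nat_lit 97), mk (.negSucc (nat_lit 15503)) (nat_lit 62) (nat_lit 6) (nat_lit 5), mk (.negSucc (nat_lit 15503)) (nat_lit 61) (nat_lit 6) (nat_lit 5), mk (.negSucc (nat_lit 15503)) (nat_lit 29) (nat_lit 1044837) (nat_lit 0), mk (.negSucc (nat_lit 1823)) (nat_lit 59) (nat_lit 6) (nat_lit 5), mk (.negSucc (nat_lit 1823)) (nat_lit 76) (nat_lit 6) (nat_lit 5), mk (.negSucc (nat_lit 1823)) (nat_lit 76) (nat_lit 3941) (nat_lit 0), mk (.negSucc (nat_lit 3647)) (nat_lit 29) (nat_lit 1044822) (nat_lit 0), mk (.negSucc (nat_lit 3647)) (nat_lit 25) (nat_lit 6) (nat_lit 3861), mk (.negSucc (nat_lit 3647)) (nat_lit 30) (nat_lit 6) (nat_lit 3861), mk (.ofNat (nat_lit 11248)) (nat_lit 33) (nat_lit 5) (nat_lit 97), mk (.negSucc (nat_lit 17327)) (nat_lit 33) (nat_lit 6) (nat_lit 81), mk (.negSucc (nat_lit 48563)) (nat_lit 26) (nat_lit 6) (nat_lit 3861), mk (.negSucc (nat_lit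 20063)) (nat_lit 26) (nat_lit 6) (nat_lit 81), mk (.negSucc (nat_lit 21887)) (nat_lit 34) (nat_lit 6) (nat_lit 3861), mk (.ofNat (nat_lit 7752)) (nat_lit 58) (nat_lit 3941) (nat_lit 0), mk (.negSucc (nat_lit 19379)) (nat_lit 61) (nat_lit 3941) (nat_lit 0), mk (.ofNat (nat_lit 4845)) (nat_lit 59) (nat_lit 3941) (nat_lit 0)]),
  ((.ofNat (nat_lit 912)), p107,
    [mk (.ofNat (nat_lit 912)) (nat_lit 7) (nat_lit 86) (nat_lit 3), mk (.negSucc (nat_lit 911)) (nat_lit 3) (nat_lit 136022) (nat_lit 0), mk (.ofNat (nat_lit 96)) (nat_lit 64) (nat_lit 24342) (nat_lit 0), mk (.negSucc (nat_lit 23)) (nat_lit 75) (nat_lit 24342) (nat_lit 0), mk (.negSucc (nat_lit 47)) (nat_lit 79) (nat_lit 24342) (nat_lit 0), mk (.negSucc (nat_lit 227)) (nat_lit 3) (nat_lit 139862) (nat_lit 0), mk (.negSucc (nat_lit 911)) (nat_lit 15) (nat_lit 86) (nat_lit 2), mk (.negSucc (nat_lit 455)) (nat_lit 17) (nat_lit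 101) (nat_lit 2), mk (.ofNat (nat_lit 456)) (nat_lit 3) (nat_lit 34795877) (nat_lit 0), mk (.ofNat (nat_lit 456)) (nat_lit 17) (nat_lit 62053) (nat_lit 0), mk (.negSucc (nat_lit 911)) (nat_lit 3) (nat_lit 51769697) (nat_lit 0), mk (.ofNat (nat_lit 789)) (nat_lit 48) (nat_lit 24342) (nat_lit 0), mk (.ofNat (nat_lit 456)) (nat_lit 21) (nat_lit 86) (nat_lit 2), mk (.ofNat (nat_lit 76)) (nat_lit 3) (nat_lit 152102) (nat_lit 0), mk (.ofNat (nat_lit 1824)) (nat_lit 80) (nat_lit 28437) (nat_lit 0), mk (.ofNat (nat_lit 1824)) (nat_lit 13) (nat_lit 6287713) (nat_lit 0), mk (.ofNat (nat_lit 1368)) (nat_lit 59) (nat_lit 6) (nat_lit 5), mk (.ofNat (nat_lit 912)) (nat_lit 58) (nat_lit 6) (nat_lit 5), mk (.ofNat (nat_lit 912)) (nat_lit 52) (nat_lit 6) (nat_lit 5), mk (.ofNat (nat_lit 912)) (nat_lit 81) (nat_lit 6) (nat_lit 5), mk (.ofNat (nat_lit 912)) (nat_lit 25) (nat_lit 1044822) (nat_lit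 0), mk (.ofNat (nat_lit 912)) (nat_lit 61) (nat_lit 3941) (nat_lit 0), mk (.ofNat (nat_lit 912)) (nat_lit 31) (nat_lit 1044822) (nat_lit 0), mk (.ofNat (nat_lit 912)) (nat_lit 82) (nat_lit 3941) (nat_lit 0), mk (.negSucc (nat_lit 36479)) (nat_lit 33) (nat_lit 6) (nat_lit 3861), mk (.negSucc (nat_lit 62528)) (nat_lit 26) (nat_lit 6) (nat_lit 3861), mk (.negSucc (nat_lit 59735)) (nat_lit 26) (nat_lit 6) (nat_lit 81), mk (.ofNat (nat_lit 456)) (nat_lit 76) (nat_lit 6) (nat_lit 5), mk (.ofNat (nat_lit 456)) (nat_lit 76) (nat_lit 3941) (nat_lit 0), mk (.negSucc (nat_lit 911)) (nat_lit 29) (nat_lit 1044837) (nat_lit 0), mk (.negSucc (nat_lit 911)) (nat_lit 25) (nat_lit 5) (nat_lit 3862), mk (.negSucc (nat_lit 911)) (nat_lit 30) (nat_lit 5) (nat_lit 3862), mk (.ofNat (nat_lit 1824)) (nat_lit 83) (nat_lit 6) (nat_lit 5), mk (.ofNat (nat_lit 1824)) (nat_lit 32) (nat_lit 5) (nat_lit 3862),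 mk (.negSucc (nat_lit 59963)) (nat_lit 33) (nat_lit 6) (nat_lit 81), mk (.negSucc (nat_lit 7295)) (nat_lit 34) (nat_lit 6) (nat_lit 3861), mk (.ofNat (nat_lit 304)) (nat_lit 3) (nat_lit 279620) (nat_lit 0)]),
  ((.ofNat (nat_lit 760)), p108,
    [mk (.ofNat (nat_lit 20)) (nat_lit 53) (nat_lit 24342) (nat_lit 0), mk (.ofNat (nat_lit 76)) (nat_lit 16) (nat_lit 62038) (nat_lit 0), mk (.negSucc (nat_lit 18)) (nat_lit 23) (nat_lit 62038) (nat_lit 0), mk (.negSucc (nat_lit 9)) (nat_lit 64) (nat_lit 24342) (nat_lit 0), mk (.negSucc (nat_lit 44)) (nat_lit 48) (nat_lit 24342) (nat_lit 0), mk (.negSucc (nat_lit 759)) (nat_lit 84) (nat_lit 24342) (nat_lit 0), mk (.negSucc (nat_lit 189)) (nat_lit 13) (nat_lit 6287713) (nat_lit 0), mk (.negSucc (nat_lit 854)) (nat_lit 20) (nat_lit 28453) (nat_lit 0), mk (.ofNat (nat_lit 6175)) (nat_lit 26) (nat_lit 6) (nat_lit 3861), mk (.ofNat (nat_lit 3420))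 (nat_lit 26) (nat_lit 6) (nat_lit 81), mk (.ofNat (nat_lit 3800)) (nat_lit 33) (nat_lit 6) (nat_lit 3861), mk (.ofNat (nat_lit 3420)) (nat_lit 33) (nat_lit 6) (nat_lit 81), mk (.ofNat (nat_lit 760)) (nat_lit 34) (nat_lit 6) (nat_lit 3861), mk (.ofNat (nat_lit 3420)) (nat_lit 30) (nat_lit 5) (nat_lit 97)]),
  ((.ofNat (nat_lit 48)), p109,
    [mk (.negSucc (nat_lit 0)) (nat_lit 48) (nat_lit 24342) (nat_lit 0), mk (.negSucc (nat_lit 23)) (nat_lit 13) (nat_lit 6287713) (nat_lit 0), mk (.ofNat (nat_lit 76)) (nat_lit 33) (nat_lit 6) (nat_lit 81), mk (.ofNat (nat_lit 213)) (nat_lit 26) (nat_lit 6) (nat_lit 3861), mk (.ofNat (nat_lit 88)) (nat_lit 26) (nat_lit 6) (nat_lit 81), mk (.ofNat (nat_lit 96)) (nat_lit 34) (nat_lit 6) (nat_lit 3861)]),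
  ((.ofNat (nat_lit 1)), p110,
    [mk (.ofNat (nat_lit 1)) (nat_lit 50) (nat_lit 28437) (nat_lit 0), mk (.negSucc (nat_lit 0)) (nat_lit 26) (nat_lit 5) (nat_lit 97)]),
  ((.ofNat (nat_lit 912)), p111,
    [mk (.ofNat (nat_lit 57)) (nat_lit 9) (nat_lit 268375573) (nat_lit 0), mk (.negSucc (nat_lit 227)) (nat_lit 17) (nat_lit 101) (nat_lit 17), mk (.ofNat (nat_lit 456)) (nat_lit 6) (nat_lit 268375573) (nat_lit 0), mk (.ofNat (nat_lit 3)) (nat_lit 87) (nat_lit 24342) (nat_lit 0), mk (.ofNat (nat_lit 114)) (nat_lit 3) (nat_lit 18964262) (nat_lit 0), mk (.ofNat (nat_lit 8)) (nat_lit 48) (nat_lit 24342) (nat_lit 0), mk (.negSucc (nat_lit 227)) (nat_lit 73) (nat_lit 86) (nat_lit 1), mk (.ofNat (nat_lit 228)) (nat_lit 3) (nat_lit 20012822) (nat_lit 0), mk (.negSucc (nat_lit 341)) (nat_lit 26) (nat_lit 6) (nat_lit 3861), mk (.negSucc (nat_lit 1063)) (nat_lit 26) (nat_lit 6) (nat_lit 81),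 mk (.negSucc (nat_lit 227)) (nat_lit 30) (nat_lit 6) (nat_lit 21), mk (.negSucc (nat_lit 227)) (nat_lit 31) (nat_lit 6) (nat_lit 21), mk (.negSucc (nat_lit 227)) (nat_lit 30) (nat_lit 6) (nat_lit 81), mk (.negSucc (nat_lit 227)) (nat_lit 31) (nat_lit 6) (nat_lit 81), mk (.negSucc (nat_lit 607)) (nat_lit 33) (nat_lit 6) (nat_lit 81), mk (.negSucc (nat_lit 455)) (nat_lit 32) (nat_lit 6) (nat_lit 21), mk (.negSucc (nat_lit 455)) (nat_lit 26) (nat_lit 6) (nat_lit 21), mk (.negSucc (nat_lit 455)) (nat_lit 32) (nat_lit 6) (nat_lit 81), mk (.negSucc (nat_lit 455)) (nat_lit 24) (nat_lit 1044837) (nat_lit 0)]),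
  ((.ofNat (nat_lit 4560)), p112,
    [mk (.ofNat (nat_lit 57)) (nat_lit 4) (nat_lit 1045093) (nat_lit 0), mk (.ofNat (nat_lit 285)) (nat_lit 9) (nat_lit 1045093) (nat_lit 0), mk (.ofNat (nat_lit 456)) (nat_lit 17) (nat_lit 86) (nat_lit 2), mk (.ofNat (nat_lit 24)) (nat_lit 75) (nat_lit 28437) (nat_lit 0), mk (.negSucc (nat_lit 455)) (nat_lit 3) (nat_lit 34795862) (nat_lit 0), mk (.ofNat (nat_lit 1824)) (nat_lit 6) (nat_lit 1045093) (nat_lit 0), mk (.ofNat (nat_lit 37)) (nat_lit 48) (nat_lit 28437) (nat_lit 0), mk (.negSucc (nat_lit 911)) (nat_lit 3) (nat_lit 18964262) (nat_lit 0), mk (.negSucc (nat_lit 75)) (nat_lit 3) (nat_lit 152102) (nat_lit 0), mk (.ofNat (nat_lit 1824)) (nat_lit 73) (nat_lit 101) (nat_lit 1), mk (.negSucc (nat_lit 227)) (nat_lit 13) (nat_lit 24358) (nat_lit 0), mk (.ofNat (nat_lit 399)) (nat_lit 26) (nat_lit 5) (nat_lit 3862), mk (.negSucc (nat_lit 2583))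 (nat_lit 26) (nat_lit 5) (nat_lit 97), mk (.ofNat (nat_lit 912)) (nat_lit 29) (nat_lit 1044822) (nat_lit 0), mk (.ofNat (nat_lit 912)) (nat_lit 25) (nat_lit 6) (nat_lit 3861), mk (.ofNat (nat_lit 1824)) (nat_lit 30) (nat_lit 6) (nat_lit 3861), mk (.negSucc (nat_lit 2811)) (nat_lit 33) (nat_lit 5) (nat_lit 97), mk (.ofNat (nat_lit 1824)) (nat_lit 30) (nat_lit 6) (nat_lit 21), mk (.ofNat (nat_lit 1824)) (nat_lit 31) (nat_lit 6) (nat_lit 21), mk (.ofNat (nat_lit 1824)) (nat_lit 30) (nat_lit 6) (nat_lit 81), mk (.ofNat (nat_lit 1824)) (nat_lit 31) (nat_lit 6) (nat_lit 81)]),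
  ((.ofNat (nat_lit 1140)), p113,
    [mk (.ofNat (nat_lit 57)) (nat_lit 4) (nat_lit 1045093) (nat_lit 0), mk (.ofNat (nat_lit 456)) (nat_lit 17) (nat_lit 86) (nat_lit 2), mk (.ofNat (nat_lit 24)) (nat_lit 75) (nat_lit 28437) (nat_lit 0), mk (.negSucc (nat_lit 455)) (nat_lit 3) (nat_lit 34795862) (nat_lit 0), mk (.negSucc (nat_lit 455)) (nat_lit 6) (nat_lit 1045093) (nat_lit 0), mk (.ofNat (nat_lit 37)) (nat_lit 48) (nat_lit 28437) (nat_lit 0), mk (.ofNat (nat_lit 228)) (nat_lit 3) (nat_lit 18964262) (nat_lit 0), mk (.negSucc (nat_lit 75)) (nat_lit 3) (nat_lit 152102) (nat_lit 0), mk (.negSucc (nat_lit 455)) (nat_lit 73) (nat_lit 101) (nat_lit 1), mk (.ofNat (nat_lit 57)) (nat_lit 13) (nat_lit 24358) (nat_lit 0), mk (.ofNat (nat_lit 399)) (nat_lit 26) (nat_lit 5) (nat_lit 3862), mk (.negSucc (nat_lit 2583)) (nat_lit 26) (nat_lit 5) (nat_lit 97), mk (.ofNat (nat_lit 912)) (nat_lit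 29) (nat_lit 1044822) (nat_lit 0), mk (.ofNat (nat_lit 912)) (nat_lit 25) (nat_lit 6) (nat_lit 3861), mk (.ofNat (nat_lit 684)) (nat_lit 30) (nat_lit 6) (nat_lit 3861), mk (.negSucc (nat_lit 2811)) (nat_lit 33) (nat_lit 5) (nat_lit 97), mk (.negSucc (nat_lit 455)) (nat_lit 30) (nat_lit 6) (nat_lit 21), mk (.negSucc (nat_lit 455)) (nat_lit 31) (nat_lit 6) (nat_lit 21), mk (.negSucc (nat_lit 455)) (nat_lit 30) (nat_lit 6) (nat_lit 81), mk (.negSucc (nat_lit 455)) (nat_lit 31) (nat_lit 6) (nat_lit 81)])]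

theorem okL4 : jobs4.all (checkJ ids4) = true := by decide +kernel

def ids5 : List (List (Int × T)) := [pa4, g5, p2, p3, p4, p5, p6, p7, p8, p9, p10, p11, p12, p13, p14, p15, p16, p17, p18, p19, p20, p21, p22, p23, p24, p25, p26, p27, p28, p29, p30, p31, p32, p33, p34, p35, p36, p37, p38, p39, p40, p41, p42, p43, p44, p45, p46, p47, p48, p49, p50, p51, p52, p53, p54, p55, p56, p57, p58, p59, p60, p61, p62, p63, p64, p65, p66, p67, p68, p69, p70, p71, p72, p73, p74, p75, p76, p77, p78, p79, p80, p81, p82, p83, p84, p85, p86, p87, p88, p89, p90, p91, p92, p93, p94, p95, p96, p97, p98, p99, p100, p101, p102, p103, p104, p105, p106, p107, p108, p109, p110, p111, p112, p113]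

def p114 : List (Int × T) :=
  [((.ofNat (nat_lit 1)), .m v2 (.m v1 (.m v5 (.m v6 v4))))]

def p115 : List (Int × T) :=
  [((.ofNat (nat_lit 1)), .m v3 (.m v1 (.m v5 (.m v6 v3))))]

def p116 : List (Int × T) :=
  [((.ofNat (nat_lit 1)), .m v3 (.m v5 (.m v3 (.m v6 v1))))]

def p117 : List (Int × T) :=
  [((.ofNat (nat_lit 1)), .m v3 (.m v5 (.m v2 (.m v1 (.m v6 v1)))))]

def p118 : List (Int × T) :=
  [((.ofNat (nat_lit 1)), .m v3 (.m (.m v5 v2) (.m v1 (.m v6 v1))))]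

def p119 : List (Int × T) :=
  [((.ofNat (nat_lit 1)), .m v2 (.m (.m v5 v1) (.m v6 v4)))]

def p120 : List (Int × T) :=
  [((.ofNat (nat_lit 1)), .m v3 (.m (.m v5 v1) (.m v6 v3)))]

/-- certificates of level 5 -/
def jobs5 : List Job := [
  ((.ofNat (nat_lit 3)), p114,
    [mk (.ofNat (nat_lit 3)) (nat_lit 3) (nat_lit 82533) (nat_lit 0), mk (.negSucc (nat_lit 2)) (nat_lit 89) (nat_lit 86) (nat_lit 1), mk (.negSucc (nat_lit 2)) (nat_lit 54) (nat_lit 5) (nat_lit 22), mk (.negSucc (nat_lit 2)) (nat_lit 26) (nat_lit 5) (nat_lit 38), mk (.negSucc (nat_lit 2)) (nat_lit 54) (nat_lit 5) (nat_lit 97), mk (.negSucc (nat_lit 2)) (nat_lit 59) (nat_lit 3941) (nat_lit 1), mk (.negSucc (nat_lit 2)) (nat_lit 26) (nat_lit 5) (nat_lit 98), mk (.negSucc (nat_lit 2)) (nat_lit 27) (nat_lit 3941) (nat_lit 2), mk (.negSucc (nat_lit 0)) (nat_lit 3) (nat_lit 279620) (nat_lit 0)]),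
  ((.ofNat (nat_lit 19)), p115,
    [mk (.ofNat (nat_lit 19)) (nat_lit 3) (nat_lit 78693) (nat_lit 0), mk (.ofNat (nat_lit 1)) (nat_lit 53) (nat_lit 28453) (nat_lit 0), mk (.negSucc (nat_lit 18)) (nat_lit 3) (nat_lit 140133) (nat_lit 0), mk (.negSucc (nat_lit 77)) (nat_lit 13) (nat_lit 7336529) (nat_lit 0), mk (.negSucc (nat_lit 18)) (nat_lit 97) (nat_lit 28437) (nat_lit 0), mk (.negSucc (nat_lit 18)) (nat_lit 97) (nat_lit 86) (nat_lit 1), mk (.negSucc (nat_lit 18)) (nat_lit 52) (nat_lit 5) (nat_lit 22), mk (.negSucc (nat_lit 18)) (nat_lit 69) (nat_lit 5) (nat_lit 6), mk (.negSucc (nat_lit 18)) (nat_lit 52) (nat_lit 5) (nat_lit 97), mk (.negSucc (nat_lit 18)) (nat_lit 52) (nat_lit 3941) (nat_lit 1), mk (.negSucc (nat_lit 18)) (nat_lit 68) (nat_lit 3941) (nat_lit 0), mk (.negSucc (nat_lit 18)) (nat_lit 31) (nat_lit 5) (nat_lit 3878), mk (.negSucc (nat_lit 79)) (nat_lit 31) (nat_lit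 5) (nat_lit 98), mk (.ofNat (nat_lit 336)) (nat_lit 54) (nat_lit 5) (nat_lit 3862), mk (.ofNat (nat_lit 20)) (nat_lit 54) (nat_lit 5) (nat_lit 97), mk (.ofNat (nat_lit 19)) (nat_lit 25) (nat_lit 5) (nat_lit 38), mk (.ofNat (nat_lit 19)) (nat_lit 56) (nat_lit 5) (nat_lit 6), mk (.ofNat (nat_lit 19)) (nat_lit 25) (nat_lit 5) (nat_lit 98), mk (.ofNat (nat_lit 19)) (nat_lit 25) (nat_lit 1045093) (nat_lit 0), mk (.ofNat (nat_lit 19)) (nat_lit 31) (nat_lit 3941) (nat_lit 2), mk (.ofNat (nat_lit 19)) (nat_lit 31) (nat_lit 1045093) (nat_lit 0), mk (.ofNat (nat_lit 19)) (nat_lit 56) (nat_lit 3941) (nat_lit 0), mk (.ofNat (nat_lit 312)) (nat_lit 57) (nat_lit 5) (nat_lit 3862)]),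
  ((.ofNat (nat_lit 1)), p116,
    [mk (.ofNat (nat_lit 1)) (nat_lit 97) (nat_lit 24342) (nat_lit 0)]),
  ((.ofNat (nat_lit 1)), p117,
    [mk (.ofNat (nat_lit 1)) (nat_lit 100) (nat_lit 24342) (nat_lit 0)]),
  ((.ofNat (nat_lit 1)), p118,
    [mk (.ofNat (nat_lit 1)) (nat_lit 101) (nat_lit 61797) (nat_lit 0)]),
  ((.ofNat (nat_lit 1)), p119,
    [mk (.ofNat (nat_lit 1)) (nat_lit 89) (nat_lit 61782) (nat_lit 0)]),
  ((.ofNat (nat_lit 1)), p120,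
    [mk (.ofNat (nat_lit 1)) (nat_lit 97) (nat_lit 61782) (nat_lit 0)])]

theorem okL5 : jobs5.all (checkJ ids5) = true := by decide +kernel

def ids6 : List (List (Int × T)) := [pa4, g5, p2, p3, p4, p5, p6, p7, p8, p9, p10, p11, p12, p13, p14, p15, p16, p17, p18, p19, p20, p21, p22, p23, p24, p25, p26, p27, p28, p29, p30, p31, p32, p33, p34, p35, p36, p37, p38, p39, p40, p41, p42, p43, p44, p45, p46, p47, p48, p49, p50, p51, p52, p53, p54, p55, p56, p57, p58, p59, p60, p61, p62, p63, p64, p65, p66, p67, p68, p69, p70, p71, p72, p73, p74, p75, p76, p77, p78, p79, p80, p81, p82, p83, p84, p85, p86, p87, p88, p89, p90, p91, p92, p93, p94, p95, p96, p97, p98, p99, p100, p101, p102, p103, p104, p105, p106, p107, p108, p109, p110, p111, p112, p113, p114, p115, p116, p117, p118, p119, p120]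

def p121 : List (Int × T) :=
  [((.ofNat (nat_lit 1)), .m (.m v7 v4) (.m v5 (.m v6 v4)))]

def p122 : List (Int × T) :=
  [((.ofNat (nat_lit 1)), .m v2 (.m v1 (.m v7 (.m v5 (.m v6 v4)))))]

/-- certificates of level 6 -/
def jobs6 : List Job := [
  ((.ofNat (nat_lit 1)), p121,
    [mk (.ofNat (nat_lit 1)) (nat_lit 20) (nat_lit 8385637) (nat_lit 0), mk (.negSucc (nat_lit 3)) (nat_lit 114) (nat_lit 86) (nat_lit 113)]),
  ((.ofNat (nat_lit 4232250)), p122,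
    [mk (.negSucc (nat_lit 37619)) (nat_lit 4) (nat_lit 268384101) (nat_lit 0), mk (.ofNat (nat_lit 752400)) (nat_lit 3) (nat_lit 22245175) (nat_lit 0), mk (.ofNat (nat_lit 37620)) (nat_lit 23) (nat_lit 117) (nat_lit 99), mk (.negSucc (nat_lit 75239)) (nat_lit 16) (nat_lit 87) (nat_lit 99), mk (.ofNat (nat_lit 18810)) (nat_lit 23) (nat_lit 87) (nat_lit 99), mk (.negSucc (nat_lit 30095)) (nat_lit 16) (nat_lit 101) (nat_lit 115), mk (.ofNat (nat_lit 7524)) (nat_lit 23) (nat_lit 101) (nat_lit 115), mk (.ofNat (nat_lit 300960)) (nat_lit 3) (nat_lit 202357) (nat_lit 3), mk (.negSucc (nat_lit 19799)) (nat_lit 51) (nat_lit 87) (nat_lit 98), mk (.ofNat (nat_lit 495330)) (nat_lit 2) (nat_lit 73551267445) (nat_lit 0), mk (.negSucc (nat_lit 7919)) (nat_lit 67) (nat_lit 86) (nat_lit 114), mk (.ofNat (nat_lit 451440)) (nat_lit 3) (nat_lit 218230) (nat_lit 0), mk (.ofNat (nat_lit 777480)) (nat_lit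 2) (nat_lit 73551267415) (nat_lit 0), mk (.ofNat (nat_lit 1504800)) (nat_lit 3) (nat_lit 9989779825) (nat_lit 0), mk (.negSucc (nat_lit 300959)) (nat_lit 3) (nat_lit 41119525) (nat_lit 0), mk (.ofNat (nat_lit 9900)) (nat_lit 64) (nat_lit 1610553110) (nat_lit 0), mk (.ofNat (nat_lit 601920)) (nat_lit 3) (nat_lit 10259263825) (nat_lit 0), mk (.negSucc (nat_lit 3959)) (nat_lit 64) (nat_lit 2147423510) (nat_lit 0), mk (.ofNat (nat_lit 75240)) (nat_lit 17) (nat_lit 86) (nat_lit 115), mk (.negSucc (nat_lit 1979)) (nat_lit 64) (nat_lit 8385110) (nat_lit 0), mk (.negSucc (nat_lit 188099)) (nat_lit 17) (nat_lit 118) (nat_lit 83), mk (.ofNat (nat_lit 4950)) (nat_lit 64) (nat_lit 6287990) (nat_lit 0), mk (.negSucc (nat_lit 47024)) (nat_lit 22) (nat_lit 87) (nat_lit 99), mk (.ofNat (nat_lit 18810)) (nat_lit 45) (nat_lit 117) (nat_lit 99), mk (.ofNat (nat_lit 1053360)) (nat_lit 6) (nat_lit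 268383831) (nat_lit 0), mk (.ofNat (nat_lit 23100)) (nat_lit 49) (nat_lit 87) (nat_lit 98), mk (.negSucc (nat_lit 5943959)) (nat_lit 3) (nat_lit 22183750) (nat_lit 0), mk (.negSucc (nat_lit 9239)) (nat_lit 49) (nat_lit 86) (nat_lit 114), mk (.negSucc (nat_lit 18809)) (nat_lit 22) (nat_lit 101) (nat_lit 115), mk (.negSucc (nat_lit 5097509)) (nat_lit 3) (nat_lit 24272710) (nat_lit 0), mk (.negSucc (nat_lit 376199)) (nat_lit 3) (nat_lit 57896725) (nat_lit 0), mk (.ofNat (nat_lit 188100)) (nat_lit 3) (nat_lit 56844055) (nat_lit 0), mk (.negSucc (nat_lit 376199)) (nat_lit 3) (nat_lit 53932405) (nat_lit 0), mk (.negSucc (nat_lit 526679)) (nat_lit 3) (nat_lit 4857000805) (nat_lit 0), mk (.negSucc (nat_lit 376199)) (nat_lit 3) (nat_lit 53866870) (nat_lit 0), mk (.ofNat (nat_lit 188100)) (nat_lit 3) (nat_lit 55832950) (nat_lit 0), mk (.ofNat (nat_lit 526680)) (nat_lit 3) (nat_lit 217974)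 (nat_lit 1), mk (.negSucc (nat_lit 1053359)) (nat_lit 3) (nat_lit 210294) (nat_lit 1), mk (.ofNat (nat_lit 150480)) (nat_lit 3) (nat_lit 38956855) (nat_lit 0), mk (.ofNat (nat_lit 526680)) (nat_lit 3) (nat_lit 8362483510) (nat_lit 0), mk (.negSucc (nat_lit 1861199)) (nat_lit 65) (nat_lit 103) (nat_lit 82), mk (.negSucc (nat_lit 38774)) (nat_lit 48) (nat_lit 6287975) (nat_lit 0), mk (.ofNat (nat_lit 77550)) (nat_lit 48) (nat_lit 1610553110) (nat_lit 0), mk (.ofNat (nat_lit 744480)) (nat_lit 65) (nat_lit 101) (nat_lit 114), mk (.ofNat (nat_lit 15510)) (nat_lit 48) (nat_lit 8385125) (nat_lit 0), mk (.ofNat (nat_lit 744480)) (nat_lit 3) (nat_lit 202081) (nat_lit 114), mk (.ofNat (nat_lit 31020)) (nat_lit 48) (nat_lit 2147423765) (nat_lit 0), mk (.negSucc (nat_lit 75239)) (nat_lit 3) (nat_lit 56852245) (nat_lit 0), mk (.ofNat (nat_lit 1485990)) (nat_lit 3) (nat_lit 214375) (nat_lit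 0), mk (.negSucc (nat_lit 7429949)) (nat_lit 3) (nat_lit 148854) (nat_lit 1), mk (.negSucc (nat_lit 369929)) (nat_lit 45) (nat_lit 28437) (nat_lit 114), mk (.negSucc (nat_lit 1567499)) (nat_lit 3) (nat_lit 38174485) (nat_lit 0), mk (.ofNat (nat_lit 7429950)) (nat_lit 3) (nat_lit 156759) (nat_lit 1), mk (.negSucc (nat_lit 231704)) (nat_lit 45) (nat_lit 28439) (nat_lit 82), mk (.ofNat (nat_lit 2294820)) (nat_lit 3) (nat_lit 214645) (nat_lit 0), mk (.ofNat (nat_lit 7429950)) (nat_lit 3) (nat_lit 152694) (nat_lit 1), mk (.ofNat (nat_lit 1485990)) (nat_lit 3) (nat_lit 22148199) (nat_lit 1), mk (.ofNat (nat_lit 846450)) (nat_lit 3) (nat_lit 4588565605) (nat_lit 0), mk (.ofNat (nat_lit 188100)) (nat_lit 13) (nat_lit 412315906401) (nat_lit 0), mk (.negSucc (nat_lit 930599)) (nat_lit 13) (nat_lit 1610557041) (nat_lit 0), mk (.ofNat (nat_lit 744480)) (nat_lit 13) (nat_lit 549754855761)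 (nat_lit 0), mk (.ofNat (nat_lit 669240)) (nat_lit 13) (nat_lit 549754851681) (nat_lit 0), mk (.ofNat (nat_lit 372240)) (nat_lit 13) (nat_lit 2147427921) (nat_lit 0), mk (.ofNat (nat_lit 334620)) (nat_lit 13) (nat_lit 2147427681) (nat_lit 0), mk (.negSucc (nat_lit 836549)) (nat_lit 13) (nat_lit 1610557281) (nat_lit 0), mk (.ofNat (nat_lit 2959440)) (nat_lit 66) (nat_lit 86) (nat_lit 114), mk (.negSucc (nat_lit 526679)) (nat_lit 3) (nat_lit 5124387445) (nat_lit 0), mk (.ofNat (nat_lit 1853640)) (nat_lit 66) (nat_lit 118) (nat_lit 82), mk (.negSucc (nat_lit 338579)) (nat_lit 13) (nat_lit 6288246) (nat_lit 0), mk (.negSucc (nat_lit 451439)) (nat_lit 13) (nat_lit 8385366) (nat_lit 0), mk (.ofNat (nat_lit 601920)) (nat_lit 13) (nat_lit 8385381) (nat_lit 0), mk (.negSucc (nat_lit 846449)) (nat_lit 3) (nat_lit 8394989335) (nat_lit 0), mk (.negSucc (nat_lit 752399)) (nat_lit 52) (nat_lit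 7) (nat_lit 1302), mk (.negSucc (nat_lit 752399)) (nat_lit 94) (nat_lit 87) (nat_lit 22), mk (.negSucc (nat_lit 752399)) (nat_lit 95) (nat_lit 87) (nat_lit 6), mk (.negSucc (nat_lit 752399)) (nat_lit 52) (nat_lit 7) (nat_lit 1377), mk (.negSucc (nat_lit 752399)) (nat_lit 94) (nat_lit 87) (nat_lit 97), mk (.negSucc (nat_lit 752399)) (nat_lit 96) (nat_lit 63063) (nat_lit 1), mk (.negSucc (nat_lit 752399)) (nat_lit 115) (nat_lit 63063) (nat_lit 0), mk (.ofNat (nat_lit 1580040)) (nat_lit 96) (nat_lit 7336309) (nat_lit 0), mk (.negSucc (nat_lit 1090979)) (nat_lit 116) (nat_lit 28533) (nat_lit 0), mk (.negSucc (nat_lit 300959)) (nat_lit 96) (nat_lit 8384869) (nat_lit 0), mk (.negSucc (nat_lit 526679)) (nat_lit 116) (nat_lit 32613) (nat_lit 0), mk (.negSucc (nat_lit 1053359)) (nat_lit 52) (nat_lit 268375894) (nat_lit 0), mk (.negSucc (nat_lit 300959)) (nat_lit 52) (nat_lit 268399894)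 (nat_lit 0), mk (.negSucc (nat_lit 300959)) (nat_lit 52) (nat_lit 268375639) (nat_lit 0), mk (.negSucc (nat_lit 300959)) (nat_lit 52) (nat_lit 268395799) (nat_lit 0), mk (.ofNat (nat_lit 2131800)) (nat_lit 98) (nat_lit 7336309) (nat_lit 0), mk (.ofNat (nat_lit 2106720)) (nat_lit 98) (nat_lit 8384869) (nat_lit 0), mk (.negSucc (nat_lit 2746259)) (nat_lit 91) (nat_lit 86) (nat_lit 7), mk (.negSucc (nat_lit 451439)) (nat_lit 91) (nat_lit 101) (nat_lit 7), mk (.negSucc (nat_lit 451439)) (nat_lit 92) (nat_lit 86) (nat_lit 7), mk (.negSucc (nat_lit 451439)) (nat_lit 92) (nat_lit 101) (nat_lit 7), mk (.negSucc (nat_lit 451439)) (nat_lit 55) (nat_lit 1046373) (nat_lit 0), mk (.negSucc (nat_lit 451439)) (nat_lit 55) (nat_lit 1046358) (nat_lit 0), mk (.negSucc (nat_lit 451439)) (nat_lit 60) (nat_lit 1046373) (nat_lit 0), mk (.negSucc (nat_lit 451439)) (nat_lit 60) (nat_lit 1046358) (nat_lit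 0), mk (.negSucc (nat_lit 1504799)) (nat_lit 32) (nat_lit 7) (nat_lit 1318), mk (.negSucc (nat_lit 1504799)) (nat_lit 99) (nat_lit 87) (nat_lit 6), mk (.negSucc (nat_lit 1504799)) (nat_lit 117) (nat_lit 87) (nat_lit 6), mk (.negSucc (nat_lit 1504799)) (nat_lit 118) (nat_lit 87) (nat_lit 6), mk (.negSucc (nat_lit 1504799)) (nat_lit 32) (nat_lit 7) (nat_lit 1378), mk (.negSucc (nat_lit 1504799)) (nat_lit 25) (nat_lit 68718522725) (nat_lit 0), mk (.negSucc (nat_lit 1504799)) (nat_lit 25) (nat_lit 68704214885) (nat_lit 0), mk (.negSucc (nat_lit 1504799)) (nat_lit 31) (nat_lit 68718522725) (nat_lit 0), mk (.negSucc (nat_lit 1504799)) (nat_lit 31) (nat_lit 68704214885) (nat_lit 0), mk (.ofNat (nat_lit 300960)) (nat_lit 31) (nat_lit 5) (nat_lit 1830), mk (.ofNat (nat_lit 300960)) (nat_lit 102) (nat_lit 117) (nat_lit 6), mk (.ofNat (nat_lit 300960)) (nat_lit 103) (nat_lit 87) (nat_lit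 6), mk (.ofNat (nat_lit 300960)) (nat_lit 31) (nat_lit 5) (nat_lit 1890), mk (.ofNat (nat_lit 300960)) (nat_lit 25) (nat_lit 268379495) (nat_lit 0), mk (.ofNat (nat_lit 300960)) (nat_lit 25) (nat_lit 267874085) (nat_lit 0), mk (.ofNat (nat_lit 300960)) (nat_lit 31) (nat_lit 268379495) (nat_lit 0), mk (.ofNat (nat_lit 300960)) (nat_lit 31) (nat_lit 267874085) (nat_lit 0), mk (.negSucc (nat_lit 3761999)) (nat_lit 104) (nat_lit 103) (nat_lit 3861), mk (.negSucc (nat_lit 6489449)) (nat_lit 72) (nat_lit 103) (nat_lit 3861), mk (.negSucc (nat_lit 5893799)) (nat_lit 72) (nat_lit 103) (nat_lit 81), mk (.negSucc (nat_lit 601919)) (nat_lit 32) (nat_lit 5) (nat_lit 1575), mk (.negSucc (nat_lit 601919)) (nat_lit 99) (nat_lit 101) (nat_lit 7), mk (.negSucc (nat_lit 601919)) (nat_lit 117) (nat_lit 101) (nat_lit 7), mk (.negSucc (nat_lit 601919)) (nat_lit 118) (nat_lit 101) (nat_lit 7), mk (.negSucc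 (nat_lit 2090879)) (nat_lit 32) (nat_lit 5) (nat_lit 1650), mk (.negSucc (nat_lit 601919)) (nat_lit 25) (nat_lit 68718514550) (nat_lit 0), mk (.negSucc (nat_lit 601919)) (nat_lit 25) (nat_lit 68704083830) (nat_lit 0), mk (.negSucc (nat_lit 601919)) (nat_lit 31) (nat_lit 68718514550) (nat_lit 0), mk (.negSucc (nat_lit 601919)) (nat_lit 31) (nat_lit 68704083830) (nat_lit 0), mk (.ofNat (nat_lit 1504800)) (nat_lit 104) (nat_lit 101) (nat_lit 3863), mk (.negSucc (nat_lit 4011479)) (nat_lit 72) (nat_lit 101) (nat_lit 3863), mk (.negSucc (nat_lit 372239)) (nat_lit 72) (nat_lit 101) (nat_lit 113), mk (.ofNat (nat_lit 752400)) (nat_lit 105) (nat_lit 101) (nat_lit 3863), mk (.negSucc (nat_lit 2005739)) (nat_lit 74) (nat_lit 101) (nat_lit 3863), mk (.negSucc (nat_lit 7616069)) (nat_lit 74) (nat_lit 101) (nat_lit 113), mk (.negSucc (nat_lit 1880999)) (nat_lit 105) (nat_lit 103) (nat_lit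 3861), mk (.ofNat (nat_lit 5014350)) (nat_lit 74) (nat_lit 103) (nat_lit 3861), mk (.negSucc (nat_lit 6964649)) (nat_lit 74) (nat_lit 103) (nat_lit 81), mk (.ofNat (nat_lit 1053360)) (nat_lit 95) (nat_lit 28533) (nat_lit 0), mk (.negSucc (nat_lit 3056624)) (nat_lit 91) (nat_lit 28533) (nat_lit 0), mk (.negSucc (nat_lit 1755599)) (nat_lit 106) (nat_lit 7336279) (nat_lit 0), mk (.ofNat (nat_lit 5943960)) (nat_lit 59) (nat_lit 6) (nat_lit 1303), mk (.ofNat (nat_lit 5943960)) (nat_lit 77) (nat_lit 86) (nat_lit 23), mk (.ofNat (nat_lit 5943960)) (nat_lit 27) (nat_lit 6) (nat_lit 1319), mk (.ofNat (nat_lit 7511460)) (nat_lit 119) (nat_lit 86) (nat_lit 7), mk (.ofNat (nat_lit 5943960)) (nat_lit 59) (nat_lit 6) (nat_lit 1393), mk (.ofNat (nat_lit 5943960)) (nat_lit 77) (nat_lit 86) (nat_lit 113), mk (.ofNat (nat_lit 11041470)) (nat_lit 98) (nat_lit 63318) (nat_lit 1), mk (.ofNat (nat_lit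 5943960)) (nat_lit 27) (nat_lit 6) (nat_lit 1394), mk (.ofNat (nat_lit 11041470)) (nat_lit 114) (nat_lit 63318) (nat_lit 0), mk (.negSucc (nat_lit 5216639)) (nat_lit 106) (nat_lit 8384854) (nat_lit 0), mk (.ofNat (nat_lit 601920)) (nat_lit 96) (nat_lit 8384854) (nat_lit 0), mk (.ofNat (nat_lit 300960)) (nat_lit 95) (nat_lit 32613) (nat_lit 0), mk (.negSucc (nat_lit 2087909)) (nat_lit 91) (nat_lit 32613) (nat_lit 0), mk (.ofNat (nat_lit 5097510)) (nat_lit 59) (nat_lit 6) (nat_lit 1813), mk (.ofNat (nat_lit 5097510)) (nat_lit 77) (nat_lit 118) (nat_lit 21), mk (.ofNat (nat_lit 5097510)) (nat_lit 27) (nat_lit 6) (nat_lit 1829), mk (.ofNat (nat_lit 5097510)) (nat_lit 119) (nat_lit 118) (nat_lit 5), mk (.ofNat (nat_lit 5097510)) (nat_lit 59) (nat_lit 6) (nat_lit 1873), mk (.ofNat (nat_lit 5097510)) (nat_lit 77) (nat_lit 118) (nat_lit 81), mk (.ofNat (nat_lit 5097510)) (nat_lit 27)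 (nat_lit 6) (nat_lit 1874), mk (.ofNat (nat_lit 752400)) (nat_lit 116) (nat_lit 117) (nat_lit 6), mk (.ofNat (nat_lit 752400)) (nat_lit 52) (nat_lit 268375399) (nat_lit 0), mk (.ofNat (nat_lit 902880)) (nat_lit 52) (nat_lit 267874069) (nat_lit 0), mk (.negSucc (nat_lit 376199)) (nat_lit 120) (nat_lit 118) (nat_lit 5), mk (.negSucc (nat_lit 376199)) (nat_lit 52) (nat_lit 267485029) (nat_lit 0), mk (.ofNat (nat_lit 376200)) (nat_lit 116) (nat_lit 87) (nat_lit 6), mk (.ofNat (nat_lit 376200)) (nat_lit 52) (nat_lit 1044853) (nat_lit 6), mk (.ofNat (nat_lit 376200)) (nat_lit 52) (nat_lit 5) (nat_lit 61814), mk (.ofNat (nat_lit 752400)) (nat_lit 120) (nat_lit 32613) (nat_lit 0), mk (.ofNat (nat_lit 376200)) (nat_lit 52) (nat_lit 5) (nat_lit 28439), mk (.ofNat (nat_lit 752400)) (nat_lit 52) (nat_lit 3941) (nat_lit 3863), mk (.ofNat (nat_lit 1053360)) (nat_lit 93) (nat_lit 86) (nat_lit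 23), mk (.ofNat (nat_lit 1053360)) (nat_lit 96) (nat_lit 86) (nat_lit 23), mk (.ofNat (nat_lit 1053360)) (nat_lit 93) (nat_lit 86) (nat_lit 113), mk (.ofNat (nat_lit 376200)) (nat_lit 52) (nat_lit 1044854) (nat_lit 5), mk (.ofNat (nat_lit 376200)) (nat_lit 52) (nat_lit 6) (nat_lit 61813), mk (.ofNat (nat_lit 376200)) (nat_lit 96) (nat_lit 6287734) (nat_lit 0), mk (.ofNat (nat_lit 376200)) (nat_lit 52) (nat_lit 6) (nat_lit 24343), mk (.negSucc (nat_lit 376199)) (nat_lit 52) (nat_lit 268375909) (nat_lit 0), mk (.negSucc (nat_lit 1053359)) (nat_lit 52) (nat_lit 1046373) (nat_lit 1), mk (.negSucc (nat_lit 1053359)) (nat_lit 52) (nat_lit 1046358) (nat_lit 1), mk (.ofNat (nat_lit 1053360)) (nat_lit 52) (nat_lit 6) (nat_lit 1873), mk (.ofNat (nat_lit 1053360)) (nat_lit 96) (nat_lit 103) (nat_lit 81), mk (.ofNat (nat_lit 1053360)) (nat_lit 52) (nat_lit 3958) (nat_lit 81), mk (.ofNat (nat_lit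 1053360)) (nat_lit 52) (nat_lit 6) (nat_lit 1393), mk (.ofNat (nat_lit 1053360)) (nat_lit 52) (nat_lit 3941) (nat_lit 113), mk (.ofNat (nat_lit 1053360)) (nat_lit 96) (nat_lit 24438) (nat_lit 1), mk (.ofNat (nat_lit 1053360)) (nat_lit 96) (nat_lit 32613) (nat_lit 1), mk (.negSucc (nat_lit 300959)) (nat_lit 25) (nat_lit 7) (nat_lit 1318), mk (.negSucc (nat_lit 300959)) (nat_lit 25) (nat_lit 7) (nat_lit 1378), mk (.negSucc (nat_lit 300959)) (nat_lit 78) (nat_lit 63063) (nat_lit 0), mk (.negSucc (nat_lit 1053359)) (nat_lit 107) (nat_lit 103) (nat_lit 21), mk (.negSucc (nat_lit 1053359)) (nat_lit 108) (nat_lit 118) (nat_lit 21), mk (.negSucc (nat_lit 1053359)) (nat_lit 107) (nat_lit 103) (nat_lit 81), mk (.negSucc (nat_lit 1053359)) (nat_lit 108) (nat_lit 118) (nat_lit 81), mk (.ofNat (nat_lit 2946900)) (nat_lit 105) (nat_lit 118) (nat_lit 81), mk (.ofNat (nat_lit 8259075)) (nat_lit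 74) (nat_lit 118) (nat_lit 3861), mk (.negSucc (nat_lit 4017749)) (nat_lit 74) (nat_lit 118) (nat_lit 81), mk (.negSucc (nat_lit 5893799)) (nat_lit 104) (nat_lit 103) (nat_lit 81), mk (.negSucc (nat_lit 1178759)) (nat_lit 105) (nat_lit 86) (nat_lit 113), mk (.negSucc (nat_lit 3303629)) (nat_lit 74) (nat_lit 86) (nat_lit 3863), mk (.negSucc (nat_lit 8794829)) (nat_lit 74) (nat_lit 86) (nat_lit 113), mk (.negSucc (nat_lit 1488959)) (nat_lit 32) (nat_lit 6) (nat_lit 1394), mk (.negSucc (nat_lit 2357519)) (nat_lit 104) (nat_lit 86) (nat_lit 113), mk (.negSucc (nat_lit 6607259)) (nat_lit 72) (nat_lit 86) (nat_lit 3863), mk (.negSucc (nat_lit 2729759)) (nat_lit 72) (nat_lit 86) (nat_lit 113), mk (.ofNat (nat_lit 150480)) (nat_lit 116) (nat_lit 101) (nat_lit 7), mk (.ofNat (nat_lit 150480)) (nat_lit 120) (nat_lit 86) (nat_lit 7), mk (.ofNat (nat_lit 150480)) (nat_lit 52) (nat_lit 268375414)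 (nat_lit 0), mk (.negSucc (nat_lit 1485989)) (nat_lit 60) (nat_lit 7) (nat_lit 101), mk (.negSucc (nat_lit 1485989)) (nat_lit 91) (nat_lit 118) (nat_lit 5), mk (.negSucc (nat_lit 1485989)) (nat_lit 55) (nat_lit 3958) (nat_lit 5), mk (.negSucc (nat_lit 1485989)) (nat_lit 60) (nat_lit 7) (nat_lit 86), mk (.negSucc (nat_lit 1485989)) (nat_lit 91) (nat_lit 117) (nat_lit 6), mk (.negSucc (nat_lit 3780809)) (nat_lit 55) (nat_lit 3957) (nat_lit 6), mk (.negSucc (nat_lit 1485989)) (nat_lit 91) (nat_lit 24438) (nat_lit 0), mk (.ofNat (nat_lit 7429950)) (nat_lit 54) (nat_lit 6) (nat_lit 1873), mk (.ofNat (nat_lit 7429950)) (nat_lit 59) (nat_lit 3958) (nat_lit 81), mk (.ofNat (nat_lit 7429950)) (nat_lit 54) (nat_lit 6) (nat_lit 1393), mk (.ofNat (nat_lit 7429950)) (nat_lit 59) (nat_lit 3941) (nat_lit 113), mk (.ofNat (nat_lit 7429950)) (nat_lit 98) (nat_lit 24438) (nat_lit 1), mk (.ofNat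 (nat_lit 7429950)) (nat_lit 98) (nat_lit 32613) (nat_lit 1), mk (.ofNat (nat_lit 4439160)) (nat_lit 109) (nat_lit 8384854) (nat_lit 0), mk (.negSucc (nat_lit 8138459)) (nat_lit 26) (nat_lit 5) (nat_lit 1650), mk (.negSucc (nat_lit 2501729)) (nat_lit 98) (nat_lit 8384854) (nat_lit 0), mk (.ofNat (nat_lit 1567500)) (nat_lit 85) (nat_lit 5) (nat_lit 118), mk (.ofNat (nat_lit 1567500)) (nat_lit 59) (nat_lit 1044823) (nat_lit 6), mk (.ofNat (nat_lit 1567500)) (nat_lit 119) (nat_lit 87) (nat_lit 6), mk (.ofNat (nat_lit 1567500)) (nat_lit 85) (nat_lit 5) (nat_lit 103), mk (.ofNat (nat_lit 1567500)) (nat_lit 59) (nat_lit 1044822) (nat_lit 7), mk (.ofNat (nat_lit 1567500)) (nat_lit 98) (nat_lit 7336279) (nat_lit 0), mk (.negSucc (nat_lit 7429949)) (nat_lit 98) (nat_lit 118) (nat_lit 81), mk (.negSucc (nat_lit 14859899)) (nat_lit 59) (nat_lit 1046358) (nat_lit 1), mk (.negSucc (nat_lit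 7429949)) (nat_lit 59) (nat_lit 1046103) (nat_lit 1), mk (.negSucc (nat_lit 7429949)) (nat_lit 27) (nat_lit 268380005) (nat_lit 0), mk (.negSucc (nat_lit 7429949)) (nat_lit 27) (nat_lit 268379765) (nat_lit 0), mk (.negSucc (nat_lit 14859899)) (nat_lit 54) (nat_lit 1046358) (nat_lit 1), mk (.negSucc (nat_lit 7429949)) (nat_lit 54) (nat_lit 1046103) (nat_lit 1), mk (.negSucc (nat_lit 3707279)) (nat_lit 106) (nat_lit 6287734) (nat_lit 0), mk (.ofNat (nat_lit 2780460)) (nat_lit 109) (nat_lit 6287734) (nat_lit 0), mk (.negSucc (nat_lit 5097509)) (nat_lit 26) (nat_lit 7) (nat_lit 1618), mk (.negSucc (nat_lit 2548754)) (nat_lit 98) (nat_lit 6287734) (nat_lit 0), mk (.negSucc (nat_lit 2294819)) (nat_lit 60) (nat_lit 5) (nat_lit 118), mk (.negSucc (nat_lit 2294819)) (nat_lit 91) (nat_lit 87) (nat_lit 6), mk (.negSucc (nat_lit 2294819)) (nat_lit 60) (nat_lit 5) (nat_lit 103), mk (.negSucc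 (nat_lit 2294819)) (nat_lit 55) (nat_lit 3941) (nat_lit 7), mk (.negSucc (nat_lit 9122849)) (nat_lit 98) (nat_lit 86) (nat_lit 113), mk (.negSucc (nat_lit 7429949)) (nat_lit 59) (nat_lit 1046373) (nat_lit 1), mk (.negSucc (nat_lit 7429949)) (nat_lit 27) (nat_lit 268379735) (nat_lit 0), mk (.negSucc (nat_lit 7429949)) (nat_lit 27) (nat_lit 268379495) (nat_lit 0), mk (.negSucc (nat_lit 7429949)) (nat_lit 54) (nat_lit 1046373) (nat_lit 1), mk (.negSucc (nat_lit 1279079)) (nat_lit 86) (nat_lit 16717654) (nat_lit 0), mk (.negSucc (nat_lit 2971979)) (nat_lit 86) (nat_lit 16717174) (nat_lit 0), mk (.negSucc (nat_lit 2971979)) (nat_lit 110) (nat_lit 16717654) (nat_lit 0), mk (.negSucc (nat_lit 2971979)) (nat_lit 110) (nat_lit 16717174) (nat_lit 0), mk (.negSucc (nat_lit 1692899)) (nat_lit 86) (nat_lit 86) (nat_lit 23), mk (.negSucc (nat_lit 1692899)) (nat_lit 98) (nat_lit 86) (nat_lit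 23), mk (.negSucc (nat_lit 1692899)) (nat_lit 86) (nat_lit 86) (nat_lit 113), mk (.negSucc (nat_lit 752399)) (nat_lit 111) (nat_lit 103) (nat_lit 3861), mk (.ofNat (nat_lit 3722400)) (nat_lit 112) (nat_lit 118) (nat_lit 3861), mk (.negSucc (nat_lit 2977919)) (nat_lit 111) (nat_lit 86) (nat_lit 3863), mk (.negSucc (nat_lit 2676959)) (nat_lit 111) (nat_lit 101) (nat_lit 3863), mk (.negSucc (nat_lit 1488959)) (nat_lit 112) (nat_lit 86) (nat_lit 3863), mk (.negSucc (nat_lit 1338479)) (nat_lit 112) (nat_lit 101) (nat_lit 3863), mk (.ofNat (nat_lit 3346200)) (nat_lit 112) (nat_lit 103) (nat_lit 3861), mk (.ofNat (nat_lit 1053360)) (nat_lit 113) (nat_lit 87) (nat_lit 22), mk (.ofNat (nat_lit 1053360)) (nat_lit 74) (nat_lit 87) (nat_lit 22), mk (.ofNat (nat_lit 1053360)) (nat_lit 113) (nat_lit 87) (nat_lit 97), mk (.ofNat (nat_lit 1053360)) (nat_lit 74) (nat_lit 87) (nat_lit 97), mk (.ofNat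 (nat_lit 1053360)) (nat_lit 24) (nat_lit 268379990) (nat_lit 0), mk (.ofNat (nat_lit 1853640)) (nat_lit 98) (nat_lit 6287719) (nat_lit 0), mk (.ofNat (nat_lit 1354320)) (nat_lit 93) (nat_lit 103) (nat_lit 3861), mk (.ofNat (nat_lit 1805760)) (nat_lit 93) (nat_lit 101) (nat_lit 3863), mk (.negSucc (nat_lit 2407679)) (nat_lit 93) (nat_lit 86) (nat_lit 3863), mk (.ofNat (nat_lit 1692900)) (nat_lit 88) (nat_lit 103) (nat_lit 21), mk (.ofNat (nat_lit 1692900)) (nat_lit 27) (nat_lit 6) (nat_lit 988949), mk (.ofNat (nat_lit 1692900)) (nat_lit 88) (nat_lit 103) (nat_lit 81), mk (.ofNat (nat_lit 1692900)) (nat_lit 27) (nat_lit 6) (nat_lit 989009), mk (.ofNat (nat_lit 922240)) (nat_lit 3) (nat_lit 279620) (nat_lit 0)])]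

theorem okL6 : jobs6.all (checkJ ids6) = true := by decide +kernel

def ids7 : List (List (Int × T)) := [pa4, g5, p2, p3, p4, p5, p6, p7, p8, p9, p10, p11, p12, p13, p14, p15, p16, p17, p18, p19, p20, p21, p22, p23, p24, p25, p26, p27, p28, p29, p30, p31, p32, p33, p34, p35, p36, p37, p38, p39, p40, p41, p42, p43, p44, p45, p46, p47, p48, p49, p50, p51, p52, p53, p54, p55, p56, p57, p58, p59, p60, p61, p62, p63, p64, p65, p66, p67, p68, p69, p70, p71, p72, p73, p74, p75, p76, p77, p78, p79, p80, p81, p82, p83, p84, p85, p86, p87, p88, p89, p90, p91, p92, p93, p94, p95, p96, p97, p98, p99, p100, p101, p102, p103, p104, p105, p106, p107, p108, p109, p110, p111, p112, p113, p114, p115, p116, p117, p118, p119, p120, p121, p122]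

/-- the certificates of the nine identities -/
def fins : List Cert := [
  ((.ofNat (nat_lit 4)), [mk (.ofNat (nat_lit 2)) (nat_lit 3) (nat_lit 70481) (nat_lit 0), mk (.negSucc (nat_lit 3)) (nat_lit 11) (nat_lit 3861) (nat_lit 0), mk (.negSucc (nat_lit 3)) (nat_lit 12) (nat_lit 3861) (nat_lit 0), mk (.negSucc (nat_lit 0)) (nat_lit 3) (nat_lit 279620) (nat_lit 0)]),
  ((.ofNat (nat_lit 456)), [mk (.negSucc (nat_lit 5)) (nat_lit 51) (nat_lit 101) (nat_lit 1), mk (.negSucc (nat_lit 5)) (nat_lit 51) (nat_lit 28437) (nat_lit 0), mk (.ofNat (nat_lit 7)) (nat_lit 49) (nat_lit 101) (nat_lit 1), mk (.ofNat (nat_lit 228)) (nat_lit 3) (nat_lit 18215777) (nat_lit 0), mk (.ofNat (nat_lit 14)) (nat_lit 48) (nat_lit 28437) (nat_lit 0), mk (.ofNat (nat_lit 114)) (nat_lit 13) (nat_lit 7336273) (nat_lit 0), mk (.negSucc (nat_lit 474)) (nat_lit 50) (nat_lit 24342) (nat_lit 0), mk (.ofNat (nat_lit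 646)) (nat_lit 27) (nat_lit 1044822) (nat_lit 0), mk (.negSucc (nat_lit 341)) (nat_lit 26) (nat_lit 5) (nat_lit 3862), mk (.negSucc (nat_lit 1063)) (nat_lit 26) (nat_lit 5) (nat_lit 97), mk (.negSucc (nat_lit 531)) (nat_lit 24) (nat_lit 1044837) (nat_lit 0), mk (.negSucc (nat_lit 455)) (nat_lit 24) (nat_lit 6) (nat_lit 21), mk (.negSucc (nat_lit 455)) (nat_lit 52) (nat_lit 6) (nat_lit 5), mk (.negSucc (nat_lit 455)) (nat_lit 24) (nat_lit 6) (nat_lit 81), mk (.negSucc (nat_lit 1063)) (nat_lit 33) (nat_lit 5) (nat_lit 97), mk (.negSucc (nat_lit 455)) (nat_lit 34) (nat_lit 5) (nat_lit 3862), mk (.ofNat (nat_lit 475)) (nat_lit 26) (nat_lit 6) (nat_lit 81)]),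
  ((.ofNat (nat_lit 4)), [mk (.ofNat (nat_lit 2)) (nat_lit 3) (nat_lit 136017) (nat_lit 0), mk (.negSucc (nat_lit 3)) (nat_lit 39) (nat_lit 1044817) (nat_lit 0), mk (.negSucc (nat_lit 3)) (nat_lit 38) (nat_lit 1044817) (nat_lit 0), mk (.negSucc (nat_lit 0)) (nat_lit 3) (nat_lit 279620) (nat_lit 0)]),
  ((.ofNat (nat_lit 114)), [mk (.negSucc (nat_lit 5)) (nat_lit 53) (nat_lit 28453) (nat_lit 0), mk (.ofNat (nat_lit 114)) (nat_lit 3) (nat_lit 140133) (nat_lit 0), mk (.ofNat (nat_lit 468)) (nat_lit 13) (nat_lit 7336529) (nat_lit 0), mk (.ofNat (nat_lit 114)) (nat_lit 20) (nat_lit 24374) (nat_lit 0), mk (.ofNat (nat_lit 114)) (nat_lit 31) (nat_lit 5) (nat_lit 3878), mk (.ofNat (nat_lit 480)) (nat_lit 31) (nat_lit 5) (nat_lit 98), mk (.negSucc (nat_lit 2015)) (nat_lit 54) (nat_lit 5) (nat_lit 3862), mk (.negSucc (nat_lit 119)) (nat_lit 54) (nat_lit 5) (nat_lit 97), mk (.negSucc (nat_lit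 113)) (nat_lit 25) (nat_lit 5) (nat_lit 38), mk (.negSucc (nat_lit 113)) (nat_lit 55) (nat_lit 5) (nat_lit 6), mk (.negSucc (nat_lit 113)) (nat_lit 56) (nat_lit 5) (nat_lit 6), mk (.negSucc (nat_lit 113)) (nat_lit 25) (nat_lit 5) (nat_lit 98), mk (.negSucc (nat_lit 113)) (nat_lit 25) (nat_lit 1045093) (nat_lit 0), mk (.negSucc (nat_lit 113)) (nat_lit 31) (nat_lit 3941) (nat_lit 2), mk (.negSucc (nat_lit 113)) (nat_lit 31) (nat_lit 1045093) (nat_lit 0), mk (.negSucc (nat_lit 113)) (nat_lit 56) (nat_lit 3941) (nat_lit 0), mk (.negSucc (nat_lit 1871)) (nat_lit 57) (nat_lit 5) (nat_lit 3862), mk (.negSucc (nat_lit 455)) (nat_lit 58) (nat_lit 6) (nat_lit 81), mk (.negSucc (nat_lit 18)) (nat_lit 3) (nat_lit 279620) (nat_lit 0)]),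
  ((.ofNat (nat_lit 1)), [mk (.ofNat (nat_lit 1)) (nat_lit 5) (nat_lit 3909) (nat_lit 0), mk (.negSucc (nat_lit 3)) (nat_lit 43) (nat_lit 5) (nat_lit 33)]),
  ((.ofNat (nat_lit 1)), [mk (.ofNat (nat_lit 1)) (nat_lit 20) (nat_lit 24389) (nat_lit 0), mk (.negSucc (nat_lit 3)) (nat_lit 27) (nat_lit 5) (nat_lit 593)]),
  ((.ofNat (nat_lit 1)), [mk (.ofNat (nat_lit 1)) (nat_lit 20) (nat_lit 6288470) (nat_lit 0), mk (.negSucc (nat_lit 3)) (nat_lit 114) (nat_lit 101) (nat_lit 81)]),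
  ((.ofNat (nat_lit 24)), [mk (.ofNat (nat_lit 3)) (nat_lit 2) (nat_lit 3497798) (nat_lit 0), mk (.negSucc (nat_lit 2)) (nat_lit 3) (nat_lit 218213) (nat_lit 0), mk (.ofNat (nat_lit 6)) (nat_lit 3) (nat_lit 214373) (nat_lit 0), mk (.ofNat (nat_lit 6)) (nat_lit 13) (nat_lit 7336789) (nat_lit 0), mk (.ofNat (nat_lit 6)) (nat_lit 20) (nat_lit 7336789) (nat_lit 0), mk (.negSucc (nat_lit 11)) (nat_lit 55) (nat_lit 6) (nat_lit 3925), mk (.ofNat (nat_lit 6)) (nat_lit 55) (nat_lit 6) (nat_lit 85), mk (.ofNat (nat_lit 6)) (nat_lit 90) (nat_lit 86) (nat_lit 5), mk (.ofNat (nat_lit 3)) (nat_lit 91) (nat_lit 62806) (nat_lit 0), mk (.ofNat (nat_lit 3)) (nat_lit 90) (nat_lit 62806) (nat_lit 0), mk (.ofNat (nat_lit 6)) (nat_lit 92) (nat_lit 85) (nat_lit 6), mk (.ofNat (nat_lit 6)) (nat_lit 55) (nat_lit 1046101) (nat_lit 0), mk (.ofNat (nat_lit 6)) (nat_lit 60) (nat_lit 1046101) (nat_lit 0),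 mk (.negSucc (nat_lit 5)) (nat_lit 60) (nat_lit 5) (nat_lit 101), mk (.negSucc (nat_lit 5)) (nat_lit 55) (nat_lit 3941) (nat_lit 5), mk (.negSucc (nat_lit 5)) (nat_lit 60) (nat_lit 5) (nat_lit 86), mk (.negSucc (nat_lit 5)) (nat_lit 55) (nat_lit 3925) (nat_lit 6), mk (.negSucc (nat_lit 5)) (nat_lit 91) (nat_lit 24421) (nat_lit 0), mk (.negSucc (nat_lit 5)) (nat_lit 91) (nat_lit 28501) (nat_lit 0), mk (.negSucc (nat_lit 23)) (nat_lit 93) (nat_lit 85) (nat_lit 3862), mk (.negSucc (nat_lit 23)) (nat_lit 93) (nat_lit 85) (nat_lit 97), mk (.negSucc (nat_lit 0)) (nat_lit 3) (nat_lit 279620) (nat_lit 0)]),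
  ((.ofNat (nat_lit 8)), [mk (.ofNat (nat_lit 1)) (nat_lit 2) (nat_lit 1727291205) (nat_lit 0), mk (.ofNat (nat_lit 4)) (nat_lit 20) (nat_lit 1610564966) (nat_lit 0), mk (.negSucc (nat_lit 3)) (nat_lit 63) (nat_lit 85) (nat_lit 3942), mk (.ofNat (nat_lit 2)) (nat_lit 63) (nat_lit 85) (nat_lit 102), mk (.ofNat (nat_lit 4)) (nat_lit 121) (nat_lit 1621) (nat_lit 6), mk (.ofNat (nat_lit 2)) (nat_lit 121) (nat_lit 1009237) (nat_lit 0), mk (.negSucc (nat_lit 15)) (nat_lit 122) (nat_lit 1622) (nat_lit 81)])]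

theorem okF : checkC ids7 tgts fins = true := by decide +kernel

/-- the certificate of the identity for the fourth powers -/
def tcert : Int × List (Int × Nat × Nat × Nat) × List (Int × Nat × Nat) :=
  ((.ofNat (nat_lit 18)), [mk (.ofNat (nat_lit 6)) (nat_lit 1) (nat_lit 17919765) (nat_lit 0), mk (.negSucc (nat_lit 5)) (nat_lit 1) (nat_lit 69974) (nat_lit 1), mk (.ofNat (nat_lit 6)) (nat_lit 1) (nat_lit 74085) (nat_lit 0), mk (.negSucc (nat_lit 5)) (nat_lit 1) (nat_lit 71009) (nat_lit 1), mk (.ofNat (nat_lit 2)) (nat_lit 0) (nat_lit 4374) (nat_lit 3861), mk (.negSucc (nat_lit 2)) (nat_lit 1) (nat_lit 69969) (nat_lit 6), mk (.negSucc (nat_lit 2)) (nat_lit 1) (nat_lit 69985) (nat_lit 5), mk (.negSucc (nat_lit 1)) (nat_lit 1) (nat_lit 69910) (nat_lit 5), mk (.ofNat (nat_lit 4)) (nat_lit 1) (nat_lit 22093590) (nat_lit 0), mk (.ofNat (nat_lit 2)) (nat_lit 1) (nat_lit 23142165) (nat_lit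 0), mk (.ofNat (nat_lit 2)) (nat_lit 1) (nat_lit 17899365) (nat_lit 0)],
    [((.ofNat (nat_lit 12)), nat_lit 0, nat_lit 5905520145), ((.ofNat (nat_lit 6)), nat_lit 0, nat_lit 23065185), ((.negSucc (nat_lit 11)), nat_lit 0, nat_lit 24113490), ((.ofNat (nat_lit 6)), nat_lit 0, nat_lit 89910), ((.ofNat (nat_lit 12)), nat_lit 0, nat_lit 49372950), ((.ofNat (nat_lit 6)), nat_lit 0, nat_lit 1110), ((.negSucc (nat_lit 11)), nat_lit 0, nat_lit 4830883605), ((.negSucc (nat_lit 5)), nat_lit 0, nat_lit 18871890), ((.ofNat (nat_lit 3)), nat_lit 0, nat_lit 143205)])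

theorem okT : checkT [pa4, g5] tcert.1 tcert.2.1 tcert.2.2 = true := by decide +kernel

theorem ok : okAll g5 [jobs0, jobs1, jobs2, jobs3, jobs4, jobs5, jobs6] fins tcert = true := by
  have e1 : [pa4, g5] ++ jobs0.map (fun j => j.2.1) = ids1 := rfl
  have e2 : ids1 ++ jobs1.map (fun j => j.2.1) = ids2 := rfl
  have e3 : ids2 ++ jobs2.map (fun j => j.2.1) = ids3 := rfl
  have e4 : ids3 ++ jobs3.map (fun j => j.2.1) = ids4 := rfl
  have e5 : ids4 ++ jobs4.map (fun j => j.2.1) = ids5 := rfl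
  have e6 : ids5 ++ jobs5.map (fun j => j.2.1) = ids6 := rfl
  have e7 : ids6 ++ jobs6.map (fun j => j.2.1) = ids7 := rfl
  simp only [okAll, allOk, allIds, e1, e2, e3, e4, e5, e6, e7, okL0, okL1, okL2, okL3, okL4, okL5, okL6, okF, okT, Bool.and_self]

end Pool.Agent.Alb.W1100

namespace Pool.Agent.Alb

open Pool.Agent.Alb.Chk Pool.Agent.Alb.Gen5

universe u v

/-- Perfect finite-dimensional commutative algebras with `(xx)(xx) = x(x(xx))` and `x(x(y(xy))) = 0`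
are zero. -/
theorem w_1100 {F : Type u} [Field F] [CharZero F] {V : Type v} [AddCommGroup V]
    [Module F V] [FiniteDimensional F V] (m : V →ₗ[F] V →ₗ[F] V)
    (comm : ∀ x y, m x y = m y x)
    (perf : Submodule.span F {z : V | ∃ a b : V, z = m a b} = ⊤)
    (hpa4 : ∀ x, m (m x x) (m x x) = m x (m x (m x x)))
    (h : ∀ x y, m x (m x (m y (m x y))) = 0) : Subsingleton V := by
  have h5 : ∀ z, m z (m z (m z (m z z))) = 0 := by
    intro z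
    exact h z z
  have hg0 : HoldsAll m W1100.g0 := by
    intro ρ
    simp only [W1100.g0, evP, T.ev, h, smul_zero, add_zero]
  have hg : HoldsAll m W1100.g5 :=
    HoldsAll.der m (HoldsAll.der m (HoldsAll.der m hg0 5 7) 5 8) 6 9
  exact Gen5.main m comm perf hpa4 h5 W1100.g5 hg _ _ _ W1100.ok

end Pool.Agent.Alb
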