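import Mathlib
import Pool.Agent.Lib_MP_380d39.Gen5

set_option autoImplicit false

/-!
# The word x(y(x(xy)))

Kernel-checked certificates (1401 lines) for the class of the word x(y(x(xy))).
-/

namespace Pool.Agent.Alb.W1140

open Pool.Agent.Alb.Chk Pool.Agent.Alb.Gen5

universe u w

def g0 : List (Int × T) := [(1, .m (.v 5) (.m (.v 6) (.m (.v 5) (.m (.v 5) (.v 6)))))]

def g5 : List (Int × T) := derP 6 9 (derP 5 8 (derP 5 7 g0))

/-- a line of a certificate -/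
abbrev mk (c : Int) (i a p : Nat) : Int × Nat × Nat × Nat := (c, i, a, p)

abbrev v1 : T := .v (nat_lit 1)
abbrev v2 : T := .v (nat_lit 2)
abbrev v3 : T := .v (nat_lit 3)
abbrev v4 : T := .v (nat_lit 4)
abbrev v5 : T := .v (nat_lit 5)
abbrev v6 : T := .v (nat_lit 6)
abbrev v7 : T := .v (nat_lit 7)
abbrev v8 : T := .v (nat_lit 8)
abbrev v9 : T := .v (nat_lit 9)

def p2 : List (Int × T) :=
  [((.ofNat (nat_lit 4)), .m (.m v5 v6) (.m v7 v8)), ((.negSucc (nat_lit 0)), .m v5 (.m v6 (.m v7 v8))), ((.ofNat (nat_lit 4)), .m (.m v5 v7) (.m v6 v8)), ((.negSucc (nat_lit 0)), .m v5 (.m v7 (.m v6 v8))), ((.ofNat (nat_lit 4)), .m (.m v5 v8) (.m v6 v7)), ((.negSucc (nat_lit 0)), .m v5 (.m v8 (.m v6 v7))), ((.negSucc (nat_lit 0)), .m v6 (.m v5 (.m v7 v8))), ((.negSucc (nat_lit 0)), .m v6 (.m v7 (.m v5 v8))), ((.negSucc (nat_lit 0)), .m v6 (.m v8 (.m v5 v7))), ((.negSucc (nat_lit 0)), .m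 v7 (.m v5 (.m v6 v8))), ((.negSucc (nat_lit 0)), .m v7 (.m v6 (.m v5 v8))), ((.negSucc (nat_lit 0)), .m v7 (.m v8 (.m v5 v6))), ((.negSucc (nat_lit 0)), .m v8 (.m v5 (.m v6 v7))), ((.negSucc (nat_lit 0)), .m v8 (.m v6 (.m v5 v7))), ((.negSucc (nat_lit 0)), .m v8 (.m v7 (.m v5 v6)))]

def p3 : List (Int × T) :=
  [((.ofNat (nat_lit 1)), .m v5 (.m v6 (.m v7 (.m v8 v9)))), ((.ofNat (nat_lit 1)), .m v5 (.m v9 (.m v7 (.m v6 v8)))), ((.ofNat (nat_lit 1)), .m v5 (.m v6 (.m v8 (.m v7 v9)))), ((.ofNat (nat_lit 1)), .m v5 (.m v9 (.m v8 (.m v6 v7)))), ((.ofNat (nat_lit 1)), .m v7 (.m v6 (.m v5 (.m v8 v9)))), ((.ofNat (nat_lit 1)), .m v7 (.m v9 (.m v5 (.m v6 v8)))), ((.ofNat (nat_lit 1)), .m v7 (.m v6 (.m v8 (.m v5 v9)))), ((.ofNat (nat_lit 1)), .m v7 (.m v9 (.m v8 (.m v5 v6)))), ((.ofNat (nat_lit 1)), .m v8 (.m v6 (.m v5 (.m v7 v9)))), ((.ofNat (nat_lit 1)), .m v8 (.m v9 (.m v5 (.m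 v6 v7)))), ((.ofNat (nat_lit 1)), .m v8 (.m v6 (.m v7 (.m v5 v9)))), ((.ofNat (nat_lit 1)), .m v8 (.m v9 (.m v7 (.m v5 v6))))]

/-- the identities in expanded form -/
def jobs0 : List Job := [
  ((.ofNat (nat_lit 2)), p2, [mk (.ofNat (nat_lit 1)) (nat_lit 0) (nat_lit 22136) (nat_lit 0)]),
  ((.ofNat (nat_lit 1)), p3, [mk (.ofNat (nat_lit 1)) (nat_lit 1) (nat_lit 354185) (nat_lit 0)])]

def ids1 : List (List (Int × T)) := [pa4, g5, p2, p3]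

theorem okL0 : jobs0.all (checkJ [pa4, g5]) = true := by decide +kernel

def p4 : List (Int × T) :=
  [((.ofNat (nat_lit 8)), .m v2 (.m v5 v2)), ((.negSucc (nat_lit 7)), .m v1 (.m v5 v3)), ((.ofNat (nat_lit 20)), .m v3 (.m v5 v1)), ((.negSucc (nat_lit 0)), .m v5 v4)]

def p5 : List (Int × T) :=
  [((.ofNat (nat_lit 16)), .m v2 (.m v1 (.m v5 v1))), ((.ofNat (nat_lit 8)), .m v1 (.m v5 v3)), ((.negSucc (nat_lit 3)), .m v3 (.m v5 v1)), ((.ofNat (nat_lit 1)), .m v5 v4)]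

def p6 : List (Int × T) :=
  [((.ofNat (nat_lit 4)), .m v1 (.m v2 (.m v5 v1))), ((.ofNat (nat_lit 1)), .m v5 v4)]

def p7 : List (Int × T) :=
  [((.ofNat (nat_lit 1)), .m v1 (.m v1 (.m v5 v2))), ((.negSucc (nat_lit 0)), .m v1 (.m v5 v3)), ((.ofNat (nat_lit 1)), .m v5 v4)]

def p8 : List (Int × T) :=
  [((.ofNat (nat_lit 1)), .m v6 (.m v1 (.m v5 v2))), ((.ofNat (nat_lit 1)), .m v5 (.m v1 (.m v6 v2))), ((.negSucc (nat_lit 0)), .m v1 (.m v5 (.m v6 v2))), ((.negSucc (nat_lit 0)), .m v1 (.m v6 (.m v5 v2))), ((.ofNat (nat_lit 1)), .m v1 (.m v2 (.m v5 v6))), ((.negSucc (nat_lit 3)), .m v2 (.m v1 (.m v5 v6))), ((.negSucc (nat_lit 0)), .m v6 (.m v5 v3)), ((.negSucc (nat_lit 0)), .m v5 (.m v6 v3)), ((.ofNat (nat_lit 1)), .m v3 (.m v5 v6))]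

def p9 : List (Int × T) :=
  [((.ofNat (nat_lit 10)), .m (.m v5 v1) (.m v1 (.m v6 v1))), ((.ofNat (nat_lit 4)), .m v1 (.m v6 (.m v1 (.m v5 v1)))), ((.negSucc (nat_lit 0)), .m v5 (.m v2 (.m v6 v1))), ((.ofNat (nat_lit 4)), .m v2 (.m v5 (.m v6 v1))), ((.ofNat (nat_lit 4)), .m (.m v5 v2) (.m v6 v1)), ((.ofNat (nat_lit 5)), .m (.m v5 v1) (.m v6 v2)), ((.negSucc (nat_lit 1)), .m v1 (.m v5 (.m v6 v2))), ((.negSucc (nat_lit 1)), .m v6 (.m v5 v3)), ((.ofNat (nat_lit 5)), .m v3 (.m v5 v6))]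

def p10 : List (Int × T) :=
  [((.ofNat (nat_lit 2)), .m v5 (.m v1 (.m v1 (.m v6 v1)))), ((.negSucc (nat_lit 3)), .m v5 (.m v2 (.m v6 v1))), ((.ofNat (nat_lit 1)), .m v5 (.m v1 (.m v6 v2))), ((.ofNat (nat_lit 1)), .m v5 (.m v6 v3))]

def p11 : List (Int × T) :=
  [((.ofNat (nat_lit 10)), .m (.m v6 v1) (.m v1 (.m v5 v1))), ((.negSucc (nat_lit 3)), .m v1 (.m v6 (.m v1 (.m v5 v1)))), ((.ofNat (nat_lit 1)), .m v5 (.m v2 (.m v6 v1))), ((.ofNat (nat_lit 5)), .m v2 (.m v6 (.m v5 v1))), ((.ofNat (nat_lit 1)), .m v2 (.m v5 (.m v6 v1))), ((.ofNat (nat_lit 1)), .m (.m v5 v2) (.m v6 v1)), ((.ofNat (nat_lit 2)), .m v1 (.m v5 (.m v6 v2))), ((.ofNat (nat_lit 5)), .m v2 (.m v1 (.m v5 v6))), ((.ofNat (nat_lit 2)), .m v6 (.m v5 v3))]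

/-- certificates of level 1 -/
def jobs1 : List Job := [
  ((.ofNat (nat_lit 36)), p4,
    [mk (.ofNat (nat_lit 96)) (nat_lit 2) (nat_lit 4389) (nat_lit 0), mk (.ofNat (nat_lit 16)) (nat_lit 2) (nat_lit 1122069) (nat_lit 0), mk (.ofNat (nat_lit 20)) (nat_lit 2) (nat_lit 4373) (nat_lit 1), mk (.ofNat (nat_lit 63)) (nat_lit 3) (nat_lit 69969) (nat_lit 0), mk (.negSucc (nat_lit 5)) (nat_lit 3) (nat_lit 69909) (nat_lit 0)]),
  ((.ofNat (nat_lit 12)), p5,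
    [mk (.ofNat (nat_lit 4)) (nat_lit 2) (nat_lit 4373) (nat_lit 1), mk (.ofNat (nat_lit 16)) (nat_lit 2) (nat_lit 1122069) (nat_lit 0), mk (.ofNat (nat_lit 3)) (nat_lit 3) (nat_lit 69969) (nat_lit 0), mk (.ofNat (nat_lit 18)) (nat_lit 3) (nat_lit 69909) (nat_lit 0)]),
  ((.ofNat (nat_lit 12)), p6,
    [mk (.ofNat (nat_lit 4)) (nat_lit 2) (nat_lit 4373) (nat_lit 1), mk (.ofNat (nat_lit 3)) (nat_lit 3) (nat_lit 69969) (nat_lit 0), mk (.ofNat (nat_lit 2)) (nat_lit 3) (nat_lit 69909) (nat_lit 0)]),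
  ((.ofNat (nat_lit 12)), p7,
    [mk (.ofNat (nat_lit 3)) (nat_lit 3) (nat_lit 69969) (nat_lit 0), mk (.negSucc (nat_lit 1)) (nat_lit 3) (nat_lit 69909) (nat_lit 0)]),
  ((.ofNat (nat_lit 6)), p8,
    [mk (.negSucc (nat_lit 2)) (nat_lit 3) (nat_lit 69974) (nat_lit 0), mk (.negSucc (nat_lit 2)) (nat_lit 3) (nat_lit 69989) (nat_lit 0), mk (.ofNat (nat_lit 3)) (nat_lit 3) (nat_lit 71009) (nat_lit 0), mk (.negSucc (nat_lit 1)) (nat_lit 2) (nat_lit 1122149) (nat_lit 0), mk (.ofNat (nat_lit 1)) (nat_lit 3) (nat_lit 86294) (nat_lit 0)]),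
  ((.ofNat (nat_lit 72)), p9,
    [mk (.ofNat (nat_lit 96)) (nat_lit 2) (nat_lit 4694) (nat_lit 0), mk (.ofNat (nat_lit 30)) (nat_lit 2) (nat_lit 4438) (nat_lit 1), mk (.ofNat (nat_lit 24)) (nat_lit 2) (nat_lit 1142549) (nat_lit 0), mk (.ofNat (nat_lit 96)) (nat_lit 2) (nat_lit 1138454) (nat_lit 0), mk (.ofNat (nat_lit 63)) (nat_lit 3) (nat_lit 71009) (nat_lit 0), mk (.negSucc (nat_lit 8)) (nat_lit 3) (nat_lit 69989) (nat_lit 0), mk (.ofNat (nat_lit 63)) (nat_lit 3) (nat_lit 69974) (nat_lit 0), mk (.ofNat (nat_lit 8)) (nat_lit 2) (nat_lit 1122149) (nat_lit 0), mk (.ofNat (nat_lit 10)) (nat_lit 2) (nat_lit 4373) (nat_lit 6), mk (.ofNat (nat_lit 10)) (nat_lit 2) (nat_lit 4374) (nat_lit 5), mk (.ofNat (nat_lit 45)) (nat_lit 3) (nat_lit 86294) (nat_lit 0)]),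
  ((.ofNat (nat_lit 3)), p10,
    [mk (.negSucc (nat_lit 0)) (nat_lit 2) (nat_lit 4374) (nat_lit 5)]),
  ((.ofNat (nat_lit 72)), p11,
    [mk (.ofNat (nat_lit 24)) (nat_lit 2) (nat_lit 4694) (nat_lit 0), mk (.ofNat (nat_lit 30)) (nat_lit 2) (nat_lit 4438) (nat_lit 1), mk (.ofNat (nat_lit 24)) (nat_lit 2) (nat_lit 1138454) (nat_lit 0), mk (.ofNat (nat_lit 96)) (nat_lit 2) (nat_lit 1142549) (nat_lit 0), mk (.ofNat (nat_lit 27)) (nat_lit 3) (nat_lit 71009) (nat_lit 0), mk (.ofNat (nat_lit 99)) (nat_lit 3) (nat_lit 69989) (nat_lit 0), mk (.ofNat (nat_lit 27)) (nat_lit 3) (nat_lit 69974) (nat_lit 0), mk (.ofNat (nat_lit 10)) (nat_lit 2) (nat_lit 4373) (nat_lit 6), mk (.ofNat (nat_lit 32)) (nat_lit 2) (nat_lit 1122149) (nat_lit 0), mk (.ofNat (nat_lit 10)) (nat_lit 2) (nat_lit 4374) (nat_lit 5), mk (.negSucc (nat_lit 14)) (nat_lit 3) (nat_lit 86294) (nat_lit 0)])]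

theorem okL1 : jobs1.all (checkJ ids1) = true := by decide +kernel

def ids2 : List (List (Int × T)) := [pa4, g5, p2, p3, p4, p5, p6, p7, p8, p9, p10, p11]

def p12 : List (Int × T) :=
  [((.ofNat (nat_lit 4)), .m (.m v5 v1) (.m v2 (.m v6 v1))), ((.ofNat (nat_lit 1)), .m v4 (.m v5 v6))]

def p13 : List (Int × T) :=
  [((.ofNat (nat_lit 1)), .m v3 (.m v1 (.m v5 v2)))]

def p14 : List (Int × T) :=
  [((.ofNat (nat_lit 1)), .m v3 (.m v2 (.m v5 v1)))]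

def p15 : List (Int × T) :=
  [((.ofNat (nat_lit 1)), .m v3 (.m v5 v3))]

def p16 : List (Int × T) :=
  [((.ofNat (nat_lit 1)), .m v2 (.m v5 v4))]

def p17 : List (Int × T) :=
  [((.ofNat (nat_lit 1)), .m v2 (.m v3 (.m v5 v1)))]

def p18 : List (Int × T) :=
  [((.ofNat (nat_lit 1)), .m v3 (.m v5 v2))]

def p19 : List (Int × T) :=
  [((.ofNat (nat_lit 1)), .m v2 (.m v5 v3))]

def p20 : List (Int × T) :=
  [((.ofNat (nat_lit 1)), .m v2 (.m v2 (.m v5 v2)))]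

def p21 : List (Int × T) :=
  [((.ofNat (nat_lit 1)), .m v2 (.m v1 (.m v5 v2)))]

def p22 : List (Int × T) :=
  [((.ofNat (nat_lit 4)), .m v1 (.m v6 (.m v2 (.m v5 v1)))), ((.ofNat (nat_lit 1)), .m v5 (.m v6 v4))]

def p23 : List (Int × T) :=
  [((.ofNat (nat_lit 1)), .m v1 (.m v5 v4))]

def p24 : List (Int × T) :=
  [((.ofNat (nat_lit 1)), .m v3 (.m v5 v4))]

def p25 : List (Int × T) :=
  [((.ofNat (nat_lit 1)), .m v4 (.m v5 v2))]

def p26 : List (Int × T) :=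
  [((.ofNat (nat_lit 1)), .m v4 (.m v5 v1))]

def p27 : List (Int × T) :=
  [((.ofNat (nat_lit 1)), .m v4 (.m v1 (.m v5 v2)))]

def p28 : List (Int × T) :=
  [((.ofNat (nat_lit 1)), .m v2 (.m v1 (.m v2 (.m v5 v1))))]

def p29 : List (Int × T) :=
  [((.ofNat (nat_lit 1)), .m v2 (.m v1 (.m v5 v3)))]

def p30 : List (Int × T) :=
  [((.ofNat (nat_lit 1)), .m v4 (.m v5 v3))]

def p31 : List (Int × T) :=
  [((.ofNat (nat_lit 2)), .m v2 (.m v6 (.m v1 (.m v5 v1)))), ((.ofNat (nat_lit 2)), .m (.m v5 v1) (.m v6 v3)), ((.ofNat (nat_lit 1)), .m v2 (.m v6 (.m v5 v2)))]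

def p32 : List (Int × T) :=
  [((.ofNat (nat_lit 1)), .m v5 (.m v1 (.m v1 (.m v6 v2)))), ((.negSucc (nat_lit 0)), .m v5 (.m v1 (.m v6 v3))), ((.ofNat (nat_lit 1)), .m v5 (.m v6 v4))]

def p33 : List (Int × T) :=
  [((.ofNat (nat_lit 4)), .m v5 (.m v1 (.m v2 (.m v6 v1)))), ((.ofNat (nat_lit 1)), .m v5 (.m v6 v4))]

def p34 : List (Int × T) :=
  [((.ofNat (nat_lit 16)), .m v2 (.m (.m v5 v1) (.m v6 v1))), ((.ofNat (nat_lit 8)), .m v1 (.m v3 (.m v5 v6))), ((.negSucc (nat_lit 19)), .m v3 (.m v1 (.m v5 v6))), ((.negSucc (nat_lit 2)), .m v4 (.m v5 v6))]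

def p35 : List (Int × T) :=
  [((.ofNat (nat_lit 8)), .m v5 (.m v2 (.m v6 v2))), ((.ofNat (nat_lit 20)), .m v5 (.m v3 (.m v6 v1))), ((.negSucc (nat_lit 7)), .m v5 (.m v1 (.m v6 v3))), ((.negSucc (nat_lit 0)), .m v5 (.m v6 v4))]

def p36 : List (Int × T) :=
  [((.ofNat (nat_lit 1)), .m v3 (.m v1 (.m v5 v1)))]

def p37 : List (Int × T) :=
  [((.ofNat (nat_lit 1)), .m v3 (.m v1 (.m v1 (.m v5 v1))))]

def p38 : List (Int × T) :=
  [((.ofNat (nat_lit 1)), .m v1 (.m v1 (.m v5 v3)))]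

def p39 : List (Int × T) :=
  [((.ofNat (nat_lit 1)), .m v1 (.m v3 (.m v5 v1)))]

def p40 : List (Int × T) :=
  [((.ofNat (nat_lit 1)), .m v2 (.m v2 (.m v5 v1)))]

def p41 : List (Int × T) :=
  [((.ofNat (nat_lit 1)), .m v1 (.m v2 (.m v5 v2)))]

def p42 : List (Int × T) :=
  [((.ofNat (nat_lit 1)), .m v1 (.m v1 (.m v2 (.m v5 v1))))]

def p43 : List (Int × T) :=
  [((.ofNat (nat_lit 1)), .m v1 (.m v2 (.m v1 (.m v5 v1))))]

def p44 : List (Int × T) :=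
  [((.ofNat (nat_lit 1)), .m v2 (.m v1 (.m v1 (.m v5 v1))))]

def p45 : List (Int × T) :=
  [((.ofNat (nat_lit 1)), .m v4 (.m v1 (.m v5 v1)))]

def p46 : List (Int × T) :=
  [((.ofNat (nat_lit 8)), .m v2 (.m v5 (.m v6 v2))), ((.ofNat (nat_lit 8)), .m v2 (.m v6 (.m v5 v2))), ((.ofNat (nat_lit 24)), .m v1 (.m v3 (.m v5 v6))), ((.ofNat (nat_lit 4)), .m v3 (.m v1 (.m v5 v6))), ((.ofNat (nat_lit 8)), .m v6 (.m v5 v4)), ((.ofNat (nat_lit 8)), .m v5 (.m v6 v4)), ((.negSucc (nat_lit 16)), .m v4 (.m v5 v6))]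

def p47 : List (Int × T) :=
  [((.ofNat (nat_lit 1)), .m v2 (.m v1 (.m v1 (.m v5 v2))))]

def p48 : List (Int × T) :=
  [((.ofNat (nat_lit 1)), .m v1 (.m v1 (.m v1 (.m v5 v2))))]

def p49 : List (Int × T) :=
  [((.ofNat (nat_lit 1)), .m v2 (.m v2 (.m v1 (.m v5 v1))))]

def p50 : List (Int × T) :=
  [((.ofNat (nat_lit 1)), .m v2 (.m v1 (.m v1 (.m v1 (.m v5 v1)))))]

/-- certificates of level 2 -/
def jobs2 : List Job := [
  ((.ofNat (nat_lit 1800)), p12,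
    [mk (.ofNat (nat_lit 9060)) (nat_lit 3) (nat_lit 70230) (nat_lit 0), mk (.negSucc (nat_lit 539)) (nat_lit 3) (nat_lit 70245) (nat_lit 0), mk (.ofNat (nat_lit 60)) (nat_lit 2) (nat_lit 4438) (nat_lit 2), mk (.negSucc (nat_lit 2399)) (nat_lit 2) (nat_lit 1142565) (nat_lit 0), mk (.ofNat (nat_lit 1296)) (nat_lit 9) (nat_lit 86) (nat_lit 1), mk (.ofNat (nat_lit 756)) (nat_lit 11) (nat_lit 86) (nat_lit 1), mk (.negSucc (nat_lit 11939)) (nat_lit 11) (nat_lit 101) (nat_lit 1), mk (.negSucc (nat_lit 299)) (nat_lit 2) (nat_lit 8790) (nat_lit 0), mk (.negSucc (nat_lit 48959)) (nat_lit 9) (nat_lit 24342) (nat_lit 0), mk (.ofNat (nat_lit 38208)) (nat_lit 9) (nat_lit 61797) (nat_lit 0), mk (.ofNat (nat_lit 39408)) (nat_lit 11) (nat_lit 61797) (nat_lit 0), mk (.negSucc (nat_lit 1679)) (nat_lit 11) (nat_lit 61782) (nat_lit 0), mk (.negSucc (nat_lit 47759)) (nat_lit 2) (nat_lit 301031190)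 (nat_lit 0), mk (.ofNat (nat_lit 9810)) (nat_lit 3) (nat_lit 69974) (nat_lit 1), mk (.negSucc (nat_lit 2129)) (nat_lit 3) (nat_lit 71009) (nat_lit 1), mk (.negSucc (nat_lit 3989)) (nat_lit 3) (nat_lit 69989) (nat_lit 1), mk (.ofNat (nat_lit 1710)) (nat_lit 3) (nat_lit 18280785) (nat_lit 0), mk (.ofNat (nat_lit 4410)) (nat_lit 3) (nat_lit 17919765) (nat_lit 0), mk (.ofNat (nat_lit 1710)) (nat_lit 3) (nat_lit 17953110) (nat_lit 0), mk (.ofNat (nat_lit 4080)) (nat_lit 3) (nat_lit 74085) (nat_lit 0), mk (.ofNat (nat_lit 3690)) (nat_lit 3) (nat_lit 18215265) (nat_lit 0), mk (.ofNat (nat_lit 4530)) (nat_lit 3) (nat_lit 136545) (nat_lit 0), mk (.negSucc (nat_lit 6569)) (nat_lit 3) (nat_lit 17915670) (nat_lit 0), mk (.negSucc (nat_lit 54869)) (nat_lit 3) (nat_lit 17953125) (nat_lit 0), mk (.negSucc (nat_lit 269)) (nat_lit 3) (nat_lit 86310) (nat_lit 0), mk (.negSucc (nat_lit 374))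 (nat_lit 4) (nat_lit 5) (nat_lit 6), mk (.ofNat (nat_lit 2040)) (nat_lit 10) (nat_lit 28437) (nat_lit 0), mk (.ofNat (nat_lit 11820)) (nat_lit 10) (nat_lit 61797) (nat_lit 0), mk (.negSucc (nat_lit 74)) (nat_lit 4) (nat_lit 6) (nat_lit 5), mk (.ofNat (nat_lit 12240)) (nat_lit 10) (nat_lit 24342) (nat_lit 0), mk (.negSucc (nat_lit 3359)) (nat_lit 10) (nat_lit 86) (nat_lit 1), mk (.negSucc (nat_lit 17919)) (nat_lit 2) (nat_lit 287306085) (nat_lit 0), mk (.negSucc (nat_lit 524)) (nat_lit 5) (nat_lit 3941) (nat_lit 0), mk (.negSucc (nat_lit 104)) (nat_lit 4) (nat_lit 3941) (nat_lit 0), mk (.negSucc (nat_lit 3419)) (nat_lit 10) (nat_lit 61782) (nat_lit 0), mk (.negSucc (nat_lit 2264)) (nat_lit 3) (nat_lit 69985) (nat_lit 5), mk (.negSucc (nat_lit 1064)) (nat_lit 3) (nat_lit 69969) (nat_lit 6), mk (.negSucc (nat_lit 2129)) (nat_lit 3) (nat_lit 17954385) (nat_lit 0), mk (.negSucc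 (nat_lit 519)) (nat_lit 3) (nat_lit 17899365) (nat_lit 0), mk (.negSucc (nat_lit 1609)) (nat_lit 3) (nat_lit 69910) (nat_lit 5), mk (.negSucc (nat_lit 2009)) (nat_lit 3) (nat_lit 69909) (nat_lit 6), mk (.negSucc (nat_lit 5669)) (nat_lit 3) (nat_lit 86294) (nat_lit 1), mk (.ofNat (nat_lit 17650)) (nat_lit 3) (nat_lit 22093590) (nat_lit 0), mk (.ofNat (nat_lit 350)) (nat_lit 3) (nat_lit 23142165) (nat_lit 0), mk (.negSucc (nat_lit 3494)) (nat_lit 6) (nat_lit 5) (nat_lit 6), mk (.negSucc (nat_lit 9434)) (nat_lit 6) (nat_lit 6) (nat_lit 5), mk (.ofNat (nat_lit 11940)) (nat_lit 6) (nat_lit 3941) (nat_lit 0)]),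
  ((.ofNat (nat_lit 1680)), p13,
    [mk (.ofNat (nat_lit 264)) (nat_lit 3) (nat_lit 69970) (nat_lit 1), mk (.ofNat (nat_lit 456)) (nat_lit 3) (nat_lit 70181) (nat_lit 0), mk (.ofNat (nat_lit 93)) (nat_lit 4) (nat_lit 3877) (nat_lit 0), mk (.ofNat (nat_lit 60)) (nat_lit 2) (nat_lit 287306321) (nat_lit 0), mk (.ofNat (nat_lit 528)) (nat_lit 7) (nat_lit 5) (nat_lit 17), mk (.negSucc (nat_lit 407)) (nat_lit 3) (nat_lit 69969) (nat_lit 2), mk (.negSucc (nat_lit 359)) (nat_lit 3) (nat_lit 17953361) (nat_lit 0), mk (.ofNat (nat_lit 124)) (nat_lit 2) (nat_lit 8741) (nat_lit 0), mk (.negSucc (nat_lit 87)) (nat_lit 3) (nat_lit 74005) (nat_lit 1), mk (.ofNat (nat_lit 180)) (nat_lit 6) (nat_lit 5) (nat_lit 2), mk (.ofNat (nat_lit 272)) (nat_lit 3) (nat_lit 69909) (nat_lit 2), mk (.negSucc (nat_lit 407)) (nat_lit 3) (nat_lit 135761) (nat_lit 0), mk (.ofNat (nat_lit 124)) (nat_lit 3)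 (nat_lit 17899301) (nat_lit 0), mk (.ofNat (nat_lit 45)) (nat_lit 6) (nat_lit 3877) (nat_lit 0), mk (.ofNat (nat_lit 3)) (nat_lit 3) (nat_lit 279620) (nat_lit 0)]),
  ((.ofNat (nat_lit 360)), p14,
    [mk (.ofNat (nat_lit 360)) (nat_lit 3) (nat_lit 18018641) (nat_lit 0), mk (.negSucc (nat_lit 179)) (nat_lit 3) (nat_lit 17953106) (nat_lit 0), mk (.negSucc (nat_lit 119)) (nat_lit 2) (nat_lit 287306066) (nat_lit 0), mk (.ofNat (nat_lit 360)) (nat_lit 7) (nat_lit 3861) (nat_lit 1), mk (.negSucc (nat_lit 131)) (nat_lit 7) (nat_lit 1044817) (nat_lit 0), mk (.ofNat (nat_lit 30)) (nat_lit 3) (nat_lit 74005) (nat_lit 1), mk (.negSucc (nat_lit 179)) (nat_lit 6) (nat_lit 5) (nat_lit 17), mk (.negSucc (nat_lit 119)) (nat_lit 3) (nat_lit 69909) (nat_lit 2), mk (.ofNat (nat_lit 180)) (nat_lit 3) (nat_lit 135761) (nat_lit 0), mk (.negSucc (nat_lit 191)) (nat_lit 6) (nat_lit 3861) (nat_lit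 1), mk (.negSucc (nat_lit 27)) (nat_lit 3) (nat_lit 18947861) (nat_lit 0), mk (.ofNat (nat_lit 132)) (nat_lit 6) (nat_lit 1044817) (nat_lit 0), mk (.negSucc (nat_lit 21)) (nat_lit 3) (nat_lit 78101) (nat_lit 0), mk (.negSucc (nat_lit 108)) (nat_lit 3) (nat_lit 279620) (nat_lit 0)]),
  ((.ofNat (nat_lit 1104)), p15,
    [mk (.ofNat (nat_lit 120)) (nat_lit 2) (nat_lit 4421) (nat_lit 0), mk (.negSucc (nat_lit 239)) (nat_lit 4) (nat_lit 1044817) (nat_lit 0), mk (.negSucc (nat_lit 239)) (nat_lit 4) (nat_lit 3861) (nat_lit 1), mk (.negSucc (nat_lit 335)) (nat_lit 4) (nat_lit 5) (nat_lit 17), mk (.ofNat (nat_lit 1320)) (nat_lit 3) (nat_lit 70481) (nat_lit 0), mk (.ofNat (nat_lit 792)) (nat_lit 3) (nat_lit 70181) (nat_lit 0), mk (.ofNat (nat_lit 960)) (nat_lit 3) (nat_lit 74021) (nat_lit 0), mk (.negSucc (nat_lit 1367)) (nat_lit 3) (nat_lit 69971) (nat_lit 0), mk (.ofNat (nat_lit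 435)) (nat_lit 5) (nat_lit 3877) (nat_lit 0), mk (.negSucc (nat_lit 44)) (nat_lit 4) (nat_lit 3877) (nat_lit 0), mk (.ofNat (nat_lit 1080)) (nat_lit 3) (nat_lit 69941) (nat_lit 0), mk (.ofNat (nat_lit 352)) (nat_lit 2) (nat_lit 1122101) (nat_lit 0), mk (.negSucc (nat_lit 8543)) (nat_lit 7) (nat_lit 5) (nat_lit 2), mk (.ofNat (nat_lit 1104)) (nat_lit 7) (nat_lit 3877) (nat_lit 0), mk (.negSucc (nat_lit 59)) (nat_lit 2) (nat_lit 8741) (nat_lit 0), mk (.ofNat (nat_lit 2796)) (nat_lit 6) (nat_lit 5) (nat_lit 2), mk (.negSucc (nat_lit 3191)) (nat_lit 3) (nat_lit 135761) (nat_lit 0), mk (.negSucc (nat_lit 743)) (nat_lit 6) (nat_lit 3877) (nat_lit 0), mk (.ofNat (nat_lit 264)) (nat_lit 3) (nat_lit 74066) (nat_lit 0), mk (.ofNat (nat_lit 936)) (nat_lit 3) (nat_lit 78101) (nat_lit 0), mk (.negSucc (nat_lit 332)) (nat_lit 3) (nat_lit 279620) (nat_lit 0)]),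
  ((.ofNat (nat_lit 360)), p16,
    [mk (.negSucc (nat_lit 44)) (nat_lit 5) (nat_lit 5) (nat_lit 17), mk (.negSucc (nat_lit 44)) (nat_lit 4) (nat_lit 5) (nat_lit 17), mk (.ofNat (nat_lit 180)) (nat_lit 3) (nat_lit 70181) (nat_lit 0), mk (.ofNat (nat_lit 132)) (nat_lit 7) (nat_lit 1044817) (nat_lit 0), mk (.negSucc (nat_lit 719)) (nat_lit 7) (nat_lit 3861) (nat_lit 1), mk (.negSucc (nat_lit 89)) (nat_lit 3) (nat_lit 69969) (nat_lit 2), mk (.ofNat (nat_lit 60)) (nat_lit 3) (nat_lit 69909) (nat_lit 2), mk (.negSucc (nat_lit 89)) (nat_lit 3) (nat_lit 135761) (nat_lit 0), mk (.negSucc (nat_lit 131)) (nat_lit 6) (nat_lit 1044817) (nat_lit 0), mk (.ofNat (nat_lit 192)) (nat_lit 6) (nat_lit 3861) (nat_lit 1), mk (.ofNat (nat_lit 88)) (nat_lit 3) (nat_lit 18947861) (nat_lit 0), mk (.ofNat (nat_lit 180)) (nat_lit 6) (nat_lit 5) (nat_lit 17), mk (.negSucc (nat_lit 29)) (nat_lit 3)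 (nat_lit 74005) (nat_lit 1), mk (.ofNat (nat_lit 22)) (nat_lit 3) (nat_lit 78101) (nat_lit 0), mk (.negSucc (nat_lit 10)) (nat_lit 3) (nat_lit 279620) (nat_lit 0)]),
  ((.ofNat (nat_lit 13920)), p17,
    [mk (.ofNat (nat_lit 3156)) (nat_lit 3) (nat_lit 70181) (nat_lit 0), mk (.negSucc (nat_lit 326)) (nat_lit 5) (nat_lit 3877) (nat_lit 0), mk (.negSucc (nat_lit 416)) (nat_lit 4) (nat_lit 3877) (nat_lit 0), mk (.negSucc (nat_lit 2343)) (nat_lit 2) (nat_lit 1122101) (nat_lit 0), mk (.negSucc (nat_lit 3515)) (nat_lit 3) (nat_lit 69971) (nat_lit 0), mk (.ofNat (nat_lit 3516)) (nat_lit 3) (nat_lit 70481) (nat_lit 0), mk (.negSucc (nat_lit 3515)) (nat_lit 3) (nat_lit 69941) (nat_lit 0), mk (.ofNat (nat_lit 696)) (nat_lit 4) (nat_lit 5) (nat_lit 2), mk (.negSucc (nat_lit 1079)) (nat_lit 7) (nat_lit 5) (nat_lit 2), mk (.negSucc (nat_lit 6311)) (nat_lit 7) (nat_lit 3877) (nat_lit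 0), mk (.ofNat (nat_lit 372)) (nat_lit 2) (nat_lit 8741) (nat_lit 0), mk (.negSucc (nat_lit 9731)) (nat_lit 6) (nat_lit 5) (nat_lit 2), mk (.ofNat (nat_lit 8154)) (nat_lit 3) (nat_lit 135761) (nat_lit 0), mk (.ofNat (nat_lit 1758)) (nat_lit 6) (nat_lit 3877) (nat_lit 0), mk (.negSucc (nat_lit 1757)) (nat_lit 3) (nat_lit 74066) (nat_lit 0), mk (.ofNat (nat_lit 1172)) (nat_lit 3) (nat_lit 78101) (nat_lit 0), mk (.negSucc (nat_lit 1978)) (nat_lit 3) (nat_lit 279620) (nat_lit 0)]),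
  ((.ofNat (nat_lit 1080)), p18,
    [mk (.ofNat (nat_lit 360)) (nat_lit 2) (nat_lit 4645) (nat_lit 0), mk (.ofNat (nat_lit 378)) (nat_lit 3) (nat_lit 69925) (nat_lit 0), mk (.ofNat (nat_lit 12)) (nat_lit 2) (nat_lit 4373) (nat_lit 2), mk (.negSucc (nat_lit 3221)) (nat_lit 3) (nat_lit 70225) (nat_lit 0), mk (.ofNat (nat_lit 360)) (nat_lit 5) (nat_lit 3861) (nat_lit 0), mk (.ofNat (nat_lit 72)) (nat_lit 4) (nat_lit 3861) (nat_lit 0), mk (.negSucc (nat_lit 176)) (nat_lit 4) (nat_lit 5) (nat_lit 1), mk (.ofNat (nat_lit 1968)) (nat_lit 3) (nat_lit 69970) (nat_lit 0), mk (.ofNat (nat_lit 600)) (nat_lit 2) (nat_lit 1122085) (nat_lit 0), mk (.negSucc (nat_lit 1091)) (nat_lit 7) (nat_lit 5) (nat_lit 1), mk (.negSucc (nat_lit 1235)) (nat_lit 7) (nat_lit 3861) (nat_lit 0), mk (.ofNat (nat_lit 1731)) (nat_lit 6) (nat_lit 5) (nat_lit 1), mk (.negSucc (nat_lit 327)) (nat_lit 3) (nat_lit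 74005) (nat_lit 0), mk (.negSucc (nat_lit 491)) (nat_lit 6) (nat_lit 3861) (nat_lit 0), mk (.ofNat (nat_lit 508)) (nat_lit 3) (nat_lit 279620) (nat_lit 0)]),
  ((.ofNat (nat_lit 96)), p19,
    [mk (.negSucc (nat_lit 47)) (nat_lit 2) (nat_lit 4405) (nat_lit 0), mk (.ofNat (nat_lit 150)) (nat_lit 3) (nat_lit 69925) (nat_lit 0), mk (.ofNat (nat_lit 16)) (nat_lit 2) (nat_lit 1122085) (nat_lit 0), mk (.negSucc (nat_lit 5)) (nat_lit 5) (nat_lit 3861) (nat_lit 0), mk (.negSucc (nat_lit 5)) (nat_lit 4) (nat_lit 3861) (nat_lit 0), mk (.ofNat (nat_lit 9)) (nat_lit 4) (nat_lit 5) (nat_lit 1), mk (.negSucc (nat_lit 89)) (nat_lit 3) (nat_lit 70225) (nat_lit 0), mk (.negSucc (nat_lit 11)) (nat_lit 3) (nat_lit 69970) (nat_lit 0), mk (.ofNat (nat_lit 4)) (nat_lit 2) (nat_lit 4373) (nat_lit 2), mk (.ofNat (nat_lit 276)) (nat_lit 7) (nat_lit 3861) (nat_lit 0), mk (.negSucc (nat_lit 179))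 (nat_lit 7) (nat_lit 5) (nat_lit 1), mk (.negSucc (nat_lit 98)) (nat_lit 6) (nat_lit 5) (nat_lit 1), mk (.negSucc (nat_lit 67)) (nat_lit 3) (nat_lit 74005) (nat_lit 0), mk (.ofNat (nat_lit 108)) (nat_lit 6) (nat_lit 3861) (nat_lit 0), mk (.ofNat (nat_lit 22)) (nat_lit 3) (nat_lit 279620) (nat_lit 0)]),
  ((.ofNat (nat_lit 1392)), p20,
    [mk (.ofNat (nat_lit 996)) (nat_lit 3) (nat_lit 69941) (nat_lit 0), mk (.ofNat (nat_lit 664)) (nat_lit 2) (nat_lit 1122101) (nat_lit 0), mk (.ofNat (nat_lit 996)) (nat_lit 3) (nat_lit 69971) (nat_lit 0), mk (.ofNat (nat_lit 57)) (nat_lit 5) (nat_lit 3877) (nat_lit 0), mk (.negSucc (nat_lit 995)) (nat_lit 3) (nat_lit 70481) (nat_lit 0), mk (.negSucc (nat_lit 779)) (nat_lit 3) (nat_lit 70181) (nat_lit 0), mk (.ofNat (nat_lit 111)) (nat_lit 4) (nat_lit 3877) (nat_lit 0), mk (.ofNat (nat_lit 648)) (nat_lit 7) (nat_lit 5) (nat_lit 2), mk (.ofNat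 (nat_lit 1560)) (nat_lit 7) (nat_lit 3877) (nat_lit 0), mk (.negSucc (nat_lit 83)) (nat_lit 2) (nat_lit 8741) (nat_lit 0), mk (.negSucc (nat_lit 1829)) (nat_lit 3) (nat_lit 135761) (nat_lit 0), mk (.ofNat (nat_lit 2220)) (nat_lit 6) (nat_lit 5) (nat_lit 2), mk (.negSucc (nat_lit 497)) (nat_lit 6) (nat_lit 3877) (nat_lit 0), mk (.ofNat (nat_lit 498)) (nat_lit 3) (nat_lit 74066) (nat_lit 0), mk (.negSucc (nat_lit 331)) (nat_lit 3) (nat_lit 78101) (nat_lit 0), mk (.ofNat (nat_lit 387)) (nat_lit 3) (nat_lit 279620) (nat_lit 0)]),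
  ((.ofNat (nat_lit 4320)), p21,
    [mk (.ofNat (nat_lit 360)) (nat_lit 2) (nat_lit 4645) (nat_lit 0), mk (.ofNat (nat_lit 378)) (nat_lit 3) (nat_lit 69925) (nat_lit 0), mk (.ofNat (nat_lit 360)) (nat_lit 5) (nat_lit 3861) (nat_lit 0), mk (.ofNat (nat_lit 72)) (nat_lit 4) (nat_lit 3861) (nat_lit 0), mk (.negSucc (nat_lit 176)) (nat_lit 4) (nat_lit 5) (nat_lit 1), mk (.ofNat (nat_lit 2508)) (nat_lit 3) (nat_lit 69970) (nat_lit 0), mk (.ofNat (nat_lit 12)) (nat_lit 2) (nat_lit 4373) (nat_lit 2), mk (.negSucc (nat_lit 3221)) (nat_lit 3) (nat_lit 70225) (nat_lit 0), mk (.ofNat (nat_lit 960)) (nat_lit 2) (nat_lit 1122085) (nat_lit 0), mk (.negSucc (nat_lit 1235)) (nat_lit 7) (nat_lit 3861) (nat_lit 0), mk (.negSucc (nat_lit 11)) (nat_lit 7) (nat_lit 5) (nat_lit 1), mk (.ofNat (nat_lit 1731)) (nat_lit 6) (nat_lit 5) (nat_lit 1), mk (.negSucc (nat_lit 507)) (nat_lit 3) (nat_lit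 74005) (nat_lit 0), mk (.negSucc (nat_lit 491)) (nat_lit 6) (nat_lit 3861) (nat_lit 0), mk (.ofNat (nat_lit 328)) (nat_lit 3) (nat_lit 279620) (nat_lit 0)]),
  ((.ofNat (nat_lit 7200)), p22,
    [mk (.ofNat (nat_lit 9060)) (nat_lit 3) (nat_lit 70245) (nat_lit 0), mk (.negSucc (nat_lit 539)) (nat_lit 3) (nat_lit 70230) (nat_lit 0), mk (.ofNat (nat_lit 60)) (nat_lit 2) (nat_lit 4438) (nat_lit 2), mk (.negSucc (nat_lit 2399)) (nat_lit 2) (nat_lit 1138470) (nat_lit 0), mk (.negSucc (nat_lit 1679)) (nat_lit 11) (nat_lit 61797) (nat_lit 0), mk (.negSucc (nat_lit 10139)) (nat_lit 11) (nat_lit 86) (nat_lit 1), mk (.negSucc (nat_lit 1199)) (nat_lit 9) (nat_lit 61782) (nat_lit 0), mk (.negSucc (nat_lit 299)) (nat_lit 2) (nat_lit 8790) (nat_lit 0), mk (.ofNat (nat_lit 1296)) (nat_lit 9) (nat_lit 101) (nat_lit 1), mk (.negSucc (nat_lit 1043)) (nat_lit 11) (nat_lit 101) (nat_lit 1),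 mk (.ofNat (nat_lit 10140)) (nat_lit 2) (nat_lit 1142549) (nat_lit 1), mk (.ofNat (nat_lit 1200)) (nat_lit 11) (nat_lit 28437) (nat_lit 0), mk (.ofNat (nat_lit 3510)) (nat_lit 3) (nat_lit 17915670) (nat_lit 0), mk (.negSucc (nat_lit 2189)) (nat_lit 3) (nat_lit 69974) (nat_lit 1), mk (.ofNat (nat_lit 810)) (nat_lit 3) (nat_lit 18215265) (nat_lit 0), mk (.ofNat (nat_lit 8010)) (nat_lit 3) (nat_lit 69989) (nat_lit 1), mk (.ofNat (nat_lit 810)) (nat_lit 3) (nat_lit 17953125) (nat_lit 0), mk (.negSucc (nat_lit 2129)) (nat_lit 3) (nat_lit 71009) (nat_lit 1), mk (.ofNat (nat_lit 9660)) (nat_lit 3) (nat_lit 18280785) (nat_lit 0), mk (.ofNat (nat_lit 4530)) (nat_lit 3) (nat_lit 136545) (nat_lit 0), mk (.negSucc (nat_lit 599)) (nat_lit 3) (nat_lit 17919765) (nat_lit 0), mk (.ofNat (nat_lit 7680)) (nat_lit 3) (nat_lit 74070) (nat_lit 0), mk (.negSucc (nat_lit 1139)) (nat_lit 3) (nat_lit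 17953110) (nat_lit 0), mk (.negSucc (nat_lit 269)) (nat_lit 3) (nat_lit 86310) (nat_lit 0), mk (.negSucc (nat_lit 104)) (nat_lit 4) (nat_lit 3941) (nat_lit 0), mk (.ofNat (nat_lit 2100)) (nat_lit 8) (nat_lit 63057) (nat_lit 0), mk (.negSucc (nat_lit 119)) (nat_lit 10) (nat_lit 61782) (nat_lit 0), mk (.negSucc (nat_lit 74)) (nat_lit 4) (nat_lit 5) (nat_lit 6), mk (.ofNat (nat_lit 300)) (nat_lit 10) (nat_lit 28437) (nat_lit 0), mk (.negSucc (nat_lit 1619)) (nat_lit 10) (nat_lit 61797) (nat_lit 0), mk (.negSucc (nat_lit 1999)) (nat_lit 2) (nat_lit 287306070) (nat_lit 0), mk (.negSucc (nat_lit 959)) (nat_lit 5) (nat_lit 6) (nat_lit 5), mk (.negSucc (nat_lit 374)) (nat_lit 4) (nat_lit 6) (nat_lit 5), mk (.negSucc (nat_lit 10559)) (nat_lit 10) (nat_lit 101) (nat_lit 1), mk (.negSucc (nat_lit 2264)) (nat_lit 3) (nat_lit 69969) (nat_lit 6), mk (.negSucc (nat_lit 2129)) (nat_lit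 3) (nat_lit 17954385) (nat_lit 0), mk (.negSucc (nat_lit 1064)) (nat_lit 3) (nat_lit 69985) (nat_lit 5), mk (.negSucc (nat_lit 729)) (nat_lit 3) (nat_lit 69910) (nat_lit 5), mk (.ofNat (nat_lit 9615)) (nat_lit 6) (nat_lit 3941) (nat_lit 0), mk (.negSucc (nat_lit 519)) (nat_lit 3) (nat_lit 17899365) (nat_lit 0), mk (.ofNat (nat_lit 50)) (nat_lit 3) (nat_lit 22093590) (nat_lit 0), mk (.negSucc (nat_lit 1609)) (nat_lit 3) (nat_lit 69909) (nat_lit 6), mk (.negSucc (nat_lit 5669)) (nat_lit 3) (nat_lit 86294) (nat_lit 1), mk (.ofNat (nat_lit 6120)) (nat_lit 3) (nat_lit 23142165) (nat_lit 0), mk (.negSucc (nat_lit 9434)) (nat_lit 6) (nat_lit 5) (nat_lit 6), mk (.negSucc (nat_lit 2534)) (nat_lit 6) (nat_lit 6) (nat_lit 5)]),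
  ((.ofNat (nat_lit 720)), p23,
    [mk (.ofNat (nat_lit 120)) (nat_lit 2) (nat_lit 4405) (nat_lit 0), mk (.negSucc (nat_lit 251)) (nat_lit 3) (nat_lit 69925) (nat_lit 0), mk (.negSucc (nat_lit 39)) (nat_lit 2) (nat_lit 1122085) (nat_lit 0), mk (.ofNat (nat_lit 12)) (nat_lit 4) (nat_lit 3861) (nat_lit 0), mk (.ofNat (nat_lit 228)) (nat_lit 3) (nat_lit 70225) (nat_lit 0), mk (.negSucc (nat_lit 7)) (nat_lit 2) (nat_lit 4373) (nat_lit 2), mk (.negSucc (nat_lit 8)) (nat_lit 5) (nat_lit 5) (nat_lit 1), mk (.negSucc (nat_lit 14)) (nat_lit 4) (nat_lit 5) (nat_lit 1), mk (.negSucc (nat_lit 599)) (nat_lit 7) (nat_lit 3861) (nat_lit 0), mk (.ofNat (nat_lit 264)) (nat_lit 7) (nat_lit 5) (nat_lit 1), mk (.negSucc (nat_lit 347)) (nat_lit 6) (nat_lit 3861) (nat_lit 0), mk (.ofNat (nat_lit 162)) (nat_lit 6) (nat_lit 5) (nat_lit 1), mk (.ofNat (nat_lit 256)) (nat_lit 3) (nat_lit 74005)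 (nat_lit 0), mk (.negSucc (nat_lit 45)) (nat_lit 3) (nat_lit 279620) (nat_lit 0)]),
  ((.ofNat (nat_lit 858)), p24,
    [mk (.ofNat (nat_lit 66)) (nat_lit 3) (nat_lit 74067) (nat_lit 0), mk (.negSucc (nat_lit 285)) (nat_lit 2) (nat_lit 1122117) (nat_lit 0), mk (.ofNat (nat_lit 33)) (nat_lit 3) (nat_lit 17953617) (nat_lit 0), mk (.ofNat (nat_lit 132)) (nat_lit 7) (nat_lit 1045073) (nat_lit 0), mk (.ofNat (nat_lit 1248)) (nat_lit 7) (nat_lit 3861) (nat_lit 2), mk (.negSucc (nat_lit 857)) (nat_lit 3) (nat_lit 69972) (nat_lit 0), mk (.negSucc (nat_lit 1187)) (nat_lit 7) (nat_lit 5) (nat_lit 33), mk (.ofNat (nat_lit 312)) (nat_lit 3) (nat_lit 34795857) (nat_lit 0), mk (.negSucc (nat_lit 32)) (nat_lit 3) (nat_lit 74066) (nat_lit 1), mk (.negSucc (nat_lit 197)) (nat_lit 3) (nat_lit 135761) (nat_lit 1), mk (.negSucc (nat_lit 21)) (nat_lit 3) (nat_lit 17899317) (nat_lit 0), mk (.negSucc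 (nat_lit 131)) (nat_lit 6) (nat_lit 3893) (nat_lit 0), mk (.negSucc (nat_lit 131)) (nat_lit 6) (nat_lit 1045073) (nat_lit 0), mk (.negSucc (nat_lit 1247)) (nat_lit 6) (nat_lit 3861) (nat_lit 2), mk (.negSucc (nat_lit 311)) (nat_lit 6) (nat_lit 5) (nat_lit 18), mk (.ofNat (nat_lit 624)) (nat_lit 3) (nat_lit 74005) (nat_lit 2), mk (.ofNat (nat_lit 286)) (nat_lit 3) (nat_lit 18947877) (nat_lit 0), mk (.ofNat (nat_lit 198)) (nat_lit 6) (nat_lit 5) (nat_lit 33), mk (.ofNat (nat_lit 286)) (nat_lit 3) (nat_lit 82197) (nat_lit 0), mk (.ofNat (nat_lit 237)) (nat_lit 3) (nat_lit 279620) (nat_lit 0)]),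
  ((.ofNat (nat_lit 348)), p25,
    [mk (.negSucc (nat_lit 143)) (nat_lit 3) (nat_lit 70481) (nat_lit 0), mk (.negSucc (nat_lit 95)) (nat_lit 3) (nat_lit 70181) (nat_lit 0), mk (.ofNat (nat_lit 144)) (nat_lit 3) (nat_lit 69971) (nat_lit 0), mk (.ofNat (nat_lit 144)) (nat_lit 3) (nat_lit 69941) (nat_lit 0), mk (.ofNat (nat_lit 96)) (nat_lit 2) (nat_lit 1122101) (nat_lit 0), mk (.ofNat (nat_lit 3)) (nat_lit 5) (nat_lit 3877) (nat_lit 0), mk (.ofNat (nat_lit 15)) (nat_lit 4) (nat_lit 3877) (nat_lit 0), mk (.ofNat (nat_lit 144)) (nat_lit 7) (nat_lit 5) (nat_lit 2), mk (.ofNat (nat_lit 192)) (nat_lit 7) (nat_lit 3877) (nat_lit 0), mk (.ofNat (nat_lit 20)) (nat_lit 2) (nat_lit 8741) (nat_lit 0), mk (.ofNat (nat_lit 300)) (nat_lit 6) (nat_lit 5) (nat_lit 2), mk (.negSucc (nat_lit 251)) (nat_lit 3) (nat_lit 135761) (nat_lit 0), mk (.ofNat (nat_lit 72)) (nat_lit 3) (nat_lit 74066)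 (nat_lit 0), mk (.negSucc (nat_lit 71)) (nat_lit 6) (nat_lit 3877) (nat_lit 0), mk (.negSucc (nat_lit 47)) (nat_lit 3) (nat_lit 78101) (nat_lit 0), mk (.ofNat (nat_lit 57)) (nat_lit 3) (nat_lit 279620) (nat_lit 0)]),
  ((.ofNat (nat_lit 90)), p26,
    [mk (.ofNat (nat_lit 60)) (nat_lit 2) (nat_lit 4405) (nat_lit 0), mk (.negSucc (nat_lit 125)) (nat_lit 3) (nat_lit 69925) (nat_lit 0), mk (.negSucc (nat_lit 19)) (nat_lit 2) (nat_lit 1122085) (nat_lit 0), mk (.negSucc (nat_lit 5)) (nat_lit 4) (nat_lit 5) (nat_lit 1), mk (.ofNat (nat_lit 114)) (nat_lit 3) (nat_lit 70225) (nat_lit 0), mk (.negSucc (nat_lit 5)) (nat_lit 3) (nat_lit 69970) (nat_lit 0), mk (.negSucc (nat_lit 3)) (nat_lit 2) (nat_lit 4373) (nat_lit 2), mk (.ofNat (nat_lit 6)) (nat_lit 4) (nat_lit 3861) (nat_lit 0), mk (.ofNat (nat_lit 144)) (nat_lit 7) (nat_lit 5) (nat_lit 1), mk (.negSucc (nat_lit 287)) (nat_lit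 7) (nat_lit 3861) (nat_lit 0), mk (.ofNat (nat_lit 78)) (nat_lit 6) (nat_lit 5) (nat_lit 1), mk (.ofNat (nat_lit 66)) (nat_lit 3) (nat_lit 74005) (nat_lit 0), mk (.negSucc (nat_lit 95)) (nat_lit 6) (nat_lit 3861) (nat_lit 0), mk (.negSucc (nat_lit 20)) (nat_lit 3) (nat_lit 279620) (nat_lit 0)]),
  ((.ofNat (nat_lit 2409)), p27,
    [mk (.negSucc (nat_lit 3959)) (nat_lit 3) (nat_lit 18018897) (nat_lit 0), mk (.ofNat (nat_lit 1980)) (nat_lit 3) (nat_lit 17953362) (nat_lit 0), mk (.ofNat (nat_lit 495)) (nat_lit 5) (nat_lit 1045073) (nat_lit 0), mk (.ofNat (nat_lit 99)) (nat_lit 4) (nat_lit 1045073) (nat_lit 0), mk (.negSucc (nat_lit 575)) (nat_lit 7) (nat_lit 3861) (nat_lit 2), mk (.negSucc (nat_lit 131)) (nat_lit 2) (nat_lit 2240277) (nat_lit 0), mk (.ofNat (nat_lit 4224)) (nat_lit 7) (nat_lit 5) (nat_lit 33), mk (.negSucc (nat_lit 395)) (nat_lit 3) (nat_lit 74277) (nat_lit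 0), mk (.ofNat (nat_lit 528)) (nat_lit 2) (nat_lit 8741) (nat_lit 1), mk (.negSucc (nat_lit 3959)) (nat_lit 7) (nat_lit 3877) (nat_lit 1), mk (.ofNat (nat_lit 3168)) (nat_lit 7) (nat_lit 1045073) (nat_lit 0), mk (.ofNat (nat_lit 1056)) (nat_lit 3) (nat_lit 135761) (nat_lit 1), mk (.negSucc (nat_lit 143)) (nat_lit 3) (nat_lit 34795857) (nat_lit 0), mk (.ofNat (nat_lit 1584)) (nat_lit 6) (nat_lit 1044818) (nat_lit 0), mk (.ofNat (nat_lit 180)) (nat_lit 6) (nat_lit 3861) (nat_lit 2), mk (.ofNat (nat_lit 144)) (nat_lit 6) (nat_lit 5) (nat_lit 18), mk (.negSucc (nat_lit 23)) (nat_lit 3) (nat_lit 74005) (nat_lit 2), mk (.negSucc (nat_lit 2639)) (nat_lit 6) (nat_lit 5) (nat_lit 33), mk (.ofNat (nat_lit 1188)) (nat_lit 6) (nat_lit 3877) (nat_lit 1), mk (.negSucc (nat_lit 593)) (nat_lit 3) (nat_lit 18947877) (nat_lit 0), mk (.negSucc (nat_lit 1154)) (nat_lit 6) (nat_lit 1045073)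 (nat_lit 0), mk (.ofNat (nat_lit 1320)) (nat_lit 3) (nat_lit 135717) (nat_lit 0), mk (.negSucc (nat_lit 6)) (nat_lit 3) (nat_lit 279620) (nat_lit 0)]),
  ((.ofNat (nat_lit 1440)), p28,
    [mk (.ofNat (nat_lit 360)) (nat_lit 3) (nat_lit 18018641) (nat_lit 0), mk (.negSucc (nat_lit 131)) (nat_lit 7) (nat_lit 1044817) (nat_lit 0), mk (.ofNat (nat_lit 720)) (nat_lit 7) (nat_lit 3861) (nat_lit 1), mk (.ofNat (nat_lit 30)) (nat_lit 3) (nat_lit 74005) (nat_lit 1), mk (.negSucc (nat_lit 119)) (nat_lit 3) (nat_lit 69909) (nat_lit 2), mk (.negSucc (nat_lit 191)) (nat_lit 6) (nat_lit 3861) (nat_lit 1), mk (.negSucc (nat_lit 87)) (nat_lit 3) (nat_lit 18947861) (nat_lit 0), mk (.ofNat (nat_lit 132)) (nat_lit 6) (nat_lit 1044817) (nat_lit 0), mk (.negSucc (nat_lit 179)) (nat_lit 6) (nat_lit 5) (nat_lit 17), mk (.ofNat (nat_lit 180)) (nat_lit 3) (nat_lit 135761) (nat_lit 0), mk (.negSucc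 (nat_lit 21)) (nat_lit 3) (nat_lit 78101) (nat_lit 0), mk (.negSucc (nat_lit 168)) (nat_lit 3) (nat_lit 279620) (nat_lit 0)]),
  ((.ofNat (nat_lit 2784)), p29,
    [mk (.negSucc (nat_lit 155)) (nat_lit 3) (nat_lit 70481) (nat_lit 0), mk (.ofNat (nat_lit 12)) (nat_lit 3) (nat_lit 70181) (nat_lit 0), mk (.negSucc (nat_lit 32)) (nat_lit 5) (nat_lit 3877) (nat_lit 0), mk (.ofNat (nat_lit 9)) (nat_lit 4) (nat_lit 3877) (nat_lit 0), mk (.ofNat (nat_lit 156)) (nat_lit 3) (nat_lit 69971) (nat_lit 0), mk (.ofNat (nat_lit 156)) (nat_lit 3) (nat_lit 69941) (nat_lit 0), mk (.ofNat (nat_lit 104)) (nat_lit 2) (nat_lit 1122101) (nat_lit 0), mk (.negSucc (nat_lit 23)) (nat_lit 7) (nat_lit 3877) (nat_lit 0), mk (.ofNat (nat_lit 12)) (nat_lit 2) (nat_lit 8741) (nat_lit 0), mk (.ofNat (nat_lit 504)) (nat_lit 7) (nat_lit 5) (nat_lit 2), mk (.negSucc (nat_lit 515)) (nat_lit 6) (nat_lit 5) (nat_lit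 2), mk (.negSucc (nat_lit 77)) (nat_lit 6) (nat_lit 3877) (nat_lit 0), mk (.ofNat (nat_lit 78)) (nat_lit 3) (nat_lit 74066) (nat_lit 0), mk (.ofNat (nat_lit 510)) (nat_lit 3) (nat_lit 135761) (nat_lit 0), mk (.negSucc (nat_lit 51)) (nat_lit 3) (nat_lit 78101) (nat_lit 0), mk (.negSucc (nat_lit 220)) (nat_lit 3) (nat_lit 279620) (nat_lit 0)]),
  ((.ofNat (nat_lit 57)), p30,
    [mk (.ofNat (nat_lit 6)) (nat_lit 3) (nat_lit 69957) (nat_lit 0), mk (.negSucc (nat_lit 5)) (nat_lit 3) (nat_lit 70737) (nat_lit 0), mk (.negSucc (nat_lit 5)) (nat_lit 3) (nat_lit 69972) (nat_lit 0), mk (.negSucc (nat_lit 59)) (nat_lit 7) (nat_lit 5) (nat_lit 33), mk (.negSucc (nat_lit 59)) (nat_lit 3) (nat_lit 135761) (nat_lit 1), mk (.ofNat (nat_lit 12)) (nat_lit 6) (nat_lit 1045073) (nat_lit 0), mk (.ofNat (nat_lit 2)) (nat_lit 3) (nat_lit 18947877) (nat_lit 0), mk (.ofNat (nat_lit 60)) (nat_lit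 6) (nat_lit 5) (nat_lit 33), mk (.ofNat (nat_lit 45)) (nat_lit 6) (nat_lit 3893) (nat_lit 0), mk (.ofNat (nat_lit 2)) (nat_lit 3) (nat_lit 82197) (nat_lit 0), mk (.ofNat (nat_lit 23)) (nat_lit 3) (nat_lit 279620) (nat_lit 0)]),
  ((.ofNat (nat_lit 480)), p31,
    [mk (.negSucc (nat_lit 1799)) (nat_lit 3) (nat_lit 70245) (nat_lit 0), mk (.ofNat (nat_lit 600)) (nat_lit 3) (nat_lit 70230) (nat_lit 0), mk (.ofNat (nat_lit 480)) (nat_lit 2) (nat_lit 1138470) (nat_lit 0), mk (.ofNat (nat_lit 240)) (nat_lit 2) (nat_lit 291500385) (nat_lit 0), mk (.negSucc (nat_lit 143)) (nat_lit 9) (nat_lit 24342) (nat_lit 0), mk (.ofNat (nat_lit 816)) (nat_lit 11) (nat_lit 24342) (nat_lit 0), mk (.negSucc (nat_lit 95)) (nat_lit 9) (nat_lit 86) (nat_lit 1), mk (.ofNat (nat_lit 1584)) (nat_lit 11) (nat_lit 86) (nat_lit 1), mk (.ofNat (nat_lit 60)) (nat_lit 2) (nat_lit 8790) (nat_lit 0), mk (.ofNat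 (nat_lit 1584)) (nat_lit 9) (nat_lit 28437) (nat_lit 0), mk (.ofNat (nat_lit 384)) (nat_lit 11) (nat_lit 28437) (nat_lit 0), mk (.negSucc (nat_lit 5999)) (nat_lit 11) (nat_lit 61782) (nat_lit 0), mk (.ofNat (nat_lit 5760)) (nat_lit 2) (nat_lit 292548945) (nat_lit 0), mk (.negSucc (nat_lit 959)) (nat_lit 3) (nat_lit 74070) (nat_lit 0), mk (.negSucc (nat_lit 899)) (nat_lit 3) (nat_lit 136545) (nat_lit 0), mk (.negSucc (nat_lit 599)) (nat_lit 3) (nat_lit 17915670) (nat_lit 0), mk (.ofNat (nat_lit 180)) (nat_lit 3) (nat_lit 71009) (nat_lit 1), mk (.negSucc (nat_lit 1499)) (nat_lit 3) (nat_lit 69989) (nat_lit 1), mk (.negSucc (nat_lit 239)) (nat_lit 3) (nat_lit 18215265) (nat_lit 0), mk (.negSucc (nat_lit 1199)) (nat_lit 3) (nat_lit 17953125) (nat_lit 0), mk (.ofNat (nat_lit 900)) (nat_lit 3) (nat_lit 69974) (nat_lit 1), mk (.negSucc (nat_lit 1079)) (nat_lit 3) (nat_lit 18280785)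 (nat_lit 0), mk (.ofNat (nat_lit 6720)) (nat_lit 3) (nat_lit 17919765) (nat_lit 0), mk (.ofNat (nat_lit 2520)) (nat_lit 3) (nat_lit 17953110) (nat_lit 0), mk (.ofNat (nat_lit 300)) (nat_lit 3) (nat_lit 86310) (nat_lit 0), mk (.ofNat (nat_lit 15)) (nat_lit 4) (nat_lit 3941) (nat_lit 0), mk (.ofNat (nat_lit 75)) (nat_lit 4) (nat_lit 6) (nat_lit 5), mk (.negSucc (nat_lit 299)) (nat_lit 8) (nat_lit 97) (nat_lit 5), mk (.negSucc (nat_lit 239)) (nat_lit 2) (nat_lit 287306085) (nat_lit 0), mk (.negSucc (nat_lit 299)) (nat_lit 8) (nat_lit 63057) (nat_lit 0), mk (.ofNat (nat_lit 15)) (nat_lit 4) (nat_lit 5) (nat_lit 6), mk (.ofNat (nat_lit 2640)) (nat_lit 2) (nat_lit 287306070) (nat_lit 0), mk (.negSucc (nat_lit 1739)) (nat_lit 10) (nat_lit 28437) (nat_lit 0), mk (.ofNat (nat_lit 960)) (nat_lit 10) (nat_lit 101) (nat_lit 1), mk (.ofNat (nat_lit 480)) (nat_lit 10) (nat_lit 61797)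 (nat_lit 0), mk (.negSucc (nat_lit 1679)) (nat_lit 10) (nat_lit 61782) (nat_lit 0), mk (.ofNat (nat_lit 90)) (nat_lit 3) (nat_lit 69985) (nat_lit 5), mk (.ofNat (nat_lit 300)) (nat_lit 3) (nat_lit 17954385) (nat_lit 0), mk (.ofNat (nat_lit 450)) (nat_lit 3) (nat_lit 69969) (nat_lit 6), mk (.ofNat (nat_lit 300)) (nat_lit 3) (nat_lit 69910) (nat_lit 5), mk (.negSucc (nat_lit 1424)) (nat_lit 6) (nat_lit 3941) (nat_lit 0), mk (.ofNat (nat_lit 495)) (nat_lit 6) (nat_lit 6) (nat_lit 5), mk (.ofNat (nat_lit 1875)) (nat_lit 6) (nat_lit 5) (nat_lit 6), mk (.ofNat (nat_lit 320)) (nat_lit 3) (nat_lit 69909) (nat_lit 6), mk (.ofNat (nat_lit 120)) (nat_lit 3) (nat_lit 22093590) (nat_lit 0), mk (.negSucc (nat_lit 2799)) (nat_lit 3) (nat_lit 23142165) (nat_lit 0), mk (.ofNat (nat_lit 860)) (nat_lit 3) (nat_lit 86294) (nat_lit 1)]),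
  ((.ofNat (nat_lit 1)), p32,
    [mk (.ofNat (nat_lit 1)) (nat_lit 7) (nat_lit 6) (nat_lit 5)]),
  ((.ofNat (nat_lit 1)), p33,
    [mk (.ofNat (nat_lit 1)) (nat_lit 6) (nat_lit 6) (nat_lit 5)]),
  ((.ofNat (nat_lit 450)), p34,
    [mk (.negSucc (nat_lit 7619)) (nat_lit 3) (nat_lit 70245) (nat_lit 0), mk (.negSucc (nat_lit 7619)) (nat_lit 3) (nat_lit 70230) (nat_lit 0), mk (.ofNat (nat_lit 2400)) (nat_lit 2) (nat_lit 1142565) (nat_lit 0), mk (.ofNat (nat_lit 2400)) (nat_lit 2) (nat_lit 1138470) (nat_lit 0), mk (.ofNat (nat_lit 6090)) (nat_lit 2) (nat_lit 4438) (nat_lit 17), mk (.ofNat (nat_lit 600)) (nat_lit 2) (nat_lit 8790) (nat_lit 0), mk (.ofNat (nat_lit 3000)) (nat_lit 9) (nat_lit 86) (nat_lit 1), mk (.ofNat (nat_lit 780)) (nat_lit 2) (nat_lit 4438) (nat_lit 2), mk (.ofNat (nat_lit 768)) (nat_lit 9) (nat_lit 61797) (nat_lit 0), mk (.negSucc (nat_lit 1631)) (nat_lit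 9) (nat_lit 61782) (nat_lit 0), mk (.ofNat (nat_lit 1248)) (nat_lit 11) (nat_lit 61797) (nat_lit 0), mk (.negSucc (nat_lit 1151)) (nat_lit 11) (nat_lit 61782) (nat_lit 0), mk (.ofNat (nat_lit 960)) (nat_lit 11) (nat_lit 24342) (nat_lit 0), mk (.ofNat (nat_lit 12960)) (nat_lit 11) (nat_lit 28437) (nat_lit 0), mk (.negSucc (nat_lit 16319)) (nat_lit 2) (nat_lit 301031190) (nat_lit 0), mk (.ofNat (nat_lit 6855)) (nat_lit 3) (nat_lit 71009) (nat_lit 1), mk (.ofNat (nat_lit 12255)) (nat_lit 3) (nat_lit 69989) (nat_lit 1), mk (.ofNat (nat_lit 9255)) (nat_lit 3) (nat_lit 69974) (nat_lit 1), mk (.negSucc (nat_lit 4079)) (nat_lit 3) (nat_lit 74070) (nat_lit 0), mk (.negSucc (nat_lit 8609)) (nat_lit 3) (nat_lit 136545) (nat_lit 0), mk (.ofNat (nat_lit 990)) (nat_lit 3) (nat_lit 86310) (nat_lit 0), mk (.negSucc (nat_lit 4079)) (nat_lit 3) (nat_lit 74085) (nat_lit 0), mk (.negSucc (nat_lit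 4079)) (nat_lit 3) (nat_lit 17915670) (nat_lit 0), mk (.negSucc (nat_lit 5579)) (nat_lit 3) (nat_lit 17919765) (nat_lit 0), mk (.negSucc (nat_lit 10739)) (nat_lit 3) (nat_lit 18215265) (nat_lit 0), mk (.negSucc (nat_lit 2099)) (nat_lit 3) (nat_lit 17953125) (nat_lit 0), mk (.negSucc (nat_lit 12239)) (nat_lit 3) (nat_lit 18280785) (nat_lit 0), mk (.negSucc (nat_lit 15599)) (nat_lit 3) (nat_lit 17953110) (nat_lit 0), mk (.ofNat (nat_lit 450)) (nat_lit 4) (nat_lit 6) (nat_lit 5), mk (.negSucc (nat_lit 1799)) (nat_lit 10) (nat_lit 24342) (nat_lit 0), mk (.negSucc (nat_lit 2729)) (nat_lit 10) (nat_lit 86) (nat_lit 1), mk (.ofNat (nat_lit 1280)) (nat_lit 2) (nat_lit 287306085) (nat_lit 0), mk (.ofNat (nat_lit 450)) (nat_lit 4) (nat_lit 5) (nat_lit 6), mk (.ofNat (nat_lit 1200)) (nat_lit 10) (nat_lit 28437) (nat_lit 0), mk (.negSucc (nat_lit 2729)) (nat_lit 10) (nat_lit 101) (nat_lit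 1), mk (.negSucc (nat_lit 2719)) (nat_lit 2) (nat_lit 287306070) (nat_lit 0), mk (.ofNat (nat_lit 2280)) (nat_lit 10) (nat_lit 61797) (nat_lit 0), mk (.ofNat (nat_lit 5280)) (nat_lit 10) (nat_lit 61782) (nat_lit 0), mk (.ofNat (nat_lit 1050)) (nat_lit 5) (nat_lit 3941) (nat_lit 0), mk (.negSucc (nat_lit 239)) (nat_lit 4) (nat_lit 3941) (nat_lit 0), mk (.ofNat (nat_lit 3105)) (nat_lit 3) (nat_lit 69985) (nat_lit 5), mk (.ofNat (nat_lit 3105)) (nat_lit 3) (nat_lit 69969) (nat_lit 6), mk (.negSucc (nat_lit 9119)) (nat_lit 7) (nat_lit 3941) (nat_lit 0), mk (.ofNat (nat_lit 3470)) (nat_lit 3) (nat_lit 69910) (nat_lit 5), mk (.ofNat (nat_lit 3470)) (nat_lit 3) (nat_lit 69909) (nat_lit 6), mk (.ofNat (nat_lit 2885)) (nat_lit 3) (nat_lit 86294) (nat_lit 1), mk (.ofNat (nat_lit 12030)) (nat_lit 6) (nat_lit 6) (nat_lit 5), mk (.ofNat (nat_lit 12030)) (nat_lit 6) (nat_lit 5) (nat_lit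 6), mk (.negSucc (nat_lit 3439)) (nat_lit 3) (nat_lit 22093590) (nat_lit 0), mk (.ofNat (nat_lit 60)) (nat_lit 3) (nat_lit 23142165) (nat_lit 0), mk (.ofNat (nat_lit 4080)) (nat_lit 6) (nat_lit 3941) (nat_lit 0), mk (.negSucc (nat_lit 5139)) (nat_lit 3) (nat_lit 17899365) (nat_lit 0)]),
  ((.ofNat (nat_lit 1)), p35,
    [mk (.ofNat (nat_lit 1)) (nat_lit 4) (nat_lit 6) (nat_lit 5)]),
  ((.ofNat (nat_lit 720)), p36,
    [mk (.ofNat (nat_lit 300)) (nat_lit 2) (nat_lit 4405) (nat_lit 0), mk (.negSucc (nat_lit 665)) (nat_lit 3) (nat_lit 69925) (nat_lit 0), mk (.negSucc (nat_lit 99)) (nat_lit 2) (nat_lit 1122085) (nat_lit 0), mk (.ofNat (nat_lit 108)) (nat_lit 5) (nat_lit 5) (nat_lit 1), mk (.negSucc (nat_lit 149)) (nat_lit 3) (nat_lit 69970) (nat_lit 0), mk (.ofNat (nat_lit 534)) (nat_lit 3) (nat_lit 70225) (nat_lit 0), mk (.negSucc (nat_lit 43)) (nat_lit 2) (nat_lit 4373) (nat_lit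 2), mk (.ofNat (nat_lit 66)) (nat_lit 4) (nat_lit 3861) (nat_lit 0), mk (.ofNat (nat_lit 1032)) (nat_lit 7) (nat_lit 5) (nat_lit 1), mk (.negSucc (nat_lit 1559)) (nat_lit 7) (nat_lit 3861) (nat_lit 0), mk (.negSucc (nat_lit 773)) (nat_lit 6) (nat_lit 3861) (nat_lit 0), mk (.ofNat (nat_lit 278)) (nat_lit 3) (nat_lit 74005) (nat_lit 0), mk (.ofNat (nat_lit 456)) (nat_lit 6) (nat_lit 5) (nat_lit 1), mk (.negSucc (nat_lit 52)) (nat_lit 3) (nat_lit 279620) (nat_lit 0)]),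
  ((.ofNat (nat_lit 120)), p37,
    [mk (.ofNat (nat_lit 120)) (nat_lit 3) (nat_lit 18018641) (nat_lit 0), mk (.negSucc (nat_lit 29)) (nat_lit 5) (nat_lit 1044817) (nat_lit 0), mk (.ofNat (nat_lit 240)) (nat_lit 7) (nat_lit 3861) (nat_lit 1), mk (.negSucc (nat_lit 11)) (nat_lit 7) (nat_lit 1044817) (nat_lit 0), mk (.negSucc (nat_lit 59)) (nat_lit 3) (nat_lit 135761) (nat_lit 0), mk (.negSucc (nat_lit 59)) (nat_lit 6) (nat_lit 5) (nat_lit 17), mk (.ofNat (nat_lit 40)) (nat_lit 3) (nat_lit 69909) (nat_lit 2), mk (.ofNat (nat_lit 42)) (nat_lit 6) (nat_lit 1044817) (nat_lit 0), mk (.negSucc (nat_lit 27)) (nat_lit 3) (nat_lit 18947861) (nat_lit 0), mk (.negSucc (nat_lit 71)) (nat_lit 6) (nat_lit 3861) (nat_lit 1), mk (.ofNat (nat_lit 10)) (nat_lit 3) (nat_lit 74005) (nat_lit 1), mk (.ofNat (nat_lit 38)) (nat_lit 3) (nat_lit 78101) (nat_lit 0), mk (.negSucc (nat_lit 38)) (nat_lit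 3) (nat_lit 279620) (nat_lit 0)]),
  ((.ofNat (nat_lit 288)), p38,
    [mk (.ofNat (nat_lit 180)) (nat_lit 2) (nat_lit 4405) (nat_lit 0), mk (.negSucc (nat_lit 377)) (nat_lit 3) (nat_lit 69925) (nat_lit 0), mk (.negSucc (nat_lit 59)) (nat_lit 2) (nat_lit 1122085) (nat_lit 0), mk (.ofNat (nat_lit 18)) (nat_lit 4) (nat_lit 3861) (nat_lit 0), mk (.negSucc (nat_lit 11)) (nat_lit 2) (nat_lit 4373) (nat_lit 2), mk (.negSucc (nat_lit 29)) (nat_lit 4) (nat_lit 5) (nat_lit 1), mk (.ofNat (nat_lit 342)) (nat_lit 3) (nat_lit 70225) (nat_lit 0), mk (.ofNat (nat_lit 30)) (nat_lit 3) (nat_lit 69970) (nat_lit 0), mk (.negSucc (nat_lit 1103)) (nat_lit 7) (nat_lit 3861) (nat_lit 0), mk (.ofNat (nat_lit 336)) (nat_lit 7) (nat_lit 5) (nat_lit 1), mk (.ofNat (nat_lit 294)) (nat_lit 6) (nat_lit 5) (nat_lit 1), mk (.ofNat (nat_lit 202)) (nat_lit 3) (nat_lit 74005) (nat_lit 0), mk (.negSucc (nat_lit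 317)) (nat_lit 6) (nat_lit 3861) (nat_lit 0), mk (.negSucc (nat_lit 78)) (nat_lit 3) (nat_lit 279620) (nat_lit 0)]),
  ((.ofNat (nat_lit 192)), p39,
    [mk (.ofNat (nat_lit 120)) (nat_lit 2) (nat_lit 4405) (nat_lit 0), mk (.negSucc (nat_lit 251)) (nat_lit 3) (nat_lit 69925) (nat_lit 0), mk (.negSucc (nat_lit 39)) (nat_lit 2) (nat_lit 1122085) (nat_lit 0), mk (.ofNat (nat_lit 228)) (nat_lit 3) (nat_lit 70225) (nat_lit 0), mk (.negSucc (nat_lit 7)) (nat_lit 2) (nat_lit 4373) (nat_lit 2), mk (.negSucc (nat_lit 8)) (nat_lit 5) (nat_lit 5) (nat_lit 1), mk (.negSucc (nat_lit 14)) (nat_lit 4) (nat_lit 5) (nat_lit 1), mk (.ofNat (nat_lit 12)) (nat_lit 4) (nat_lit 3861) (nat_lit 0), mk (.ofNat (nat_lit 264)) (nat_lit 7) (nat_lit 5) (nat_lit 1), mk (.negSucc (nat_lit 791)) (nat_lit 7) (nat_lit 3861) (nat_lit 0), mk (.ofNat (nat_lit 210)) (nat_lit 6) (nat_lit 5) (nat_lit 1), mk (.ofNat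 (nat_lit 128)) (nat_lit 3) (nat_lit 74005) (nat_lit 0), mk (.negSucc (nat_lit 155)) (nat_lit 6) (nat_lit 3861) (nat_lit 0), mk (.negSucc (nat_lit 45)) (nat_lit 3) (nat_lit 279620) (nat_lit 0)]),
  ((.ofNat (nat_lit 720)), p40,
    [mk (.ofNat (nat_lit 60)) (nat_lit 2) (nat_lit 4645) (nat_lit 0), mk (.ofNat (nat_lit 144)) (nat_lit 3) (nat_lit 69925) (nat_lit 0), mk (.ofNat (nat_lit 160)) (nat_lit 2) (nat_lit 1122085) (nat_lit 0), mk (.ofNat (nat_lit 138)) (nat_lit 5) (nat_lit 5) (nat_lit 1), mk (.ofNat (nat_lit 300)) (nat_lit 3) (nat_lit 69970) (nat_lit 0), mk (.ofNat (nat_lit 105)) (nat_lit 5) (nat_lit 3861) (nat_lit 0), mk (.negSucc (nat_lit 815)) (nat_lit 3) (nat_lit 70225) (nat_lit 0), mk (.ofNat (nat_lit 56)) (nat_lit 2) (nat_lit 4373) (nat_lit 2), mk (.ofNat (nat_lit 21)) (nat_lit 4) (nat_lit 3861) (nat_lit 0), mk (.ofNat (nat_lit 72)) (nat_lit 7) (nat_lit 5) (nat_lit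 1), mk (.ofNat (nat_lit 120)) (nat_lit 7) (nat_lit 3861) (nat_lit 0), mk (.negSucc (nat_lit 443)) (nat_lit 6) (nat_lit 3861) (nat_lit 0), mk (.negSucc (nat_lit 171)) (nat_lit 3) (nat_lit 74005) (nat_lit 0), mk (.ofNat (nat_lit 306)) (nat_lit 6) (nat_lit 5) (nat_lit 1), mk (.ofNat (nat_lit 187)) (nat_lit 3) (nat_lit 279620) (nat_lit 0)]),
  ((.ofNat (nat_lit 8640)), p41,
    [mk (.ofNat (nat_lit 1980)) (nat_lit 2) (nat_lit 4645) (nat_lit 0), mk (.ofNat (nat_lit 1782)) (nat_lit 3) (nat_lit 69925) (nat_lit 0), mk (.negSucc (nat_lit 131)) (nat_lit 2) (nat_lit 4373) (nat_lit 2), mk (.negSucc (nat_lit 29897)) (nat_lit 3) (nat_lit 70225) (nat_lit 0), mk (.ofNat (nat_lit 3465)) (nat_lit 5) (nat_lit 3861) (nat_lit 0), mk (.ofNat (nat_lit 693)) (nat_lit 4) (nat_lit 3861) (nat_lit 0), mk (.negSucc (nat_lit 1292)) (nat_lit 4) (nat_lit 5) (nat_lit 1), mk (.ofNat (nat_lit 19392)) (nat_lit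 3) (nat_lit 69970) (nat_lit 0), mk (.ofNat (nat_lit 5280)) (nat_lit 2) (nat_lit 1122085) (nat_lit 0), mk (.negSucc (nat_lit 10667)) (nat_lit 7) (nat_lit 5) (nat_lit 1), mk (.negSucc (nat_lit 3683)) (nat_lit 7) (nat_lit 3861) (nat_lit 0), mk (.ofNat (nat_lit 14979)) (nat_lit 6) (nat_lit 5) (nat_lit 1), mk (.negSucc (nat_lit 1791)) (nat_lit 3) (nat_lit 74005) (nat_lit 0), mk (.negSucc (nat_lit 7007)) (nat_lit 6) (nat_lit 3861) (nat_lit 0), mk (.ofNat (nat_lit 3997)) (nat_lit 3) (nat_lit 279620) (nat_lit 0)]),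
  ((.ofNat (nat_lit 5760)), p42,
    [mk (.ofNat (nat_lit 60)) (nat_lit 2) (nat_lit 4645) (nat_lit 0), mk (.ofNat (nat_lit 54)) (nat_lit 3) (nat_lit 69925) (nat_lit 0), mk (.ofNat (nat_lit 160)) (nat_lit 2) (nat_lit 1122085) (nat_lit 0), mk (.ofNat (nat_lit 183)) (nat_lit 5) (nat_lit 5) (nat_lit 1), mk (.ofNat (nat_lit 300)) (nat_lit 3) (nat_lit 69970) (nat_lit 0), mk (.ofNat (nat_lit 105)) (nat_lit 5) (nat_lit 3861) (nat_lit 0), mk (.negSucc (nat_lit 3)) (nat_lit 2) (nat_lit 4373) (nat_lit 2), mk (.ofNat (nat_lit 21)) (nat_lit 4) (nat_lit 3861) (nat_lit 0), mk (.negSucc (nat_lit 905)) (nat_lit 3) (nat_lit 70225) (nat_lit 0), mk (.ofNat (nat_lit 252)) (nat_lit 7) (nat_lit 5) (nat_lit 1), mk (.negSucc (nat_lit 59)) (nat_lit 7) (nat_lit 3861) (nat_lit 0), mk (.negSucc (nat_lit 263)) (nat_lit 6) (nat_lit 3861) (nat_lit 0), mk (.negSucc (nat_lit 411)) (nat_lit 3) (nat_lit 74005)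 (nat_lit 0), mk (.ofNat (nat_lit 1881)) (nat_lit 6) (nat_lit 5) (nat_lit 1), mk (.ofNat (nat_lit 217)) (nat_lit 3) (nat_lit 279620) (nat_lit 0)]),
  ((.ofNat (nat_lit 1440)), p43,
    [mk (.ofNat (nat_lit 60)) (nat_lit 2) (nat_lit 4645) (nat_lit 0), mk (.ofNat (nat_lit 54)) (nat_lit 3) (nat_lit 69925) (nat_lit 0), mk (.ofNat (nat_lit 160)) (nat_lit 2) (nat_lit 1122085) (nat_lit 0), mk (.ofNat (nat_lit 105)) (nat_lit 5) (nat_lit 3861) (nat_lit 0), mk (.negSucc (nat_lit 905)) (nat_lit 3) (nat_lit 70225) (nat_lit 0), mk (.negSucc (nat_lit 3)) (nat_lit 2) (nat_lit 4373) (nat_lit 2), mk (.ofNat (nat_lit 21)) (nat_lit 4) (nat_lit 3861) (nat_lit 0), mk (.ofNat (nat_lit 183)) (nat_lit 5) (nat_lit 5) (nat_lit 1), mk (.ofNat (nat_lit 300)) (nat_lit 3) (nat_lit 69970) (nat_lit 0), mk (.ofNat (nat_lit 252)) (nat_lit 7) (nat_lit 5) (nat_lit 1), mk (.negSucc (nat_lit 59)) (nat_lit 7)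 (nat_lit 3861) (nat_lit 0), mk (.ofNat (nat_lit 441)) (nat_lit 6) (nat_lit 5) (nat_lit 1), mk (.negSucc (nat_lit 263)) (nat_lit 6) (nat_lit 3861) (nat_lit 0), mk (.negSucc (nat_lit 171)) (nat_lit 3) (nat_lit 74005) (nat_lit 0), mk (.ofNat (nat_lit 217)) (nat_lit 3) (nat_lit 279620) (nat_lit 0)]),
  ((.ofNat (nat_lit 480)), p44,
    [mk (.negSucc (nat_lit 119)) (nat_lit 2) (nat_lit 4405) (nat_lit 0), mk (.ofNat (nat_lit 246)) (nat_lit 3) (nat_lit 69925) (nat_lit 0), mk (.ofNat (nat_lit 40)) (nat_lit 2) (nat_lit 1122085) (nat_lit 0), mk (.negSucc (nat_lit 5)) (nat_lit 4) (nat_lit 3861) (nat_lit 0), mk (.negSucc (nat_lit 32)) (nat_lit 5) (nat_lit 5) (nat_lit 1), mk (.ofNat (nat_lit 60)) (nat_lit 3) (nat_lit 69970) (nat_lit 0), mk (.ofNat (nat_lit 4)) (nat_lit 2) (nat_lit 4373) (nat_lit 2), mk (.ofNat (nat_lit 30)) (nat_lit 5) (nat_lit 3861) (nat_lit 0), mk (.negSucc (nat_lit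 233)) (nat_lit 3) (nat_lit 70225) (nat_lit 0), mk (.negSucc (nat_lit 371)) (nat_lit 7) (nat_lit 5) (nat_lit 1), mk (.ofNat (nat_lit 660)) (nat_lit 7) (nat_lit 3861) (nat_lit 0), mk (.negSucc (nat_lit 170)) (nat_lit 6) (nat_lit 5) (nat_lit 1), mk (.ofNat (nat_lit 264)) (nat_lit 6) (nat_lit 3861) (nat_lit 0), mk (.negSucc (nat_lit 107)) (nat_lit 3) (nat_lit 74005) (nat_lit 0), mk (.ofNat (nat_lit 28)) (nat_lit 3) (nat_lit 279620) (nat_lit 0)]),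
  ((.ofNat (nat_lit 45)), p45,
    [mk (.ofNat (nat_lit 48)) (nat_lit 7) (nat_lit 1044817) (nat_lit 0), mk (.negSucc (nat_lit 11)) (nat_lit 6) (nat_lit 3861) (nat_lit 1), mk (.ofNat (nat_lit 2)) (nat_lit 3) (nat_lit 18947861) (nat_lit 0), mk (.negSucc (nat_lit 2)) (nat_lit 6) (nat_lit 1044817) (nat_lit 0), mk (.ofNat (nat_lit 8)) (nat_lit 3) (nat_lit 78101) (nat_lit 0), mk (.negSucc (nat_lit 3)) (nat_lit 3) (nat_lit 279620) (nat_lit 0)]),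
  ((.ofNat (nat_lit 1)), p46,
    [mk (.ofNat (nat_lit 8)) (nat_lit 3) (nat_lit 70230) (nat_lit 0), mk (.ofNat (nat_lit 8)) (nat_lit 3) (nat_lit 70245) (nat_lit 0), mk (.ofNat (nat_lit 8)) (nat_lit 8) (nat_lit 86) (nat_lit 1), mk (.negSucc (nat_lit 3)) (nat_lit 3) (nat_lit 136545) (nat_lit 0), mk (.negSucc (nat_lit 3)) (nat_lit 3) (nat_lit 86310) (nat_lit 0), mk (.negSucc (nat_lit 0)) (nat_lit 5) (nat_lit 3941) (nat_lit 0), mk (.negSucc (nat_lit 7)) (nat_lit 7) (nat_lit 6) (nat_lit 5), mk (.negSucc (nat_lit 7)) (nat_lit 7) (nat_lit 5) (nat_lit 6), mk (.negSucc (nat_lit 23)) (nat_lit 7) (nat_lit 3941) (nat_lit 0), mk (.ofNat (nat_lit 8)) (nat_lit 6) (nat_lit 3941) (nat_lit 0)]),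
  ((.ofNat (nat_lit 2784)), p47,
    [mk (.negSucc (nat_lit 467)) (nat_lit 3) (nat_lit 69941) (nat_lit 0), mk (.negSucc (nat_lit 311)) (nat_lit 2) (nat_lit 1122101) (nat_lit 0), mk (.negSucc (nat_lit 467)) (nat_lit 3) (nat_lit 69971) (nat_lit 0), mk (.negSucc (nat_lit 26)) (nat_lit 4) (nat_lit 3877) (nat_lit 0), mk (.ofNat (nat_lit 468)) (nat_lit 3) (nat_lit 70481) (nat_lit 0), mk (.ofNat (nat_lit 99)) (nat_lit 5) (nat_lit 3877) (nat_lit 0), mk (.negSucc (nat_lit 35)) (nat_lit 3) (nat_lit 70181) (nat_lit 0), mk (.ofNat (nat_lit 72)) (nat_lit 7) (nat_lit 3877) (nat_lit 0), mk (.negSucc (nat_lit 35)) (nat_lit 2) (nat_lit 8741) (nat_lit 0), mk (.ofNat (nat_lit 1272)) (nat_lit 7) (nat_lit 5) (nat_lit 2), mk (.ofNat (nat_lit 1254)) (nat_lit 3) (nat_lit 135761) (nat_lit 0), mk (.negSucc (nat_lit 1235)) (nat_lit 6) (nat_lit 5) (nat_lit 2), mk (.ofNat (nat_lit 234)) (nat_lit 6)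 (nat_lit 3877) (nat_lit 0), mk (.negSucc (nat_lit 233)) (nat_lit 3) (nat_lit 74066) (nat_lit 0), mk (.ofNat (nat_lit 156)) (nat_lit 3) (nat_lit 78101) (nat_lit 0), mk (.negSucc (nat_lit 264)) (nat_lit 3) (nat_lit 279620) (nat_lit 0)]),
  ((.ofNat (nat_lit 17280)), p48,
    [mk (.negSucc (nat_lit 1979)) (nat_lit 2) (nat_lit 4645) (nat_lit 0), mk (.negSucc (nat_lit 1781)) (nat_lit 3) (nat_lit 69925) (nat_lit 0), mk (.negSucc (nat_lit 692)) (nat_lit 4) (nat_lit 3861) (nat_lit 0), mk (.negSucc (nat_lit 3464)) (nat_lit 5) (nat_lit 3861) (nat_lit 0), mk (.ofNat (nat_lit 1293)) (nat_lit 4) (nat_lit 5) (nat_lit 1), mk (.ofNat (nat_lit 132)) (nat_lit 2) (nat_lit 4373) (nat_lit 2), mk (.ofNat (nat_lit 29898)) (nat_lit 3) (nat_lit 70225) (nat_lit 0), mk (.negSucc (nat_lit 15071)) (nat_lit 3) (nat_lit 69970) (nat_lit 0), mk (.negSucc (nat_lit 5279)) (nat_lit 2) (nat_lit 1122085) (nat_lit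 0), mk (.ofNat (nat_lit 3684)) (nat_lit 7) (nat_lit 3861) (nat_lit 0), mk (.ofNat (nat_lit 19308)) (nat_lit 7) (nat_lit 5) (nat_lit 1), mk (.ofNat (nat_lit 7008)) (nat_lit 6) (nat_lit 3861) (nat_lit 0), mk (.negSucc (nat_lit 14978)) (nat_lit 6) (nat_lit 5) (nat_lit 1), mk (.ofNat (nat_lit 352)) (nat_lit 3) (nat_lit 74005) (nat_lit 0), mk (.negSucc (nat_lit 5436)) (nat_lit 3) (nat_lit 279620) (nat_lit 0)]),
  ((.ofNat (nat_lit 720)), p49,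
    [mk (.ofNat (nat_lit 450)) (nat_lit 5) (nat_lit 1044817) (nat_lit 0), mk (.negSucc (nat_lit 1799)) (nat_lit 3) (nat_lit 18018641) (nat_lit 0), mk (.ofNat (nat_lit 90)) (nat_lit 4) (nat_lit 1044817) (nat_lit 0), mk (.negSucc (nat_lit 3599)) (nat_lit 7) (nat_lit 3861) (nat_lit 1), mk (.ofNat (nat_lit 276)) (nat_lit 7) (nat_lit 1044817) (nat_lit 0), mk (.ofNat (nat_lit 900)) (nat_lit 6) (nat_lit 5) (nat_lit 17), mk (.ofNat (nat_lit 900)) (nat_lit 3) (nat_lit 135761) (nat_lit 0), mk (.negSucc (nat_lit 599)) (nat_lit 3) (nat_lit 69909) (nat_lit 2), mk (.negSucc (nat_lit 635)) (nat_lit 6) (nat_lit 1044817) (nat_lit 0), mk (.ofNat (nat_lit 424)) (nat_lit 3) (nat_lit 18947861) (nat_lit 0), mk (.ofNat (nat_lit 1056)) (nat_lit 6) (nat_lit 3861) (nat_lit 1), mk (.negSucc (nat_lit 149)) (nat_lit 3) (nat_lit 74005) (nat_lit 1), mk (.negSucc (nat_lit 433)) (nat_lit 3) (nat_lit 78101)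 (nat_lit 0), mk (.ofNat (nat_lit 517)) (nat_lit 3) (nat_lit 279620) (nat_lit 0)]),
  ((.ofNat (nat_lit 360)), p50,
    [mk (.ofNat (nat_lit 90)) (nat_lit 3) (nat_lit 18018641) (nat_lit 0), mk (.ofNat (nat_lit 3)) (nat_lit 3) (nat_lit 4596897041) (nat_lit 0), mk (.negSucc (nat_lit 44)) (nat_lit 3) (nat_lit 135761) (nat_lit 0), mk (.negSucc (nat_lit 47)) (nat_lit 6) (nat_lit 3861) (nat_lit 1), mk (.negSucc (nat_lit 11)) (nat_lit 6) (nat_lit 1044817) (nat_lit 0), mk (.ofNat (nat_lit 8)) (nat_lit 3) (nat_lit 18947861) (nat_lit 0), mk (.negSucc (nat_lit 29)) (nat_lit 3) (nat_lit 17899285) (nat_lit 1), mk (.ofNat (nat_lit 28)) (nat_lit 3) (nat_lit 4582273361) (nat_lit 0), mk (.ofNat (nat_lit 30)) (nat_lit 3) (nat_lit 69909) (nat_lit 2), mk (.negSucc (nat_lit 27)) (nat_lit 3) (nat_lit 78101) (nat_lit 0), mk (.negSucc (nat_lit 0)) (nat_lit 3) (nat_lit 279620) (nat_lit 0)])]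

theorem okL2 : jobs2.all (checkJ ids2) = true := by decide +kernel

def ids3 : List (List (Int × T)) := [pa4, g5, p2, p3, p4, p5, p6, p7, p8, p9, p10, p11, p12, p13, p14, p15, p16, p17, p18, p19, p20, p21, p22, p23, p24, p25, p26, p27, p28, p29, p30, p31, p32, p33, p34, p35, p36, p37, p38, p39, p40, p41, p42, p43, p44, p45, p46, p47, p48, p49, p50]

def p51 : List (Int × T) :=
  [((.ofNat (nat_lit 1)), .m v2 (.m v1 (.m v5 (.m v6 v4))))]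

def p52 : List (Int × T) :=
  [((.ofNat (nat_lit 1)), .m v3 (.m v5 (.m v6 v4)))]

def p53 : List (Int × T) :=
  [((.ofNat (nat_lit 1)), .m (.m v5 v3) (.m v6 v4))]

def p54 : List (Int × T) :=
  [((.ofNat (nat_lit 1)), .m v4 (.m v5 (.m v6 v3)))]

def p55 : List (Int × T) :=
  [((.ofNat (nat_lit 1)), .m v2 (.m v1 (.m v5 (.m v6 v3))))]

def p56 : List (Int × T) :=
  [((.ofNat (nat_lit 1)), .m (.m v5 v4) (.m v6 v4))]

def p57 : List (Int × T) :=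
  [((.ofNat (nat_lit 1)), .m v2 (.m v5 (.m v6 v4)))]

def p58 : List (Int × T) :=
  [((.ofNat (nat_lit 1)), .m (.m v5 v2) (.m v6 v4))]

def p59 : List (Int × T) :=
  [((.ofNat (nat_lit 1)), .m (.m v5 v4) (.m v1 (.m v6 v2)))]

def p60 : List (Int × T) :=
  [((.ofNat (nat_lit 1)), .m v2 (.m v1 (.m v1 (.m v5 (.m v6 v2)))))]

def p61 : List (Int × T) :=
  [((.ofNat (nat_lit 1)), .m v2 (.m v1 (.m v5 (.m v2 (.m v6 v1)))))]

def p62 : List (Int × T) :=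
  [((.ofNat (nat_lit 1)), .m v4 (.m (.m v5 v1) (.m v6 v2)))]

def p63 : List (Int × T) :=
  [((.ofNat (nat_lit 1)), .m v4 (.m v5 (.m v6 v2)))]

/-- certificates of level 3 -/
def jobs3 : List Job := [
  ((.ofNat (nat_lit 4)), p51,
    [mk (.ofNat (nat_lit 4)) (nat_lit 3) (nat_lit 136278) (nat_lit 0), mk (.negSucc (nat_lit 3)) (nat_lit 12) (nat_lit 28469) (nat_lit 0), mk (.negSucc (nat_lit 3)) (nat_lit 12) (nat_lit 7336274) (nat_lit 0), mk (.negSucc (nat_lit 3)) (nat_lit 16) (nat_lit 6) (nat_lit 21), mk (.negSucc (nat_lit 3)) (nat_lit 25) (nat_lit 6) (nat_lit 21), mk (.negSucc (nat_lit 3)) (nat_lit 26) (nat_lit 5) (nat_lit 98), mk (.negSucc (nat_lit 3)) (nat_lit 23) (nat_lit 3941) (nat_lit 2), mk (.negSucc (nat_lit 3)) (nat_lit 26) (nat_lit 1045093) (nat_lit 0), mk (.negSucc (nat_lit 3)) (nat_lit 27) (nat_lit 3941) (nat_lit 0), mk (.ofNat (nat_lit 16)) (nat_lit 29) (nat_lit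 5) (nat_lit 3862), mk (.ofNat (nat_lit 16)) (nat_lit 28) (nat_lit 5) (nat_lit 3862), mk (.negSucc (nat_lit 0)) (nat_lit 3) (nat_lit 279620) (nat_lit 0)]),
  ((.ofNat (nat_lit 5)), p52,
    [mk (.negSucc (nat_lit 3)) (nat_lit 11) (nat_lit 62565) (nat_lit 0), mk (.ofNat (nat_lit 1)) (nat_lit 9) (nat_lit 62565) (nat_lit 0), mk (.ofNat (nat_lit 20)) (nat_lit 3) (nat_lit 136278) (nat_lit 0), mk (.negSucc (nat_lit 19)) (nat_lit 12) (nat_lit 7336274) (nat_lit 0), mk (.negSucc (nat_lit 19)) (nat_lit 12) (nat_lit 28469) (nat_lit 0), mk (.ofNat (nat_lit 5)) (nat_lit 22) (nat_lit 16717094) (nat_lit 0), mk (.ofNat (nat_lit 10)) (nat_lit 22) (nat_lit 62038) (nat_lit 1), mk (.ofNat (nat_lit 40)) (nat_lit 23) (nat_lit 6) (nat_lit 7957), mk (.negSucc (nat_lit 19)) (nat_lit 23) (nat_lit 6) (nat_lit 337), mk (.ofNat (nat_lit 20)) (nat_lit 23) (nat_lit 6) (nat_lit 82), mk (.ofNat (nat_lit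 10)) (nat_lit 24) (nat_lit 6) (nat_lit 5), mk (.negSucc (nat_lit 9)) (nat_lit 23) (nat_lit 6) (nat_lit 1044817), mk (.negSucc (nat_lit 4)) (nat_lit 23) (nat_lit 6) (nat_lit 3877), mk (.negSucc (nat_lit 19)) (nat_lit 16) (nat_lit 6) (nat_lit 21), mk (.negSucc (nat_lit 19)) (nat_lit 25) (nat_lit 6) (nat_lit 21), mk (.negSucc (nat_lit 19)) (nat_lit 26) (nat_lit 5) (nat_lit 98), mk (.negSucc (nat_lit 19)) (nat_lit 23) (nat_lit 3941) (nat_lit 2), mk (.negSucc (nat_lit 19)) (nat_lit 26) (nat_lit 1045093) (nat_lit 0), mk (.negSucc (nat_lit 19)) (nat_lit 27) (nat_lit 3941) (nat_lit 0), mk (.ofNat (nat_lit 80)) (nat_lit 28) (nat_lit 5) (nat_lit 3862), mk (.ofNat (nat_lit 80)) (nat_lit 29) (nat_lit 5) (nat_lit 3862), mk (.negSucc (nat_lit 19)) (nat_lit 28) (nat_lit 5) (nat_lit 97), mk (.negSucc (nat_lit 39)) (nat_lit 21) (nat_lit 5) (nat_lit 1553), mk (.negSucc (nat_lit 4)) (nat_lit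 3) (nat_lit 279620) (nat_lit 0)]),
  ((.ofNat (nat_lit 1)), p53,
    [mk (.ofNat (nat_lit 1)) (nat_lit 22) (nat_lit 62294) (nat_lit 0), mk (.negSucc (nat_lit 3)) (nat_lit 29) (nat_lit 5) (nat_lit 97)]),
  ((.ofNat (nat_lit 1)), p54,
    [mk (.ofNat (nat_lit 1)) (nat_lit 12) (nat_lit 24374) (nat_lit 0), mk (.negSucc (nat_lit 3)) (nat_lit 29) (nat_lit 6) (nat_lit 3861)]),
  ((.ofNat (nat_lit 2880)), p55,
    [mk (.negSucc (nat_lit 383)) (nat_lit 2) (nat_lit 287306582) (nat_lit 0), mk (.negSucc (nat_lit 359)) (nat_lit 3) (nat_lit 69989) (nat_lit 3), mk (.ofNat (nat_lit 36)) (nat_lit 4) (nat_lit 1045093) (nat_lit 0), mk (.negSucc (nat_lit 1655)) (nat_lit 10) (nat_lit 101) (nat_lit 3), mk (.ofNat (nat_lit 4032)) (nat_lit 3) (nat_lit 18084182) (nat_lit 0), mk (.ofNat (nat_lit 3552)) (nat_lit 2) (nat_lit 73551254822) (nat_lit 0), mk (.negSucc (nat_lit 503)) (nat_lit 35) (nat_lit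 101) (nat_lit 2), mk (.ofNat (nat_lit 1296)) (nat_lit 10) (nat_lit 28437) (nat_lit 2), mk (.ofNat (nat_lit 8784)) (nat_lit 3) (nat_lit 19067222) (nat_lit 0), mk (.negSucc (nat_lit 6335)) (nat_lit 3) (nat_lit 4596897062) (nat_lit 0), mk (.negSucc (nat_lit 3167)) (nat_lit 10) (nat_lit 62309) (nat_lit 0), mk (.negSucc (nat_lit 2735)) (nat_lit 3) (nat_lit 18215777) (nat_lit 0), mk (.ofNat (nat_lit 6168)) (nat_lit 3) (nat_lit 69974) (nat_lit 33), mk (.negSucc (nat_lit 20591)) (nat_lit 3) (nat_lit 75107) (nat_lit 0), mk (.ofNat (nat_lit 720)) (nat_lit 3) (nat_lit 17953637) (nat_lit 0), mk (.negSucc (nat_lit 143)) (nat_lit 2) (nat_lit 287306597) (nat_lit 0), mk (.negSucc (nat_lit 6167)) (nat_lit 31) (nat_lit 61797) (nat_lit 1), mk (.ofNat (nat_lit 9720)) (nat_lit 3) (nat_lit 135766) (nat_lit 1), mk (.negSucc (nat_lit 5147)) (nat_lit 3) (nat_lit 4596901457) (nat_lit 0), mk (.negSucc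 (nat_lit 20591)) (nat_lit 7) (nat_lit 1045078) (nat_lit 0), mk (.ofNat (nat_lit 13968)) (nat_lit 3) (nat_lit 70757) (nat_lit 0), mk (.ofNat (nat_lit 5328)) (nat_lit 3) (nat_lit 139877) (nat_lit 0), mk (.ofNat (nat_lit 5184)) (nat_lit 31) (nat_lit 16717078) (nat_lit 0), mk (.negSucc (nat_lit 8639)) (nat_lit 32) (nat_lit 101) (nat_lit 2), mk (.ofNat (nat_lit 5184)) (nat_lit 3) (nat_lit 139862) (nat_lit 0), mk (.ofNat (nat_lit 288)) (nat_lit 3) (nat_lit 78422) (nat_lit 0), mk (.ofNat (nat_lit 4320)) (nat_lit 31) (nat_lit 62038) (nat_lit 0), mk (.ofNat (nat_lit 216)) (nat_lit 2) (nat_lit 13142) (nat_lit 0), mk (.ofNat (nat_lit 3084)) (nat_lit 3) (nat_lit 135781) (nat_lit 1), mk (.ofNat (nat_lit 1656)) (nat_lit 3) (nat_lit 74582) (nat_lit 0), mk (.ofNat (nat_lit 3168)) (nat_lit 12) (nat_lit 16717333) (nat_lit 0), mk (.negSucc (nat_lit 827)) (nat_lit 3) (nat_lit 51769697) (nat_lit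 0), mk (.ofNat (nat_lit 396)) (nat_lit 3) (nat_lit 86294) (nat_lit 3), mk (.negSucc (nat_lit 1187)) (nat_lit 3) (nat_lit 51835217) (nat_lit 0), mk (.negSucc (nat_lit 3083)) (nat_lit 6) (nat_lit 268375318) (nat_lit 0), mk (.negSucc (nat_lit 4391)) (nat_lit 3) (nat_lit 19329362) (nat_lit 0), mk (.negSucc (nat_lit 19439)) (nat_lit 3) (nat_lit 136546) (nat_lit 1), mk (.ofNat (nat_lit 234)) (nat_lit 6) (nat_lit 1045078) (nat_lit 0), mk (.ofNat (nat_lit 3432)) (nat_lit 3) (nat_lit 4582273637) (nat_lit 0), mk (.ofNat (nat_lit 10296)) (nat_lit 3) (nat_lit 75106) (nat_lit 1), mk (.ofNat (nat_lit 8496)) (nat_lit 22) (nat_lit 86) (nat_lit 17), mk (.negSucc (nat_lit 13967)) (nat_lit 3) (nat_lit 71012) (nat_lit 0), mk (.negSucc (nat_lit 1775)) (nat_lit 3) (nat_lit 152102) (nat_lit 0), mk (.negSucc (nat_lit 5327)) (nat_lit 3) (nat_lit 140642) (nat_lit 0), mk (.negSucc (nat_lit 2159))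 (nat_lit 3) (nat_lit 69909) (nat_lit 98), mk (.negSucc (nat_lit 10655)) (nat_lit 22) (nat_lit 86) (nat_lit 2), mk (.ofNat (nat_lit 2736)) (nat_lit 3) (nat_lit 78181) (nat_lit 1), mk (.negSucc (nat_lit 2519)) (nat_lit 33) (nat_lit 101) (nat_lit 2), mk (.negSucc (nat_lit 2303)) (nat_lit 3) (nat_lit 71011) (nat_lit 1), mk (.ofNat (nat_lit 4608)) (nat_lit 3) (nat_lit 136547) (nat_lit 0), mk (.negSucc (nat_lit 17135)) (nat_lit 12) (nat_lit 6287713) (nat_lit 0), mk (.ofNat (nat_lit 3084)) (nat_lit 12) (nat_lit 7336273) (nat_lit 0), mk (.ofNat (nat_lit 6660)) (nat_lit 12) (nat_lit 24358) (nat_lit 0), mk (.ofNat (nat_lit 2056)) (nat_lit 3) (nat_lit 23142197) (nat_lit 0), mk (.ofNat (nat_lit 3168)) (nat_lit 22) (nat_lit 24342) (nat_lit 1), mk (.negSucc (nat_lit 548)) (nat_lit 34) (nat_lit 86) (nat_lit 2), mk (.ofNat (nat_lit 20358)) (nat_lit 12) (nat_lit 28453) (nat_lit 0), mk (.negSucc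 (nat_lit 3311)) (nat_lit 36) (nat_lit 1044822) (nat_lit 0), mk (.ofNat (nat_lit 720)) (nat_lit 37) (nat_lit 3941) (nat_lit 0), mk (.negSucc (nat_lit 7199)) (nat_lit 36) (nat_lit 5) (nat_lit 97), mk (.negSucc (nat_lit 7199)) (nat_lit 38) (nat_lit 1044822) (nat_lit 0), mk (.negSucc (nat_lit 12815)) (nat_lit 26) (nat_lit 5) (nat_lit 97), mk (.negSucc (nat_lit 4031)) (nat_lit 38) (nat_lit 6) (nat_lit 3861), mk (.negSucc (nat_lit 1655)) (nat_lit 39) (nat_lit 6) (nat_lit 3861), mk (.ofNat (nat_lit 23328)) (nat_lit 40) (nat_lit 5) (nat_lit 97), mk (.ofNat (nat_lit 10656)) (nat_lit 41) (nat_lit 1044822) (nat_lit 0), mk (.negSucc (nat_lit 8783)) (nat_lit 40) (nat_lit 1044822) (nat_lit 0), mk (.negSucc (nat_lit 26639)) (nat_lit 21) (nat_lit 6) (nat_lit 3861), mk (.negSucc (nat_lit 8783)) (nat_lit 40) (nat_lit 6) (nat_lit 3861), mk (.ofNat (nat_lit 12672)) (nat_lit 42) (nat_lit 5)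 (nat_lit 97), mk (.ofNat (nat_lit 5472)) (nat_lit 38) (nat_lit 6) (nat_lit 21), mk (.ofNat (nat_lit 864)) (nat_lit 19) (nat_lit 6) (nat_lit 21), mk (.negSucc (nat_lit 12335)) (nat_lit 43) (nat_lit 1044837) (nat_lit 0), mk (.negSucc (nat_lit 12335)) (nat_lit 44) (nat_lit 3941) (nat_lit 1), mk (.ofNat (nat_lit 31248)) (nat_lit 16) (nat_lit 6) (nat_lit 5), mk (.ofNat (nat_lit 16416)) (nat_lit 15) (nat_lit 6) (nat_lit 5), mk (.ofNat (nat_lit 18936)) (nat_lit 29) (nat_lit 6) (nat_lit 5), mk (.ofNat (nat_lit 20304)) (nat_lit 13) (nat_lit 6) (nat_lit 5), mk (.ofNat (nat_lit 31248)) (nat_lit 16) (nat_lit 5) (nat_lit 6), mk (.ofNat (nat_lit 16416)) (nat_lit 15) (nat_lit 5) (nat_lit 6), mk (.ofNat (nat_lit 20592)) (nat_lit 29) (nat_lit 5) (nat_lit 6), mk (.ofNat (nat_lit 20592)) (nat_lit 13) (nat_lit 5) (nat_lit 6), mk (.ofNat (nat_lit 864)) (nat_lit 38) (nat_lit 6) (nat_lit 81),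 mk (.negSucc (nat_lit 2591)) (nat_lit 19) (nat_lit 6) (nat_lit 81), mk (.negSucc (nat_lit 25607)) (nat_lit 21) (nat_lit 3941) (nat_lit 1), mk (.negSucc (nat_lit 11591)) (nat_lit 26) (nat_lit 5) (nat_lit 22), mk (.negSucc (nat_lit 17135)) (nat_lit 26) (nat_lit 6) (nat_lit 81), mk (.negSucc (nat_lit 13967)) (nat_lit 23) (nat_lit 3941) (nat_lit 1), mk (.negSucc (nat_lit 13967)) (nat_lit 26) (nat_lit 1044822) (nat_lit 0), mk (.negSucc (nat_lit 13967)) (nat_lit 45) (nat_lit 3941) (nat_lit 0), mk (.negSucc (nat_lit 21023)) (nat_lit 20) (nat_lit 3941) (nat_lit 0), mk (.ofNat (nat_lit 288)) (nat_lit 20) (nat_lit 6) (nat_lit 5), mk (.negSucc (nat_lit 4895)) (nat_lit 14) (nat_lit 6) (nat_lit 5), mk (.negSucc (nat_lit 1439)) (nat_lit 19) (nat_lit 5) (nat_lit 97), mk (.negSucc (nat_lit 287)) (nat_lit 18) (nat_lit 3941) (nat_lit 1), mk (.negSucc (nat_lit 4895)) (nat_lit 19) (nat_lit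 1044837) (nat_lit 0), mk (.negSucc (nat_lit 11267)) (nat_lit 17) (nat_lit 3941) (nat_lit 0), mk (.ofNat (nat_lit 432)) (nat_lit 15) (nat_lit 3941) (nat_lit 0), mk (.ofNat (nat_lit 13272)) (nat_lit 41) (nat_lit 5) (nat_lit 97), mk (.negSucc (nat_lit 1655)) (nat_lit 17) (nat_lit 6) (nat_lit 5), mk (.ofNat (nat_lit 648)) (nat_lit 18) (nat_lit 5) (nat_lit 97), mk (.negSucc (nat_lit 1655)) (nat_lit 19) (nat_lit 3941) (nat_lit 1), mk (.negSucc (nat_lit 1655)) (nat_lit 18) (nat_lit 1044837) (nat_lit 0), mk (.negSucc (nat_lit 1655)) (nat_lit 14) (nat_lit 3941) (nat_lit 0), mk (.ofNat (nat_lit 1656)) (nat_lit 36) (nat_lit 6) (nat_lit 21), mk (.ofNat (nat_lit 1656)) (nat_lit 26) (nat_lit 6) (nat_lit 21), mk (.ofNat (nat_lit 1656)) (nat_lit 23) (nat_lit 5) (nat_lit 3862), mk (.ofNat (nat_lit 1656)) (nat_lit 39) (nat_lit 5) (nat_lit 3862), mk (.ofNat (nat_lit 2376)) (nat_lit 36) (nat_lit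 5) (nat_lit 22), mk (.ofNat (nat_lit 2376)) (nat_lit 23) (nat_lit 6) (nat_lit 3861), mk (.ofNat (nat_lit 8784)) (nat_lit 28) (nat_lit 5) (nat_lit 6), mk (.ofNat (nat_lit 8784)) (nat_lit 17) (nat_lit 5) (nat_lit 6), mk (.ofNat (nat_lit 8784)) (nat_lit 19) (nat_lit 6) (nat_lit 3861), mk (.ofNat (nat_lit 21744)) (nat_lit 23) (nat_lit 6) (nat_lit 81), mk (.ofNat (nat_lit 19440)) (nat_lit 40) (nat_lit 6) (nat_lit 81), mk (.ofNat (nat_lit 21744)) (nat_lit 23) (nat_lit 5) (nat_lit 97), mk (.ofNat (nat_lit 19440)) (nat_lit 41) (nat_lit 1044837) (nat_lit 0), mk (.negSucc (nat_lit 20591)) (nat_lit 21) (nat_lit 6) (nat_lit 81), mk (.negSucc (nat_lit 20591)) (nat_lit 21) (nat_lit 5) (nat_lit 97), mk (.ofNat (nat_lit 13968)) (nat_lit 25) (nat_lit 6) (nat_lit 5), mk (.ofNat (nat_lit 13968)) (nat_lit 23) (nat_lit 6) (nat_lit 21), mk (.ofNat (nat_lit 13968)) (nat_lit 45) (nat_lit 6) (nat_lit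 5), mk (.ofNat (nat_lit 13968)) (nat_lit 25) (nat_lit 5) (nat_lit 6), mk (.ofNat (nat_lit 13968)) (nat_lit 45) (nat_lit 5) (nat_lit 6), mk (.ofNat (nat_lit 13968)) (nat_lit 23) (nat_lit 1044837) (nat_lit 0), mk (.ofNat (nat_lit 13968)) (nat_lit 23) (nat_lit 1044822) (nat_lit 0), mk (.negSucc (nat_lit 5471)) (nat_lit 39) (nat_lit 3941) (nat_lit 1), mk (.ofNat (nat_lit 2304)) (nat_lit 18) (nat_lit 6) (nat_lit 81), mk (.ofNat (nat_lit 2304)) (nat_lit 36) (nat_lit 6) (nat_lit 81), mk (.negSucc (nat_lit 10031)) (nat_lit 38) (nat_lit 5) (nat_lit 97), mk (.ofNat (nat_lit 2304)) (nat_lit 38) (nat_lit 1044837) (nat_lit 0), mk (.negSucc (nat_lit 4607)) (nat_lit 19) (nat_lit 5) (nat_lit 22), mk (.negSucc (nat_lit 4607)) (nat_lit 14) (nat_lit 5) (nat_lit 6), mk (.negSucc (nat_lit 4607)) (nat_lit 19) (nat_lit 1044822) (nat_lit 0), mk (.ofNat (nat_lit 68544)) (nat_lit 44) (nat_lit 6)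 (nat_lit 3861), mk (.negSucc (nat_lit 12335)) (nat_lit 44) (nat_lit 5) (nat_lit 3862), mk (.ofNat (nat_lit 4392)) (nat_lit 29) (nat_lit 3941) (nat_lit 0), mk (.negSucc (nat_lit 1646)) (nat_lit 16) (nat_lit 3941) (nat_lit 0), mk (.negSucc (nat_lit 81431)) (nat_lit 21) (nat_lit 5) (nat_lit 3862), mk (.negSucc (nat_lit 8931)) (nat_lit 3) (nat_lit 279620) (nat_lit 0)]),
  ((.ofNat (nat_lit 1)), p56,
    [mk (.ofNat (nat_lit 1)) (nat_lit 22) (nat_lit 62550) (nat_lit 0), mk (.negSucc (nat_lit 3)) (nat_lit 23) (nat_lit 5) (nat_lit 609)]),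
  ((.ofNat (nat_lit 16)), p57,
    [mk (.ofNat (nat_lit 4)) (nat_lit 2) (nat_lit 1138502) (nat_lit 0), mk (.ofNat (nat_lit 1)) (nat_lit 46) (nat_lit 28437) (nat_lit 1), mk (.ofNat (nat_lit 8)) (nat_lit 3) (nat_lit 70742) (nat_lit 0), mk (.negSucc (nat_lit 3)) (nat_lit 3) (nat_lit 19329362) (nat_lit 0), mk (.negSucc (nat_lit 7)) (nat_lit 12) (nat_lit 7336273) (nat_lit 0), mk (.negSucc (nat_lit 7)) (nat_lit 12) (nat_lit 28453) (nat_lit 0), mk (.ofNat (nat_lit 4)) (nat_lit 22) (nat_lit 62038) (nat_lit 0), mk (.ofNat (nat_lit 8)) (nat_lit 22) (nat_lit 16717078) (nat_lit 0), mk (.negSucc (nat_lit 31)) (nat_lit 23) (nat_lit 6) (nat_lit 3861), mk (.ofNat (nat_lit 4)) (nat_lit 16) (nat_lit 6) (nat_lit 5), mk (.ofNat (nat_lit 8)) (nat_lit 23) (nat_lit 6) (nat_lit 81), mk (.negSucc (nat_lit 23)) (nat_lit 38) (nat_lit 1044822) (nat_lit 0), mk (.negSucc (nat_lit 3)) (nat_lit 39) (nat_lit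 1044822) (nat_lit 0), mk (.negSucc (nat_lit 15)) (nat_lit 26) (nat_lit 5) (nat_lit 97), mk (.ofNat (nat_lit 17)) (nat_lit 23) (nat_lit 1044822) (nat_lit 0), mk (.negSucc (nat_lit 7)) (nat_lit 26) (nat_lit 6) (nat_lit 21), mk (.negSucc (nat_lit 7)) (nat_lit 23) (nat_lit 3941) (nat_lit 1), mk (.negSucc (nat_lit 7)) (nat_lit 26) (nat_lit 1044837) (nat_lit 0), mk (.negSucc (nat_lit 7)) (nat_lit 45) (nat_lit 3941) (nat_lit 0), mk (.ofNat (nat_lit 8)) (nat_lit 28) (nat_lit 5) (nat_lit 6), mk (.ofNat (nat_lit 8)) (nat_lit 17) (nat_lit 5) (nat_lit 6), mk (.ofNat (nat_lit 8)) (nat_lit 19) (nat_lit 6) (nat_lit 3861), mk (.ofNat (nat_lit 8)) (nat_lit 21) (nat_lit 6) (nat_lit 3861), mk (.ofNat (nat_lit 32)) (nat_lit 44) (nat_lit 5) (nat_lit 3862), mk (.ofNat (nat_lit 32)) (nat_lit 21) (nat_lit 5) (nat_lit 3862), mk (.negSucc (nat_lit 15)) (nat_lit 21) (nat_lit 5) (nat_lit 97), mk (.negSucc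 (nat_lit 31)) (nat_lit 44) (nat_lit 5) (nat_lit 97), mk (.negSucc (nat_lit 1)) (nat_lit 3) (nat_lit 279620) (nat_lit 0)]),
  ((.ofNat (nat_lit 1)), p58,
    [mk (.ofNat (nat_lit 1)) (nat_lit 22) (nat_lit 62038) (nat_lit 0), mk (.negSucc (nat_lit 3)) (nat_lit 21) (nat_lit 5) (nat_lit 97)]),
  ((.ofNat (nat_lit 1)), p59,
    [mk (.ofNat (nat_lit 1)) (nat_lit 22) (nat_lit 16721429) (nat_lit 0), mk (.negSucc (nat_lit 3)) (nat_lit 47) (nat_lit 6) (nat_lit 81)]),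
  ((.ofNat (nat_lit 2304)), p60,
    [mk (.negSucc (nat_lit 1727)) (nat_lit 3) (nat_lit 18215521) (nat_lit 1), mk (.ofNat (nat_lit 1728)) (nat_lit 3) (nat_lit 4586467937) (nat_lit 0), mk (.negSucc (nat_lit 395)) (nat_lit 5) (nat_lit 268375318) (nat_lit 0), mk (.negSucc (nat_lit 1727)) (nat_lit 3) (nat_lit 23146277) (nat_lit 0), mk (.negSucc (nat_lit 10511)) (nat_lit 3) (nat_lit 19067237) (nat_lit 0), mk (.negSucc (nat_lit 395)) (nat_lit 4) (nat_lit 268375318) (nat_lit 0), mk (.ofNat (nat_lit 1584)) (nat_lit 3) (nat_lit 74070) (nat_lit 2), mk (.ofNat (nat_lit 3168)) (nat_lit 3) (nat_lit 4817613137) (nat_lit 0), mk (.ofNat (nat_lit 486)) (nat_lit 35) (nat_lit 86) (nat_lit 2), mk (.negSucc (nat_lit 6335)) (nat_lit 3) (nat_lit 35058002) (nat_lit 0), mk (.ofNat (nat_lit 792)) (nat_lit 8) (nat_lit 97) (nat_lit 82), mk (.negSucc (nat_lit 3167)) (nat_lit 10) (nat_lit 86) (nat_lit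 18), mk (.negSucc (nat_lit 1583)) (nat_lit 3) (nat_lit 71009) (nat_lit 18), mk (.ofNat (nat_lit 3168)) (nat_lit 3) (nat_lit 34992737) (nat_lit 0), mk (.ofNat (nat_lit 1728)) (nat_lit 3) (nat_lit 4595998502) (nat_lit 0), mk (.ofNat (nat_lit 1728)) (nat_lit 3) (nat_lit 22097702) (nat_lit 0), mk (.ofNat (nat_lit 10512)) (nat_lit 3) (nat_lit 75107) (nat_lit 0), mk (.ofNat (nat_lit 108)) (nat_lit 4) (nat_lit 1045093) (nat_lit 0), mk (.negSucc (nat_lit 3503)) (nat_lit 3) (nat_lit 69989) (nat_lit 33), mk (.negSucc (nat_lit 3167)) (nat_lit 3) (nat_lit 69989) (nat_lit 18), mk (.ofNat (nat_lit 720)) (nat_lit 2) (nat_lit 73551259217) (nat_lit 0), mk (.negSucc (nat_lit 5255)) (nat_lit 3) (nat_lit 135781) (nat_lit 1), mk (.ofNat (nat_lit 3504)) (nat_lit 31) (nat_lit 61782) (nat_lit 1), mk (.ofNat (nat_lit 3132)) (nat_lit 3) (nat_lit 4596901217) (nat_lit 0), mk (.ofNat (nat_lit 4896))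 (nat_lit 31) (nat_lit 86) (nat_lit 17), mk (.negSucc (nat_lit 4895)) (nat_lit 3) (nat_lit 18968341) (nat_lit 1), mk (.ofNat (nat_lit 2880)) (nat_lit 32) (nat_lit 86) (nat_lit 17), mk (.ofNat (nat_lit 3456)) (nat_lit 32) (nat_lit 101) (nat_lit 2), mk (.ofNat (nat_lit 2016)) (nat_lit 3) (nat_lit 78437) (nat_lit 0), mk (.ofNat (nat_lit 4752)) (nat_lit 31) (nat_lit 86) (nat_lit 2), mk (.negSucc (nat_lit 4751)) (nat_lit 3) (nat_lit 34762517) (nat_lit 0), mk (.negSucc (nat_lit 3815)) (nat_lit 3) (nat_lit 139877) (nat_lit 0), mk (.negSucc (nat_lit 3455)) (nat_lit 32) (nat_lit 86) (nat_lit 2), mk (.ofNat (nat_lit 5760)) (nat_lit 3) (nat_lit 70757) (nat_lit 0), mk (.ofNat (nat_lit 3456)) (nat_lit 3) (nat_lit 78422) (nat_lit 0), mk (.negSucc (nat_lit 1871)) (nat_lit 3) (nat_lit 139862) (nat_lit 0), mk (.negSucc (nat_lit 1751)) (nat_lit 3) (nat_lit 135766) (nat_lit 1), mk (.ofNat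 (nat_lit 4356)) (nat_lit 3) (nat_lit 4596901457) (nat_lit 0), mk (.ofNat (nat_lit 1584)) (nat_lit 3) (nat_lit 51835217) (nat_lit 0), mk (.ofNat (nat_lit 528)) (nat_lit 3) (nat_lit 86294) (nat_lit 3), mk (.negSucc (nat_lit 1583)) (nat_lit 3) (nat_lit 51769697) (nat_lit 0), mk (.negSucc (nat_lit 1055)) (nat_lit 3) (nat_lit 69909) (nat_lit 3878), mk (.ofNat (nat_lit 1752)) (nat_lit 6) (nat_lit 268375573) (nat_lit 0), mk (.ofNat (nat_lit 5256)) (nat_lit 3) (nat_lit 19263842) (nat_lit 0), mk (.negSucc (nat_lit 2087)) (nat_lit 3) (nat_lit 4582273622) (nat_lit 0), mk (.ofNat (nat_lit 1440)) (nat_lit 3) (nat_lit 78181) (nat_lit 1), mk (.negSucc (nat_lit 5759)) (nat_lit 3) (nat_lit 71012) (nat_lit 0), mk (.negSucc (nat_lit 1055)) (nat_lit 3) (nat_lit 22093606) (nat_lit 1), mk (.negSucc (nat_lit 4751)) (nat_lit 3) (nat_lit 9111466337) (nat_lit 0), mk (.ofNat (nat_lit 1584)) (nat_lit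 3) (nat_lit 22093590) (nat_lit 2), mk (.ofNat (nat_lit 1584)) (nat_lit 3) (nat_lit 23142165) (nat_lit 2), mk (.ofNat (nat_lit 1056)) (nat_lit 3) (nat_lit 86294) (nat_lit 18), mk (.negSucc (nat_lit 3167)) (nat_lit 22) (nat_lit 101) (nat_lit 2), mk (.ofNat (nat_lit 2430)) (nat_lit 33) (nat_lit 86) (nat_lit 2), mk (.ofNat (nat_lit 3168)) (nat_lit 3) (nat_lit 136547) (nat_lit 0), mk (.ofNat (nat_lit 3960)) (nat_lit 22) (nat_lit 86) (nat_lit 2), mk (.negSucc (nat_lit 3167)) (nat_lit 33) (nat_lit 62053) (nat_lit 0), mk (.ofNat (nat_lit 624)) (nat_lit 3) (nat_lit 152102) (nat_lit 0), mk (.ofNat (nat_lit 1728)) (nat_lit 31) (nat_lit 28453) (nat_lit 0), mk (.negSucc (nat_lit 1727)) (nat_lit 31) (nat_lit 24358) (nat_lit 0), mk (.negSucc (nat_lit 8711)) (nat_lit 3) (nat_lit 75106) (nat_lit 1), mk (.ofNat (nat_lit 1440)) (nat_lit 3) (nat_lit 140642) (nat_lit 0), mk (.ofNat (nat_lit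 10512)) (nat_lit 3) (nat_lit 136546) (nat_lit 1), mk (.ofNat (nat_lit 540)) (nat_lit 6) (nat_lit 1045093) (nat_lit 0), mk (.negSucc (nat_lit 2183)) (nat_lit 3) (nat_lit 4582273637) (nat_lit 0), mk (.ofNat (nat_lit 864)) (nat_lit 22) (nat_lit 28453) (nat_lit 0), mk (.ofNat (nat_lit 2376)) (nat_lit 12) (nat_lit 86) (nat_lit 2), mk (.negSucc (nat_lit 1167)) (nat_lit 3) (nat_lit 22093622) (nat_lit 0), mk (.negSucc (nat_lit 7511)) (nat_lit 12) (nat_lit 6287713) (nat_lit 0), mk (.negSucc (nat_lit 12527)) (nat_lit 12) (nat_lit 28453) (nat_lit 0), mk (.ofNat (nat_lit 1053)) (nat_lit 34) (nat_lit 86) (nat_lit 2), mk (.negSucc (nat_lit 575)) (nat_lit 3) (nat_lit 5656015457) (nat_lit 0), mk (.ofNat (nat_lit 3168)) (nat_lit 22) (nat_lit 62053) (nat_lit 0), mk (.negSucc (nat_lit 1727)) (nat_lit 22) (nat_lit 24358) (nat_lit 0), mk (.negSucc (nat_lit 23615)) (nat_lit 12) (nat_lit 24358)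 (nat_lit 0), mk (.ofNat (nat_lit 6912)) (nat_lit 48) (nat_lit 6) (nat_lit 81), mk (.negSucc (nat_lit 7007)) (nat_lit 41) (nat_lit 6) (nat_lit 81), mk (.negSucc (nat_lit 3455)) (nat_lit 48) (nat_lit 6) (nat_lit 21), mk (.negSucc (nat_lit 17423)) (nat_lit 13) (nat_lit 6) (nat_lit 5), mk (.ofNat (nat_lit 3456)) (nat_lit 41) (nat_lit 5) (nat_lit 97), mk (.ofNat (nat_lit 20880)) (nat_lit 21) (nat_lit 5) (nat_lit 97), mk (.ofNat (nat_lit 4752)) (nat_lit 26) (nat_lit 6) (nat_lit 81), mk (.ofNat (nat_lit 10512)) (nat_lit 40) (nat_lit 1044837) (nat_lit 0), mk (.ofNat (nat_lit 50112)) (nat_lit 21) (nat_lit 5) (nat_lit 3862), mk (.ofNat (nat_lit 10512)) (nat_lit 40) (nat_lit 5) (nat_lit 3862), mk (.negSucc (nat_lit 3167)) (nat_lit 21) (nat_lit 1044837) (nat_lit 0), mk (.negSucc (nat_lit 3167)) (nat_lit 28) (nat_lit 3941) (nat_lit 0), mk (.negSucc (nat_lit 9791)) (nat_lit 48) (nat_lit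 6) (nat_lit 3861), mk (.ofNat (nat_lit 15840)) (nat_lit 40) (nat_lit 5) (nat_lit 22), mk (.ofNat (nat_lit 6336)) (nat_lit 49) (nat_lit 5) (nat_lit 6), mk (.negSucc (nat_lit 2591)) (nat_lit 26) (nat_lit 5) (nat_lit 22), mk (.ofNat (nat_lit 6336)) (nat_lit 17) (nat_lit 5) (nat_lit 6), mk (.ofNat (nat_lit 3168)) (nat_lit 23) (nat_lit 6) (nat_lit 3861), mk (.ofNat (nat_lit 6336)) (nat_lit 19) (nat_lit 6) (nat_lit 3861), mk (.ofNat (nat_lit 6336)) (nat_lit 40) (nat_lit 6) (nat_lit 3861), mk (.ofNat (nat_lit 3168)) (nat_lit 44) (nat_lit 1044837) (nat_lit 0), mk (.ofNat (nat_lit 9504)) (nat_lit 44) (nat_lit 1044822) (nat_lit 0), mk (.negSucc (nat_lit 6335)) (nat_lit 21) (nat_lit 6) (nat_lit 21), mk (.negSucc (nat_lit 6335)) (nat_lit 18) (nat_lit 6) (nat_lit 21), mk (.ofNat (nat_lit 1296)) (nat_lit 21) (nat_lit 6) (nat_lit 81), mk (.negSucc (nat_lit 13391)) (nat_lit 16) (nat_lit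 6) (nat_lit 5), mk (.negSucc (nat_lit 13679)) (nat_lit 15) (nat_lit 6) (nat_lit 5), mk (.negSucc (nat_lit 10511)) (nat_lit 29) (nat_lit 6) (nat_lit 5), mk (.negSucc (nat_lit 13391)) (nat_lit 16) (nat_lit 5) (nat_lit 6), mk (.negSucc (nat_lit 13679)) (nat_lit 15) (nat_lit 5) (nat_lit 6), mk (.negSucc (nat_lit 10511)) (nat_lit 29) (nat_lit 5) (nat_lit 6), mk (.negSucc (nat_lit 12527)) (nat_lit 13) (nat_lit 5) (nat_lit 6), mk (.ofNat (nat_lit 7008)) (nat_lit 43) (nat_lit 1044822) (nat_lit 0), mk (.ofNat (nat_lit 7008)) (nat_lit 44) (nat_lit 3941) (nat_lit 1), mk (.ofNat (nat_lit 6336)) (nat_lit 50) (nat_lit 3941) (nat_lit 0), mk (.ofNat (nat_lit 14016)) (nat_lit 21) (nat_lit 3941) (nat_lit 1), mk (.ofNat (nat_lit 9792)) (nat_lit 44) (nat_lit 5) (nat_lit 97), mk (.ofNat (nat_lit 9792)) (nat_lit 26) (nat_lit 5) (nat_lit 97), mk (.ofNat (nat_lit 9792)) (nat_lit 42) (nat_lit 1044822)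 (nat_lit 0), mk (.negSucc (nat_lit 5183)) (nat_lit 14) (nat_lit 5) (nat_lit 6), mk (.ofNat (nat_lit 4896)) (nat_lit 19) (nat_lit 6) (nat_lit 81), mk (.negSucc (nat_lit 5471)) (nat_lit 18) (nat_lit 3941) (nat_lit 1), mk (.negSucc (nat_lit 5183)) (nat_lit 19) (nat_lit 1044822) (nat_lit 0), mk (.ofNat (nat_lit 15588)) (nat_lit 17) (nat_lit 3941) (nat_lit 0), mk (.ofNat (nat_lit 9504)) (nat_lit 21) (nat_lit 1044822) (nat_lit 0), mk (.ofNat (nat_lit 4752)) (nat_lit 20) (nat_lit 5) (nat_lit 6), mk (.ofNat (nat_lit 11376)) (nat_lit 20) (nat_lit 3941) (nat_lit 0), mk (.negSucc (nat_lit 5759)) (nat_lit 23) (nat_lit 3941) (nat_lit 1), mk (.negSucc (nat_lit 5759)) (nat_lit 26) (nat_lit 1044822) (nat_lit 0), mk (.negSucc (nat_lit 5759)) (nat_lit 45) (nat_lit 3941) (nat_lit 0), mk (.negSucc (nat_lit 6623)) (nat_lit 14) (nat_lit 6) (nat_lit 5), mk (.ofNat (nat_lit 3456)) (nat_lit 19)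 (nat_lit 5) (nat_lit 97), mk (.negSucc (nat_lit 6623)) (nat_lit 19) (nat_lit 1044837) (nat_lit 0), mk (.ofNat (nat_lit 864)) (nat_lit 20) (nat_lit 6) (nat_lit 5), mk (.negSucc (nat_lit 3167)) (nat_lit 36) (nat_lit 5) (nat_lit 22), mk (.ofNat (nat_lit 6336)) (nat_lit 39) (nat_lit 6) (nat_lit 3861), mk (.ofNat (nat_lit 3168)) (nat_lit 36) (nat_lit 6) (nat_lit 21), mk (.ofNat (nat_lit 3168)) (nat_lit 26) (nat_lit 6) (nat_lit 21), mk (.ofNat (nat_lit 3168)) (nat_lit 23) (nat_lit 5) (nat_lit 3862), mk (.ofNat (nat_lit 12672)) (nat_lit 39) (nat_lit 5) (nat_lit 3862), mk (.negSucc (nat_lit 10511)) (nat_lit 28) (nat_lit 6) (nat_lit 5), mk (.negSucc (nat_lit 10511)) (nat_lit 17) (nat_lit 6) (nat_lit 5), mk (.negSucc (nat_lit 10511)) (nat_lit 19) (nat_lit 5) (nat_lit 3862), mk (.negSucc (nat_lit 2879)) (nat_lit 36) (nat_lit 5) (nat_lit 97), mk (.negSucc (nat_lit 2879)) (nat_lit 38)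 (nat_lit 1044822) (nat_lit 0), mk (.negSucc (nat_lit 2879)) (nat_lit 39) (nat_lit 3941) (nat_lit 1), mk (.ofNat (nat_lit 7488)) (nat_lit 25) (nat_lit 6) (nat_lit 5), mk (.ofNat (nat_lit 5760)) (nat_lit 23) (nat_lit 6) (nat_lit 21), mk (.ofNat (nat_lit 5760)) (nat_lit 45) (nat_lit 6) (nat_lit 5), mk (.ofNat (nat_lit 4896)) (nat_lit 25) (nat_lit 5) (nat_lit 6), mk (.ofNat (nat_lit 5760)) (nat_lit 45) (nat_lit 5) (nat_lit 6), mk (.ofNat (nat_lit 5760)) (nat_lit 23) (nat_lit 1044837) (nat_lit 0), mk (.ofNat (nat_lit 5760)) (nat_lit 23) (nat_lit 1044822) (nat_lit 0), mk (.ofNat (nat_lit 9504)) (nat_lit 43) (nat_lit 6) (nat_lit 3861), mk (.ofNat (nat_lit 9504)) (nat_lit 43) (nat_lit 5) (nat_lit 3862), mk (.negSucc (nat_lit 3167)) (nat_lit 19) (nat_lit 6) (nat_lit 21), mk (.negSucc (nat_lit 3167)) (nat_lit 19) (nat_lit 5) (nat_lit 22), mk (.negSucc (nat_lit 3455)) (nat_lit 18)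 (nat_lit 5) (nat_lit 3862), mk (.negSucc (nat_lit 10511)) (nat_lit 23) (nat_lit 6) (nat_lit 81), mk (.negSucc (nat_lit 10511)) (nat_lit 23) (nat_lit 5) (nat_lit 97), mk (.negSucc (nat_lit 10511)) (nat_lit 40) (nat_lit 5) (nat_lit 97), mk (.negSucc (nat_lit 10511)) (nat_lit 41) (nat_lit 1044822) (nat_lit 0), mk (.ofNat (nat_lit 783)) (nat_lit 16) (nat_lit 3941) (nat_lit 0), mk (.ofNat (nat_lit 7008)) (nat_lit 38) (nat_lit 6) (nat_lit 81), mk (.ofNat (nat_lit 30048)) (nat_lit 44) (nat_lit 6) (nat_lit 3861), mk (.negSucc (nat_lit 8423)) (nat_lit 29) (nat_lit 3941) (nat_lit 0), mk (.ofNat (nat_lit 94464)) (nat_lit 21) (nat_lit 6) (nat_lit 3861), mk (.ofNat (nat_lit 2044)) (nat_lit 3) (nat_lit 279620) (nat_lit 0)]),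
  ((.ofNat (nat_lit 3840)), p61,
    [mk (.ofNat (nat_lit 96)) (nat_lit 3) (nat_lit 71009) (nat_lit 18), mk (.negSucc (nat_lit 95)) (nat_lit 3) (nat_lit 74085) (nat_lit 2), mk (.negSucc (nat_lit 95)) (nat_lit 3) (nat_lit 74070) (nat_lit 2), mk (.ofNat (nat_lit 1440)) (nat_lit 3) (nat_lit 4864438037) (nat_lit 0), mk (.negSucc (nat_lit 191)) (nat_lit 3) (nat_lit 35058002) (nat_lit 0), mk (.negSucc (nat_lit 191)) (nat_lit 3) (nat_lit 19067222) (nat_lit 0), mk (.negSucc (nat_lit 47)) (nat_lit 4) (nat_lit 268375573) (nat_lit 0), mk (.negSucc (nat_lit 95)) (nat_lit 10) (nat_lit 24342) (nat_lit 2), mk (.ofNat (nat_lit 288)) (nat_lit 3) (nat_lit 19067237) (nat_lit 0), mk (.negSucc (nat_lit 191)) (nat_lit 10) (nat_lit 86) (nat_lit 3), mk (.ofNat (nat_lit 384)) (nat_lit 3) (nat_lit 18084197) (nat_lit 0), mk (.ofNat (nat_lit 192)) (nat_lit 3) (nat_lit 34992482) (nat_lit 0), mk (.ofNat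 (nat_lit 384)) (nat_lit 2) (nat_lit 73551255077) (nat_lit 0), mk (.ofNat (nat_lit 168)) (nat_lit 3) (nat_lit 139877) (nat_lit 0), mk (.negSucc (nat_lit 191)) (nat_lit 3) (nat_lit 78437) (nat_lit 0), mk (.ofNat (nat_lit 192)) (nat_lit 3) (nat_lit 74597) (nat_lit 0), mk (.ofNat (nat_lit 90)) (nat_lit 46) (nat_lit 28437) (nat_lit 1), mk (.negSucc (nat_lit 95)) (nat_lit 3) (nat_lit 135766) (nat_lit 1), mk (.negSucc (nat_lit 575)) (nat_lit 3) (nat_lit 70757) (nat_lit 0), mk (.negSucc (nat_lit 47)) (nat_lit 3) (nat_lit 4596901217) (nat_lit 0), mk (.ofNat (nat_lit 720)) (nat_lit 7) (nat_lit 267480853) (nat_lit 0), mk (.ofNat (nat_lit 384)) (nat_lit 7) (nat_lit 268375573) (nat_lit 0), mk (.negSucc (nat_lit 1439)) (nat_lit 31) (nat_lit 24342) (nat_lit 1), mk (.negSucc (nat_lit 191)) (nat_lit 31) (nat_lit 101) (nat_lit 17), mk (.ofNat (nat_lit 96)) (nat_lit 3) (nat_lit 34795862)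 (nat_lit 0), mk (.ofNat (nat_lit 168)) (nat_lit 3) (nat_lit 139862) (nat_lit 0), mk (.ofNat (nat_lit 96)) (nat_lit 31) (nat_lit 86) (nat_lit 2), mk (.negSucc (nat_lit 95)) (nat_lit 3) (nat_lit 34795877) (nat_lit 0), mk (.ofNat (nat_lit 96)) (nat_lit 31) (nat_lit 101) (nat_lit 2), mk (.negSucc (nat_lit 95)) (nat_lit 3) (nat_lit 34762517) (nat_lit 0), mk (.negSucc (nat_lit 95)) (nat_lit 3) (nat_lit 34758422) (nat_lit 0), mk (.negSucc (nat_lit 55)) (nat_lit 3) (nat_lit 152102) (nat_lit 0), mk (.ofNat (nat_lit 112)) (nat_lit 3) (nat_lit 86294) (nat_lit 3), mk (.negSucc (nat_lit 335)) (nat_lit 3) (nat_lit 51835217) (nat_lit 0), mk (.ofNat (nat_lit 144)) (nat_lit 3) (nat_lit 51769697) (nat_lit 0), mk (.ofNat (nat_lit 192)) (nat_lit 3) (nat_lit 136546) (nat_lit 1), mk (.negSucc (nat_lit 47)) (nat_lit 6) (nat_lit 1045078) (nat_lit 0), mk (.negSucc (nat_lit 263)) (nat_lit 3) (nat_lit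 19329362) (nat_lit 0), mk (.ofNat (nat_lit 96)) (nat_lit 3) (nat_lit 75106) (nat_lit 1), mk (.ofNat (nat_lit 32)) (nat_lit 3) (nat_lit 4582273622) (nat_lit 0), mk (.negSucc (nat_lit 719)) (nat_lit 6) (nat_lit 267480853) (nat_lit 0), mk (.negSucc (nat_lit 31)) (nat_lit 3) (nat_lit 23142165) (nat_lit 2), mk (.ofNat (nat_lit 32)) (nat_lit 3) (nat_lit 69910) (nat_lit 82), mk (.ofNat (nat_lit 96)) (nat_lit 3) (nat_lit 9111531857) (nat_lit 0), mk (.negSucc (nat_lit 31)) (nat_lit 3) (nat_lit 22093590) (nat_lit 2), mk (.ofNat (nat_lit 48)) (nat_lit 33) (nat_lit 101) (nat_lit 2), mk (.negSucc (nat_lit 215)) (nat_lit 3) (nat_lit 140642) (nat_lit 0), mk (.ofNat (nat_lit 192)) (nat_lit 3) (nat_lit 136547) (nat_lit 0), mk (.ofNat (nat_lit 96)) (nat_lit 22) (nat_lit 86) (nat_lit 2), mk (.negSucc (nat_lit 719)) (nat_lit 33) (nat_lit 61782) (nat_lit 1), mk (.negSucc (nat_lit 47)) (nat_lit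 33) (nat_lit 86) (nat_lit 2), mk (.ofNat (nat_lit 576)) (nat_lit 3) (nat_lit 19263842) (nat_lit 0), mk (.ofNat (nat_lit 576)) (nat_lit 22) (nat_lit 101) (nat_lit 17), mk (.negSucc (nat_lit 191)) (nat_lit 22) (nat_lit 101) (nat_lit 2), mk (.ofNat (nat_lit 576)) (nat_lit 12) (nat_lit 24358) (nat_lit 0), mk (.ofNat (nat_lit 144)) (nat_lit 12) (nat_lit 6287713) (nat_lit 0), mk (.ofNat (nat_lit 240)) (nat_lit 12) (nat_lit 28453) (nat_lit 0), mk (.ofNat (nat_lit 360)) (nat_lit 3) (nat_lit 20050277) (nat_lit 0), mk (.negSucc (nat_lit 44)) (nat_lit 34) (nat_lit 101) (nat_lit 17), mk (.negSucc (nat_lit 5)) (nat_lit 34) (nat_lit 101) (nat_lit 2), mk (.ofNat (nat_lit 48)) (nat_lit 12) (nat_lit 101) (nat_lit 2), mk (.ofNat (nat_lit 48)) (nat_lit 12) (nat_lit 86) (nat_lit 2), mk (.negSucc (nat_lit 191)) (nat_lit 44) (nat_lit 1044837) (nat_lit 0), mk (.negSucc (nat_lit 191)) (nat_lit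 44) (nat_lit 1044822) (nat_lit 0), mk (.ofNat (nat_lit 192)) (nat_lit 21) (nat_lit 1044822) (nat_lit 0), mk (.ofNat (nat_lit 384)) (nat_lit 28) (nat_lit 3941) (nat_lit 0), mk (.ofNat (nat_lit 576)) (nat_lit 21) (nat_lit 1044837) (nat_lit 0), mk (.negSucc (nat_lit 2879)) (nat_lit 44) (nat_lit 5) (nat_lit 3862), mk (.negSucc (nat_lit 2879)) (nat_lit 26) (nat_lit 5) (nat_lit 3862), mk (.ofNat (nat_lit 384)) (nat_lit 40) (nat_lit 5) (nat_lit 22), mk (.ofNat (nat_lit 192)) (nat_lit 49) (nat_lit 5) (nat_lit 6), mk (.ofNat (nat_lit 1440)) (nat_lit 26) (nat_lit 5) (nat_lit 22), mk (.ofNat (nat_lit 528)) (nat_lit 17) (nat_lit 5) (nat_lit 6), mk (.ofNat (nat_lit 864)) (nat_lit 23) (nat_lit 6) (nat_lit 3861), mk (.ofNat (nat_lit 720)) (nat_lit 19) (nat_lit 6) (nat_lit 3861), mk (.ofNat (nat_lit 384)) (nat_lit 40) (nat_lit 6) (nat_lit 3861), mk (.negSucc (nat_lit 527)) (nat_lit 26)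 (nat_lit 5) (nat_lit 97), mk (.ofNat (nat_lit 192)) (nat_lit 40) (nat_lit 1044822) (nat_lit 0), mk (.negSucc (nat_lit 1583)) (nat_lit 21) (nat_lit 6) (nat_lit 3861), mk (.negSucc (nat_lit 479)) (nat_lit 40) (nat_lit 6) (nat_lit 81), mk (.negSucc (nat_lit 479)) (nat_lit 41) (nat_lit 1044837) (nat_lit 0), mk (.negSucc (nat_lit 815)) (nat_lit 26) (nat_lit 6) (nat_lit 81), mk (.negSucc (nat_lit 287)) (nat_lit 40) (nat_lit 1044837) (nat_lit 0), mk (.negSucc (nat_lit 2399)) (nat_lit 21) (nat_lit 5) (nat_lit 3862), mk (.negSucc (nat_lit 479)) (nat_lit 40) (nat_lit 5) (nat_lit 3862), mk (.negSucc (nat_lit 383)) (nat_lit 36) (nat_lit 6) (nat_lit 81), mk (.negSucc (nat_lit 383)) (nat_lit 38) (nat_lit 1044837) (nat_lit 0), mk (.negSucc (nat_lit 383)) (nat_lit 36) (nat_lit 1044837) (nat_lit 0), mk (.negSucc (nat_lit 383)) (nat_lit 38) (nat_lit 5) (nat_lit 3862), mk (.negSucc (nat_lit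 863)) (nat_lit 39) (nat_lit 5) (nat_lit 3862), mk (.negSucc (nat_lit 191)) (nat_lit 49) (nat_lit 6) (nat_lit 5), mk (.negSucc (nat_lit 479)) (nat_lit 26) (nat_lit 6) (nat_lit 21), mk (.negSucc (nat_lit 1343)) (nat_lit 17) (nat_lit 6) (nat_lit 5), mk (.negSucc (nat_lit 479)) (nat_lit 23) (nat_lit 5) (nat_lit 3862), mk (.negSucc (nat_lit 1343)) (nat_lit 19) (nat_lit 5) (nat_lit 3862), mk (.ofNat (nat_lit 96)) (nat_lit 20) (nat_lit 5) (nat_lit 6), mk (.negSucc (nat_lit 671)) (nat_lit 20) (nat_lit 3941) (nat_lit 0), mk (.ofNat (nat_lit 192)) (nat_lit 13) (nat_lit 5) (nat_lit 6), mk (.negSucc (nat_lit 191)) (nat_lit 19) (nat_lit 6) (nat_lit 81), mk (.ofNat (nat_lit 192)) (nat_lit 18) (nat_lit 3941) (nat_lit 1), mk (.ofNat (nat_lit 72)) (nat_lit 17) (nat_lit 3941) (nat_lit 0), mk (.negSucc (nat_lit 191)) (nat_lit 29) (nat_lit 5) (nat_lit 6), mk (.negSucc (nat_lit 191)) (nat_lit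 18) (nat_lit 6) (nat_lit 81), mk (.negSucc (nat_lit 191)) (nat_lit 19) (nat_lit 3941) (nat_lit 1), mk (.negSucc (nat_lit 191)) (nat_lit 18) (nat_lit 1044822) (nat_lit 0), mk (.negSucc (nat_lit 191)) (nat_lit 14) (nat_lit 3941) (nat_lit 0), mk (.negSucc (nat_lit 2159)) (nat_lit 38) (nat_lit 1044822) (nat_lit 0), mk (.negSucc (nat_lit 359)) (nat_lit 39) (nat_lit 1044822) (nat_lit 0), mk (.ofNat (nat_lit 1530)) (nat_lit 23) (nat_lit 1044822) (nat_lit 0), mk (.ofNat (nat_lit 192)) (nat_lit 21) (nat_lit 3941) (nat_lit 1), mk (.ofNat (nat_lit 576)) (nat_lit 23) (nat_lit 5) (nat_lit 22), mk (.ofNat (nat_lit 441)) (nat_lit 23) (nat_lit 3941) (nat_lit 1), mk (.ofNat (nat_lit 576)) (nat_lit 26) (nat_lit 1044822) (nat_lit 0), mk (.ofNat (nat_lit 576)) (nat_lit 45) (nat_lit 3941) (nat_lit 0), mk (.ofNat (nat_lit 96)) (nat_lit 20) (nat_lit 6) (nat_lit 5), mk (.ofNat (nat_lit 672)) (nat_lit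 36) (nat_lit 5) (nat_lit 22), mk (.ofNat (nat_lit 480)) (nat_lit 39) (nat_lit 6) (nat_lit 3861), mk (.negSucc (nat_lit 287)) (nat_lit 36) (nat_lit 6) (nat_lit 21), mk (.negSucc (nat_lit 191)) (nat_lit 23) (nat_lit 6) (nat_lit 81), mk (.negSucc (nat_lit 191)) (nat_lit 23) (nat_lit 5) (nat_lit 97), mk (.negSucc (nat_lit 383)) (nat_lit 19) (nat_lit 5) (nat_lit 97), mk (.negSucc (nat_lit 191)) (nat_lit 41) (nat_lit 5) (nat_lit 97), mk (.ofNat (nat_lit 528)) (nat_lit 28) (nat_lit 5) (nat_lit 6), mk (.negSucc (nat_lit 191)) (nat_lit 21) (nat_lit 6) (nat_lit 81), mk (.negSucc (nat_lit 191)) (nat_lit 21) (nat_lit 5) (nat_lit 97), mk (.negSucc (nat_lit 191)) (nat_lit 43) (nat_lit 6) (nat_lit 3861), mk (.negSucc (nat_lit 191)) (nat_lit 43) (nat_lit 5) (nat_lit 3862), mk (.ofNat (nat_lit 432)) (nat_lit 16) (nat_lit 6) (nat_lit 5), mk (.ofNat (nat_lit 432)) (nat_lit 16) (nat_lit 5)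 (nat_lit 6), mk (.negSucc (nat_lit 191)) (nat_lit 15) (nat_lit 6) (nat_lit 5), mk (.negSucc (nat_lit 191)) (nat_lit 19) (nat_lit 6) (nat_lit 21), mk (.negSucc (nat_lit 191)) (nat_lit 14) (nat_lit 6) (nat_lit 5), mk (.negSucc (nat_lit 191)) (nat_lit 15) (nat_lit 5) (nat_lit 6), mk (.negSucc (nat_lit 191)) (nat_lit 19) (nat_lit 5) (nat_lit 22), mk (.negSucc (nat_lit 191)) (nat_lit 19) (nat_lit 1044837) (nat_lit 0), mk (.negSucc (nat_lit 1151)) (nat_lit 28) (nat_lit 6) (nat_lit 5), mk (.negSucc (nat_lit 575)) (nat_lit 44) (nat_lit 6) (nat_lit 3861), mk (.negSucc (nat_lit 719)) (nat_lit 39) (nat_lit 6) (nat_lit 81), mk (.negSucc (nat_lit 719)) (nat_lit 39) (nat_lit 1044837) (nat_lit 0), mk (.negSucc (nat_lit 719)) (nat_lit 36) (nat_lit 5) (nat_lit 3862), mk (.ofNat (nat_lit 360)) (nat_lit 38) (nat_lit 3941) (nat_lit 1), mk (.negSucc (nat_lit 899)) (nat_lit 39) (nat_lit 3941)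 (nat_lit 1), mk (.ofNat (nat_lit 48)) (nat_lit 29) (nat_lit 3941) (nat_lit 0), mk (.negSucc (nat_lit 113)) (nat_lit 16) (nat_lit 3941) (nat_lit 0), mk (.negSucc (nat_lit 35)) (nat_lit 3) (nat_lit 279620) (nat_lit 0)]),
  ((.ofNat (nat_lit 1)), p62,
    [mk (.ofNat (nat_lit 1)) (nat_lit 12) (nat_lit 15818534) (nat_lit 0), mk (.negSucc (nat_lit 3)) (nat_lit 21) (nat_lit 6) (nat_lit 1044817)]),
  ((.ofNat (nat_lit 1)), p63,
    [mk (.ofNat (nat_lit 1)) (nat_lit 12) (nat_lit 24358) (nat_lit 0), mk (.negSucc (nat_lit 3)) (nat_lit 21) (nat_lit 6) (nat_lit 3861)])]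

theorem okL3 : jobs3.all (checkJ ids3) = true := by decide +kernel

def ids4 : List (List (Int × T)) := [pa4, g5, p2, p3, p4, p5, p6, p7, p8, p9, p10, p11, p12, p13, p14, p15, p16, p17, p18, p19, p20, p21, p22, p23, p24, p25, p26, p27, p28, p29, p30, p31, p32, p33, p34, p35, p36, p37, p38, p39, p40, p41, p42, p43, p44, p45, p46, p47, p48, p49, p50, p51, p52, p53, p54, p55, p56, p57, p58, p59, p60, p61, p62, p63]

def p64 : List (Int × T) :=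
  [((.ofNat (nat_lit 1)), .m (.m v7 v4) (.m v5 (.m v6 v4)))]

def p65 : List (Int × T) :=
  [((.ofNat (nat_lit 1)), .m v2 (.m v1 (.m v7 (.m v5 (.m v6 v4)))))]

/-- certificates of level 4 -/
def jobs4 : List Job := [
  ((.ofNat (nat_lit 1)), p64,
    [mk (.ofNat (nat_lit 1)) (nat_lit 22) (nat_lit 16729687) (nat_lit 0), mk (.negSucc (nat_lit 3)) (nat_lit 51) (nat_lit 86) (nat_lit 113)]),
  ((.ofNat (nat_lit 6)), p65,
    [mk (.ofNat (nat_lit 6)) (nat_lit 3) (nat_lit 35124325) (nat_lit 0), mk (.negSucc (nat_lit 5)) (nat_lit 22) (nat_lit 16725846) (nat_lit 0), mk (.negSucc (nat_lit 5)) (nat_lit 22) (nat_lit 4294072086) (nat_lit 0), mk (.negSucc (nat_lit 5)) (nat_lit 22) (nat_lit 4294013526) (nat_lit 0), mk (.negSucc (nat_lit 5)) (nat_lit 3) (nat_lit 38203765) (nat_lit 0), mk (.negSucc (nat_lit 5)) (nat_lit 23) (nat_lit 6) (nat_lit 599), mk (.negSucc (nat_lit 5)) (nat_lit 57)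 (nat_lit 86) (nat_lit 23), mk (.negSucc (nat_lit 5)) (nat_lit 24) (nat_lit 6) (nat_lit 87), mk (.negSucc (nat_lit 5)) (nat_lit 58) (nat_lit 86) (nat_lit 23), mk (.negSucc (nat_lit 5)) (nat_lit 23) (nat_lit 6) (nat_lit 1874), mk (.negSucc (nat_lit 5)) (nat_lit 51) (nat_lit 63318) (nat_lit 0), mk (.negSucc (nat_lit 5)) (nat_lit 59) (nat_lit 28533) (nat_lit 0), mk (.ofNat (nat_lit 24)) (nat_lit 55) (nat_lit 87) (nat_lit 97), mk (.ofNat (nat_lit 24)) (nat_lit 60) (nat_lit 117) (nat_lit 97), mk (.ofNat (nat_lit 24)) (nat_lit 61) (nat_lit 87) (nat_lit 97), mk (.ofNat (nat_lit 6)) (nat_lit 26) (nat_lit 7) (nat_lit 598), mk (.ofNat (nat_lit 6)) (nat_lit 25) (nat_lit 1044853) (nat_lit 6), mk (.ofNat (nat_lit 6)) (nat_lit 62) (nat_lit 117) (nat_lit 6), mk (.ofNat (nat_lit 6)) (nat_lit 26) (nat_lit 7) (nat_lit 1618), mk (.ofNat (nat_lit 6)) (nat_lit 16) (nat_lit 268375894) (nat_lit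 0), mk (.ofNat (nat_lit 6)) (nat_lit 16) (nat_lit 267485029) (nat_lit 0), mk (.ofNat (nat_lit 6)) (nat_lit 63) (nat_lit 101) (nat_lit 3863), mk (.ofNat (nat_lit 6)) (nat_lit 16) (nat_lit 6) (nat_lit 24343), mk (.ofNat (nat_lit 6)) (nat_lit 25) (nat_lit 3941) (nat_lit 3863), mk (.ofNat (nat_lit 1)) (nat_lit 3) (nat_lit 279620) (nat_lit 0)])]

theorem okL4 : jobs4.all (checkJ ids4) = true := by decide +kernel

def ids5 : List (List (Int × T)) := [pa4, g5, p2, p3, p4, p5, p6, p7, p8, p9, p10, p11, p12, p13, p14, p15, p16, p17, p18, p19, p20, p21, p22, p23, p24, p25, p26, p27, p28, p29, p30, p31, p32, p33, p34, p35, p36, p37, p38, p39, p40, p41, p42, p43, p44, p45, p46, p47, p48, p49, p50, p51, p52, p53, p54, p55, p56, p57, p58, p59, p60, p61, p62, p63, p64, p65]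

/-- the certificates of the nine identities -/
def fins : List Cert := [
  ((.ofNat (nat_lit 1104)), [mk (.ofNat (nat_lit 120)) (nat_lit 2) (nat_lit 4421) (nat_lit 0), mk (.negSucc (nat_lit 239)) (nat_lit 4) (nat_lit 1044817) (nat_lit 0), mk (.negSucc (nat_lit 239)) (nat_lit 4) (nat_lit 3861) (nat_lit 1), mk (.negSucc (nat_lit 335)) (nat_lit 4) (nat_lit 5) (nat_lit 17), mk (.ofNat (nat_lit 1320)) (nat_lit 3) (nat_lit 70481) (nat_lit 0), mk (.ofNat (nat_lit 792)) (nat_lit 3) (nat_lit 70181) (nat_lit 0), mk (.ofNat (nat_lit 960)) (nat_lit 3) (nat_lit 74021) (nat_lit 0), mk (.negSucc (nat_lit 1367)) (nat_lit 3) (nat_lit 69971) (nat_lit 0), mk (.ofNat (nat_lit 435)) (nat_lit 5) (nat_lit 3877) (nat_lit 0), mk (.negSucc (nat_lit 44)) (nat_lit 4) (nat_lit 3877) (nat_lit 0), mk (.ofNat (nat_lit 1080)) (nat_lit 3) (nat_lit 69941) (nat_lit 0), mk (.ofNat (nat_lit 352)) (nat_lit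 2) (nat_lit 1122101) (nat_lit 0), mk (.negSucc (nat_lit 8543)) (nat_lit 7) (nat_lit 5) (nat_lit 2), mk (.ofNat (nat_lit 1104)) (nat_lit 7) (nat_lit 3877) (nat_lit 0), mk (.negSucc (nat_lit 59)) (nat_lit 2) (nat_lit 8741) (nat_lit 0), mk (.ofNat (nat_lit 2796)) (nat_lit 6) (nat_lit 5) (nat_lit 2), mk (.negSucc (nat_lit 3191)) (nat_lit 3) (nat_lit 135761) (nat_lit 0), mk (.negSucc (nat_lit 743)) (nat_lit 6) (nat_lit 3877) (nat_lit 0), mk (.ofNat (nat_lit 264)) (nat_lit 3) (nat_lit 74066) (nat_lit 0), mk (.ofNat (nat_lit 936)) (nat_lit 3) (nat_lit 78101) (nat_lit 0), mk (.negSucc (nat_lit 332)) (nat_lit 3) (nat_lit 279620) (nat_lit 0)]),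
  ((.ofNat (nat_lit 192)), [mk (.negSucc (nat_lit 23)) (nat_lit 8) (nat_lit 101) (nat_lit 3), mk (.negSucc (nat_lit 2)) (nat_lit 4) (nat_lit 1045093) (nat_lit 0), mk (.negSucc (nat_lit 2)) (nat_lit 4) (nat_lit 1045078) (nat_lit 0), mk (.negSucc (nat_lit 23)) (nat_lit 3) (nat_lit 75107) (nat_lit 0), mk (.ofNat (nat_lit 24)) (nat_lit 3) (nat_lit 74582) (nat_lit 0), mk (.ofNat (nat_lit 24)) (nat_lit 3) (nat_lit 74597) (nat_lit 0), mk (.ofNat (nat_lit 24)) (nat_lit 2) (nat_lit 13142) (nat_lit 0), mk (.ofNat (nat_lit 12)) (nat_lit 3) (nat_lit 140642) (nat_lit 0), mk (.ofNat (nat_lit 36)) (nat_lit 3) (nat_lit 202082) (nat_lit 0), mk (.negSucc (nat_lit 2)) (nat_lit 12) (nat_lit 28453) (nat_lit 0), mk (.negSucc (nat_lit 2)) (nat_lit 12) (nat_lit 24358) (nat_lit 0), mk (.ofNat (nat_lit 24)) (nat_lit 13) (nat_lit 3941) (nat_lit 0), mk (.negSucc (nat_lit 143)) (nat_lit 14) (nat_lit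 3941) (nat_lit 0), mk (.ofNat (nat_lit 72)) (nat_lit 15) (nat_lit 3941) (nat_lit 0), mk (.negSucc (nat_lit 35)) (nat_lit 16) (nat_lit 6) (nat_lit 5), mk (.ofNat (nat_lit 72)) (nat_lit 15) (nat_lit 6) (nat_lit 5), mk (.ofNat (nat_lit 24)) (nat_lit 13) (nat_lit 6) (nat_lit 5), mk (.negSucc (nat_lit 35)) (nat_lit 16) (nat_lit 5) (nat_lit 6), mk (.ofNat (nat_lit 72)) (nat_lit 15) (nat_lit 5) (nat_lit 6), mk (.ofNat (nat_lit 24)) (nat_lit 13) (nat_lit 5) (nat_lit 6), mk (.negSucc (nat_lit 59)) (nat_lit 17) (nat_lit 6) (nat_lit 5), mk (.negSucc (nat_lit 23)) (nat_lit 18) (nat_lit 5) (nat_lit 97), mk (.negSucc (nat_lit 47)) (nat_lit 19) (nat_lit 3941) (nat_lit 1), mk (.negSucc (nat_lit 59)) (nat_lit 18) (nat_lit 1044837) (nat_lit 0), mk (.negSucc (nat_lit 59)) (nat_lit 17) (nat_lit 5) (nat_lit 6), mk (.negSucc (nat_lit 23)) (nat_lit 18) (nat_lit 6) (nat_lit 81), mk (.negSucc (nat_lit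 59)) (nat_lit 18) (nat_lit 1044822) (nat_lit 0), mk (.negSucc (nat_lit 23)) (nat_lit 20) (nat_lit 6) (nat_lit 5), mk (.negSucc (nat_lit 23)) (nat_lit 20) (nat_lit 5) (nat_lit 6), mk (.negSucc (nat_lit 35)) (nat_lit 18) (nat_lit 6) (nat_lit 21), mk (.negSucc (nat_lit 35)) (nat_lit 18) (nat_lit 5) (nat_lit 22), mk (.ofNat (nat_lit 12)) (nat_lit 21) (nat_lit 5) (nat_lit 3862), mk (.ofNat (nat_lit 12)) (nat_lit 21) (nat_lit 6) (nat_lit 3861), mk (.negSucc (nat_lit 21)) (nat_lit 3) (nat_lit 279620) (nat_lit 0)]),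
  ((.ofNat (nat_lit 858)), [mk (.ofNat (nat_lit 66)) (nat_lit 3) (nat_lit 74067) (nat_lit 0), mk (.negSucc (nat_lit 285)) (nat_lit 2) (nat_lit 1122117) (nat_lit 0), mk (.ofNat (nat_lit 33)) (nat_lit 3) (nat_lit 17953617) (nat_lit 0), mk (.ofNat (nat_lit 132)) (nat_lit 7) (nat_lit 1045073) (nat_lit 0), mk (.ofNat (nat_lit 1248)) (nat_lit 7) (nat_lit 3861) (nat_lit 2), mk (.negSucc (nat_lit 857)) (nat_lit 3) (nat_lit 69972) (nat_lit 0), mk (.negSucc (nat_lit 1187)) (nat_lit 7) (nat_lit 5) (nat_lit 33), mk (.ofNat (nat_lit 312)) (nat_lit 3) (nat_lit 34795857) (nat_lit 0), mk (.negSucc (nat_lit 32)) (nat_lit 3) (nat_lit 74066) (nat_lit 1), mk (.negSucc (nat_lit 197)) (nat_lit 3) (nat_lit 135761) (nat_lit 1), mk (.negSucc (nat_lit 21)) (nat_lit 3) (nat_lit 17899317) (nat_lit 0), mk (.negSucc (nat_lit 131)) (nat_lit 6) (nat_lit 3893) (nat_lit 0), mk (.negSucc (nat_lit 131)) (nat_lit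 6) (nat_lit 1045073) (nat_lit 0), mk (.negSucc (nat_lit 1247)) (nat_lit 6) (nat_lit 3861) (nat_lit 2), mk (.negSucc (nat_lit 311)) (nat_lit 6) (nat_lit 5) (nat_lit 18), mk (.ofNat (nat_lit 624)) (nat_lit 3) (nat_lit 74005) (nat_lit 2), mk (.ofNat (nat_lit 286)) (nat_lit 3) (nat_lit 18947877) (nat_lit 0), mk (.ofNat (nat_lit 198)) (nat_lit 6) (nat_lit 5) (nat_lit 33), mk (.ofNat (nat_lit 286)) (nat_lit 3) (nat_lit 82197) (nat_lit 0), mk (.ofNat (nat_lit 237)) (nat_lit 3) (nat_lit 279620) (nat_lit 0)]),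
  ((.ofNat (nat_lit 5)), [mk (.negSucc (nat_lit 3)) (nat_lit 11) (nat_lit 62550) (nat_lit 0), mk (.ofNat (nat_lit 1)) (nat_lit 9) (nat_lit 62550) (nat_lit 0), mk (.ofNat (nat_lit 20)) (nat_lit 3) (nat_lit 136293) (nat_lit 0), mk (.negSucc (nat_lit 19)) (nat_lit 12) (nat_lit 6287714) (nat_lit 0), mk (.negSucc (nat_lit 19)) (nat_lit 12) (nat_lit 24374) (nat_lit 0), mk (.ofNat (nat_lit 5)) (nat_lit 22) (nat_lit 16717349) (nat_lit 0), mk (.ofNat (nat_lit 10)) (nat_lit 22) (nat_lit 62053) (nat_lit 1), mk (.ofNat (nat_lit 5)) (nat_lit 22) (nat_lit 62309) (nat_lit 0), mk (.ofNat (nat_lit 40)) (nat_lit 23) (nat_lit 5) (nat_lit 7958), mk (.negSucc (nat_lit 19)) (nat_lit 23) (nat_lit 5) (nat_lit 353), mk (.ofNat (nat_lit 20)) (nat_lit 23) (nat_lit 5) (nat_lit 98), mk (.ofNat (nat_lit 10)) (nat_lit 24) (nat_lit 5) (nat_lit 6), mk (.negSucc (nat_lit 9)) (nat_lit 23) (nat_lit 5) (nat_lit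 1044833), mk (.negSucc (nat_lit 4)) (nat_lit 23) (nat_lit 5) (nat_lit 3878), mk (.negSucc (nat_lit 19)) (nat_lit 16) (nat_lit 5) (nat_lit 22), mk (.negSucc (nat_lit 19)) (nat_lit 25) (nat_lit 5) (nat_lit 22), mk (.negSucc (nat_lit 19)) (nat_lit 26) (nat_lit 6) (nat_lit 82), mk (.negSucc (nat_lit 19)) (nat_lit 23) (nat_lit 3941) (nat_lit 2), mk (.negSucc (nat_lit 19)) (nat_lit 26) (nat_lit 1045078) (nat_lit 0), mk (.negSucc (nat_lit 19)) (nat_lit 27) (nat_lit 3941) (nat_lit 0), mk (.ofNat (nat_lit 80)) (nat_lit 28) (nat_lit 6) (nat_lit 3861), mk (.ofNat (nat_lit 80)) (nat_lit 29) (nat_lit 6) (nat_lit 3861), mk (.negSucc (nat_lit 19)) (nat_lit 28) (nat_lit 6) (nat_lit 81), mk (.negSucc (nat_lit 39)) (nat_lit 21) (nat_lit 6) (nat_lit 1297), mk (.negSucc (nat_lit 19)) (nat_lit 29) (nat_lit 6) (nat_lit 81), mk (.negSucc (nat_lit 4)) (nat_lit 3) (nat_lit 279620) (nat_lit 0)]),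
  ((.ofNat (nat_lit 288)), [mk (.ofNat (nat_lit 96)) (nat_lit 2) (nat_lit 8773) (nat_lit 0), mk (.ofNat (nat_lit 16)) (nat_lit 2) (nat_lit 2240293) (nat_lit 0), mk (.ofNat (nat_lit 20)) (nat_lit 2) (nat_lit 8741) (nat_lit 2), mk (.ofNat (nat_lit 63)) (nat_lit 3) (nat_lit 139858) (nat_lit 0), mk (.negSucc (nat_lit 5)) (nat_lit 3) (nat_lit 139813) (nat_lit 0), mk (.negSucc (nat_lit 32)) (nat_lit 3) (nat_lit 279620) (nat_lit 0)]),
  ((.ofNat (nat_lit 1)), [mk (.ofNat (nat_lit 1)) (nat_lit 22) (nat_lit 62549) (nat_lit 0), mk (.negSucc (nat_lit 3)) (nat_lit 23) (nat_lit 5) (nat_lit 593)]),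
  ((.ofNat (nat_lit 1)), [mk (.ofNat (nat_lit 1)) (nat_lit 22) (nat_lit 16729445) (nat_lit 0), mk (.negSucc (nat_lit 3)) (nat_lit 51) (nat_lit 101) (nat_lit 81)]),
  ((.ofNat (nat_lit 24)), [mk (.ofNat (nat_lit 3)) (nat_lit 2) (nat_lit 3497798) (nat_lit 0), mk (.negSucc (nat_lit 2)) (nat_lit 3) (nat_lit 218213) (nat_lit 0), mk (.ofNat (nat_lit 6)) (nat_lit 3) (nat_lit 214373) (nat_lit 0), mk (.ofNat (nat_lit 6)) (nat_lit 12) (nat_lit 6288214) (nat_lit 0), mk (.ofNat (nat_lit 6)) (nat_lit 22) (nat_lit 16725334) (nat_lit 0), mk (.negSucc (nat_lit 11)) (nat_lit 24) (nat_lit 6) (nat_lit 3925), mk (.ofNat (nat_lit 6)) (nat_lit 52) (nat_lit 86) (nat_lit 5), mk (.ofNat (nat_lit 6)) (nat_lit 53) (nat_lit 86) (nat_lit 5), mk (.ofNat (nat_lit 3)) (nat_lit 52) (nat_lit 62806) (nat_lit 0), mk (.ofNat (nat_lit 3)) (nat_lit 53) (nat_lit 62806) (nat_lit 0), mk (.ofNat (nat_lit 6)) (nat_lit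 30) (nat_lit 5) (nat_lit 86), mk (.ofNat (nat_lit 6)) (nat_lit 52) (nat_lit 24421) (nat_lit 0), mk (.ofNat (nat_lit 6)) (nat_lit 54) (nat_lit 24421) (nat_lit 0), mk (.negSucc (nat_lit 5)) (nat_lit 54) (nat_lit 101) (nat_lit 5), mk (.negSucc (nat_lit 5)) (nat_lit 30) (nat_lit 3941) (nat_lit 5), mk (.negSucc (nat_lit 5)) (nat_lit 54) (nat_lit 85) (nat_lit 6), mk (.negSucc (nat_lit 5)) (nat_lit 30) (nat_lit 3925) (nat_lit 6), mk (.negSucc (nat_lit 5)) (nat_lit 24) (nat_lit 1046101) (nat_lit 0), mk (.negSucc (nat_lit 5)) (nat_lit 24) (nat_lit 1045846) (nat_lit 0), mk (.negSucc (nat_lit 23)) (nat_lit 55) (nat_lit 101) (nat_lit 3861), mk (.negSucc (nat_lit 23)) (nat_lit 55) (nat_lit 85) (nat_lit 97), mk (.negSucc (nat_lit 0)) (nat_lit 3) (nat_lit 279620) (nat_lit 0)]),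
  ((.ofNat (nat_lit 8)), [mk (.ofNat (nat_lit 1)) (nat_lit 2) (nat_lit 1727291205) (nat_lit 0), mk (.ofNat (nat_lit 4)) (nat_lit 22) (nat_lit 4294202981) (nat_lit 0), mk (.negSucc (nat_lit 3)) (nat_lit 56) (nat_lit 85) (nat_lit 3942), mk (.ofNat (nat_lit 2)) (nat_lit 56) (nat_lit 85) (nat_lit 102), mk (.ofNat (nat_lit 4)) (nat_lit 64) (nat_lit 1621) (nat_lit 6), mk (.ofNat (nat_lit 2)) (nat_lit 64) (nat_lit 1009237) (nat_lit 0), mk (.negSucc (nat_lit 15)) (nat_lit 65) (nat_lit 1622) (nat_lit 81)])]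

theorem okF : checkC ids5 tgts fins = true := by decide +kernel

/-- the certificate of the identity for the fourth powers -/
def tcert : Int × List (Int × Nat × Nat × Nat) × List (Int × Nat × Nat) :=
  ((.ofNat (nat_lit 150)), [mk (.negSucc (nat_lit 59)) (nat_lit 1) (nat_lit 18215265) (nat_lit 0), mk (.negSucc (nat_lit 59)) (nat_lit 1) (nat_lit 86310) (nat_lit 0), mk (.ofNat (nat_lit 120)) (nat_lit 1) (nat_lit 17919765) (nat_lit 0), mk (.ofNat (nat_lit 60)) (nat_lit 1) (nat_lit 17915670) (nat_lit 0), mk (.negSucc (nat_lit 119)) (nat_lit 1) (nat_lit 136545) (nat_lit 0), mk (.negSucc (nat_lit 59)) (nat_lit 1) (nat_lit 74070) (nat_lit 0), mk (.negSucc (nat_lit 119)) (nat_lit 1) (nat_lit 74085) (nat_lit 0), mk (.ofNat (nat_lit 60)) (nat_lit 1) (nat_lit 17953110) (nat_lit 0), mk (.ofNat (nat_lit 5)) (nat_lit 0) (nat_lit 287306070) (nat_lit 0), mk (.ofNat (nat_lit 5)) (nat_lit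 0) (nat_lit 287306085) (nat_lit 0), mk (.negSucc (nat_lit 3)) (nat_lit 0) (nat_lit 287307345) (nat_lit 0), mk (.negSucc (nat_lit 9)) (nat_lit 0) (nat_lit 4373) (nat_lit 97), mk (.negSucc (nat_lit 9)) (nat_lit 0) (nat_lit 4373) (nat_lit 3862), mk (.negSucc (nat_lit 9)) (nat_lit 0) (nat_lit 4374) (nat_lit 81), mk (.ofNat (nat_lit 10)) (nat_lit 0) (nat_lit 4374) (nat_lit 3861), mk (.negSucc (nat_lit 44)) (nat_lit 1) (nat_lit 69969) (nat_lit 6), mk (.negSucc (nat_lit 74)) (nat_lit 1) (nat_lit 69985) (nat_lit 5), mk (.ofNat (nat_lit 18)) (nat_lit 1) (nat_lit 17954385) (nat_lit 0), mk (.negSucc (nat_lit 59)) (nat_lit 1) (nat_lit 22093590) (nat_lit 0), mk (.ofNat (nat_lit 30)) (nat_lit 1) (nat_lit 69909) (nat_lit 6), mk (.ofNat (nat_lit 10)) (nat_lit 1) (nat_lit 69910) (nat_lit 5), mk (.ofNat (nat_lit 60)) (nat_lit 1) (nat_lit 17899365) (nat_lit 0)],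
    [((.negSucc (nat_lit 119)), nat_lit 0, nat_lit 6173955345), ((.ofNat (nat_lit 120)), nat_lit 0, nat_lit 5905520145), ((.ofNat (nat_lit 120)), nat_lit 0, nat_lit 8345612625), ((.negSucc (nat_lit 119)), nat_lit 0, nat_lit 8344564065), ((.ofNat (nat_lit 150)), nat_lit 0, nat_lit 23065185), ((.ofNat (nat_lit 120)), nat_lit 0, nat_lit 40890705), ((.negSucc (nat_lit 119)), nat_lit 0, nat_lit 32595750), ((.ofNat (nat_lit 120)), nat_lit 0, nat_lit 24113490), ((.ofNat (nat_lit 90)), nat_lit 0, nat_lit 24113745), ((.ofNat (nat_lit 60)), nat_lit 0, nat_lit 39842145), ((.negSucc (nat_lit 59)), nat_lit 0, nat_lit 32599845), ((.ofNat (nat_lit 135)), nat_lit 0, nat_lit 19919190), ((.ofNat (nat_lit 75)), nat_lit 0, nat_lit 19919205), ((.ofNat (nat_lit 168)), nat_lit 0, nat_lit 19920465), ((.ofNat (nat_lit 30)), nat_lit 0, nat_lit 94005), ((.negSucc (nat_lit 59)), nat_lit 0, nat_lit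 220950), ((.ofNat (nat_lit 90)), nat_lit 0, nat_lit 89910), ((.negSucc (nat_lit 119)), nat_lit 0, nat_lit 225045), ((.ofNat (nat_lit 180)), nat_lit 0, nat_lit 23064930), ((.negSucc (nat_lit 179)), nat_lit 0, nat_lit 81765), ((.ofNat (nat_lit 210)), nat_lit 0, nat_lit 1110), ((.negSucc (nat_lit 59)), nat_lit 0, nat_lit 4831778070), ((.negSucc (nat_lit 74)), nat_lit 0, nat_lit 4831778145), ((.negSucc (nat_lit 14)), nat_lit 0, nat_lit 4831778385), ((.negSucc (nat_lit 119)), nat_lit 0, nat_lit 4831798545), ((.negSucc (nat_lit 17)), nat_lit 0, nat_lit 18871890), ((.ofNat (nat_lit 9)), nat_lit 0, nat_lit 143205)])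

theorem okT : checkT [pa4, g5] tcert.1 tcert.2.1 tcert.2.2 = true := by decide +kernel

theorem ok : okAll g5 [jobs0, jobs1, jobs2, jobs3, jobs4] fins tcert = true := by
  have e1 : [pa4, g5] ++ jobs0.map (fun j => j.2.1) = ids1 := rfl
  have e2 : ids1 ++ jobs1.map (fun j => j.2.1) = ids2 := rfl
  have e3 : ids2 ++ jobs2.map (fun j => j.2.1) = ids3 := rfl
  have e4 : ids3 ++ jobs3.map (fun j => j.2.1) = ids4 := rfl
  have e5 : ids4 ++ jobs4.map (fun j => j.2.1) = ids5 := rfl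
  simp only [okAll, allOk, allIds, e1, e2, e3, e4, e5, okL0, okL1, okL2, okL3, okL4, okF, okT, Bool.and_self]

end Pool.Agent.Alb.W1140

namespace Pool.Agent.Alb

open Pool.Agent.Alb.Chk Pool.Agent.Alb.Gen5

universe u v

/-- Perfect finite-dimensional commutative algebras with `(xx)(xx) = x(x(xx))` and `x(y(x(xy))) = 0`
are zero. -/
theorem w_1140 {F : Type u} [Field F] [CharZero F] {V : Type v} [AddCommGroup V]
    [Module F V] [FiniteDimensional F V] (m : V →ₗ[F] V →ₗ[F] V)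
    (comm : ∀ x y, m x y = m y x)
    (perf : Submodule.span F {z : V | ∃ a b : V, z = m a b} = ⊤)
    (hpa4 : ∀ x, m (m x x) (m x x) = m x (m x (m x x)))
    (h : ∀ x y, m x (m y (m x (m x y))) = 0) : Subsingleton V := by
  have h5 : ∀ z, m z (m z (m z (m z z))) = 0 := by
    intro z
    exact h z z
  have hg0 : HoldsAll m W1140.g0 := by
    intro ρ
    simp only [W1140.g0, evP, T.ev, h, smul_zero, add_zero]
  have hg : HoldsAll m W1140.g5 :=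
    HoldsAll.der m (HoldsAll.der m (HoldsAll.der m hg0 5 7) 5 8) 6 9
  exact Gen5.main m comm perf hpa4 h5 W1140.g5 hg _ _ _ W1140.ok

end Pool.Agent.Alb
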