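import Mathlib
import Pool.Agent.Lib_MP_380d39.Gen5

set_option autoImplicit false

/-!
# The word (xy)(x(xy))

Kernel-checked certificates (426 lines) for the class of the word (xy)(x(xy)).
-/

namespace Pool.Agent.Alb.W2015

open Pool.Agent.Alb.Chk Pool.Agent.Alb.Gen5

universe u w

def g0 : List (Int × T) := [(1, .m (.m (.v 5) (.v 6)) (.m (.v 5) (.m (.v 5) (.v 6))))]

def g5 : List (Int × T) := derP 6 9 (derP 5 8 (derP 5 7 g0))

/-- certificates of level 1 -/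
def jobs1 : List Job := [
  (24, [(1, .m (.v 3) (.m (.v 5) (.v 3)))],
    [(-6, 1, 74021, 0), (3, 1, 74066, 0), (3, 1, 135761, 0), (2, 1, 78101, 0)]),
  (84, [(1, .m (.v 4) (.m (.v 5) (.v 2)))],
    [(3, 1, 69971, 0), (-3, 1, 69941, 0), (12, 1, 70181, 0), (-12, 1, 74021, 0), (3, 1, 70481, 0), (2, 0, 8741, 0), (3, 1, 78101, 0), (1, 1, 279620, 0)]),
  (12, [(1, .m (.v 4) (.m (.v 5) (.v 1)))],
    [(3, 1, 70225, 0), (-3, 1, 69970, 0), (3, 1, 69925, 0), (-3, 1, 17953105, 0), (2, 1, 17899285, 0), (-1, 1, 74005, 0)]),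
  (84, [(1, .m (.v 3) (.m (.v 5) (.v 4)))],
    [(-24, 1, 70227, 0), (-24, 1, 70482, 0), (-6, 0, 8757, 0), (30, 1, 135762, 0), (30, 1, 74322, 0), (12, 1, 74037, 0), (-18, 1, 78117, 0), (-24, 1, 135717, 0), (25, 1, 279620, 0)]),
  (12, [(1, .m (.v 1) (.m (.v 5) (.v 4)))],
    [(-6, 0, 4645, 0), (48, 1, 69925, 0), (48, 1, 70225, 0), (-24, 1, 69970, 0), (12, 0, 4373, 2), (-126, 1, 17953105, 0), (-6, 1, 69969, 1), (108, 1, 17899285, 0), (4, 1, 69909, 1), (-48, 1, 74005, 0), (-3, 1, 279620, 0)]),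
  (12, [(1, .m (.v 4) (.m (.v 5) (.v 4)))],
    [(3, 1, 139858, 0), (-6, 1, 78373, 0), (4, 1, 279620, 0)]),
  (84, [(1, .m (.v 2) (.m (.v 5) (.v 4)))],
    [(18, 1, 69971, 0), (-12, 1, 70181, 0), (-18, 1, 69941, 0), (12, 1, 74021, 0), (18, 1, 70481, 0), (-2, 0, 8741, 0), (-10, 1, 78101, 0), (-1, 1, 279620, 0)]),
  (12, [(1, .m (.v 4) (.m (.v 1) (.m (.v 5) (.v 1))))],
    [(2, 1, 78101, 0), (-1, 1, 279620, 0)]),
  (84, [(1, .m (.v 4) (.m (.v 5) (.v 3)))],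
    [(24, 1, 70482, 0), (24, 1, 70227, 0), (6, 0, 8757, 0), (-9, 1, 135762, 0), (-9, 1, 74322, 0), (-12, 1, 74037, 0), (-3, 1, 78117, 0), (10, 1, 135717, 0), (-18, 1, 279620, 0)]),
  (84, [(1, .m (.v 2) (.m (.v 2) (.m (.v 5) (.v 2))))],
    [(-3, 1, 69971, 0), (3, 1, 69941, 0), (-30, 1, 74021, 0), (-3, 1, 70481, 0), (30, 1, 70181, 0), (-2, 0, 8741, 0), (11, 1, 78101, 0), (-1, 1, 279620, 0)]),
  (144, [(1, .m (.v 1) (.m (.v 3) (.m (.v 5) (.v 1))))],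
    [(6, 0, 1126165, 0), (9, 1, 69925, 0), (9, 1, 70225, 0), (-9, 1, 69970, 0), (4, 0, 287306065, 0), (-4, 0, 1122069, 1), (-18, 1, 17953105, 0), (-3, 1, 74005, 0), (24, 1, 69909, 1)]),
  (12, [(1, .m (.v 3) (.m (.v 1) (.m (.v 5) (.v 1))))],
    [(-3, 1, 70225, 0), (-3, 1, 69925, 0), (3, 1, 69970, 0), (3, 1, 17953105, 0), (-2, 1, 17899285, 0), (3, 1, 74005, 0)]),
  (12, [(1, .m (.v 4) (.m (.v 2) (.m (.v 5) (.v 2))))],
    [(6, 1, 78373, 0), (-5, 1, 279620, 0)])]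

/-- certificates of level 2 -/
def jobs2 : List Job := [
  (24, [(1, .m (.m (.v 5) (.v 4)) (.m (.v 6) (.v 4)))],
    [(4, 1, 140374, 0), (4, 1, 140389, 0), (1, 0, 17494, 0), (-2, 1, 148069, 0), (-2, 1, 148054, 0), (-8, 3, 6, 3877), (-8, 3, 5, 3878), (-4, 7, 3941, 0), (4, 7, 6, 5), (4, 7, 5, 6), (-1, 1, 279620, 0)]),
  (12, [(1, .m (.v 3) (.m (.v 5) (.m (.v 6) (.v 4))))],
    [(2, 0, 4373, 3910), (-24, 1, 136278, 0), (36, 1, 74838, 0), (-24, 1, 82533, 0), (12, 1, 23154453, 0), (48, 8, 6, 3861), (24, 3, 6, 3861), (24, 4, 5, 3878), (-12, 5, 3941, 0), (-12, 6, 6, 3877), (-36, 4, 6, 3877), (-36, 3, 5, 3862), (-24, 4, 5, 7958), (-24, 6, 6, 1044817), (-24, 9, 5, 3862), (-24, 4, 6, 1044817), (-24, 4, 5, 1044833), (11, 1, 279620, 0)]),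
  (6, [(1, .m (.m (.v 5) (.v 3)) (.m (.v 6) (.v 4)))],
    [(-1, 0, 4373, 3910), (15, 1, 136278, 0), (-15, 1, 74838, 0), (9, 1, 82533, 0), (-6, 1, 23154453, 0), (-24, 8, 6, 3861), (-15, 3, 6, 3861), (-15, 4, 5, 3878), (6, 6, 6, 3877), (15, 4, 6, 3877), (15, 3, 5, 3862), (12, 4, 5, 7958), (12, 6, 6, 1044817), (12, 9, 5, 3862), (12, 4, 6, 1044817), (12, 4, 5, 1044833), (-6, 1, 279620, 0)]),
  (24, [(1, .m (.v 4) (.m (.v 5) (.m (.v 6) (.v 4))))],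
    [(-4, 1, 140389, 0), (20, 1, 140374, 0), (-1, 0, 17494, 0), (2, 1, 148054, 0), (-10, 1, 148069, 0), (-16, 3, 5, 3878), (-16, 3, 6, 3877), (-20, 7, 3941, 0), (-4, 7, 6, 5), (-4, 7, 5, 6), (-1, 1, 279620, 0)]),
  (600, [(1, .m (.v 2) (.m (.v 5) (.m (.v 6) (.v 4))))],
    [(60, 0, 2256677, 0), (15, 0, 8790, 2), (3, 0, 1142597, 0), (3, 0, 1138502, 0), (30, 1, 23150357, 0), (-30, 1, 51769697, 0), (-30, 0, 1335062, 0), (-240, 1, 139877, 0), (-30, 1, 20016917, 0), (-30, 0, 1339157, 0), (-6, 0, 5206, 1), (-300, 1, 69969, 3878), (75, 1, 4596901217, 0), (15, 1, 4596901457, 0), (75, 1, 69969, 98), (15, 1, 69985, 82), (6, 1, 70757, 0), (606, 1, 70742, 0), (-10, 1, 4582273637, 0), (120, 1, 152102, 0), (-50, 1, 4582273622, 0), (200, 1, 69909, 3878), (-30, 1, 20050277, 0), (-50, 1, 69909, 98), (-10, 1, 69910, 82), (153, 1, 82262, 0), (-147, 1, 82277, 0), (240, 11, 5, 6), (120,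 3, 5, 6), (-732, 8, 3941, 0), (60, 11, 3941, 0), (-420, 6, 5, 3862), (12, 6, 5, 22), (6, 8, 5, 6), (-420, 6, 6, 3861), (12, 6, 6, 21), (6, 8, 6, 5), (-60, 12, 5, 3862), (-60, 13, 5, 3862), (60, 13, 6, 3861), (-312, 4, 6, 3861), (-60, 4, 6, 21), (-60, 9, 6, 5), (-72, 4, 6, 81), (-72, 6, 1044837, 0), (-432, 4, 5, 3862), (480, 3, 3941, 0), (-60, 4, 5, 22), (-60, 9, 5, 6), (-72, 4, 5, 97), (-72, 6, 1044822, 0), (-12, 6, 3941, 1), (-12, 4, 3941, 1), (60, 12, 6, 3861), (-187, 1, 279620, 0)]),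
  (600, [(1, .m (.m (.v 5) (.v 2)) (.m (.v 6) (.v 4)))],
    [(-15, 0, 8790, 2), (-60, 0, 2256677, 0), (-3, 0, 1142597, 0), (-3, 0, 1138502, 0), (-30, 1, 23150357, 0), (30, 1, 51769697, 0), (30, 0, 1335062, 0), (30, 1, 20016917, 0), (30, 0, 1339157, 0), (6, 0, 5206, 1), (240, 1, 139877, 0), (-15, 1, 4596901457, 0), (-15, 1, 69985, 82), (-75, 1, 69969, 98), (-300, 1, 69985, 3877), (-75, 1, 4596901217, 0), (-6, 1, 70757, 0), (-6, 1, 70742, 0), (30, 1, 20050277, 0), (10, 1, 4582273637, 0), (50, 1, 69909, 98), (10, 1, 69910, 82), (80, 1, 152102, 0), (200, 1, 69910, 3877), (50, 1, 4582273622, 0), (-153, 1, 82262, 0), (-153, 1, 82277, 0), (132, 8, 3941, 0), (-60, 11, 3941, 0), (-240, 11, 5, 6), (-120, 3, 5, 6), (420, 6, 5, 3862), (-12, 6, 5, 22), (-6, 8, 5, 6), (420, 6, 6, 3861), (-12, 6, 6, 21), (-6, 8, 6, 5), (60, 12, 5, 3862), (60, 13, 5, 3862), (-60, 13, 6, 3861), (-288,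 4, 6, 3861), (60, 4, 6, 21), (60, 9, 6, 5), (72, 4, 6, 81), (72, 6, 1044837, 0), (-168, 4, 5, 3862), (60, 4, 5, 22), (60, 9, 5, 6), (72, 4, 5, 97), (72, 6, 1044822, 0), (12, 6, 3941, 1), (12, 4, 3941, 1), (-480, 3, 3941, 0), (-60, 12, 6, 3861), (137, 1, 279620, 0)]),
  (6, [(1, .m (.m (.v 5) (.v 4)) (.m (.v 2) (.m (.v 6) (.v 2))))],
    [(3, 1, 148054, 0), (-6, 8, 5, 3878), (-2, 1, 279620, 0)]),
  (120, [(1, .m (.v 4) (.m (.v 5) (.m (.v 6) (.v 2))))],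
    [(3, 0, 8790, 2), (12, 0, 2252582, 0), (-3, 0, 4438, 4), (-12, 1, 22101782, 0), (12, 1, 20012822, 0), (-18, 1, 51769697, 0), (-6, 1, 51835217, 0), (-3, 1, 139877, 0), (9, 1, 139862, 0), (3, 1, 69969, 98), (3, 1, 4596901217, 0), (6, 1, 70742, 0), (15, 1, 69985, 82), (6, 1, 70757, 0), (60, 1, 69969, 3878), (15, 1, 4596901457, 0), (-10, 1, 69910, 82), (-2, 1, 69909, 98), (-2, 1, 4582273622, 0), (18, 1, 20050277, 0), (30, 1, 20050262, 0), (-34, 1, 152102, 0), (-40, 1, 69909, 3878), (-10, 1, 4582273637, 0), (3, 1, 82262, 0), (3, 1, 82277, 0), (-36, 8, 3941, 0), (12, 11, 3941, 0), (48, 11, 6, 5), (24, 3, 6, 5), (12, 3, 3941, 0), (-72, 4, 1044837, 0), (-72, 4, 1044822, 0), (-12, 9, 3941, 0), (-12, 12, 6, 3861), (60, 13, 6, 3861), (-12, 4, 6, 3861), (12, 13, 5, 3862), (-60, 4, 5, 3862), (-12, 6, 6, 3861), (-12, 6, 5, 3862), (-60, 12, 5, 3862), (-20, 1, 279620, 0)])]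

/-- certificates of level 3 -/
def jobs3 : List Job := [
  (30, [(1, .m (.m (.v 7) (.v 4)) (.m (.v 5) (.m (.v 6) (.v 4))))],
    [(-3, 0, 578810981, 0), (6, 0, 636776231, 0), (-3, 1, 1176820278641, 0), (24, 1, 36172901, 0), (12, 1, 40132391, 0), (2, 1, 1173062895191, 0), (12, 1, 38204021, 0), (-48, 1, 41049926, 0), (132, 19, 86, 3879), (-12, 19, 86, 39), (-6, 18, 86, 7), (-12, 19, 86, 114), (-84, 20, 118, 3877), (12, 20, 118, 37), (12, 21, 103, 5), (24, 8, 6, 1045109), (12, 8, 6, 62069), (12, 20, 118, 82), (12, 19, 16721750, 0), (-12, 20, 16721750, 0), (108, 8, 6, 24359), (-12, 20, 86, 3879), (72, 8, 6, 12149), (-24, 7, 6, 3957), (-24, 8, 6, 32549), (-24, 18, 63318, 0), (-24, 8, 6, 1045079), (72, 8, 6, 1046354), (-24, 3, 7, 12133), (-12, 14, 7, 3941), (-12, 3, 6, 1045109), (-12, 3, 7, 24358), (-12, 22, 87, 3878), (-12, 21, 63063, 0), (-12, 3, 7, 1045093), (-24, 3,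 7, 1046098), (-12, 3, 7, 28453), (-12, 3, 7, 1045078), (-4, 1, 279620, 0)])]

/-- the certificates of the nine identities -/
def fins : List Cert := [
  (24, [(-6, 1, 74021, 0), (3, 1, 74066, 0), (3, 1, 135761, 0), (2, 1, 78101, 0)]),
  (72, [(-6, 1, 136022, 0), (-6, 1, 136037, 0), (-6, 1, 78437, 0), (-6, 1, 78422, 0), (6, 1, 74582, 0), (12, 1, 136547, 0), (6, 1, 74597, 0), (6, 1, 139862, 0), (6, 1, 139877, 0), (3, 0, 13142, 0), (-4, 1, 152102, 0), (12, 2, 3941, 0), (12, 2, 6, 5), (12, 2, 5, 6), (-5, 1, 279620, 0)]),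
  (84, [(-24, 1, 70227, 0), (-24, 1, 70482, 0), (-6, 0, 8757, 0), (30, 1, 135762, 0), (30, 1, 74322, 0), (12, 1, 74037, 0), (-18, 1, 78117, 0), (-24, 1, 135717, 0), (25, 1, 279620, 0)]),
  (12, [(6, 1, 136293, 0), (6, 1, 74853, 0), (-6, 1, 82518, 0), (-6, 3, 5, 3862), (-6, 4, 6, 3877), (-12, 5, 3941, 0), (-6, 4, 5, 3878), (-6, 3, 6, 3861), (-1, 1, 279620, 0)]),
  (12, [(3, 1, 139858, 0), (-6, 1, 78373, 0), (4, 1, 279620, 0)]),
  (16, [(2, 0, 5205, 3), (4, 1, 18964293, 0), (1, 0, 17493, 0), (-16, 1, 34993233, 0), (32, 6, 5, 83), (8, 4, 5, 83), (4, 6, 3925, 3), (8, 5, 1044821, 0), (4, 4, 3925, 3), (-8, 6, 5, 7973), (24, 6, 5, 3893), (-8, 6, 5, 1045073), (8, 7, 5, 5), (4, 7, 3925, 0), (32, 6, 5, 12053), (32, 5, 5, 3861), (32, 6, 5, 1044818), (-1, 1, 279620, 0)]),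
  (4, [(1, 1, 283749, 0), (-4, 7, 5, 3941), (-4, 15, 24421, 0)]),
  (72, [(3, 1, 19226438, 0), (-6, 1, 22175558, 0), (3, 1, 34955078, 0), (3, 0, 3497798, 0), (6, 1, 275798, 0), (6, 8, 6, 8021), (6, 6, 6, 12117), (6, 6, 6, 1045842), (6, 8, 6, 1045841), (-24, 5, 6, 3925), (12, 5, 6, 85), (12, 16, 86, 5), (12, 17, 86, 5), (6, 16, 62806, 0), (6, 17, 62806, 0), (-12, 10, 5, 3941), (-12, 17, 24421, 0), (-2, 1, 279620, 0)]),
  (24, [(4, 1, 72773445, 0), (1, 0, 1727291205, 0), (-8, 7, 5, 28517), (-8, 18, 101, 3941), (-8, 23, 417637, 0), (-8, 7, 5, 1046102), (-8, 15, 85, 3942), (4, 15, 85, 102), (8, 23, 1621, 6), (4, 23, 1009237, 0)])]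

/-- the certificate of the identity for the fourth powers -/
def tcert : Int × List (Int × Nat × Nat × Nat) × List (Int × Nat × Nat) :=
  (18, [(18, 1, 69974, 1), (18, 1, 18215265, 0), (18, 1, 136545, 0), (18, 1, 17953125, 0), (18, 1, 86310, 0), (-18, 1, 74085, 0), (-2, 0, 287307345, 0), (-45, 1, 17954385, 0), (-6, 1, 86294, 1), (-12, 1, 22093590, 0), (6, 1, 69910, 5), (48, 1, 17899365, 0)],
    [(-18, 0, 39842145), (-18, 0, 32599845), (-18, 0, 19919205), (-24, 0, 19920465), (-18, 0, 220950), (-36, 0, 49372950), (-18, 0, 81765), (-6, 0, 4831798545), (45, 0, 143205)])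

theorem ok : okAll g5 [jobs1, jobs2, jobs3] fins tcert = true := by decide +kernel

end Pool.Agent.Alb.W2015

namespace Pool.Agent.Alb

open Pool.Agent.Alb.Chk Pool.Agent.Alb.Gen5

universe u v

/-- Perfect finite-dimensional commutative algebras with `(xx)(xx) = x(x(xx))` and `(xy)(x(xy)) = 0`
are zero. -/
theorem w_2015 {F : Type u} [Field F] [CharZero F] {V : Type v} [AddCommGroup V]
    [Module F V] [FiniteDimensional F V] (m : V →ₗ[F] V →ₗ[F] V)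
    (comm : ∀ x y, m x y = m y x)
    (perf : Submodule.span F {z : V | ∃ a b : V, z = m a b} = ⊤)
    (hpa4 : ∀ x, m (m x x) (m x x) = m x (m x (m x x)))
    (h : ∀ x y, m (m x y) (m x (m x y)) = 0) : Subsingleton V := by
  have h5 : ∀ z, m z (m z (m z (m z z))) = 0 := by
    exact five_of m comm hpa4 fun z => h z z
  have hg0 : HoldsAll m W2015.g0 := by
    intro ρ
    simp only [W2015.g0, evP, T.ev, h, smul_zero, add_zero]
  have hg : HoldsAll m W2015.g5 :=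
    HoldsAll.der m (HoldsAll.der m (HoldsAll.der m hg0 5 7) 5 8) 6 9
  exact Gen5.main m comm perf hpa4 h5 W2015.g5 hg _ _ _ W2015.ok

end Pool.Agent.Alb
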