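import Mathlib
import Pool.Agent.Lib_MP_380d39.Gen5

set_option autoImplicit false

/-!
# The word (xy)(y(xx))

Kernel-checked certificates (255 lines) for the class of the word (xy)(y(xx)).
-/

namespace Pool.Agent.Alb.W2016

open Pool.Agent.Alb.Chk Pool.Agent.Alb.Gen5

universe u w

def g0 : List (Int × T) := [(1, .m (.m (.v 5) (.v 6)) (.m (.v 6) (.m (.v 5) (.v 5))))]

def g5 : List (Int × T) := derP 6 9 (derP 5 8 (derP 5 7 g0))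

/-- certificates of level 1 -/
def jobs1 : List Job := [
  (12, [(1, .m (.v 4) (.m (.v 5) (.v 2)))],
    [(2, 1, 78101, 0), (-1, 1, 279620, 0)]),
  (24, [(1, .m (.v 2) (.m (.v 5) (.v 4)))],
    [(6, 1, 69941, 0), (-3, 1, 74021, 0), (-1, 1, 279620, 0)]),
  (12, [(1, .m (.v 4) (.m (.v 5) (.v 4)))],
    [(3, 1, 78133, 0), (-2, 1, 279620, 0)]),
  (12, [(1, .m (.m (.v 5) (.v 4)) (.m (.v 6) (.v 4)))],
    [(3, 1, 86854, 0), (-2, 1, 279620, 0)]),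
  (12, [(1, .m (.v 2) (.m (.v 1) (.m (.v 5) (.v 4))))],
    [(3, 1, 70737, 0), (-2, 1, 279620, 0)]),
  (6, [(2, .m (.v 5) (.m (.v 1) (.m (.v 1) (.m (.v 6) (.v 1))))), (-4, .m (.v 5) (.m (.v 2) (.m (.v 6) (.v 1)))), (1, .m (.v 5) (.m (.v 1) (.m (.v 6) (.v 2)))), (1, .m (.v 5) (.m (.v 6) (.v 3)))],
    [(-1, 0, 4374, 5)]),
  (12, [(1, .m (.v 2) (.m (.v 6) (.m (.v 5) (.v 1)))), (1, .m (.v 2) (.m (.v 5) (.m (.v 6) (.v 1)))), (-1, .m (.v 2) (.m (.v 1) (.m (.v 5) (.v 6)))), (1, .m (.v 3) (.m (.v 5) (.v 6)))],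
    [(3, 1, 69989, 0), (3, 1, 69974, 0), (-3, 1, 71009, 0), (-1, 1, 86294, 0)]),
  (72, [(2, .m (.v 1) (.m (.m (.v 5) (.v 1)) (.m (.v 6) (.v 1)))), (-1, .m (.v 6) (.m (.v 1) (.m (.v 5) (.v 2)))), (-1, .m (.v 5) (.m (.v 1) (.m (.v 6) (.v 2)))), (-1, .m (.v 1) (.m (.v 6) (.m (.v 5) (.v 2)))), (-1, .m (.v 1) (.m (.v 5) (.m (.v 6) (.v 2)))), (-2, .m (.v 2) (.m (.v 1) (.m (.v 5) (.v 6)))), (-1, .m (.v 6) (.m (.v 5) (.v 3))), (-1, .m (.v 5) (.m (.v 6) (.v 3))), (5, .m (.v 3) (.m (.v 5) (.v 6)))],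
    [(30, 0, 4694, 0), (6, 0, 4438, 1), (-6, 0, 1138454, 0), (-6, 0, 1142549, 0), (27, 1, 69989, 0), (27, 1, 69974, 0), (-2, 0, 1122149, 0), (2, 0, 4374, 5), (2, 0, 4373, 6), (-9, 1, 71009, 0), (-51, 1, 86294, 0)]),
  (72, [(2, .m (.v 1) (.m (.v 5) (.m (.v 1) (.m (.v 6) (.v 1))))), (2, .m (.v 1) (.m (.v 1) (.m (.v 5) (.m (.v 6) (.v 1))))), (1, .m (.v 6) (.m (.v 1) (.m (.v 5) (.v 2)))), (5, .m (.v 5) (.m (.v 2) (.m (.v 6) (.v 1)))), (6, .m (.v 2) (.m (.v 5) (.m (.v 6) (.v 1)))), (-6, .m (.m (.v 5) (.v 1)) (.m (.v 6) (.v 2))), (1, .m (.v 1) (.m (.v 6) (.m (.v 5) (.v 2)))), (1, .m (.v 1) (.m (.v 5) (.m (.v 6) (.v 2)))), (1, .m (.v 6) (.m (.v 5) (.v 3)))],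
    [(-30, 0, 4694, 0), (6, 0, 1142549, 0), (-6, 0, 4438, 1), (-30, 0, 1138454, 0), (2, 0, 1122149, 0), (-27, 1, 69974, 0), (153, 1, 69989, 0), (10, 0, 4374, 5), (-2, 0, 4373, 6), (-27, 1, 71009, 0), (-21, 1, 86294, 0)]),
  (36, [(4, .m (.v 1) (.m (.v 2) (.m (.v 5) (.v 1)))), (1, .m (.v 5) (.v 4))],
    [(-6, 0, 4389, 0), (4, 0, 4373, 1), (-4, 0, 1122069, 0), (9, 1, 69969, 0), (6, 1, 69909, 0)]),
  (6, [(2, .m (.m (.v 5) (.v 1)) (.m (.v 1) (.m (.v 6) (.v 1)))), (2, .m (.v 2) (.m (.v 5) (.m (.v 6) (.v 1)))), (-1, .m (.m (.v 5) (.v 1)) (.m (.v 6) (.v 2))), (1, .m (.v 3) (.m (.v 5) (.v 6)))],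
    [(3, 1, 69989, 0), (-1, 1, 86294, 0)]),
  (6, [(2, .m (.m (.v 6) (.v 1)) (.m (.v 1) (.m (.v 5) (.v 1)))), (-2, .m (.v 2) (.m (.v 5) (.m (.v 6) (.v 1)))), (1, .m (.m (.v 5) (.v 1)) (.m (.v 6) (.v 2))), (2, .m (.v 2) (.m (.v 1) (.m (.v 5) (.v 6)))), (-1, .m (.v 3) (.m (.v 5) (.v 6)))],
    [(-3, 1, 69989, 0), (3, 1, 71009, 0), (1, 1, 86294, 0)]),
  (24, [(1, .m (.v 1) (.m (.v 1) (.m (.v 5) (.v 4))))],
    [(-12, 0, 4661, 0), (-6, 0, 4421, 0), (-6, 1, 69925, 1), (-4, 0, 8741, 0), (-4, 1, 17899301, 0), (-4, 1, 69909, 2), (-3, 1, 74066, 0), (18, 1, 74021, 0), (-6, 1, 70481, 0), (20, 1, 78101, 0), (-13, 1, 279620, 0)]),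
  (36, [(4, .m (.v 1) (.m (.v 1) (.m (.v 5) (.v 2)))), (4, .m (.v 1) (.m (.v 5) (.v 3))), (-12, .m (.v 3) (.m (.v 5) (.v 1))), (5, .m (.v 5) (.v 4))],
    [(-30, 0, 4389, 0), (4, 0, 1122069, 0), (-4, 0, 4373, 1), (-27, 1, 69969, 0), (30, 1, 69909, 0)]),
  (24, [(1, .m (.v 2) (.m (.v 1) (.m (.v 5) (.v 3))))],
    [(-4, 1, 18947861, 0), (3, 1, 74066, 0), (6, 1, 70481, 0), (-2, 1, 78101, 0), (-1, 1, 279620, 0)])]

/-- certificates of level 2 -/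
def jobs2 : List Job := [
  (12, [(2, .m (.v 2) (.m (.v 6) (.m (.v 1) (.m (.v 5) (.v 1))))), (2, .m (.m (.v 5) (.v 1)) (.m (.v 6) (.v 3))), (1, .m (.v 2) (.m (.v 6) (.m (.v 5) (.v 2))))],
    [(6, 1, 70230, 0), (-6, 1, 74070, 0), (-12, 7, 61797, 0), (6, 1, 17953110, 0), (3, 1, 86310, 0), (-4, 1, 23142165, 0)]),
  (30, [(8, .m (.v 1) (.m (.v 5) (.m (.v 2) (.m (.v 6) (.v 1))))), (8, .m (.v 3) (.m (.v 5) (.m (.v 6) (.v 1)))), (4, .m (.v 1) (.m (.v 3) (.m (.v 5) (.v 6)))), (3, .m (.v 6) (.m (.v 5) (.v 4))), (1, .m (.v 5) (.m (.v 6) (.v 4))), (-5, .m (.v 4) (.m (.v 5) (.v 6)))],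
    [(-72, 10, 28437, 0), (-60, 0, 4438, 2), (72, 10, 101, 1), (-45, 0, 8790, 0), (-72, 10, 86, 1), (-24, 0, 1138454, 1), (24, 10, 24342, 0), (-48, 10, 61797, 0), (-288, 9, 61797, 0), (-150, 1, 70230, 0), (-150, 1, 70245, 0), (72, 7, 101, 1), (12, 0, 287306070, 0), (168, 7, 61797, 0), (192, 8, 28437, 0), (552, 7, 61782, 0), (45, 1, 74070, 0), (150, 1, 69989, 1), (-90, 1, 69974, 1), (-96, 1, 17953125, 0), (264, 1, 17915670, 0), (405, 1, 74085, 0), (-4, 0, 287306085, 0), (-72, 7, 86, 1), (-84, 1, 18280785, 0), (90, 1, 71009, 1), (-45, 1, 86310, 0), (-45, 1, 136545, 0), (-180, 1, 18215265, 0), (45, 1, 69969, 6), (-30, 1, 69909, 6), (-30, 1, 17954385, 0), (50, 1, 17899365, 0), (50, 1, 23142165, 0), (-180, 8, 97, 5), (-15, 1, 69985, 5), (-30, 1, 86294, 1), (34, 1, 22093590, 0), (-90, 11, 3941, 0), (-60, 11, 6, 5)]),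
  (30, [(8, .m (.m (.v 5) (.v 2)) (.m (.v 1) (.m (.v 6) (.v 1)))), (-8, .m (.v 3) (.m (.v 5) (.m (.v 6) (.v 1)))), (-4, .m (.v 1) (.m (.v 3) (.m (.v 5) (.v 6)))), (-1, .m (.v 6) (.m (.v 5) (.v 4))), (-1, .m (.v 5) (.m (.v 6) (.v 4))), (3, .m (.v 4) (.m (.v 5) (.v 6)))],
    [(24, 10, 28437, 0), (-24, 10, 101, 1), (12, 0, 1138454, 1), (15, 0, 8790, 0), (-24, 9, 86, 1), (24, 9, 24342, 0), (48, 10, 61797, 0), (-12, 0, 291500385, 0), (30, 1, 70230, 0), (30, 1, 70245, 0), (-4, 0, 287306070, 0), (-24, 7, 101, 1), (24, 7, 61797, 0), (-24, 7, 24342, 0), (-144, 8, 28437, 0), (-24, 7, 61782, 0), (15, 1, 74070, 0), (-30, 1, 69989, 1), (30, 1, 69974, 1), (-105, 1, 74085, 0), (-4, 0, 287306085, 0), (-72, 12, 61797, 0), (24, 1, 17953125, 0), (-12, 1, 18280785, 0), (-42, 1, 71009, 1), (-15, 1, 86310, 0), (-15, 1, 136545, 0), (36, 1, 18215265, 0), (10, 1, 17899365,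 0), (-30, 13, 81, 6), (-10, 1, 23142165, 0), (60, 8, 97, 5), (-15, 1, 69985, 5), (-14, 1, 86294, 1), (30, 11, 3941, 0), (54, 1, 22093590, 0)]),
  (15, [(4, .m (.m (.v 5) (.v 2)) (.m (.v 6) (.v 2))), (-4, .m (.v 1) (.m (.v 3) (.m (.v 5) (.v 6)))), (-1, .m (.v 6) (.m (.v 5) (.v 4))), (-1, .m (.v 5) (.m (.v 6) (.v 4))), (7, .m (.v 4) (.m (.v 5) (.v 6)))],
    [(60, 9, 28437, 0), (-60, 10, 61797, 0), (6, 0, 4438, 17), (12, 10, 101, 1), (12, 10, 86, 1), (60, 0, 4438, 2), (12, 9, 86, 1), (15, 0, 8790, 0), (90, 1, 70245, 0), (90, 1, 70230, 0), (60, 1, 17953110, 0), (-240, 7, 61782, 0), (-300, 12, 61797, 0), (60, 1, 17953125, 0), (-300, 7, 61797, 0), (-18, 1, 69989, 1), (-18, 1, 69974, 1), (12, 7, 8037, 0), (-15, 15, 3941, 0), (-150, 1, 74070, 0), (60, 1, 18215265, 0), (90, 1, 18280785, 0), (18, 1, 71009, 1), (30, 1, 136545, 0), (30, 1, 86310, 0), (-50, 1,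 23142165, 0), (-160, 1, 22093590, 0), (28, 1, 86294, 1), (10, 1, 69909, 6), (10, 1, 69910, 5), (60, 13, 63057, 0), (-50, 1, 17899365, 0), (15, 11, 6, 5), (15, 11, 5, 6)])]

/-- certificates of level 3 -/
def jobs3 : List Job := [
  (120, [(1, .m (.m (.v 5) (.v 1)) (.m (.v 1) (.m (.v 6) (.v 4))))],
    [(12, 18, 97, 3861), (30, 17, 28453, 0), (-15, 1, 74070, 2), (15, 1, 74085, 2), (-30, 17, 24358, 0), (12, 19, 97, 3861), (-10, 1, 22093590, 2), (10, 1, 23142165, 2), (-6, 1, 74006, 3861), (-10, 1, 74005, 3862), (15, 1, 82262, 0), (15, 1, 82277, 0), (-15, 1, 86342, 0), (12, 17, 2093398, 0), (-12, 17, 2093413, 0), (-5, 1, 279620, 0)]),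
  (60, [(1, .m (.v 2) (.m (.v 5) (.m (.v 6) (.v 4))))],
    [(-10, 1, 23211797, 0), (20, 1, 23150357, 0), (-6, 18, 97, 3861), (60, 17, 24358, 0), (60, 17, 28453, 0), (30, 1, 74070, 2), (30, 1, 74085, 2), (-30, 1, 70742, 0), (-6, 19, 97, 3861), (-60, 20, 101, 2), (-12, 1, 74006, 3861), (-20, 1, 74005, 3862), (-20, 1, 22093590, 2), (-20, 1, 23142165, 2), (15, 1, 82262, 0), (15, 1, 82277, 0), (-15, 1, 86342, 0), (15, 1, 267617, 0), (-24, 17, 2093398, 0), (-24, 17, 2093413, 0), (300, 3, 3941, 0), (-240, 16, 3941, 0), (5, 1, 279620, 0)])]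

/-- the certificates of the nine identities -/
def fins : List Cert := [
  (12, [(3, 1, 74021, 0), (-2, 1, 78101, 0)]),
  (12, [(3, 1, 86582, 0), (-1, 1, 152102, 0), (-1, 1, 279620, 0)]),
  (12, [(2, 1, 135717, 0), (-1, 1, 279620, 0)]),
  (6, [(-3, 1, 23154453, 0), (3, 1, 82518, 0), (3, 1, 74838, 0), (-6, 2, 5, 3862), (-6, 3, 5, 3862), (-1, 1, 279620, 0)]),
  (12, [(3, 1, 78133, 0), (-2, 1, 279620, 0)]),
  (12, [(3, 1, 86853, 0), (-2, 1, 279620, 0)]),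
  (24, [(6, 1, 279894, 0), (-24, 4, 5, 3941), (-12, 5, 28501, 0), (-1, 1, 279620, 0)]),
  (4, [(1, 1, 22213733, 0), (-2, 1, 5660210273, 0), (-4, 3, 6, 24341), (4, 6, 6, 3925), (8, 21, 86, 3861), (8, 14, 6, 1044821)]),
  (4, [(1, 1, 73790550, 0), (-1, 1, 10250831190, 0), (-4, 4, 5, 28517), (8, 22, 85, 28454)])]

/-- the certificate of the identity for the fourth powers -/
def tcert : Int × List (Int × Nat × Nat × Nat) × List (Int × Nat × Nat) :=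
  (24, [(6, 1, 17953125, 0), (-6, 1, 69974, 1), (2, 0, 4374, 3861), (-6, 1, 74070, 0), (-6, 1, 18280785, 0), (9, 1, 136545, 0), (3, 1, 86310, 0), (6, 1, 86294, 1), (4, 1, 23142165, 0), (3, 1, 69985, 5), (-8, 1, 17899365, 0), (8, 1, 22093590, 0)],
    [(12, 0, 8345612625), (-12, 0, 39842145), (-12, 0, 32595750), (-18, 0, 32599845), (12, 0, 19919190), (-6, 0, 220950), (6, 0, 81765), (12, 0, 143205)])

theorem ok : okAll g5 [jobs1, jobs2, jobs3] fins tcert = true := by decide +kernel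

end Pool.Agent.Alb.W2016

namespace Pool.Agent.Alb

open Pool.Agent.Alb.Chk Pool.Agent.Alb.Gen5

universe u v

/-- Perfect finite-dimensional commutative algebras with `(xx)(xx) = x(x(xx))` and `(xy)(y(xx)) = 0`
are zero. -/
theorem w_2016 {F : Type u} [Field F] [CharZero F] {V : Type v} [AddCommGroup V]
    [Module F V] [FiniteDimensional F V] (m : V →ₗ[F] V →ₗ[F] V)
    (comm : ∀ x y, m x y = m y x)
    (perf : Submodule.span F {z : V | ∃ a b : V, z = m a b} = ⊤)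
    (hpa4 : ∀ x, m (m x x) (m x x) = m x (m x (m x x)))
    (h : ∀ x y, m (m x y) (m y (m x x)) = 0) : Subsingleton V := by
  have h5 : ∀ z, m z (m z (m z (m z z))) = 0 := by
    exact five_of m comm hpa4 fun z => h z z
  have hg0 : HoldsAll m W2016.g0 := by
    intro ρ
    simp only [W2016.g0, evP, T.ev, h, smul_zero, add_zero]
  have hg : HoldsAll m W2016.g5 :=
    HoldsAll.der m (HoldsAll.der m (HoldsAll.der m hg0 5 7) 5 8) 6 9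
  exact Gen5.main m comm perf hpa4 h5 W2016.g5 hg _ _ _ W2016.ok

end Pool.Agent.Alb
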