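import Mathlib
import Pool.Agent.Lib_MP_380d39.Gen5

set_option autoImplicit false

/-!
# The word y(y(x(xx)))

Kernel-checked certificates (285 lines) for the class of the word y(y(x(xx))).
-/

namespace Pool.Agent.Alb.W2100

open Pool.Agent.Alb.Chk Pool.Agent.Alb.Gen5

universe u w

def g0 : List (Int × T) := [(1, .m (.v 6) (.m (.v 6) (.m (.v 5) (.m (.v 5) (.v 5)))))]

def g5 : List (Int × T) := derP 6 9 (derP 5 8 (derP 5 7 g0))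

/-- certificates of level 1 -/
def jobs1 : List Job := [
  (12, [(1, .m (.v 3) (.m (.v 5) (.v 3)))],
    [(2, 1, 78101, 0), (-1, 1, 279620, 0)]),
  (6, [(2, .m (.v 1) (.m (.v 5) (.m (.v 1) (.m (.v 6) (.v 1))))), (4, .m (.v 5) (.m (.v 2) (.m (.v 6) (.v 1)))), (1, .m (.v 1) (.m (.v 5) (.m (.v 6) (.v 2)))), (-1, .m (.v 5) (.m (.v 6) (.v 3)))],
    [(1, 0, 4374, 5), (3, 1, 69989, 0)]),
  (72, [(10, .m (.m (.v 5) (.v 1)) (.m (.v 1) (.m (.v 6) (.v 1)))), (-2, .m (.v 1) (.m (.v 1) (.m (.v 5) (.m (.v 6) (.v 1))))), (-1, .m (.v 6) (.m (.v 1) (.m (.v 5) (.v 2)))), (-1, .m (.v 5) (.m (.v 2) (.m (.v 6) (.v 1)))), (4, .m (.v 2) (.m (.v 5) (.m (.v 6) (.v 1)))), (4, .m (.m (.v 5) (.v 2)) (.m (.v 6) (.v 1))), (5, .m (.m (.v 5) (.v 1)) (.m (.v 6) (.v 2))), (-1, .m (.v 1) (.m (.v 6) (.m (.v 5) (.v 2)))), (5, .m (.v 3) (.m (.v 5) (.v 6)))],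
    [(48, 0, 4694, 0), (15, 0, 4438, 1), (12, 0, 1142549, 0), (48, 0, 1138454, 0), (63, 1, 69989, 0), (4, 0, 1122149, 0), (5, 0, 4374, 5), (5, 0, 4373, 6), (27, 1, 69974, 0), (27, 1, 71009, 0), (21, 1, 86294, 0)]),
  (6, [(2, .m (.v 5) (.m (.v 1) (.m (.v 1) (.m (.v 6) (.v 1))))), (-4, .m (.v 5) (.m (.v 2) (.m (.v 6) (.v 1)))), (1, .m (.v 5) (.m (.v 1) (.m (.v 6) (.v 2)))), (1, .m (.v 5) (.m (.v 6) (.v 3)))],
    [(-1, 0, 4374, 5)]),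
  (72, [(10, .m (.m (.v 6) (.v 1)) (.m (.v 1) (.m (.v 5) (.v 1)))), (2, .m (.v 1) (.m (.v 1) (.m (.v 5) (.m (.v 6) (.v 1))))), (1, .m (.v 6) (.m (.v 1) (.m (.v 5) (.v 2)))), (1, .m (.v 5) (.m (.v 2) (.m (.v 6) (.v 1)))), (5, .m (.v 2) (.m (.v 6) (.m (.v 5) (.v 1)))), (1, .m (.v 2) (.m (.v 5) (.m (.v 6) (.v 1)))), (1, .m (.m (.v 5) (.v 2)) (.m (.v 6) (.v 1))), (1, .m (.v 1) (.m (.v 6) (.m (.v 5) (.v 2)))), (5, .m (.v 2) (.m (.v 1) (.m (.v 5) (.v 6))))],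
    [(12, 0, 4694, 0), (15, 0, 4438, 1), (12, 0, 1138454, 0), (48, 0, 1142549, 0), (27, 1, 69989, 0), (16, 0, 1122149, 0), (5, 0, 4374, 5), (5, 0, 4373, 6), (63, 1, 69974, 0), (63, 1, 71009, 0), (9, 1, 86294, 0)]),
  (36, [(2, .m (.v 2) (.m (.v 1) (.m (.v 5) (.v 1)))), (1, .m (.v 2) (.m (.v 5) (.v 2))), (2, .m (.v 3) (.m (.v 5) (.v 1)))],
    [(6, 0, 4389, 0), (2, 0, 4373, 1), (4, 0, 1122069, 0), (6, 1, 69909, 0), (9, 1, 69969, 0)]),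
  (12, [(4, .m (.v 1) (.m (.v 2) (.m (.v 5) (.v 1)))), (1, .m (.v 5) (.v 4))],
    [(2, 0, 4373, 1), (3, 1, 69969, 0), (2, 1, 69909, 0)]),
  (36, [(4, .m (.v 1) (.m (.v 1) (.m (.v 5) (.v 2)))), (-8, .m (.v 2) (.m (.v 5) (.v 2))), (-20, .m (.v 3) (.m (.v 5) (.v 1))), (1, .m (.v 5) (.v 4))],
    [(-48, 0, 4389, 0), (-8, 0, 1122069, 0), (-10, 0, 4373, 1), (-42, 1, 69909, 0), (-27, 1, 69969, 0)]),
  (6, [(1, .m (.v 5) (.m (.v 1) (.m (.v 6) (.v 3)))), (1, .m (.v 5) (.m (.v 6) (.v 4)))],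
    [(1, 1, 69910, 5)]),
  (12, [(1, .m (.v 1) (.m (.v 1) (.m (.v 5) (.v 3))))],
    [(2, 1, 69909, 1), (-2, 1, 69925, 0), (1, 1, 279620, 0)]),
  (12, [(1, .m (.v 2) (.m (.v 5) (.v 3)))],
    [(2, 1, 74005, 0), (-1, 1, 279620, 0)]),
  (12, [(1, .m (.v 3) (.m (.v 5) (.v 4)))],
    [(2, 1, 78117, 0), (-1, 1, 279620, 0)]),
  (12, [(1, .m (.v 4) (.m (.v 5) (.v 4)))],
    [(2, 1, 82213, 0), (-1, 1, 279620, 0)]),
  (12, [(1, .m (.v 2) (.m (.v 5) (.v 4)))],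
    [(2, 1, 74021, 0), (-1, 1, 279620, 0)]),
  (12, [(1, .m (.v 1) (.m (.v 5) (.v 4)))],
    [(2, 1, 69925, 0), (-1, 1, 279620, 0)]),
  (24, [(1, .m (.v 4) (.m (.v 1) (.m (.v 5) (.v 2))))],
    [(12, 0, 1134357, 0), (1, 0, 4373, 4), (15, 1, 69972, 0), (8, 1, 17903381, 1), (-2, 1, 4583321937, 0), (1, 1, 82197, 0), (-16, 1, 18951957, 0), (-5, 1, 17903397, 0), (1, 1, 279620, 0)])]

/-- certificates of level 2 -/
def jobs2 : List Job := [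
  (57600, [(2, .m (.m (.v 5) (.v 2)) (.m (.v 1) (.m (.v 6) (.v 1)))), (1, .m (.m (.v 5) (.v 2)) (.m (.v 6) (.v 2))), (2, .m (.v 3) (.m (.v 5) (.m (.v 6) (.v 1))))],
    [(1980, 0, 4438, 2), (-1440, 6, 61782, 0), (-15120, 6, 101, 1), (9000, 4, 86, 1), (3780, 0, 8790, 0), (18144, 6, 24342, 0), (-30240, 4, 61797, 0), (48384, 4, 24342, 0), (-30240, 0, 291500385, 0), (1440, 0, 1142565, 0), (7830, 1, 70230, 0), (9750, 1, 70245, 0), (7560, 1, 71010, 0), (900, 3, 28437, 0), (-360, 9, 3941, 0), (-2475, 9, 5, 6), (-450, 1, 69974, 1), (3780, 1, 74070, 0), (9540, 1, 74085, 0), (-7200, 3, 61797, 0), (3600, 1, 17915670, 0), (-4380, 5, 86, 1), (-540, 3, 86, 1), (-15120, 3, 24342, 0), (-20490, 1, 17953125, 0), (-29880, 3, 61782, 0), (-4080, 0, 287306085, 0), (7110, 1, 71009, 1), (-3600, 7, 3941, 0), (450, 1, 18280785, 0), (-14850, 1, 18215265, 0), (-9360, 7, 5, 6), (3915,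 1, 136545, 0), (-3960, 7, 6, 5), (-3555, 1, 17954385, 0), (-2610, 1, 86294, 1), (-4980, 1, 23142165, 0), (-3555, 8, 5, 6), (-2610, 1, 69909, 6), (-3250, 1, 69910, 5), (4875, 1, 86310, 0), (15120, 8, 3941, 0), (-7500, 1, 17899365, 0), (-4875, 1, 69985, 5), (-1200, 1, 22093590, 0), (-2190, 8, 6, 5)]),
  (19200, [(4, .m (.v 1) (.m (.m (.v 5) (.v 1)) (.m (.v 6) (.v 2)))), (-4, .m (.v 1) (.m (.v 2) (.m (.v 5) (.m (.v 6) (.v 1))))), (2, .m (.v 5) (.m (.v 2) (.m (.v 6) (.v 2)))), (-4, .m (.m (.v 5) (.v 3)) (.m (.v 6) (.v 1))), (-4, .m (.m (.v 5) (.v 1)) (.m (.v 6) (.v 3))), (-3, .m (.v 4) (.m (.v 5) (.v 6)))],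
    [(3840, 0, 1142565, 0), (-360, 0, 4438, 2), (-3648, 6, 61797, 0), (3072, 4, 61797, 0), (-12480, 4, 61782, 0), (360, 0, 8790, 0), (-4200, 4, 86, 1), (18960, 4, 101, 1), (-4020, 0, 1142549, 1), (9408, 6, 28437, 0), (12288, 4, 28437, 0), (-960, 0, 1138470, 0), (4410, 1, 70245, 0), (4410, 1, 70230, 0), (-22320, 1, 71010, 0), (-3150, 1, 17953125, 0), (3150, 1, 69989, 1), (-15000, 1, 74070, 0), (2340, 5, 101, 1), (2340, 3, 101, 1), (-3840, 3, 28437, 0), (-3270, 1, 17953110, 0), (-160, 0, 287306070, 0), (2160, 9, 3941, 0), (-61440, 5, 61797, 0), (-62640, 3, 61797, 0), (-4740, 9, 6, 5), (4200, 1, 74085, 0), (2560, 0, 287306085, 0), (-5280, 3, 61782, 0), (9120, 1, 17919765, 0), (21600, 7, 3941, 0), (-3150, 1, 18215265, 0), (8730, 1, 71009, 1), (-3750, 1, 18280785, 0), (2205, 1, 136545, 0), (39120, 7, 5, 6), (-8400, 7, 6, 5), (-1470, 1, 69909, 6), (-1470, 1, 69910,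 5), (2205, 1, 86310, 0), (1050, 8, 6, 5), (-1470, 1, 86294, 1), (-4365, 1, 17954385, 0), (1635, 1, 69969, 6), (1575, 1, 69985, 5), (-3690, 8, 5, 6), (11160, 8, 3941, 0), (-12300, 1, 17899365, 0), (-13680, 1, 23142165, 0), (-13000, 1, 22093590, 0)]),
  (6, [(1, .m (.m (.v 5) (.v 4)) (.m (.v 6) (.v 4)))],
    [(1, 1, 23146309, 0), (-6, 14, 5, 6)]),
  (9600, [(4, .m (.m (.v 6) (.v 1)) (.m (.v 2) (.m (.v 5) (.v 1)))), (1, .m (.v 4) (.m (.v 5) (.v 6)))],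
    [(60, 0, 4438, 2), (-480, 0, 1138470, 0), (-7440, 6, 86, 1), (-600, 4, 101, 1), (-60, 0, 8790, 0), (24288, 6, 61782, 0), (-1440, 6, 61797, 0), (-30240, 4, 28437, 0), (23808, 4, 61782, 0), (-14880, 0, 301035285, 0), (1590, 1, 70245, 0), (1590, 1, 70230, 0), (3720, 1, 71010, 0), (1860, 1, 74085, 0), (-5700, 5, 86, 1), (-5700, 3, 86, 1), (600, 3, 24342, 0), (2550, 1, 17953125, 0), (-60, 1, 74070, 0), (-7200, 3, 61782, 0), (-11280, 1, 17919765, 0), (4260, 5, 101, 1), (4260, 3, 101, 1), (-7440, 3, 28437, 0), (1590, 1, 17953110, 0), (-5360, 0, 287306070, 0), (-360, 9, 3941, 0), (10440, 3, 61797, 0), (870, 1, 71009, 1), (795, 1, 136545, 0), (-3600, 7, 3941, 0), (-17250, 1, 18280785, 0), (2850, 1, 18215265, 0), (-4920, 7, 6, 5), (-120, 7, 5, 6), (-435, 1, 17954385, 0), (-530, 1, 69909, 6), (795, 1, 86310, 0), (-530, 1, 69910, 5), (-530, 1, 86294, 1), (-795,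 1, 69969, 6), (-1275, 1, 69985, 5), (1740, 1, 22093590, 0), (-1710, 8, 6, 5), (-1200, 1, 23142165, 0), (-1710, 8, 5, 6), (7440, 8, 3941, 0), (500, 1, 17899365, 0)]),
  (240, [(1, .m (.v 4) (.m (.v 5) (.v 1)))],
    [(6, 0, 4405, 0), (24, 1, 69970, 0), (-2, 0, 1122085, 0), (-6, 9, 3861, 0), (-48, 7, 3861, 0), (-60, 7, 5, 1), (-6, 1, 69969, 1), (6, 1, 17953105, 0), (4, 1, 69909, 1), (6, 8, 3861, 0), (24, 1, 17899285, 0), (-8, 1, 74005, 0), (7, 1, 279620, 0)]),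
  (1020, [(1, .m (.v 4) (.m (.v 5) (.v 2)))],
    [(-60, 9, 5, 2), (12, 9, 3877, 0), (120, 7, 3877, 0), (42, 0, 8741, 0), (-6, 1, 135761, 0), (4, 1, 69925, 1), (52, 1, 74021, 0), (-200, 1, 18947861, 0), (93, 1, 279620, 0)])]

/-- certificates of level 3 -/
def jobs3 : List Job := [
  (3, [(1, .m (.v 4) (.m (.v 5) (.m (.v 6) (.v 4))))],
    [(-1, 19, 24390, 0), (4, 15, 6, 61777), (-4, 16, 6, 1313), (2, 15, 6, 37), (-4, 16, 6, 3893), (-4, 13, 6, 3861)]),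
  (2, [(1, .m (.v 3) (.m (.v 5) (.m (.v 6) (.v 4))))],
    [(2, 10, 86, 3), (-1, 18, 24374, 0), (2, 11, 6, 3877), (1, 12, 6, 3877)]),
  (30, [(1, .m (.v 2) (.m (.v 1) (.m (.v 5) (.m (.v 6) (.v 4)))))],
    [(6, 6, 24390, 0), (-1, 1, 5925499473, 0), (-5, 1, 23146261, 2), (-1, 1, 23146277, 1), (-60, 16, 6, 1044817), (-12, 16, 6, 1297), (-6, 16, 6, 37), (-6, 16, 6, 82), (-6, 16, 6, 3877), (6, 17, 5, 6), (30, 22, 5, 98), (6, 23, 5, 97)])]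

/-- certificates of level 4 -/
def jobs4 : List Job := [
  (6, [(1, .m (.m (.v 7) (.v 4)) (.m (.v 5) (.m (.v 6) (.v 4))))],
    [(1, 1, 6193935461, 0), (-6, 24, 86, 7)]),
  (1, [(1, .m (.v 4) (.m (.v 7) (.m (.v 5) (.m (.v 6) (.v 4)))))],
    [(1, 21, 16729687, 0), (-4, 26, 86, 3863)])]

/-- the certificates of the nine identities -/
def fins : List Cert := [
  (12, [(2, 1, 78101, 0), (-1, 1, 279620, 0)]),
  (6, [(1, 1, 23142197, 0), (-6, 2, 5, 6)]),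
  (12, [(2, 1, 78117, 0), (-1, 1, 279620, 0)]),
  (6, [(6, 10, 101, 3), (-3, 18, 28469, 0), (1, 1, 23142213, 0), (6, 11, 5, 3878), (3, 12, 5, 3878), (-6, 13, 5, 6)]),
  (12, [(2, 1, 82213, 0), (-1, 1, 279620, 0)]),
  (6, [(1, 1, 22097733, 0), (-6, 14, 5, 5)]),
  (6, [(1, 1, 5657064534, 0), (-6, 24, 101, 5)]),
  (6, [(1, 1, 5656015973, 0), (-6, 25, 86, 5)]),
  (48, [(3, 0, 1727291205, 0), (4, 1, 1448209237350, 0), (-24, 20, 85, 3942), (12, 20, 85, 102), (24, 27, 1621, 6), (12, 27, 1009237, 0), (-24, 28, 1622, 5)])]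

/-- the certificate of the identity for the fourth powers -/
def tcert : Int × List (Int × Nat × Nat × Nat) × List (Int × Nat × Nat) :=
  (18, [(-6, 1, 70245, 0), (-6, 1, 17953125, 0), (2, 0, 4374, 3861), (-3, 1, 86310, 0)],
    [(12, 0, 5905520145), (6, 0, 23065185), (6, 0, 89910), (12, 0, 23064930), (9, 0, 1110)])

theorem ok : okAll g5 [jobs1, jobs2, jobs3, jobs4] fins tcert = true := by decide +kernel

end Pool.Agent.Alb.W2100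

namespace Pool.Agent.Alb

open Pool.Agent.Alb.Chk Pool.Agent.Alb.Gen5

universe u v

/-- Perfect finite-dimensional commutative algebras with `(xx)(xx) = x(x(xx))` and `y(y(x(xx))) = 0`
are zero. -/
theorem w_2100 {F : Type u} [Field F] [CharZero F] {V : Type v} [AddCommGroup V]
    [Module F V] [FiniteDimensional F V] (m : V →ₗ[F] V →ₗ[F] V)
    (comm : ∀ x y, m x y = m y x)
    (perf : Submodule.span F {z : V | ∃ a b : V, z = m a b} = ⊤)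
    (hpa4 : ∀ x, m (m x x) (m x x) = m x (m x (m x x)))
    (h : ∀ x y, m y (m y (m x (m x x))) = 0) : Subsingleton V := by
  have h5 : ∀ z, m z (m z (m z (m z z))) = 0 := by
    intro z
    exact h z z
  have hg0 : HoldsAll m W2100.g0 := by
    intro ρ
    simp only [W2100.g0, evP, T.ev, h, smul_zero, add_zero]
  have hg : HoldsAll m W2100.g5 :=
    HoldsAll.der m (HoldsAll.der m (HoldsAll.der m hg0 5 7) 5 8) 6 9
  exact Gen5.main m comm perf hpa4 h5 W2100.g5 hg _ _ _ W2100.ok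

end Pool.Agent.Alb
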