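import Mathlib
import Pool.Agent.Lib_MP_380d39.Gen5

set_option autoImplicit false

/-!
# The word (xx)(y(xy))

Kernel-checked certificates (219 lines) for the class of the word (xx)(y(xy)).
-/

namespace Pool.Agent.Alb.W4029

open Pool.Agent.Alb.Chk Pool.Agent.Alb.Gen5

universe u w

def g0 : List (Int × T) := [(1, .m (.m (.v 5) (.v 5)) (.m (.v 6) (.m (.v 5) (.v 6))))]

def g5 : List (Int × T) := derP 6 9 (derP 5 8 (derP 5 7 g0))

/-- certificates of level 1 -/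
def jobs1 : List Job := [
  (84, [(1, .m (.v 3) (.m (.v 5) (.v 3)))],
    [(12, 1, 70181, 0), (12, 1, 74021, 0), (-24, 1, 70226, 0), (4, 0, 8741, 0), (-3, 1, 135761, 0), (-3, 1, 70481, 0), (6, 1, 74066, 0), (7, 1, 279620, 0)]),
  (12, [(1, .m (.v 3) (.m (.v 3) (.m (.v 5) (.v 1))))],
    [(3, 1, 74037, 0), (3, 1, 78117, 0), (-6, 1, 135762, 0), (-3, 1, 74067, 0), (2, 1, 135717, 0), (-3, 1, 70737, 0), (-6, 1, 136017, 0), (11, 1, 279620, 0)]),
  (2880, [(1, .m (.v 1) (.m (.v 3) (.m (.v 5) (.v 1))))],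
    [(60, 0, 1126165, 0), (40, 0, 287306065, 0), (-3, 0, 4373, 2), (-36, 1, 69925, 0), (-40, 0, 1122069, 1), (36, 1, 70225, 0), (27, 1, 69970, 0), (-66, 1, 17899285, 0), (-90, 1, 17953105, 0), (9, 1, 74005, 0), (360, 1, 69969, 1)]),
  (168, [(1, .m (.v 3) (.m (.v 2) (.m (.v 5) (.v 1))))],
    [(-48, 1, 70181, 0), (-6, 1, 74021, 0), (-2, 0, 8741, 0), (96, 1, 70226, 0), (-30, 1, 135761, 0), (54, 1, 70481, 0), (-3, 1, 74066, 0), (-49, 1, 279620, 0)]),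
  (240, [(1, .m (.v 3) (.m (.v 1) (.m (.v 5) (.v 1))))],
    [(3, 0, 4373, 2), (6, 1, 69925, 0), (3, 1, 69970, 0), (-6, 1, 70225, 0), (-14, 1, 17899285, 0), (1, 1, 74005, 0), (30, 1, 17953105, 0)]),
  (120, [(1, .m (.v 4) (.m (.v 5) (.v 1)))],
    [(-1, 0, 4373, 2), (-12, 1, 69925, 0), (12, 1, 70225, 0), (9, 1, 69970, 0), (-2, 1, 17899285, 0), (3, 1, 74005, 0)]),
  (240, [(1, .m (.v 3) (.m (.v 5) (.v 2)))],
    [(-1, 0, 4373, 2), (18, 1, 69925, 0), (-21, 1, 69970, 0), (42, 1, 70225, 0), (-30, 1, 17953105, 0), (18, 1, 17899285, 0), (-7, 1, 74005, 0)]),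
  (36, [(1, .m (.v 4) (.m (.v 5) (.v 2)))],
    [(3, 1, 69941, 0), (2, 0, 8741, 0), (1, 1, 78101, 0), (-3, 1, 69971, 0), (-3, 1, 135761, 0), (6, 1, 74066, 0), (-1, 1, 279620, 0)]),
  (12, [(1, .m (.v 3) (.m (.v 5) (.v 4)))],
    [(3, 1, 70737, 0), (-2, 1, 279620, 0)]),
  (12, [(1, .m (.v 4) (.m (.v 5) (.v 4)))],
    [(3, 1, 70738, 0), (-2, 1, 279620, 0)]),
  (12, [(1, .m (.v 4) (.m (.v 5) (.v 3)))],
    [(3, 1, 136017, 0), (-2, 1, 279620, 0)]),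
  (360, [(1, .m (.v 1) (.m (.v 5) (.v 4)))],
    [(30, 0, 1126165, 0), (-30, 0, 4389, 1), (-150, 0, 4645, 0), (30, 0, 4405, 0), (10, 0, 1122085, 0), (-31, 0, 4373, 2), (-207, 1, 69925, 0), (837, 1, 70225, 0), (-306, 1, 69970, 0), (198, 1, 17899285, 0), (-60, 1, 69909, 1), (-360, 1, 17953105, 0), (90, 1, 69969, 1), (-102, 1, 74005, 0), (-60, 1, 279620, 0)]),
  (36, [(1, .m (.v 2) (.m (.v 5) (.v 4)))],
    [(12, 1, 69941, 0), (2, 0, 8741, 0), (-12, 1, 69971, 0), (-12, 1, 135761, 0), (4, 1, 78101, 0), (6, 1, 74066, 0), (5, 1, 279620, 0)])]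

/-- certificates of level 2 -/
def jobs2 : List Job := [
  (48, [(1, .m (.m (.v 5) (.v 4)) (.m (.v 6) (.v 4)))],
    [(3, 0, 17494, 0), (6, 1, 82774, 0), (6, 1, 82789, 0), (12, 11, 6, 5), (12, 11, 5, 6), (-12, 11, 3941, 0), (-12, 12, 6, 3861), (-12, 7, 6, 3893), (-12, 12, 5, 3862), (-12, 7, 5, 3894), (-5, 1, 279620, 0)]),
  (6, [(1, .m (.v 3) (.m (.v 5) (.m (.v 6) (.v 4))))],
    [(3, 1, 82533, 0), (-6, 9, 5, 3862), (-6, 7, 5, 3878), (-6, 10, 3941, 0), (-1, 1, 279620, 0)]),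
  (16, [(1, .m (.m (.v 5) (.v 3)) (.m (.v 6) (.v 4)))],
    [(-1, 0, 3366678, 0), (8, 1, 78678, 0), (-1, 1, 4664006193, 0), (-2, 1, 20078358, 0), (-8, 1, 143958, 0), (-4, 3, 6, 5), (-4, 2, 5, 3862), (-16, 2, 6, 3861), (4, 4, 6, 7957), (4, 4, 6, 1044817), (4, 5, 6, 3861), (4, 6, 6, 3877), (4, 7, 6, 3877), (32, 8, 6, 3877), (2, 1, 279620, 0)]),
  (6, [(1, .m (.v 4) (.m (.v 5) (.m (.v 6) (.v 4))))],
    [(3, 1, 82789, 0), (-6, 12, 5, 3862), (-6, 7, 5, 3894), (-6, 11, 3941, 0), (-1, 1, 279620, 0)]),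
  (24, [(1, .m (.m (.v 5) (.v 4)) (.m (.v 3) (.m (.v 6) (.v 1))))],
    [(3, 1, 271714, 0), (-6, 1, 140389, 0), (-6, 1, 140374, 0), (12, 1, 78934, 0), (12, 14, 5, 3878), (12, 14, 6, 3877), (-24, 10, 6, 3861), (-1, 1, 279620, 0)])]

/-- certificates of level 3 -/
def jobs3 : List Job := [
  (12, [(1, .m (.m (.v 7) (.v 4)) (.m (.v 5) (.m (.v 6) (.v 4))))],
    [(6, 1, 20313191, 0), (-6, 1, 54980981, 0), (-12, 10, 6, 32533), (-12, 16, 118, 3861), (-12, 13, 6, 1045335), (-12, 13, 6, 1046355), (12, 7, 7, 24374), (12, 17, 7336309, 0), (12, 12, 5, 1044854), (12, 19, 63063, 0), (1, 1, 279620, 0)])]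

/-- the certificates of the nine identities -/
def fins : List Cert := [
  (84, [(12, 1, 70181, 0), (12, 1, 74021, 0), (-24, 1, 70226, 0), (4, 0, 8741, 0), (-3, 1, 135761, 0), (-3, 1, 70481, 0), (6, 1, 74066, 0), (7, 1, 279620, 0)]),
  (48, [(6, 1, 86582, 0), (3, 0, 13142, 0), (-2, 1, 152102, 0), (12, 2, 6, 5), (12, 2, 5, 6), (12, 2, 3941, 0), (-3, 1, 279620, 0)]),
  (12, [(3, 1, 70737, 0), (-2, 1, 279620, 0)]),
  (48, [(-3, 0, 3370773, 0), (24, 1, 78693, 0), (-3, 1, 4680783153, 0), (-6, 1, 20082453, 0), (-24, 1, 143973, 0), (24, 1, 82518, 0), (-12, 3, 5, 6), (-12, 2, 6, 3861), (-48, 2, 5, 3862), (12, 4, 5, 7958), (12, 4, 5, 1044833), (12, 5, 5, 3862), (12, 6, 5, 3878), (12, 7, 5, 3878), (96, 8, 5, 3878), (-48, 9, 6, 3861), (-48, 7, 6, 3877), (-48, 10, 3941, 0), (-2, 1, 279620, 0)]),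
  (12, [(3, 1, 70738, 0), (-2, 1, 279620, 0)]),
  (48, [(3, 0, 17493, 0), (6, 1, 86853, 0), (24, 11, 5, 5), (12, 11, 3925, 0), (-5, 1, 279620, 0)]),
  (24, [(6, 1, 279894, 0), (-12, 11, 6, 3925), (-24, 15, 24421, 0), (-1, 1, 279620, 0)]),
  (12, [(1, 0, 3497798, 0), (1, 1, 218213, 0), (-2, 1, 214373, 0), (1, 1, 22213733, 0), (-8, 10, 6, 3925), (4, 10, 6, 85), (4, 16, 86, 5), (4, 17, 86, 5), (2, 16, 62806, 0), (2, 17, 62806, 0), (4, 12, 5, 3941), (4, 17, 24421, 0), (4, 17, 28501, 0), (-4, 13, 6, 1045077), (-4, 14, 6, 1044821)]),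
  (8, [(2, 1, 73790550, 0), (-4, 1, 88536150, 0), (1, 0, 1727291205, 0), (-8, 11, 5, 1046102), (8, 11, 5, 28517), (8, 18, 101, 3941), (8, 20, 352102, 0), (8, 20, 417637, 0), (-8, 15, 85, 3942), (4, 15, 85, 102), (8, 20, 1621, 6), (4, 20, 1009237, 0)])]

/-- the certificate of the identity for the fourth powers -/
def tcert : Int × List (Int × Nat × Nat × Nat) × List (Int × Nat × Nat) :=
  (780, [(96, 1, 17919765, 0), (-18, 1, 69989, 1), (-138, 1, 69974, 1), (78, 0, 287307345, 0), (12, 0, 4373, 3862), (-90, 1, 74085, 0), (92, 0, 4374, 3861), (216, 1, 17915670, 0), (90, 1, 74070, 0), (78, 1, 71009, 1), (-117, 1, 136545, 0), (14, 1, 23142165, 0), (-66, 1, 22093590, 0), (78, 1, 86294, 1), (30, 1, 69909, 6), (-30, 1, 69910, 5), (-520, 1, 17899365, 0), (-24, 1, 69969, 6), (-54, 1, 69985, 5)],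
    [(-120, 0, 8345612625), (120, 0, 8344564065), (-42, 0, 40890705), (198, 0, 39842145), (36, 0, 32599845), (276, 0, 32595750), (90, 0, 155430), (-90, 0, 159525), (-96, 0, 19919190), (-216, 0, 19919205), (390, 0, 19920465), (216, 0, 220950), (96, 0, 225045), (-156, 0, 49372950), (-156, 0, 81765), (234, 0, 4831798545), (780, 0, 143205)])

theorem ok : okAll g5 [jobs1, jobs2, jobs3] fins tcert = true := by decide +kernel

end Pool.Agent.Alb.W4029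

namespace Pool.Agent.Alb

open Pool.Agent.Alb.Chk Pool.Agent.Alb.Gen5

universe u v

/-- Perfect finite-dimensional commutative algebras with `(xx)(xx) = x(x(xx))` and `(xx)(y(xy)) = 0`
are zero. -/
theorem w_4029 {F : Type u} [Field F] [CharZero F] {V : Type v} [AddCommGroup V]
    [Module F V] [FiniteDimensional F V] (m : V →ₗ[F] V →ₗ[F] V)
    (comm : ∀ x y, m x y = m y x)
    (perf : Submodule.span F {z : V | ∃ a b : V, z = m a b} = ⊤)
    (hpa4 : ∀ x, m (m x x) (m x x) = m x (m x (m x x)))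
    (h : ∀ x y, m (m x x) (m y (m x y)) = 0) : Subsingleton V := by
  have h5 : ∀ z, m z (m z (m z (m z z))) = 0 := by
    exact five_of m comm hpa4 fun z => h z z
  have hg0 : HoldsAll m W4029.g0 := by
    intro ρ
    simp only [W4029.g0, evP, T.ev, h, smul_zero, add_zero]
  have hg : HoldsAll m W4029.g5 :=
    HoldsAll.der m (HoldsAll.der m (HoldsAll.der m hg0 5 7) 5 8) 6 9
  exact Gen5.main m comm perf hpa4 h5 W4029.g5 hg _ _ _ W4029.ok

end Pool.Agent.Alb
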