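import Mathlib
import Pool.Agent.Lib_MP_380d39.Sq

set_option autoImplicit false

/-!
# Commutative algebras with `(xx)(xx) = x(x(xx))` and `(x(xx))(xy) = 0`

Kernel-checked certificates (232 identities, 1357 lines) for the identities which say that
`z³ + z⁴w` has level two.
-/

namespace Pool.Agent.Alb.L3X

open Pool.Agent.Alb.Chk Pool.Agent.Alb.Sq

universe u w

def g0 : List (Int × T) := [(1, .m (.m (.v 5) (.m (.v 5) (.v 5))) (.m (.v 5) (.v 9)))]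

def g4 : List (Int × T) := derP 5 8 (derP 5 7 (derP 5 6 g0))

def j1_0 : Job := (2, [(4, .m (.m (.v 5) (.v 6)) (.m (.v 7) (.v 8))), (4, .m (.m (.v 5) (.v 7)) (.m (.v 6) (.v 8))), (4, .m (.m (.v 5) (.v 8)) (.m (.v 6) (.v 7))), (-1, .m (.v 5) (.m (.v 6) (.m (.v 7) (.v 8)))), (-1, .m (.v 5) (.m (.v 7) (.m (.v 6) (.v 8)))), (-1, .m (.v 5) (.m (.v 8) (.m (.v 6) (.v 7)))), (-1, .m (.v 6) (.m (.v 5) (.m (.v 7) (.v 8)))), (-1, .m (.v 6) (.m (.v 7) (.m (.v 5) (.v 8)))), (-1, .m (.v 6) (.m (.v 8) (.m (.v 5) (.v 7)))), (-1, .m (.v 7) (.m (.v 5) (.m (.v 6) (.v 8)))), (-1, .m (.v 7) (.m (.v 6) (.m (.v 5) (.v 8)))), (-1, .m (.v 7) (.m (.v 8) (.m (.v 5) (.v 6)))), (-1, .m (.v 8) (.m (.v 5) (.m (.v 6) (.v 7)))), (-1, .m (.v 8) (.m (.v 6) (.m (.v 5) (.v 7)))), (-1, .m (.v 8) (.m (.v 7) (.m (.v 5) (.v 6))))],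
  [0xacf00802020001])

def j1_1 : Job := (1, [(2, .m (.m (.v 5) (.v 9)) (.m (.v 6) (.m (.v 7) (.v 8)))), (2, .m (.m (.v 8) (.v 9)) (.m (.v 6) (.m (.v 5) (.v 7)))), (2, .m (.m (.v 7) (.v 9)) (.m (.v 6) (.m (.v 5) (.v 8)))), (2, .m (.m (.v 5) (.v 9)) (.m (.v 7) (.m (.v 6) (.v 8)))), (2, .m (.m (.v 8) (.v 9)) (.m (.v 7) (.m (.v 5) (.v 6)))), (2, .m (.m (.v 5) (.v 9)) (.m (.v 8) (.m (.v 6) (.v 7)))), (2, .m (.m (.v 8) (.v 9)) (.m (.v 5) (.m (.v 6) (.v 7)))), (2, .m (.m (.v 7) (.v 9)) (.m (.v 8) (.m (.v 5) (.v 6)))), (2, .m (.m (.v 7) (.v 9)) (.m (.v 5) (.m (.v 6) (.v 8)))), (2, .m (.m (.v 6) (.v 9)) (.m (.v 7) (.m (.v 5) (.v 8)))), (2, .m (.m (.v 6) (.v 9)) (.m (.v 8) (.m (.v 5) (.v 7)))), (2, .m (.m (.v 6) (.v 9)) (.m (.v 5) (.m (.v 7) (.v 8))))],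
  [0xacf120a02020001])

def j1_2 : Job := (3, [(2, .m (.v 1) (.m (.v 1) (.m (.v 1) (.v 5)))), (-4, .m (.v 2) (.m (.v 1) (.v 5))), (1, .m (.v 3) (.v 5)), (1, .m (.v 1) (.m (.v 2) (.v 5)))],
  [0xa2220802030001])

def j1_3 : Job := (72, [(4, .m (.v 1) (.m (.v 1) (.m (.v 2) (.v 5)))), (-8, .m (.v 2) (.m (.v 2) (.v 5))), (5, .m (.v 4) (.v 5)), (4, .m (.v 1) (.m (.v 3) (.v 5)))],
  [0x1ea22220c2002000200111150533010000802889023c00c000801444441490060002202a2220820030002])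

def j1_4 : Job := (72, [(4, .m (.v 1) (.m (.v 2) (.m (.v 1) (.v 5)))), (1, .m (.v 4) (.v 5))],
  [0x1ea22220c2003000310151110410010001800888a82818080008014448106006000600a22220a18020002])

def j1_5 : Job := (24, [(2, .m (.v 2) (.m (.v 1) (.m (.v 1) (.v 5)))), (1, .m (.v 2) (.m (.v 2) (.v 5)))],
  [0x1444441410040006002222a0a02030003])

def j1_6 : Job := (24, [(1, .m (.v 3) (.m (.v 1) (.v 5)))],
  [0x2222a0a02020004])

def j1_7 : Job := (144, [(1, .m (.v 1) (.m (.v 1) (.m (.v 3) (.v 5)))), (-2, .m (.v 2) (.m (.v 3) (.v 5)))],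
  [0x4444505030180028808888a828f00c001403d4444818c006000c01ea222220e10030005001111f510725010002802891023000800180144484158004000a01ea42220c2003000600111250508018002802889823c00c00180144448156806000a202a2240860020006])

def j1_8 : Job := (72, [(1, .m (.v 1) (.m (.v 2) (.m (.v 2) (.v 5))))],
  [0xa22240a0203000600ff5111110808010003880fa8888830400c001c004447d441c0406000c002224a0a0402000600f51112060c010003807a88888838300c001840444454140c06000c202a22220a18020006])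

def j1_9 : Job := (72, [(1, .m (.v 1) (.m (.v 4) (.v 5)))],
  [0x444450503018003807a8889030c008002003d4444441c1004000e00a244086003000800511210530018003807a90888304008002040544481060060010002223ea20e2003000700111250514010003802889820c00800200144448148804000e2022222a0a18020007])

def j1_10 : Job := (72, [(1, .m (.v 2) (.m (.v 1) (.m (.v 2) (.v 5)))), (1, .m (.v 2) (.m (.v 3) (.v 5)))],
  [0x1ea222220e04030008001111f51070201800400288908287808002000444941414060010402a2220808030009])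

def j1_11 : Job := (72, [(1, .m (.v 2) (.m (.v 2) (.m (.v 1) (.v 5))))],
  [0x1ea222220e0402000920151110404010005000888fa8838080c00240144484140c040012002224a0a02030009])

def j1_12 : Job := (24, [(1, .m (.v 3) (.m (.v 2) (.v 5)))],
  [0x1444481408040014002223ea20e0203000a])

def j1_13 : Job := (72, [(1, .m (.v 4) (.m (.v 1) (.v 5)))],
  [0x28889028100c002c004447d441c04040016002224a0a0802000b])

def j1_14 : Job := (72, [(1, .m (.v 2) (.m (.v 1) (.m (.v 3) (.v 5))))],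
  [0x8888a0a1003000c20111115050f018006007a88889038200c003003d4444841c30040018002223ea40e0403000c0052220410010006807a90888838200800300144488141804001800a22620a3c02000c00511130512018006000889a8287008003000448941440060018402a224083002000d])

def j1_15 : Job := (72, [(1, .m (.v 2) (.m (.v 2) (.m (.v 2) (.v 5))))],
  [0x100a88888286008003480444454140c06001a403ea22220c1003000e00ff511111109040180068008897a88381008003403d4444841c1806001a002223fea22120402000d])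

def j1_16 : Job := (432, [(1, .m (.v 2) (.m (.v 4) (.v 5)))],
  [0x111114152c06001c2404a222082002000f0052220478018007900fa88888328008003c8054444415b006001c01fea222222126002000e001111ff511090c018007000891282bc00800388044445414b404001c402a224083003000f])

def j1_17 : Job := (24, [(1, .m (.v 3) (.m (.v 3) (.v 5)))],
  [0x111114140c06001e002226a0a0802000f])

def j1_18 : Job := (24, [(1, .m (.v 4) (.m (.v 2) (.v 5)))],
  [0x1111141404060020002244a0a04020010])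

def j1_19 : Job := (1, [(-4, .m (.v 2) (.m (.v 5) (.v 6))), (-8, .m (.m (.v 1) (.v 5)) (.m (.v 1) (.v 6))), (2, .m (.v 1) (.m (.v 1) (.m (.v 5) (.v 6)))), (2, .m (.v 1) (.m (.v 5) (.m (.v 1) (.v 6)))), (2, .m (.v 1) (.m (.v 6) (.m (.v 1) (.v 5)))), (2, .m (.v 5) (.m (.v 1) (.m (.v 1) (.v 6)))), (1, .m (.v 5) (.m (.v 2) (.v 6))), (2, .m (.v 6) (.m (.v 1) (.m (.v 1) (.v 5)))), (1, .m (.v 6) (.m (.v 2) (.v 5)))],
  [0x22ac0802030012])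

def j1_20 : Job := (6, [(2, .m (.m (.v 1) (.v 5)) (.m (.v 1) (.m (.v 1) (.v 6)))), (1, .m (.v 3) (.m (.v 5) (.v 6))), (1, .m (.m (.v 1) (.v 5)) (.m (.v 2) (.v 6)))],
  [0x222ca0a02020012])

def j1_21 : Job := (6, [(2, .m (.m (.v 1) (.v 6)) (.m (.v 1) (.m (.v 1) (.v 5)))), (1, .m (.v 3) (.m (.v 5) (.v 6))), (1, .m (.m (.v 1) (.v 6)) (.m (.v 2) (.v 5)))],
  [0x222ac0a02020013])

def j1_22 : Job := (1, [(4, .m (.v 2) (.m (.v 1) (.m (.v 5) (.v 6)))), (4, .m (.m (.v 1) (.v 6)) (.m (.v 1) (.m (.v 1) (.v 5)))), (4, .m (.m (.v 1) (.v 5)) (.m (.v 1) (.m (.v 1) (.v 6)))), (4, .m (.v 2) (.m (.v 5) (.m (.v 1) (.v 6)))), (2, .m (.m (.v 1) (.v 6)) (.m (.v 2) (.v 5))), (4, .m (.v 2) (.m (.v 6) (.m (.v 1) (.v 5)))), (2, .m (.m (.v 1) (.v 5)) (.m (.v 2) (.v 6)))],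
  [0x22ac20a02020014])

def j1_23 : Job := (4, [(1, .m (.v 2) (.m (.v 1) (.m (.v 5) (.v 6)))), (1, .m (.v 2) (.m (.v 5) (.m (.v 1) (.v 6)))), (1, .m (.v 2) (.m (.v 6) (.m (.v 1) (.v 5)))), (-1, .m (.v 3) (.m (.v 5) (.v 6)))],
  [0x2b010100c00040158080806000400ac0402020000])

def j1_24 : Job := (1, [(4, .m (.v 3) (.m (.v 5) (.v 6))), (4, .m (.m (.v 1) (.v 5)) (.m (.v 2) (.v 6))), (4, .m (.m (.v 1) (.v 6)) (.m (.v 2) (.v 5))), (-1, .m (.v 1) (.m (.v 2) (.m (.v 5) (.v 6)))), (-1, .m (.v 1) (.m (.v 5) (.m (.v 2) (.v 6)))), (-1, .m (.v 1) (.m (.v 6) (.m (.v 2) (.v 5)))), (-1, .m (.v 2) (.m (.v 1) (.m (.v 5) (.v 6)))), (-1, .m (.v 2) (.m (.v 5) (.m (.v 1) (.v 6)))), (-1, .m (.v 2) (.m (.v 6) (.m (.v 1) (.v 5)))), (-1, .m (.v 5) (.m (.v 1) (.m (.v 2) (.v 6)))), (-1, .m (.v 5) (.m (.v 2) (.m (.v 1) (.v 6)))), (-1, .m (.v 5) (.m (.v 3) (.v 6))), (-1, .m (.v 6) (.m (.v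 1) (.m (.v 2) (.v 5)))), (-1, .m (.v 6) (.m (.v 2) (.m (.v 1) (.v 5)))), (-1, .m (.v 6) (.m (.v 3) (.v 5)))],
  [0x24ac0802020017])

def j1_25 : Job := (1, [(-3, .m (.v 3) (.m (.v 5) (.v 6))), (-4, .m (.m (.v 1) (.v 5)) (.m (.v 2) (.v 6))), (-4, .m (.m (.v 1) (.v 6)) (.m (.v 2) (.v 5))), (1, .m (.v 1) (.m (.v 2) (.m (.v 5) (.v 6)))), (1, .m (.v 1) (.m (.v 5) (.m (.v 2) (.v 6)))), (1, .m (.v 1) (.m (.v 6) (.m (.v 2) (.v 5)))), (1, .m (.v 5) (.m (.v 1) (.m (.v 2) (.v 6)))), (1, .m (.v 5) (.m (.v 2) (.m (.v 1) (.v 6)))), (1, .m (.v 5) (.m (.v 3) (.v 6))), (1, .m (.v 6) (.m (.v 1) (.m (.v 2) (.v 5)))), (1, .m (.v 6) (.m (.v 2) (.m (.v 1) (.v 5)))), (1, .m (.v 6) (.m (.v 3) (.v 5)))],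
  [0x158080406000200ac0402030000])

def j1_26 : Job := (1, [(4, .m (.v 2) (.m (.v 5) (.m (.v 1) (.v 6)))), (8, .m (.m (.v 1) (.v 5)) (.m (.v 1) (.m (.v 1) (.v 6)))), (-2, .m (.v 1) (.m (.v 1) (.m (.v 5) (.m (.v 1) (.v 6))))), (-2, .m (.v 1) (.m (.v 5) (.m (.v 1) (.m (.v 1) (.v 6))))), (-2, .m (.v 1) (.m (.m (.v 1) (.v 5)) (.m (.v 1) (.v 6)))), (-5, .m (.v 5) (.m (.v 2) (.m (.v 1) (.v 6)))), (1, .m (.v 5) (.m (.v 3) (.v 6))), (1, .m (.v 5) (.m (.v 1) (.m (.v 2) (.v 6)))), (-2, .m (.m (.v 1) (.v 6)) (.m (.v 1) (.m (.v 1) (.v 5)))), (-1, .m (.m (.v 1) (.v 6)) (.m (.v 2) (.v 5)))],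
  [0x14058040404002e0022bec20c02020019])

def j1_27 : Job := (1, [(-4, .m (.v 2) (.m (.v 5) (.m (.v 1) (.v 6)))), (2, .m (.v 1) (.m (.v 1) (.m (.v 5) (.m (.v 1) (.v 6))))), (2, .m (.v 1) (.m (.v 5) (.m (.v 1) (.m (.v 1) (.v 6))))), (2, .m (.v 1) (.m (.m (.v 1) (.v 5)) (.m (.v 1) (.v 6)))), (5, .m (.v 5) (.m (.v 2) (.m (.v 1) (.v 6)))), (-1, .m (.v 5) (.m (.v 3) (.v 6))), (-1, .m (.v 5) (.m (.v 1) (.m (.v 2) (.v 6)))), (3, .m (.v 3) (.m (.v 5) (.v 6))), (4, .m (.m (.v 1) (.v 5)) (.m (.v 2) (.v 6)))],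
  [0x2b010080c00140158081004000c00ac0402030000])

def j1_28 : Job := (1, [(4, .m (.v 2) (.m (.v 6) (.m (.v 1) (.v 5)))), (8, .m (.m (.v 1) (.v 6)) (.m (.v 1) (.m (.v 1) (.v 5)))), (-5, .m (.v 1) (.m (.v 2) (.m (.v 5) (.v 6)))), (-10, .m (.v 1) (.m (.m (.v 1) (.v 5)) (.m (.v 1) (.v 6)))), (4, .m (.v 2) (.m (.v 1) (.m (.v 5) (.v 6)))), (-1, .m (.v 3) (.m (.v 5) (.v 6))), (2, .m (.v 1) (.m (.v 1) (.m (.v 5) (.m (.v 1) (.v 6))))), (2, .m (.v 1) (.m (.v 5) (.m (.v 1) (.m (.v 1) (.v 6))))), (1, .m (.v 1) (.m (.v 5) (.m (.v 2) (.v 6)))), (1, .m (.v 1) (.m (.v 6) (.m (.v 2) (.v 5)))), (-5, .m (.v 6) (.m (.v 2) (.m (.v 1) (.v 5)))), (1, .m (.v 6) (.m (.v 3) (.v 5))), (1, .m (.v 6) (.m (.v 1) (.m (.v 2) (.v 5)))), (-2, .m (.m (.v 1) (.v 5)) (.m (.v 1) (.m (.v 1) (.v 6)))), (-1, .m (.m (.v 1) (.v 5)) (.m (.v 2) (.v 6)))],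
  [0xf65030101800c880ab01008080021805404040400320022dea20c0202001b])

def j1_29 : Job := (6, [(2, .m (.v 1) (.m (.m (.v 1) (.v 5)) (.m (.v 1) (.v 6)))), (-1, .m (.v 1) (.m (.v 5) (.m (.v 2) (.v 6)))), (-1, .m (.v 1) (.m (.v 6) (.m (.v 2) (.v 5)))), (-1, .m (.v 6) (.m (.v 3) (.v 5))), (-1, .m (.v 6) (.m (.v 1) (.m (.v 2) (.v 5)))), (4, .m (.m (.v 1) (.v 6)) (.m (.v 2) (.v 5))), (3, .m (.v 3) (.m (.v 5) (.v 6))), (4, .m (.m (.v 1) (.v 5)) (.m (.v 2) (.v 6))), (-1, .m (.v 5) (.m (.v 1) (.m (.v 2) (.v 6)))), (-1, .m (.v 5) (.m (.v 3) (.v 6)))],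
  [0x158080404000200ac040a03000300560204010002802b0102008001c0158080406001000ac0402030000])

def j1_30 : Job := (1, [(-4, .m (.v 2) (.m (.v 5) (.m (.v 1) (.v 6)))), (2, .m (.v 1) (.m (.v 1) (.m (.v 5) (.m (.v 1) (.v 6))))), (2, .m (.v 1) (.m (.v 5) (.m (.v 1) (.m (.v 1) (.v 6))))), (5, .m (.v 5) (.m (.v 2) (.m (.v 1) (.v 6)))), (1, .m (.v 1) (.m (.v 5) (.m (.v 2) (.v 6)))), (1, .m (.v 1) (.m (.v 6) (.m (.v 2) (.v 5)))), (1, .m (.v 6) (.m (.v 3) (.v 5))), (1, .m (.v 6) (.m (.v 1) (.m (.v 2) (.v 5)))), (-4, .m (.m (.v 1) (.v 6)) (.m (.v 2) (.v 5)))],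
  [0x158080406000000ac0402020002])

def j1_31 : Job := (1, [(-4, .m (.v 4) (.m (.v 5) (.v 6))), (-8, .m (.m (.v 2) (.v 5)) (.m (.v 2) (.v 6))), (2, .m (.v 2) (.m (.v 2) (.m (.v 5) (.v 6)))), (2, .m (.v 2) (.m (.v 5) (.m (.v 2) (.v 6)))), (2, .m (.v 2) (.m (.v 6) (.m (.v 2) (.v 5)))), (2, .m (.v 5) (.m (.v 2) (.m (.v 2) (.v 6)))), (1, .m (.v 5) (.m (.v 4) (.v 6))), (2, .m (.v 6) (.m (.v 2) (.m (.v 2) (.v 5)))), (1, .m (.v 6) (.m (.v 4) (.v 5)))],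
  [0x44ac080203001e])

def j1_32 : Job := (1, [(-4, .m (.v 4) (.m (.v 5) (.v 6))), (-4, .m (.m (.v 1) (.v 5)) (.m (.v 3) (.v 6))), (-4, .m (.m (.v 1) (.v 6)) (.m (.v 3) (.v 5))), (1, .m (.v 1) (.m (.v 3) (.m (.v 5) (.v 6)))), (1, .m (.v 1) (.m (.v 5) (.m (.v 3) (.v 6)))), (1, .m (.v 1) (.m (.v 6) (.m (.v 3) (.v 5)))), (1, .m (.v 3) (.m (.v 5) (.m (.v 1) (.v 6)))), (1, .m (.v 3) (.m (.v 6) (.m (.v 1) (.v 5)))), (1, .m (.v 5) (.m (.v 1) (.m (.v 3) (.v 6)))), (1, .m (.v 5) (.m (.v 4) (.v 6))), (1, .m (.v 6) (.m (.v 1) (.m (.v 3) (.v 5)))), (1, .m (.v 6) (.m (.v 4) (.v 5)))],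
  [0xf65030101800ca80b008080c0065805404040600320026ac080203001f])

def j1_33 : Job := (1, [(-8, .m (.v 2) (.m (.v 5) (.m (.v 2) (.v 6)))), (-16, .m (.m (.v 1) (.v 5)) (.m (.v 1) (.m (.v 2) (.v 6)))), (4, .m (.v 1) (.m (.v 1) (.m (.v 5) (.m (.v 2) (.v 6))))), (4, .m (.v 1) (.m (.v 5) (.m (.v 1) (.m (.v 2) (.v 6))))), (4, .m (.v 1) (.m (.m (.v 1) (.v 5)) (.m (.v 2) (.v 6)))), (10, .m (.v 5) (.m (.v 2) (.m (.v 2) (.v 6)))), (-5, .m (.v 5) (.m (.v 4) (.v 6))), (-4, .m (.v 5) (.m (.v 1) (.m (.v 3) (.v 6)))), (4, .m (.m (.v 2) (.v 6)) (.m (.v 1) (.m (.v 1) (.v 5)))), (2, .m (.m (.v 2) (.v 5)) (.m (.v 2) (.v 6)))],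
  [0x14058040406003a0022bec40c04030020])

def j1_34 : Job := (6, [(-5, .m (.m (.v 1) (.v 5)) (.m (.v 2) (.m (.v 1) (.v 6)))), (1, .m (.m (.v 1) (.v 5)) (.m (.v 3) (.v 6))), (1, .m (.m (.v 1) (.v 5)) (.m (.v 1) (.m (.v 2) (.v 6)))), (-1, .m (.v 3) (.m (.v 5) (.m (.v 1) (.v 6))))],
  [0x3d440d8041804003e00223ec2a0e02030020])

def j1_35 : Job := (1, [(4, .m (.m (.v 1) (.v 5)) (.m (.v 1) (.m (.v 2) (.v 6)))), (6, .m (.v 4) (.m (.v 5) (.v 6))), (4, .m (.m (.v 2) (.v 5)) (.m (.v 1) (.m (.v 1) (.v 6)))), (4, .m (.m (.v 1) (.v 5)) (.m (.v 2) (.m (.v 1) (.v 6)))), (4, .m (.m (.v 1) (.v 5)) (.m (.v 3) (.v 6))), (2, .m (.m (.v 2) (.v 5)) (.m (.v 2) (.v 6)))],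
  [0x224ca0a02020021])

def j1_36 : Job := (2, [(3, .m (.v 4) (.m (.v 5) (.v 6))), (2, .m (.m (.v 2) (.v 5)) (.m (.v 1) (.m (.v 1) (.v 6)))), (12, .m (.m (.v 1) (.v 5)) (.m (.v 2) (.m (.v 1) (.v 6)))), (1, .m (.m (.v 2) (.v 5)) (.m (.v 2) (.v 6))), (2, .m (.v 3) (.m (.v 5) (.m (.v 1) (.v 6))))],
  [0x158081006000200ac0402020000])

def j1_37 : Job := (6, [(1, .m (.v 3) (.m (.v 6) (.m (.v 1) (.v 5)))), (1, .m (.m (.v 2) (.v 6)) (.m (.v 1) (.m (.v 1) (.v 5)))), (-1, .m (.v 3) (.m (.v 5) (.m (.v 1) (.v 6)))), (-1, .m (.m (.v 2) (.v 5)) (.m (.v 1) (.m (.v 1) (.v 6))))],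
  [0x1bd44101804001e00222bec20e02030023])

def j1_38 : Job := (1, [(4, .m (.m (.v 2) (.v 6)) (.m (.v 1) (.m (.v 1) (.v 5)))), (4, .m (.m (.v 2) (.v 5)) (.m (.v 1) (.m (.v 1) (.v 6)))), (4, .m (.v 3) (.m (.v 5) (.m (.v 1) (.v 6)))), (4, .m (.m (.v 2) (.v 5)) (.m (.v 2) (.v 6))), (4, .m (.v 3) (.m (.v 6) (.m (.v 1) (.v 5))))],
  [0x3d940c1006003e0022ac40a02020024])

def j1_39 : Job := (4, [(2, .m (.m (.v 2) (.v 5)) (.m (.v 1) (.m (.v 1) (.v 6)))), (2, .m (.v 3) (.m (.v 5) (.m (.v 1) (.v 6)))), (1, .m (.m (.v 2) (.v 5)) (.m (.v 2) (.v 6)))],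
  [0x158081006000200ac0402020000])

def j1_40 : Job := (1, [(4, .m (.v 2) (.m (.v 1) (.m (.v 5) (.m (.v 1) (.v 6))))), (-2, .m (.v 3) (.m (.v 6) (.m (.v 1) (.v 5)))), (-2, .m (.m (.v 2) (.v 6)) (.m (.v 1) (.m (.v 1) (.v 5)))), (10, .m (.m (.v 1) (.v 5)) (.m (.v 2) (.m (.v 1) (.v 6)))), (-2, .m (.m (.v 1) (.v 5)) (.m (.v 3) (.v 6))), (-2, .m (.m (.v 1) (.v 5)) (.m (.v 1) (.m (.v 2) (.v 6)))), (4, .m (.v 2) (.m (.v 5) (.m (.v 1) (.m (.v 1) (.v 6))))), (2, .m (.m (.v 2) (.v 5)) (.m (.v 1) (.m (.v 1) (.v 6)))), (4, .m (.v 2) (.m (.m (.v 1) (.v 5)) (.m (.v 1) (.v 6))))],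
  [0x37a8820100c004bd440d8040806004a0022bec220e02020026])

def j1_41 : Job := (4, [(1, .m (.v 2) (.m (.v 1) (.m (.v 5) (.m (.v 1) (.v 6))))), (1, .m (.v 2) (.m (.v 5) (.m (.v 1) (.m (.v 1) (.v 6))))), (1, .m (.v 2) (.m (.m (.v 1) (.v 5)) (.m (.v 1) (.v 6)))), (-1, .m (.v 3) (.m (.v 5) (.m (.v 1) (.v 6))))],
  [0x2b0101008000c0158080804000c00ac0402020000])

def j1_42 : Job := (1, [(8, .m (.v 2) (.m (.v 6) (.m (.v 2) (.v 5)))), (16, .m (.m (.v 1) (.v 6)) (.m (.v 1) (.m (.v 2) (.v 5)))), (-4, .m (.v 1) (.m (.v 1) (.m (.v 6) (.m (.v 2) (.v 5))))), (-4, .m (.v 1) (.m (.v 6) (.m (.v 1) (.m (.v 2) (.v 5))))), (-4, .m (.v 1) (.m (.m (.v 1) (.v 6)) (.m (.v 2) (.v 5)))), (-10, .m (.v 6) (.m (.v 2) (.m (.v 2) (.v 5)))), (5, .m (.v 6) (.m (.v 4) (.v 5))), (4, .m (.v 6) (.m (.v 1) (.m (.v 3) (.v 5)))), (-4, .m (.m (.v 2) (.v 5)) (.m (.v 1) (.m (.v 1) (.v 6)))), (-2, .m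 (.m (.v 2) (.v 5)) (.m (.v 2) (.v 6)))],
  [0x18054040404004c0022dea40c04020029])

def j1_43 : Job := (1, [(-18, .m (.v 2) (.m (.v 6) (.m (.v 2) (.v 5)))), (-16, .m (.m (.v 1) (.v 6)) (.m (.v 1) (.m (.v 2) (.v 5)))), (4, .m (.v 1) (.m (.v 1) (.m (.v 6) (.m (.v 2) (.v 5))))), (4, .m (.v 1) (.m (.v 6) (.m (.v 1) (.m (.v 2) (.v 5))))), (4, .m (.v 1) (.m (.m (.v 1) (.v 6)) (.m (.v 2) (.v 5)))), (-6, .m (.v 6) (.m (.v 4) (.v 5))), (40, .m (.m (.v 2) (.v 5)) (.m (.v 2) (.v 6))), (4, .m (.v 4) (.m (.v 5) (.v 6))), (-10, .m (.v 2) (.m (.v 2) (.m (.v 5) (.v 6)))), (-10, .m (.v 2) (.m (.v 5) (.m (.v 2) (.v 6)))), (-10, .m (.v 5) (.m (.v 2) (.m (.v 2) (.v 6)))), (-1, .m (.v 5) (.m (.v 4) (.v 6))), (-16, .m (.m (.v 1) (.v 5)) (.m (.v 3) (.v 6))), (-16, .m (.m (.v 1) (.v 6)) (.m (.v 3) (.v 5))), (4, .m (.v 1) (.m (.v 3) (.m (.v 5) (.v 6)))), (4, .m (.v 1) (.m (.v 5) (.m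 (.v 3) (.v 6)))), (4, .m (.v 1) (.m (.v 6) (.m (.v 3) (.v 5)))), (4, .m (.v 3) (.m (.v 6) (.m (.v 1) (.v 5)))), (4, .m (.v 5) (.m (.v 1) (.m (.v 3) (.v 6))))],
  [0x560202018001802b010200800280158081406001600ac0402030000])

def j1_44 : Job := (6, [(5, .m (.m (.v 1) (.v 6)) (.m (.v 2) (.m (.v 1) (.v 5)))), (-1, .m (.m (.v 1) (.v 6)) (.m (.v 3) (.v 5))), (-1, .m (.m (.v 1) (.v 6)) (.m (.v 1) (.m (.v 2) (.v 5)))), (1, .m (.v 3) (.m (.v 6) (.m (.v 1) (.v 5))))],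
  [0x3d840d4041806005200223ea2c0e0202002a])

def j1_45 : Job := (1, [(4, .m (.m (.v 1) (.v 6)) (.m (.v 1) (.m (.v 2) (.v 5)))), (6, .m (.v 4) (.m (.v 5) (.v 6))), (4, .m (.m (.v 2) (.v 6)) (.m (.v 1) (.m (.v 1) (.v 5)))), (4, .m (.m (.v 1) (.v 6)) (.m (.v 2) (.m (.v 1) (.v 5)))), (4, .m (.m (.v 1) (.v 6)) (.m (.v 3) (.v 5))), (2, .m (.m (.v 2) (.v 5)) (.m (.v 2) (.v 6)))],
  [0x224ac0a0202002b])

def j1_46 : Job := (6, [(1, .m (.v 4) (.m (.v 5) (.v 6))), (4, .m (.m (.v 1) (.v 6)) (.m (.v 2) (.m (.v 1) (.v 5))))],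
  [0x560204010000802b010100c00180158081006001000ac0402020000])

def j1_47 : Job := (1, [(2, .m (.v 2) (.m (.v 2) (.m (.v 5) (.v 6)))), (2, .m (.m (.v 1) (.v 6)) (.m (.v 2) (.m (.v 1) (.v 5)))), (2, .m (.m (.v 1) (.v 5)) (.m (.v 2) (.m (.v 1) (.v 6)))), (2, .m (.v 2) (.m (.v 5) (.m (.v 2) (.v 6)))), (2, .m (.m (.v 1) (.v 6)) (.m (.v 3) (.v 5))), (2, .m (.v 2) (.m (.v 6) (.m (.v 2) (.v 5)))), (2, .m (.m (.v 1) (.v 6)) (.m (.v 1) (.m (.v 2) (.v 5)))), (2, .m (.m (.v 1) (.v 5)) (.m (.v 3) (.v 6))), (2, .m (.m (.v 1) (.v 5)) (.m (.v 1) (.m (.v 2) (.v 6)))), (2, .m (.v 3) (.m (.v 5) (.m (.v 1) (.v 6)))), (2, .m (.v 3) (.m (.v 6) (.m (.v 1) (.v 5))))],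
  [0x3d940c080600500024ac20a0202002d])

def j1_48 : Job := (1, [(2, .m (.v 2) (.m (.v 2) (.m (.v 5) (.v 6)))), (2, .m (.v 2) (.m (.v 5) (.m (.v 2) (.v 6)))), (4, .m (.m (.v 1) (.v 6)) (.m (.v 3) (.v 5))), (2, .m (.v 2) (.m (.v 6) (.m (.v 2) (.v 5)))), (4, .m (.m (.v 1) (.v 6)) (.m (.v 1) (.m (.v 2) (.v 5)))), (4, .m (.v 3) (.m (.v 5) (.m (.v 1) (.v 6)))), (-1, .m (.v 4) (.m (.v 5) (.v 6)))],
  [0x158080804000200ac040403000300560201010004002b010080c002c0158080806001a00ac0402020000])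

def j1_49 : Job := (1, [(-2, .m (.v 3) (.m (.v 6) (.m (.v 1) (.v 5)))), (10, .m (.m (.v 1) (.v 6)) (.m (.v 2) (.m (.v 1) (.v 5)))), (-2, .m (.m (.v 1) (.v 6)) (.m (.v 3) (.v 5))), (-2, .m (.m (.v 1) (.v 6)) (.m (.v 1) (.m (.v 2) (.v 5)))), (10, .m (.v 2) (.m (.v 2) (.m (.v 5) (.v 6)))), (20, .m (.v 2) (.m (.m (.v 1) (.v 5)) (.m (.v 1) (.v 6)))), (-4, .m (.v 2) (.m (.v 1) (.m (.v 5) (.m (.v 1) (.v 6))))), (-4, .m (.v 2) (.m (.v 5) (.m (.v 1) (.m (.v 1) (.v 6))))), (-2, .m (.v 2) (.m (.v 5) (.m (.v 2) (.v 6)))), (-2, .m (.v 2) (.m (.v 6) (.m (.v 2) (.v 5))))],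
  [0xdea2080403001bf610350102018017007b2818100800ac80558080806003a0022dea220e0202002f])

def j1_50 : Job := (6, [(2, .m (.v 2) (.m (.v 2) (.m (.v 5) (.v 6)))), (4, .m (.v 2) (.m (.m (.v 1) (.v 5)) (.m (.v 1) (.v 6)))), (-1, .m (.v 4) (.m (.v 5) (.v 6)))],
  [0xac040202000100560205018001802b010100800140158081004001000ac0402020000])

def j1_51 : Job := (1, [(4, .m (.v 2) (.m (.m (.v 1) (.v 5)) (.m (.v 1) (.v 6)))), (-4, .m (.v 3) (.m (.v 6) (.m (.v 1) (.v 5)))), (-4, .m (.m (.v 2) (.v 6)) (.m (.v 1) (.m (.v 1) (.v 5)))), (5, .m (.v 1) (.m (.v 3) (.m (.v 5) (.v 6)))), (-1, .m (.v 1) (.m (.v 1) (.m (.v 5) (.m (.v 2) (.v 6))))), (-1, .m (.v 1) (.m (.v 1) (.m (.v 6) (.m (.v 2) (.v 5))))), (-1, .m (.v 1) (.m (.v 6) (.m (.v 3) (.v 5)))), (-1, .m (.v 1) (.m (.v 6) (.m (.v 1) (.m (.v 2) (.v 5))))), (5, .m (.v 1) (.m (.m (.v 1) (.v 5)) (.m (.v 2) (.v 6)))), (5, .m (.v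 1) (.m (.m (.v 1) (.v 6)) (.m (.v 2) (.v 5)))), (-1, .m (.v 1) (.m (.v 5) (.m (.v 3) (.v 6)))), (-1, .m (.v 1) (.m (.v 5) (.m (.v 1) (.m (.v 2) (.v 6))))), (-5, .m (.m (.v 1) (.v 5)) (.m (.v 2) (.m (.v 1) (.v 6)))), (1, .m (.m (.v 1) (.v 5)) (.m (.v 3) (.v 6))), (1, .m (.m (.v 1) (.v 5)) (.m (.v 1) (.m (.v 2) (.v 6)))), (-5, .m (.m (.v 1) (.v 6)) (.m (.v 2) (.m (.v 1) (.v 5)))), (1, .m (.m (.v 1) (.v 6)) (.m (.v 3) (.v 5))), (1, .m (.m (.v 1) (.v 6)) (.m (.v 1) (.m (.v 2) (.v 5))))],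
  [0x37a8820200c0077d440d80404040061ec206a020202003010165020101000e880ab0100808007440558080404002a0023ea3ec21002020032])

def j1_52 : Job := (18, [(4, .m (.v 1) (.m (.v 3) (.m (.v 5) (.v 6)))), (4, .m (.v 1) (.m (.m (.v 1) (.v 5)) (.m (.v 2) (.v 6)))), (4, .m (.v 1) (.m (.m (.v 1) (.v 6)) (.m (.v 2) (.v 5)))), (-2, .m (.v 2) (.m (.v 5) (.m (.v 2) (.v 6)))), (-1, .m (.v 5) (.m (.v 4) (.v 6))), (8, .m (.m (.v 2) (.v 5)) (.m (.v 2) (.v 6))), (5, .m (.v 4) (.m (.v 5) (.v 6))), (-2, .m (.v 2) (.m (.v 6) (.m (.v 2) (.v 5)))), (-1, .m (.v 6) (.m (.v 4) (.v 5))), (-2, .m (.v 2) (.m (.v 2) (.m (.v 5) (.v 6))))],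
  [0x158083006000200ac04120200030056020f010002802b010180800200158080806001800ac044802000e00560214010007802b011200800440158080c04002400ac0418020000])

def j1_53 : Job := (1, [(64, .m (.v 2) (.m (.m (.v 1) (.v 5)) (.m (.v 1) (.v 6)))), (-16, .m (.v 2) (.m (.v 1) (.m (.v 5) (.m (.v 1) (.v 6))))), (-16, .m (.v 2) (.m (.v 5) (.m (.v 1) (.m (.v 1) (.v 6))))), (-8, .m (.v 2) (.m (.v 5) (.m (.v 2) (.v 6)))), (-8, .m (.v 2) (.m (.v 6) (.m (.v 2) (.v 5)))), (64, .m (.m (.v 1) (.v 6)) (.m (.v 2) (.m (.v 1) (.v 5)))), (-16, .m (.m (.v 1) (.v 6)) (.m (.v 3) (.v 5))), (-16, .m (.m (.v 1) (.v 6)) (.m (.v 1) (.m (.v 2) (.v 5)))), (20, .m (.v 1) (.m (.m (.v 1) (.v 6)) (.m (.v 2) (.v 5)))), (20, .m (.v 1) (.m (.v 2) (.m (.v 5) (.m (.v 1) (.v 6))))), (-4, .m (.v 1) (.m (.v 5) (.m (.v 2) (.m (.v 1) (.v 6))))), (32, .m (.v 2) (.m (.v 2) (.m (.v 5) (.v 6)))), (-1, .m (.v 6) (.m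 (.v 4) (.v 5))), (10, .m (.v 6) (.m (.v 2) (.m (.v 2) (.v 5))))],
  [0x6f51040401000ffb081a808800c00c840558081004003e202ac0420020017101f650304018019007b2818280c00c040558081004003a01fea2c0a0803003210156020401800b08812b0102008008403d940c04040062202ac042002001b610250104010019300a808200800c1805404040600622c04a020802003200f650308010017900ab010400c00858054040804005e0022dfea221008020034])

def j1_54 : Job := (1, [(20, .m (.v 1) (.m (.v 2) (.m (.v 5) (.m (.v 1) (.v 6))))), (-4, .m (.v 1) (.m (.v 5) (.m (.v 2) (.m (.v 1) (.v 6))))), (-1, .m (.v 6) (.m (.v 4) (.v 5))), (-10, .m (.v 5) (.m (.v 2) (.m (.v 2) (.v 6)))), (-5, .m (.v 4) (.m (.v 5) (.v 6))), (-20, .m (.v 1) (.m (.v 3) (.m (.v 5) (.v 6)))), (-20, .m (.v 1) (.m (.m (.v 1) (.v 5)) (.m (.v 2) (.v 6))))],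
  [0x2b010280c00040158085006000600ac040802000500560210018003802b010800800300158081406002c00ac0402020000])

def j1_55 : Job := (1, [(16, .m (.v 3) (.m (.v 5) (.m (.v 1) (.v 6)))), (16, .m (.m (.v 1) (.v 5)) (.m (.v 2) (.m (.v 1) (.v 6)))), (16, .m (.m (.v 2) (.v 5)) (.m (.v 1) (.m (.v 1) (.v 6)))), (-4, .m (.v 1) (.m (.v 2) (.m (.v 5) (.m (.v 1) (.v 6))))), (-4, .m (.v 1) (.m (.v 5) (.m (.v 2) (.m (.v 1) (.v 6))))), (-4, .m (.v 1) (.m (.m (.v 1) (.v 6)) (.m (.v 2) (.v 5)))), (-4, .m (.v 2) (.m (.v 1) (.m (.v 5) (.m (.v 1) (.v 6))))), (-4, .m (.v 2) (.m (.v 5) (.m (.v 1) (.m (.v 1) (.v 6))))), (-4, .m (.v 2) (.m (.m (.v 1) (.v 5)) (.m (.v 1) (.v 6)))), (1, .m (.v 5) (.m (.v 4) (.v 6))), (2, .m (.v 5) (.m (.v 2) (.m (.v 2) (.v 6)))), (-4, .m (.m (.v 1) (.v 6)) (.m (.v 1) (.m (.v 2) (.v 5)))), (-4, .m (.m (.v 1) (.v 6)) (.m (.v 2) (.m (.v 1) (.v 5)))), (-4, .m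 (.m (.v 1) (.v 6)) (.m (.v 3) (.v 5)))],
  [0x50160101010019280b008100800c5405804100400600024bec20c08020036])

def j1_56 : Job := (18, [(4, .m (.v 1) (.m (.v 5) (.m (.v 2) (.m (.v 1) (.v 6))))), (1, .m (.v 6) (.m (.v 4) (.v 5)))],
  [0x560203018000802b010780c000c0158083c06000e00ac041e0300090056023c018007002b013200800400158085004002600ac041e030000])

def j1_57 : Job := (5, [(4, .m (.v 1) (.m (.v 2) (.m (.v 5) (.m (.v 1) (.v 6))))), (-2, .m (.v 5) (.m (.v 2) (.m (.v 2) (.v 6)))), (-1, .m (.v 4) (.m (.v 5) (.v 6))), (-4, .m (.v 1) (.m (.v 3) (.m (.v 5) (.v 6)))), (-4, .m (.v 1) (.m (.m (.v 1) (.v 5)) (.m (.v 2) (.v 6))))],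
  [0x158080404000000ac0402020002])

def j1_58 : Job := (2, [(2, .m (.v 3) (.m (.v 6) (.m (.v 1) (.v 5)))), (-3, .m (.v 4) (.m (.v 5) (.v 6))), (1, .m (.v 2) (.m (.v 2) (.m (.v 5) (.v 6)))), (1, .m (.v 2) (.m (.v 5) (.m (.v 2) (.v 6)))), (1, .m (.v 2) (.m (.v 6) (.m (.v 2) (.v 5)))), (2, .m (.v 3) (.m (.v 5) (.m (.v 1) (.v 6))))],
  [0x2b010080800240158081406001600ac040802000d])

def j1_59 : Job := (1, [(-10, .m (.v 2) (.m (.v 6) (.m (.v 2) (.v 5)))), (4, .m (.v 1) (.m (.v 1) (.m (.v 6) (.m (.v 2) (.v 5))))), (4, .m (.v 1) (.m (.v 6) (.m (.v 1) (.m (.v 2) (.v 5))))), (-5, .m (.v 6) (.m (.v 4) (.v 5))), (32, .m (.m (.v 2) (.v 5)) (.m (.v 2) (.v 6))), (-10, .m (.v 5) (.m (.v 2) (.m (.v 2) (.v 6)))), (-16, .m (.m (.v 1) (.v 5)) (.m (.v 3) (.v 6))), (4, .m (.v 1) (.m (.v 5) (.m (.v 3) (.v 6)))), (4, .m (.v 1) (.m (.v 6) (.m (.v 3) (.v 5)))), (4, .m (.v 5) (.m (.v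 1) (.m (.v 3) (.v 6)))), (12, .m (.v 3) (.m (.v 5) (.m (.v 1) (.v 6)))), (-4, .m (.v 1) (.m (.m (.v 1) (.v 5)) (.m (.v 2) (.v 6)))), (1, .m (.v 4) (.m (.v 5) (.v 6))), (-2, .m (.v 2) (.m (.v 2) (.m (.v 5) (.v 6)))), (-2, .m (.v 2) (.m (.v 5) (.m (.v 2) (.v 6))))],
  [0x560202018000002b010080c00180158081004001400ac040202000f])

def j1_60 : Job := (1, [(4, .m (.v 2) (.m (.v 1) (.m (.v 5) (.m (.v 1) (.v 6))))), (4, .m (.v 2) (.m (.v 5) (.m (.v 1) (.m (.v 1) (.v 6))))), (-4, .m (.v 3) (.m (.v 5) (.m (.v 1) (.v 6)))), (-2, .m (.v 2) (.m (.v 2) (.m (.v 5) (.v 6)))), (1, .m (.v 4) (.m (.v 5) (.v 6)))],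
  [0x158080406001200ac0408020012])

def j1_61 : Job := (1, [(2, .m (.m (.v 2) (.v 6)) (.m (.v 1) (.m (.v 1) (.v 5)))), (-2, .m (.v 3) (.m (.v 5) (.m (.v 1) (.v 6)))), (3, .m (.v 4) (.m (.v 5) (.v 6))), (-1, .m (.v 2) (.m (.v 2) (.m (.v 5) (.v 6)))), (-1, .m (.v 2) (.m (.v 5) (.m (.v 2) (.v 6)))), (-1, .m (.v 2) (.m (.v 6) (.m (.v 2) (.v 5)))), (1, .m (.m (.v 2) (.v 5)) (.m (.v 2) (.v 6)))],
  [0x2b010080800540158080406000400ac0404020017])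

def j1_62 : Job := (3, [(1, .m (.v 4) (.m (.v 5) (.v 6))), (4, .m (.m (.v 1) (.v 5)) (.m (.v 2) (.m (.v 1) (.v 6))))],
  [0x158080406002c00ac0402020019])

def j1_63 : Job := (1, [(4, .m (.m (.v 1) (.v 5)) (.m (.v 3) (.v 6))), (4, .m (.m (.v 1) (.v 5)) (.m (.v 1) (.m (.v 2) (.v 6)))), (-4, .m (.v 3) (.m (.v 5) (.m (.v 1) (.v 6)))), (5, .m (.v 4) (.m (.v 5) (.v 6)))],
  [0x158081404000000ac040802001c])

def j1_64 : Job := (1, [(-6, .m (.v 2) (.m (.v 5) (.m (.v 2) (.v 6)))), (4, .m (.v 1) (.m (.v 1) (.m (.v 5) (.m (.v 2) (.v 6))))), (4, .m (.v 1) (.m (.v 5) (.m (.v 1) (.m (.v 2) (.v 6))))), (4, .m (.v 1) (.m (.m (.v 1) (.v 5)) (.m (.v 2) (.v 6)))), (10, .m (.v 5) (.m (.v 2) (.m (.v 2) (.v 6)))), (-5, .m (.v 5) (.m (.v 4) (.v 6))), (-4, .m (.v 5) (.m (.v 1) (.m (.v 3) (.v 6)))), (16, .m (.m (.v 1) (.v 5)) (.m (.v 3) (.v 6))), (-12, .m (.v 3) (.m (.v 5) (.m (.v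 1) (.v 6)))), (14, .m (.v 4) (.m (.v 5) (.v 6))), (2, .m (.v 2) (.m (.v 2) (.m (.v 5) (.v 6)))), (2, .m (.v 2) (.m (.v 6) (.m (.v 2) (.v 5))))],
  [0x2b010100c00080158081004000000ac040202001e])

def j1_65 : Job := (1, [(-5, .m (.v 4) (.m (.v 5) (.v 6))), (-8, .m (.m (.v 1) (.v 5)) (.m (.v 3) (.v 6))), (-8, .m (.m (.v 1) (.v 6)) (.m (.v 3) (.v 5))), (2, .m (.v 1) (.m (.v 3) (.m (.v 5) (.v 6)))), (2, .m (.v 1) (.m (.v 5) (.m (.v 3) (.v 6)))), (2, .m (.v 1) (.m (.v 6) (.m (.v 3) (.v 5)))), (2, .m (.v 5) (.m (.v 1) (.m (.v 3) (.v 6)))), (2, .m (.v 5) (.m (.v 4) (.v 6))), (2, .m (.v 6) (.m (.v 1) (.m (.v 3) (.v 5)))), (2, .m (.v 6) (.m (.v 4) (.v 5))), (-1, .m (.v 2) (.m (.v 2) (.m (.v 5) (.v 6)))), (-1, .m (.v 2) (.m (.v 5) (.m (.v 2) (.v 6)))), (-1, .m (.v 2) (.m (.v 6) (.m (.v 2) (.v 5))))],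
  [0x158080406000c00ac0404020020])

def j1_66 : Job := (1, [(-4, .m (.v 2) (.m (.v 5) (.m (.v 3) (.v 6)))), (-8, .m (.m (.v 1) (.v 5)) (.m (.v 1) (.m (.v 3) (.v 6)))), (2, .m (.v 1) (.m (.v 1) (.m (.v 5) (.m (.v 3) (.v 6))))), (2, .m (.v 1) (.m (.v 5) (.m (.v 1) (.m (.v 3) (.v 6))))), (2, .m (.v 1) (.m (.m (.v 1) (.v 5)) (.m (.v 3) (.v 6)))), (5, .m (.v 5) (.m (.v 2) (.m (.v 3) (.v 6)))), (2, .m (.m (.v 3) (.v 6)) (.m (.v 1) (.m (.v 1) (.v 5)))), (1, .m (.m (.v 2) (.v 5)) (.m (.v 3) (.v 6)))],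
  [0x1405804080600740022bec60c02030041])

def j1_67 : Job := (12, [(-4, .m (.m (.v 2) (.v 5)) (.m (.v 3) (.v 6))), (-4, .m (.m (.v 2) (.v 6)) (.m (.v 3) (.v 5))), (1, .m (.v 2) (.m (.v 3) (.m (.v 5) (.v 6)))), (1, .m (.v 2) (.m (.v 5) (.m (.v 3) (.v 6)))), (1, .m (.v 2) (.m (.v 6) (.m (.v 3) (.v 5)))), (1, .m (.v 3) (.m (.v 5) (.m (.v 2) (.v 6)))), (1, .m (.v 3) (.m (.v 6) (.m (.v 2) (.v 5)))), (1, .m (.v 5) (.m (.v 2) (.m (.v 3) (.v 6)))), (1, .m (.v 6) (.m (.v 2) (.m (.v 3) (.v 5))))],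
  [0x8888a0a0202004100f65030c01801b280b008600c00d98054043006006c0046ac0818030042])

def j1_68 : Job := (3, [(-10, .m (.m (.v 1) (.v 5)) (.m (.v 2) (.m (.v 2) (.v 6)))), (5, .m (.m (.v 1) (.v 5)) (.m (.v 4) (.v 6))), (4, .m (.m (.v 1) (.v 5)) (.m (.v 1) (.m (.v 3) (.v 6)))), (-2, .m (.v 3) (.m (.v 5) (.m (.v 2) (.v 6))))],
  [0x3d440d8040c04008000223ec4a0e02030042])

def j1_69 : Job := (1, [(4, .m (.v 2) (.m (.v 1) (.m (.v 5) (.m (.v 2) (.v 6))))), (-2, .m (.v 3) (.m (.v 5) (.m (.v 2) (.v 6)))), (10, .m (.m (.v 1) (.v 5)) (.m (.v 2) (.m (.v 2) (.v 6)))), (-5, .m (.m (.v 1) (.v 5)) (.m (.v 4) (.v 6))), (-4, .m (.m (.v 1) (.v 5)) (.m (.v 1) (.m (.v 3) (.v 6)))), (4, .m (.v 2) (.m (.v 5) (.m (.v 1) (.m (.v 2) (.v 6))))), (4, .m (.v 2) (.m (.m (.v 1) (.v 5)) (.m (.v 2) (.v 6))))],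
  [0x2fb1020100c00bfd440d804040600820022bec420e02020043])

def j1_70 : Job := (4, [(1, .m (.v 2) (.m (.v 1) (.m (.v 5) (.m (.v 2) (.v 6))))), (-1, .m (.v 3) (.m (.v 5) (.m (.v 2) (.v 6)))), (1, .m (.v 2) (.m (.v 5) (.m (.v 1) (.m (.v 2) (.v 6))))), (1, .m (.v 2) (.m (.m (.v 1) (.v 5)) (.m (.v 2) (.v 6))))],
  [0x158080404000200ac0402020000])

def j1_71 : Job := (4, [(4, .m (.m (.v 1) (.v 5)) (.m (.v 1) (.m (.v 3) (.v 6)))), (4, .m (.m (.v 3) (.v 5)) (.m (.v 1) (.m (.v 1) (.v 6)))), (4, .m (.m (.v 1) (.v 5)) (.m (.v 4) (.v 6))), (2, .m (.m (.v 2) (.v 6)) (.m (.v 3) (.v 5)))],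
  [0x22222828080c0117d440d8044006008000226ca0a08020045])

def j1_72 : Job := (1, [(4, .m (.m (.v 3) (.v 5)) (.m (.v 1) (.m (.v 1) (.v 6)))), (-1, .m (.m (.v 1) (.v 5)) (.m (.v 4) (.v 6))), (2, .m (.m (.v 2) (.v 6)) (.m (.v 3) (.v 5))), (10, .m (.m (.v 1) (.v 5)) (.m (.v 2) (.m (.v 2) (.v 6)))), (2, .m (.v 3) (.m (.v 5) (.m (.v 2) (.v 6))))],
  [0x158080406000600ac0402020000])

def j1_73 : Job := (8, [(2, .m (.m (.v 1) (.v 6)) (.m (.v 1) (.m (.v 3) (.v 5)))), (2, .m (.m (.v 3) (.v 6)) (.m (.v 1) (.m (.v 1) (.v 5)))), (2, .m (.m (.v 1) (.v 6)) (.m (.v 4) (.v 5))), (1, .m (.m (.v 2) (.v 5)) (.m (.v 3) (.v 6)))],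
  [0x22222828080c011fd840d4044006008400226ac0a08020047])

def j1_74 : Job := (12, [(4, .m (.m (.v 1) (.v 5)) (.m (.v 4) (.v 6))), (4, .m (.m (.v 1) (.v 6)) (.m (.v 4) (.v 5))), (-1, .m (.v 1) (.m (.v 5) (.m (.v 4) (.v 6)))), (-1, .m (.v 1) (.m (.v 6) (.m (.v 4) (.v 5)))), (-1, .m (.v 4) (.m (.v 5) (.m (.v 1) (.v 6)))), (-1, .m (.v 4) (.m (.v 6) (.m (.v 1) (.v 5))))],
  [0x444450501018024007b28186008010003d940c30040078a02c02180200405016010c01001e300a80860080101805404300400780028ac0818020049])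

def j1_75 : Job := (1, [(4, .m (.v 4) (.m (.v 5) (.m (.v 1) (.v 6)))), (4, .m (.m (.v 3) (.v 5)) (.m (.v 1) (.m (.v 1) (.v 6)))), (-1, .m (.v 1) (.m (.v 3) (.m (.v 5) (.m (.v 1) (.v 6))))), (-1, .m (.v 1) (.m (.m (.v 1) (.v 6)) (.m (.v 3) (.v 5)))), (-1, .m (.v 3) (.m (.v 5) (.m (.v 1) (.m (.v 1) (.v 6))))), (-1, .m (.v 3) (.m (.m (.v 1) (.v 5)) (.m (.v 1) (.v 6)))), (-1, .m (.m (.v 1) (.v 6)) (.m (.v 1) (.m (.v 3) (.v 5)))), (-1, .m (.m (.v 1) (.v 6)) (.m (.v 4) (.v 5)))],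
  [0xf5103601040180227b081a8080808011144098040404008801fec2a0a02020044150260101010022280fb0818080801114058040404007a0026bec20c0202004a])

def j1_76 : Job := (1, [(-8, .m (.v 4) (.m (.v 5) (.m (.v 1) (.v 6)))), (2, .m (.v 1) (.m (.v 3) (.m (.v 5) (.m (.v 1) (.v 6))))), (2, .m (.v 1) (.m (.m (.v 1) (.v 6)) (.m (.v 3) (.v 5)))), (2, .m (.v 3) (.m (.v 5) (.m (.v 1) (.m (.v 1) (.v 6))))), (2, .m (.v 3) (.m (.m (.v 1) (.v 5)) (.m (.v 1) (.v 6)))), (-2, .m (.m (.v 1) (.v 5)) (.m (.v 4) (.v 6))), (4, .m (.m (.v 2) (.v 6)) (.m (.v 3) (.v 5))), (20, .m (.m (.v 1) (.v 5)) (.m (.v 2) (.m (.v 2) (.v 6)))), (4, .m (.v 3) (.m (.v 5) (.m (.v 2) (.v 6)))), (-2, .m (.m (.v 3) (.v 6)) (.m (.v 1) (.m (.v 1) (.v 5)))), (-1, .m (.m (.v 2) (.v 5)) (.m (.v 3) (.v 6)))],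
  [0x2b010080c00080158080804000600ac0404030000])

def j1_77 : Job := (3, [(1, .m (.m (.v 1) (.v 5)) (.m (.v 4) (.v 6))), (-10, .m (.m (.v 1) (.v 5)) (.m (.v 2) (.m (.v 2) (.v 6)))), (4, .m (.v 3) (.m (.v 5) (.m (.v 1) (.m (.v 1) (.v 6)))))],
  [0x1ea206c0218030048f5103601030100248fa8823008600c012bd440d8041806008e00223fec22a120402004b])

def j1_78 : Job := (3, [(-8, .m (.v 2) (.m (.v 2) (.m (.v 5) (.m (.v 1) (.v 6))))), (5, .m (.v 4) (.m (.v 5) (.m (.v 1) (.v 6)))), (4, .m (.v 1) (.m (.v 3) (.m (.v 5) (.m (.v 1) (.v 6))))), (2, .m (.v 1) (.m (.v 5) (.m (.v 2) (.m (.v 2) (.v 6))))), (8, .m (.v 2) (.m (.v 3) (.m (.v 5) (.v 6)))), (4, .m (.v 1) (.m (.v 1) (.m (.m (.v 1) (.v 5)) (.m (.v 2) (.v 6)))))],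
  [0xf650303018022007b2818600c011840558080c060028203fec2a0a1802004b00ff615050f010024807fb0a828c00c012003fd854143004008e00223ffec2a2140802004d])

def j1_79 : Job := (1, [(24, .m (.v 2) (.m (.v 2) (.m (.v 5) (.m (.v 1) (.v 6))))), (-24, .m (.v 2) (.m (.v 3) (.m (.v 5) (.v 6)))), (15, .m (.v 4) (.m (.v 6) (.m (.v 1) (.v 5)))), (-6, .m (.v 1) (.m (.v 2) (.m (.v 5) (.m (.v 2) (.v 6))))), (-6, .m (.v 1) (.m (.v 2) (.m (.v 6) (.m (.v 2) (.v 5))))), (-12, .m (.v 1) (.m (.v 3) (.m (.v 5) (.m (.v 1) (.v 6))))), (-6, .m (.v 1) (.m (.v 5) (.m (.v 2) (.m (.v 2) (.v 6))))), (-12, .m (.v 1) (.m (.v 1) (.m (.m (.v 1) (.v 5)) (.m (.v 2) (.v 6)))))],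
  [0x1eca060c02004610156020601800a080fb28181808012803d940c4806008a202ac0406020015110256020c01801b880ffa8b0286008013003fd458143c04009401eca063003004320156021801001b807fa8b028c00c012403fd458143004009000223ffea2c2140802004e])

def j1_80 : Job := (3, [(-5, .m (.v 4) (.m (.v 6) (.m (.v 1) (.v 5)))), (2, .m (.v 1) (.m (.v 2) (.m (.v 5) (.m (.v 2) (.v 6))))), (2, .m (.v 1) (.m (.v 2) (.m (.v 6) (.m (.v 2) (.v 5))))), (-5, .m (.v 4) (.m (.v 5) (.m (.v 1) (.v 6))))],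
  [0x158080c06000200ac0402030000])

def j1_81 : Job := (2, [(4, .m (.v 2) (.m (.v 5) (.m (.v 1) (.m (.v 2) (.v 6))))), (16, .m (.m (.v 1) (.v 5)) (.m (.v 2) (.m (.v 2) (.v 6)))), (-10, .m (.m (.v 1) (.v 5)) (.m (.v 4) (.v 6))), (-8, .m (.m (.v 1) (.v 5)) (.m (.v 1) (.m (.v 3) (.v 6)))), (-4, .m (.v 1) (.m (.v 2) (.m (.v 5) (.m (.v 2) (.v 6))))), (4, .m (.v 2) (.m (.v 1) (.m (.v 5) (.m (.v 2) (.v 6))))), (2, .m (.v 1) (.m (.v 1) (.m (.m (.v 1) (.v 5)) (.m (.v 2) (.v 6))))), (1, .m (.v 1) (.m (.v 5) (.m (.v 2) (.m (.v 2) (.v 6))))), (10, .m (.v 1) (.m (.m (.v 1) (.v 5)) (.m (.v 3) (.v 6)))), (-8, .m (.v 1) (.m (.v 3) (.m (.v 5) (.m (.v 1) (.v 6))))), (1, .m (.v 1) (.m (.v 2) (.m (.v 6) (.m (.v 2) (.v 5))))), (5, .m (.v 5) (.m (.v 2) (.m (.v 3) (.v 6))))],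
  [0x2fb1020100800efd440d8041006009a202ac0404030016101650201010010007fb12828100c013803d940c4c06008e01eca0604030048101560201010008288130080808013540580420040090a02c020a030047501601040180248a813008080801354058040804008c0022bfec421004020050])

def j1_82 : Job := (1, [(8, .m (.m (.v 1) (.v 5)) (.m (.v 2) (.m (.v 2) (.v 6)))), (10, .m (.v 1) (.m (.v 2) (.m (.v 5) (.m (.v 2) (.v 6))))), (-20, .m (.v 1) (.m (.m (.v 1) (.v 5)) (.m (.v 3) (.v 6)))), (20, .m (.v 1) (.m (.v 3) (.m (.v 5) (.m (.v 1) (.v 6))))), (-10, .m (.v 5) (.m (.v 2) (.m (.v 3) (.v 6)))), (8, .m (.v 2) (.m (.m (.v 1) (.v 5)) (.m (.v 2) (.v 6)))), (-8, .m (.v 2) (.m (.v 2) (.m (.v 5) (.m (.v 1) (.v 6))))), (8, .m (.v 2) (.m (.v 3) (.m (.v 5) (.v 6)))), (-5, .m (.v 4) (.m (.v 6) (.m (.v 1) (.v 5))))],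
  [0xac040202000100560201010001802b0104008002c0158081006001a00ac0404030000])

def j1_83 : Job := (8, [(2, .m (.m (.v 1) (.v 5)) (.m (.v 2) (.m (.v 2) (.v 6)))), (2, .m (.m (.v 2) (.v 5)) (.m (.v 2) (.m (.v 1) (.v 6)))), (1, .m (.m (.v 1) (.v 5)) (.m (.v 4) (.v 6))), (2, .m (.m (.v 2) (.v 5)) (.m (.v 3) (.v 6))), (2, .m (.m (.v 2) (.v 5)) (.m (.v 1) (.m (.v 2) (.v 6))))],
  [0x11111414040600a200244ca0a08020051])

def j1_84 : Job := (1, [(-1, .m (.m (.v 1) (.v 5)) (.m (.v 4) (.v 6))), (6, .m (.v 4) (.m (.v 5) (.m (.v 1) (.v 6)))), (10, .m (.m (.v 2) (.v 5)) (.m (.v 2) (.m (.v 1) (.v 6)))), (-2, .m (.m (.v 2) (.v 5)) (.m (.v 3) (.v 6))), (-2, .m (.m (.v 2) (.v 5)) (.m (.v 1) (.m (.v 2) (.v 6)))), (-2, .m (.m (.v 1) (.v 5)) (.m (.v 2) (.m (.v 2) (.v 6))))],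
  [0x1ea206c020203004ff5103601020180277a901b008100c0147d440d8041006009a00225ec2a0e02020052])

def j1_85 : Job := (6, [(1, .m (.m (.v 1) (.v 5)) (.m (.v 4) (.v 6))), (-1, .m (.v 4) (.m (.v 5) (.m (.v 1) (.v 6)))), (2, .m (.m (.v 2) (.v 5)) (.m (.v 3) (.v 6))), (2, .m (.m (.v 2) (.v 5)) (.m (.v 1) (.m (.v 2) (.v 6)))), (2, .m (.m (.v 1) (.v 5)) (.m (.v 2) (.m (.v 2) (.v 6))))],
  [0x158081404000200ac0402030000])

def j1_86 : Job := (1, [(4, .m (.m (.v 3) (.v 6)) (.m (.v 1) (.m (.v 1) (.v 5)))), (4, .m (.m (.v 3) (.v 5)) (.m (.v 1) (.m (.v 1) (.v 6)))), (4, .m (.v 4) (.m (.v 5) (.m (.v 1) (.v 6)))), (2, .m (.m (.v 2) (.v 5)) (.m (.v 3) (.v 6))), (4, .m (.v 4) (.m (.v 6) (.m (.v 1) (.v 5)))), (2, .m (.m (.v 2) (.v 6)) (.m (.v 3) (.v 5)))],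
  [0x3d940c100600900022ac60a02020054])

def j1_87 : Job := (1, [(4, .m (.m (.v 3) (.v 6)) (.m (.v 1) (.m (.v 1) (.v 5)))), (4, .m (.v 4) (.m (.v 5) (.m (.v 1) (.v 6)))), (2, .m (.m (.v 2) (.v 5)) (.m (.v 3) (.v 6))), (4, .m (.v 4) (.m (.v 6) (.m (.v 1) (.v 5)))), (1, .m (.m (.v 1) (.v 5)) (.m (.v 4) (.v 6))), (-10, .m (.m (.v 1) (.v 5)) (.m (.v 2) (.m (.v 2) (.v 6)))), (-2, .m (.v 3) (.m (.v 5) (.m (.v 2) (.v 6))))],
  [0x158080406001c00ac0402020000])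

def j1_88 : Job := (1, [(2, .m (.v 2) (.m (.v 3) (.m (.v 5) (.v 6)))), (2, .m (.v 2) (.m (.v 5) (.m (.v 3) (.v 6)))), (2, .m (.m (.v 1) (.v 6)) (.m (.v 4) (.v 5))), (2, .m (.v 2) (.m (.v 6) (.m (.v 3) (.v 5)))), (2, .m (.m (.v 1) (.v 6)) (.m (.v 1) (.m (.v 3) (.v 5)))), (2, .m (.m (.v 1) (.v 5)) (.m (.v 4) (.v 6))), (2, .m (.m (.v 1) (.v 5)) (.m (.v 1) (.m (.v 3) (.v 6)))), (2, .m (.v 4) (.m (.v 5) (.m (.v 1) (.v 6)))), (2, .m (.v 4) (.m (.v 6) (.m (.v 1) (.v 5))))],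
  [0xf510360102018028fb081a808100c014403d940c080600940026ac20a02020056])

def j1_89 : Job := (4, [(1, .m (.v 2) (.m (.v 3) (.m (.v 5) (.v 6)))), (1, .m (.v 2) (.m (.v 5) (.m (.v 3) (.v 6)))), (1, .m (.v 2) (.m (.v 6) (.m (.v 3) (.v 5)))), (2, .m (.v 4) (.m (.v 5) (.m (.v 1) (.v 6)))), (2, .m (.v 4) (.m (.v 6) (.m (.v 1) (.v 5))))],
  [0x560201010000802b010100c003c0158080406002800ac0404020000])

def j1_90 : Job := (1, [(8, .m (.v 4) (.m (.v 6) (.m (.v 1) (.v 5)))), (8, .m (.m (.v 3) (.v 6)) (.m (.v 1) (.m (.v 1) (.v 5)))), (1, .m (.v 1) (.m (.v 2) (.m (.v 5) (.m (.v 2) (.v 6))))), (1, .m (.v 1) (.m (.v 2) (.m (.v 6) (.m (.v 2) (.v 5))))), (2, .m (.v 1) (.m (.v 3) (.m (.v 5) (.m (.v 1) (.v 6))))), (-2, .m (.v 1) (.m (.m (.v 1) (.v 5)) (.m (.v 3) (.v 6)))), (-10, .m (.v 3) (.m (.m (.v 1) (.v 5)) (.m (.v 1) (.v 6)))), (2, .m (.v 3) (.m (.v 5) (.m (.v 1) (.m (.v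 1) (.v 6))))), (1, .m (.v 3) (.m (.v 5) (.m (.v 2) (.v 6)))), (1, .m (.v 3) (.m (.v 6) (.m (.v 2) (.v 5)))), (-2, .m (.m (.v 1) (.v 5)) (.m (.v 1) (.m (.v 3) (.v 6)))), (-2, .m (.m (.v 1) (.v 5)) (.m (.v 4) (.v 6)))],
  [0x3d440d804080400a7ec206a021003005300f650301018028807b28181808014040558080404003ec204a020402005300f650304010026807fb28828100c014c03fd85414080600a6602ac0402020046160250102010029b00fa88181008014d805404080400980026dea20c04020059])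

def j1_91 : Job := (1, [(5, .m (.v 4) (.m (.v 6) (.m (.v 1) (.v 5)))), (4, .m (.v 1) (.m (.v 3) (.m (.v 5) (.m (.v 1) (.v 6))))), (-4, .m (.v 1) (.m (.m (.v 1) (.v 5)) (.m (.v 3) (.v 6)))), (-20, .m (.v 3) (.m (.m (.v 1) (.v 5)) (.m (.v 1) (.v 6)))), (2, .m (.v 3) (.m (.v 6) (.m (.v 2) (.v 5)))), (-11, .m (.v 4) (.m (.v 5) (.m (.v 1) (.v 6)))), (-8, .m (.m (.v 2) (.v 5)) (.m (.v 3) (.v 6))), (-4, .m (.m (.v 1) (.v 5)) (.m (.v 4) (.v 6))), (40, .m (.m (.v 1) (.v 5)) (.m (.v 2) (.m (.v 2) (.v 6)))), (8, .m (.v 3) (.m (.v 5) (.m (.v 2) (.v 6))))],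
  [0xac040803000300560201018005002b010080c00340158080404002c00ac0404020000])

def j1_92 : Job := (1, [(4, .m (.v 2) (.m (.v 6) (.m (.v 3) (.v 5)))), (8, .m (.m (.v 1) (.v 6)) (.m (.v 1) (.m (.v 3) (.v 5)))), (-8, .m (.v 1) (.m (.m (.v 1) (.v 5)) (.m (.v 3) (.v 6)))), (-10, .m (.v 1) (.m (.m (.v 1) (.v 6)) (.m (.v 3) (.v 5)))), (4, .m (.v 2) (.m (.v 3) (.m (.v 5) (.v 6)))), (2, .m (.v 1) (.m (.v 1) (.m (.v 5) (.m (.v 3) (.v 6))))), (2, .m (.v 1) (.m (.v 5) (.m (.v 1) (.m (.v 3) (.v 6))))), (2, .m (.v 1) (.m (.v 5) (.m (.v 4) (.v 6)))), (2, .m (.v 1) (.m (.v 6) (.m (.v 4) (.v 5)))), (-1, .m (.v 1) (.m (.v 2) (.m (.v 5) (.m (.v 2) (.v 6))))), (-1, .m (.v 1) (.m (.v 2) (.m (.v 6) (.m (.v 2) (.v 5))))), (-5, .m (.v 6) (.m (.v 2) (.m (.v 3) (.v 5)))), (-2, .m (.m (.v 3) (.v 5)) (.m (.v 1) (.m (.v 1) (.v 6)))), (-1, .m (.m (.v 2) (.v 6)) (.m (.v 3) (.v 5)))],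
  [0x3d940c140400a401eca060403005400f650301010029880ab01008080069805404080400a80022dea60c0202005b])

def j1_93 : Job := (30, [(-1, .m (.v 4) (.m (.v 5) (.m (.v 1) (.v 6)))), (-1, .m (.v 4) (.m (.v 6) (.m (.v 1) (.v 5)))), (4, .m (.v 3) (.m (.m (.v 1) (.v 5)) (.m (.v 1) (.v 6))))],
  [0xac040a03000100560212018001802b010500800140158080404001800ac040a03000f0056020a010008002b010200800480158082006002600ac04020200140056020401800c002b010500800640158080806003400ac0404020000])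

def j1_94 : Job := (1, [(-96, .m (.v 2) (.m (.v 3) (.m (.v 5) (.v 6)))), (24, .m (.v 2) (.m (.v 1) (.m (.v 5) (.m (.v 2) (.v 6))))), (24, .m (.v 2) (.m (.v 1) (.m (.v 6) (.m (.v 2) (.v 5))))), (24, .m (.v 2) (.m (.v 6) (.m (.v 3) (.v 5)))), (24, .m (.v 2) (.m (.v 6) (.m (.v 1) (.m (.v 2) (.v 5))))), (-96, .m (.v 2) (.m (.m (.v 1) (.v 5)) (.m (.v 2) (.v 6)))), (-96, .m (.v 2) (.m (.m (.v 1) (.v 6)) (.m (.v 2) (.v 5)))), (24, .m (.v 2) (.m (.v 5) (.m (.v 3) (.v 6)))), (24, .m (.v 2) (.m (.v 5) (.m (.v 1) (.m (.v 2) (.v 6))))), (-3, .m (.v 1) (.m (.v 6) (.m (.v 4) (.v 5)))), (-3, .m (.v 1) (.m (.v 5) (.m (.v 4) (.v 6)))), (-12, .m (.v 3) (.m (.m (.v 1) (.v 5)) (.m (.v 1) (.v 6))))],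
  [0x40558080c04004401eca061802005610156020c018014880ab01018080074440958083004008001eca063c03005500f65031201002a080ab010180800ac80558086006008000223fec3ea2140802005d])

def j1_95 : Job := (3, [(-40, .m (.v 2) (.m (.v 3) (.m (.v 5) (.v 6)))), (8, .m (.v 2) (.m (.v 1) (.m (.v 6) (.m (.v 2) (.v 5))))), (8, .m (.v 2) (.m (.v 6) (.m (.v 1) (.m (.v 2) (.v 5))))), (-40, .m (.v 2) (.m (.m (.v 1) (.v 5)) (.m (.v 2) (.v 6)))), (-32, .m (.v 2) (.m (.m (.v 1) (.v 6)) (.m (.v 2) (.v 5)))), (-1, .m (.v 1) (.m (.v 6) (.m (.v 4) (.v 5)))), (-1, .m (.v 1) (.m (.v 5) (.m (.v 4) (.v 6)))), (8, .m (.v 3) (.m (.v 5) (.m (.v 2) (.v 6)))), (-17, .m (.v 4) (.m (.v 5) (.m (.v 1) (.v 6)))), (-17, .m (.v 4) (.m (.v 6) (.m (.v 1) (.v 5))))],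
  [0x560203010000802b010c00c00140158086006003000ac0402020000])

def j1_96 : Job := (2, [(4, .m (.v 2) (.m (.v 6) (.m (.v 1) (.m (.v 2) (.v 5))))), (16, .m (.m (.v 1) (.v 6)) (.m (.v 2) (.m (.v 2) (.v 5)))), (-10, .m (.m (.v 1) (.v 6)) (.m (.v 4) (.v 5))), (-8, .m (.m (.v 1) (.v 6)) (.m (.v 1) (.m (.v 3) (.v 5)))), (4, .m (.v 2) (.m (.v 1) (.m (.v 6) (.m (.v 2) (.v 5))))), (5, .m (.v 1) (.m (.v 2) (.m (.v 5) (.m (.v 2) (.v 6))))), (-1, .m (.v 1) (.m (.v 5) (.m (.v 2) (.m (.v 2) (.v 6))))), (8, .m (.v 1) (.m (.v 3) (.m (.v 5) (.m (.v 1) (.v 6))))), (-2, .m (.v 1) (.m (.v 1) (.m (.m (.v 1) (.v 5)) (.m (.v 2) (.v 6))))), (10, .m (.v 1) (.m (.m (.v 1) (.v 6)) (.m (.v 3) (.v 5)))), (-4, .m (.v 2) (.m (.v 3) (.m (.v 5) (.v 6)))), (5, .m (.v 6) (.m (.v 2) (.m (.v 3) (.v 5))))],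
  [0xdea4080402004af61035010401802e080ab010080800bc03fd49814080600ba202ac0402020024101560204010020007b28183008015803d940c100400b001eca061403005710156020201800f3081280808080171805404200400aec02a020a0300566015010401802c0b01280808080171805404080400aa0022dfea42100402005f])

def j1_97 : Job := (32, [(1, .m (.m (.v 1) (.v 6)) (.m (.v 2) (.m (.v 2) (.v 5)))), (1, .m (.v 2) (.m (.v 3) (.m (.v 5) (.v 6)))), (1, .m (.m (.v 1) (.v 5)) (.m (.v 2) (.m (.v 2) (.v 6)))), (1, .m (.v 2) (.m (.m (.v 1) (.v 5)) (.m (.v 2) (.v 6)))), (1, .m (.v 2) (.m (.m (.v 1) (.v 6)) (.m (.v 2) (.v 5))))],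
  [0xac04020300010056021e010001802b010280800140158082804000e00ac041203000900560201018007002b010080800480158081404002600ac04140300140056020101000b002b0104008005c0158082806003a00ac0404020000])

def j1_98 : Job := (1, [(8, .m (.v 2) (.m (.m (.v 1) (.v 5)) (.m (.v 2) (.v 6)))), (-8, .m (.v 3) (.m (.v 5) (.m (.v 2) (.v 6)))), (-8, .m (.m (.v 2) (.v 5)) (.m (.v 1) (.m (.v 2) (.v 6)))), (-4, .m (.v 1) (.m (.v 1) (.m (.m (.v 1) (.v 5)) (.m (.v 2) (.v 6))))), (4, .m (.v 1) (.m (.m (.v 1) (.v 5)) (.m (.v 3) (.v 6)))), (-8, .m (.v 1) (.m (.v 3) (.m (.v 5) (.m (.v 1) (.v 6))))), (2, .m (.v 1) (.m (.m (.v 2) (.v 5)) (.m (.v 2) (.v 6)))), (-2, .m (.v 1) (.m (.v 2) (.m (.v 5) (.m (.v 2) (.v 6))))), (-2, .m (.v 1) (.m (.v 2) (.m (.v 6) (.m (.v 2) (.v 5))))), (-10, .m (.m (.v 1) (.v 5)) (.m (.v 2) (.m (.v 2) (.v 6)))), (5, .m (.m (.v 1) (.v 5)) (.m (.v 4) (.v 6))), (4, .m (.m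 (.v 1) (.v 5)) (.m (.v 1) (.m (.v 3) (.v 6)))), (-10, .m (.m (.v 2) (.v 6)) (.m (.v 2) (.m (.v 1) (.v 5)))), (2, .m (.m (.v 2) (.v 6)) (.m (.v 3) (.v 5))), (2, .m (.m (.v 2) (.v 6)) (.m (.v 1) (.m (.v 2) (.v 5))))],
  [0xbec4081003004cf51036010101002f7b101a8081008017c40558080806004e202ca040202003100f65030201002c807b2818580c01604055808080400480023ea3ec41004020061])

def j1_99 : Job := (1, [(-8, .m (.v 2) (.m (.m (.v 1) (.v 5)) (.m (.v 2) (.v 6)))), (-10, .m (.v 3) (.m (.v 5) (.m (.v 2) (.v 6)))), (4, .m (.v 1) (.m (.v 1) (.m (.m (.v 1) (.v 5)) (.m (.v 2) (.v 6))))), (4, .m (.v 1) (.m (.m (.v 1) (.v 5)) (.m (.v 3) (.v 6)))), (-2, .m (.v 1) (.m (.m (.v 2) (.v 5)) (.m (.v 2) (.v 6)))), (10, .m (.m (.v 2) (.v 6)) (.m (.v 2) (.m (.v 1) (.v 5)))), (-2, .m (.m (.v 2) (.v 6)) (.m (.v 3) (.v 5))), (-2, .m (.m (.v 2) (.v 6)) (.m (.v 1) (.m (.v 2) (.v 5)))), (5, .m (.v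 4) (.m (.v 6) (.m (.v 1) (.v 5)))), (41, .m (.v 4) (.m (.v 5) (.m (.v 1) (.v 6)))), (4, .m (.m (.v 1) (.v 5)) (.m (.v 4) (.v 6))), (8, .m (.m (.v 2) (.v 5)) (.m (.v 3) (.v 6))), (-88, .m (.m (.v 1) (.v 5)) (.m (.v 2) (.m (.v 2) (.v 6)))), (-4, .m (.v 3) (.m (.v 6) (.m (.v 2) (.v 5))))],
  [0x158082806000a00ac040403000700560204018006802b010080c00480158080404003c00ac0402030000])

def j1_100 : Job := (1, [(8, .m (.v 2) (.m (.m (.v 1) (.v 6)) (.m (.v 2) (.v 5)))), (-8, .m (.v 3) (.m (.v 6) (.m (.v 2) (.v 5)))), (-8, .m (.m (.v 2) (.v 6)) (.m (.v 1) (.m (.v 2) (.v 5)))), (8, .m (.v 2) (.m (.v 3) (.m (.v 5) (.v 6)))), (4, .m (.v 1) (.m (.v 1) (.m (.m (.v 1) (.v 5)) (.m (.v 2) (.v 6))))), (10, .m (.v 1) (.m (.m (.v 2) (.v 5)) (.m (.v 2) (.v 6)))), (-1, .m (.v 1) (.m (.v 6) (.m (.v 4) (.v 5)))), (-1, .m (.v 1) (.m (.v 5) (.m (.v 4) (.v 6)))), (4, .m (.v 1) (.m (.m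 (.v 1) (.v 6)) (.m (.v 3) (.v 5)))), (8, .m (.v 1) (.m (.v 3) (.m (.v 5) (.m (.v 1) (.v 6))))), (-10, .m (.m (.v 1) (.v 6)) (.m (.v 2) (.m (.v 2) (.v 5)))), (5, .m (.m (.v 1) (.v 6)) (.m (.v 4) (.v 5))), (4, .m (.m (.v 1) (.v 6)) (.m (.v 1) (.m (.v 3) (.v 5)))), (-10, .m (.m (.v 2) (.v 5)) (.m (.v 2) (.m (.v 1) (.v 6)))), (2, .m (.m (.v 2) (.v 5)) (.m (.v 3) (.v 6))), (2, .m (.m (.v 2) (.v 5)) (.m (.v 1) (.m (.v 2) (.v 6))))],
  [0x1bd48102006009dec206a0202020060f520360102010030880ab010080800cc405580808040052202ca040402002600f65030401802e007b2818200c016840558080404005e0023ec3ea41004020063])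

def j1_101 : Job := (1, [(72, .m (.v 2) (.m (.m (.v 1) (.v 6)) (.m (.v 2) (.v 5)))), (-24, .m (.v 3) (.m (.v 6) (.m (.v 2) (.v 5)))), (-24, .m (.m (.v 2) (.v 6)) (.m (.v 1) (.m (.v 2) (.v 5)))), (72, .m (.v 2) (.m (.v 3) (.m (.v 5) (.v 6)))), (48, .m (.v 1) (.m (.m (.v 2) (.v 5)) (.m (.v 2) (.v 6)))), (-3, .m (.v 1) (.m (.v 6) (.m (.v 4) (.v 5)))), (-3, .m (.v 1) (.m (.v 5) (.m (.v 4) (.v 6)))), (12, .m (.m (.v 1) (.v 5)) (.m (.v 4) (.v 6))), (-15, .m (.v 4) (.m (.v 5) (.m (.v 1) (.v 6)))), (-23, .m (.v 4) (.m (.v 6) (.m (.v 1) (.v 5)))), (-24, .m (.m (.v 2) (.v 6)) (.m (.v 3) (.v 5))), (24, .m (.m (.v 1) (.v 5)) (.m (.v 2) (.m (.v 2) (.v 6)))), (-24, .m (.v 3) (.m (.v 5) (.m (.v 2) (.v 6)))), (72, .m (.v 2) (.m (.m (.v 1) (.v 5)) (.m (.v 2) (.v 6)))), (-40, .m (.m (.v 2) (.v 6)) (.m (.v 2) (.m (.v 1) (.v 5))))],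
  [0x2b010200c0004015808a004000600ac042003000700560204018004802b010c00c003c0158085004002200ac04080200170056020801800c002b010080c00680158082006003600ac0408020000])

def j1_102 : Job := (1, [(8, .m (.v 3) (.m (.v 6) (.m (.v 2) (.v 5)))), (8, .m (.m (.v 1) (.v 6)) (.m (.v 2) (.m (.v 2) (.v 5)))), (8, .m (.m (.v 2) (.v 6)) (.m (.v 1) (.m (.v 2) (.v 5)))), (-10, .m (.v 1) (.m (.m (.v 2) (.v 5)) (.m (.v 2) (.v 6)))), (2, .m (.v 1) (.m (.v 2) (.m (.v 5) (.m (.v 2) (.v 6))))), (2, .m (.v 1) (.m (.v 5) (.m (.v 2) (.m (.v 2) (.v 6))))), (1, .m (.v 1) (.m (.v 5) (.m (.v 4) (.v 6)))), (1, .m (.v 1) (.m (.v 6) (.m (.v 4) (.v 5)))), (-2, .m (.v 2) (.m (.v 1) (.m (.v 6) (.m (.v 2) (.v 5))))), (-2, .m (.v 2) (.m (.v 6) (.m (.v 1) (.m (.v 2) (.v 5))))), (-2, .m (.v 2) (.m (.m (.v 1) (.v 6)) (.m (.v 2) (.v 5)))), (2, .m (.v 6) (.m (.v 2) (.m (.v 3) (.v 5)))), (-2, .m (.m (.v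 2) (.v 5)) (.m (.v 1) (.m (.v 2) (.v 6)))), (-2, .m (.m (.v 2) (.v 5)) (.m (.v 2) (.m (.v 1) (.v 6)))), (-2, .m (.m (.v 2) (.v 5)) (.m (.v 3) (.v 6)))],
  [0x7b28182008017003d940c080600ba202ac04020200466015010201002eb00a8081008016d805404080400b20024dea40c04020065])

def j1_103 : Job := (192, [(-1, .m (.v 2) (.m (.v 3) (.m (.v 5) (.v 6)))), (1, .m (.v 2) (.m (.v 2) (.m (.v 5) (.m (.v 1) (.v 6))))), (-1, .m (.m (.v 1) (.v 5)) (.m (.v 2) (.m (.v 2) (.v 6)))), (-1, .m (.v 2) (.m (.m (.v 1) (.v 5)) (.m (.v 2) (.v 6))))],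
  [0x560205010000802b010a008000c01580a8006000a00ac040a020007005602c8010004802b0114008002c015808a004001a00ac04280200130056020401800a002b010a00c0060015808a006004600ac0428020000])

def j1_104 : Job := (1, [(4, .m (.v 3) (.m (.v 5) (.m (.v 2) (.v 6)))), (4, .m (.m (.v 1) (.v 5)) (.m (.v 2) (.m (.v 2) (.v 6)))), (4, .m (.m (.v 2) (.v 5)) (.m (.v 1) (.m (.v 2) (.v 6)))), (-1, .m (.v 1) (.m (.v 2) (.m (.v 5) (.m (.v 2) (.v 6))))), (-1, .m (.v 1) (.m (.v 5) (.m (.v 2) (.m (.v 2) (.v 6))))), (-1, .m (.v 1) (.m (.m (.v 2) (.v 5)) (.m (.v 2) (.v 6)))), (-1, .m (.v 2) (.m (.v 1) (.m (.v 5) (.m (.v 2) (.v 6))))), (-1, .m (.v 2) (.m (.v 5) (.m (.v 1) (.m (.v 2) (.v 6))))), (-1, .m (.v 2) (.m (.m (.v 1) (.v 5)) (.m (.v 2) (.v 6)))), (1, .m (.v 5) (.m (.v 2) (.m (.v 3) (.v 6)))), (-1, .m (.m (.v 2) (.v 6)) (.m (.v 1) (.m (.v 2) (.v 5)))), (-1, .m (.m (.v 2) (.v 6)) (.m (.v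 2) (.m (.v 1) (.v 5)))), (-1, .m (.m (.v 2) (.v 6)) (.m (.v 3) (.v 5)))],
  [0x5016010101002fa80b00808080175405804040400b60024bec40c02020067])

def j1_105 : Job := (30, [(2, .m (.m (.v 2) (.v 6)) (.m (.v 2) (.m (.v 1) (.v 5)))), (1, .m (.v 4) (.m (.v 6) (.m (.v 1) (.v 5))))],
  [0xac046003000100560205010002802b0119008002c0158082804001a00ac04280200130056020101800b002b010280c00680158082806004400ac0414030000])

def j1_106 : Job := (1, [(4, .m (.v 4) (.m (.v 5) (.m (.v 1) (.v 6)))), (8, .m (.m (.v 2) (.v 5)) (.m (.v 2) (.m (.v 1) (.v 6)))), (-2, .m (.v 2) (.m (.v 2) (.m (.v 5) (.m (.v 1) (.v 6))))), (-2, .m (.v 2) (.m (.v 5) (.m (.v 2) (.m (.v 1) (.v 6))))), (-2, .m (.v 2) (.m (.m (.v 1) (.v 6)) (.m (.v 2) (.v 5)))), (-2, .m (.m (.v 1) (.v 6)) (.m (.v 2) (.m (.v 2) (.v 5)))), (-1, .m (.m (.v 1) (.v 6)) (.m (.v 4) (.v 5)))],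
  [0x280b00810080179405804040400b80044bec20c02020069])

def j1_107 : Job := (1, [(1, .m (.v 4) (.m (.v 5) (.m (.v 1) (.v 6)))), (8, .m (.v 2) (.m (.v 5) (.m (.v 2) (.m (.v 1) (.v 6))))), (-4, .m (.m (.v 1) (.v 5)) (.m (.v 4) (.v 6))), (1, .m (.v 1) (.m (.v 5) (.m (.v 4) (.v 6)))), (1, .m (.v 1) (.m (.v 6) (.m (.v 4) (.v 5)))), (1, .m (.v 4) (.m (.v 6) (.m (.v 1) (.v 5))))],
  [0x158082006000600ac04100300090056021001800a802b0108008005c0158080406004000ac0408030000])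

def j1_108 : Job := (1, [(2, .m (.m (.v 2) (.v 6)) (.m (.v 2) (.m (.v 1) (.v 5)))), (2, .m (.m (.v 2) (.v 5)) (.m (.v 2) (.m (.v 1) (.v 6)))), (2, .m (.v 3) (.m (.v 5) (.m (.v 2) (.v 6)))), (2, .m (.m (.v 2) (.v 6)) (.m (.v 3) (.v 5))), (2, .m (.v 3) (.m (.v 6) (.m (.v 2) (.v 5)))), (2, .m (.m (.v 2) (.v 6)) (.m (.v 1) (.m (.v 2) (.v 5)))), (2, .m (.m (.v 2) (.v 5)) (.m (.v 3) (.v 6))), (2, .m (.m (.v 2) (.v 5)) (.m (.v 1) (.m (.v 2) (.v 6)))), (2, .m (.v 4) (.m (.v 5) (.m (.v 1) (.v 6)))), (2, .m (.v 4) (.m (.v 6) (.m (.v 1) (.v 5))))],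
  [0x7b2818100c017c03d940c080600bc0024ac40a0202006a])

def j1_109 : Job := (1, [(2, .m (.v 3) (.m (.v 5) (.m (.v 2) (.v 6)))), (2, .m (.m (.v 2) (.v 6)) (.m (.v 3) (.v 5))), (2, .m (.v 3) (.m (.v 6) (.m (.v 2) (.v 5)))), (2, .m (.m (.v 2) (.v 6)) (.m (.v 1) (.m (.v 2) (.v 5)))), (2, .m (.v 4) (.m (.v 5) (.m (.v 1) (.v 6)))), (1, .m (.v 4) (.m (.v 6) (.m (.v 1) (.v 5)))), (-2, .m (.m (.v 1) (.v 5)) (.m (.v 2) (.m (.v 2) (.v 6)))), (-1, .m (.m (.v 1) (.v 5)) (.m (.v 4) (.v 6)))],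
  [0x2b010080c000c0158080406003200ac0402020000])

def j1_110 : Job := (1, [(6, .m (.v 2) (.m (.v 5) (.m (.v 2) (.m (.v 1) (.v 6))))), (-4, .m (.m (.v 1) (.v 5)) (.m (.v 4) (.v 6))), (1, .m (.v 1) (.m (.v 6) (.m (.v 4) (.v 5)))), (1, .m (.v 1) (.m (.v 5) (.m (.v 4) (.v 6)))), (-2, .m (.v 2) (.m (.v 2) (.m (.v 5) (.m (.v 1) (.v 6))))), (-2, .m (.v 2) (.m (.m (.v 1) (.v 6)) (.m (.v 2) (.v 5)))), (-4, .m (.v 3) (.m (.v 5) (.m (.v 1) (.m (.v 1) (.v 6))))), (6, .m (.v 4) (.m (.v 5) (.m (.v 1) (.v 6))))],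
  [0x17d841008040061ea206c020803006900f650301018032080b2810080800fc40558080404006aa204c0202020069501601010180320a813008080801a5405804080400c40022bfec24100402006d])

def j1_111 : Job := (1, [(-1, .m (.v 1) (.m (.v 6) (.m (.v 4) (.v 5)))), (-1, .m (.v 1) (.m (.v 5) (.m (.v 4) (.v 6)))), (8, .m (.v 2) (.m (.m (.v 1) (.v 6)) (.m (.v 2) (.v 5)))), (-21, .m (.v 4) (.m (.v 5) (.m (.v 1) (.v 6)))), (48, .m (.m (.v 1) (.v 5)) (.m (.v 2) (.m (.v 2) (.v 6)))), (8, .m (.v 2) (.m (.v 3) (.m (.v 5) (.v 6)))), (8, .m (.v 2) (.m (.m (.v 1) (.v 5)) (.m (.v 2) (.v 6)))), (3, .m (.v 4) (.m (.v 6) (.m (.v 1) (.v 5))))],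
  [0x560203010001802b010400c001c0158081006004200ac0408030000])

def j1_112 : Job := (1, [(-4, .m (.v 3) (.m (.v 5) (.m (.v 2) (.v 6)))), (-2, .m (.m (.v 2) (.v 5)) (.m (.v 1) (.m (.v 2) (.v 6)))), (10, .m (.v 2) (.m (.v 3) (.m (.v 5) (.v 6)))), (10, .m (.v 2) (.m (.m (.v 1) (.v 5)) (.m (.v 2) (.v 6)))), (10, .m (.v 2) (.m (.m (.v 1) (.v 6)) (.m (.v 2) (.v 5)))), (-2, .m (.v 2) (.m (.v 1) (.m (.v 5) (.m (.v 2) (.v 6))))), (-2, .m (.v 2) (.m (.v 1) (.m (.v 6) (.m (.v 2) (.v 5))))), (-2, .m (.v 2) (.m (.v 5) (.m (.v 1) (.m (.v 2) (.v 6))))), (-2, .m (.v 2) (.m (.v 5) (.m (.v 3) (.v 6)))), (-2, .m (.v 2) (.m (.v 6) (.m (.v 1) (.m (.v 2) (.v 5))))), (-2, .m (.v 2) (.m (.v 6) (.m (.v 3) (.v 5)))), (16, .m (.v 3) (.m (.m (.v 1) (.v 5)) (.m (.v 1) (.v 6)))), (-2, .m (.v 3) (.m (.v 6) (.m (.v 2) (.v 5)))), (-2, .m (.m (.v 2) (.v 5)) (.m (.v 2) (.m (.v 1) (.v 6)))),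 (-6, .m (.v 4) (.m (.v 5) (.m (.v 1) (.v 6)))), (4, .m (.m (.v 3) (.v 6)) (.m (.v 1) (.m (.v 1) (.v 5))))],
  [0xbec4080403005a005f610402018019007b2818100801908055808080600b001eca060402006520156020201802b007b2818400c018c03fd94414100400d201fec2a0a0802006900ff5160504010034980ab010100c017001bd44100806006400224dea20e0202006e])

def j1_113 : Job := (4, [(2, .m (.v 3) (.m (.v 5) (.m (.v 2) (.v 6)))), (2, .m (.v 3) (.m (.v 6) (.m (.v 2) (.v 5)))), (1, .m (.v 4) (.m (.v 5) (.m (.v 1) (.v 6)))), (1, .m (.v 4) (.m (.v 6) (.m (.v 1) (.v 5))))],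
  [0x560201010000802b010080c00440158084004002600ac04100300170056020401000c802b010200c00740158082006005400ac0408030000])

def j1_114 : Job := (1, [(4, .m (.m (.v 1) (.v 6)) (.m (.v 2) (.m (.v 2) (.v 5)))), (4, .m (.m (.v 1) (.v 5)) (.m (.v 2) (.m (.v 2) (.v 6)))), (4, .m (.v 3) (.m (.v 5) (.m (.v 2) (.v 6)))), (2, .m (.m (.v 1) (.v 6)) (.m (.v 4) (.v 5))), (4, .m (.v 3) (.m (.v 6) (.m (.v 2) (.v 5)))), (2, .m (.m (.v 1) (.v 5)) (.m (.v 4) (.v 6)))],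
  [0x3d940c100600ca0044ac20a02020070])

def j1_115 : Job := (1, [(-1, .m (.v 1) (.m (.v 5) (.m (.v 4) (.v 6)))), (-1, .m (.v 1) (.m (.v 6) (.m (.v 4) (.v 5)))), (3, .m (.v 4) (.m (.v 5) (.m (.v 1) (.v 6)))), (3, .m (.v 4) (.m (.v 6) (.m (.v 1) (.v 5)))), (8, .m (.v 2) (.m (.v 3) (.m (.v 5) (.v 6)))), (8, .m (.v 2) (.m (.m (.v 1) (.v 5)) (.m (.v 2) (.v 6)))), (8, .m (.v 2) (.m (.m (.v 1) (.v 6)) (.m (.v 2) (.v 5))))],
  [0x560204010000802b010400800440158080404005000ac0404030000])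

def j1_116 : Job := (1, [(30, .m (.m (.v 1) (.v 6)) (.m (.v 2) (.m (.v 2) (.v 5)))), (-15, .m (.m (.v 1) (.v 6)) (.m (.v 4) (.v 5))), (-12, .m (.m (.v 1) (.v 6)) (.m (.v 1) (.m (.v 3) (.v 5)))), (6, .m (.v 3) (.m (.v 6) (.m (.v 2) (.v 5))))],
  [0x3d840d4040c0600e000223ea4c0e02020072])

def j1_117 : Job := (24, [(-1, .m (.v 1) (.m (.v 5) (.m (.v 4) (.v 6)))), (-1, .m (.v 1) (.m (.v 6) (.m (.v 4) (.v 5)))), (2, .m (.v 2) (.m (.v 3) (.m (.v 5) (.v 6)))), (2, .m (.v 2) (.m (.m (.v 1) (.v 5)) (.m (.v 2) (.v 6)))), (2, .m (.v 2) (.m (.m (.v 1) (.v 6)) (.m (.v 2) (.v 5))))],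
  [0x2b010a80800040158083006000600ac04f00300130056020c01800e802b010180800a80158086004005600ac0408020000])

def j1_118 : Job := (3, [(1, .m (.v 1) (.m (.v 5) (.m (.v 4) (.v 6)))), (1, .m (.v 1) (.m (.v 6) (.m (.v 4) (.v 5)))), (1, .m (.v 4) (.m (.v 5) (.m (.v 1) (.v 6)))), (1, .m (.v 4) (.m (.v 6) (.m (.v 1) (.v 5))))],
  [0x158081006000000ac0402020002])

def j1_119 : Job := (1, [(2, .m (.v 3) (.m (.v 5) (.m (.v 2) (.v 6)))), (2, .m (.v 3) (.m (.v 6) (.m (.v 2) (.v 5)))), (-1, .m (.v 1) (.m (.v 5) (.m (.v 4) (.v 6)))), (-1, .m (.v 1) (.m (.v 6) (.m (.v 4) (.v 5))))],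
  [0x158080406000000ac0402020005])

def j1_120 : Job := (24, [(-1, .m (.v 4) (.m (.v 5) (.m (.v 1) (.v 6)))), (2, .m (.m (.v 1) (.v 5)) (.m (.v 2) (.m (.v 2) (.v 6))))],
  [0x2b010180c00040158081006000400ac0402020008])

def j1_121 : Job := (1, [(2, .m (.m (.v 2) (.v 6)) (.m (.v 3) (.v 5))), (2, .m (.m (.v 2) (.v 6)) (.m (.v 1) (.m (.v 2) (.v 5)))), (-1, .m (.m (.v 1) (.v 5)) (.m (.v 4) (.v 6)))],
  [0x560201010000002b010080c00080158080406000200ac040202000b])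

def j1_122 : Job := (4, [(2, .m (.v 2) (.m (.v 5) (.m (.v 2) (.m (.v 1) (.v 6))))), (-1, .m (.m (.v 1) (.v 5)) (.m (.v 4) (.v 6)))],
  [0x158080406000600ac040202000e])

def j1_123 : Job := (1, [(2, .m (.m (.v 2) (.v 6)) (.m (.v 2) (.m (.v 1) (.v 5)))), (-1, .m (.v 1) (.m (.v 5) (.m (.v 4) (.v 6)))), (-1, .m (.v 1) (.m (.v 6) (.m (.v 4) (.v 5)))), (-1, .m (.v 4) (.m (.v 5) (.m (.v 1) (.v 6))))],
  [0x158080406000800ac0402020011])

def j1_124 : Job := (1, [(-2, .m (.v 2) (.m (.v 3) (.m (.v 5) (.v 6)))), (2, .m (.v 2) (.m (.v 2) (.m (.v 5) (.m (.v 1) (.v 6))))), (-2, .m (.v 2) (.m (.m (.v 1) (.v 5)) (.m (.v 2) (.v 6)))), (-1, .m (.v 4) (.m (.v 5) (.m (.v 1) (.v 6))))],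
  [0x158080404000600ac0404020014])

def j1_125 : Job := (24, [(2, .m (.v 1) (.m (.m (.v 2) (.v 5)) (.m (.v 2) (.v 6)))), (1, .m (.v 1) (.m (.v 6) (.m (.v 4) (.v 5)))), (1, .m (.v 1) (.m (.v 5) (.m (.v 4) (.v 6))))],
  [0x2b010a00800040158083006000800ac042e0200060056020c010001802b010600800140158089006000e00ac0402020017])

def j1_126 : Job := (1, [(-8, .m (.v 2) (.m (.m (.v 1) (.v 5)) (.m (.v 2) (.v 6)))), (-6, .m (.v 3) (.m (.v 5) (.m (.v 2) (.v 6)))), (4, .m (.v 1) (.m (.v 1) (.m (.m (.v 1) (.v 5)) (.m (.v 2) (.v 6))))), (4, .m (.v 1) (.m (.m (.v 1) (.v 5)) (.m (.v 3) (.v 6)))), (-3, .m (.v 4) (.m (.v 5) (.m (.v 1) (.v 6)))), (3, .m (.m (.v 1) (.v 5)) (.m (.v 4) (.v 6))), (8, .m (.m (.v 2) (.v 5)) (.m (.v 3) (.v 6))), (-1, .m (.v 1) (.m (.v 6) (.m (.v 4) (.v 5)))), (-1, .m (.v 1) (.m (.v 5) (.m (.v 4) (.v 6))))],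
  [0x2b01010080018015808b004000a00ac040a03000700560201010002002b010280c00080158080404000000ac040202001a])

def j1_127 : Job := (1, [(2, .m (.m (.v 1) (.v 6)) (.m (.v 2) (.m (.v 2) (.v 5)))), (1, .m (.v 4) (.m (.v 5) (.m (.v 1) (.v 6)))), (1, .m (.v 1) (.m (.v 5) (.m (.v 4) (.v 6)))), (1, .m (.v 1) (.m (.v 6) (.m (.v 4) (.v 5))))],
  [0x2b010080c00240158080406000c00ac040402001d])

def j1_128 : Job := (1, [(4, .m (.v 3) (.m (.m (.v 1) (.v 5)) (.m (.v 1) (.v 6)))), (1, .m (.v 1) (.m (.v 5) (.m (.v 4) (.v 6)))), (1, .m (.v 1) (.m (.v 6) (.m (.v 4) (.v 5))))],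
  [0x158080404001200ac0402020022])

def j1_129 : Job := (1, [(4, .m (.v 1) (.m (.v 3) (.m (.v 5) (.m (.v 1) (.v 6))))), (-4, .m (.v 1) (.m (.m (.v 1) (.v 5)) (.m (.v 3) (.v 6)))), (4, .m (.v 4) (.m (.v 5) (.m (.v 1) (.v 6)))), (-8, .m (.m (.v 2) (.v 5)) (.m (.v 3) (.v 6))), (-4, .m (.m (.v 1) (.v 5)) (.m (.v 4) (.v 6))), (6, .m (.v 3) (.m (.v 5) (.m (.v 2) (.v 6)))), (1, .m (.v 1) (.m (.v 5) (.m (.v 4) (.v 6)))), (1, .m (.v 1) (.m (.v 6) (.m (.v 4) (.v 5))))],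
  [0xac042803000800560201018004802b010280800000158081406001400ac0402020025])

def j1_130 : Job := (1, [(1, .m (.v 2) (.m (.v 3) (.m (.v 5) (.v 6)))), (1, .m (.v 2) (.m (.v 5) (.m (.v 3) (.v 6)))), (1, .m (.v 2) (.m (.v 6) (.m (.v 3) (.v 5)))), (-2, .m (.v 1) (.m (.v 5) (.m (.v 4) (.v 6)))), (-2, .m (.v 1) (.m (.v 6) (.m (.v 4) (.v 5))))],
  [0x158080806001600ac0402020028])

def j1_131 : Job := (5, [(2, .m (.v 1) (.m (.v 2) (.m (.v 5) (.m (.v 2) (.v 6))))), (-2, .m (.v 5) (.m (.v 2) (.m (.v 3) (.v 6)))), (-3, .m (.v 4) (.m (.v 5) (.m (.v 1) (.v 6)))), (8, .m (.m (.v 2) (.v 5)) (.m (.v 3) (.v 6))), (4, .m (.m (.v 1) (.v 5)) (.m (.v 4) (.v 6))), (-6, .m (.v 3) (.m (.v 5) (.m (.v 2) (.v 6))))],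
  [0xac040a02000c00560204010003002b010280c00040158081006001400ac0402020030])

def j1_132 : Job := (1, [(2, .m (.v 1) (.m (.v 2) (.m (.v 6) (.m (.v 2) (.v 5))))), (5, .m (.v 1) (.m (.v 5) (.m (.v 4) (.v 6)))), (5, .m (.v 1) (.m (.v 6) (.m (.v 4) (.v 5)))), (2, .m (.v 5) (.m (.v 2) (.m (.v 3) (.v 6)))), (3, .m (.v 4) (.m (.v 5) (.m (.v 1) (.v 6)))), (-8, .m (.m (.v 2) (.v 5)) (.m (.v 3) (.v 6))), (-4, .m (.m (.v 1) (.v 5)) (.m (.v 4) (.v 6))), (6, .m (.v 3) (.m (.v 5) (.m (.v 2) (.v 6))))],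
  [0x2b010080c00000158081404001a00ac0402020033])

def j1_133 : Job := (1, [(2, .m (.v 1) (.m (.v 5) (.m (.v 2) (.m (.v 2) (.v 6))))), (1, .m (.m (.v 1) (.v 5)) (.m (.v 4) (.v 6)))],
  [0x560201018003002b010080c000c0158081004001000ac0402020036])

def j1_134 : Job := (4, [(1, .m (.m (.v 1) (.v 5)) (.m (.v 4) (.v 6))), (1, .m (.m (.v 1) (.v 6)) (.m (.v 4) (.v 5)))],
  [0x158080404001e00ac040202003b])

def j1_135 : Job := (1, [(-8, .m (.m (.v 2) (.v 5)) (.m (.v 3) (.v 6))), (-8, .m (.m (.v 2) (.v 6)) (.m (.v 3) (.v 5))), (2, .m (.v 5) (.m (.v 2) (.m (.v 3) (.v 6)))), (2, .m (.v 6) (.m (.v 2) (.m (.v 3) (.v 5)))), (5, .m (.v 1) (.m (.v 5) (.m (.v 4) (.v 6)))), (5, .m (.v 1) (.m (.v 6) (.m (.v 4) (.v 5))))],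
  [0x2b010080c003c0158080806000800ac0404020043])

def j1_136 : Job := (6, [(1, .m (.v 3) (.m (.v 5) (.m (.v 2) (.m (.v 1) (.v 6)))))],
  [0xf51036010301003f0fa8823008180c020fd440d804180600f800223fec24a1202020086])

def j1_137 : Job := (24, [(1, .m (.v 2) (.m (.v 5) (.m (.v 4) (.v 6)))), (1, .m (.v 2) (.m (.v 6) (.m (.v 4) (.v 5))))],
  [0x22222828280c021fd440d804600600ffea206c023003007bf61035011801803ffb081a808c00c01ec03d940c600600f00028ac20a18020087])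

def j1_138 : Job := (6, [(5, .m (.m (.v 1) (.v 5)) (.m (.v 2) (.m (.v 3) (.v 6)))), (1, .m (.v 3) (.m (.v 5) (.m (.v 3) (.v 6))))],
  [0x3d440d8043006010400223ec6a0e02020088])

def j1_139 : Job := (1, [(4, .m (.v 2) (.m (.v 1) (.m (.v 5) (.m (.v 3) (.v 6))))), (-2, .m (.v 3) (.m (.v 5) (.m (.v 3) (.v 6)))), (10, .m (.m (.v 1) (.v 5)) (.m (.v 2) (.m (.v 3) (.v 6)))), (4, .m (.v 2) (.m (.v 5) (.m (.v 1) (.m (.v 3) (.v 6))))), (4, .m (.v 2) (.m (.m (.v 1) (.v 5)) (.m (.v 3) (.v 6))))],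
  [0x2fb1820100c01d7d440d804100601060022bec620e02020089])

def j1_140 : Job := (4, [(1, .m (.v 2) (.m (.v 1) (.m (.v 5) (.m (.v 3) (.v 6))))), (-1, .m (.v 3) (.m (.v 5) (.m (.v 3) (.v 6)))), (1, .m (.v 2) (.m (.v 5) (.m (.v 1) (.m (.v 3) (.v 6))))), (1, .m (.v 2) (.m (.m (.v 1) (.v 5)) (.m (.v 3) (.v 6))))],
  [0x158080806000200ac0402020000])

def j1_141 : Job := (6, [(5, .m (.m (.v 1) (.v 6)) (.m (.v 2) (.m (.v 3) (.v 5)))), (1, .m (.v 3) (.m (.v 6) (.m (.v 3) (.v 5))))],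
  [0x3d840d4043006010a00223ea6c0e0202008b])

def j1_142 : Job := (24, [(2, .m (.m (.v 4) (.v 5)) (.m (.v 1) (.m (.v 1) (.v 6)))), (1, .m (.m (.v 2) (.v 6)) (.m (.v 4) (.v 5)))],
  [0x4444505050180467a881b009800c0213d440d804c006010000228ca0a1802008c])

def j1_143 : Job := (24, [(2, .m (.m (.v 4) (.v 6)) (.m (.v 1) (.m (.v 1) (.v 5)))), (1, .m (.m (.v 2) (.v 5)) (.m (.v 4) (.v 6)))],
  [0x444450505018046fb081a809800c0217d840d404c006010200228ac0a1802008d])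

def j1_144 : Job := (4, [(-2, .m (.m (.v 2) (.v 5)) (.m (.v 2) (.m (.v 2) (.v 6)))), (-1, .m (.m (.v 2) (.v 5)) (.m (.v 4) (.v 6)))],
  [0x22222828080c023bd440d80440060109ea406c020803008bf5203601080180457a881b008400c020bd480d8044006011200245ec2a0e0802008e])

def j1_145 : Job := (2, [(1, .m (.m (.v 2) (.v 5)) (.m (.v 2) (.m (.v 2) (.v 6)))), (-1, .m (.m (.v 4) (.v 6)) (.m (.v 1) (.m (.v 1) (.v 5))))],
  [0x158080406000200ac0402030000])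

def j1_146 : Job := (1, [(12, .m (.v 4) (.m (.v 5) (.m (.v 1) (.m (.v 1) (.v 6))))), (1, .m (.m (.v 2) (.v 5)) (.m (.v 4) (.v 6))), (-10, .m (.m (.v 2) (.v 5)) (.m (.v 2) (.m (.v 2) (.v 6))))],
  [0x7a881b008200802247d441180410060119ea206c0220030086f51036010401004397a8823008200c023fd480d8041006011bea406c020202008e1f520460104018047fa881fb0818400c022fd480d8040806011800225fec22a1204020090])

def j1_147 : Job := (12, [(-1, .m (.v 4) (.m (.v 5) (.m (.v 1) (.m (.v 1) (.v 6))))), (1, .m (.m (.v 4) (.v 6)) (.m (.v 1) (.m (.v 1) (.v 5))))],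
  [0x2b010500c00040158080404000600ac0402030000])

def j1_148 : Job := (4, [(-2, .m (.m (.v 2) (.v 6)) (.m (.v 2) (.m (.v 2) (.v 5)))), (-1, .m (.m (.v 2) (.v 6)) (.m (.v 4) (.v 5)))],
  [0x22222828080c024bd840d40440060111ec406a020803008ff6203501080180477b081a808400c021bd880d4044006011a00245ea2c0e08020092])

def j1_149 : Job := (2, [(1, .m (.m (.v 2) (.v 6)) (.m (.v 2) (.m (.v 2) (.v 5)))), (-1, .m (.m (.v 4) (.v 5)) (.m (.v 1) (.m (.v 1) (.v 6))))],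
  [0x158080406000c00ac0402030000])

def j1_150 : Job := (8, [(1, .m (.v 3) (.m (.v 6) (.m (.v 3) (.v 5)))), (1, .m (.m (.v 2) (.v 6)) (.m (.v 1) (.m (.v 3) (.v 5)))), (-2, .m (.m (.v 4) (.v 5)) (.m (.v 1) (.m (.v 1) (.v 6))))],
  [0x1111141404040129fea220ac022002008f006f5304080100407fb0882a8088008023fd480d8042004011e00226bec20e08030094])

def j1_151 : Job := (8, [(-5, .m (.m (.v 3) (.v 6)) (.m (.v 2) (.m (.v 1) (.v 5)))), (1, .m (.m (.v 3) (.v 5)) (.m (.v 3) (.v 6))), (1, .m (.m (.v 3) (.v 6)) (.m (.v 1) (.m (.v 2) (.v 5))))],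
  [0x111114140404012a3ec208a0220020090f6103f5103100100487b181a80840080253d840d4044004011200227ea2c0e08030095])

def j1_152 : Job := (3, [(2, .m (.m (.v 1) (.v 6)) (.m (.v 2) (.m (.v 3) (.v 5)))), (2, .m (.m (.v 3) (.v 6)) (.m (.v 2) (.m (.v 1) (.v 5)))), (2, .m (.m (.v 3) (.v 5)) (.m (.v 3) (.v 6))), (2, .m (.m (.v 3) (.v 6)) (.m (.v 1) (.m (.v 2) (.v 5)))), (2, .m (.m (.v 2) (.v 6)) (.m (.v 4) (.v 5))), (2, .m (.m (.v 2) (.v 6)) (.m (.v 1) (.m (.v 3) (.v 5))))],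
  [0x44445050101804b7b081a808300c022fd880d4041806012200246ac0a06020096])

def j1_153 : Job := (12, [(5, .m (.m (.v 3) (.v 6)) (.m (.v 2) (.m (.v 1) (.v 5)))), (-1, .m (.v 3) (.m (.v 6) (.m (.v 3) (.v 5))))],
  [0xac04140300010056020a018001002b010500c00280158080806001600ac040a020000])

def j1_154 : Job := (1, [(2, .m (.v 2) (.m (.v 3) (.m (.v 5) (.m (.v 1) (.v 6))))), (2, .m (.m (.v 4) (.v 5)) (.m (.v 1) (.m (.v 1) (.v 6)))), (2, .m (.v 2) (.m (.m (.v 1) (.v 6)) (.m (.v 3) (.v 5)))), (-1, .m (.v 3) (.m (.v 6) (.m (.v 3) (.v 5)))), (-1, .m (.m (.v 2) (.v 6)) (.m (.v 1) (.m (.v 3) (.v 5)))), (2, .m (.v 4) (.m (.v 5) (.m (.v 1) (.m (.v 1) (.v 6))))), (2, .m (.v 4) (.m (.m (.v 1) (.v 5)) (.m (.v 1) (.v 6))))],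
  [0x6f5304010180427fb0882a808100c024c7d441180408060127ea207ec20604030093f51036010201804629013008100c024c03fd85414080601180026bec220e02020098])

def j1_155 : Job := (2, [(1, .m (.v 2) (.m (.v 3) (.m (.v 5) (.m (.v 1) (.v 6))))), (1, .m (.v 2) (.m (.m (.v 1) (.v 6)) (.m (.v 3) (.v 5)))), (1, .m (.v 4) (.m (.v 5) (.m (.v 1) (.m (.v 1) (.v 6))))), (1, .m (.v 4) (.m (.m (.v 1) (.v 5)) (.m (.v 1) (.v 6))))],
  [0x158080404000800ac0402020000])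

def j1_156 : Job := (1, [(4, .m (.v 2) (.m (.v 5) (.m (.v 4) (.v 6)))), (-2, .m (.v 1) (.m (.v 1) (.m (.v 5) (.m (.v 4) (.v 6))))), (-2, .m (.v 1) (.m (.m (.v 1) (.v 5)) (.m (.v 4) (.v 6)))), (-2, .m (.m (.v 4) (.v 6)) (.m (.v 1) (.m (.v 1) (.v 5)))), (-1, .m (.m (.v 2) (.v 5)) (.m (.v 4) (.v 6)))],
  [0x1ea206c02100300925102601020100490a81300810080249405804040401160022bec80c0202009b])

def j1_157 : Job := (2, [(-2, .m (.v 2) (.m (.v 5) (.m (.v 4) (.v 6)))), (1, .m (.v 1) (.m (.v 1) (.m (.v 5) (.m (.v 4) (.v 6))))), (1, .m (.v 1) (.m (.m (.v 1) (.v 5)) (.m (.v 4) (.v 6))))],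
  [0x158080406001a00ac0402030000])

def j1_158 : Job := (1, [(-6, .m (.v 2) (.m (.v 6) (.m (.v 4) (.v 5)))), (3, .m (.v 1) (.m (.v 1) (.m (.v 6) (.m (.v 4) (.v 5))))), (-3, .m (.v 1) (.m (.m (.v 1) (.v 5)) (.m (.v 4) (.v 6)))), (-6, .m (.v 3) (.m (.v 5) (.m (.v 2) (.m (.v 1) (.v 6)))))],
  [0x1102560203010032880ab0101808008c8055808180600ca00223ffec24a140402009d])

def j1_159 : Job := (3, [(1, .m (.v 1) (.m (.v 1) (.m (.v 6) (.m (.v 4) (.v 5))))), (-1, .m (.v 1) (.m (.m (.v 1) (.v 5)) (.m (.v 4) (.v 6)))), (2, .m (.v 2) (.m (.v 5) (.m (.v 4) (.v 6))))],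
  [0x2b010300800540158081804002c00ac0402020000])

def j1_160 : Job := (4, [(8, .m (.v 2) (.m (.v 3) (.m (.v 5) (.m (.v 1) (.v 6))))), (-4, .m (.v 1) (.m (.m (.v 1) (.v 5)) (.m (.v 4) (.v 6)))), (6, .m (.v 1) (.m (.v 3) (.m (.v 5) (.m (.v 2) (.v 6))))), (1, .m (.v 1) (.m (.v 1) (.m (.v 5) (.m (.v 4) (.v 6))))), (1, .m (.v 1) (.m (.v 1) (.m (.v 6) (.m (.v 4) (.v 5))))), (-4, .m (.v 1) (.m (.v 1) (.m (.m (.v 1) (.v 5)) (.m (.v 3) (.v 6))))), (-8, .m (.v 1) (.m (.m (.v 2) (.v 5)) (.m (.v 3) (.v 6))))],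
  [0x222228280808027840558081004003c203fec2a0a2002009900fff6151071001004c807fb0a8284008024c03fd854150006012400227fec2a101002009f])

def j1_161 : Job := (2, [(-4, .m (.v 2) (.m (.v 3) (.m (.v 5) (.m (.v 1) (.v 6))))), (2, .m (.v 1) (.m (.m (.v 1) (.v 5)) (.m (.v 4) (.v 6)))), (-3, .m (.v 1) (.m (.v 3) (.m (.v 5) (.m (.v 2) (.v 6))))), (2, .m (.v 1) (.m (.v 1) (.m (.m (.v 1) (.v 5)) (.m (.v 3) (.v 6))))), (4, .m (.v 1) (.m (.m (.v 2) (.v 5)) (.m (.v 3) (.v 6))))],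
  [0x2b010080800040158080404000600ac0402030000])

def j1_162 : Job := (8, [(-2, .m (.v 2) (.m (.v 2) (.m (.v 5) (.m (.v 2) (.v 6))))), (-2, .m (.v 2) (.m (.v 2) (.m (.v 6) (.m (.v 2) (.v 5))))), (-4, .m (.v 2) (.m (.v 3) (.m (.v 5) (.m (.v 1) (.v 6))))), (-1, .m (.v 1) (.m (.v 1) (.m (.v 6) (.m (.v 4) (.v 5))))), (-1, .m (.v 1) (.m (.v 1) (.m (.v 5) (.m (.v 4) (.v 6))))), (2, .m (.v 1) (.m (.m (.v 1) (.v 5)) (.m (.v 4) (.v 6)))), (-3, .m (.v 1) (.m (.v 3) (.m (.v 5) (.m (.v 2) (.v 6))))), (2, .m (.v 1) (.m (.v 1) (.m (.m (.v 1) (.v 5)) (.m (.v 3) (.v 6))))), (4, .m (.v 1) (.m (.m (.v 2) (.v 5)) (.m (.v 3) (.v 6))))],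
  [0x1111141404040140203eca061003009910156021001800d880ab010600800a8405580810040034202ca040803001d10156020401800e880ab010200c0080407d940c600401302204ac0410020067101ff516051001004d807ffa8b08388008026c40558087004005601eca062002009200f650330018048900ab010800c019c03fd944142006012a01fec2a0a1003009500f650308010048180ab0104008022803fd458150006012800227fea2c10100200a1])

def j1_163 : Job := (2, [(1, .m (.v 2) (.m (.v 2) (.m (.v 5) (.m (.v 2) (.v 6))))), (1, .m (.v 2) (.m (.v 2) (.m (.v 6) (.m (.v 2) (.v 5)))))],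
  [0x560201010000802b010080c000c0158080406000a00ac0402030000])

def j1_164 : Job := (8, [(5, .m (.m (.v 3) (.v 5)) (.m (.v 2) (.m (.v 1) (.v 6)))), (-1, .m (.m (.v 3) (.v 5)) (.m (.v 3) (.v 6))), (-1, .m (.m (.v 3) (.v 5)) (.m (.v 1) (.m (.v 2) (.v 6))))],
  [0x11111414040601443ea208c022003009df5103f61031001804efa981b008400c0287d440d8044006012c00227ec2a0e080200a2])

def j1_165 : Job := (1, [(6, .m (.v 4) (.m (.v 6) (.m (.v 2) (.v 5)))), (10, .m (.m (.v 2) (.v 6)) (.m (.v 2) (.m (.v 2) (.v 5)))), (-5, .m (.m (.v 2) (.v 6)) (.m (.v 4) (.v 5))), (-4, .m (.m (.v 2) (.v 6)) (.m (.v 1) (.m (.v 3) (.v 5)))), (-4, .m (.m (.v 1) (.v 6)) (.m (.v 2) (.m (.v 3) (.v 5))))],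
  [0x1ec206a020803009cf61035010401804d7b101a808080c0287d840d4041006013000225ea4c0e020200a3])

def j1_166 : Job := (6, [(5, .m (.v 4) (.m (.v 6) (.m (.v 2) (.v 5)))), (4, .m (.v 3) (.m (.v 6) (.m (.v 3) (.v 5)))), (10, .m (.m (.v 4) (.v 5)) (.m (.v 1) (.m (.v 1) (.v 6))))],
  [0xac042802000f00560232018008002b010c808005c0158081004003000ac040a020000])

def j1_167 : Job := (1, [(-30, .m (.m (.v 1) (.v 5)) (.m (.v 2) (.m (.v 3) (.v 6)))), (6, .m (.v 3) (.m (.v 5) (.m (.v 1) (.m (.v 2) (.v 6)))))],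
  [0x3d440d8046006013dea206c021e02009df51036010c01004f8fa8823008180c028fd440d8041806013800223fec42a12020200a5])

def j1_168 : Job := (6, [(1, .m (.v 3) (.m (.v 5) (.m (.v 1) (.m (.v 2) (.v 6))))), (1, .m (.v 3) (.m (.v 5) (.m (.v 3) (.v 6))))],
  [0x158081804003a00ac0402020000])

def j1_169 : Job := (1, [(10, .m (.m (.v 3) (.v 5)) (.m (.v 2) (.m (.v 1) (.v 6)))), (-2, .m (.m (.v 3) (.v 5)) (.m (.v 3) (.v 6))), (-2, .m (.m (.v 3) (.v 5)) (.m (.v 1) (.m (.v 2) (.v 6)))), (4, .m (.v 4) (.m (.v 5) (.m (.v 1) (.m (.v 1) (.v 6))))), (4, .m (.v 4) (.m (.m (.v 1) (.v 5)) (.m (.v 1) (.v 6))))],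
  [0x1fea220ac02080300a2f5303601020180537a901b008100c028803fd85414100601360022bec260e020200a7])

def j1_170 : Job := (4, [(1, .m (.v 4) (.m (.v 5) (.m (.v 1) (.m (.v 1) (.v 6))))), (1, .m (.v 4) (.m (.m (.v 1) (.v 5)) (.m (.v 1) (.v 6))))],
  [0x158080806000a00ac0402020000])

def j1_171 : Job := (1, [(-2, .m (.v 3) (.m (.v 6) (.m (.v 3) (.v 5)))), (10, .m (.m (.v 1) (.v 6)) (.m (.v 2) (.m (.v 3) (.v 5)))), (16, .m (.v 2) (.m (.m (.v 1) (.v 5)) (.m (.v 3) (.v 6)))), (20, .m (.v 2) (.m (.m (.v 1) (.v 6)) (.m (.v 3) (.v 5)))), (-4, .m (.v 2) (.m (.v 1) (.m (.v 5) (.m (.v 3) (.v 6))))), (-4, .m (.v 2) (.m (.v 5) (.m (.v 1) (.m (.v 3) (.v 6))))), (-4, .m (.v 2) (.m (.v 5) (.m (.v 4) (.v 6)))), (-4, .m (.v 2) (.m (.v 6) (.m (.v 4) (.v 5)))), (2, .m (.v 2) (.m (.v 2) (.m (.v 5) (.m (.v 2) (.v 6))))), (2, .m (.v 2) (.m (.v 2) (.m (.v 6) (.m (.v 2) (.v 5)))))],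
  [0x37a9820100c0257d840d4041006014601eca061403009a00f65030401004e007b2818100c026c8055808080600d20022dea620e020200a9])

def j1_172 : Job := (4, [(1, .m (.v 3) (.m (.v 6) (.m (.v 3) (.v 5)))), (-5, .m (.v 2) (.m (.m (.v 1) (.v 5)) (.m (.v 3) (.v 6)))), (5, .m (.v 2) (.m (.v 3) (.m (.v 5) (.m (.v 1) (.v 6))))), (-1, .m (.v 3) (.m (.v 5) (.m (.v 1) (.m (.v 2) (.v 6)))))],
  [0x560214018000802b010200c000c0158080804001000ac04280200100056020201000f002b010200c007c0158081006004400ac0402030000])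

def j1_173 : Job := (12, [(8, .m (.m (.v 3) (.v 5)) (.m (.v 3) (.v 6))), (-2, .m (.v 3) (.m (.v 5) (.m (.v 3) (.v 6)))), (-2, .m (.v 3) (.m (.v 6) (.m (.v 3) (.v 5))))],
  [0x8888a0a020300ab00f65031801004da80b008c008026d805404600401360066ac08180200ac])

def j1_174 : Job := (2, [(4, .m (.m (.v 3) (.v 5)) (.m (.v 3) (.v 6))), (-1, .m (.v 3) (.m (.v 6) (.m (.v 3) (.v 5)))), (1, .m (.v 3) (.m (.v 5) (.m (.v 1) (.m (.v 2) (.v 6)))))],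
  [0x158080804000a00ac0402020000])

def j1_175 : Job := (1, [(-30, .m (.m (.v 1) (.v 6)) (.m (.v 2) (.m (.v 3) (.v 5)))), (6, .m (.v 3) (.m (.v 6) (.m (.v 1) (.m (.v 2) (.v 5)))))],
  [0x3d840d4046006014dec206a021e0200a5f61035010c0100538fb0822808180c02afd840d4041806014800223fea42c12020200ad])

def j1_176 : Job := (6, [(1, .m (.v 3) (.m (.v 6) (.m (.v 1) (.m (.v 2) (.v 5))))), (1, .m (.v 3) (.m (.v 6) (.m (.v 3) (.v 5))))],
  [0x158081804004400ac0402020000])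

def j1_177 : Job := (1, [(-60, .m (.v 3) (.m (.v 5) (.m (.v 2) (.m (.v 1) (.v 6))))), (-12, .m (.v 3) (.m (.v 6) (.m (.v 3) (.v 5)))), (-12, .m (.v 3) (.m (.v 6) (.m (.v 1) (.m (.v 2) (.v 5))))), (48, .m (.v 3) (.m (.m (.v 1) (.v 6)) (.m (.v 2) (.v 5))))],
  [0x3fd85414c006014801ffec2a20e300200aa00ff625050c010055007fa93028600802a8c05580830060124002223ffec22a16020200af])

def j1_178 : Job := (48, [(1, .m (.v 3) (.m (.m (.v 1) (.v 6)) (.m (.v 2) (.v 5))))],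
  [0x2b01060080004015808f004005200ac0402020000])

def j1_179 : Job := (1, [(12, .m (.v 3) (.m (.v 6) (.m (.v 3) (.v 5)))), (12, .m (.v 3) (.m (.v 6) (.m (.v 1) (.m (.v 2) (.v 5))))), (-48, .m (.v 3) (.m (.m (.v 1) (.v 5)) (.m (.v 2) (.v 6)))), (-48, .m (.v 3) (.m (.m (.v 1) (.v 6)) (.m (.v 2) (.v 5)))), (12, .m (.v 3) (.m (.v 5) (.m (.v 3) (.v 6)))), (12, .m (.v 3) (.m (.v 5) (.m (.v 1) (.m (.v 2) (.v 6)))))],
  [0x1eca06480200a100ff625050c018056007fa93028600c02b0c0558083006012a002223fec3ea216020200b1])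

def j1_180 : Job := (48, [(1, .m (.v 3) (.m (.m (.v 1) (.v 5)) (.m (.v 2) (.v 6))))],
  [0x560230018000802b0106008000c0158083004001600ac0402030000])

def j1_181 : Job := (1, [(16, .m (.v 4) (.m (.m (.v 1) (.v 5)) (.m (.v 1) (.v 6)))), (1, .m (.v 1) (.m (.v 1) (.m (.v 5) (.m (.v 4) (.v 6))))), (1, .m (.v 1) (.m (.v 1) (.m (.v 6) (.m (.v 4) (.v 5))))), (-2, .m (.v 3) (.m (.v 6) (.m (.v 3) (.v 5)))), (-2, .m (.v 3) (.m (.v 6) (.m (.v 1) (.m (.v 2) (.v 5))))), (10, .m (.v 3) (.m (.m (.v 1) (.v 5)) (.m (.v 2) (.v 6)))), (10, .m (.v 3) (.m (.m (.v 1) (.v 6)) (.m (.v 2) (.v 5)))), (-2, .m (.v 3) (.m (.v 5) (.m (.v 3) (.v 6)))), (-2, .m (.v 3) (.m (.v 5) (.m (.v 1) (.m (.v 2) (.v 6)))))],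
  [0x3fd444158044006015dfec220aa02200300ae1f5104601040100577a881fb0818200802b87d84114041004015dec207ea206080200aef51104601040100577b08822808200802b8405580804040068602ca040402009f30156020201004f807b2818500c028c03fd894140804015c01fea4c0a040200ae30156020201004bfa881b0082008029fd840d4041004014e0027ea3ec210080200b4])

def j1_182 : Job := (16, [(1, .m (.v 4) (.m (.v 5) (.m (.v 1) (.m (.v 1) (.v 6)))))],
  [0x56020a010000802b0105008000c0158080806000a00ac042002000b00560202018006802b010080800580158080404003000ac0402030000])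

def j1_183 : Job := (6, [(8, .m (.m (.v 3) (.v 6)) (.m (.v 2) (.m (.v 1) (.v 5)))), (1, .m (.v 2) (.m (.v 2) (.m (.v 5) (.m (.v 2) (.v 6))))), (1, .m (.v 2) (.m (.v 2) (.m (.v 6) (.m (.v 2) (.v 5))))), (2, .m (.v 2) (.m (.v 3) (.m (.v 5) (.m (.v 1) (.v 6))))), (-2, .m (.v 2) (.m (.m (.v 1) (.v 5)) (.m (.v 3) (.v 6)))), (-10, .m (.v 3) (.m (.m (.v 1) (.v 5)) (.m (.v 2) (.v 6)))), (-8, .m (.v 3) (.m (.m (.v 1) (.v 6)) (.m (.v 2) (.v 5)))), (2, .m (.v 3) (.m (.v 5) (.m (.v 1) (.m (.v 2) (.v 6))))), (2, .m (.v 3) (.m (.v 5) (.m (.v 2) (.m (.v 1) (.v 6))))), (2, .m (.v 3) (.m (.v 5) (.m (.v 3) (.v 6)))), (2, .m (.v 3) (.m (.v 6) (.m (.v 1) (.m (.v 2) (.v 5))))), (2, .m (.v 3) (.m (.v 6) (.m (.v 3) (.v 5)))), (-2, .m (.m (.v 1) (.v 5)) (.m (.v 2) (.m (.v 3) (.v 6))))],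
  [0x111114140406016bea206c02180200aaf620350130018058007b2818300c029c03d940c4804014c402ac040c02007c62025010c010058007fb28828600c02a803fd8541430060154602ac041802009f00f650330010052807fb29028600c02c003fd894143006016001fea4c0a180300b030156020c01004e93012808600802c1807d440c300401540046dea20c180200b6])

def j1_184 : Job := (6, [(1, .m (.v 3) (.m (.v 6) (.m (.v 3) (.v 5))))],
  [0x15808c804000600ac04500200050056020a018003802b010100c002c0158083006001e00ac040a0300140056020801800f002b010100800b40158082806005e00ac040a020000])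

def j1_185 : Job := (1, [(48, .m (.v 4) (.m (.m (.v 1) (.v 5)) (.m (.v 1) (.v 6)))), (-12, .m (.v 4) (.m (.v 5) (.m (.v 1) (.m (.v 1) (.v 6))))), (-6, .m (.v 4) (.m (.v 5) (.m (.v 2) (.v 6)))), (-6, .m (.v 4) (.m (.v 6) (.m (.v 2) (.v 5)))), (1, .m (.m (.v 2) (.v 6)) (.m (.v 4) (.v 5))), (-10, .m (.m (.v 2) (.v 6)) (.m (.v 2) (.m (.v 2) (.v 5))))],
  [0xf6103501040100580fb0822808200c02cfd840d4044006015bec206a02080200ae2f61045010401805b7b101a808200c02d3d880d4040404016a3ec408a02080300b6f6103f5103080180597b101a808100c02cc03d940c6006014c01feca20a180200ab00ff615050c010055807fa8b028600802ad00558081806014a00225fea22c12040200b7])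

def j1_186 : Job := (30, [(1, .m (.v 4) (.m (.v 5) (.m (.v 2) (.v 6))))],
  [0x2b010c008000401580804b00a000600ac05e002000f00560206018009802b011900c00900158081404005600ac040a030000])

def j1_187 : Job := (1, [(10, .m (.m (.v 3) (.v 6)) (.m (.v 2) (.m (.v 1) (.v 5)))), (-2, .m (.m (.v 3) (.v 5)) (.m (.v 3) (.v 6))), (-2, .m (.m (.v 3) (.v 6)) (.m (.v 1) (.m (.v 2) (.v 5)))), (20, .m (.v 4) (.m (.m (.v 1) (.v 5)) (.m (.v 1) (.v 6)))), (-4, .m (.v 4) (.m (.v 5) (.m (.v 1) (.m (.v 1) (.v 6))))), (-2, .m (.v 4) (.m (.v 5) (.m (.v 2) (.v 6)))), (-2, .m (.v 4) (.m (.v 6) (.m (.v 2) (.v 5))))],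
  [0xff611055010401805a7b181a808100c02e3d880d4040806016801eca06100300a800ff6510504010056807fb0a828200802b500558080806014e0022dea260e020200b9])

def j1_188 : Job := (2, [(1, .m (.v 4) (.m (.v 6) (.m (.v 2) (.v 5))))],
  [0xac040403000100560218018002802b010a00800440158080806004800ac0402030000])

def j1_189 : Job := (12, [(4, .m (.m (.v 4) (.v 5)) (.m (.v 1) (.m (.v 1) (.v 6)))), (1, .m (.v 1) (.m (.m (.v 1) (.v 5)) (.m (.v 4) (.v 6)))), (-1, .m (.v 4) (.m (.v 5) (.m (.v 1) (.m (.v 1) (.v 6))))), (-1, .m (.v 4) (.m (.m (.v 1) (.v 5)) (.m (.v 1) (.v 6))))],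
  [0x22222828080c02efd440d804c006015fec206a02180200b3f61035010c010057880ab010600800d803fd8541430040166a204c02180200af00ff615050c0100578a813008600802bd407d840c3004015e0028bec20c180200bc])

def j1_190 : Job := (5, [(1, .m (.v 1) (.m (.m (.v 1) (.v 5)) (.m (.v 4) (.v 6))))],
  [0xac041402000100560208010002802b0102808004c0158080806002e00ac040a020000])

def j1_191 : Job := (6, [(2, .m (.v 3) (.m (.v 5) (.m (.v 3) (.v 6)))), (2, .m (.v 3) (.m (.v 6) (.m (.v 3) (.v 5)))), (2, .m (.m (.v 1) (.v 6)) (.m (.v 2) (.m (.v 3) (.v 5)))), (2, .m (.m (.v 1) (.v 5)) (.m (.v 2) (.m (.v 3) (.v 6)))), (2, .m (.v 4) (.m (.v 5) (.m (.v 2) (.v 6)))), (2, .m (.v 4) (.m (.v 6) (.m (.v 2) (.v 5))))],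
  [0x111114140406017bea206c02180300b2f61035010c018059007b2818600c02b403d940c300601580046ac20a0c0200bd])

def j1_192 : Job := (8, [(1, .m (.v 3) (.m (.v 5) (.m (.v 1) (.m (.v 2) (.v 6)))))],
  [0x2b0105008000c0158082804000a00ac04100200070056020801000b802b010100800c80158080804006a00ac040a030000])

def j1_193 : Job := (2, [(30, .m (.v 2) (.m (.v 3) (.m (.v 5) (.m (.v 1) (.v 6))))), (12, .m (.v 2) (.m (.v 2) (.m (.v 5) (.m (.v 2) (.v 6))))), (-3, .m (.v 2) (.m (.v 2) (.m (.v 6) (.m (.v 2) (.v 5))))), (-24, .m (.v 2) (.m (.m (.v 1) (.v 5)) (.m (.v 3) (.v 6)))), (6, .m (.v 2) (.m (.v 1) (.m (.v 5) (.m (.v 3) (.v 6))))), (6, .m (.v 2) (.m (.v 5) (.m (.v 1) (.m (.v 3) (.v 6))))), (6, .m (.v 2) (.m (.v 6) (.m (.v 4) (.v 5)))), (6, .m (.v 2) (.m (.v 5) (.m (.v 4) (.v 6)))), (-15, .m (.v 3) (.m (.v 5) (.m (.v 2) (.m (.v 1) (.v 6))))), (-3, .m (.v 3) (.m (.v 6) (.m (.v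 3) (.v 5)))), (-3, .m (.v 3) (.m (.v 6) (.m (.v 1) (.m (.v 2) (.v 5))))), (12, .m (.v 3) (.m (.m (.v 1) (.v 6)) (.m (.v 2) (.v 5))))],
  [0x80558083c06010e403fec2a0a180200be20156020f010044007fb12828300802ec80558080c04010a01eca06180300b220156020c01804609012b010600c028803fd85414f004016a01eca06300300b100f65032d010058100ab010180c021003fd854146006016801ffec2a20e180200ba00ff625050601005d007fa93028300802e8c0558081806014400223ffec22a216040200bf])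

def j1_194 : Job := (15, [(1, .m (.v 2) (.m (.v 2) (.m (.v 5) (.m (.v 2) (.v 6)))))],
  [0x158081804001200ac041803000f00560203010008802b010300c00540158081806003200ac040602001e0056020601801a802b010300c00e00158083c04007200ac0402020000])

def j1_195 : Job := (1, [(2, .m (.m (.v 2) (.v 6)) (.m (.v 2) (.m (.v 2) (.v 5)))), (-12, .m (.v 2) (.m (.m (.v 2) (.v 5)) (.m (.v 2) (.v 6)))), (1, .m (.v 2) (.m (.v 5) (.m (.v 4) (.v 6)))), (1, .m (.v 2) (.m (.v 6) (.m (.v 4) (.v 5)))), (6, .m (.v 4) (.m (.v 6) (.m (.v 2) (.v 5)))), (2, .m (.m (.v 2) (.v 5)) (.m (.v 2) (.m (.v 2) (.v 6)))), (6, .m (.v 4) (.m (.v 5) (.m (.v 2) (.v 6)))), (-2, .m (.m (.v 4) (.v 5)) (.m (.v 1) (.m (.v 1) (.v 6)))), (-2, .m (.m (.v 4) (.v 6)) (.m (.v 1) (.m (.v 1) (.v 5)))), (-20, .m (.v 3) (.m (.m (.v 1) (.v 5)) (.m (.v 2) (.v 6)))), (-20, .m (.v 3) (.m (.m (.v 1) (.v 6)) (.m (.v 2) (.v 5)))),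 (4, .m (.v 3) (.m (.v 6) (.m (.v 3) (.v 5)))), (4, .m (.v 3) (.m (.v 5) (.m (.v 3) (.v 6))))],
  [0x1fea220ac02040300be005f620402010042ffa8882b008200c02f7fd844154040806017c402ac04020200a3006f520402010042ffb0882a808200c02f7fd4441580420060179fec220aa02100300bc20165020201804a100ab010100c025003d940c0804016601eca060c0200b2201560202018048180b2810200c02b4c0558081006015a01eca06280200b100ff625050401805e007fa93028200c02f0c0558081006014a0025ea3ec2212080200c1])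

def j1_196 : Job := (12, [(1, .m (.v 2) (.m (.m (.v 2) (.v 5)) (.m (.v 2) (.v 6))))],
  [0x2b010200c000c0158081804000e00ac040c02000900560204010005802b010a00c003c0158085006002200ac040802001b00560202010017002b010100800c80158080404007400ac0402030000])

def j1_197 : Job := (1, [(3, .m (.v 2) (.m (.v 5) (.m (.v 2) (.m (.v 2) (.v 6))))), (1, .m (.v 1) (.m (.m (.v 1) (.v 5)) (.m (.v 4) (.v 6)))), (-1, .m (.v 2) (.m (.v 2) (.m (.v 5) (.m (.v 2) (.v 6))))), (-1, .m (.v 2) (.m (.m (.v 2) (.v 5)) (.m (.v 2) (.v 6)))), (-2, .m (.v 3) (.m (.v 5) (.m (.v 1) (.m (.v 2) (.v 6))))), (3, .m (.v 4) (.m (.v 5) (.m (.v 2) (.v 6))))],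
  [0x17d88100404010fea206c02100300bc00ff615050101005d880ab010080c013840594080404008a202ac040202003f51026010201005e0a813008100802f14058040404016a0022bfec4410020200c4])

def j1_198 : Job := (3, [(1, .m (.v 2) (.m (.v 5) (.m (.v 2) (.m (.v 2) (.v 6)))))],
  [0x158080404000200ac040202000300560202010002802b010080c001c0158080c06001600ac0402020000])

def j1_199 : Job := (1, [(1, .m (.v 3) (.m (.v 6) (.m (.v 1) (.m (.v 2) (.v 5)))))],
  [0x158080406001c00ac0402020016])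

def j1_200 : Job := (4, [(1, .m (.m (.v 3) (.v 5)) (.m (.v 3) (.v 6)))],
  [0x2b010080c001c0158080404001e00ac0402020019])

def j1_201 : Job := (1, [(1, .m (.v 4) (.m (.m (.v 1) (.v 5)) (.m (.v 1) (.v 6))))],
  [0x158080406002400ac040202001e])

def j1_202 : Job := (10, [(1, .m (.m (.v 4) (.v 5)) (.m (.v 1) (.m (.v 1) (.v 6))))],
  [0x2b010200c00440158081406001a00ac0402020023])

def j1_203 : Job := (1, [(1, .m (.v 2) (.m (.v 2) (.m (.v 6) (.m (.v 2) (.v 5)))))],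
  [0x158080406001000ac0402020027])

def j1_204 : Job := (1, [(1, .m (.v 1) (.m (.v 1) (.m (.v 6) (.m (.v 4) (.v 5))))), (2, .m (.v 2) (.m (.v 5) (.m (.v 4) (.v 6))))],
  [0x158080404001a00ac040202002c])

def j1_205 : Job := (1, [(1, .m (.m (.v 2) (.v 6)) (.m (.v 2) (.m (.v 2) (.v 5))))],
  [0x158080404000400ac0402020037])

def j1_206 : Job := (1, [(1, .m (.m (.v 4) (.v 6)) (.m (.v 1) (.m (.v 1) (.v 5))))],
  [0x158080404002e00ac040202003a])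

def j1_207 : Job := (1, [(1, .m (.m (.v 2) (.v 6)) (.m (.v 4) (.v 5)))],
  [0x158080806000800ac0402020040])

def j1_208 : Job := (3, [(1, .m (.v 6) (.m (.v 3) (.m (.v 4) (.v 5))))],
  [0x11603501060180630b012808180c02fc98094043004018cc02223ea80c020300cf])

def j1_209 : Job := (5, [(1, .m (.v 4) (.m (.v 5) (.m (.v 1) (.m (.v 2) (.v 6)))))],
  [0xff51105601100100640fa8823008200c0323d440d8040404017c00bec40802020057ff6220550102018067080b28101008000c40594080806000a202ac040403000a101560202018006080b2810200c0024405940818040028202bec40804030093f5110460104018064080ffb0a828100c031c44095808080400b42204ca0404030051f510360102018060a8813008280c02f840558081406000200bec4080a03005500ff6150504010060100ab010200c01688059408100400a20023ea3fec4414040300d0])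

def j1_210 : Job := (12, [(1, .m (.v 2) (.m (.m (.v 1) (.v 5)) (.m (.v 4) (.v 6))))],
  [0x11111414040601a1ec206a02180200c1f61035010c01005ffa901b009800c0310017d8410c0060004402ac041802004b00ff615050c010060a901300860080310017d84103004002a01fec2a0a180200bf00f615040c01000a9281300860080311407d840c3004017e0048bec20c180200d1])

def j1_211 : Job := (6, [(1, .m (.v 3) (.m (.v 6) (.m (.v 4) (.v 5))))],
  [0x7fb0882a808600c0327d880d4041806019200222dea80e020200d1])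

def j1_212 : Job := (4, [(1, .m (.v 4) (.m (.v 6) (.m (.v 1) (.m (.v 2) (.v 5)))))],
  [0x222228280808034bfd844154044004019000bec20808030004ff6120550104010067b0812808200c030440594081006000800dea40808030058ff61205501080100677fb0882a8084008031bfd848154044004019a00245ea3ec212080300d2])

def j1_213 : Job := (12, [(4, .m (.m (.v 4) (.v 5)) (.m (.v 1) (.m (.v 2) (.v 6)))), (-1, .m (.v 4) (.m (.v 5) (.m (.v 1) (.m (.v 2) (.v 6)))))],
  [0x444450501018069fa881b009800c030bd880d40430040197ec406a02180200c710156020c010002880b28106008006144098043004018400dea2081802001800ff625050c0100638a81300860080309407d880c3004018e0028bec40c180200d4])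

def j1_214 : Job := (4, [(1, .m (.m (.v 4) (.v 5)) (.m (.v 1) (.m (.v 2) (.v 6))))],
  [0x158080404000800ac0402020000])

def j1_215 : Job := (2, [(-2, .m (.m (.v 3) (.v 6)) (.m (.v 4) (.v 5))), (-2, .m (.m (.v 4) (.v 5)) (.m (.v 1) (.m (.v 2) (.v 6))))],
  [0x11111414040601abfea220ac02100300c9f54036010401806a7a901b008200c0324017d84105006000e0022bec280e040200d5])

def j1_216 : Job := (2, [(1, .m (.m (.v 3) (.v 6)) (.m (.v 4) (.v 5)))],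
  [0x158080806000200ac0402030000])

def j1_217 : Job := (3, [(1, .m (.v 6) (.m (.v 4) (.m (.v 4) (.v 5))))],
  [0x8b01a808100c03208580d4040806019e24c06a02040300cf6015102020180041301280818080320d8094042004019ec02225ea80c020300d8])

def j1_218 : Job := (16, [(1, .m (.v 4) (.m (.v 6) (.m (.v 4) (.v 5))))],
  [0x44445050101806c08812b010800c014440558081004000c6204ac04080300a100ff546050401006989812b010200c0284407d854104006003a402ac0440020051006f510404018003180ab010200c017d00558084004014200227ffec24a14100300d9])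

def j1_219 : Job := (1, [(1, .m (.m (.v 4) (.v 5)) (.m (.v 4) (.v 6)))],
  [0x1ea806c02020200d6fff6121075010401806b7fa8902b008080c03447fd44819804040401adfec240aa02020300d11ff612065010101006b080b7a8820080c002ffd448419804040401ac202bec2080203000bff6121065010101006b30888228081008033444095808080400382205eca06080200c8110256020801000888817fb28828100c0334440bfd854140806019a2205fea2c0a040300cd1102560202018012088132810080c0078440958080406003c82206ac04020200c711026f51040201002fffa8902b0081008033ffd848154040804019ec2406a02080300cd20156020401800e100fb2818400c0320805580840060022403feca20a080200cd201ff6150504010066900ffa8b02820080334805580810040048402ca040402001e20156020201000f21012b010100c031c805bd4410100600be0023fea25fec2418040200da])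

def jobs1 : List Job := [j1_0, j1_1, j1_2, j1_3, j1_4, j1_5, j1_6, j1_7, j1_8, j1_9,
  j1_10, j1_11, j1_12, j1_13, j1_14, j1_15, j1_16, j1_17, j1_18, j1_19,
  j1_20, j1_21, j1_22, j1_23, j1_24, j1_25, j1_26, j1_27, j1_28, j1_29,
  j1_30, j1_31, j1_32, j1_33, j1_34, j1_35, j1_36, j1_37, j1_38, j1_39,
  j1_40, j1_41, j1_42, j1_43, j1_44, j1_45, j1_46, j1_47, j1_48, j1_49,
  j1_50, j1_51, j1_52, j1_53, j1_54, j1_55, j1_56, j1_57, j1_58, j1_59,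
  j1_60, j1_61, j1_62, j1_63, j1_64, j1_65, j1_66, j1_67, j1_68, j1_69,
  j1_70, j1_71, j1_72, j1_73, j1_74, j1_75, j1_76, j1_77, j1_78, j1_79,
  j1_80, j1_81, j1_82, j1_83, j1_84, j1_85, j1_86, j1_87, j1_88, j1_89,
  j1_90, j1_91, j1_92, j1_93, j1_94, j1_95, j1_96, j1_97, j1_98, j1_99,
  j1_100, j1_101, j1_102, j1_103, j1_104, j1_105, j1_106, j1_107, j1_108, j1_109,
  j1_110, j1_111, j1_112, j1_113, j1_114, j1_115, j1_116, j1_117, j1_118, j1_119,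
  j1_120, j1_121, j1_122, j1_123, j1_124, j1_125, j1_126, j1_127, j1_128, j1_129,
  j1_130, j1_131, j1_132, j1_133, j1_134, j1_135, j1_136, j1_137, j1_138, j1_139,
  j1_140, j1_141, j1_142, j1_143, j1_144, j1_145, j1_146, j1_147, j1_148, j1_149,
  j1_150, j1_151, j1_152, j1_153, j1_154, j1_155, j1_156, j1_157, j1_158, j1_159,
  j1_160, j1_161, j1_162, j1_163, j1_164, j1_165, j1_166, j1_167, j1_168, j1_169,
  j1_170, j1_171, j1_172, j1_173, j1_174, j1_175, j1_176, j1_177, j1_178, j1_179,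
  j1_180, j1_181, j1_182, j1_183, j1_184, j1_185, j1_186, j1_187, j1_188, j1_189,
  j1_190, j1_191, j1_192, j1_193, j1_194, j1_195, j1_196, j1_197, j1_198, j1_199,
  j1_200, j1_201, j1_202, j1_203, j1_204, j1_205, j1_206, j1_207, j1_208, j1_209,
  j1_210, j1_211, j1_212, j1_213, j1_214, j1_215, j1_216, j1_217, j1_218, j1_219]

def j2_0 : Job := (1, [(1, .m (.v 4) (.m (.v 5) (.v 6))), (4, .m (.m (.v 1) (.v 5)) (.m (.v 2) (.m (.v 1) (.v 6))))],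
  [0xca04020200ad])

def j2_1 : Job := (1, [(1, .m (.m (.v 3) (.v 5)) (.m (.v 3) (.v 5)))],
  [0xaa0402020014])

def j2_2 : Job := (1, [(1, .m (.m (.v 4) (.v 5)) (.m (.v 4) (.v 5)))],
  [0xaa0402020002])

def j2_3 : Job := (1, [(1, .m (.v 3) (.m (.v 6) (.m (.v 4) (.v 5)))), (1, .m (.m (.v 3) (.v 6)) (.m (.v 4) (.v 5)))],
  [0x158080404000c00ac040202000b])

def j2_4 : Job := (6, [(1, .m (.m (.v 4) (.v 5)) (.m (.v 6) (.m (.v 4) (.v 5))))],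
  [0xff61105550208018008fffa88fb084a808400c035bfffd4458425404200601adfffea222c12a02100300d6ff546055010101006e0ffaa3032808200c0377d47d84194045004019fec206bea20828020010f6103550214010006fa8fb1032808a008035bd880d540840040023ec406aa04280200211ff516065011401006797fa8b032808a008035bfd51815404040401b7fea8c0aa02100200daff546055011401006c802ffa8b030a008003c0045bfd447d502c080401bc0025ea9ea2c12140300de])

def j2_5 : Job := (192, [(1, .m (.m (.v 3) (.v 5)) (.m (.v 5) (.m (.v 4) (.v 6))))],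
  [0x222228291008037ffd47d441d80424000801abea3ea20cc0209000500d561f51055010240028069fa881ab010120014008bd440fd940c12000a019dea206ac041200050017f5103ff651050240020069fa881ffb0a828120010034fd440ffd4581409000801a7ea206ac04048004002af5103650201200200127a881ab01009001000913d4411580804800a019bea206dea2080480050065f5103f6503012002006817a8823281009001402c803d97d441812000a0023fea240aca0409000400b2ff612055502012002805930817aa81c80080338405bd54124004002201eaac092002000c006ff5520690010032807aafb083480080047fd84815540a4006015c00beca08024004000ef5120465020120028059007fa8fa8b040090014019bd440d5808c00600afea206ca0430020014ff61f510750101e0020069fffa8b083a8080f0010034fffd44581d40407800801a7ec806aa05e00200cbf6403550218018061ffa9302a8098008035ffd54815804780601affea4a0ac02780300d7f510365023c018008afa8823009e00c0343d840d5408c0040023ec206aa04600200245f6104501300100677fa9302a8098008034c7d9411404c004019deca07ea406600200d3006f5504900180040037aa823000c004001bd54101806001aa02ca0460020008501650230010006a80b28118008004000957d9041c3c0401be00223fec8aa12040300df002f51f51ff6120c0240028070000b7a8fa8a04bc00c037c00517d4981c600601be006abec80c300200e0])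

def j2_6 : Job := (16, [(1, .m (.m (.v 5) (.m (.v 4) (.v 6))) (.m (.v 5) (.m (.v 4) (.v 6))))],
  [0x4444505010100707b228232810200802cfffd84bd45429804400601bbfffec24a2a14c02200300dd5f645056010401006effffb090aa853008800c0377d45411bd841040040025fec25ea2a12c02200300dd611f515076011001806a0fa8a82b3010800c008c7d454159808400600563ea2a0adec20820030066501fff612560820018033b0a9282b008800c03514940d980840060046a4a06cc042003002b525036f6104100180337ffb097aa84b00880080363fffd8495425804800401b1feaa20adec20820020012ff515056f6104200100097fb2282b2810400802cffd91415580820040152bfec8a0cc02100200ddff661506f510308010067fb22822b010200802cfd9141158084004015bec8a09eca06080300def64504560204018050fb22822b010400c02a5405bd94102006000dec8a08ac04080300a61f6450556021001006437b2282a80820080377fd85941bd440c4004019e00dfecaa0c10020008006ff55606040100047aa81b3010400c001bd940d58082006000deca06ca0410030007f65036502080180042a81330102008001940459bfd449024100601c0008aadec80e040300e00055f64f640802010070800aaffb097b2058400c038001157d9181c080401c0a022bfec25fec2421a200200e0])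

def j2_7 : Job := (1, [(1, .m (.v 3) (.m (.v 3) (.v 5)))],
  [0xa02020200d1])

def j2_8 : Job := (3, [(1, .m (.v 3) (.m (.v 4) (.v 5)))],
  [0x11025010601806d080a808180c034c805404300401b400223ea80c020300e3])

def j2_9 : Job := (3, [(1, .m (.v 4) (.m (.v 4) (.v 5)))],
  [0x8812808100c03508409404080601b62404a02040300db10150102018000100a80818080350c05404200401b600225ea80c020300e4])

def jobs2 : List Job := [j2_0, j2_1, j2_2, j2_3, j2_4, j2_5, j2_6, j2_7, j2_8, j2_9]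

def jobsF : List Job := [
  (1, [(1, .m (.m (.v 3) (.v 5)) (.m (.v 3) (.v 5)))],
  [0xac0402020008]),
  (1, [(1, .m (.v 3) (.m (.v 6) (.m (.v 4) (.v 5)))), (1, .m (.m (.v 3) (.v 6)) (.m (.v 4) (.v 5)))],
  [0xac0402020006]),
  (1, [(1, .m (.m (.v 4) (.v 5)) (.m (.v 6) (.m (.v 4) (.v 5))))],
  [0xac0402020005]),
  (1, [(1, .m (.m (.v 3) (.v 5)) (.m (.v 5) (.m (.v 4) (.v 6))))],
  [0xac0402020004]),
  (1, [(1, .m (.m (.v 5) (.m (.v 4) (.v 6))) (.m (.v 5) (.m (.v 4) (.v 6))))],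
  [0xac0402020003]),
  (1, [(1, .m (.m (.v 4) (.v 5)) (.m (.v 4) (.v 5)))],
  [0xac0402020007]),
  (1, [(1, .m (.v 3) (.m (.v 3) (.v 5)))],
  [0xac0402020002]),
  (1, [(1, .m (.v 3) (.m (.v 4) (.v 5)))],
  [0xac0402020001]),
  (1, [(1, .m (.v 4) (.m (.v 4) (.v 5)))],
  [0xac0402020000]),
  (1, [(1, .m (.v 4) (.m (.v 5) (.v 6))), (4, .m (.m (.v 1) (.v 5)) (.m (.v 2) (.m (.v 1) (.v 6))))],
  [0xac0402020009])]

def ids0 : List (List (Int × T)) := [g4, pa4]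
def ids1 : List (List (Int × T)) := allIds ids0 jobs1
def ids2 : List (List (Int × T)) := allIds ids1 jobs2

theorem ok1 : checkAll ids0 jobs1 = true := by decide +kernel
theorem ok2 : checkAll ids1 jobs2 = true := by decide +kernel
theorem okF : jobsF.all (checkJ ids2) = true := by decide +kernel

section

variable {F : Type u} [Field F] {V : Type w} [AddCommGroup V] [Module F V]
  (mul : V →ₗ[F] V →ₗ[F] V)

theorem g4_all [Infinite F] (hs : ∀ x y, mul (mul x (mul x x)) (mul x y) = 0) :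
    HoldsAll mul g4 := by
  have h0 : HoldsAll mul g0 := by
    intro ρ
    simp only [g0, evP, T.ev, hs, smul_zero, add_zero]
  exact HoldsAll.der mul (HoldsAll.der mul (HoldsAll.der mul h0 5 6) 5 7) 5 8

theorem h23 (comm : ∀ x y, mul x y = mul y x) (hs : ∀ x y, mul (mul x (mul x x)) (mul x y) = 0) (z : V) :
    mul (mul z z) (mul z (mul z z)) = 0 := by
  rw [comm]
  exact hs z z

theorem h14 [CharZero F] (comm : ∀ x y, mul x y = mul y x)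
    (hpa : ∀ x, mul (mul x x) (mul x x) = mul x (mul x (mul x x)))
    (hs : ∀ x y, mul (mul x (mul x x)) (mul x y) = 0) (z : V) :
    mul z (mul (mul z z) (mul z z)) = 0 := by
  have h := pa_lin mul comm hpa z (mul z z)
  have h23 := h23 mul comm hs z
  have e13 := (hpa z).symm
  rw [h23, smul_zero, comm (mul z (mul z z)) (mul z z), h23, zero_add, e13] at h
  have h2 : (3 : F) • mul z (mul (mul z z) (mul z z)) = 0 := by
    rw [h]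
    module
  exact (smul_eq_zero.mp h2).resolve_left (by norm_num)

theorem h24 [CharZero F] (comm : ∀ x y, mul x y = mul y x)
    (hpa : ∀ x, mul (mul x x) (mul x x) = mul x (mul x (mul x x)))
    (hs : ∀ x y, mul (mul x (mul x x)) (mul x y) = 0) (z : V) :
    mul (mul z z) (mul (mul z z) (mul z z)) = 0 := by
  have h := pa_lin mul comm hpa z (mul z (mul z z))
  have e13 := (hpa z).symm
  simp only [e13, hs z (mul z z), h23 mul comm hs z, h14 mul comm hpa hs z, map_zero,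
    smul_zero, add_zero] at h
  exact (smul_eq_zero.mp h).resolve_left (by norm_num)

end

/-- Perfect finite-dimensional commutative algebras with `(xx)(xx) = x(x(xx))` and
`(x(xx))(xy) = 0` are zero. -/
theorem main {F : Type u} [Field F] [CharZero F] {V : Type w} [AddCommGroup V]
    [Module F V] [FiniteDimensional F V] (m : V →ₗ[F] V →ₗ[F] V)
    (comm : ∀ x y, m x y = m y x)
    (perf : Submodule.span F {z : V | ∃ a b : V, z = m a b} = ⊤)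
    (hpa4 : ∀ x, m (m x x) (m x x) = m x (m x (m x x)))
    (hs : ∀ x y, m (m x (m x x)) (m x y) = 0) : Subsingleton V := by
  have hpow : ∀ z a b, Pow m (rho m z a b) := fun z a b =>
    pow_rho m comm hpa4 (h14 m comm hpa4 hs) (h23 m comm hs) (h24 m comm hpa4 hs) z a b
  have hids : ∀ z a b : V, ∀ p ∈ ids2, HoldsAt m ⊥ (rho m z a b) p := by
    intro z a b
    have h0 : ∀ p ∈ ids0, HoldsAt m ⊥ (rho m z a b) p := by
      intro p hp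
      unfold ids0 at hp
      rcases List.mem_cons.mp hp with rfl | hp
      · exact HoldsAll.at m (g4_all m hs) ⊥ _
      · rcases List.mem_cons.mp hp with rfl | hp
        · exact HoldsAll.at m (pa4_all m hpa4) ⊥ _
        · simp at hp
    have h1 := seq_sound m comm (hpow z a b) jobs1 ids0 h0 ok1
    have h2 := seq_sound m comm (hpow z a b) jobs2 ids1 h1 ok2
    exact h2
  have hF : ∀ z a b : V, ∀ p ∈ tgts ++ [hTp], HoldsAt m ⊥ (rho m z a b) p := fun z a b =>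
    jobs_sound m comm (hpow z a b) ids2 (hids z a b) jobsF okF
  refine fin_sub m comm perf hpa4 hpow (fun z a b p hp => ?_) (fun φ hφ z a b => ?_)
  · exact hF z a b p (List.mem_append_left _ hp)
  · intro ρ' hρ'
    rw [(Submodule.mem_bot F).mp (hF z a b hTp (by simp) ρ' hρ')]
    exact Submodule.zero_mem _

end Pool.Agent.Alb.L3X

namespace Pool.Agent.Alb

universe u v

theorem w_L3X {F : Type u} [Field F] [CharZero F] {V : Type v} [AddCommGroup V]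
    [Module F V] [FiniteDimensional F V] (m : V →ₗ[F] V →ₗ[F] V)
    (comm : ∀ x y, m x y = m y x)
    (perf : Submodule.span F {z : V | ∃ a b : V, z = m a b} = ⊤)
    (hpa4 : ∀ x, m (m x x) (m x x) = m x (m x (m x x)))
    (h : ∀ x y, m (m x (m x x)) (m x y) = 0) : Subsingleton V :=
  L3X.main m comm perf hpa4 h

end Pool.Agent.Alb
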