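import Mathlib
import Pool.Agent.Lib_MP_380d39.ChkPol
import Pool.Agent.Lib_MP_380d39.HandS5d

set_option autoImplicit false

/-!
# Commutative algebras with `(xx)(xx) = x(x(xx))` and `(xx)((xx)y) = 0`

The six identities which say that `z³ + z⁴w` has level two, with kernel-checked certificates.
-/

namespace Pool.Agent.Alb.S2

open Pool.Agent.Alb.Chk

universe u w

def pa0 : List (Int × T) :=
  [(1, .m (.m (.v 5) (.v 5)) (.m (.v 5) (.v 5))), (-1, .m (.v 5) (.m (.v 5) (.m (.v 5) (.v 5))))]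

def pa4 : List (Int × T) := derP 5 8 (derP 5 7 (derP 5 6 pa0))

def g0 : List (Int × T) := [(1, .m (.m (.v 5) (.v 5)) (.m (.m (.v 5) (.v 5)) (.v 9)))]

def g4 : List (Int × T) := derP 5 8 (derP 5 7 (derP 5 6 g0))

abbrev Job := Int × List (Int × T) × List (Int × Nat × Nat × Nat)

def checkJ (ids : List (List (Int × T))) (j : Job) : Bool :=
  (!(decide (j.1 = 0))) && check ids [] j.1 j.2.1 j.2.2 []

/-- certificates of level 1:  -/
def jobs1 : List (Int × List (Int × T) × List (Int × Nat × Nat × Nat)) := [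
  (6, [(1, .m (.v 3) (.v 5)), (-4, .m (.v 2) (.m (.v 1) (.v 5))), (1, .m (.v 1) (.m (.v 2) (.v 5))), (2, .m (.v 1) (.m (.v 1) (.m (.v 1) (.v 5))))],
    [(-1, 0, 20753, 0)]),
  (12, [(2, .m (.v 1) (.m (.v 1) (.m (.v 1) (.m (.v 1) (.v 5))))), (1, .m (.v 1) (.m (.v 2) (.m (.v 1) (.v 5)))), (-5, .m (.v 2) (.m (.v 1) (.m (.v 1) (.v 5))))],
    [(-1, 1, 332049, 0), (-2, 0, 16060689, 0)]),
  (12, [(1, .m (.v 1) (.m (.v 3) (.v 5))), (1, .m (.v 1) (.m (.v 1) (.m (.v 2) (.v 5)))), (-5, .m (.v 1) (.m (.v 2) (.m (.v 1) (.v 5)))), (5, .m (.v 2) (.m (.v 1) (.m (.v 1) (.v 5))))],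
    [(1, 1, 332049, 0), (-2, 0, 20753, 1), (2, 0, 16060689, 0)]),
  (24, [(1, .m (.v 2) (.m (.v 2) (.v 5)))],
    [(1, 1, 69909, 0)]),
  (12, [(1, .m (.v 3) (.m (.v 1) (.v 5))), (1, .m (.v 2) (.m (.v 1) (.m (.v 1) (.v 5))))],
    [(1, 1, 332049, 0)]),
  (72, [(1, .m (.v 4) (.v 5)), (4, .m (.v 1) (.m (.v 2) (.m (.v 1) (.v 5))))],
    [(12, 1, 332049, 0), (-12, 0, 20754, 0), (3, 1, 69909, 0), (8, 0, 20753, 1), (-8, 0, 16060689, 0)]),
  (144, [(2, .m (.v 1) (.m (.v 1) (.m (.v 1) (.m (.v 1) (.m (.v 1) (.v 5)))))), (1, .m (.v 1) (.m (.v 1) (.m (.v 2) (.m (.v 1) (.v 5)))))],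
    [(-4, 0, 16060689, 1), (-12, 1, 332049, 1), (30, 1, 256971025, 0), (15, 1, 17899345, 0), (-15, 1, 332050, 0), (-20, 0, 4283502865, 0), (-30, 0, 16060690, 0)]),
  (48, [(5, .m (.v 1) (.m (.v 1) (.m (.v 1) (.m (.v 2) (.v 5))))), (-1, .m (.v 1) (.m (.v 1) (.m (.v 2) (.m (.v 1) (.v 5)))))],
    [(-20, 0, 16064785, 0), (-24, 1, 332050, 0), (-25, 1, 69925, 0), (59, 1, 17899345, 0), (-50, 0, 20753, 2), (45, 1, 332065, 0), (-46, 1, 256971025, 0), (-5, 1, 69909, 1), (4, 1, 332049, 1), (12, 0, 16060690, 0)]),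
  (144, [(5, .m (.v 1) (.m (.v 1) (.m (.v 3) (.v 5)))), (-24, .m (.v 1) (.m (.v 1) (.m (.v 2) (.m (.v 1) (.v 5)))))],
    [(-30, 0, 20754, 1), (10, 0, 16064785, 0), (-210, 1, 69925, 0), (-990, 1, 332065, 0), (-150, 0, 20755, 0), (198, 1, 17899345, 0), (1047, 1, 332050, 0), (390, 0, 20770, 0), (894, 0, 16060690, 0), (-880, 0, 20753, 2), (75, 1, 69909, 1), (-582, 1, 256971025, 0), (288, 1, 332049, 1), (60, 1, 279621, 0)]),
  (144, [(1, .m (.v 1) (.m (.v 2) (.m (.v 1) (.m (.v 1) (.v 5)))))],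
    [(6, 1, 256971025, 0), (3, 1, 17899345, 0), (-3, 1, 332050, 0), (4, 0, 16060689, 1), (-4, 0, 4283502865, 0), (-6, 0, 16060690, 0)]),
  (24, [(1, .m (.v 1) (.m (.v 2) (.m (.v 2) (.v 5))))],
    [(1, 1, 69909, 1)]),
  (144, [(1, .m (.v 1) (.m (.v 3) (.m (.v 1) (.v 5))))],
    [(-6, 1, 256971025, 0), (-3, 1, 17899345, 0), (3, 1, 332050, 0), (12, 1, 332049, 1), (-4, 0, 16060689, 1), (4, 0, 4283502865, 0), (6, 0, 16060690, 0)]),
  (72, [(1, .m (.v 1) (.m (.v 4) (.v 5))), (4, .m (.v 1) (.m (.v 1) (.m (.v 2) (.m (.v 1) (.v 5)))))],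
    [(-8, 0, 16060689, 1), (3, 1, 69909, 1), (8, 0, 20753, 17), (-12, 0, 20754, 1), (12, 1, 332049, 1)]),
  (24, [(5, .m (.v 2) (.m (.v 1) (.m (.v 1) (.m (.v 1) (.v 5))))), (1, .m (.v 1) (.m (.v 1) (.m (.v 2) (.m (.v 1) (.v 5)))))],
    [(-3, 1, 332050, 0), (3, 1, 17899345, 0), (8, 1, 256971025, 0), (-2, 1, 332049, 1), (-6, 0, 16060690, 0)]),
  (24, [(1, .m (.v 2) (.m (.v 1) (.m (.v 2) (.v 5))))],
    [(-2, 1, 332050, 0), (-1, 1, 69925, 0), (3, 1, 17899345, 0), (-2, 0, 20753, 2), (3, 1, 332065, 0), (-2, 1, 256971025, 0)]),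
  (24, [(1, .m (.v 2) (.m (.v 2) (.m (.v 1) (.v 5))))],
    [(1, 1, 17899345, 0)]),
  (24, [(5, .m (.v 2) (.m (.v 3) (.v 5))), (-2, .m (.v 1) (.m (.v 1) (.m (.v 2) (.m (.v 1) (.v 5)))))],
    [(-10, 0, 20753, 2), (16, 1, 332050, 0), (5, 1, 69925, 0), (-15, 1, 332065, 0), (-1, 1, 17899345, 0), (-6, 1, 256971025, 0), (4, 1, 332049, 1), (12, 0, 16060690, 0)]),
  (24, [(5, .m (.v 3) (.m (.v 1) (.m (.v 1) (.v 5)))), (-1, .m (.v 1) (.m (.v 1) (.m (.v 2) (.m (.v 1) (.v 5)))))],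
    [(3, 1, 332050, 0), (-3, 1, 17899345, 0), (2, 1, 256971025, 0), (2, 1, 332049, 1), (6, 0, 16060690, 0)]),
  (24, [(5, .m (.v 3) (.m (.v 2) (.v 5))), (2, .m (.v 1) (.m (.v 1) (.m (.v 2) (.m (.v 1) (.v 5)))))],
    [(5, 1, 69925, 0), (10, 0, 20753, 2), (-16, 1, 332050, 0), (15, 1, 332065, 0), (1, 1, 17899345, 0), (6, 1, 256971025, 0), (-4, 1, 332049, 1), (-12, 0, 16060690, 0)]),
  (24, [(1, .m (.v 4) (.m (.v 1) (.v 5)))],
    [(-1, 1, 17899345, 0), (2, 1, 332050, 0)]),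
  (1152, [(1, .m (.v 1) (.m (.v 1) (.m (.v 1) (.m (.v 1) (.m (.v 1) (.m (.v 1) (.v 5)))))))],
    [(-96, 0, 1099328196881, 0), (28, 1, 68536045841, 0), (-156, 0, 16060689, 2), (180, 1, 4582274321, 0), (100, 1, 332051, 0), (-78, 1, 256971041, 0), (24, 0, 16060690, 1), (-8, 0, 4283506961, 0), (-1, 1, 17899345, 1), (-126, 1, 17903441, 0), (108, 0, 16060706, 0), (-24, 0, 16060691, 0), (22, 1, 332050, 1), (-24, 0, 4283502866, 0), (-48, 1, 256971025, 1), (-29, 1, 279621, 0)]),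
  (288, [(1, .m (.v 1) (.m (.v 1) (.m (.v 1) (.m (.v 1) (.m (.v 2) (.v 5))))))],
    [(-4, 0, 16064785, 1), (30, 1, 256971026, 0), (156, 1, 332051, 0), (189, 1, 332066, 0), (-33, 1, 69909, 2), (-30, 1, 332049, 2), (-126, 1, 17903441, 0), (6, 0, 16064786, 0), (-90, 1, 332321, 0), (-20, 0, 4283568401, 0), (42, 1, 257036561, 0), (-126, 1, 279621, 0)]),
  (48, [(1, .m (.v 1) (.m (.v 1) (.m (.v 1) (.m (.v 2) (.m (.v 1) (.v 5))))))],
    [(-4, 0, 4283506961, 0), (-3, 1, 17899345, 1), (-24, 0, 16060706, 0), (-24, 1, 332049, 2), (16, 1, 256971026, 0), (30, 1, 17903441, 0), (-4, 1, 332050, 1), (-14, 1, 332051, 0), (1, 1, 279621, 0)]),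
  (9216, [(1, .m (.v 1) (.m (.v 1) (.m (.v 1) (.m (.v 3) (.v 5)))))],
    [(-768, 0, 16068881, 0), (4428, 1, 332081, 0), (-3882, 1, 256971026, 0), (1941, 1, 4582274321, 0), (-1260, 1, 70181, 0), (-444, 1, 69925, 1), (-360, 0, 20771, 0), (2790, 1, 332321, 0), (420, 1, 17903441, 0), (-720, 1, 332066, 0), (-720, 0, 21026, 0), (-480, 1, 332051, 0), (-192, 1, 69909, 17), (-128, 0, 16064785, 1), (-960, 0, 16064786, 0), (-576, 1, 257036561, 0), (128, 0, 4283568401, 0), (-1641, 1, 279621, 0)]),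
  (48, [(1, .m (.v 1) (.m (.v 1) (.m (.v 2) (.m (.v 1) (.m (.v 1) (.v 5))))))],
    [(6, 1, 68536045841, 0), (10, 0, 16060689, 2), (1, 1, 4582274321, 0), (10, 1, 332051, 0), (-5, 1, 17903441, 0), (-4, 1, 256971025, 1), (-12, 0, 4283502866, 0), (-16, 1, 256971026, 0), (15, 1, 256971041, 0), (-5, 1, 279621, 0)]),
  (24, [(1, .m (.v 1) (.m (.v 1) (.m (.v 2) (.m (.v 2) (.v 5)))))],
    [(1, 1, 69909, 17)]),
  (48, [(1, .m (.v 1) (.m (.v 1) (.m (.v 3) (.m (.v 1) (.v 5)))))],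
    [(-6, 1, 68536045841, 0), (-10, 0, 16060689, 2), (-1, 1, 4582274321, 0), (-10, 1, 332051, 0), (5, 1, 17903441, 0), (4, 1, 332049, 17), (4, 1, 256971025, 1), (12, 0, 4283502866, 0), (16, 1, 256971026, 0), (-15, 1, 256971041, 0), (5, 1, 279621, 0)]),
  (24, [(1, .m (.v 1) (.m (.v 1) (.m (.v 4) (.v 5))))],
    [(-2, 1, 256971026, 0), (1, 1, 4582274321, 0), (-6, 0, 20756, 0), (1, 1, 17899345, 1), (-2, 1, 332050, 1), (-2, 0, 21026, 0), (-1, 1, 69909, 2), (3, 1, 69941, 0), (1, 1, 279621, 0)]),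
  (576, [(1, .m (.v 1) (.m (.v 2) (.m (.v 1) (.m (.v 1) (.m (.v 1) (.v 5))))))],
    [(-24, 0, 16060690, 1), (8, 0, 4283506961, 0), (11, 1, 17899345, 1), (-42, 1, 256971041, 0), (-4, 0, 16060689, 2), (-20, 1, 332051, 0), (4, 1, 68536045841, 0), (6, 1, 17903441, 0), (12, 0, 16060706, 0), (24, 0, 16060691, 0), (-2, 1, 332050, 1), (24, 0, 4283502866, 0), (48, 1, 256971025, 1), (19, 1, 279621, 0)]),
  (24, [(1, .m (.v 1) (.m (.v 2) (.m (.v 1) (.m (.v 2) (.v 5)))))],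
    [(-2, 1, 256971025, 1), (3, 1, 332065, 1), (-1, 1, 69925, 1), (3, 1, 17899345, 1), (-2, 0, 20753, 33), (-2, 1, 332050, 1)]),
  (24, [(1, .m (.v 1) (.m (.v 2) (.m (.v 2) (.m (.v 1) (.v 5)))))],
    [(1, 1, 17899345, 1)]),
  (144, [(1, .m (.v 1) (.m (.v 2) (.m (.v 3) (.v 5))))],
    [(12, 1, 69925, 1), (-30, 1, 332049, 2), (30, 1, 256971026, 0), (180, 1, 332051, 0), (-150, 1, 17903441, 0), (225, 1, 332066, 0), (-45, 1, 69909, 2), (30, 0, 16064786, 0), (-90, 1, 332321, 0), (6, 1, 69909, 17), (-4, 0, 4283568401, 0), (4, 0, 16064785, 1), (18, 1, 257036561, 0), (-150, 1, 279621, 0)]),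
  (576, [(1, .m (.v 1) (.m (.v 3) (.m (.v 1) (.m (.v 1) (.v 5)))))],
    [(-11, 1, 17899345, 1), (-6, 1, 17903441, 0), (20, 1, 332051, 0), (-12, 0, 16060706, 0), (42, 1, 256971041, 0), (4, 0, 16060689, 2), (-4, 1, 68536045841, 0), (2, 1, 332050, 1), (-24, 0, 4283502866, 0), (24, 0, 16060690, 1), (-8, 0, 4283506961, 0), (-24, 0, 16060691, 0), (-19, 1, 279621, 0)]),
  (144, [(1, .m (.v 1) (.m (.v 3) (.m (.v 2) (.v 5))))],
    [(30, 1, 332049, 2), (-30, 1, 256971026, 0), (-180, 1, 332051, 0), (150, 1, 17903441, 0), (-225, 1, 332066, 0), (45, 1, 69909, 2), (-30, 0, 16064786, 0), (90, 1, 332321, 0), (-6, 1, 69909, 17), (4, 0, 4283568401, 0), (-4, 0, 16064785, 1), (-18, 1, 257036561, 0), (150, 1, 279621, 0)]),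
  (24, [(1, .m (.v 1) (.m (.v 4) (.m (.v 1) (.v 5))))],
    [(2, 1, 332050, 1), (-1, 1, 17899345, 1)]),
  (48, [(1, .m (.v 2) (.m (.v 1) (.m (.v 1) (.m (.v 1) (.m (.v 1) (.v 5))))))],
    [(-2, 0, 16060689, 2), (1, 1, 4582274321, 0), (-2, 1, 332051, 0), (1, 1, 17903441, 0), (2, 1, 256971026, 0), (2, 1, 68536045841, 0), (-3, 1, 256971041, 0), (1, 1, 279621, 0)]),
  (240, [(1, .m (.v 2) (.m (.v 1) (.m (.v 1) (.m (.v 2) (.v 5)))))],
    [(20, 1, 257036561, 0), (-30, 1, 332321, 0), (10, 1, 256971026, 0), (-5, 1, 4582274321, 0), (4, 1, 69941, 0), (4, 1, 69909, 2), (8, 0, 21026, 0), (7, 1, 279621, 0)]),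
  (24, [(1, .m (.v 2) (.m (.v 1) (.m (.v 2) (.m (.v 1) (.v 5)))))],
    [(-1, 1, 17903441, 0), (-2, 0, 16060689, 2), (3, 1, 4582274321, 0), (-2, 1, 256971026, 0), (-2, 1, 68536045841, 0), (3, 1, 256971041, 0)]),
  (48, [(1, .m (.v 2) (.m (.v 1) (.m (.v 3) (.v 5))))],
    [(1, 1, 69941, 0), (-3, 1, 70181, 0), (12, 1, 332081, 0), (-8, 1, 256971026, 0), (4, 1, 4582274321, 0), (-4, 1, 279621, 0)]),
  (24, [(1, .m (.v 2) (.m (.v 2) (.m (.v 1) (.m (.v 1) (.v 5)))))],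
    [(1, 1, 4582274321, 0)]),
  (24, [(1, .m (.v 2) (.m (.v 2) (.m (.v 2) (.v 5))))],
    [(1, 1, 69909, 2)]),
  (24, [(1, .m (.v 2) (.m (.v 3) (.m (.v 1) (.v 5))))],
    [(2, 1, 332051, 0), (-1, 1, 279621, 0)]),
  (120, [(1, .m (.v 2) (.m (.v 4) (.v 5)))],
    [(8, 1, 69941, 0), (-4, 0, 21026, 0), (-2, 1, 69909, 2), (-1, 1, 279621, 0)]),
  (48, [(1, .m (.v 3) (.m (.v 1) (.m (.v 1) (.m (.v 1) (.v 5)))))],
    [(-1, 1, 4582274321, 0), (-2, 1, 256971026, 0), (2, 0, 16060689, 2), (2, 1, 332051, 0), (-1, 1, 17903441, 0), (2, 1, 68536045841, 0), (3, 1, 256971041, 0), (-1, 1, 279621, 0)]),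
  (240, [(1, .m (.v 3) (.m (.v 1) (.m (.v 2) (.v 5))))],
    [(30, 1, 332321, 0), (-8, 0, 21026, 0), (-4, 1, 69909, 2), (-4, 1, 69941, 0), (-10, 1, 256971026, 0), (5, 1, 4582274321, 0), (-7, 1, 279621, 0)]),
  (24, [(1, .m (.v 3) (.m (.v 2) (.m (.v 1) (.v 5))))],
    [(2, 1, 17903441, 0), (-2, 1, 332051, 0), (1, 1, 279621, 0)]),
  (48, [(1, .m (.v 3) (.m (.v 3) (.v 5)))],
    [(3, 1, 70181, 0), (-1, 1, 69941, 0)]),
  (24, [(1, .m (.v 4) (.m (.v 1) (.m (.v 1) (.v 5))))],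
    [(2, 1, 256971026, 0), (-1, 1, 4582274321, 0)]),
  (120, [(1, .m (.v 4) (.m (.v 2) (.v 5)))],
    [(4, 0, 21026, 0), (2, 1, 69909, 2), (2, 1, 69941, 0), (1, 1, 279621, 0)])]

/-- certificates of level 2:  -/
def jobs2 : List (Int × List (Int × T) × List (Int × Nat × Nat × Nat)) := [
  (288, [(1, .m (.m (.v 3) (.v 5)) (.m (.v 3) (.v 5)))],
    [(-1, 1, 17907541, 0), (-8, 1, 336421, 0), (3, 1, 17968981, 0), (24, 1, 332341, 0), (12, 0, 21811, 0), (96, 2, 3923, 5), (-192, 25, 5, 5), (-96, 33, 5, 5), (384, 40, 5, 5), (-10, 1, 279621, 0)]),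
  (12, [(1, .m (.v 3) (.m (.v 6) (.m (.v 4) (.v 5)))), (1, .m (.m (.v 3) (.v 6)) (.m (.v 4) (.v 5)))],
    [(3, 1, 332358, 0), (-2, 1, 279621, 0)]),
  (48, [(1, .m (.m (.v 4) (.v 5)) (.m (.v 6) (.m (.v 4) (.v 5))))],
    [(3, 1, 349254, 0), (-1, 1, 279621, 0)]),
  (3, [(1, .m (.m (.v 4) (.v 5)) (.m (.v 4) (.v 5)))],
    [(-30, 1, 99947058, 0), (-3, 1, 99947073, 0), (12, 7, 3921, 1045793), (-48, 11, 5, 1045793), (12, 14, 5, 1045778), (24, 18, 5, 1045778), (120, 5, 5, 1045779), (12, 14, 3921, 3922), (-48, 26, 5, 3922), (24, 18, 3921, 3922), (48, 26, 5, 3922), (120, 2, 5, 268390690), (-240, 5, 3921, 268390673), (-120, 5, 3921, 1045793), (480, 5, 3921, 1045778), (12, 7, 5, 268390689), (3, 7, 5, 3924), (-12, 7, 5, 268390689), (11, 1, 279621, 0)]),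
  (24, [(1, .m (.v 4) (.m (.v 5) (.v 6))), (4, .m (.m (.v 1) (.v 5)) (.m (.v 2) (.m (.v 1) (.v 6))))],
    [(6, 1, 413970, 0), (-4, 1, 101785425, 0), (4, 1, 85008225, 0), (-1, 1, 17899365, 0)]),
  (12, [(8, .m (.m (.v 1) (.m (.v 1) (.v 5))) (.m (.v 1) (.m (.v 1) (.v 6)))), (8, .m (.m (.v 1) (.v 5)) (.m (.v 1) (.m (.v 1) (.m (.v 1) (.v 6))))), (8, .m (.m (.v 1) (.v 6)) (.m (.v 1) (.m (.v 1) (.m (.v 1) (.v 5))))), (-10, .m (.m (.v 2) (.v 5)) (.m (.v 2) (.v 6))), (1, .m (.v 5) (.m (.v 4) (.v 6))), (1, .m (.v 6) (.m (.v 4) (.v 5)))],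
    [(-4, 1, 17915745, 0), (-4, 1, 17919825, 0), (6, 1, 18216465, 0), (-3, 1, 70245, 0), (-4, 0, 4373, 3937), (-6, 1, 75105, 0), (2, 1, 17954325, 0), (6, 0, 4438, 2), (-6, 1, 17899365, 0), (18, 1, 71010, 0), (2, 1, 17954385, 0), (2, 1, 17954070, 0), (-4, 0, 4374, 3921), (6, 1, 18281745, 0), (-3, 1, 70230, 0), (-1, 1, 69909, 6), (-6, 0, 8790, 0), (-1, 1, 69910, 5)]),
  (1, [(1, .m (.v 3) (.m (.v 4) (.v 5)))],
    [(1, 2, 3924, 0), (-2, 29, 5, 1), (-1, 44, 5, 1), (4, 14, 5, 2), (-16, 38, 3921, 0)]),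
  (1, [(1, .m (.v 4) (.m (.v 4) (.v 5)))],
    [(1, 7, 3924, 0), (-4, 14, 5, 33), (16, 11, 1045778, 0)]),
  (1, [(1, .m (.v 3) (.m (.v 3) (.v 5)))],
    [(1, 2, 3923, 0), (-2, 25, 5, 0), (-1, 33, 5, 0), (4, 40, 5, 0)])]

/-- certificates of level 3:  -/
def jobs3 : List (Int × List (Int × T) × List (Int × Nat × Nat × Nat)) := [
  (240, [(1, .m (.m (.v 3) (.v 5)) (.m (.v 5) (.m (.v 4) (.v 6))))],
    [(-20, 1, 86991413, 0), (5, 1, 101863253, 0), (100, 1, 100012853, 0), (80, 1, 5583456833813, 0), (-80, 1, 5647881343253, 0), (10, 1, 85128773, 0), (10, 0, 5586788, 0), (40, 52, 101, 5), (-320, 2, 268394769, 24401), (320, 3, 1046033, 24401), (64, 15, 3937, 24401), (-64, 26, 6, 24401), (128, 15, 6, 24402), (-320, 2, 5, 17592175628565), (320, 3, 6, 1610567953), (160, 3, 6, 6288673), (-640, 3, 6, 6288658), (-320, 2, 268394769, 1045781), (320, 3, 1046033, 1045781), (64, 15, 3937, 1045781), (-64, 26, 6, 1045781), (128, 15, 6, 1045797),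 (-320, 2, 5, 412316209425), (320, 3, 6, 68718760213), (160, 3, 6, 268390933), (-640, 3, 6, 268390693), (-40, 14, 6, 1045797), (-40, 44, 6, 24401), (80, 5, 6, 1045813), (-40, 44, 6, 1045781), (-40, 14, 6, 24402), (80, 2, 3938, 24402), (-32, 9, 6, 24402), (-80, 12, 6, 24402), (320, 16, 6, 24402), (-800, 2, 3937, 1045813), (1600, 2, 5, 412316209425), (-1600, 3, 6, 68718760213), (-800, 3, 6, 268390933), (3200, 3, 6, 268390693), (800, 2, 5, 1610572065), (-3200, 2, 5, 1610572050), (80, 2, 3938, 1045797), (-32, 9, 6, 1045797), (-80, 12, 6, 1045797), (320, 16, 6, 1045797), (80, 2, 5, 268395045), (-160, 5, 6, 1610567953), (-80, 5, 6, 6288673), (320, 5, 6, 6288658), (-800, 2, 5, 268394805), (1600, 2, 3937, 1610567953), (-1600, 3, 6, 1610567953), (800, 2, 3937, 6288673), (-800, 3, 6, 6288673), (-3200, 2, 3937, 6288658), (3200, 3, 6, 6288658), (40, 2, 5, 1046085), (-80, 7, 6, 1610567953), (-40, 7, 6, 6288673), (160, 7, 6, 6288658),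 (40, 7, 6, 1045813), (-160, 2, 5, 1610572065), (-80, 2, 3940, 3925), (160, 29, 6, 8021), (80, 44, 6, 8021), (-320, 14, 6, 12117), (1280, 38, 3937, 3925), (40, 2, 3940, 85), (-80, 29, 6, 341), (-40, 44, 6, 341), (160, 14, 6, 597), (-640, 38, 3937, 85), (-30, 1, 279621, 0)]),
  (288, [(1, .m (.m (.v 5) (.m (.v 4) (.v 6))) (.m (.v 5) (.m (.v 4) (.v 6))))],
    [(3, 1, 107237205, 0), (-192, 1, 1958367637606725, 0), (-192, 1, 1959467148185925, 0), (240, 1, 29900100165, 0), (-192, 1, 1969642473328965, 0), (-12, 1, 107279685, 0), (12, 0, 1442205540, 0), (96, 56, 86, 24420), (96, 56, 86, 1046085), (-96, 54, 6, 3925), (48, 54, 6, 85), (96, 53, 101, 5), (768, 7, 1045777, 68718825829), (-3072, 11, 3921, 68718825829), (768, 7, 1046033, 68718760293), (-3072, 11, 3937, 68718760293), (768, 7, 3921, 17592175628645), (-3072, 11, 5, 17592175628645), (768, 7, 3937, 17592174580069), (-3072, 11, 6, 17592174580069), (768, 7, 3921, 412316209430),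 (-3072, 11, 5, 412316209430), (768, 7, 3937, 412316143894), (-3072, 11, 6, 412316143894), (768, 7, 268394769, 268390757), (-3072, 11, 1046033, 268390757), (768, 7, 268390673, 268394853), (-3072, 11, 1045777, 268394853), (768, 7, 1046033, 1610567958), (-3072, 11, 3937, 1610567958), (768, 7, 1045777, 1610572054), (-3072, 11, 3921, 1610572054), (768, 7, 268394769, 6288662), (-3072, 11, 1046033, 6288662), (768, 7, 268390673, 6288918), (-3072, 11, 1045777, 6288918), (-960, 7, 3922, 268395109), (3840, 31, 5, 268395109), (-960, 7, 3938, 268391013), (3840, 31, 6, 268391013), (-960, 7, 3938, 6288678), (3840, 31, 6, 6288678), (-960, 7, 3922, 6288934), (3840, 31, 5, 6288934), (48, 7, 3924, 1046117), (-192, 14, 5, 35649125), (768, 11, 1045778, 1046117), (48, 7, 3924, 24422), (-192, 14, 5, 2187110), (768, 11, 1045778, 24422), (-1, 1, 279621, 0)])]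

def ids0 : List (List (Int × T)) := [pa4, g4]
def ids1 : List (List (Int × T)) := ids0 ++ jobs1.map (fun j => j.2.1)
def ids2 : List (List (Int × T)) := ids1 ++ jobs2.map (fun j => j.2.1)
def ids3 : List (List (Int × T)) := ids2 ++ jobs3.map (fun j => j.2.1)

theorem ok1 : jobs1.all (checkJ ids0) = true := by decide +kernel
theorem ok2 : jobs2.all (checkJ ids1) = true := by decide +kernel
theorem ok3 : jobs3.all (checkJ ids2) = true := by decide +kernel

section sound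

variable {F : Type u} [Field F] {V : Type w} [AddCommGroup V] [Module F V]
  (mul : V →ₗ[F] V →ₗ[F] V)

theorem jobs_sound [CharZero F] {ρ : Nat → V} (comm : ∀ x y, mul x y = mul y x)
    (hρ : Pow mul ρ) (ids : List (List (Int × T))) (hids : ∀ p ∈ ids, HoldsAt mul ⊥ ρ p)
    (jobs : List Job) (h : jobs.all (checkJ ids) = true) :
    ∀ p ∈ ids ++ jobs.map (fun j => j.2.1), HoldsAt mul ⊥ ρ p := by
  intro p hp
  rcases List.mem_append.mp hp with hp | hp
  · exact hids p hp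
  · obtain ⟨j, hj, rfl⟩ := List.mem_map.mp hp
    rw [List.all_eq_true] at h
    have h2 := h j hj
    unfold checkJ at h2
    rw [Bool.and_eq_true] at h2
    refine check_sound mul comm hρ ⊥ ids [] hids (by simp) j.1 ?_ _ _ _ h2.2
    simpa using h2.1

theorem pa4_all [Infinite F] (hpa : ∀ x, mul (mul x x) (mul x x) = mul x (mul x (mul x x))) :
    HoldsAll mul pa4 := by
  have h0 : HoldsAll mul pa0 := by
    intro ρ
    simp only [pa0, evP, T.ev, Int.cast_one, Int.cast_neg, one_smul, neg_smul, hpa, add_zero,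
      add_neg_cancel]
  exact HoldsAll.der mul (HoldsAll.der mul (HoldsAll.der mul h0 5 6) 5 7) 5 8

theorem g4_all [Infinite F] (hs : ∀ x y, mul (mul x x) (mul (mul x x) y) = 0) :
    HoldsAll mul g4 := by
  have h0 : HoldsAll mul g0 := by
    intro ρ
    simp only [g0, evP, T.ev, hs, smul_zero, add_zero]
  exact HoldsAll.der mul (HoldsAll.der mul (HoldsAll.der mul h0 5 6) 5 7) 5 8

/-- the linearised identity -/
theorem pa_lin [Infinite F] (comm : ∀ x y, mul x y = mul y x)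
    (hpa : ∀ x, mul (mul x x) (mul x x) = mul x (mul x (mul x x))) (x y : V) :
    (4 : F) • mul (mul x x) (mul x y) =
      mul (mul x (mul x x)) y + mul x (mul (mul x x) y) +
        (2 : F) • mul x (mul x (mul x y)) := by
  have h0 : HoldsAll mul pa0 := by
    intro ρ
    simp only [pa0, evP, T.ev, Int.cast_one, Int.cast_neg, one_smul, neg_smul, hpa, add_zero,
      add_neg_cancel]
  have h1 := HoldsAll.der mul h0 5 6 (fun n => if n = 5 then x else y)
  simp only [pa0, derP, T.der, evP, T.ev, Nat.beq, cond_true, List.map_cons,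
    List.map_nil, List.append_nil, List.cons_append, List.nil_append, Int.cast_one,
    Int.cast_neg, one_smul, neg_smul, if_true] at h1
  simp only [reduceIte, Nat.reduceEqDiff, comm y x, comm (mul x y) (mul x x),
    comm y (mul x (mul x x)), comm y (mul x x)] at h1
  rw [← sub_eq_zero]
  rw [← h1]
  module

/-- the assignment `x, x², x³, x⁴, a, b` -/
def rho (z a b : V) : Nat → V
  | 1 => z
  | 2 => mul z z
  | 3 => mul z (mul z z)
  | 4 => mul (mul z z) (mul z z)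
  | 5 => a
  | 6 => b
  | _ => 0

theorem pow_rho [CharZero F] (comm : ∀ x y, mul x y = mul y x)
    (hpa : ∀ x, mul (mul x x) (mul x x) = mul x (mul x (mul x x)))
    (hs : ∀ x y, mul (mul x x) (mul (mul x x) y) = 0) (z a b : V) :
    Pow mul (rho mul z a b) := by
  have hl := pa_lin mul comm hpa
  have h23 : mul (mul z z) (mul z (mul z z)) = 0 := by
    have := hs z z
    rwa [comm (mul z z) z] at this
  have e13 : mul z (mul z (mul z z)) = mul (mul z z) (mul z z) := (hpa z).symm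
  have h24 : mul (mul z z) (mul (mul z z) (mul z z)) = 0 := hs z (mul z z)
  have h14 : mul z (mul (mul z z) (mul z z)) = 0 := by
    have h := hl z (mul z z)
    rw [h23, smul_zero, comm (mul z (mul z z)) (mul z z), h23, zero_add, e13] at h
    have h2 : (3 : F) • mul z (mul (mul z z) (mul z z)) = 0 := by
      rw [h]
      module
    exact (smul_eq_zero.mp h2).resolve_left (by norm_num)
  have h33 : mul (mul z (mul z z)) (mul z (mul z z)) = 0 := by
    have h := hl z (mul z (mul z z))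
    rw [e13, h24, h23, h14, smul_zero, map_zero, smul_zero, add_zero, add_zero] at h
    exact h.symm
  have h34 : mul (mul z (mul z z)) (mul (mul z z) (mul z z)) = 0 := by
    have h := hl z (mul (mul z z) (mul z z))
    simp only [h14, h24, map_zero, smul_zero, add_zero] at h
    exact h.symm
  have h44 : mul (mul (mul z z) (mul z z)) (mul (mul z z) (mul z z)) = 0 := by
    rw [hpa (mul z z), hs z]
  have h13 : mul z (mul z (mul z z)) = mul (mul z z) (mul z z) := e13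
  intro i j hi hj hi4 hj4
  have c13 := comm z (mul z (mul z z))
  interval_cases i <;> interval_cases j <;>
    simp only [rho, Nat.reduceAdd, Nat.reduceLeDiff, if_true, if_false] <;>
    first
      | rfl
      | assumption
      | (rw [comm] <;> assumption)

end sound

/-- Perfect finite-dimensional commutative algebras with `(xx)(xx) = x(x(xx))` and
`(xx)((xx)y) = 0` are zero. -/
theorem s2_subsingleton {F : Type u} [Field F] [CharZero F] {V : Type w} [AddCommGroup V]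
    [Module F V] [FiniteDimensional F V] (m : V →ₗ[F] V →ₗ[F] V)
    (comm : ∀ x y, m x y = m y x)
    (perf : Submodule.span F {z : V | ∃ a b : V, z = m a b} = ⊤)
    (hpa4 : ∀ x, m (m x x) (m x x) = m x (m x (m x x)))
    (hs2 : ∀ x y, m (m x x) (m (m x x) y) = 0) : Subsingleton V := by
  have hall : ∀ z a b : V, ∀ p ∈ ids3, HoldsAt m ⊥ (rho m z a b) p := by
    intro z a b
    have hpow := pow_rho m comm hpa4 hs2 z a b
    have h0 : ∀ p ∈ ids0, HoldsAt m ⊥ (rho m z a b) p := by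
      intro p hp
      unfold ids0 at hp
      rcases List.mem_cons.mp hp with rfl | hp
      · exact HoldsAll.at m (pa4_all m hpa4) ⊥ _
      · rcases List.mem_cons.mp hp with rfl | hp
        · exact HoldsAll.at m (g4_all m hs2) ⊥ _
        · simp at hp
    have h1 := jobs_sound m comm hpow ids0 h0 jobs1 ok1
    have h2 := jobs_sound m comm hpow ids1 h1 jobs2 ok2
    exact jobs_sound m comm hpow ids2 h2 jobs3 ok3
  have get : ∀ (z a b : V) (n : Nat) (hn : n < ids3.length),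
      evP m (rho m z a b) (ids3[n]) = 0 := by
    intro z a b n hn
    have := hall z a b _ (List.getElem_mem hn) (rho m z a b) (fun _ _ _ => rfl)
    exact (Submodule.mem_bot F).mp this
  have ev : ∀ (z a b : V) (p : List (Int × T)), evP m (rho m z a b) p = 0 →
      evP m (rho m z a b) p = 0 := fun _ _ _ _ h => h
  have t1 : ∀ z a : V, m (m (x3 m z) a) (m (x3 m z) a) = 0 := by
    intro z a
    have h := ev z a 0 [(1, .m (.m (.v 3) (.v 5)) (.m (.v 3) (.v 5)))]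
      (get z a 0 51 (by decide))
    simp only [evP, T.ev, rho, Int.cast_one, one_smul, add_zero] at h
    exact h
  have t2 : ∀ z a b : V,
      m (x3 m z) (m (m (x4 m z) a) b) + m (m (x4 m z) a) (m (x3 m z) b) = 0 := by
    intro z a b
    have h := ev z a b [(1, .m (.v 3) (.m (.v 6) (.m (.v 4) (.v 5)))),
      (1, .m (.m (.v 3) (.v 6)) (.m (.v 4) (.v 5)))] (get z a b 52 (by decide))
    simp only [evP, T.ev, rho, Int.cast_one, one_smul, add_zero] at h
    rw [comm (m (x4 m z) a) b, comm (m (x4 m z) a) (m (x3 m z) b)]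
    exact h
  have t3 : ∀ z a b : V, m (m (x4 m z) a) (m (m (x4 m z) a) b) = 0 := by
    intro z a b
    have h := ev z a b [(1, .m (.m (.v 4) (.v 5)) (.m (.v 6) (.m (.v 4) (.v 5))))]
      (get z a b 53 (by decide))
    simp only [evP, T.ev, rho, Int.cast_one, one_smul, add_zero] at h
    rw [comm (m (x4 m z) a) b]
    exact h
  have t6 : ∀ z a : V, m (m (x4 m z) a) (m (x4 m z) a) = 0 := by
    intro z a
    have h := ev z a 0 [(1, .m (.m (.v 4) (.v 5)) (.m (.v 4) (.v 5)))]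
      (get z a 0 54 (by decide))
    simp only [evP, T.ev, rho, Int.cast_one, one_smul, add_zero] at h
    exact h
  have hT : ∀ x y z, m (x4 m x) (m y z) = (-4 : F) • m (m x y) (m (m x x) (m x z)) := by
    intro z a b
    have h := ev z a b [(1, .m (.v 4) (.m (.v 5) (.v 6))),
      (4, .m (.m (.v 1) (.v 5)) (.m (.v 2) (.m (.v 1) (.v 6))))] (get z a b 55 (by decide))
    simp only [evP, T.ev, rho, Int.cast_one, one_smul, add_zero, Int.cast_ofNat] at h
    rw [neg_smul]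
    exact eq_neg_of_add_eq_zero_left h
  have c34 : ∀ z a : V, m (x3 m z) (m (x4 m z) a) = 0 := by
    intro z a
    have h := ev z a 0 [(1, .m (.v 3) (.m (.v 4) (.v 5)))] (get z a 0 57 (by decide))
    simp only [evP, T.ev, rho, Int.cast_one, one_smul, add_zero] at h
    exact h
  have c44 : ∀ z a : V, m (x4 m z) (m (x4 m z) a) = 0 := by
    intro z a
    have h := ev z a 0 [(1, .m (.v 4) (.m (.v 4) (.v 5)))] (get z a 0 58 (by decide))
    simp only [evP, T.ev, rho, Int.cast_one, one_smul, add_zero] at h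
    exact h
  have c33 : ∀ z a : V, m (x3 m z) (m (x3 m z) a) = 0 := by
    intro z a
    have h := ev z a 0 [(1, .m (.v 3) (.m (.v 3) (.v 5)))] (get z a 0 59 (by decide))
    simp only [evP, T.ev, rho, Int.cast_one, one_smul, add_zero] at h
    exact h
  have t4 : ∀ z a b : V, m (m (x3 m z) a) (m (m (x4 m z) b) a) = 0 := by
    intro z a b
    have h := ev z a b [(1, .m (.m (.v 3) (.v 5)) (.m (.v 5) (.m (.v 4) (.v 6))))]
      (get z a b 60 (by decide))
    simp only [evP, T.ev, rho, Int.cast_one, one_smul, add_zero] at h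
    rw [comm (m (x4 m z) b) a]
    exact h
  have t5 : ∀ z a b : V, m (m (m (x4 m z) b) a) (m (m (x4 m z) b) a) = 0 := by
    intro z a b
    have h := ev z a b [(1, .m (.m (.v 5) (.m (.v 4) (.v 6))) (.m (.v 5) (.m (.v 4) (.v 6))))]
      (get z a b 61 (by decide))
    simp only [evP, T.ev, rho, Int.cast_one, one_smul, add_zero] at h
    rw [comm (m (x4 m z) b) a]
    exact h
  have hp := fun z : V => pow_rho m comm hpa4 hs2 z 0 0
  have h33 : ∀ z, m (x3 m z) (x3 m z) = 0 := fun z =>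
    hp z 3 3 (by norm_num) (by norm_num) (by norm_num) (by norm_num)
  have h43 : ∀ z, m (x4 m z) (x3 m z) = 0 := fun z =>
    hp z 4 3 (by norm_num) (by norm_num) (by norm_num) (by norm_num)
  refine stage5 m comm perf (pa_lin m comm hpa4) hT h43 c44 ?_ ?_ ?_
  · intro z w
    simp only [map_add, LinearMap.add_apply, h33, c34, t6, comm (m (x4 m z) w) (x3 m z), add_zero]
  · intro z w y
    have e : m (x3 m z + m (x4 m z) w) (m (x3 m z + m (x4 m z) w) y) =
        m (x3 m z) (m (x3 m z) y) +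
        (m (x3 m z) (m (m (x4 m z) w) y) + m (m (x4 m z) w) (m (x3 m z) y)) +
        m (m (x4 m z) w) (m (m (x4 m z) w) y) := by
      simp only [map_add, LinearMap.add_apply]
      abel
    rw [e, c33, t2, t3, add_zero, add_zero]
  · intro z w y
    simp only [map_add, LinearMap.add_apply, t1, t4, t5, add_zero,
      comm (m (m (x4 m z) w) y) (m (x3 m z) y)]

end Pool.Agent.Alb.S2

namespace Pool.Agent.Alb

universe u v

theorem w_SS {F : Type u} [Field F] [CharZero F] {V : Type v} [AddCommGroup V]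
    [Module F V] [FiniteDimensional F V] (m : V →ₗ[F] V →ₗ[F] V)
    (comm : ∀ x y, m x y = m y x)
    (perf : Submodule.span F {z : V | ∃ a b : V, z = m a b} = ⊤)
    (hpa4 : ∀ x, m (m x x) (m x x) = m x (m x (m x x)))
    (h : ∀ x y, m (m x x) (m (m x x) y) = 0) : Subsingleton V :=
  S2.s2_subsingleton m comm perf hpa4 h

end Pool.Agent.Alb
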