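import Mathlib
import Pool.Agent.Lib_MP_380d39.Sq

set_option autoImplicit false

/-!
# Commutative algebras with `(xx)(xx) = x(x(xx))` and `(xx)(x(xy)) = 0`

Kernel-checked certificates (194 identities, 1013 lines) for the identities which say that
`z³ + z⁴w` has level two.
-/

namespace Pool.Agent.Alb.SXX

open Pool.Agent.Alb.Chk Pool.Agent.Alb.Sq

universe u w

def g0 : List (Int × T) := [(1, .m (.m (.v 5) (.v 5)) (.m (.v 5) (.m (.v 5) (.v 9))))]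

def g4 : List (Int × T) := derP 5 8 (derP 5 7 (derP 5 6 g0))

def j1_0 : Job := (2, [(4, .m (.m (.v 5) (.v 6)) (.m (.v 7) (.v 8))), (4, .m (.m (.v 5) (.v 7)) (.m (.v 6) (.v 8))), (4, .m (.m (.v 5) (.v 8)) (.m (.v 6) (.v 7))), (-1, .m (.v 5) (.m (.v 6) (.m (.v 7) (.v 8)))), (-1, .m (.v 5) (.m (.v 7) (.m (.v 6) (.v 8)))), (-1, .m (.v 5) (.m (.v 8) (.m (.v 6) (.v 7)))), (-1, .m (.v 6) (.m (.v 5) (.m (.v 7) (.v 8)))), (-1, .m (.v 6) (.m (.v 7) (.m (.v 5) (.v 8)))), (-1, .m (.v 6) (.m (.v 8) (.m (.v 5) (.v 7)))), (-1, .m (.v 7) (.m (.v 5) (.m (.v 6) (.v 8)))), (-1, .m (.v 7) (.m (.v 6) (.m (.v 5) (.v 8)))), (-1, .m (.v 7) (.m (.v 8) (.m (.v 5) (.v 6)))), (-1, .m (.v 8) (.m (.v 5) (.m (.v 6) (.v 7)))), (-1, .m (.v 8) (.m (.v 6) (.m (.v 5) (.v 7)))), (-1, .m (.v 8) (.m (.v 7) (.m (.v 5) (.v 6))))],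
  [0xacf00802020001])

def j1_1 : Job := (1, [(2, .m (.m (.v 6) (.v 7)) (.m (.v 8) (.m (.v 5) (.v 9)))), (2, .m (.m (.v 6) (.v 7)) (.m (.v 5) (.m (.v 8) (.v 9)))), (2, .m (.m (.v 6) (.v 8)) (.m (.v 7) (.m (.v 5) (.v 9)))), (2, .m (.m (.v 5) (.v 6)) (.m (.v 7) (.m (.v 8) (.v 9)))), (2, .m (.m (.v 6) (.v 8)) (.m (.v 5) (.m (.v 7) (.v 9)))), (2, .m (.m (.v 5) (.v 6)) (.m (.v 8) (.m (.v 7) (.v 9)))), (2, .m (.m (.v 7) (.v 8)) (.m (.v 6) (.m (.v 5) (.v 9)))), (2, .m (.m (.v 5) (.v 7)) (.m (.v 6) (.m (.v 8) (.v 9)))), (2, .m (.m (.v 5) (.v 8)) (.m (.v 6) (.m (.v 7) (.v 9)))), (2, .m (.m (.v 7) (.v 8)) (.m (.v 5) (.m (.v 6) (.v 9)))), (2, .m (.m (.v 5) (.v 7)) (.m (.v 8) (.m (.v 6) (.v 9)))), (2, .m (.m (.v 5) (.v 8)) (.m (.v 7) (.m (.v 6) (.v 9))))],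
  [0xacf120a02020001])

def j1_2 : Job := (3, [(2, .m (.v 1) (.m (.v 1) (.m (.v 1) (.v 5)))), (-4, .m (.v 2) (.m (.v 1) (.v 5))), (1, .m (.v 3) (.v 5)), (1, .m (.v 1) (.m (.v 2) (.v 5)))],
  [0xa2220802030001])

def j1_3 : Job := (72, [(4, .m (.v 1) (.m (.v 1) (.m (.v 2) (.v 5)))), (-4, .m (.v 3) (.m (.v 1) (.v 5))), (5, .m (.v 4) (.v 5)), (4, .m (.v 1) (.m (.v 3) (.v 5)))],
  [0x1ea22220c200200020051120478018001080a888820800c00080044454148406000200a22220a78020001])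

def j1_4 : Job := (72, [(4, .m (.v 1) (.m (.v 2) (.m (.v 1) (.v 5)))), (1, .m (.v 4) (.v 5))],
  [0x1ea22220c20030003101511104100100018028888828600800080144481060060006002222a0a06020002])

def j1_5 : Job := (24, [(1, .m (.v 2) (.m (.v 1) (.m (.v 1) (.v 5))))],
  [0x2222a0a02020003])

def j1_6 : Job := (24, [(1, .m (.v 2) (.m (.v 2) (.v 5))), (2, .m (.v 3) (.m (.v 1) (.v 5)))],
  [0x44454140406000800a22220a08020004])

def j1_7 : Job := (72, [(4, .m (.v 1) (.m (.v 1) (.m (.v 3) (.v 5)))), (5, .m (.v 1) (.m (.v 4) (.v 5)))],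
  [0x8888a0a3603000500511120536010002802891022400c0018014448414d804000a002224a0a9c030005101511110518018002807a8889033c00c001803fd444444214006000c2022222a0a6c030005101f511110650010003007a8888883b00080014004447d441c1804000a00a2260920030006])

def j1_8 : Job := (72, [(4, .m (.v 1) (.m (.v 3) (.m (.v 1) (.v 5)))), (-1, .m (.v 1) (.m (.v 4) (.v 5)))],
  [0x100a888820600c001c4054448106004000e202a22220a1803000600f5111206180180038028889028300c0018407d44444190006000e2204a222082003000700ff51111108500100038808888a8296808001803d4444441c9004000c002223ea20e6c030006])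

def j1_9 : Job := (24, [(1, .m (.v 2) (.m (.v 1) (.m (.v 2) (.v 5))))],
  [0x888fa88380808001c03d4444441c1006000e002224a0a08020007])

def j1_10 : Job := (72, [(1, .m (.v 2) (.m (.v 3) (.v 5)))],
  [0xf511111070c018004080fa8888831000c0024004447d441c2406001000a22240a1802000800ff51111108200100048008892828600c002040444454146004001001ea22240c60020009])

def j1_11 : Job := (144, [(1, .m (.v 3) (.m (.v 1) (.m (.v 1) (.v 5))))],
  [0x101f5111106080100050028889028180c002403fd44444420200600142022222a0a0c03000900f51112060c018005007a888888389008002480544441018060014002223ea20e06030009])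

def j1_12 : Job := (72, [(1, .m (.v 3) (.m (.v 2) (.v 5)))],
  [0x101f511110608018005807fa888888404008002c40444454141804001401ea22240c1802000b005111205030180050008892828180800280144484142404001401ea222220e1803000a])

def j1_13 : Job := (72, [(1, .m (.v 4) (.m (.v 1) (.v 5)))],
  [0x407d44444184004001801fea22222102003000c10111115050c018005807a8889030c00c0030004447d441c0c04001601ea222220e1802000b])

def j1_14 : Job := (720, [(1, .m (.v 1) (.m (.v 1) (.m (.v 4) (.v 5))))],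
  [0x8888a0a9603000c001112f51070c010006180a8888204008003403d4444c18c004001a01ea62220c2002000d10151130430018006900a8890206008003403d44488186004001a01ea422220e7802000c00f521120618010006800888fa9038600c0030014444c15d004001800a22620a027004000c00512210506010006002889102ce00c003000444d416c006001800a246098003000d00511404012c028006802911020600c0034004489414e4060018202a244083003000d])

def j1_15 : Job := (24, [(1, .m (.v 2) (.m (.v 4) (.v 5)))],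
  [0x22222828100c0034004447d481c0406001a00a22260a0802000d001113505040180068028898828600800340144488143006001a01ea422220e0802000d])

def j1_16 : Job := (72, [(1, .m (.v 3) (.m (.v 3) (.v 5)))],
  [0x8888a0a0603000e001111f520706010007007a90888838c00c00380044894141804001c00a24420a1803000e0051122053c0100070028889828500c003800444d4142804001c00a22620a3c03000e])

def j1_17 : Job := (288, [(1, .m (.v 4) (.m (.v 2) (.v 5)))],
  [0x444450503010007890128888208008004080544481060060020002223fea22123002000f0052220418010008100fa88888328008004080544444149004001e4022222a0a6603000f])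

def j1_18 : Job := (1, [(-4, .m (.v 2) (.m (.v 5) (.v 6))), (-8, .m (.m (.v 1) (.v 5)) (.m (.v 1) (.v 6))), (2, .m (.v 1) (.m (.v 1) (.m (.v 5) (.v 6)))), (2, .m (.v 1) (.m (.v 5) (.m (.v 1) (.v 6)))), (2, .m (.v 1) (.m (.v 6) (.m (.v 1) (.v 5)))), (2, .m (.v 5) (.m (.v 1) (.m (.v 1) (.v 6)))), (1, .m (.v 5) (.m (.v 2) (.v 6))), (2, .m (.v 6) (.m (.v 1) (.m (.v 1) (.v 5)))), (1, .m (.v 6) (.m (.v 2) (.v 5)))],
  [0x22ac0802030011])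

def j1_19 : Job := (1, [(-4, .m (.v 3) (.m (.v 5) (.v 6))), (-4, .m (.m (.v 1) (.v 5)) (.m (.v 2) (.v 6))), (-4, .m (.m (.v 1) (.v 6)) (.m (.v 2) (.v 5))), (1, .m (.v 1) (.m (.v 2) (.m (.v 5) (.v 6)))), (1, .m (.v 1) (.m (.v 5) (.m (.v 2) (.v 6)))), (1, .m (.v 1) (.m (.v 6) (.m (.v 2) (.v 5)))), (1, .m (.v 2) (.m (.v 1) (.m (.v 5) (.v 6)))), (1, .m (.v 2) (.m (.v 5) (.m (.v 1) (.v 6)))), (1, .m (.v 2) (.m (.v 6) (.m (.v 1) (.v 5)))), (1, .m (.v 5) (.m (.v 1) (.m (.v 2) (.v 6)))), (1, .m (.v 5) (.m (.v 2) (.m (.v 1) (.v 6)))), (1, .m (.v 5) (.m (.v 3) (.v 6))), (1, .m (.v 6) (.m (.v 1) (.m (.v 2) (.v 5)))), (1, .m (.v 6) (.m (.v 2) (.m (.v 1) (.v 5)))), (1, .m (.v 6) (.m (.v 3) (.v 5)))],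
  [0x24ac0802030012])

def j1_20 : Job := (6, [(1, .m (.v 2) (.m (.v 6) (.m (.v 1) (.v 5)))), (1, .m (.v 2) (.m (.v 1) (.m (.v 5) (.v 6)))), (2, .m (.m (.v 1) (.v 6)) (.m (.v 1) (.m (.v 1) (.v 5))))],
  [0x222ca0a02020012])

def j1_21 : Job := (1, [(6, .m (.v 2) (.m (.v 5) (.m (.v 1) (.v 6)))), (6, .m (.v 2) (.m (.v 1) (.m (.v 5) (.v 6)))), (12, .m (.m (.v 1) (.v 5)) (.m (.v 1) (.m (.v 1) (.v 6))))],
  [0x222ac0a02020013])

def j1_22 : Job := (6, [(1, .m (.v 2) (.m (.v 5) (.m (.v 1) (.v 6)))), (2, .m (.m (.v 1) (.v 5)) (.m (.v 1) (.m (.v 1) (.v 6)))), (-1, .m (.v 2) (.m (.v 6) (.m (.v 1) (.v 5)))), (-2, .m (.m (.v 1) (.v 6)) (.m (.v 1) (.m (.v 1) (.v 5))))],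
  [0x158081806000200ac0402020000])

def j1_23 : Job := (1, [(4, .m (.m (.v 1) (.v 5)) (.m (.v 2) (.v 6))), (4, .m (.m (.v 1) (.v 5)) (.m (.v 1) (.m (.v 1) (.v 6)))), (4, .m (.m (.v 1) (.v 6)) (.m (.v 2) (.v 5))), (2, .m (.v 2) (.m (.v 5) (.m (.v 1) (.v 6)))), (4, .m (.m (.v 1) (.v 6)) (.m (.v 1) (.m (.v 1) (.v 5)))), (2, .m (.v 2) (.m (.v 6) (.m (.v 1) (.v 5)))), (4, .m (.v 3) (.m (.v 5) (.v 6)))],
  [0x22ac20a02020015])

def j1_24 : Job := (4, [(1, .m (.m (.v 1) (.v 5)) (.m (.v 2) (.v 6))), (1, .m (.m (.v 1) (.v 6)) (.m (.v 2) (.v 5))), (2, .m (.m (.v 1) (.v 6)) (.m (.v 1) (.m (.v 1) (.v 5)))), (1, .m (.v 2) (.m (.v 6) (.m (.v 1) (.v 5)))), (1, .m (.v 3) (.m (.v 5) (.v 6)))],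
  [0x158080806000200ac0402020000])

def j1_25 : Job := (1, [(4, .m (.v 2) (.m (.v 5) (.m (.v 1) (.v 6)))), (8, .m (.m (.v 1) (.v 5)) (.m (.v 1) (.m (.v 1) (.v 6)))), (-2, .m (.v 1) (.m (.v 1) (.m (.v 5) (.m (.v 1) (.v 6))))), (-2, .m (.v 1) (.m (.v 5) (.m (.v 1) (.m (.v 1) (.v 6))))), (-2, .m (.v 1) (.m (.m (.v 1) (.v 5)) (.m (.v 1) (.v 6)))), (-5, .m (.v 5) (.m (.v 2) (.m (.v 1) (.v 6)))), (1, .m (.v 5) (.m (.v 3) (.v 6))), (1, .m (.v 5) (.m (.v 1) (.m (.v 2) (.v 6)))), (-2, .m (.m (.v 1) (.v 6)) (.m (.v 1) (.m (.v 1) (.v 5)))), (-1, .m (.m (.v 1) (.v 6)) (.m (.v 2) (.v 5)))],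
  [0x14058040404002c0022bec20c02020018])

def j1_26 : Job := (1, [(2, .m (.v 1) (.m (.v 1) (.m (.v 5) (.m (.v 1) (.v 6))))), (2, .m (.v 1) (.m (.v 5) (.m (.v 1) (.m (.v 1) (.v 6))))), (2, .m (.v 1) (.m (.m (.v 1) (.v 5)) (.m (.v 1) (.v 6)))), (5, .m (.v 5) (.m (.v 2) (.m (.v 1) (.v 6)))), (-1, .m (.v 5) (.m (.v 3) (.v 6))), (-1, .m (.v 5) (.m (.v 1) (.m (.v 2) (.v 6)))), (4, .m (.m (.v 1) (.v 6)) (.m (.v 2) (.v 5))), (-1, .m (.v 2) (.m (.v 6) (.m (.v 1) (.v 5)))), (3, .m (.m (.v 1) (.v 5)) (.m (.v 2) (.v 6))), (3, .m (.v 3) (.m (.v 5) (.v 6)))],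
  [0x2b010180800040158081004000600ac0402030000])

def j1_27 : Job := (1, [(4, .m (.v 2) (.m (.v 6) (.m (.v 1) (.v 5)))), (8, .m (.m (.v 1) (.v 6)) (.m (.v 1) (.m (.v 1) (.v 5)))), (-5, .m (.v 1) (.m (.v 2) (.m (.v 5) (.v 6)))), (-10, .m (.v 1) (.m (.m (.v 1) (.v 5)) (.m (.v 1) (.v 6)))), (4, .m (.v 2) (.m (.v 1) (.m (.v 5) (.v 6)))), (-1, .m (.v 3) (.m (.v 5) (.v 6))), (2, .m (.v 1) (.m (.v 1) (.m (.v 5) (.m (.v 1) (.v 6))))), (2, .m (.v 1) (.m (.v 5) (.m (.v 1) (.m (.v 1) (.v 6))))), (1, .m (.v 1) (.m (.v 5) (.m (.v 2) (.v 6)))), (1, .m (.v 1) (.m (.v 6) (.m (.v 2) (.v 5)))), (-5, .m (.v 6) (.m (.v 2) (.m (.v 1) (.v 5)))), (1, .m (.v 6) (.m (.v 3) (.v 5))), (1, .m (.v 6) (.m (.v 1) (.m (.v 2) (.v 5)))), (-2, .m (.m (.v 1) (.v 5)) (.m (.v 1) (.m (.v 1) (.v 6)))), (-1, .m (.m (.v 1) (.v 5)) (.m (.v 2) (.v 6)))],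
  [0xf65030101800c080ab01008080021805404040400300022dea20c0202001a])

def j1_28 : Job := (6, [(2, .m (.v 1) (.m (.m (.v 1) (.v 5)) (.m (.v 1) (.v 6)))), (3, .m (.v 3) (.m (.v 5) (.v 6))), (-1, .m (.v 1) (.m (.v 5) (.m (.v 2) (.v 6)))), (-1, .m (.v 1) (.m (.v 6) (.m (.v 2) (.v 5)))), (-1, .m (.v 6) (.m (.v 3) (.v 5))), (-1, .m (.v 6) (.m (.v 1) (.m (.v 2) (.v 5)))), (3, .m (.m (.v 1) (.v 5)) (.m (.v 2) (.v 6))), (3, .m (.m (.v 1) (.v 6)) (.m (.v 2) (.v 5))), (-1, .m (.v 2) (.m (.v 5) (.m (.v 1) (.v 6)))), (-1, .m (.v 5) (.m (.v 1) (.m (.v 2) (.v 6)))), (-1, .m (.v 5) (.m (.v 3) (.v 6))), (-1, .m (.v 2) (.m (.v 6) (.m (.v 1) (.v 5))))],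
  [0x158080404000200ac040c03000300560201018002802b0104808001c0158081406001000ac0402030000])

def j1_29 : Job := (1, [(2, .m (.v 1) (.m (.v 1) (.m (.v 5) (.m (.v 1) (.v 6))))), (2, .m (.v 1) (.m (.v 5) (.m (.v 1) (.m (.v 1) (.v 6))))), (5, .m (.v 5) (.m (.v 2) (.m (.v 1) (.v 6)))), (1, .m (.m (.v 1) (.v 6)) (.m (.v 2) (.v 5))), (1, .m (.v 1) (.m (.v 5) (.m (.v 2) (.v 6)))), (1, .m (.v 1) (.m (.v 6) (.m (.v 2) (.v 5)))), (1, .m (.v 6) (.m (.v 3) (.v 5))), (1, .m (.v 6) (.m (.v 1) (.m (.v 2) (.v 5)))), (1, .m (.v 2) (.m (.v 5) (.m (.v 1) (.v 6))))],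
  [0x158080406000000ac0402020002])

def j1_30 : Job := (1, [(1, .m (.v 2) (.m (.v 1) (.m (.v 5) (.v 6)))), (-1, .m (.m (.v 1) (.v 5)) (.m (.v 2) (.v 6))), (-1, .m (.m (.v 1) (.v 6)) (.m (.v 2) (.v 5))), (-1, .m (.v 3) (.m (.v 5) (.v 6)))],
  [0x158080406000a00ac0402020009])

def j1_31 : Job := (1, [(-3, .m (.v 3) (.m (.v 5) (.v 6))), (-3, .m (.m (.v 1) (.v 5)) (.m (.v 2) (.v 6))), (-3, .m (.m (.v 1) (.v 6)) (.m (.v 2) (.v 5))), (1, .m (.v 1) (.m (.v 2) (.m (.v 5) (.v 6)))), (1, .m (.v 1) (.m (.v 5) (.m (.v 2) (.v 6)))), (1, .m (.v 1) (.m (.v 6) (.m (.v 2) (.v 5)))), (1, .m (.v 2) (.m (.v 5) (.m (.v 1) (.v 6)))), (1, .m (.v 2) (.m (.v 6) (.m (.v 1) (.v 5)))), (1, .m (.v 5) (.m (.v 1) (.m (.v 2) (.v 6)))), (1, .m (.v 5) (.m (.v 2) (.m (.v 1) (.v 6)))), (1, .m (.v 5) (.m (.v 3) (.v 6))), (1, .m (.v 6) (.m (.v 1) (.m (.v 2) (.v 5)))), (1, .m (.v 6) (.m (.v 2) (.m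 (.v 1) (.v 5)))), (1, .m (.v 6) (.m (.v 3) (.v 5)))],
  [0x158080406000000ac040202000b])

def j1_32 : Job := (15, [(4, .m (.v 1) (.m (.m (.v 1) (.v 5)) (.m (.v 2) (.v 6)))), (4, .m (.v 1) (.m (.m (.v 1) (.v 6)) (.m (.v 2) (.v 5)))), (4, .m (.v 1) (.m (.v 3) (.m (.v 5) (.v 6)))), (1, .m (.v 4) (.m (.v 5) (.v 6)))],
  [0x1eca060602001c101f65030c01800e880ab011e00c000403d940cc004003400223feca2100803001f])

def j1_33 : Job := (1, [(-4, .m (.v 4) (.m (.v 5) (.v 6))), (-4, .m (.m (.v 1) (.v 5)) (.m (.v 3) (.v 6))), (-4, .m (.m (.v 1) (.v 6)) (.m (.v 3) (.v 5))), (1, .m (.v 1) (.m (.v 3) (.m (.v 5) (.v 6)))), (1, .m (.v 1) (.m (.v 5) (.m (.v 3) (.v 6)))), (1, .m (.v 1) (.m (.v 6) (.m (.v 3) (.v 5)))), (1, .m (.v 3) (.m (.v 1) (.m (.v 5) (.v 6)))), (1, .m (.v 3) (.m (.v 5) (.m (.v 1) (.v 6)))), (1, .m (.v 3) (.m (.v 6) (.m (.v 1) (.v 5)))), (1, .m (.v 5) (.m (.v 1) (.m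 (.v 3) (.v 6)))), (1, .m (.v 5) (.m (.v 3) (.m (.v 1) (.v 6)))), (1, .m (.v 5) (.m (.v 4) (.v 6))), (1, .m (.v 6) (.m (.v 1) (.m (.v 3) (.v 5)))), (1, .m (.v 6) (.m (.v 3) (.m (.v 1) (.v 5)))), (1, .m (.v 6) (.m (.v 4) (.v 5)))],
  [0x26ac0802030020])

def j1_34 : Job := (6, [(1, .m (.v 2) (.m (.v 1) (.m (.v 6) (.m (.v 1) (.v 5))))), (-1, .m (.m (.v 1) (.v 6)) (.m (.v 2) (.m (.v 1) (.v 5)))), (-1, .m (.m (.v 2) (.v 6)) (.m (.v 1) (.m (.v 1) (.v 5)))), (-1, .m (.v 3) (.m (.v 6) (.m (.v 1) (.v 5))))],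
  [0x1bd44101806001200223ea2c0e02020020])

def j1_35 : Job := (1, [(4, .m (.v 4) (.m (.v 5) (.v 6))), (8, .m (.m (.v 2) (.v 5)) (.m (.v 2) (.v 6))), (4, .m (.v 3) (.m (.v 1) (.m (.v 5) (.v 6)))), (-2, .m (.v 2) (.m (.v 5) (.m (.v 2) (.v 6)))), (-2, .m (.v 2) (.m (.v 6) (.m (.v 2) (.v 5)))), (4, .m (.v 5) (.m (.v 3) (.m (.v 1) (.v 6)))), (-1, .m (.v 5) (.m (.v 4) (.v 6))), (4, .m (.v 6) (.m (.v 3) (.m (.v 1) (.v 5)))), (-1, .m (.v 6) (.m (.v 4) (.v 5)))],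
  [0xf65030201000e280b00810080071805404080400380044ac0802020022])

def j1_36 : Job := (2, [(2, .m (.m (.v 1) (.v 5)) (.m (.v 3) (.v 6))), (2, .m (.m (.v 1) (.v 5)) (.m (.v 1) (.m (.v 2) (.v 6)))), (2, .m (.m (.v 1) (.v 6)) (.m (.v 3) (.v 5))), (1, .m (.v 2) (.m (.v 5) (.m (.v 2) (.v 6)))), (2, .m (.m (.v 1) (.v 6)) (.m (.v 1) (.m (.v 2) (.v 5)))), (1, .m (.v 2) (.m (.v 6) (.m (.v 2) (.v 5)))), (2, .m (.v 4) (.m (.v 5) (.v 6)))],
  [0x22ac40a02020022])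

def j1_37 : Job := (1, [(8, .m (.v 2) (.m (.v 5) (.m (.v 2) (.v 6)))), (16, .m (.m (.v 1) (.v 5)) (.m (.v 1) (.m (.v 2) (.v 6)))), (-4, .m (.v 1) (.m (.v 1) (.m (.v 5) (.m (.v 2) (.v 6))))), (-4, .m (.v 1) (.m (.v 5) (.m (.v 1) (.m (.v 2) (.v 6))))), (-4, .m (.v 1) (.m (.m (.v 1) (.v 5)) (.m (.v 2) (.v 6)))), (5, .m (.v 5) (.m (.v 4) (.v 6))), (4, .m (.v 5) (.m (.v 1) (.m (.v 3) (.v 6)))), (-4, .m (.m (.v 2) (.v 6)) (.m (.v 1) (.m (.v 1) (.v 5)))), (-2, .m (.m (.v 2) (.v 5)) (.m (.v 2) (.v 6)))],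
  [0x280b008080800854058040804003c0022bec40c04020024])

def j1_38 : Job := (1, [(2, .m (.v 2) (.m (.v 5) (.m (.v 2) (.v 6)))), (16, .m (.v 1) (.m (.v 1) (.m (.v 5) (.m (.v 2) (.v 6))))), (16, .m (.v 1) (.m (.v 5) (.m (.v 1) (.m (.v 2) (.v 6))))), (16, .m (.v 1) (.m (.m (.v 1) (.v 5)) (.m (.v 2) (.v 6)))), (-19, .m (.v 5) (.m (.v 4) (.v 6))), (-16, .m (.v 5) (.m (.v 1) (.m (.v 3) (.v 6)))), (16, .m (.m (.v 2) (.v 6)) (.m (.v 1) (.m (.v 1) (.v 5)))), (60, .m (.v 4) (.m (.v 5) (.v 6))), (-4, .m (.v 3) (.m (.v 1) (.m (.v 5) (.v 6)))), (34, .m (.v 2) (.m (.v 6) (.m (.v 2) (.v 5)))), (-4, .m (.v 5) (.m (.v 3) (.m (.v 1) (.v 6)))), (-4, .m (.v 6) (.m (.v 3) (.m (.v 1) (.v 5)))), (1, .m (.v 6) (.m (.v 4) (.v 5))), (64, .m (.m (.v 1) (.v 5)) (.m (.v 3) (.v 6))), (64, .m (.m (.v 1) (.v 6)) (.m (.v 3) (.v 5))), (64, .m (.m (.v 1) (.v 6)) (.m (.v 1) (.m (.v 2) (.v 5))))],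
  [0x2b011000800040158080406000400ac0408030000])

def j1_39 : Job := (1, [(8, .m (.v 2) (.m (.v 6) (.m (.v 2) (.v 5)))), (16, .m (.m (.v 1) (.v 6)) (.m (.v 1) (.m (.v 2) (.v 5)))), (-4, .m (.v 1) (.m (.v 1) (.m (.v 6) (.m (.v 2) (.v 5))))), (-4, .m (.v 1) (.m (.v 6) (.m (.v 1) (.m (.v 2) (.v 5))))), (-4, .m (.v 1) (.m (.m (.v 1) (.v 6)) (.m (.v 2) (.v 5)))), (5, .m (.v 6) (.m (.v 4) (.v 5))), (4, .m (.v 6) (.m (.v 1) (.m (.v 3) (.v 5)))), (-4, .m (.m (.v 2) (.v 5)) (.m (.v 1) (.m (.v 1) (.v 6)))), (-2, .m (.m (.v 2) (.v 5)) (.m (.v 2) (.v 6)))],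
  [0x300a8080808008d805404080400400022dea40c04020026])

def j1_40 : Job := (1, [(-30, .m (.v 2) (.m (.v 6) (.m (.v 2) (.v 5)))), (-64, .m (.m (.v 1) (.v 6)) (.m (.v 1) (.m (.v 2) (.v 5)))), (16, .m (.v 1) (.m (.v 1) (.m (.v 6) (.m (.v 2) (.v 5))))), (16, .m (.v 1) (.m (.v 6) (.m (.v 1) (.m (.v 2) (.v 5))))), (-3, .m (.v 6) (.m (.v 4) (.v 5))), (16, .m (.m (.v 2) (.v 5)) (.m (.v 1) (.m (.v 1) (.v 6)))), (-16, .m (.v 1) (.m (.m (.v 1) (.v 5)) (.m (.v 2) (.v 6)))), (-72, .m (.v 4) (.m (.v 5) (.v 6))), (-64, .m (.m (.v 1) (.v 5)) (.m (.v 3) (.v 6))), (-64, .m (.m (.v 1) (.v 6)) (.m (.v 3) (.v 5))), (16, .m (.v 1) (.m (.v 5) (.m (.v 3) (.v 6)))), (16, .m (.v 1) (.m (.v 6) (.m (.v 3) (.v 5)))), (12, .m (.v 3) (.m (.v 1) (.m (.v 5) (.v 6)))), (16, .m (.v 3) (.m (.v 5) (.m (.v 1) (.v 6)))), (16, .m (.v 3) (.m (.v 6) (.m (.v 1) (.v 5)))), (16, .m (.v 5) (.m (.v 1) (.m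 (.v 3) (.v 6)))), (12, .m (.v 5) (.m (.v 3) (.m (.v 1) (.v 6)))), (17, .m (.v 5) (.m (.v 4) (.v 6))), (12, .m (.v 6) (.m (.v 3) (.m (.v 1) (.v 5)))), (2, .m (.v 2) (.m (.v 5) (.m (.v 2) (.v 6))))],
  [0x560201018002002b010800800180158081006000e00ac0408030000])

def j1_41 : Job := (6, [(-1, .m (.v 2) (.m (.v 1) (.m (.v 5) (.m (.v 1) (.v 6))))), (1, .m (.m (.v 1) (.v 6)) (.m (.v 2) (.m (.v 1) (.v 5)))), (1, .m (.m (.v 2) (.v 6)) (.m (.v 1) (.m (.v 1) (.v 5)))), (1, .m (.v 3) (.m (.v 6) (.m (.v 1) (.v 5))))],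
  [0x1bd44101804002000223ec2a0e02030027])

def j1_42 : Job := (1, [(4, .m (.v 3) (.m (.v 6) (.m (.v 1) (.v 5)))), (4, .m (.m (.v 1) (.v 6)) (.m (.v 2) (.m (.v 1) (.v 5)))), (4, .m (.m (.v 1) (.v 6)) (.m (.v 1) (.m (.v 2) (.v 5)))), (2, .m (.v 2) (.m (.v 6) (.m (.v 2) (.v 5)))), (4, .m (.m (.v 2) (.v 6)) (.m (.v 1) (.m (.v 1) (.v 5))))],
  [0x3d940c0806004600224ca0a02020028])

def j1_43 : Job := (2, [(2, .m (.m (.v 1) (.v 6)) (.m (.v 1) (.m (.v 2) (.v 5)))), (1, .m (.v 2) (.m (.v 6) (.m (.v 2) (.v 5)))), (2, .m (.v 2) (.m (.v 1) (.m (.v 5) (.m (.v 1) (.v 6)))))],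
  [0x158081006000200ac0402020000])

def j1_44 : Job := (1, [(6, .m (.v 2) (.m (.v 5) (.m (.v 1) (.m (.v 1) (.v 6))))), (6, .m (.v 2) (.m (.v 1) (.m (.v 5) (.m (.v 1) (.v 6))))), (24, .m (.m (.v 1) (.v 5)) (.m (.v 2) (.m (.v 1) (.v 6)))), (-6, .m (.m (.v 1) (.v 5)) (.m (.v 3) (.v 6))), (-6, .m (.m (.v 1) (.v 5)) (.m (.v 1) (.m (.v 2) (.v 6))))],
  [0x3d440d8041806005200222bec20e0202002a])

def j1_45 : Job := (3, [(2, .m (.v 2) (.m (.v 5) (.m (.v 1) (.m (.v 1) (.v 6))))), (8, .m (.m (.v 1) (.v 5)) (.m (.v 2) (.m (.v 1) (.v 6)))), (2, .m (.m (.v 1) (.v 6)) (.m (.v 3) (.v 5))), (1, .m (.v 2) (.m (.v 5) (.m (.v 2) (.v 6)))), (2, .m (.v 4) (.m (.v 5) (.v 6)))],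
  [0x2b010180c00040158080c04001000ac0402020000])

def j1_46 : Job := (1, [(12, .m (.m (.v 1) (.v 5)) (.m (.v 2) (.m (.v 1) (.v 6)))), (-2, .m (.m (.v 1) (.v 5)) (.m (.v 3) (.v 6))), (-2, .m (.m (.v 1) (.v 5)) (.m (.v 1) (.m (.v 2) (.v 6)))), (4, .m (.m (.v 2) (.v 5)) (.m (.v 1) (.m (.v 1) (.v 6)))), (2, .m (.v 2) (.m (.v 5) (.m (.v 1) (.m (.v 1) (.v 6))))), (-2, .m (.m (.v 1) (.v 6)) (.m (.v 2) (.m (.v 1) (.v 5)))), (-2, .m (.m (.v 2) (.v 6)) (.m (.v 1) (.m (.v 1) (.v 5)))), (-2, .m (.v 3) (.m (.v 6) (.m (.v 1) (.v 5)))), (4, .m (.v 3) (.m (.v 5) (.m (.v 1) (.v 6))))],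
  [0x37a8820100c0057d440d804080600560022bec220e0202002c])

def j1_47 : Job := (4, [(-1, .m (.m (.v 1) (.v 5)) (.m (.v 2) (.m (.v 1) (.v 6)))), (-1, .m (.m (.v 2) (.v 5)) (.m (.v 1) (.m (.v 1) (.v 6)))), (-1, .m (.v 3) (.m (.v 5) (.m (.v 1) (.v 6)))), (1, .m (.v 2) (.m (.v 1) (.m (.v 5) (.m (.v 1) (.v 6)))))],
  [0xac040202000100560201010001802b010100c00140158080406001400ac0402030000])

def j1_48 : Job := (1, [(4, .m (.v 3) (.m (.v 5) (.m (.v 1) (.v 6)))), (4, .m (.m (.v 1) (.v 5)) (.m (.v 2) (.m (.v 1) (.v 6)))), (4, .m (.m (.v 1) (.v 5)) (.m (.v 1) (.m (.v 2) (.v 6)))), (2, .m (.v 2) (.m (.v 5) (.m (.v 2) (.v 6)))), (4, .m (.m (.v 2) (.v 5)) (.m (.v 1) (.m (.v 1) (.v 6))))],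
  [0x3d940c0806005200224ac0a0202002e])

def j1_49 : Job := (4, [(2, .m (.v 3) (.m (.v 5) (.m (.v 1) (.v 6)))), (2, .m (.m (.v 1) (.v 5)) (.m (.v 2) (.m (.v 1) (.v 6)))), (2, .m (.m (.v 2) (.v 5)) (.m (.v 1) (.m (.v 1) (.v 6)))), (-1, .m (.m (.v 1) (.v 5)) (.m (.v 3) (.v 6))), (-1, .m (.m (.v 1) (.v 6)) (.m (.v 3) (.v 5))), (-1, .m (.v 4) (.m (.v 5) (.v 6)))],
  [0x560204018000802b010100800140158080806001800ac0402020000])

def j1_50 : Job := (1, [(4, .m (.m (.v 2) (.v 5)) (.m (.v 2) (.v 6))), (2, .m (.m (.v 2) (.v 5)) (.m (.v 1) (.m (.v 1) (.v 6)))), (2, .m (.v 3) (.m (.v 5) (.m (.v 1) (.v 6)))), (2, .m (.m (.v 2) (.v 6)) (.m (.v 1) (.m (.v 1) (.v 5)))), (2, .m (.v 3) (.m (.v 6) (.m (.v 1) (.v 5)))), (4, .m (.v 4) (.m (.v 5) (.v 6))), (2, .m (.m (.v 1) (.v 5)) (.m (.v 2) (.m (.v 1) (.v 6)))), (2, .m (.m (.v 1) (.v 6)) (.m (.v 2) (.m (.v 1) (.v 5)))), (2, .m (.m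 (.v 1) (.v 5)) (.m (.v 3) (.v 6))), (2, .m (.m (.v 1) (.v 6)) (.m (.v 3) (.v 5)))],
  [0x24ac20a02020030])

def j1_51 : Job := (1, [(-8, .m (.v 4) (.m (.v 5) (.v 6))), (-8, .m (.m (.v 1) (.v 5)) (.m (.v 3) (.v 6))), (-8, .m (.m (.v 1) (.v 6)) (.m (.v 3) (.v 5))), (4, .m (.v 3) (.m (.v 1) (.m (.v 5) (.v 6)))), (-2, .m (.v 2) (.m (.v 5) (.m (.v 2) (.v 6)))), (-2, .m (.v 2) (.m (.v 6) (.m (.v 2) (.v 5)))), (4, .m (.v 5) (.m (.v 3) (.m (.v 1) (.v 6)))), (-1, .m (.v 5) (.m (.v 4) (.v 6))), (4, .m (.v 6) (.m (.v 3) (.m (.v 1) (.v 5)))), (-1, .m (.v 6) (.m (.v 4) (.v 5)))],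
  [0xac040802000100560204010001802b010200800240158080404001e00ac0404030000])

def j1_52 : Job := (1, [(-9, .m (.m (.v 1) (.v 6)) (.m (.v 2) (.m (.v 1) (.v 5)))), (-4, .m (.m (.v 2) (.v 6)) (.m (.v 1) (.m (.v 1) (.v 5)))), (-4, .m (.v 3) (.m (.v 6) (.m (.v 1) (.v 5)))), (5, .m (.v 1) (.m (.v 3) (.m (.v 5) (.v 6)))), (-1, .m (.v 1) (.m (.v 1) (.m (.v 5) (.m (.v 2) (.v 6))))), (-1, .m (.v 1) (.m (.v 1) (.m (.v 6) (.m (.v 2) (.v 5))))), (-1, .m (.v 1) (.m (.v 6) (.m (.v 3) (.v 5)))), (-1, .m (.v 1) (.m (.v 6) (.m (.v 1) (.m (.v 2) (.v 5))))), (5, .m (.v 1) (.m (.m (.v 1) (.v 5)) (.m (.v 2) (.v 6)))), (-1, .m (.v 1) (.m (.v 5) (.m (.v 3) (.v 6)))), (-1, .m (.v 1) (.m (.v 5) (.m (.v 1) (.m (.v 2) (.v 6))))), (5, .m (.v 1) (.m (.m (.v 1) (.v 6)) (.m (.v 2) (.v 5)))), (-5, .m (.m (.v 1) (.v 5)) (.m (.v 2) (.m (.v 1) (.v 6)))), (1, .m (.m (.v 1) (.v 5)) (.m (.v 3) (.v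 6))), (1, .m (.m (.v 1) (.v 5)) (.m (.v 1) (.m (.v 2) (.v 6)))), (1, .m (.m (.v 1) (.v 6)) (.m (.v 3) (.v 5))), (1, .m (.m (.v 1) (.v 6)) (.m (.v 1) (.m (.v 2) (.v 5))))],
  [0x37a8820200c006fd440d80404040063ec206a020202003110165020101000d880ab0100808006c40558080404002e0023ea3ec21002020033])

def j1_53 : Job := (48, [(2, .m (.m (.v 1) (.v 6)) (.m (.v 2) (.m (.v 1) (.v 5)))), (2, .m (.m (.v 1) (.v 5)) (.m (.v 2) (.m (.v 1) (.v 6)))), (1, .m (.v 4) (.m (.v 5) (.v 6)))],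
  [0xac040402000100560210018001802b011800c0014015808c006001600ac040203000c00560201018007002b010400800400158085004002800ac0420030000])

def j1_54 : Job := (1, [(-24, .m (.v 3) (.m (.v 1) (.m (.v 5) (.v 6)))), (24, .m (.v 2) (.m (.m (.v 1) (.v 5)) (.m (.v 1) (.v 6)))), (-6, .m (.v 2) (.m (.v 1) (.m (.v 5) (.m (.v 1) (.v 6))))), (-6, .m (.v 2) (.m (.v 5) (.m (.v 1) (.m (.v 1) (.v 6))))), (-3, .m (.v 2) (.m (.v 5) (.m (.v 2) (.v 6)))), (-3, .m (.v 2) (.m (.v 6) (.m (.v 2) (.v 5)))), (24, .m (.m (.v 1) (.v 6)) (.m (.v 2) (.m (.v 1) (.v 5)))), (-6, .m (.m (.v 1) (.v 6)) (.m (.v 3) (.v 5))), (-6, .m (.m (.v 1) (.v 6)) (.m (.v 1) (.m (.v 2) (.v 5))))],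
  [0x1ec206a020c03003300f65030c018017807b2818300800c080558080c06004600222dea20e02020034])

def j1_55 : Job := (6, [(-4, .m (.v 3) (.m (.v 1) (.m (.v 5) (.v 6)))), (4, .m (.v 2) (.m (.m (.v 1) (.v 5)) (.m (.v 1) (.v 6)))), (-1, .m (.v 4) (.m (.v 5) (.v 6)))],
  [0x56020c018000802b010180800240158080c04001600ac0402020000])

def j1_56 : Job := (1, [(16, .m (.v 3) (.m (.v 5) (.m (.v 1) (.v 6)))), (16, .m (.m (.v 1) (.v 5)) (.m (.v 2) (.m (.v 1) (.v 6)))), (16, .m (.m (.v 2) (.v 5)) (.m (.v 1) (.m (.v 1) (.v 6)))), (-4, .m (.v 1) (.m (.v 2) (.m (.v 5) (.m (.v 1) (.v 6))))), (-4, .m (.v 1) (.m (.v 5) (.m (.v 2) (.m (.v 1) (.v 6))))), (-4, .m (.v 1) (.m (.m (.v 1) (.v 6)) (.m (.v 2) (.v 5)))), (-4, .m (.v 2) (.m (.v 1) (.m (.v 5) (.m (.v 1) (.v 6))))), (-4, .m (.v 2) (.m (.v 5) (.m (.v 1) (.m (.v 1) (.v 6))))), (-4, .m (.v 2) (.m (.m (.v 1) (.v 5)) (.m (.v 1) (.v 6)))),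 (1, .m (.v 5) (.m (.v 4) (.v 6))), (-4, .m (.v 5) (.m (.v 3) (.m (.v 1) (.v 6)))), (-4, .m (.m (.v 1) (.v 6)) (.m (.v 1) (.m (.v 2) (.v 5)))), (-4, .m (.m (.v 1) (.v 6)) (.m (.v 2) (.m (.v 1) (.v 5)))), (-4, .m (.m (.v 1) (.v 6)) (.m (.v 3) (.v 5)))],
  [0x280b008080800cd405804100400640024bec20c08020037])

def j1_57 : Job := (1, [(20, .m (.m (.v 1) (.v 5)) (.m (.v 2) (.m (.v 1) (.v 6)))), (-4, .m (.v 1) (.m (.v 2) (.m (.v 5) (.m (.v 1) (.v 6))))), (-4, .m (.v 1) (.m (.v 5) (.m (.v 2) (.m (.v 1) (.v 6))))), (1, .m (.v 5) (.m (.v 4) (.v 6))), (-4, .m (.v 5) (.m (.v 3) (.m (.v 1) (.v 6)))), (4, .m (.v 1) (.m (.m (.v 1) (.v 5)) (.m (.v 2) (.v 6)))), (4, .m (.v 1) (.m (.v 3) (.m (.v 5) (.v 6)))), (14, .m (.v 4) (.m (.v 5) (.v 6))), (2, .m (.v 2) (.m (.v 6) (.m (.v 2) (.v 5)))), (2, .m (.v 2) (.m (.v 5) (.m (.v 2) (.v 6)))), (8, .m (.m (.v 1) (.v 5)) (.m (.v 3) (.v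 6))), (8, .m (.m (.v 1) (.v 6)) (.m (.v 3) (.v 5))), (-4, .m (.v 3) (.m (.v 1) (.m (.v 5) (.v 6))))],
  [0x2b010080800040158080804000600ac041003000700560202010005802b010100800340158080404003000ac0402020000])

def j1_58 : Job := (1, [(-68, .m (.v 3) (.m (.v 1) (.m (.v 5) (.v 6)))), (68, .m (.v 2) (.m (.m (.v 1) (.v 5)) (.m (.v 1) (.v 6)))), (-16, .m (.v 2) (.m (.v 1) (.m (.v 5) (.m (.v 1) (.v 6))))), (-16, .m (.v 2) (.m (.v 5) (.m (.v 1) (.m (.v 1) (.v 6))))), (-8, .m (.v 2) (.m (.v 5) (.m (.v 2) (.v 6)))), (-8, .m (.v 2) (.m (.v 6) (.m (.v 2) (.v 5)))), (68, .m (.m (.v 1) (.v 6)) (.m (.v 2) (.m (.v 1) (.v 5)))), (-16, .m (.m (.v 1) (.v 6)) (.m (.v 3) (.v 5))), (-16, .m (.m (.v 1) (.v 6)) (.m (.v 1) (.m (.v 2) (.v 5)))), (5, .m (.v 4) (.m (.v 5) (.v 6))), (20, .m (.v 1) (.m (.v 3) (.m (.v 5) (.v 6)))), (20, .m (.v 1) (.m (.m (.v 1) (.v 5)) (.m (.v 2) (.v 6)))),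 (16, .m (.v 1) (.m (.m (.v 1) (.v 6)) (.m (.v 2) (.v 5)))), (-4, .m (.v 1) (.m (.v 2) (.m (.v 5) (.m (.v 1) (.v 6))))), (-4, .m (.v 1) (.m (.v 5) (.m (.v 2) (.m (.v 1) (.v 6))))), (-1, .m (.v 6) (.m (.v 4) (.v 5))), (4, .m (.v 6) (.m (.v 3) (.m (.v 1) (.v 5))))],
  [0x6f510404010010fb081a808800c00dc405580810040042202ac042002001d10156021001800d880fb2818200c00dc03fd458141006006e202ac040803001c1102560204010013807b2818080800d8405580840040034c204a02080200376015010401001ab00a808080c00d858094041004006e01eca064003003300f65031001001a100ab010400c009d805404100400680022dfea221008020039])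

def j1_59 : Job := (6, [(4, .m (.v 3) (.m (.v 1) (.m (.v 5) (.v 6)))), (-9, .m (.v 4) (.m (.v 5) (.v 6))), (-4, .m (.v 1) (.m (.v 3) (.m (.v 5) (.v 6)))), (-4, .m (.v 1) (.m (.m (.v 1) (.v 5)) (.m (.v 2) (.v 6)))), (4, .m (.v 1) (.m (.v 2) (.m (.v 5) (.m (.v 1) (.v 6))))), (4, .m (.v 1) (.m (.v 5) (.m (.v 2) (.m (.v 1) (.v 6))))), (-8, .m (.m (.v 1) (.v 5)) (.m (.v 3) (.v 6))), (-8, .m (.m (.v 1) (.v 6)) (.m (.v 3) (.v 5))), (-2, .m (.v 2) (.m (.v 5) (.m (.v 2) (.v 6)))), (-2, .m (.v 2) (.m (.v 6) (.m (.v 2) (.v 5)))), (4, .m (.v 5) (.m (.v 3) (.m (.v 1) (.v 6)))), (-1, .m (.v 5) (.m (.v 4) (.v 6)))],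
  [0x560201018000802b012a808000c01580aa804000a00ac040a02000700560228018006802b011400c003c0158085004003400ac040a030000])

def j1_60 : Job := (5, [(4, .m (.m (.v 1) (.v 5)) (.m (.v 2) (.m (.v 1) (.v 6)))), (1, .m (.v 4) (.m (.v 5) (.v 6)))],
  [0x158080404000000ac0402020002])

def j1_61 : Job := (1, [(4, .m (.m (.v 1) (.v 6)) (.m (.v 2) (.m (.v 1) (.v 5)))), (1, .m (.v 4) (.m (.v 5) (.v 6)))],
  [0x158080406000000ac0404020007])

def j1_62 : Job := (1, [(4, .m (.v 3) (.m (.v 5) (.m (.v 1) (.v 6)))), (4, .m (.m (.v 2) (.v 5)) (.m (.v 1) (.m (.v 1) (.v 6)))), (-2, .m (.m (.v 1) (.v 5)) (.m (.v 3) (.v 6))), (-2, .m (.m (.v 1) (.v 6)) (.m (.v 3) (.v 5))), (-3, .m (.v 4) (.m (.v 5) (.v 6)))],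
  [0x158080406000200ac040402000c])

def j1_63 : Job := (2, [(2, .m (.v 2) (.m (.v 1) (.m (.v 5) (.m (.v 1) (.v 6))))), (-1, .m (.v 4) (.m (.v 5) (.v 6))), (-1, .m (.m (.v 1) (.v 5)) (.m (.v 3) (.v 6))), (-1, .m (.m (.v 1) (.v 6)) (.m (.v 3) (.v 5)))],
  [0x2b010080800000158080404000400ac040802000f])

def j1_64 : Job := (1, [(2, .m (.m (.v 1) (.v 6)) (.m (.v 1) (.m (.v 2) (.v 5)))), (1, .m (.v 2) (.m (.v 6) (.m (.v 2) (.v 5)))), (1, .m (.v 4) (.m (.v 5) (.v 6))), (1, .m (.m (.v 1) (.v 5)) (.m (.v 3) (.v 6))), (1, .m (.m (.v 1) (.v 6)) (.m (.v 3) (.v 5)))],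
  [0x158080406000000ac0402020014])

def j1_65 : Job := (1, [(4, .m (.m (.v 2) (.v 6)) (.m (.v 1) (.m (.v 1) (.v 5)))), (4, .m (.v 3) (.m (.v 6) (.m (.v 1) (.v 5)))), (-3, .m (.v 4) (.m (.v 5) (.v 6))), (-2, .m (.m (.v 1) (.v 5)) (.m (.v 3) (.v 6))), (-2, .m (.m (.v 1) (.v 6)) (.m (.v 3) (.v 5)))],
  [0x2b010080c000c0158080804000200ac0408020017])

def j1_66 : Job := (4, [(4, .m (.v 1) (.m (.v 1) (.m (.v 5) (.m (.v 2) (.v 6))))), (4, .m (.v 1) (.m (.v 5) (.m (.v 1) (.m (.v 2) (.v 6))))), (4, .m (.v 1) (.m (.m (.v 1) (.v 5)) (.m (.v 2) (.v 6)))), (-5, .m (.v 5) (.m (.v 4) (.v 6))), (-4, .m (.v 5) (.m (.v 1) (.m (.v 3) (.v 6)))), (8, .m (.v 4) (.m (.v 5) (.v 6))), (8, .m (.m (.v 1) (.v 5)) (.m (.v 3) (.v 6))), (8, .m (.m (.v 1) (.v 6)) (.m (.v 3) (.v 5))), (-4, .m (.v 3) (.m (.v 6) (.m (.v 1) (.v 5))))],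
  [0x560220018000802b010080800380158081006000000ac040202001b])

def j1_67 : Job := (4, [(3, .m (.v 4) (.m (.v 5) (.v 6))), (2, .m (.m (.v 2) (.v 5)) (.m (.v 2) (.v 6))), (2, .m (.m (.v 1) (.v 5)) (.m (.v 3) (.v 6))), (2, .m (.m (.v 1) (.v 6)) (.m (.v 3) (.v 5)))],
  [0x158080406001e00ac040202001f])

def j1_68 : Job := (2, [(2, .m (.v 2) (.m (.v 1) (.m (.v 6) (.m (.v 1) (.v 5))))), (-1, .m (.v 4) (.m (.v 5) (.v 6))), (-1, .m (.m (.v 1) (.v 5)) (.m (.v 3) (.v 6))), (-1, .m (.m (.v 1) (.v 6)) (.m (.v 3) (.v 5)))],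
  [0x2b010080800080158080404000c00ac0408020021])

def j1_69 : Job := (12, [(4, .m (.m (.v 2) (.v 5)) (.m (.v 3) (.v 6))), (4, .m (.m (.v 2) (.v 6)) (.m (.v 3) (.v 5))), (-1, .m (.v 2) (.m (.v 5) (.m (.v 3) (.v 6)))), (-1, .m (.v 2) (.m (.v 6) (.m (.v 3) (.v 5)))), (-1, .m (.v 3) (.m (.v 5) (.m (.v 2) (.v 6)))), (-1, .m (.v 3) (.m (.v 6) (.m (.v 2) (.v 5))))],
  [0x444450501018021807b2818600800e803d940c30040070a02c021802003a5016010c01001c300a808600800e9805404300400700046ac0818020044])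

def j1_70 : Job := (15, [(2, .m (.v 1) (.m (.m (.v 1) (.v 6)) (.m (.v 3) (.v 5)))), (2, .m (.v 1) (.m (.m (.v 1) (.v 5)) (.m (.v 3) (.v 6)))), (2, .m (.v 1) (.m (.v 4) (.m (.v 5) (.v 6)))), (1, .m (.v 4) (.m (.v 5) (.m (.v 1) (.v 6))))],
  [0x1fec2a0a06020042101ff615050c018021880b2810f00c000403fd85414c004008000223ffec2a21408030045])

def j1_71 : Job := (12, [(-4, .m (.m (.v 1) (.v 5)) (.m (.v 4) (.v 6))), (-4, .m (.m (.v 1) (.v 6)) (.m (.v 4) (.v 5))), (1, .m (.v 1) (.m (.v 4) (.m (.v 5) (.v 6)))), (1, .m (.v 1) (.m (.v 5) (.m (.v 4) (.v 6)))), (1, .m (.v 1) (.m (.v 6) (.m (.v 4) (.v 5)))), (1, .m (.v 4) (.m (.v 5) (.m (.v 1) (.v 6)))), (1, .m (.v 4) (.m (.v 6) (.m (.v 1) (.v 5)))), (1, .m (.v 5) (.m (.v 1) (.m (.v 4) (.v 6)))), (1, .m (.v 6) (.m (.v 1) (.m (.v 4) (.v 5))))],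
  [0x8888a0a0202004500f65030c01801ca80b008600c00e5805404300600720028ac0818030046])

def j1_72 : Job := (6, [(1, .m (.v 2) (.m (.v 1) (.m (.v 5) (.m (.v 2) (.v 6))))), (2, .m (.m (.v 1) (.v 5)) (.m (.v 3) (.m (.v 1) (.v 6)))), (-1, .m (.m (.v 2) (.v 5)) (.m (.v 1) (.m (.v 2) (.v 6)))), (-1, .m (.v 3) (.m (.v 5) (.m (.v 2) (.v 6))))],
  [0x7a881b00830080104017d88101806005e00223ec4a0e02020046])

def j1_73 : Job := (1, [(5, .m (.m (.v 1) (.v 5)) (.m (.v 4) (.v 6))), (4, .m (.m (.v 1) (.v 5)) (.m (.v 1) (.m (.v 3) (.v 6)))), (-2, .m (.m (.v 2) (.v 5)) (.m (.v 1) (.m (.v 2) (.v 6)))), (-2, .m (.v 2) (.m (.v 5) (.m (.v 1) (.m (.v 2) (.v 6))))), (-2, .m (.v 3) (.m (.v 5) (.m (.v 2) (.v 6))))],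
  [0x5f6204020100187a881b00808080117d440d804080400840022bec420e02030047])

def j1_74 : Job := (96, [(1, .m (.v 2) (.m (.m (.v 1) (.v 5)) (.m (.v 2) (.v 6)))), (1, .m (.v 2) (.m (.m (.v 1) (.v 6)) (.m (.v 2) (.v 5))))],
  [0x10156020c01001488812b011800800ac03d940c0c060082203eca06060300461102f65030c010023880fb28186008011080558098006005601eca069003003f00f650318010020100fb2818c00c011c03d940c3004007c00223ffeca221408020049])

def j1_75 : Job := (2, [(1, .m (.v 4) (.m (.v 5) (.m (.v 1) (.v 6)))), (2, .m (.m (.v 2) (.v 5)) (.m (.v 2) (.m (.v 1) (.v 6)))), (2, .m (.m (.v 2) (.v 5)) (.m (.v 1) (.m (.v 2) (.v 6)))), (2, .m (.v 3) (.m (.v 5) (.m (.v 2) (.v 6)))), (-4, .m (.m (.v 1) (.v 5)) (.m (.v 3) (.m (.v 1) (.v 6))))],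
  [0xf510360104018022007b2818200c00f803d940c0806007a00244ac0a02020049])

def j1_76 : Job := (1, [(8, .m (.v 2) (.m (.v 5) (.m (.v 1) (.m (.v 2) (.v 6))))), (12, .m (.m (.v 1) (.v 5)) (.m (.v 3) (.m (.v 1) (.v 6)))), (-20, .m (.m (.v 1) (.v 5)) (.m (.v 4) (.v 6))), (-16, .m (.m (.v 1) (.v 5)) (.m (.v 1) (.m (.v 3) (.v 6)))), (8, .m (.v 2) (.m (.v 1) (.m (.v 5) (.m (.v 2) (.v 6))))), (4, .m (.v 1) (.m (.v 1) (.m (.m (.v 1) (.v 5)) (.m (.v 2) (.v 6))))), (-4, .m (.v 1) (.m (.v 3) (.m (.v 6) (.m (.v 1) (.v 5))))), (10, .m (.v 1) (.m (.m (.v 1) (.v 5)) (.m (.v 3) (.v 6)))), (10, .m (.v 1) (.m (.m (.v 1) (.v 6)) (.m (.v 3) (.v 5)))), (10, .m (.v 1) (.m (.v 4) (.m (.v 5) (.v 6)))), (-4, .m (.v 1) (.m (.v 5) (.m (.v 3) (.m (.v 1) (.v 6))))), (-1, .m (.v 5) (.m (.v 1) (.m (.v 4) (.v 6)))), (2, .m (.v 2) (.m (.m (.v 1) (.v 5)) (.m (.v 2) (.v 6))))],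
  [0xf510360102018022802fb1020100800cfd440d80410060090202ca040402000b00ff6250502018024880ab01008080025440980404040090a02c0202020043501601010180220a81300808080121405804080400840022bfec42100402004b])

def j1_77 : Job := (1, [(-4, .m (.m (.v 1) (.v 5)) (.m (.v 3) (.m (.v 1) (.v 6)))), (4, .m (.v 1) (.m (.v 1) (.m (.m (.v 1) (.v 5)) (.m (.v 2) (.v 6))))), (-4, .m (.v 1) (.m (.v 3) (.m (.v 6) (.m (.v 1) (.v 5))))), (-4, .m (.v 1) (.m (.v 5) (.m (.v 3) (.m (.v 1) (.v 6))))), (-1, .m (.v 5) (.m (.v 1) (.m (.v 4) (.v 6)))), (-5, .m (.v 4) (.m (.v 5) (.m (.v 1) (.v 6)))), (-2, .m (.v 2) (.m (.m (.v 1) (.v 6)) (.m (.v 2) (.v 5))))],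
  [0xac040403000200560204010001802b010400c00100158081406000c00ac0402020000])

def j1_78 : Job := (2, [(1, .m (.v 4) (.m (.v 6) (.m (.v 1) (.v 5)))), (2, .m (.m (.v 2) (.v 6)) (.m (.v 2) (.m (.v 1) (.v 5)))), (2, .m (.m (.v 2) (.v 6)) (.m (.v 1) (.m (.v 2) (.v 5)))), (2, .m (.v 3) (.m (.v 6) (.m (.v 2) (.v 5)))), (-4, .m (.m (.v 1) (.v 6)) (.m (.v 3) (.m (.v 1) (.v 5))))],
  [0xf610350104018023807b2818200c010403d940c0806008000244ca0a0202004c])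

def j1_79 : Job := (1, [(-30, .m (.v 1) (.m (.m (.v 1) (.v 5)) (.m (.v 3) (.v 6)))), (-30, .m (.v 1) (.m (.m (.v 1) (.v 6)) (.m (.v 3) (.v 5)))), (-30, .m (.v 1) (.m (.v 4) (.m (.v 5) (.v 6)))), (-15, .m (.v 4) (.m (.v 6) (.m (.v 1) (.v 5))))],
  [0x1fea2c0a0603004b101ff516050c010026080ab010f008002803fd45814c006009200223ffea2c2140802004e])

def j1_80 : Job := (15, [(1, .m (.v 4) (.m (.v 6) (.m (.v 1) (.v 5)))), (-1, .m (.v 4) (.m (.v 5) (.m (.v 1) (.v 6))))],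
  [0x158083c06001200ac0402030000])

def j1_81 : Job := (1, [(4, .m (.v 3) (.m (.v 5) (.m (.v 1) (.m (.v 1) (.v 6))))), (-1, .m (.m (.v 1) (.v 5)) (.m (.v 4) (.v 6))), (2, .m (.v 2) (.m (.v 5) (.m (.v 2) (.m (.v 1) (.v 6))))), (8, .m (.m (.v 2) (.v 5)) (.m (.v 2) (.m (.v 1) (.v 6)))), (-2, .m (.m (.v 2) (.v 5)) (.m (.v 3) (.v 6))), (-2, .m (.m (.v 2) (.v 5)) (.m (.v 1) (.m (.v 2) (.v 6))))],
  [0x1ea206c020203004cf510360104018025fa901b008100c013803fd854140806009400224bec20e0202004f])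

def j1_82 : Job := (1, [(4, .m (.v 3) (.m (.v 5) (.m (.v 1) (.m (.v 1) (.v 6))))), (-1, .m (.m (.v 1) (.v 5)) (.m (.v 4) (.v 6))), (2, .m (.v 2) (.m (.v 5) (.m (.v 2) (.m (.v 1) (.v 6))))), (-2, .m (.m (.v 2) (.v 5)) (.m (.v 3) (.v 6))), (-10, .m (.m (.v 2) (.v 5)) (.m (.v 1) (.m (.v 2) (.v 6)))), (-4, .m (.v 4) (.m (.v 5) (.m (.v 1) (.v 6)))), (-8, .m (.v 3) (.m (.v 5) (.m (.v 2) (.v 6)))), (16, .m (.m (.v 1) (.v 5)) (.m (.v 3) (.m (.v 1) (.v 6))))],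
  [0x158081006000c00ac0402020000])

def j1_83 : Job := (6, [(1, .m (.v 2) (.m (.v 1) (.m (.v 6) (.m (.v 2) (.v 5))))), (2, .m (.m (.v 1) (.v 6)) (.m (.v 3) (.m (.v 1) (.v 5)))), (-1, .m (.m (.v 2) (.v 6)) (.m (.v 1) (.m (.v 2) (.v 5)))), (-1, .m (.v 3) (.m (.v 6) (.m (.v 2) (.v 5))))],
  [0x7b081a8083008013001bd48101806007400223ea4c0e02020051])

def j1_84 : Job := (1, [(-24, .m (.v 2) (.m (.m (.v 1) (.v 5)) (.m (.v 2) (.v 6)))), (-18, .m (.v 2) (.m (.m (.v 1) (.v 6)) (.m (.v 2) (.v 5)))), (-12, .m (.v 3) (.m (.v 1) (.m (.v 5) (.m (.v 1) (.v 6))))), (6, .m (.v 2) (.m (.v 5) (.m (.v 2) (.m (.v 1) (.v 6))))), (3, .m (.m (.v 1) (.v 6)) (.m (.v 4) (.v 5))), (-12, .m (.m (.v 1) (.v 6)) (.m (.v 3) (.m (.v 1) (.v 5))))],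
  [0x7b081a808600c013fd840d4040c0400a03ec208a021803005120156021801801b900ab010c00800d4807d940c180400a201fea2c0a1802004e20156020601001b09012b010300c010403d940c4804009201eca060c03004a00ff6150506018026900ab010c00c00d18809404180600a200222dfea221204020052])

def j1_85 : Job := (3, [(2, .m (.v 2) (.m (.m (.v 1) (.v 6)) (.m (.v 2) (.v 5)))), (-4, .m (.v 3) (.m (.v 1) (.m (.v 5) (.m (.v 1) (.v 6))))), (2, .m (.v 2) (.m (.v 5) (.m (.v 2) (.m (.v 1) (.v 6))))), (1, .m (.m (.v 1) (.v 6)) (.m (.v 4) (.v 5))), (-4, .m (.m (.v 1) (.v 6)) (.m (.v 3) (.m (.v 1) (.v 5))))],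
  [0x158086004001400ac0402020000])

def j1_86 : Job := (1, [(4, .m (.v 4) (.m (.v 5) (.m (.v 1) (.v 6)))), (8, .m (.m (.v 2) (.v 5)) (.m (.v 2) (.m (.v 1) (.v 6)))), (4, .m (.v 3) (.m (.v 1) (.m (.v 5) (.m (.v 1) (.v 6))))), (-2, .m (.v 2) (.m (.v 5) (.m (.v 2) (.m (.v 1) (.v 6))))), (-2, .m (.v 2) (.m (.m (.v 1) (.v 6)) (.m (.v 2) (.v 5)))), (4, .m (.m (.v 1) (.v 6)) (.m (.v 3) (.m (.v 1) (.v 5)))), (-1, .m (.m (.v 1) (.v 6)) (.m (.v 4) (.v 5)))],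
  [0x3d840d4040804009e01fec2a0a0402004f50160104018025280fb08181008013d405804040400900044bec20c02020055])

def j1_87 : Job := (8, [(1, .m (.m (.v 2) (.v 5)) (.m (.v 1) (.m (.v 2) (.v 6)))), (1, .m (.v 3) (.m (.v 5) (.m (.v 2) (.v 6)))), (-2, .m (.m (.v 1) (.v 5)) (.m (.v 3) (.m (.v 1) (.v 6))))],
  [0x2b010080c00040158081004001600ac0402030000])

def j1_88 : Job := (6, [(4, .m (.m (.v 2) (.v 5)) (.m (.v 3) (.v 6))), (4, .m (.m (.v 2) (.v 5)) (.m (.v 2) (.m (.v 1) (.v 6)))), (4, .m (.m (.v 2) (.v 6)) (.m (.v 3) (.v 5))), (2, .m (.v 4) (.m (.v 5) (.m (.v 1) (.v 6)))), (4, .m (.m (.v 2) (.v 6)) (.m (.v 2) (.m (.v 1) (.v 5)))), (2, .m (.v 4) (.m (.v 6) (.m (.v 1) (.v 5))))],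
  [0x11111414040600ac0044ac20a0c020056])

def j1_89 : Job := (1, [(-1, .m (.v 2) (.m (.v 5) (.m (.v 3) (.v 6)))), (-1, .m (.v 2) (.m (.v 6) (.m (.v 3) (.v 5)))), (-1, .m (.v 3) (.m (.v 5) (.m (.v 2) (.v 6)))), (3, .m (.v 3) (.m (.v 6) (.m (.v 2) (.v 5)))), (4, .m (.m (.v 2) (.v 6)) (.m (.v 1) (.m (.v 2) (.v 5)))), (-8, .m (.m (.v 1) (.v 6)) (.m (.v 3) (.m (.v 1) (.v 5))))],
  [0xac040803000100560202010005002b010100800340158080404002600ac0402030000])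

def j1_90 : Job := (1, [(4, .m (.v 4) (.m (.v 5) (.m (.v 1) (.v 6)))), (4, .m (.m (.v 1) (.v 5)) (.m (.v 3) (.m (.v 1) (.v 6)))), (4, .m (.m (.v 1) (.v 5)) (.m (.v 1) (.m (.v 3) (.v 6)))), (2, .m (.v 2) (.m (.v 5) (.m (.v 3) (.v 6)))), (4, .m (.m (.v 3) (.v 5)) (.m (.v 1) (.m (.v 1) (.v 6))))],
  [0x7b2818100c013c03d940c1006009800226ac0a02020058])

def j1_91 : Job := (1, [(4, .m (.v 4) (.m (.v 5) (.m (.v 1) (.v 6)))), (8, .m (.m (.v 1) (.v 5)) (.m (.v 3) (.m (.v 1) (.v 6)))), (2, .m (.v 2) (.m (.v 5) (.m (.v 3) (.v 6)))), (4, .m (.m (.v 3) (.v 5)) (.m (.v 1) (.m (.v 1) (.v 6)))), (-5, .m (.m (.v 1) (.v 5)) (.m (.v 4) (.v 6))), (2, .m (.v 2) (.m (.v 5) (.m (.v 1) (.m (.v 2) (.v 6)))))],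
  [0x2b010100c000c0158080406002200ac0402020000])

def j1_92 : Job := (1, [(6, .m (.m (.v 1) (.v 5)) (.m (.v 3) (.m (.v 1) (.v 6)))), (2, .m (.m (.v 3) (.v 5)) (.m (.v 1) (.m (.v 1) (.v 6)))), (3, .m (.v 4) (.m (.v 5) (.m (.v 1) (.v 6)))), (-2, .m (.m (.v 2) (.v 5)) (.m (.v 1) (.m (.v 2) (.v 6)))), (-2, .m (.v 3) (.m (.v 5) (.m (.v 2) (.v 6)))), (-4, .m (.v 3) (.m (.m (.v 1) (.v 5)) (.m (.v 1) (.v 6)))), (2, .m (.m (.v 1) (.v 6)) (.m (.v 3) (.m (.v 1) (.v 5)))), (2, .m (.m (.v 3) (.v 6)) (.m (.v 1) (.m (.v 1) (.v 5)))), (3, .m (.v 4) (.m (.v 6) (.m (.v 1) (.v 5))))],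
  [0x3d440d804080400aa00bec40804030043005f61040101800d0037a8820080c006803fd45814080600aa00225ea2c0e0202005a])

def j1_93 : Job := (2, [(-1, .m (.m (.v 1) (.v 5)) (.m (.v 3) (.m (.v 1) (.v 6)))), (-1, .m (.m (.v 3) (.v 5)) (.m (.v 1) (.m (.v 1) (.v 6)))), (-3, .m (.v 4) (.m (.v 5) (.m (.v 1) (.v 6)))), (2, .m (.v 3) (.m (.m (.v 1) (.v 5)) (.m (.v 1) (.v 6)))), (-1, .m (.m (.v 1) (.v 6)) (.m (.v 3) (.m (.v 1) (.v 5)))), (-1, .m (.m (.v 3) (.v 6)) (.m (.v 1) (.m (.v 1) (.v 5))))],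
  [0x2b010100c00140158080c04001800ac0402030000])

def j1_94 : Job := (1, [(6, .m (.m (.v 1) (.v 6)) (.m (.v 3) (.m (.v 1) (.v 5)))), (2, .m (.m (.v 3) (.v 6)) (.m (.v 1) (.m (.v 1) (.v 5)))), (3, .m (.v 4) (.m (.v 6) (.m (.v 1) (.v 5)))), (-2, .m (.m (.v 2) (.v 6)) (.m (.v 1) (.m (.v 2) (.v 5)))), (-2, .m (.v 3) (.m (.v 6) (.m (.v 2) (.v 5)))), (-4, .m (.v 3) (.m (.m (.v 1) (.v 5)) (.m (.v 1) (.v 6)))), (2, .m (.m (.v 1) (.v 5)) (.m (.v 3) (.m (.v 1) (.v 6)))), (2, .m (.m (.v 3) (.v 5)) (.m (.v 1) (.m (.v 1) (.v 6)))), (3, .m (.v 4) (.m (.v 5) (.m (.v 1) (.v 6))))],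
  [0x17d841004060039ec206a0204020057006f5204020180228037a8820080c007003fd85414080600ae00225ec2a0e0202005c])

def j1_95 : Job := (1, [(1, .m (.v 3) (.m (.v 6) (.m (.v 2) (.v 5)))), (1, .m (.v 2) (.m (.v 5) (.m (.v 3) (.v 6)))), (1, .m (.v 2) (.m (.v 6) (.m (.v 3) (.v 5)))), (1, .m (.v 3) (.m (.v 5) (.m (.v 2) (.v 6))))],
  [0x560204018000802b010080c00140158081804001c00ac0404030000])

def j1_96 : Job := (1, [(4, .m (.m (.v 1) (.v 5)) (.m (.v 3) (.m (.v 1) (.v 6)))), (-1, .m (.m (.v 1) (.v 5)) (.m (.v 4) (.v 6))), (4, .m (.m (.v 3) (.v 5)) (.m (.v 1) (.m (.v 1) (.v 6)))), (2, .m (.v 2) (.m (.v 5) (.m (.v 2) (.m (.v 1) (.v 6))))), (4, .m (.m (.v 1) (.v 6)) (.m (.v 3) (.m (.v 1) (.v 5)))), (-2, .m (.m (.v 2) (.v 6)) (.m (.v 1) (.m (.v 2) (.v 5)))), (-2, .m (.v 3) (.m (.v 6) (.m (.v 2) (.v 5)))), (4, .m (.v 4) (.m (.v 5) (.m (.v 1) (.v 6))))],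
  [0xf61035010201002c8037a9020100c011fd440d804040600b60022bec240e0202005e])

def j1_97 : Job := (2, [(4, .m (.m (.v 1) (.v 5)) (.m (.v 3) (.m (.v 1) (.v 6)))), (-1, .m (.m (.v 1) (.v 5)) (.m (.v 4) (.v 6))), (4, .m (.m (.v 3) (.v 5)) (.m (.v 1) (.m (.v 1) (.v 6)))), (2, .m (.v 2) (.m (.v 5) (.m (.v 2) (.m (.v 1) (.v 6))))), (4, .m (.v 4) (.m (.v 5) (.m (.v 1) (.v 6))))],
  [0x2b010080800040158080404000e00ac0404020000])

def j1_98 : Job := (1, [(16, .m (.m (.v 2) (.v 5)) (.m (.v 2) (.m (.v 1) (.v 6)))), (-2, .m (.m (.v 2) (.v 5)) (.m (.v 3) (.v 6))), (-2, .m (.m (.v 2) (.v 5)) (.m (.v 1) (.m (.v 2) (.v 6)))), (4, .m (.v 3) (.m (.v 5) (.m (.v 1) (.m (.v 1) (.v 6))))), (6, .m (.m (.v 1) (.v 5)) (.m (.v 3) (.m (.v 1) (.v 6)))), (6, .m (.m (.v 3) (.v 5)) (.m (.v 1) (.m (.v 1) (.v 6)))), (11, .m (.v 4) (.m (.v 5) (.m (.v 1) (.v 6)))), (-4, .m (.v 3) (.m (.m (.v 1)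 (.v 5)) (.m (.v 1) (.v 6)))), (2, .m (.m (.v 1) (.v 6)) (.m (.v 3) (.m (.v 1) (.v 5)))), (2, .m (.m (.v 3) (.v 6)) (.m (.v 1) (.m (.v 1) (.v 5)))), (3, .m (.v 4) (.m (.v 6) (.m (.v 1) (.v 5))))],
  [0xbec20802030020006f5104010180107a881b008200c0173d480d804080600be0024bec220e04020060])

def j1_99 : Job := (2, [(-1, .m (.m (.v 1) (.v 5)) (.m (.v 4) (.v 6))), (2, .m (.v 2) (.m (.v 5) (.m (.v 2) (.m (.v 1) (.v 6)))))],
  [0x2b010080800040158080806000a00ac041003000b00560201010008002b010180800480158082004002e00ac0402030000])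

def j1_100 : Job := (1, [(16, .m (.m (.v 1) (.v 5)) (.m (.v 3) (.m (.v 1) (.v 6)))), (-8, .m (.m (.v 2) (.v 5)) (.m (.v 1) (.m (.v 2) (.v 6)))), (-8, .m (.v 3) (.m (.v 5) (.m (.v 2) (.v 6)))), (-4, .m (.v 1) (.m (.v 1) (.m (.m (.v 1) (.v 5)) (.m (.v 2) (.v 6))))), (2, .m (.v 1) (.m (.v 2) (.m (.v 5) (.m (.v 2) (.v 6))))), (-1, .m (.v 1) (.m (.v 4) (.m (.v 5) (.v 6)))), (4, .m (.v 1) (.m (.v 3) (.m (.v 6) (.m (.v 1) (.v 5))))), (5, .m (.m (.v 1) (.v 5)) (.m (.v 4) (.v 6))), (4, .m (.m (.v 1) (.v 5)) (.m (.v 1) (.m (.v 3) (.v 6)))), (-10, .m (.m (.v 2) (.v 6)) (.m (.v 2) (.m (.v 1) (.v 5)))), (2, .m (.m (.v 2) (.v 6)) (.m (.v 3) (.v 5))), (2, .m (.m (.v 2) (.v 6)) (.m (.v 1) (.m (.v 2) (.v 5))))],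
  [0x2fb1020400c012fd440d804040400c1ec406a0204020061101650202010011880ab0100808008bd440d804280400ba0023ea3ec41004020063])

def j1_101 : Job := (2, [(-2, .m (.v 3) (.m (.v 5) (.m (.v 2) (.v 6)))), (-2, .m (.v 1) (.m (.v 2) (.m (.v 5) (.m (.v 2) (.v 6))))), (1, .m (.v 1) (.m (.v 4) (.m (.v 5) (.v 6)))), (2, .m (.m (.v 2) (.v 5)) (.m (.v 3) (.v 6))), (-2, .m (.v 2) (.m (.v 6) (.m (.v 3) (.v 5)))), (4, .m (.v 1) (.m (.v 5) (.m (.v 3) (.m (.v 1) (.v 6))))), (1, .m (.v 5) (.m (.v 1) (.m (.v 4) (.v 6)))), (2, .m (.v 2) (.m (.m (.v 1) (.v 6)) (.m (.v 2) (.v 5)))), (-4, .m (.m (.v 1) (.v 6)) (.m (.v 3) (.m (.v 1) (.v 5)))), (4, .m (.m (.v 1) (.v 5)) (.m (.v 3) (.m (.v 1) (.v 6)))), (-5, .m (.m (.v 1) (.v 5)) (.m (.v 4) (.v 6)))],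
  [0x560202010000802b010100c000c0158080c04000a00ac040402000900560206010005802b010600c00340158082804002800ac04140300160056020201800b802b0101008006c0158080404003e00ac0404030000])

def j1_102 : Job := (6, [(2, .m (.m (.v 2) (.v 5)) (.m (.v 3) (.v 6))), (2, .m (.m (.v 2) (.v 5)) (.m (.v 1) (.m (.v 2) (.v 6)))), (2, .m (.m (.v 2) (.v 6)) (.m (.v 3) (.v 5))), (2, .m (.v 3) (.m (.v 5) (.m (.v 2) (.v 6)))), (2, .m (.m (.v 2) (.v 6)) (.m (.v 1) (.m (.v 2) (.v 5)))), (2, .m (.v 3) (.m (.v 6) (.m (.v 2) (.v 5)))), (-4, .m (.m (.v 1) (.v 5)) (.m (.v 3) (.m (.v 1) (.v 6)))), (-4, .m (.m (.v 1) (.v 6)) (.m (.v 3) (.m (.v 1) (.v 5)))), (2, .m (.m (.v 1) (.v 5)) (.m (.v 4) (.v 6))), (2, .m (.m (.v 1) (.v 6)) (.m (.v 4) (.v 5)))],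
  [0x4444505010180327a881b008600c017fd840d404300600be0024ac40a0c020064])

def j1_103 : Job := (4, [(4, .m (.v 3) (.m (.v 1) (.m (.v 5) (.m (.v 1) (.v 6))))), (-2, .m (.v 3) (.m (.v 5) (.m (.v 2) (.v 6)))), (-2, .m (.v 1) (.m (.v 2) (.m (.v 5) (.m (.v 2) (.v 6))))), (1, .m (.v 1) (.m (.v 4) (.m (.v 5) (.v 6)))), (2, .m (.m (.v 2) (.v 5)) (.m (.v 3) (.v 6))), (-2, .m (.v 2) (.m (.v 6) (.m (.v 3) (.v 5)))), (4, .m (.v 1) (.m (.v 5) (.m (.v 3) (.m (.v 1) (.v 6))))), (1, .m (.v 5) (.m (.v 1) (.m (.v 4) (.v 6)))), (4, .m (.m (.v 1) (.v 5)) (.m (.v 3) (.m (.v 1) (.v 6)))), (-5, .m (.m (.v 1) (.v 5)) (.m (.v 4) (.v 6)))],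
  [0x560204010000802b0102008000c0158080806000e00ac040203000d00560204018007802b010200c00440158080406004200ac0404020000])

def j1_104 : Job := (1, [(-6, .m (.v 2) (.m (.v 5) (.m (.v 2) (.m (.v 1) (.v 6))))), (-6, .m (.v 2) (.m (.v 5) (.m (.v 3) (.v 6)))), (-6, .m (.v 2) (.m (.v 5) (.m (.v 1) (.m (.v 2) (.v 6))))), (-6, .m (.v 2) (.m (.m (.v 1) (.v 6)) (.m (.v 2) (.v 5)))), (-6, .m (.v 2) (.m (.v 1) (.m (.v 5) (.m (.v 2) (.v 6))))), (-6, .m (.v 2) (.m (.v 1) (.m (.v 6) (.m (.v 2) (.v 5))))), (-6, .m (.v 2) (.m (.v 6) (.m (.v 3) (.v 5)))), (-6, .m (.v 2) (.m (.v 6) (.m (.v 1) (.m (.v 2) (.v 5))))), (12, .m (.v 3) (.m (.v 1) (.m (.v 5) (.m (.v 1) (.v 6))))), (3, .m (.m (.v 1) (.v 5)) (.m (.v 4) (.v 6))), (-12, .m (.m (.v 1) (.v 5)) (.m (.v 3) (.m (.v 1) (.v 6))))],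
  [0xf51036010c018031fa881b008180801907d4411804300600ca01fec2a0a1802006200ff6150506010030900ab010300c01294809804180600ca00222bfec221204020066])

def j1_105 : Job := (6, [(2, .m (.v 2) (.m (.v 6) (.m (.v 3) (.v 5)))), (2, .m (.v 2) (.m (.v 6) (.m (.v 1) (.m (.v 2) (.v 5))))), (5, .m (.m (.v 1) (.v 5)) (.m (.v 4) (.v 6))), (4, .m (.m (.v 1) (.v 6)) (.m (.v 3) (.m (.v 1) (.v 5))))],
  [0x2b010300800040158081806000600ac041803000500560206010003802b010180c00240158081806001a00ac040603000f0056020c018008802b010600c00540158083006004000ac0404030000])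

def j1_106 : Job := (1, [(8, .m (.v 3) (.m (.v 6) (.m (.v 2) (.v 5)))), (-16, .m (.m (.v 1) (.v 6)) (.m (.v 3) (.m (.v 1) (.v 5)))), (8, .m (.m (.v 2) (.v 6)) (.m (.v 1) (.m (.v 2) (.v 5)))), (10, .m (.v 1) (.m (.v 4) (.m (.v 5) (.v 6)))), (2, .m (.v 1) (.m (.v 2) (.m (.v 5) (.m (.v 2) (.v 6))))), (-4, .m (.v 1) (.m (.v 5) (.m (.v 3) (.m (.v 1) (.v 6))))), (1, .m (.v 1) (.m (.v 5) (.m (.v 4) (.v 6)))), (1, .m (.v 1) (.m (.v 6) (.m (.v 4) (.v 5)))), (10, .m (.v 1) (.m (.m (.v 1) (.v 5)) (.m (.v 3) (.v 6)))), (10, .m (.v 1) (.m (.m (.v 1) (.v 6)) (.m (.v 3) (.v 5)))), (-2, .m (.v 2) (.m (.v 1) (.m (.v 6) (.m (.v 2) (.v 5))))), (-2, .m (.v 2) (.m (.v 6) (.m (.v 1) (.m (.v 2) (.v 5))))), (-2, .m (.v 2) (.m (.m (.v 1) (.v 6)) (.m (.v 2) (.v 5)))), (1, .m (.v 6) (.m (.v 1) (.m (.v 4) (.v 5)))), (-2, .m (.m (.v 2) (.v 5)) (.m (.v 1) (.m (.v 2) (.v 6)))), (-2, .m (.m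 (.v 2) (.v 5)) (.m (.v 2) (.m (.v 1) (.v 6)))), (-2, .m (.m (.v 2) (.v 5)) (.m (.v 3) (.v 6)))],
  [0x3d840d404200600c6202ac040202002600f650301010030880ab010080c00d98409404080400c6c02a0202030061160250102010031b00a80810080181805404080400ba0024dea40c04020069])

def j1_107 : Job := (12, [(1, .m (.v 4) (.m (.v 5) (.m (.v 1) (.v 6))))],
  [0xac040403000100560208010001802b010500c00140158082006000e00ac040602000b00560203010008802b010400800540158081006002e00ac040403001a0056020201800f802b0101008008c0158082804004800ac0404030000])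

def j1_108 : Job := (6, [(2, .m (.m (.v 2) (.v 6)) (.m (.v 3) (.v 5))), (2, .m (.m (.v 3) (.v 5)) (.m (.v 1) (.m (.v 1) (.v 6)))), (2, .m (.m (.v 2) (.v 5)) (.m (.v 3) (.v 6))), (2, .m (.v 4) (.m (.v 5) (.m (.v 1) (.v 6)))), (2, .m (.m (.v 3) (.v 6)) (.m (.v 1) (.m (.v 1) (.v 5)))), (2, .m (.v 4) (.m (.v 6) (.m (.v 1) (.v 5)))), (2, .m (.m (.v 1) (.v 5)) (.m (.v 3) (.m (.v 1) (.v 6)))), (2, .m (.m (.v 1) (.v 6)) (.m (.v 3) (.m (.v 1) (.v 5)))), (2, .m (.m (.v 1) (.v 5)) (.m (.v 4) (.v 6))), (2, .m (.m (.v 1) (.v 6)) (.m (.v 4) (.v 5)))],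
  [0x11111414040600d40026ac20a0c02006a])

def j1_109 : Job := (4, [(1, .m (.m (.v 3) (.v 6)) (.m (.v 1) (.m (.v 1) (.v 5)))), (1, .m (.m (.v 1) (.v 6)) (.m (.v 3) (.m (.v 1) (.v 5))))],
  [0x158081006000200ac040803000500560204010003802b010280800240158080406001600ac040203000d0056020401800b802b010200c00700158080406004e00ac0404020000])

def j1_110 : Job := (4, [(1, .m (.m (.v 1) (.v 5)) (.m (.v 3) (.m (.v 1) (.v 6)))), (1, .m (.m (.v 3) (.v 5)) (.m (.v 1) (.m (.v 1) (.v 6))))],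
  [0x2b010200c00080158080406001400ac040202000c])

def j1_111 : Job := (2, [(1, .m (.v 3) (.m (.m (.v 1) (.v 5)) (.m (.v 1) (.v 6))))],
  [0x560201010000802b0101808000c0158080404000000ac0402020011])

def j1_112 : Job := (1, [(4, .m (.m (.v 1) (.v 5)) (.m (.v 3) (.m (.v 1) (.v 6)))), (2, .m (.v 2) (.m (.v 5) (.m (.v 3) (.v 6)))), (-5, .m (.m (.v 1) (.v 5)) (.m (.v 4) (.v 6))), (2, .m (.v 2) (.m (.v 5) (.m (.v 1) (.m (.v 2) (.v 6)))))],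
  [0x2b010200c00040158081006000800ac0402020014])

def j1_113 : Job := (4, [(-1, .m (.v 2) (.m (.v 5) (.m (.v 3) (.v 6)))), (-1, .m (.v 2) (.m (.v 6) (.m (.v 3) (.v 5)))), (-1, .m (.v 3) (.m (.v 5) (.m (.v 2) (.v 6)))), (1, .m (.m (.v 2) (.v 6)) (.m (.v 1) (.m (.v 2) (.v 5)))), (-2, .m (.m (.v 1) (.v 6)) (.m (.v 3) (.m (.v 1) (.v 5))))],
  [0x158080c06002200ac0402020017])

def j1_114 : Job := (1, [(1, .m (.v 2) (.m (.v 1) (.m (.v 6) (.m (.v 2) (.v 5)))))],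
  [0x2b010080800480158080404000000ac040202001e])

def j1_115 : Job := (1, [(1, .m (.v 4) (.m (.v 6) (.m (.v 1) (.v 5))))],
  [0x158080404000e00ac0402020022])

def j1_116 : Job := (2, [(1, .m (.m (.v 2) (.v 6)) (.m (.v 2) (.m (.v 1) (.v 5))))],
  [0x56020201800a002b010100c00080158080406000000ac0402020025])

def j1_117 : Job := (15, [(1, .m (.v 4) (.m (.v 5) (.m (.v 2) (.v 6))))],
  [0x1fec4a0a06020071101ff625050c018039080b2811e00c000803fd89414c00400de00223ffec4a21408030074])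

def j1_118 : Job := (15, [(1, .m (.v 4) (.m (.v 6) (.m (.v 2) (.v 5))))],
  [0x1fea4c0a06020072101ff526050c018039880ab011e00c000c03fd49814c00400e000223ffea4c21408030075])

def j1_119 : Job := (1, [(6, .m (.v 4) (.m (.v 6) (.m (.v 2) (.v 5)))), (-24, .m (.m (.v 2) (.v 6)) (.m (.v 3) (.m (.v 1) (.v 5))))],
  [0x7b101a808600c01c003d940c180600ca00444ca0a02020075])

def j1_120 : Job := (24, [(1, .m (.m (.v 2) (.v 6)) (.m (.v 3) (.m (.v 1) (.v 5))))],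
  [0x158081804000200ac0402030000])

def j1_121 : Job := (1, [(6, .m (.v 4) (.m (.v 5) (.m (.v 2) (.v 6)))), (-24, .m (.m (.v 2) (.v 5)) (.m (.v 3) (.m (.v 1) (.v 6))))],
  [0x7a901b008600c01c803d940c180600ce00444ac0a02020077])

def j1_122 : Job := (24, [(1, .m (.m (.v 2) (.v 5)) (.m (.v 3) (.m (.v 1) (.v 6))))],
  [0x158081804000800ac0402030000])

def j1_123 : Job := (6, [(4, .m (.m (.v 2) (.v 5)) (.m (.v 3) (.m (.v 1) (.v 6)))), (4, .m (.m (.v 3) (.v 5)) (.m (.v 2) (.m (.v 1) (.v 6))))],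
  [0x11111414040600f200dea20830030006f52036011801803a8037a8820600c001c03d854103006000e0044bec220e0c020079])

def j1_124 : Job := (4, [(1, .m (.m (.v 3) (.v 5)) (.m (.v 2) (.m (.v 1) (.v 6))))],
  [0x158081006000200ac0402020000])

def j1_125 : Job := (6, [(4, .m (.m (.v 2) (.v 6)) (.m (.v 3) (.m (.v 1) (.v 5)))), (4, .m (.m (.v 3) (.v 6)) (.m (.v 2) (.m (.v 1) (.v 5)))), (-1, .m (.v 4) (.m (.v 5) (.m (.v 2) (.v 6)))), (-1, .m (.v 4) (.m (.v 6) (.m (.v 2) (.v 5))))],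
  [0x22222828080c01ec01bd441060060011ec406a023003007700f6503180180358037a8821e00c002403fd94414300400de01fec2a0a1802006f00ff516050c010037807b0a820600800250055808180600d40044dea220e0c02007b])

def j1_126 : Job := (4, [(1, .m (.m (.v 3) (.v 6)) (.m (.v 2) (.m (.v 1) (.v 5))))],
  [0x560204018002802b0100808001c0158080404001000ac0402020000])

def j1_127 : Job := (6, [(4, .m (.m (.v 2) (.v 5)) (.m (.v 4) (.v 6))), (-8, .m (.m (.v 2) (.v 5)) (.m (.v 3) (.m (.v 1) (.v 6)))), (4, .m (.m (.v 2) (.v 6)) (.m (.v 4) (.v 5))), (2, .m (.v 4) (.m (.v 5) (.m (.v 2) (.v 6)))), (-8, .m (.m (.v 2) (.v 6)) (.m (.v 3) (.m (.v 1) (.v 5)))), (2, .m (.v 4) (.m (.v 6) (.m (.v 2) (.v 5))))],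
  [0x44445050101803efa901b008c00c01e3d880d404600600f00044ac40a0c02007d])

def j1_128 : Job := (4, [(1, .m (.m (.v 2) (.v 5)) (.m (.v 4) (.v 6))), (1, .m (.m (.v 2) (.v 6)) (.m (.v 4) (.v 5)))],
  [0xac041002000500560208010003802b010100c00240158080806001400ac0402020000])

def j1_129 : Job := (12, [(4, .m (.m (.v 2) (.v 5)) (.m (.v 4) (.v 6))), (4, .m (.m (.v 2) (.v 6)) (.m (.v 4) (.v 5))), (-1, .m (.v 2) (.m (.v 5) (.m (.v 4) (.v 6)))), (-1, .m (.v 2) (.m (.v 6) (.m (.v 4) (.v 5)))), (-1, .m (.v 4) (.m (.v 5) (.m (.v 2) (.v 6)))), (-1, .m (.v 4) (.m (.v 6) (.m (.v 2) (.v 5))))],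
  [0x44445050101803f807b2818600801c403d940c300400dea02c02180200715016010c010037b00a808600801c5805404300400de0048ac0818020080])

def j1_130 : Job := (1, [(1, .m (.v 2) (.m (.v 5) (.m (.v 4) (.v 6)))), (1, .m (.v 2) (.m (.v 6) (.m (.v 4) (.v 5))))],
  [0x560204010000802b010080c002c0158080406001800ac0402030000])

def j1_131 : Job := (3, [(4, .m (.m (.v 3) (.v 5)) (.m (.v 3) (.v 6))), (2, .m (.m (.v 3) (.v 5)) (.m (.v 2) (.m (.v 1) (.v 6)))), (2, .m (.m (.v 3) (.v 6)) (.m (.v 2) (.m (.v 1) (.v 5)))), (2, .m (.m (.v 2) (.v 5)) (.m (.v 3) (.m (.v 1) (.v 6)))), (2, .m (.m (.v 2) (.v 6)) (.m (.v 3) (.m (.v 1) (.v 5)))), (2, .m (.m (.v 2) (.v 5)) (.m (.v 4) (.v 6))), (2, .m (.m (.v 2) (.v 6)) (.m (.v 4) (.v 5)))],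
  [0x11111414040601020046ac20a06020081])

def j1_132 : Job := (4, [(1, .m (.m (.v 3) (.v 5)) (.m (.v 3) (.v 6)))],
  [0x158080806000600ac040403000500560202018003802b010100c00240158080806001600ac0402020000])

def j1_133 : Job := (12, [(8, .m (.m (.v 3) (.v 5)) (.m (.v 3) (.v 6))), (-2, .m (.v 3) (.m (.v 5) (.m (.v 3) (.v 6)))), (-2, .m (.v 3) (.m (.v 6) (.m (.v 3) (.v 5))))],
  [0x8888a0a0203008300f65031801003a280b008c00801d1805404600400e80066ac0818020084])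

def j1_134 : Job := (2, [(1, .m (.v 3) (.m (.v 5) (.m (.v 3) (.v 6)))), (1, .m (.v 3) (.m (.v 6) (.m (.v 3) (.v 5))))],
  [0x158082004000200ac0402030000])

def j1_135 : Job := (1, [(6, .m (.v 2) (.m (.v 1) (.m (.v 6) (.m (.v 3) (.v 5))))), (-6, .m (.m (.v 2) (.v 6)) (.m (.v 1) (.m (.v 3) (.v 5)))), (-6, .m (.v 3) (.m (.v 6) (.m (.v 3) (.v 5))))],
  [0x7b081a808300801f001bd4c10180600dc00223ea6c0e02020085])

def j1_136 : Job := (6, [(1, .m (.v 2) (.m (.v 1) (.m (.v 6) (.m (.v 3) (.v 5))))), (-1, .m (.m (.v 2) (.v 6)) (.m (.v 1) (.m (.v 3) (.v 5)))), (1, .m (.v 3) (.m (.v 5) (.m (.v 3) (.v 6))))],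
  [0x158081804000200ac0402020000])

def j1_137 : Job := (3, [(2, .m (.m (.v 2) (.v 5)) (.m (.v 4) (.v 6))), (2, .m (.m (.v 2) (.v 5)) (.m (.v 1) (.m (.v 3) (.v 6)))), (2, .m (.m (.v 2) (.v 6)) (.m (.v 4) (.v 5))), (2, .m (.v 3) (.m (.v 5) (.m (.v 3) (.v 6)))), (2, .m (.m (.v 2) (.v 6)) (.m (.v 1) (.m (.v 3) (.v 5)))), (2, .m (.v 3) (.m (.v 6) (.m (.v 3) (.v 5))))],
  [0x444450501018043fa881b008300c01fbd840d404180600fc0024ac60a06020087])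

def j1_138 : Job := (2, [(1, .m (.m (.v 2) (.v 5)) (.m (.v 1) (.m (.v 3) (.v 6)))), (1, .m (.m (.v 2) (.v 6)) (.m (.v 1) (.m (.v 3) (.v 5))))],
  [0x2b010100c000c0158080806001200ac0402020000])

def j1_139 : Job := (1, [(-1, .m (.v 4) (.m (.v 6) (.m (.v 2) (.v 5)))), (4, .m (.v 3) (.m (.m (.v 1) (.v 6)) (.m (.v 2) (.v 5)))), (-8, .m (.m (.v 1) (.m (.v 1) (.v 6))) (.m (.v 3) (.m (.v 1) (.v 5))))],
  [0x7fb0882a808200c021001bd48100406009a00dea2080803001600ff615050401803f0037a8820100c005c03fd85414080600fa00245ec2a0e02020089])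

def j1_140 : Job := (4, [(-1, .m (.v 3) (.m (.m (.v 1) (.v 6)) (.m (.v 2) (.v 5)))), (2, .m (.m (.v 1) (.m (.v 1) (.v 6))) (.m (.v 3) (.m (.v 1) (.v 5))))],
  [0x158080406002a00ac0402030000])

def j1_141 : Job := (1, [(4, .m (.v 3) (.m (.m (.v 1) (.v 6)) (.m (.v 2) (.v 5)))), (-3, .m (.v 4) (.m (.v 6) (.m (.v 2) (.v 5)))), (-2, .m (.m (.v 3) (.v 6)) (.m (.v 1) (.m (.v 2) (.v 5)))), (-8, .m (.m (.v 1) (.m (.v 1) (.v 6))) (.m (.v 3) (.m (.v 1) (.v 5))))],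
  [0x3fd844154041006010dec206a0204020080006f5204020180260037a9020080c013c03fd498140806010c00225ea4c0e0202008b])

def j1_142 : Job := (2, [(1, .m (.m (.v 3) (.v 6)) (.m (.v 1) (.m (.v 2) (.v 5))))],
  [0x2b010200c00040158080c06002e00ac0402030000])

def j1_143 : Job := (2, [(-3, .m (.m (.v 3) (.v 5)) (.m (.v 1) (.m (.v 2) (.v 6)))), (-3, .m (.v 4) (.m (.v 5) (.m (.v 2) (.v 6)))), (3, .m (.m (.v 3) (.v 6)) (.m (.v 1) (.m (.v 2) (.v 5)))), (3, .m (.v 4) (.m (.v 6) (.m (.v 2) (.v 5))))],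
  [0x17d8810300600a3ec206a020c0300822015602030180258037a90203008013bfd884154043006011801fea2c0a18020084201560203018026fa881b008300c0208017d88101806009400223ec5ea2120402008d])

def j1_144 : Job := (3, [(1, .m (.m (.v 3) (.v 5)) (.m (.v 1) (.m (.v 2) (.v 6))))],
  [0x560203010000802b010180800640158080c06003400ac0402030000])

def j1_145 : Job := (6, [(2, .m (.m (.v 2) (.v 5)) (.m (.v 3) (.m (.v 1) (.v 6)))), (2, .m (.m (.v 2) (.v 5)) (.m (.v 1) (.m (.v 3) (.v 6)))), (2, .m (.v 3) (.m (.v 5) (.m (.v 3) (.v 6)))), (2, .m (.m (.v 3) (.v 5)) (.m (.v 2) (.m (.v 1) (.v 6)))), (2, .m (.m (.v 3) (.v 5)) (.m (.v 1) (.m (.v 2) (.v 6)))), (2, .m (.v 4) (.m (.v 5) (.m (.v 2) (.v 6))))],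
  [0x111114140406011fea206c0218030086f51036010c018042007b2818600c020003d940c300600fe00246ac0a0c02008f])

def j1_146 : Job := (2, [(1, .m (.m (.v 2) (.v 5)) (.m (.v 1) (.m (.v 3) (.v 6)))), (1, .m (.v 3) (.m (.v 5) (.m (.v 3) (.v 6))))],
  [0xac04040300010056020201800a802b010100c005c0158080806003800ac0402020000])

def j1_147 : Job := (1, [(1, .m (.m (.v 2) (.v 6)) (.m (.v 1) (.m (.v 3) (.v 5)))), (-1, .m (.v 3) (.m (.v 5) (.m (.v 3) (.v 6))))],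
  [0x158080406000000ac0402020008])

def j1_148 : Job := (1, [(1, .m (.v 2) (.m (.v 1) (.m (.v 6) (.m (.v 3) (.v 5)))))],
  [0x158080404000000ac040202000b])

def j1_149 : Job := (3, [(1, .m (.v 6) (.m (.v 3) (.m (.v 4) (.v 5))))],
  [0x9301a808600c023c9809404c00401124c05ea2063003008e260250106010045130128083008022c8980d404180601246c04a0218030090601f51030c0100421b012808180802444d80d40430060124c022225fea221204020093])

def j1_150 : Job := (15, [(1, .m (.v 4) (.m (.v 5) (.m (.v 3) (.v 6))))],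
  [0x1fec6a0a06020092101ff635050c018049880b2811e00c000403fd8d414c004012000223ffec6a21408030095])

def j1_151 : Job := (3, [(1, .m (.m (.v 3) (.v 5)) (.m (.v 4) (.v 6)))],
  [0x8888a0a04020095ff611055010c010045002fb082060080023d440fd840c30040115ea606c0206020092005f6104180100090037a90206008008c03d85410300400400026bec240e0c030095])

def j1_152 : Job := (24, [(1, .m (.m (.v 4) (.v 5)) (.m (.v 2) (.m (.v 1) (.v 6))))],
  [0x8888a0a02030096006f51043001000cffb0902a808c00c0247d480d804c0040119ea407ec20630030091f5203601180180450037a9020600c009003d85410300600420044bec240e0c020096])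

def j1_153 : Job := (1, [(-1, .m (.v 2) (.m (.m (.v 1) (.v 5)) (.m (.v 4) (.v 6)))), (-1, .m (.m (.v 4) (.v 5)) (.m (.v 2) (.m (.v 1) (.v 6))))],
  [0xdea2080803001aff61205501020100497a901b00880080237d480fd840c20060124402ca040402002420156020101001aa9013008200c0235480bd840c080401244a04c020803008d2502f610302010049007b0a820200c0089407d840c0404010e0044bfec241002020098])

def j1_154 : Job := (1, [(1, .m (.v 2) (.m (.m (.v 1) (.v 5)) (.m (.v 4) (.v 6))))],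
  [0x158080406000200ac0402030000])

def j1_155 : Job := (1, [(-1, .m (.m (.v 3) (.v 5)) (.m (.v 4) (.v 6))), (-1, .m (.m (.v 4) (.v 6)) (.m (.v 1) (.m (.v 2) (.v 5))))],
  [0x3fd484158040406012c3ea208c021002008f1f5104f61030401804a7a881fb0818200c023bd4c0d8040406012c402ca0404030026520260104010047a9017b0818100c025003d85410100600480022bfec2441202020099])

def j1_156 : Job := (1, [(1, .m (.m (.v 4) (.v 6)) (.m (.v 1) (.m (.v 2) (.v 5))))],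
  [0x158080406000800ac0402030000])

def j1_157 : Job := (2, [(2, .m (.v 4) (.m (.v 5) (.m (.v 3) (.v 6)))), (2, .m (.v 4) (.m (.v 6) (.m (.v 3) (.v 5))))],
  [0x44445050101804dfa901b008400c024bd880d404200601240044ac60a0402009b])

def j1_158 : Job := (2, [(1, .m (.v 4) (.m (.v 6) (.m (.v 3) (.v 5))))],
  [0x158080806000e00ac0402020000])

def j1_159 : Job := (3, [(-1, .m (.v 4) (.m (.v 6) (.m (.v 3) (.v 5)))), (4, .m (.v 3) (.m (.m (.v 1) (.v 6)) (.m (.v 3) (.v 5))))],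
  [0x22222828080c0277fd8441540430060129fec220aa0218030092005f61040c0180080037a9820180c0184017d84103006004000dea2081803002000ff615050c0180470037a9020600c00ac03fd854143006011a00247ec2a0e0c02009d])

def j1_160 : Job := (4, [(1, .m (.v 3) (.m (.m (.v 1) (.v 6)) (.m (.v 3) (.v 5))))],
  [0x158080404000200ac0402020000])

def j1_161 : Job := (12, [(-2, .m (.v 3) (.m (.v 5) (.m (.v 3) (.m (.v 1) (.v 6))))), (-2, .m (.v 3) (.m (.m (.v 1) (.v 6)) (.m (.v 3) (.v 5))))],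
  [0x111114140406013fec206a0230020090005f61046001800e007fb0a828c0080241407d840c600401200066bec20c180200a0])

def j1_162 : Job := (2, [(1, .m (.v 3) (.m (.v 5) (.m (.v 3) (.m (.v 1) (.v 6)))))],
  [0x158080806000200ac0402030000])

def j1_163 : Job := (1, [(-2, .m (.m (.v 2) (.v 5)) (.m (.v 1) (.m (.v 4) (.v 6)))), (-8, .m (.v 3) (.m (.v 5) (.m (.v 3) (.m (.v 1) (.v 6)))))],
  [0x3d440fd840c200401305ea208c020803009cf52036010201004d0fa9023008200c0273d480d8041006013201fec4a0a0803009653026010401804e007fb12828100c025403d894100806005e00244bec40e020200a1])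

def j1_164 : Job := (2, [(1, .m (.m (.v 2) (.v 5)) (.m (.v 1) (.m (.v 4) (.v 6))))],
  [0x158082006000200ac0402030000])

def j1_165 : Job := (2, [(2, .m (.m (.v 3) (.v 5)) (.m (.v 4) (.v 6))), (2, .m (.m (.v 3) (.v 6)) (.m (.v 4) (.v 5)))],
  [0x444450501018051fa901b008200c0263d880d4041006013000bec20810020020f53036010401804f0037a882040080083d8c0d4041006013c0046ac40a040200a3])

def j1_166 : Job := (2, [(1, .m (.m (.v 3) (.v 6)) (.m (.v 4) (.v 5)))],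
  [0x158080806001c00ac0402020000])

def j1_167 : Job := (12, [(4, .m (.m (.v 4) (.v 6)) (.m (.v 1) (.m (.v 2) (.v 5)))), (-1, .m (.v 1) (.m (.m (.v 2) (.v 5)) (.m (.v 4) (.v 6)))), (-1, .m (.m (.v 2) (.v 5)) (.m (.v 1) (.m (.v 4) (.v 6))))],
  [0x22222828080c0297d840d404c006012bea406c021802009910156020c010018308128086008025401bd48103004006601fea4c0a1802009900f526040c0100198b01280860080255807d480c300401320028dea40c180200a6])

def j1_168 : Job := (1, [(1, .m (.v 1) (.m (.m (.v 2) (.v 5)) (.m (.v 4) (.v 6))))],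
  [0x2b010080c000c0158081004001600ac0402030000])

def j1_169 : Job := (1, [(5, .m (.v 2) (.m (.m (.v 1) (.v 5)) (.m (.v 4) (.v 6)))), (4, .m (.v 3) (.m (.v 1) (.m (.v 5) (.m (.v 3) (.v 6))))), (-1, .m (.m (.v 4) (.v 6)) (.m (.v 1) (.m (.v 2) (.v 5))))],
  [0x5f61040401800d7fa9082b0081008028bd880d4042006013e01fec6a0a040200a200ff625050201004f100ab010100800dc80558080404007ec404a020402009f26025010201004f807a93020200c00d5807d480c040401360044dfea4210020200a8])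

def j1_170 : Job := (4, [(1, .m (.v 3) (.m (.v 1) (.m (.v 5) (.m (.v 3) (.v 6)))))],
  [0x2b010080800340158081406001e00ac0402020000])

def j1_171 : Job := (1, [(-5, .m (.v 2) (.m (.m (.v 1) (.v 5)) (.m (.v 4) (.v 6)))), (-4, .m (.v 3) (.m (.v 1) (.m (.v 5) (.m (.v 3) (.v 6))))), (-1, .m (.m (.v 4) (.v 5)) (.m (.v 1) (.m (.v 2) (.v 6))))],
  [0x6f51040401800e7fb1082a80810080293d480d8042006014201fec4a0a040300a0201560202010029807fb1a828100c0290805580804040074a404c02040200a1250260102010050807b12820200c00dd407d880c0404013a0044bfec4210020200aa])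

def j1_172 : Job := (1, [(1, .m (.m (.v 4) (.v 5)) (.m (.v 1) (.m (.v 2) (.v 6))))],
  [0x2b010200c00040158081406002200ac0402030000])

def j1_173 : Job := (12, [(4, .m (.m (.v 4) (.v 5)) (.m (.v 1) (.m (.v 2) (.v 6)))), (1, .m (.v 1) (.m (.m (.v 2) (.v 5)) (.m (.v 4) (.v 6)))), (-1, .m (.m (.v 2) (.v 6)) (.m (.v 1) (.m (.v 4) (.v 5))))],
  [0x444450501018055fa881b009800c026fd880d4043004013e202ac041802002c10165020c01001b288130086008026c017d88103004007201fec4a0a1802009f00f625040c01001c8a8130086008026d407d880c3004013e0028bec40c180200ac])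

def j1_174 : Job := (1, [(1, .m (.m (.v 2) (.v 6)) (.m (.v 1) (.m (.v 4) (.v 5))))],
  [0x2b010200800040158080404000a00ac0402030000])

def j1_175 : Job := (2, [(-2, .m (.m (.v 2) (.v 6)) (.m (.v 1) (.m (.v 4) (.v 5)))), (-2, .m (.v 3) (.m (.v 6) (.m (.v 4) (.v 5))))],
  [0x111114140406015bec206a020802009f006f54040401804b0fa8823008400c02854809804100601420022bec280e040200ad])

def j1_176 : Job := (2, [(1, .m (.v 3) (.m (.v 6) (.m (.v 4) (.v 5))))],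
  [0x158080806000200ac0402030000])

def j1_177 : Job := (1, [(6, .m (.v 2) (.m (.v 1) (.m (.v 6) (.m (.v 4) (.v 5))))), (-6, .m (.m (.v 2) (.v 6)) (.m (.v 1) (.m (.v 4) (.v 5)))), (-6, .m (.v 3) (.m (.v 6) (.m (.v 4) (.v 5))))],
  [0x7b081a8083008028401bd50101806013000223ea8c0e020200af])

def j1_178 : Job := (6, [(1, .m (.v 2) (.m (.v 1) (.m (.v 6) (.m (.v 4) (.v 5)))))],
  [0x2b010300800040158081804000600ac0402020000])

def j1_179 : Job := (3, [(1, .m (.v 6) (.m (.v 4) (.m (.v 4) (.v 5))))],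
  [0x22c06a020c0300a41160350103018051b00faa018180802b980544080c06003a2c04223ea80c020300b2])

def j1_180 : Job := (3, [(1, .m (.v 4) (.m (.v 6) (.m (.v 4) (.v 5))))],
  [0x3ec208a020c0300a51f610450103018052007aa3020180801d8017d84100c06003dec206223ea80c020300b3])

def j1_181 : Job := (3, [(1, .m (.m (.v 4) (.v 5)) (.m (.v 4) (.v 6)))],
  [0x7b201a808600c02c001bd44103004001dec806a02060200b11f64045010c0180597fffa888884b008c00802c0805bd441180040080402ca043003003620156020601001f100b7a9020300c01dffd848819404600401642404ac046003004512025602180100230901328112008010448097d8410300400e600223fec25fea221a100300b3])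

def j1_182 : Job := (1, [(1, .m (.v 4) (.m (.v 5) (.v 6))), (4, .m (.m (.v 1) (.v 5)) (.m (.v 2) (.m (.v 1) (.v 6))))],
  [0xca0402020078])

def j1_183 : Job := (1, [(1, .m (.m (.v 3) (.v 5)) (.m (.v 3) (.v 5)))],
  [0xaa0402020032])

def j1_184 : Job := (1, [(1, .m (.m (.v 4) (.v 5)) (.m (.v 4) (.v 5)))],
  [0xaa0402020002])

def j1_185 : Job := (1, [(1, .m (.v 3) (.m (.v 6) (.m (.v 4) (.v 5)))), (1, .m (.m (.v 3) (.v 6)) (.m (.v 4) (.v 5)))],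
  [0x158080404002400ac0402020008])

def j1_186 : Job := (16, [(1, .m (.m (.v 4) (.v 5)) (.m (.v 6) (.m (.v 4) (.v 5))))],
  [0x111114145406017000bfec8a0c40020079f5103650240018003807fb22a830800c01e3ffd84941d40405000a015800beca08a0020004f540365025001803e2faa02300a800c02d7fd45417d840c05000a01509eaa08c02500300b500fff645507200180598037aa82040080010017d94104006000c00deaa0810020005501560210010002280b28108008001540594084004000c0022bfec8a412200300b800455ff6121095001005c0022ab2028200802e001157d90182004017200224bfec8a12200200b8])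

def j1_187 : Job := (24, [(1, .m (.m (.v 3) (.v 5)) (.m (.v 5) (.m (.v 4) (.v 6))))],
  [0x44445050101805cffaa902b008c00c02c17d4811804c00401605eaa08c02300200b000f655041801800a002fb2820c00c005001bd54103006004a00deaa081803001c0034556050601005c80112fb1a838300802e400957d8c81c180601720044abec60e060300b9])

def j1_188 : Job := (16, [(1, .m (.m (.v 5) (.m (.v 4) (.v 6))) (.m (.v 5) (.m (.v 4) (.v 6))))],
  [0x1111141404040174bfeca40cc02100200ac6ff65206501080100567b2fa9033008400802b1bd4811580820040076dea408ac04100300396f5204f65030801805537a9023281040080115bd481158082004008becbec40ca02100200ac5f620456020801001dafb1022b010400c00e57d8813d940c20060154bec408ca04100200455f6204560208010022b7fa92833008400802b17fd8941980440040158dfec4a0ca02100200ac2ff65506601080100567b17aa833008400802b3d4bd941980420040159ec5eca0ca02100200ac2f650456020801001d97b2822b010400c00e4bd9413d940c200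601545eca08ca04100200452f6504560208010022affa93033008400802b1bfd4981940440040158bfec4c0ca02100200ac2ff65606501080100567a97b3032808400802b3d540d98082006000deca06ac0420020008f66035502080100040022ab7b2038100c02e80097d93d9482410060174004adfeca4812080200ba0026f54f652090401805d002afb27b11048100c02e800957d93d882408040174004adfec4a812080300ba00256f52f64090401805d001337aa7a9048100802e80097d4bd9182410040174004adfea4c812080300ba0066f54f522090201805d00137aa7b12848200802e80095bd8bd502410060174004adfea8c412080200ba00266f52f54090201805d0012afb17b2048100c02e80095bfd91482410040174008acdea80e040300ba00566f544070201805d002337aa2838100802e80155bd9101c08040174008abec8c0e040200ba])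

def j1_189 : Job := (1, [(1, .m (.v 3) (.m (.v 3) (.v 5)))],
  [0xa02020200ac])

def j1_190 : Job := (3, [(1, .m (.v 3) (.m (.v 4) (.v 5)))],
  [0x9012808600c02e0805404c0040164403ea206300300b720150106010059900a808300802d0880940418060176602a02180300b900f51030c010056980a808180802e84c0940430060176002225fea2212040200bc])

def j1_191 : Job := (3, [(1, .m (.v 4) (.m (.v 4) (.v 5)))],
  [0x2204a020c0300b0110250103018057807aa018180802e84054040c060000202223ea80c020300be])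

def jobs1 : List Job := [j1_0, j1_1, j1_2, j1_3, j1_4, j1_5, j1_6, j1_7, j1_8, j1_9,
  j1_10, j1_11, j1_12, j1_13, j1_14, j1_15, j1_16, j1_17, j1_18, j1_19,
  j1_20, j1_21, j1_22, j1_23, j1_24, j1_25, j1_26, j1_27, j1_28, j1_29,
  j1_30, j1_31, j1_32, j1_33, j1_34, j1_35, j1_36, j1_37, j1_38, j1_39,
  j1_40, j1_41, j1_42, j1_43, j1_44, j1_45, j1_46, j1_47, j1_48, j1_49,
  j1_50, j1_51, j1_52, j1_53, j1_54, j1_55, j1_56, j1_57, j1_58, j1_59,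
  j1_60, j1_61, j1_62, j1_63, j1_64, j1_65, j1_66, j1_67, j1_68, j1_69,
  j1_70, j1_71, j1_72, j1_73, j1_74, j1_75, j1_76, j1_77, j1_78, j1_79,
  j1_80, j1_81, j1_82, j1_83, j1_84, j1_85, j1_86, j1_87, j1_88, j1_89,
  j1_90, j1_91, j1_92, j1_93, j1_94, j1_95, j1_96, j1_97, j1_98, j1_99,
  j1_100, j1_101, j1_102, j1_103, j1_104, j1_105, j1_106, j1_107, j1_108, j1_109,
  j1_110, j1_111, j1_112, j1_113, j1_114, j1_115, j1_116, j1_117, j1_118, j1_119,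
  j1_120, j1_121, j1_122, j1_123, j1_124, j1_125, j1_126, j1_127, j1_128, j1_129,
  j1_130, j1_131, j1_132, j1_133, j1_134, j1_135, j1_136, j1_137, j1_138, j1_139,
  j1_140, j1_141, j1_142, j1_143, j1_144, j1_145, j1_146, j1_147, j1_148, j1_149,
  j1_150, j1_151, j1_152, j1_153, j1_154, j1_155, j1_156, j1_157, j1_158, j1_159,
  j1_160, j1_161, j1_162, j1_163, j1_164, j1_165, j1_166, j1_167, j1_168, j1_169,
  j1_170, j1_171, j1_172, j1_173, j1_174, j1_175, j1_176, j1_177, j1_178, j1_179,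
  j1_180, j1_181, j1_182, j1_183, j1_184, j1_185, j1_186, j1_187, j1_188, j1_189,
  j1_190, j1_191]

def jobsF : List Job := [
  (1, [(1, .m (.m (.v 3) (.v 5)) (.m (.v 3) (.v 5)))],
  [0xac0402020008]),
  (1, [(1, .m (.v 3) (.m (.v 6) (.m (.v 4) (.v 5)))), (1, .m (.m (.v 3) (.v 6)) (.m (.v 4) (.v 5)))],
  [0xac0402020006]),
  (1, [(1, .m (.m (.v 4) (.v 5)) (.m (.v 6) (.m (.v 4) (.v 5))))],
  [0xac0402020005]),
  (1, [(1, .m (.m (.v 3) (.v 5)) (.m (.v 5) (.m (.v 4) (.v 6))))],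
  [0xac0402020004]),
  (1, [(1, .m (.m (.v 5) (.m (.v 4) (.v 6))) (.m (.v 5) (.m (.v 4) (.v 6))))],
  [0xac0402020003]),
  (1, [(1, .m (.m (.v 4) (.v 5)) (.m (.v 4) (.v 5)))],
  [0xac0402020007]),
  (1, [(1, .m (.v 3) (.m (.v 3) (.v 5)))],
  [0xac0402020002]),
  (1, [(1, .m (.v 3) (.m (.v 4) (.v 5)))],
  [0xac0402020001]),
  (1, [(1, .m (.v 4) (.m (.v 4) (.v 5)))],
  [0xac0402020000]),
  (1, [(1, .m (.v 4) (.m (.v 5) (.v 6))), (4, .m (.m (.v 1) (.v 5)) (.m (.v 2) (.m (.v 1) (.v 6))))],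
  [0xac0402020009])]

def ids0 : List (List (Int × T)) := [g4, pa4]
def ids1 : List (List (Int × T)) := allIds ids0 jobs1

theorem ok1 : checkAll ids0 jobs1 = true := by decide +kernel
theorem okF : jobsF.all (checkJ ids1) = true := by decide +kernel

section

variable {F : Type u} [Field F] {V : Type w} [AddCommGroup V] [Module F V]
  (mul : V →ₗ[F] V →ₗ[F] V)

theorem g4_all [Infinite F] (hs : ∀ x y, mul (mul x x) (mul x (mul x y)) = 0) :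
    HoldsAll mul g4 := by
  have h0 : HoldsAll mul g0 := by
    intro ρ
    simp only [g0, evP, T.ev, hs, smul_zero, add_zero]
  exact HoldsAll.der mul (HoldsAll.der mul (HoldsAll.der mul h0 5 6) 5 7) 5 8

theorem h23 (hs : ∀ x y, mul (mul x x) (mul x (mul x y)) = 0) (z : V) :
    mul (mul z z) (mul z (mul z z)) = 0 := hs z z

theorem h14 [CharZero F] (comm : ∀ x y, mul x y = mul y x)
    (hpa : ∀ x, mul (mul x x) (mul x x) = mul x (mul x (mul x x)))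
    (hs : ∀ x y, mul (mul x x) (mul x (mul x y)) = 0) (z : V) :
    mul z (mul (mul z z) (mul z z)) = 0 := by
  have h := pa_lin mul comm hpa z (mul z z)
  have h23 := h23 mul hs z
  have e13 := (hpa z).symm
  rw [h23, smul_zero, comm (mul z (mul z z)) (mul z z), h23, zero_add, e13] at h
  have h2 : (3 : F) • mul z (mul (mul z z) (mul z z)) = 0 := by
    rw [h]
    module
  exact (smul_eq_zero.mp h2).resolve_left (by norm_num)

theorem h24 (hpa : ∀ x, mul (mul x x) (mul x x) = mul x (mul x (mul x x)))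
    (hs : ∀ x y, mul (mul x x) (mul x (mul x y)) = 0) (z : V) :
    mul (mul z z) (mul (mul z z) (mul z z)) = 0 := by
  have := hs z (mul z z)
  rwa [← hpa z] at this

end

/-- Perfect finite-dimensional commutative algebras with `(xx)(xx) = x(x(xx))` and
`(xx)(x(xy)) = 0` are zero. -/
theorem main {F : Type u} [Field F] [CharZero F] {V : Type w} [AddCommGroup V]
    [Module F V] [FiniteDimensional F V] (m : V →ₗ[F] V →ₗ[F] V)
    (comm : ∀ x y, m x y = m y x)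
    (perf : Submodule.span F {z : V | ∃ a b : V, z = m a b} = ⊤)
    (hpa4 : ∀ x, m (m x x) (m x x) = m x (m x (m x x)))
    (hs : ∀ x y, m (m x x) (m x (m x y)) = 0) : Subsingleton V := by
  have hpow : ∀ z a b, Pow m (rho m z a b) := fun z a b =>
    pow_rho m comm hpa4 (h14 m comm hpa4 hs) (h23 m hs) (h24 m hpa4 hs) z a b
  have hids : ∀ z a b : V, ∀ p ∈ ids1, HoldsAt m ⊥ (rho m z a b) p := by
    intro z a b
    have h0 : ∀ p ∈ ids0, HoldsAt m ⊥ (rho m z a b) p := by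
      intro p hp
      unfold ids0 at hp
      rcases List.mem_cons.mp hp with rfl | hp
      · exact HoldsAll.at m (g4_all m hs) ⊥ _
      · rcases List.mem_cons.mp hp with rfl | hp
        · exact HoldsAll.at m (pa4_all m hpa4) ⊥ _
        · simp at hp
    have h1 := seq_sound m comm (hpow z a b) jobs1 ids0 h0 ok1
    exact h1
  have hF : ∀ z a b : V, ∀ p ∈ tgts ++ [hTp], HoldsAt m ⊥ (rho m z a b) p := fun z a b =>
    jobs_sound m comm (hpow z a b) ids1 (hids z a b) jobsF okF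
  refine fin_sub m comm perf hpa4 hpow (fun z a b p hp => ?_) (fun φ hφ z a b => ?_)
  · exact hF z a b p (List.mem_append_left _ hp)
  · intro ρ' hρ'
    rw [(Submodule.mem_bot F).mp (hF z a b hTp (by simp) ρ' hρ')]
    exact Submodule.zero_mem _

end Pool.Agent.Alb.SXX

namespace Pool.Agent.Alb

universe u v

theorem w_SXX {F : Type u} [Field F] [CharZero F] {V : Type v} [AddCommGroup V]
    [Module F V] [FiniteDimensional F V] (m : V →ₗ[F] V →ₗ[F] V)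
    (comm : ∀ x y, m x y = m y x)
    (perf : Submodule.span F {z : V | ∃ a b : V, z = m a b} = ⊤)
    (hpa4 : ∀ x, m (m x x) (m x x) = m x (m x (m x x)))
    (h : ∀ x y, m (m x x) (m x (m x y)) = 0) : Subsingleton V :=
  SXX.main m comm perf hpa4 h

end Pool.Agent.Alb
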