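import Mathlib

set_option autoImplicit false

/-!
Nonassociative words with four letters x and one letter y, evaluated in a commutative algebra with
(xx)(xx) = x(x(xx)): there are eight possibilities.
-/

namespace Pool.Agent.Alb

universe v

/-- the numbers of letters `x` (`false`) and `y` (`true`) of a word -/
def wdeg (w : FreeMagma Bool) : ℕ × ℕ :=
  Multiplicative.toAdd (FreeMagma.lift
    (fun b : Bool => Multiplicative.ofAdd (if b then ((0, 1) : ℕ × ℕ) else (1, 0))) w)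

theorem wdeg_mul (a b : FreeMagma Bool) : wdeg (a * b) = wdeg a + wdeg b := by
  simp [wdeg]

theorem wdeg_false : wdeg (FreeMagma.of false) = (1, 0) := by
  simp [wdeg]

theorem wdeg_true : wdeg (FreeMagma.of true) = (0, 1) := by
  simp [wdeg]

theorem wdeg_pos (w : FreeMagma Bool) : 0 < (wdeg w).1 + (wdeg w).2 := by
  induction w using FreeMagma.recOnMul with
  | ih1 b => cases b <;> simp [wdeg_false, wdeg_true]
  | ih2 a b ha hb =>
    rw [wdeg_mul]
    simp only [Prod.fst_add, Prod.snd_add]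
    omega

section

variable {A : Type v} [NonUnitalNonAssocCommRing A]

/-- the value of a word -/
def wev (w : FreeMagma Bool) (x y : A) : A :=
  FreeMagma.lift (fun b : Bool => if b then y else x) w

theorem wev_mul (a b : FreeMagma Bool) (x y : A) : wev (a * b) x y = wev a x y * wev b x y := by
  simp [wev]

theorem wev_false (x y : A) : wev (FreeMagma.of false) x y = x := by
  simp [wev]

theorem wev_true (x y : A) : wev (FreeMagma.of true) x y = y := by
  simp [wev]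

/-- splitting a word -/
theorem word_split (w : FreeMagma Bool) :
    (w = FreeMagma.of false ∨ w = FreeMagma.of true) ∨
      ∃ a b : FreeMagma Bool, w = a * b := by
  induction w using FreeMagma.recOnMul with
  | ih1 b => cases b <;> simp
  | ih2 a b _ _ => exact Or.inr ⟨a, b, rfl⟩

theorem w10 (w : FreeMagma Bool) (h : wdeg w = (1, 0)) : ∀ x y : A, wev w x y = x := by
  rcases word_split w with (h1 | h1) | ⟨a, b, h1⟩
  · subst h1; exact wev_false
  · subst h1; rw [wdeg_true] at h; simp at h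
  · subst h1
    rw [wdeg_mul] at h
    have ha := wdeg_pos a
    have hb := wdeg_pos b
    have e1 : (wdeg a).1 + (wdeg b).1 = 1 := by rw [← Prod.fst_add, h]
    have e2 : (wdeg a).2 + (wdeg b).2 = 0 := by rw [← Prod.snd_add, h]
    omega

theorem w01 (w : FreeMagma Bool) (h : wdeg w = (0, 1)) : ∀ x y : A, wev w x y = y := by
  rcases word_split w with (h1 | h1) | ⟨a, b, h1⟩
  · subst h1; rw [wdeg_false] at h; simp at h
  · subst h1; exact wev_true
  · subst h1
    rw [wdeg_mul] at h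
    have ha := wdeg_pos a
    have hb := wdeg_pos b
    have e1 : (wdeg a).1 + (wdeg b).1 = 0 := by rw [← Prod.fst_add, h]
    have e2 : (wdeg a).2 + (wdeg b).2 = 1 := by rw [← Prod.snd_add, h]
    omega

/-- a word of degree at least two is a product -/
theorem word_mul (w : FreeMagma Bool) (i j : ℕ) (h : wdeg w = (i, j)) (hij : 2 ≤ i + j) :
    ∃ a b : FreeMagma Bool, w = a * b ∧ (wdeg a).1 + (wdeg b).1 = i ∧
      (wdeg a).2 + (wdeg b).2 = j ∧ 0 < (wdeg a).1 + (wdeg a).2 ∧ 0 < (wdeg b).1 + (wdeg b).2 := by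
  rcases word_split w with (h1 | h1) | ⟨a, b, h1⟩
  · subst h1; rw [wdeg_false] at h
    simp only [Prod.mk.injEq] at h
    omega
  · subst h1; rw [wdeg_true] at h
    simp only [Prod.mk.injEq] at h
    omega
  · refine ⟨a, b, h1, ?_, ?_, wdeg_pos a, wdeg_pos b⟩
    · rw [← Prod.fst_add, ← wdeg_mul, ← h1, h]
    · rw [← Prod.snd_add, ← wdeg_mul, ← h1, h]

theorem dg_ext {w : FreeMagma Bool} {i j : ℕ} (h1 : (wdeg w).1 = i) (h2 : (wdeg w).2 = j) :
    wdeg w = (i, j) := Prod.ext h1 h2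

theorem w20 (w : FreeMagma Bool) (h : wdeg w = (2, 0)) : ∀ x y : A, wev w x y = x * x := by
  obtain ⟨a, b, rfl, h1, h2, h3, h4⟩ := word_mul w 2 0 h (by norm_num)
  intro x y
  rw [wev_mul, w10 a (dg_ext (i := 1) (j := 0) (by omega) (by omega)),
    w10 b (dg_ext (i := 1) (j := 0) (by omega) (by omega))]

theorem w11 (w : FreeMagma Bool) (h : wdeg w = (1, 1)) : ∀ x y : A, wev w x y = x * y := by
  obtain ⟨a, b, rfl, h1, h2, h3, h4⟩ := word_mul w 1 1 h (by norm_num)
  intro x y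
  have hc : ((wdeg a).1 = 1 ∧ (wdeg a).2 = 0) ∨ ((wdeg a).1 = 0 ∧ (wdeg a).2 = 1) := by omega
  rcases hc with ⟨c1, c2⟩ | ⟨c1, c2⟩
  · rw [wev_mul, w10 a (dg_ext (i := 1) (j := 0) (by omega) (by omega)),
      w01 b (dg_ext (i := 0) (j := 1) (by omega) (by omega))]
  · rw [wev_mul, w01 a (dg_ext (i := 0) (j := 1) (by omega) (by omega)),
      w10 b (dg_ext (i := 1) (j := 0) (by omega) (by omega)), mul_comm]

theorem w30 (w : FreeMagma Bool) (h : wdeg w = (3, 0)) : ∀ x y : A, wev w x y = x * (x * x) := by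
  obtain ⟨a, b, rfl, h1, h2, h3, h4⟩ := word_mul w 3 0 h (by norm_num)
  intro x y
  have hc : ((wdeg a).1 = 1 ∧ (wdeg a).2 = 0) ∨ ((wdeg a).1 = 2 ∧ (wdeg a).2 = 0) := by omega
  rcases hc with ⟨c1, c2⟩ | ⟨c1, c2⟩
  · rw [wev_mul, w10 a (dg_ext (i := 1) (j := 0) (by omega) (by omega)),
      w20 b (dg_ext (i := 2) (j := 0) (by omega) (by omega))]
  · rw [wev_mul, w20 a (dg_ext (i := 2) (j := 0) (by omega) (by omega)),
      w10 b (dg_ext (i := 1) (j := 0) (by omega) (by omega)), mul_comm]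

theorem w21 (w : FreeMagma Bool) (h : wdeg w = (2, 1)) :
    (∀ x y : A, wev w x y = x * (x * y)) ∨ (∀ x y : A, wev w x y = (x * x) * y) := by
  obtain ⟨a, b, rfl, h1, h2, h3, h4⟩ := word_mul w 2 1 h (by norm_num)
  have hc : ((wdeg a).1 = 1 ∧ (wdeg a).2 = 0) ∨ ((wdeg a).1 = 2 ∧ (wdeg a).2 = 0) ∨
      ((wdeg a).1 = 0 ∧ (wdeg a).2 = 1) ∨ ((wdeg a).1 = 1 ∧ (wdeg a).2 = 1) := by omega
  rcases hc with ⟨c1, c2⟩ | ⟨c1, c2⟩ | ⟨c1, c2⟩ | ⟨c1, c2⟩
  · refine Or.inl fun x y => ?_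
    rw [wev_mul, w10 a (dg_ext (i := 1) (j := 0) (by omega) (by omega)),
      w11 b (dg_ext (i := 1) (j := 1) (by omega) (by omega))]
  · refine Or.inr fun x y => ?_
    rw [wev_mul, w20 a (dg_ext (i := 2) (j := 0) (by omega) (by omega)),
      w01 b (dg_ext (i := 0) (j := 1) (by omega) (by omega))]
  · refine Or.inr fun x y => ?_
    rw [wev_mul, w01 a (dg_ext (i := 0) (j := 1) (by omega) (by omega)),
      w20 b (dg_ext (i := 2) (j := 0) (by omega) (by omega)), mul_comm]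
  · refine Or.inl fun x y => ?_
    rw [wev_mul, w11 a (dg_ext (i := 1) (j := 1) (by omega) (by omega)),
      w10 b (dg_ext (i := 1) (j := 0) (by omega) (by omega)), mul_comm]

theorem w40 (pa : ∀ x : A, (x * x) * (x * x) = x * (x * (x * x)))
    (w : FreeMagma Bool) (h : wdeg w = (4, 0)) :
    ∀ x y : A, wev w x y = x * (x * (x * x)) := by
  obtain ⟨a, b, rfl, h1, h2, h3, h4⟩ := word_mul w 4 0 h (by norm_num)
  intro x y
  have hc : ((wdeg a).1 = 1 ∧ (wdeg a).2 = 0) ∨ ((wdeg a).1 = 2 ∧ (wdeg a).2 = 0) ∨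
      ((wdeg a).1 = 3 ∧ (wdeg a).2 = 0) := by omega
  rcases hc with ⟨c1, c2⟩ | ⟨c1, c2⟩ | ⟨c1, c2⟩
  · rw [wev_mul, w10 a (dg_ext (i := 1) (j := 0) (by omega) (by omega)),
      w30 b (dg_ext (i := 3) (j := 0) (by omega) (by omega))]
  · rw [wev_mul, w20 a (dg_ext (i := 2) (j := 0) (by omega) (by omega)),
      w20 b (dg_ext (i := 2) (j := 0) (by omega) (by omega)), pa]
  · rw [wev_mul, w30 a (dg_ext (i := 3) (j := 0) (by omega) (by omega)),
      w10 b (dg_ext (i := 1) (j := 0) (by omega) (by omega)), mul_comm]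

theorem w31 (w : FreeMagma Bool) (h : wdeg w = (3, 1)) :
    (∀ x y : A, wev w x y = x * (x * (x * y))) ∨ (∀ x y : A, wev w x y = x * ((x * x) * y)) ∨
    (∀ x y : A, wev w x y = (x * x) * (x * y)) ∨ (∀ x y : A, wev w x y = (x * (x * x)) * y) := by
  obtain ⟨a, b, rfl, h1, h2, h3, h4⟩ := word_mul w 3 1 h (by norm_num)
  have hc : ((wdeg a).1 = 1 ∧ (wdeg a).2 = 0) ∨ ((wdeg a).1 = 2 ∧ (wdeg a).2 = 0) ∨
      ((wdeg a).1 = 3 ∧ (wdeg a).2 = 0) ∨
      ((wdeg a).1 = 0 ∧ (wdeg a).2 = 1) ∨ ((wdeg a).1 = 1 ∧ (wdeg a).2 = 1) ∨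
      ((wdeg a).1 = 2 ∧ (wdeg a).2 = 1) := by omega
  rcases hc with ⟨c1, c2⟩ | ⟨c1, c2⟩ | ⟨c1, c2⟩ | ⟨c1, c2⟩ | ⟨c1, c2⟩ | ⟨c1, c2⟩
  · rcases w21 (A := A) b (dg_ext (i := 2) (j := 1) (by omega) (by omega)) with g | g
    · refine Or.inl fun x y => ?_
      rw [wev_mul, w10 a (dg_ext (i := 1) (j := 0) (by omega) (by omega)), g]
    · refine Or.inr (Or.inl fun x y => ?_)
      rw [wev_mul, w10 a (dg_ext (i := 1) (j := 0) (by omega) (by omega)), g]
  · refine Or.inr (Or.inr (Or.inl fun x y => ?_))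
    rw [wev_mul, w20 a (dg_ext (i := 2) (j := 0) (by omega) (by omega)),
      w11 b (dg_ext (i := 1) (j := 1) (by omega) (by omega))]
  · refine Or.inr (Or.inr (Or.inr fun x y => ?_))
    rw [wev_mul, w30 a (dg_ext (i := 3) (j := 0) (by omega) (by omega)),
      w01 b (dg_ext (i := 0) (j := 1) (by omega) (by omega))]
  · refine Or.inr (Or.inr (Or.inr fun x y => ?_))
    rw [wev_mul, w01 a (dg_ext (i := 0) (j := 1) (by omega) (by omega)),
      w30 b (dg_ext (i := 3) (j := 0) (by omega) (by omega)), mul_comm]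
  · refine Or.inr (Or.inr (Or.inl fun x y => ?_))
    rw [wev_mul, w11 a (dg_ext (i := 1) (j := 1) (by omega) (by omega)),
      w20 b (dg_ext (i := 2) (j := 0) (by omega) (by omega)), mul_comm]
  · rcases w21 (A := A) a (dg_ext (i := 2) (j := 1) (by omega) (by omega)) with g | g
    · refine Or.inl fun x y => ?_
      rw [wev_mul, w10 b (dg_ext (i := 1) (j := 0) (by omega) (by omega)), g, mul_comm]
    · refine Or.inr (Or.inl fun x y => ?_)
      rw [wev_mul, w10 b (dg_ext (i := 1) (j := 0) (by omega) (by omega)), g, mul_comm]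

theorem w41 (pa : ∀ x : A, (x * x) * (x * x) = x * (x * (x * x)))
    (w : FreeMagma Bool) (h : wdeg w = (4, 1)) :
    (∀ x y : A, wev w x y = x * (x * (x * (x * y)))) ∨
    (∀ x y : A, wev w x y = x * (x * ((x * x) * y))) ∨
    (∀ x y : A, wev w x y = x * ((x * x) * (x * y))) ∨
    (∀ x y : A, wev w x y = x * ((x * (x * x)) * y)) ∨
    (∀ x y : A, wev w x y = (x * x) * (x * (x * y))) ∨
    (∀ x y : A, wev w x y = (x * x) * ((x * x) * y)) ∨
    (∀ x y : A, wev w x y = (x * (x * x)) * (x * y)) ∨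
    (∀ x y : A, wev w x y = (x * (x * (x * x))) * y) := by
  obtain ⟨a, b, rfl, h1, h2, h3, h4⟩ := word_mul w 4 1 h (by norm_num)
  have hc : ((wdeg a).1 = 1 ∧ (wdeg a).2 = 0) ∨ ((wdeg a).1 = 2 ∧ (wdeg a).2 = 0) ∨
      ((wdeg a).1 = 3 ∧ (wdeg a).2 = 0) ∨ ((wdeg a).1 = 4 ∧ (wdeg a).2 = 0) ∨
      ((wdeg a).1 = 0 ∧ (wdeg a).2 = 1) ∨ ((wdeg a).1 = 1 ∧ (wdeg a).2 = 1) ∨
      ((wdeg a).1 = 2 ∧ (wdeg a).2 = 1) ∨ ((wdeg a).1 = 3 ∧ (wdeg a).2 = 1) := by omega
  rcases hc with ⟨c1, c2⟩ | ⟨c1, c2⟩ | ⟨c1, c2⟩ | ⟨c1, c2⟩ | ⟨c1, c2⟩ | ⟨c1, c2⟩ | ⟨c1, c2⟩ |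
    ⟨c1, c2⟩
  · have ha := w10 (A := A) a (dg_ext (i := 1) (j := 0) (by omega) (by omega))
    rcases w31 (A := A) b (dg_ext (i := 3) (j := 1) (by omega) (by omega)) with g | g | g | g
    · exact Or.inl fun x y => by rw [wev_mul, ha, g]
    · exact Or.inr (Or.inl fun x y => by rw [wev_mul, ha, g])
    · exact Or.inr (Or.inr (Or.inl fun x y => by rw [wev_mul, ha, g]))
    · exact Or.inr (Or.inr (Or.inr (Or.inl fun x y => by rw [wev_mul, ha, g])))
  · have ha := w20 (A := A) a (dg_ext (i := 2) (j := 0) (by omega) (by omega))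
    rcases w21 (A := A) b (dg_ext (i := 2) (j := 1) (by omega) (by omega)) with g | g
    · exact Or.inr (Or.inr (Or.inr (Or.inr (Or.inl fun x y => by rw [wev_mul, ha, g]))))
    · exact Or.inr (Or.inr (Or.inr (Or.inr (Or.inr (Or.inl fun x y => by
        rw [wev_mul, ha, g])))))
  · have ha := w30 (A := A) a (dg_ext (i := 3) (j := 0) (by omega) (by omega))
    have hb := w11 (A := A) b (dg_ext (i := 1) (j := 1) (by omega) (by omega))
    exact Or.inr (Or.inr (Or.inr (Or.inr (Or.inr (Or.inr (Or.inl fun x y => by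
        rw [wev_mul, ha, hb]))))))
  · have ha := w40 pa a (dg_ext (i := 4) (j := 0) (by omega) (by omega))
    have hb := w01 (A := A) b (dg_ext (i := 0) (j := 1) (by omega) (by omega))
    exact Or.inr (Or.inr (Or.inr (Or.inr (Or.inr (Or.inr (Or.inr fun x y => by
        rw [wev_mul, ha, hb]))))))
  · have ha := w01 (A := A) a (dg_ext (i := 0) (j := 1) (by omega) (by omega))
    have hb := w40 pa b (dg_ext (i := 4) (j := 0) (by omega) (by omega))
    exact Or.inr (Or.inr (Or.inr (Or.inr (Or.inr (Or.inr (Or.inr fun x y => by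
        rw [wev_mul, ha, hb, mul_comm]))))))
  · have ha := w11 (A := A) a (dg_ext (i := 1) (j := 1) (by omega) (by omega))
    have hb := w30 (A := A) b (dg_ext (i := 3) (j := 0) (by omega) (by omega))
    exact Or.inr (Or.inr (Or.inr (Or.inr (Or.inr (Or.inr (Or.inl fun x y => by
        rw [wev_mul, ha, hb, mul_comm]))))))
  · have hb := w20 (A := A) b (dg_ext (i := 2) (j := 0) (by omega) (by omega))
    rcases w21 (A := A) a (dg_ext (i := 2) (j := 1) (by omega) (by omega)) with g | g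
    · exact Or.inr (Or.inr (Or.inr (Or.inr (Or.inl fun x y => by
        rw [wev_mul, hb, g, mul_comm]))))
    · exact Or.inr (Or.inr (Or.inr (Or.inr (Or.inr (Or.inl fun x y => by
        rw [wev_mul, hb, g, mul_comm])))))
  · have hb := w10 (A := A) b (dg_ext (i := 1) (j := 0) (by omega) (by omega))
    rcases w31 (A := A) a (dg_ext (i := 3) (j := 1) (by omega) (by omega)) with g | g | g | g
    · exact Or.inl fun x y => by rw [wev_mul, hb, g, mul_comm]
    · exact Or.inr (Or.inl fun x y => by rw [wev_mul, hb, g, mul_comm])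
    · exact Or.inr (Or.inr (Or.inl fun x y => by rw [wev_mul, hb, g, mul_comm]))
    · exact Or.inr (Or.inr (Or.inr (Or.inl fun x y => by rw [wev_mul, hb, g, mul_comm])))

/-- The eight possible identities. -/
theorem word_cases (pa : ∀ x : A, (x * x) * (x * x) = x * (x * (x * x)))
    (w : FreeMagma Bool)
    (hw : FreeMagma.lift
      (fun b : Bool => Multiplicative.ofAdd (if b then ((0, 1) : ℕ × ℕ) else (1, 0))) w =
        Multiplicative.ofAdd ((4, 1) : ℕ × ℕ))
    (h : ∀ x y : A, FreeMagma.lift (fun b : Bool => if b then y else x) w = 0) :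
    (∀ x y : A, x * (x * (x * (x * y))) = 0) ∨
    (∀ x y : A, x * (x * ((x * x) * y)) = 0) ∨
    (∀ x y : A, x * ((x * x) * (x * y)) = 0) ∨
    (∀ x y : A, x * ((x * (x * x)) * y) = 0) ∨
    (∀ x y : A, (x * x) * (x * (x * y)) = 0) ∨
    (∀ x y : A, (x * x) * ((x * x) * y) = 0) ∨
    (∀ x y : A, (x * (x * x)) * (x * y) = 0) ∨
    (∀ x y : A, (x * (x * (x * x))) * y = 0) := by
  have hd : wdeg w = (4, 1) := by
    unfold wdeg
    rw [hw]
    rfl
  have h' : ∀ x y : A, wev w x y = 0 := h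
  rcases w41 pa w hd with g | g | g | g | g | g | g | g
  · exact Or.inl fun x y => by rw [← g, h']
  · exact Or.inr (Or.inl fun x y => by rw [← g, h'])
  · exact Or.inr (Or.inr (Or.inl fun x y => by rw [← g, h']))
  · exact Or.inr (Or.inr (Or.inr (Or.inl fun x y => by rw [← g, h'])))
  · exact Or.inr (Or.inr (Or.inr (Or.inr (Or.inl fun x y => by rw [← g, h']))))
  · exact Or.inr (Or.inr (Or.inr (Or.inr (Or.inr (Or.inl fun x y => by rw [← g, h'])))))
  · exact Or.inr (Or.inr (Or.inr (Or.inr (Or.inr (Or.inr (Or.inl fun x y => by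
      rw [← g, h']))))))
  · exact Or.inr (Or.inr (Or.inr (Or.inr (Or.inr (Or.inr (Or.inr fun x y => by
      rw [← g, h']))))))

end

end Pool.Agent.Alb
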