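import Mathlib
import Pool.Agent.Lib_MP_380d39.HandS5

set_option autoImplicit false

/-!
The two easy identities: x^4 y = 0 and x(x^2(xy)) = 0.
-/

namespace Pool.Agent.Alb

universe u v

section

variable {F : Type u} [Field F] [CharZero F] {V : Type v} [AddCommGroup V] [Module F V]
  (m : V →ₗ[F] V →ₗ[F] V)

/-- If the fourth powers annihilate a perfect algebra, it is zero. -/
theorem w_T [FiniteDimensional F V] (comm : ∀ x y, m x y = m y x)
    (perf : Submodule.span F {z : V | ∃ a b : V, z = m a b} = ⊤)
    (hpa4 : ∀ x, m (m x x) (m x x) = m x (m x (m x x)))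
    (h : ∀ x y, m (m x (m x (m x x))) y = 0) : Subsingleton V := by
  have two : (2 : F) ≠ 0 := two_ne_zero
  have three : (3 : F) ≠ 0 := three_ne_zero
  have h1 : LinearMap.ker m = ⊤ := by
    refine closed_top' m two three comm perf _ ?_ ?_
    · intro a ha b hb
      rw [LinearMap.mem_ker] at ha hb ⊢
      rw [ha]
      simp
    · intro x
      rw [LinearMap.mem_ker]
      ext y
      simp only [x4, LinearMap.zero_apply]
      rw [hpa4]
      exact h x y
  have h2 : (⊤ : Submodule F V) = ⊥ := by
    rw [← perf, Submodule.span_eq_bot]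
    rintro z ⟨a, b, rfl⟩
    have ha : a ∈ LinearMap.ker m := by
      rw [h1]
      exact Submodule.mem_top
    rw [LinearMap.mem_ker] at ha
    rw [ha]
    simp
  exact (Submodule.subsingleton_iff F).mp (subsingleton_of_bot_eq_top h2.symm)

theorem lin5 (comm : ∀ x y, m x y = m y x)
    (h : ∀ x, m x (m (m x x) (m x x)) = 0) (x y : V) :
    m y (m (m x x) (m x x)) + (4 : F) • m x (m (m x x) (m x y)) = 0 := by
  have key : ∀ t : F, t • (m y (m (m x x) (m x x)) + (4 : F) • m x (m (m x x) (m x y))) +
      t ^ 3 • ((4 : F) • m x (m (m x y) (m y y)) + (4 : F) • m y (m (m x y) (m x y)) +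
        (2 : F) • m y (m (m x x) (m y y))) +
      t ^ 2 • ((4 : F) • m x (m (m x y) (m x y)) + (2 : F) • m x (m (m x x) (m y y)) +
        (4 : F) • m y (m (m x x) (m x y))) +
      t ^ 4 • (m x (m (m y y) (m y y)) + (4 : F) • m y (m (m x y) (m y y))) = 0 := by
    intro t
    have h0 := h x
    have h5 := h y
    have h1 := h (x + t • y)
    simp only [map_add, LinearMap.add_apply, map_smul, LinearMap.smul_apply] at h1
    rw [comm y x, comm (m x y) (m x x), comm (m y y) (m x x), comm (m y y) (m x y)] at h1
    linear_combination (norm := module) h1 - h0 - t ^ 5 • h5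
  have k1 := key 1
  have k2 := key (-1)
  have k3 := key 2
  have k4 := key (-2)
  linear_combination (norm := module) (2 / 3 : F) • k1 - (2 / 3 : F) • k2 - (1 / 12 : F) • k3 +
    (1 / 12 : F) • k4

theorem w_XSX [FiniteDimensional F V] (comm : ∀ x y, m x y = m y x)
    (perf : Submodule.span F {z : V | ∃ a b : V, z = m a b} = ⊤)
    (hpa4 : ∀ x, m (m x x) (m x x) = m x (m x (m x x)))
    (h : ∀ x y, m x (m (m x x) (m x y)) = 0) : Subsingleton V := by
  refine w_T m comm perf hpa4 ?_
  intro x y
  have h1 := lin5 m comm (fun x => h x x) x y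
  rw [h x y, smul_zero, add_zero, hpa4] at h1
  rw [comm]
  exact h1

end

end Pool.Agent.Alb
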