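import Mathlib
import Pool.Agent.Lib_MP_380d39.Words2

set_option autoImplicit false
set_option linter.unusedSectionVars false

/-!
Basis change for identities of type (4,1): X = L_x, S = L_(x^2).
-/

namespace Pool.Agent.Alb

universe u v

section

variable {F : Type u} [Field F] [CharZero F] {V : Type v} [AddCommGroup V] [Module F V]
  (m : V →ₗ[F] V →ₗ[F] V) (comm : ∀ x y, m x y = m y x)
  (hpa4 : ∀ x, m (m x x) (m x x) = m x (m x (m x x)))
include comm hpa4

/-- power-associativity, first linearisation -/
theorem pal1 (x y : V) : (4 : F) • m (m x x) (m x y) =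
    m y (m x (m x x)) + m x (m (m x x) y) + (2 : F) • m x (m x (m x y)) := by
  have key : ∀ t : F, t • ((4 : F) • m (m x x) (m x y) - (m y (m x (m x x)) +
      m x (m (m x x) y) + (2 : F) • m x (m x (m x y)))) +
      t ^ 2 • ((2 : F) • m (m x x) (m y y) + (4 : F) • m (m x y) (m x y) -
        (m x (m x (m y y)) + (2 : F) • m x (m y (m x y)) + (2 : F) • m y (m x (m x y)) +
          m y (m y (m x x)))) +
      t ^ 3 • ((4 : F) • m (m y y) (m x y) - (m x (m y (m y y)) +
      m y (m (m y y) x) + (2 : F) • m y (m y (m x y)))) = 0 := by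
    intro t
    have h0 := hpa4 x
    have h5 := hpa4 y
    have h1 := hpa4 (x + t • y)
    simp only [map_add, LinearMap.add_apply, map_smul, LinearMap.smul_apply] at h1
    rw [comm y x, comm (m x y) (m x x), comm (m y y) (m x x), comm (m y y) (m x y)] at h1
    rw [comm (m x x) y, comm (m y y) x, comm (m y y) (m x y)]
    linear_combination (norm := module) h1 - h0 - t ^ 4 • h5
  have k1 := key 1
  have k2 := key (-1)
  have k3 := key 2
  have k4 := key (-2)
  linear_combination (norm := module) (2 / 3 : F) • k1 - (2 / 3 : F) • k2 - (1 / 12 : F) • k3 +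
    (1 / 12 : F) • k4

/-- power-associativity, second linearisation -/
theorem pal2 (x a y : V) : (8 : F) • m (m x a) (m x y) + (4 : F) • m (m x x) (m a y) =
    m y (m a (m x x)) + (2 : F) • m y (m x (m x a)) + m a (m (m x x) y) +
      (2 : F) • m x (m (m x a) y) + (2 : F) • m a (m x (m x y)) + (2 : F) • m x (m a (m x y)) +
      (2 : F) • m x (m x (m a y)) := by
  have h0 := pal1 m comm hpa4 x y
  have h3 := pal1 m comm hpa4 a y
  have h1 := pal1 m comm hpa4 (x + a) y
  have h2 := pal1 m comm hpa4 (x - a) y
  simp only [map_add, map_sub, LinearMap.add_apply, LinearMap.sub_apply] at h1 h2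
  rw [comm a x] at h1 h2
  linear_combination (norm := module) (1 / 2 : F) • h1 - (1 / 2 : F) • h2 - h3

/-- `X L_(x^3)` -/
theorem xl3 (x y : V) : m x (m (m x (m x x)) y) =
    (4 : F) • m x (m (m x x) (m x y)) - m x (m x (m (m x x) y)) -
      (2 : F) • m x (m x (m x (m x y))) := by
  have h := congrArg (m x) (pal1 m comm hpa4 x y)
  simp only [map_add, map_smul] at h
  rw [comm (m x (m x x)) y]
  linear_combination (norm := module) -h

/-- `L_(x^3) X` -/
theorem l3x (x y : V) : m (m x (m x x)) (m x y) =
    (4 : F) • m (m x x) (m x (m x y)) - m x (m (m x x) (m x y)) -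
      (2 : F) • m x (m x (m x (m x y))) := by
  have h := pal1 m comm hpa4 x (m x y)
  rw [comm (m x y) (m x (m x x))] at h
  linear_combination (norm := module) -h

variable (h5 : ∀ x, m x (m x (m x (m x x))) = 0)
include h5

/-- `L_(x^4)` -/
theorem tt (x y : V) : m y (m x (m x (m x x))) = (-4 : F) • m x (m (m x x) (m x y)) := by
  have h := lin5 m comm (fun x => by rw [hpa4]; exact h5 x) x y
  rw [hpa4] at h
  linear_combination (norm := module) h

/-- `S S` -/
theorem ss (x y : V) : m (m x x) (m (m x x) y) =
    (4 : F) • m x (m x (m x (m x y))) + (2 : F) • m x (m (m x x) (m x y)) -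
      (10 : F) • m (m x x) (m x (m x y)) := by
  have h := pal2 m comm hpa4 x (m x x) y
  rw [hpa4, comm (m x x) (m x (m x y))] at h
  have h1 := xl3 m comm hpa4 x y
  have h2 := l3x m comm hpa4 x y
  have h3 := tt m comm hpa4 h5 x y
  rw [comm (m x (m x y)) (m x x)] at h
  linear_combination (norm := module) (1 / 3 : F) • h - (8 / 3 : F) • h2 + (2 / 3 : F) • h1 + h3

end

section

variable {F : Type u} [Field F] [CharZero F] {V : Type v} [AddCommGroup V] [Module F V]
  (m : V →ₗ[F] V →ₗ[F] V) (comm : ∀ x y, m x y = m y x)
  (hpa4 : ∀ x, m (m x x) (m x x) = m x (m x (m x x)))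
include comm hpa4

theorem p23 (x : V) (h : m (m x x) (m x (m x x)) = 0) : m x (m x (m x (m x x))) = 0 := by
  have h1 := pal1 m comm hpa4 x (m x x)
  rw [hpa4, h] at h1
  linear_combination (norm := module) (-1 / 3 : F) • h1

theorem lin32_01 (h : ∀ x y, m y (m y (m x (m x x))) = 0) (x y : V) :
    (2 : F) • m x (m x (m x (m x y))) + m x (m x (m (m x x) y)) = 0 := by
  have h5 : ∀ x, m x (m x (m x (m x x))) = 0 := by
    intro x
    have h0 := h x x
    exact h0
  have h1 := h x x
  have h2 := h x y
  have h3 := h x (x + y)
  simp only [map_add, LinearMap.add_apply] at h3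
  have hl : m x (m y (m x (m x x))) +
      m y (m x (m x (m x x))) = 0 := by
    linear_combination (norm := module) h3 - h1 - h2
  rw [comm y (m x (m x x))] at hl
  have t1 := tt m comm hpa4 h5 x y
  have t2 := xl3 m comm hpa4 x y
  linear_combination (norm := module) (-1 : F) • hl + (1 : F) • t2 + (1 : F) • t1

theorem lin32_02 (h : ∀ x y, m y (m x (m y (m x x))) = 0) (x y : V) :
    m x (m x (m (m x x) y)) - (4 : F) • m x (m (m x x) (m x y)) = 0 := by
  have h5 : ∀ x, m x (m x (m x (m x x))) = 0 := by
    intro x
    have h0 := h x x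
    exact h0
  have h1 := h x x
  have h2 := h x y
  have h3 := h x (x + y)
  simp only [map_add, LinearMap.add_apply] at h3
  have hl : m x (m x (m y (m x x))) +
      m y (m x (m x (m x x))) = 0 := by
    linear_combination (norm := module) h3 - h1 - h2
  rw [comm y (m x x)] at hl
  have t1 := tt m comm hpa4 h5 x y
  linear_combination (norm := module) (1 : F) • hl + (-1 : F) • t1

theorem lin32_03 (h : ∀ x y, m x (m y (m y (m x x))) = 0) (x y : V) :
    m x (m x (m x (m x y))) - (2 : F) • m x (m (m x x) (m x y)) = 0 := by
  have h5 : ∀ x, m x (m x (m x (m x x))) = 0 := by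
    intro x
    have h0 := h x x
    exact h0
  have h1 := h x x
  have h2 := h x y
  have h3 := h x (x + y)
  simp only [map_add, LinearMap.add_apply] at h3
  have hl : m x (m x (m y (m x x))) +
      m x (m y (m x (m x x))) = 0 := by
    linear_combination (norm := module) h3 - h1 - h2
  rw [comm y (m x x), comm y (m x (m x x))] at hl
  have t2 := xl3 m comm hpa4 x y
  linear_combination (norm := module) (-1/2 : F) • hl + (1/2 : F) • t2

theorem lin32_04 (h : ∀ x y, m y (m x (m x (m x y))) = 0) (x y : V) :
    m x (m x (m x (m x y))) - (4 : F) • m x (m (m x x) (m x y)) = 0 := by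
  have h5 : ∀ x, m x (m x (m x (m x x))) = 0 := by
    intro x
    have h0 := h x x
    exact h0
  have h1 := h x x
  have h2 := h x y
  have h3 := h x (x + y)
  simp only [map_add, LinearMap.add_apply] at h3
  have hl : m x (m x (m x (m x y))) +
      m y (m x (m x (m x x))) = 0 := by
    linear_combination (norm := module) h3 - h1 - h2
  have t1 := tt m comm hpa4 h5 x y
  linear_combination (norm := module) (1 : F) • hl + (-1 : F) • t1

theorem lin32_05 (h : ∀ x y, m x (m y (m x (m x y))) = 0) (x y : V) :
    m x (m x (m x (m x y))) + m x (m x (m (m x x) y)) - (4 : F) • m x (m (m x x) (m x y)) = 0 := by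
  have h5 : ∀ x, m x (m x (m x (m x x))) = 0 := by
    intro x
    have h0 := h x x
    exact h0
  have h1 := h x x
  have h2 := h x y
  have h3 := h x (x + y)
  simp only [map_add, LinearMap.add_apply] at h3
  have hl : m x (m x (m x (m x y))) +
      m x (m y (m x (m x x))) = 0 := by
    linear_combination (norm := module) h3 - h1 - h2
  rw [comm y (m x (m x x))] at hl
  have t2 := xl3 m comm hpa4 x y
  linear_combination (norm := module) (-1 : F) • hl + (1 : F) • t2

theorem lin32_06 (h : ∀ x y, m x (m x (m y (m x y))) = 0) (x y : V) :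
    m x (m x (m x (m x y))) + m x (m x (m (m x x) y)) = 0 := by
  have h1 := h x x
  have h2 := h x y
  have h3 := h x (x + y)
  simp only [map_add, LinearMap.add_apply] at h3
  have hl : m x (m x (m x (m x y))) +
      m x (m x (m y (m x x))) = 0 := by
    linear_combination (norm := module) h3 - h1 - h2
  rw [comm y (m x x)] at hl
  linear_combination (norm := module) (1 : F) • hl

theorem lin32_07 (h : ∀ x y, m x (m x (m x (m y y))) = 0) (x y : V) :
    m x (m x (m x (m x y))) = 0 := by
  have h1 := h x x
  have h2 := h x y
  have h3 := h x (x + y)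
  simp only [map_add, LinearMap.add_apply] at h3
  have hl : m x (m x (m x (m x y))) +
      m x (m x (m x (m y x))) = 0 := by
    linear_combination (norm := module) h3 - h1 - h2
  rw [comm y x] at hl
  linear_combination (norm := module) (1/2 : F) • hl

theorem lin32_08 (h : ∀ x y, m x (m (m x x) (m y y)) = 0) (x y : V) :
    m x (m (m x x) (m x y)) = 0 := by
  have h1 := h x x
  have h2 := h x y
  have h3 := h x (x + y)
  simp only [map_add, LinearMap.add_apply] at h3
  have hl : m x (m (m x x) (m x y)) +
      m x (m (m x x) (m y x)) = 0 := by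
    linear_combination (norm := module) h3 - h1 - h2
  rw [comm y x] at hl
  linear_combination (norm := module) (1/2 : F) • hl

theorem lin32_09 (h : ∀ x y, m x (m (m x y) (m x y)) = 0) (x y : V) :
    m x (m (m x x) (m x y)) = 0 := by
  have h1 := h x x
  have h2 := h x y
  have h3 := h x (x + y)
  simp only [map_add, LinearMap.add_apply] at h3
  have hl : m x (m (m x x) (m x y)) +
      m x (m (m x y) (m x x)) = 0 := by
    linear_combination (norm := module) h3 - h1 - h2
  rw [comm (m x y) (m x x)] at hl
  linear_combination (norm := module) (1/2 : F) • hl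

theorem lin32_10 (h : ∀ x y, m y (m (m x x) (m x y)) = 0) (x y : V) :
    m x (m (m x x) (m x y)) = 0 := by
  have h5 : ∀ x, m x (m x (m x (m x x))) = 0 := by
    intro x
    have h0 := h x x
    rw [hpa4] at h0
    exact h0
  have h1 := h x x
  have h2 := h x y
  have h3 := h x (x + y)
  simp only [map_add, LinearMap.add_apply] at h3
  have hl : m x (m (m x x) (m x y)) +
      m y (m (m x x) (m x x)) = 0 := by
    linear_combination (norm := module) h3 - h1 - h2
  rw [hpa4] at hl
  have t1 := tt m comm hpa4 h5 x y
  linear_combination (norm := module) (-1/3 : F) • hl + (1/3 : F) • t1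

theorem lin32_11 (h : ∀ x y, m (m x x) (m x (m y y)) = 0) (x y : V) :
    m (m x x) (m x (m x y)) = 0 := by
  have h1 := h x x
  have h2 := h x y
  have h3 := h x (x + y)
  simp only [map_add, LinearMap.add_apply] at h3
  have hl : m (m x x) (m x (m x y)) +
      m (m x x) (m x (m y x)) = 0 := by
    linear_combination (norm := module) h3 - h1 - h2
  rw [comm y x] at hl
  linear_combination (norm := module) (1/2 : F) • hl

theorem lin32_12 (h : ∀ x y, m (m x x) (m y (m x y)) = 0) (x y : V) :
    (4 : F) • m x (m x (m x (m x y))) + (2 : F) • m x (m (m x x) (m x y)) - (9 : F) • m (m x x) (m x (m x y)) = 0 := by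
  have h5 : ∀ x, m x (m x (m x (m x x))) = 0 := by
    intro x
    have h0 := h x x
    exact p23 m comm hpa4 x h0
  have h1 := h x x
  have h2 := h x y
  have h3 := h x (x + y)
  simp only [map_add, LinearMap.add_apply] at h3
  have hl : m (m x x) (m x (m x y)) +
      m (m x x) (m y (m x x)) = 0 := by
    linear_combination (norm := module) h3 - h1 - h2
  rw [comm y (m x x)] at hl
  have t4 := ss m comm hpa4 h5 x y
  linear_combination (norm := module) (1 : F) • hl + (-1 : F) • t4

theorem lin32_13 (h : ∀ x y, m (m x y) (m x (m x y)) = 0) (x y : V) :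
    (2 : F) • m x (m x (m x (m x y))) + m x (m (m x x) (m x y)) - (5 : F) • m (m x x) (m x (m x y)) = 0 := by
  have h5 : ∀ x, m x (m x (m x (m x x))) = 0 := by
    intro x
    have h0 := h x x
    exact p23 m comm hpa4 x h0
  have h1 := h x x
  have h2 := h x y
  have h3 := h x (x + y)
  simp only [map_add, LinearMap.add_apply] at h3
  have hl : m (m x x) (m x (m x y)) +
      m (m x y) (m x (m x x)) = 0 := by
    linear_combination (norm := module) h3 - h1 - h2
  rw [comm (m x y) (m x (m x x))] at hl
  have t3 := l3x m comm hpa4 x y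
  linear_combination (norm := module) (-1 : F) • hl + (1 : F) • t3

theorem lin32_14 (h : ∀ x y, m (m x y) (m y (m x x)) = 0) (x y : V) :
    (2 : F) • m x (m x (m x (m x y))) + m x (m (m x x) (m x y)) - (6 : F) • m (m x x) (m x (m x y)) = 0 := by
  have h5 : ∀ x, m x (m x (m x (m x x))) = 0 := by
    intro x
    have h0 := h x x
    exact p23 m comm hpa4 x h0
  have h1 := h x x
  have h2 := h x y
  have h3 := h x (x + y)
  simp only [map_add, LinearMap.add_apply] at h3
  have hl : m (m x x) (m y (m x x)) +
      m (m x y) (m x (m x x)) = 0 := by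
    linear_combination (norm := module) h3 - h1 - h2
  rw [comm y (m x x), comm (m x y) (m x (m x x))] at hl
  have t3 := l3x m comm hpa4 x y
  have t4 := ss m comm hpa4 h5 x y
  linear_combination (norm := module) (1 : F) • hl + (-1 : F) • t4 + (-1 : F) • t3

theorem lin32_15 (h : ∀ x y, m (m x (m x x)) (m y y) = 0) (x y : V) :
    m (m x (m x x)) (m x y) = 0 := by
  have h1 := h x x
  have h2 := h x y
  have h3 := h x (x + y)
  simp only [map_add, LinearMap.add_apply] at h3
  have hl : m (m x (m x x)) (m x y) +
      m (m x (m x x)) (m y x) = 0 := by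
    linear_combination (norm := module) h3 - h1 - h2
  rw [comm y x] at hl
  linear_combination (norm := module) (1/2 : F) • hl

end

end Pool.Agent.Alb
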