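import Mathlib
import Pool.Agent.Lib_MP_380d39.Words

set_option autoImplicit false

/-!
Nonassociative words with three letters x and two letters y, and words over any alphabet.
-/

namespace Pool.Agent.Alb

universe v w

section

variable {A : Type v} [NonUnitalNonAssocCommRing A]

theorem wev_comm (a b : FreeMagma Bool) (x y : A) : wev (a * b) x y = wev (b * a) x y := by
  rw [wev_mul, wev_mul, mul_comm]

theorem w02 (w : FreeMagma Bool) (h : wdeg w = (0, 2)) : ∀ x y : A, wev w x y = y * y := by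
  obtain ⟨a, b, rfl, h1, h2, h3, h4⟩ := word_mul w 0 2 h (by norm_num)
  intro x y
  rw [wev_mul, w01 a (dg_ext (i := 0) (j := 1) (by omega) (by omega)),
    w01 b (dg_ext (i := 0) (j := 1) (by omega) (by omega))]

theorem w12 (w : FreeMagma Bool) (h : wdeg w = (1, 2)) :
    (∀ x y : A, wev w x y = x * (y * y)) ∨ (∀ x y : A, wev w x y = y * (x * y)) := by
  obtain ⟨a, b, rfl, h1, h2, h3, h4⟩ := word_mul w 1 2 h (by norm_num)
  have hc : ((wdeg a).1 = 1 ∧ (wdeg a).2 = 0) ∨ ((wdeg a).1 = 0 ∧ (wdeg a).2 = 1) ∨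
      ((wdeg a).1 = 0 ∧ (wdeg a).2 = 2) ∨ ((wdeg a).1 = 1 ∧ (wdeg a).2 = 1) := by omega
  rcases hc with ⟨c1, c2⟩ | ⟨c1, c2⟩ | ⟨c1, c2⟩ | ⟨c1, c2⟩
  · refine Or.inl fun x y => ?_
    rw [wev_mul, w10 a (dg_ext (i := 1) (j := 0) (by omega) (by omega)),
      w02 b (dg_ext (i := 0) (j := 2) (by omega) (by omega))]
  · refine Or.inr fun x y => ?_
    rw [wev_mul, w01 a (dg_ext (i := 0) (j := 1) (by omega) (by omega)),
      w11 b (dg_ext (i := 1) (j := 1) (by omega) (by omega))]
  · refine Or.inl fun x y => ?_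
    rw [wev_comm, wev_mul, w02 a (dg_ext (i := 0) (j := 2) (by omega) (by omega)),
      w10 b (dg_ext (i := 1) (j := 0) (by omega) (by omega))]
  · refine Or.inr fun x y => ?_
    rw [wev_comm, wev_mul, w11 a (dg_ext (i := 1) (j := 1) (by omega) (by omega)),
      w01 b (dg_ext (i := 0) (j := 1) (by omega) (by omega))]

/-- the possible values of a word of type (2,2) -/
def fm22 (A : Type v) [NonUnitalNonAssocCommRing A] : List (A → A → A) :=
  [fun x y => x * (x * (y * y)), fun x y => x * (y * (x * y)), fun x y => y * (x * (x * y)),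
    fun x y => y * (y * (x * x)), fun x y => (x * x) * (y * y), fun x y => (x * y) * (x * y)]

theorem w22_aux (a b : FreeMagma Bool) (h1 : (wdeg a).1 + (wdeg b).1 = 2)
    (h2 : (wdeg a).2 + (wdeg b).2 = 2) (h3 : 0 < (wdeg a).1 + (wdeg a).2)
    (h5 : (wdeg a).1 + (wdeg a).2 ≤ 2) :
    ∃ f ∈ fm22 A, ∀ x y : A, wev (a * b) x y = f x y := by
  have hc : ((wdeg a).1 = 1 ∧ (wdeg a).2 = 0) ∨ ((wdeg a).1 = 0 ∧ (wdeg a).2 = 1) ∨
      ((wdeg a).1 = 2 ∧ (wdeg a).2 = 0) ∨ ((wdeg a).1 = 1 ∧ (wdeg a).2 = 1) ∨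
      ((wdeg a).1 = 0 ∧ (wdeg a).2 = 2) := by omega
  rcases hc with ⟨c1, c2⟩ | ⟨c1, c2⟩ | ⟨c1, c2⟩ | ⟨c1, c2⟩ | ⟨c1, c2⟩
  · have ha := w10 (A := A) a (dg_ext (i := 1) (j := 0) (by omega) (by omega))
    rcases w12 (A := A) b (dg_ext (i := 1) (j := 2) (by omega) (by omega)) with g | g
    · exact ⟨fun x y => x * (x * (y * y)), by simp [fm22], fun x y => by rw [wev_mul, ha, g]⟩
    · exact ⟨fun x y => x * (y * (x * y)), by simp [fm22], fun x y => by rw [wev_mul, ha, g]⟩
  · have ha := w01 (A := A) a (dg_ext (i := 0) (j := 1) (by omega) (by omega))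
    rcases w21 (A := A) b (dg_ext (i := 2) (j := 1) (by omega) (by omega)) with g | g
    · exact ⟨fun x y => y * (x * (x * y)), by simp [fm22], fun x y => by rw [wev_mul, ha, g]⟩
    · exact ⟨fun x y => y * (y * (x * x)), by simp [fm22], fun x y => by
        rw [wev_mul, ha, g, mul_comm (x * x) y]⟩
  · have ha := w20 (A := A) a (dg_ext (i := 2) (j := 0) (by omega) (by omega))
    have hb := w02 (A := A) b (dg_ext (i := 0) (j := 2) (by omega) (by omega))
    exact ⟨fun x y => (x * x) * (y * y), by simp [fm22], fun x y => by rw [wev_mul, ha, hb]⟩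
  · have ha := w11 (A := A) a (dg_ext (i := 1) (j := 1) (by omega) (by omega))
    have hb := w11 (A := A) b (dg_ext (i := 1) (j := 1) (by omega) (by omega))
    exact ⟨fun x y => (x * y) * (x * y), by simp [fm22], fun x y => by rw [wev_mul, ha, hb]⟩
  · have ha := w02 (A := A) a (dg_ext (i := 0) (j := 2) (by omega) (by omega))
    have hb := w20 (A := A) b (dg_ext (i := 2) (j := 0) (by omega) (by omega))
    exact ⟨fun x y => (x * x) * (y * y), by simp [fm22], fun x y => by
      rw [wev_comm, wev_mul, ha, hb]⟩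

theorem w22 (w : FreeMagma Bool) (h : wdeg w = (2, 2)) :
    ∃ f ∈ fm22 A, ∀ x y : A, wev w x y = f x y := by
  obtain ⟨a, b, rfl, h1, h2, h3, h4⟩ := word_mul w 2 2 h (by norm_num)
  by_cases hs : (wdeg a).1 + (wdeg a).2 ≤ 2
  · exact w22_aux a b h1 h2 h3 hs
  · obtain ⟨f, hf, g⟩ := w22_aux (A := A) b a (by omega) (by omega) h4 (by omega)
    exact ⟨f, hf, fun x y => by rw [wev_comm, g]⟩

/-- the possible values of a word of type (3,2) -/
def fm32 (A : Type v) [NonUnitalNonAssocCommRing A] : List (A → A → A) :=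
  [fun x y => y * (y * (x * (x * x))), fun x y => y * (x * (y * (x * x))),
    fun x y => x * (y * (y * (x * x))), fun x y => y * (x * (x * (x * y))),
    fun x y => x * (y * (x * (x * y))), fun x y => x * (x * (y * (x * y))),
    fun x y => x * (x * (x * (y * y))), fun x y => x * ((x * x) * (y * y)),
    fun x y => x * ((x * y) * (x * y)), fun x y => y * ((x * x) * (x * y)),
    fun x y => (x * x) * (x * (y * y)), fun x y => (x * x) * (y * (x * y)),
    fun x y => (x * y) * (x * (x * y)), fun x y => (x * y) * (y * (x * x)),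
    fun x y => (x * (x * x)) * (y * y)]

theorem w32_aux (a b : FreeMagma Bool) (h1 : (wdeg a).1 + (wdeg b).1 = 3)
    (h2 : (wdeg a).2 + (wdeg b).2 = 2) (h3 : 0 < (wdeg a).1 + (wdeg a).2)
    (h5 : (wdeg a).1 + (wdeg a).2 ≤ 2) :
    ∃ f ∈ fm32 A, ∀ x y : A, wev (a * b) x y = f x y := by
  have hc : ((wdeg a).1 = 1 ∧ (wdeg a).2 = 0) ∨ ((wdeg a).1 = 0 ∧ (wdeg a).2 = 1) ∨
      ((wdeg a).1 = 2 ∧ (wdeg a).2 = 0) ∨ ((wdeg a).1 = 1 ∧ (wdeg a).2 = 1) ∨
      ((wdeg a).1 = 0 ∧ (wdeg a).2 = 2) := by omega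
  rcases hc with ⟨c1, c2⟩ | ⟨c1, c2⟩ | ⟨c1, c2⟩ | ⟨c1, c2⟩ | ⟨c1, c2⟩
  · have ha := w10 (A := A) a (dg_ext (i := 1) (j := 0) (by omega) (by omega))
    obtain ⟨f, hf, g⟩ := w22 (A := A) b (dg_ext (i := 2) (j := 2) (by omega) (by omega))
    refine ⟨fun x y => x * f x y, ?_, fun x y => by rw [wev_mul, ha, g]⟩
    simp only [fm22, List.mem_cons, List.not_mem_nil, or_false] at hf
    rcases hf with rfl | rfl | rfl | rfl | rfl | rfl <;> simp [fm32]
  · have ha := w01 (A := A) a (dg_ext (i := 0) (j := 1) (by omega) (by omega))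
    rcases w31 (A := A) b (dg_ext (i := 3) (j := 1) (by omega) (by omega)) with g | g | g | g
    · exact ⟨fun x y => y * (x * (x * (x * y))), by simp [fm32], fun x y => by
        rw [wev_mul, ha, g]⟩
    · exact ⟨fun x y => y * (x * (y * (x * x))), by simp [fm32], fun x y => by
        rw [wev_mul, ha, g, mul_comm (x * x) y]⟩
    · exact ⟨fun x y => y * ((x * x) * (x * y)), by simp [fm32], fun x y => by
        rw [wev_mul, ha, g]⟩
    · exact ⟨fun x y => y * (y * (x * (x * x))), by simp [fm32], fun x y => by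
        rw [wev_mul, ha, g, mul_comm (x * (x * x)) y]⟩
  · have ha := w20 (A := A) a (dg_ext (i := 2) (j := 0) (by omega) (by omega))
    rcases w12 (A := A) b (dg_ext (i := 1) (j := 2) (by omega) (by omega)) with g | g
    · exact ⟨fun x y => (x * x) * (x * (y * y)), by simp [fm32], fun x y => by
        rw [wev_mul, ha, g]⟩
    · exact ⟨fun x y => (x * x) * (y * (x * y)), by simp [fm32], fun x y => by
        rw [wev_mul, ha, g]⟩
  · have ha := w11 (A := A) a (dg_ext (i := 1) (j := 1) (by omega) (by omega))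
    rcases w21 (A := A) b (dg_ext (i := 2) (j := 1) (by omega) (by omega)) with g | g
    · exact ⟨fun x y => (x * y) * (x * (x * y)), by simp [fm32], fun x y => by
        rw [wev_mul, ha, g]⟩
    · exact ⟨fun x y => (x * y) * (y * (x * x)), by simp [fm32], fun x y => by
        rw [wev_mul, ha, g, mul_comm (x * x) y]⟩
  · have ha := w02 (A := A) a (dg_ext (i := 0) (j := 2) (by omega) (by omega))
    have hb := w30 (A := A) b (dg_ext (i := 3) (j := 0) (by omega) (by omega))
    exact ⟨fun x y => (x * (x * x)) * (y * y), by simp [fm32], fun x y => by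
      rw [wev_comm, wev_mul, ha, hb]⟩

theorem w32 (w : FreeMagma Bool) (h : wdeg w = (3, 2)) :
    ∃ f ∈ fm32 A, ∀ x y : A, wev w x y = f x y := by
  obtain ⟨a, b, rfl, h1, h2, h3, h4⟩ := word_mul w 3 2 h (by norm_num)
  by_cases hs : (wdeg a).1 + (wdeg a).2 ≤ 2
  · exact w32_aux a b h1 h2 h3 hs
  · obtain ⟨f, hf, g⟩ := w32_aux (A := A) b a (by omega) (by omega) h4 (by omega)
    exact ⟨f, hf, fun x y => by rw [wev_comm, g]⟩

end

end Pool.Agent.Alb
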