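import Mathlib
import Pool.Agent.Lib_MP_380d39.Words4

set_option autoImplicit false

/-!
Words of degree five in at least two different letters: reduction to two letters.
-/

namespace Pool.Agent.Alb

universe v w

section

variable {α : Type w}

/-- the multiset of the letters of a word -/
def wlet (w : FreeMagma α) : Multiset α :=
  Multiplicative.toAdd (FreeMagma.lift (fun a : α => Multiplicative.ofAdd ({a} : Multiset α)) w)

theorem wlet_mul (a b : FreeMagma α) : wlet (a * b) = wlet a + wlet b := by
  simp [wlet]

theorem wlet_of (a : α) : wlet (FreeMagma.of a) = {a} := by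
  simp [wlet]

theorem wdeg_map (p : α → Bool) (w : FreeMagma α) :
    wdeg (FreeMagma.map p w) =
      ((wlet w).countP (fun a => p a = false), (wlet w).countP (fun a => p a = true)) := by
  induction w using FreeMagma.recOnMul with
  | ih1 a =>
    rw [FreeMagma.map_of, wlet_of]
    cases h : p a
    · have h1 : ({a} : Multiset α).countP (fun a => p a = false) = 1 :=
        Multiset.countP_cons_of_pos (p := fun a => p a = false) 0 h
      have h2 : ({a} : Multiset α).countP (fun a => p a = true) = 0 :=
        Multiset.countP_cons_of_neg (p := fun a => p a = true) 0 (by simp [h])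
      rw [wdeg_false, h1, h2]
    · have h1 : ({a} : Multiset α).countP (fun a => p a = true) = 1 :=
        Multiset.countP_cons_of_pos (p := fun a => p a = true) 0 h
      have h2 : ({a} : Multiset α).countP (fun a => p a = false) = 0 :=
        Multiset.countP_cons_of_neg (p := fun a => p a = false) 0 (by simp [h])
      rw [wdeg_true, h1, h2]
  | ih2 a b ha hb =>
    rw [map_mul, wdeg_mul, ha, hb, wlet_mul]
    simp only [Multiset.countP_add, Prod.mk_add_mk]

theorem wev_map {A : Type v} [NonUnitalNonAssocCommRing A] (p : α → Bool) (w : FreeMagma α)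
    (x y : A) : wev (FreeMagma.map p w) x y =
      FreeMagma.lift (fun a : α => if p a then y else x) w := by
  induction w using FreeMagma.recOnMul with
  | ih1 a =>
    rw [FreeMagma.map_of]
    simp [wev]
  | ih2 a b ha hb =>
    rw [map_mul, map_mul, wev_mul, ha, hb]

/-- a multiset of five letters, not all equal, contains a letter exactly once or exactly twice -/
theorem count_one_or_two (s : Multiset α) [DecidableEq α] (hs : s.card = 5)
    (h : ∃ a ∈ s, ∃ b ∈ s, a ≠ b) : ∃ c, s.count c = 1 ∨ s.count c = 2 := by
  obtain ⟨a, ha, b, hb, hab⟩ := h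
  have h1 : 0 < s.count a := Multiset.count_pos.mpr ha
  have h2 : 0 < s.count b := Multiset.count_pos.mpr hb
  have h3 : s.count a + s.count b ≤ 5 := by
    rw [← hs]
    have e1 : s.count b = (s.filter (fun c => c ≠ a)).count b := by
      rw [Multiset.count_filter_of_pos]
      exact fun h => hab h.symm
    have e2 : s.count a = (s.filter (fun c => c = a)).card := by
      rw [Multiset.filter_eq', Multiset.card_replicate]
    rw [e1, e2]
    calc (s.filter (fun c => c = a)).card + (s.filter (fun c => c ≠ a)).count b
        ≤ (s.filter (fun c => c = a)).card + (s.filter (fun c => c ≠ a)).card :=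
          Nat.add_le_add_left (Multiset.count_le_card _ _) _
      _ = s.card := by
          rw [← Multiset.card_add, Multiset.filter_add_not]
  by_cases hc : s.count a ≤ 2
  · exact ⟨a, by omega⟩
  · exact ⟨b, by omega⟩

theorem two_letters (w : FreeMagma α) (hs : (wlet w).card = 5)
    (h : ∃ a ∈ wlet w, ∃ b ∈ wlet w, a ≠ b) :
    ∃ p : α → Bool, wdeg (FreeMagma.map p w) = (4, 1) ∨ wdeg (FreeMagma.map p w) = (3, 2) := by
  classical
  obtain ⟨c, hc⟩ := count_one_or_two (wlet w) hs h
  refine ⟨fun a => decide (a = c), ?_⟩
  rw [wdeg_map]
  have e1 : (wlet w).countP (fun a => decide (a = c) = true) = (wlet w).count c := by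
    simp only [decide_eq_true_eq]
    rw [Multiset.count]
    exact Multiset.countP_congr rfl fun x _ => by simp [eq_comm]
  have e2 : (wlet w).countP (fun a => decide (a = c) = false) +
      (wlet w).countP (fun a => decide (a = c) = true) = 5 := by
    rw [← hs]
    have := Multiset.card_eq_countP_add_countP (fun a => decide (a = c) = true) (wlet w)
    rw [this, add_comm]
    congr 1
    exact Multiset.countP_congr rfl fun x _ => by simp
  rcases hc with hc | hc
  · left
    rw [e1, hc] at e2 ⊢
    rw [Prod.mk.injEq]
    exact ⟨by omega, rfl⟩
  · right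
    rw [e1, hc] at e2 ⊢
    rw [Prod.mk.injEq]
    exact ⟨by omega, rfl⟩

end

end Pool.Agent.Alb
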