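import Mathlib
import Pool.Agent.Lib_MP_380d39.Derived

set_option autoImplicit false

/-!
# From perfect subalgebras to the derived series
-/

namespace Pool.Agent.Alb

universe u v

section wrap

variable {F : Type u} [Field F] {A : Type v} [NonUnitalNonAssocCommRing A] [Module F A]
  [IsScalarTower F A A] [SMulCommClass F A A] [FiniteDimensional F A]

omit [FiniteDimensional F A] in
/-- A subspace which is the span of its products is perfect as an algebra. -/
theorem perfect_mulOn (U : Submodule F A) (h : sqSpan U = U)
    (hU : ∀ a ∈ U, ∀ b ∈ U, a * b ∈ U) :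
    Submodule.span F {z : U | ∃ a b : U, z = mulOn U hU a b} = ⊤ := by
  rw [eq_top_iff]
  have key : ∀ z : A, z ∈ sqSpan U → ∀ hz : z ∈ U,
      (⟨z, hz⟩ : U) ∈ Submodule.span F {z : U | ∃ a b : U, z = mulOn U hU a b} := by
    intro z hz
    unfold sqSpan at hz
    induction hz using Submodule.span_induction with
    | mem z hz =>
      intro hz'
      obtain ⟨a, ha, b, hb, rfl⟩ := hz
      exact Submodule.subset_span ⟨⟨a, ha⟩, ⟨b, hb⟩, rfl⟩
    | zero =>
      intro hz'
      exact Submodule.zero_mem _
    | add x y hx hy ihx ihy =>
      intro hz'
      have hx' : x ∈ U := by rw [← h]; exact hx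
      have hy' : y ∈ U := by rw [← h]; exact hy
      exact Submodule.add_mem _ (ihx hx') (ihy hy')
    | smul r x hx ihx =>
      intro hz'
      have hx' : x ∈ U := by rw [← h]; exact hx
      exact Submodule.smul_mem _ r (ihx hx')
  rintro ⟨z, hz⟩ -
  exact key z (by rw [h]; exact hz) hz

/-- If all perfect subalgebras are zero, then the term with index `dim A` of the derived series
is zero. -/
theorem der_eq_bot_of_perfect
    (hp : ∀ (U : Submodule F A) (hU : ∀ a ∈ U, ∀ b ∈ U, a * b ∈ U),
      Submodule.span F {z : U | ∃ a b : U, z = mulOn U hU a b} = ⊤ → Subsingleton U) :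
    der F A (Module.finrank F A) = ⊥ := by
  have hst : ∀ U : Submodule F A, sqSpan U = U → U = ⊥ := by
    intro U h
    have hU : ∀ a ∈ U, ∀ b ∈ U, a * b ∈ U := by
      intro a ha b hb
      rw [← h]
      exact mul_mem_sqSpan U ha hb
    have hs : Subsingleton U := hp U hU (perfect_mulOn U h hU)
    rw [Submodule.eq_bot_iff]
    intro x hx
    have := hs.elim (⟨x, hx⟩ : U) 0
    exact congrArg Subtype.val this
  have hk : ∀ k : ℕ, Module.finrank F (der F A k) + k ≤ Module.finrank F A ∨ der F A k = ⊥ := by
    intro k
    induction k with
    | zero =>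
      left
      rw [add_zero]
      exact Submodule.finrank_le _
    | succ k ih =>
      rcases ih with ih | ih
      · rcases eq_or_ne (der F A (k + 1)) (der F A k) with he | he
        · right
          rw [he, hst (der F A k) he]
        · left
          have hlt : der F A (k + 1) < der F A k := lt_of_le_of_ne (der_succ_le k) he
          have := Submodule.finrank_lt_finrank_of_lt hlt
          omega
      · right
        have := der_succ_le (F := F) (A := A) k
        rw [ih] at this
        exact le_bot_iff.mp this
  rcases hk (Module.finrank F A) with h | h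
  · have h0 : Module.finrank F (der F A (Module.finrank F A)) = 0 := by omega
    exact Submodule.finrank_eq_zero.mp h0
  · exact h

end wrap

end Pool.Agent.Alb
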